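import Pool.Agent.TR.Defs

/-!
# Trace inequality: statements of the modules
-/

open MeasureTheory Metric Set
open scoped InnerProductSpace ContDiff

namespace TrI

noncomputable section

/-- MODULE MU: integration against a measure of growth d - 1 -/
def StmtMu : Prop :=
  ∀ (d : ℕ), 1 ≤ d → ∀ C' : ℝ, 0 < C' → ∃ C : ℝ, 0 ≤ C ∧
    ∀ (E : Type) [NormedAddCommGroup E] [InnerProductSpace ℝ E] [FiniteDimensional ℝ E]
      (μ : Measure (Sp d)), IsFiniteMeasureOnCompacts μ →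
      (∀ x : Sp d, ∀ r : ℝ, 0 < r → μ (ball x r) ≤ ENNReal.ofReal (C' * r ^ (d - 1))) →
      ∀ f : Sp d → E, Continuous f → HasCompactSupport f → ∀ s0 : ℝ, 0 < s0 →
        (∀ J : ℕ, ∫⁻ x, ENNReal.ofReal (∑ j ∈ Finset.range J, er s0 f j x) ∂μ ≤
          ENNReal.ofReal C * ∫⁻ x, ‖f x‖ₑ) ∧
        (∀ J : ℕ, ∫⁻ x, ENNReal.ofReal (am s0 f J x) ∂μ ≤
          ENNReal.ofReal C * ∫⁻ x, ‖f x‖ₑ) ∧
        (∀ l : ℕ, 1 ≤ l → ∀ g : Sp d → ℝ, Measurable g → (∀ z, 0 ≤ g z) →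
          (∃ M, ∀ z, g z ≤ M) →
          ∫⁻ x, ENNReal.ofReal (sc s0 l * kav s0 0 l g x) ∂μ ≤
            ENNReal.ofReal C * ∫⁻ z, ENNReal.ofReal (g z))

/-- MODULE CG: replacing f by its level m average in an integral against a Lipschitz function -/
def StmtCG : Prop :=
  ∀ (d : ℕ) (E : Type) [NormedAddCommGroup E] [InnerProductSpace ℝ E] [FiniteDimensional ℝ E]
    (f : Sp d → E), Continuous f → HasCompactSupport f → ∀ s0 : ℝ, 0 < s0 →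
    ∀ (m : ℕ) (Φ : Sp d → E) (l : ℝ) (q : Sp d) (ρ t : ℝ) (x : Sp d), 0 ≤ l →
    (∀ y y', ‖Φ y - Φ y'‖ ≤ l * ‖y - y'‖) → (∀ y, ρ ≤ ‖y - q‖ → Φ y = 0) → 0 < t →
    |∫ y, ⟪Φ y, f (x + t • y) - fl s0 f m (x + t • y)⟫_ℝ| ≤
      l * ∫ y in ball q (ρ + sc s0 m / (3 * t)),
        (sc s0 m / (7 * t) * ‖fl s0 f m (x + t • y)‖ +
          8 / 7 * ∑ k ∈ Finset.range m, sc s0 k / t * gap s0 f k (x + t • y))

/-- the facts on deviations and gaps -/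
structure DevFacts {d : ℕ} {E : Type} [NormedAddCommGroup E] [InnerProductSpace ℝ E] (C : ℝ)
    (s0 : ℝ) (f : Sp d → E) : Prop where
  gap_nonneg : ∀ k x, 0 ≤ gap s0 f k x
  er_nonneg : ∀ j x, 0 ≤ er s0 f j x
  am_nonneg : ∀ j x, 0 ≤ am s0 f j x
  /-- deviation from the direction at level j+4 -/
  dev : ∀ (j m : ℕ) (x : Sp d) (e : E), ‖e‖ = 1 → fl s0 f (j + 4) x = ‖fl s0 f (j + 4) x‖ • e →
    sc s0 j / (sc s0 j) ^ d * ∫ z in ball x (384 * sc s0 j),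
      (‖fl s0 f (j - m) z‖ - ⟪fl s0 f (j - m) z, e⟫_ℝ) ≤ C * 2 ^ m * er s0 f j x
  gap_le : ∀ (j k : ℕ) (x : Sp d), k ≤ j + 2 →
    (1 / 2 : ℝ) ^ (j - k) * (sc s0 j / (sc s0 j) ^ d * ∫ z in ball x (384 * sc s0 j),
      gap s0 f k z) ≤ C * er s0 f j x
  am_mono : ∀ (j : ℕ) (x : Sp d), am s0 f j x ≤ C * (am s0 f (j + 1) x + er s0 f (j + 1) x)
  transfer : ∀ (k m : ℕ) (q : Sp d) (r : ℝ), k ≤ m →
    ∫ z in ball q r, ‖fl s0 f k z‖ ≤ (∫ z in ball q (r + sc s0 m / 7), ‖fl s0 f m z‖) +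
      ∑ i ∈ Finset.Ico k m, ∫ z in ball q (r + sc s0 m / 7), gap s0 f i z
  transfer' : ∀ (k m : ℕ) (q : Sp d) (r : ℝ), k ≤ m →
    ∫ z in ball q r, ‖fl s0 f m z‖ ≤ ∫ z in ball q (r + sc s0 m / 7), ‖fl s0 f k z‖
  /-- directions vary slowly -/
  dir : ∀ (j : ℕ) (x z : Sp d) (e : E), ‖e‖ = 1 → fl s0 f (j + 4) x = ‖fl s0 f (j + 4) x‖ • e →
    ‖z - x‖ ≤ sc s0 (j + 2) / 4 →
    sc s0 j * (‖fl s0 f (j + 3) z‖ - ⟪fl s0 f (j + 3) z, e⟫_ℝ) ≤ C * er s0 f j x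
  /-- lower bound of f at level j+3 by the mass of level j -/
  low : ∀ (j : ℕ) (x z : Sp d), ‖z - x‖ ≤ sc s0 (j + 2) / 4 →
    am s0 f j x ≤ C * (sc s0 j * ‖fl s0 f (j + 3) z‖ + er s0 f j x)

/-- MODULE DEV -/
def StmtDev : Prop :=
  ∀ d : ℕ, ∃ C : ℝ, 1 ≤ C ∧ ∀ (E : Type) [NormedAddCommGroup E] [InnerProductSpace ℝ E]
    [FiniteDimensional ℝ E] (f : Sp d → E), Continuous f → HasCompactSupport f →
    ∀ s0 : ℝ, 0 < s0 → DevFacts C s0 f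

section Op

/-- MODULE K1: comparison of u with its average at scale s_j -/
def StmtK1 : Prop :=
  ∀ (d : ℕ) (V E : Type) [NormedAddCommGroup V] [InnerProductSpace ℝ V] [FiniteDimensional ℝ V]
    [NormedAddCommGroup E] [InnerProductSpace ℝ E] [FiniteDimensional ℝ E]
    (L : (Sp d →L[ℝ] V) →L[ℝ] E) (ψ : Sp d → ℝ) (Ψ : Sp d → (E →L[ℝ] V)), RKer L ψ Ψ →
    ∃ C : ℝ, 0 ≤ C ∧ ∀ u : Sp d → V, TF u → ∀ s0 : ℝ, 0 < s0 → ∀ (j : ℕ) (x : Sp d)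
      (lam : Sp d → V) (l : ℝ), 0 ≤ l → (∀ y y', ‖lam y - lam y'‖ ≤ l * ‖y - y'‖) →
      (∀ y, 2 ≤ ‖y‖ → lam y = 0) →
      |∫ y, ⟪lam y, u (x + sc s0 j • y) - avk ψ (sc s0 j) u (x + sc s0 j • y)⟫_ℝ| ≤
        C * l * (am s0 (fo L u) j x + er s0 (fo L u) j x)

/-- the second half of KProp: estimate for the average at scale s_j -/
def K2Prop {d : ℕ} {V E : Type} [NormedAddCommGroup V] [InnerProductSpace ℝ V]
    [FiniteDimensional ℝ V] [NormedAddCommGroup E] [InnerProductSpace ℝ E]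
    [FiniteDimensional ℝ E] (L : (Sp d →L[ℝ] V) →L[ℝ] E) (ψ : Sp d → ℝ) (C : ℝ) : Prop :=
  ∀ u : Sp d → V, TF u → ∀ s0 : ℝ, 0 < s0 → ∀ (j : ℕ) (x : Sp d)
    (lam : Sp d → V) (l : ℝ), 0 ≤ l → (∀ y y', ‖lam y - lam y'‖ ≤ l * ‖y - y'‖) →
    (∀ y, 2 ≤ ‖y‖ → lam y = 0) → Ann L lam →
    |∫ y, ⟪lam y, avk ψ (sc s0 j) u (x + sc s0 j • y)⟫_ℝ| ≤
      C * l * (am s0 (fo L u) j x + er s0 (fo L u) j x)

/-- MODULE LI: the inequality of one level for the two sided slice functional -/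
def StmtLI : Prop :=
  ∀ (d : ℕ) (V E : Type) [NormedAddCommGroup V] [InnerProductSpace ℝ V] [FiniteDimensional ℝ V]
    [NormedAddCommGroup E] [InnerProductSpace ℝ E] [FiniteDimensional ℝ E]
    (L : (Sp d →L[ℝ] V) →L[ℝ] E) (y0 : Sp d) (ρ B c0 : ℝ) (w : Sp d → V) (τ : Sp d → E),
    IsCap L y0 ρ B w τ → 0 < c0 → ∃ C : ℝ, 0 ≤ C ∧
    ∀ u : Sp d → V, TF u → ∀ s0 : ℝ, 0 < s0 → ∀ (m j : ℕ) (x x' : Sp d),
      ‖x' - x‖ ≤ sc s0 j → Val s0 (fo L u) y0 ρ τ c0 (j + 4) x →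
      ∀ (κ : Sp d → ℝ) (l r r1 : ℝ), IsCut κ y0 r l → r ≤ ρ → (∀ y, 0 ≤ κ y) →
        (∀ y ∈ ball y0 r1, κ y = 1) →
        c0 / 2 * NN s0 (fo L u) m j x' y0 r1 ≤
          DD u w κ x' (sc s0 (j + 1)) - DD u w κ x' (sc s0 j) +
          C * (l + 1) * (1 / 8) ^ m * NN s0 (fo L u) m j x' y0 (r + (1 / 8) ^ m) +
          C * (2 ^ m + l + 1) * er s0 (fo L u) j x

/-- MODULE LT: variation of the one sided slice functional over one level -/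
def StmtLT : Prop :=
  ∀ (d : ℕ) (V E : Type) [NormedAddCommGroup V] [InnerProductSpace ℝ V] [FiniteDimensional ℝ V]
    [NormedAddCommGroup E] [InnerProductSpace ℝ E] [FiniteDimensional ℝ E]
    (L : (Sp d →L[ℝ] V) →L[ℝ] E) (y0 : Sp d) (ρ B : ℝ) (w : Sp d → V) (τ : Sp d → E),
    IsCap L y0 ρ B w τ → ∃ C : ℝ, 0 ≤ C ∧
    ∀ u : Sp d → V, TF u → ∀ s0 : ℝ, 0 < s0 → ∀ (m j : ℕ) (x : Sp d)
      (κ : Sp d → ℝ) (l r : ℝ), IsCut κ y0 r l → r ≤ ρ →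
        |YY u w κ x (sc s0 (j + 1)) - YY u w κ x (sc s0 j)| ≤
          C * (l + 1) * (NN s0 (fo L u) m j x y0 (r + (1 / 8) ^ m) + er s0 (fo L u) j x)

/-- MODULE HF: hole filling -/
def StmtHF : Prop :=
  ∀ (d : ℕ) (V E : Type) [NormedAddCommGroup V] [InnerProductSpace ℝ V] [FiniteDimensional ℝ V]
    [NormedAddCommGroup E] [InnerProductSpace ℝ E] [FiniteDimensional ℝ E]
    (L : (Sp d →L[ℝ] V) →L[ℝ] E) (CK : ℝ), KProp L CK →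
    ∀ (y0 : Sp d) (ρ B c0 : ℝ) (w : Sp d → V) (τ : Sp d → E),
    IsCap L y0 ρ B w τ → 0 < c0 → ∃ (C : ℝ) (m0 : ℕ), 0 ≤ C ∧
    ∀ u : Sp d → V, TF u → ∀ s0 : ℝ, 0 < s0 → ∀ (x : Sp d) (j1 j2 : ℕ), 1 ≤ j1 → j1 ≤ j2 →
      (∀ j ∈ Finset.Ico j1 j2, Val s0 (fo L u) y0 ρ τ c0 (j + 4) x) →
      ∀ m : ℕ, m0 ≤ m →
        ∑ j ∈ Finset.Ico j1 j2, NN s0 (fo L u) m j x y0 (ρ / 2) ≤
          C * 2 ^ m * (am s0 (fo L u) j1 x + am s0 (fo L u) j2 x +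
            ∑ j ∈ Finset.Icc j1 j2, er s0 (fo L u) j x)

/-- MODULE LA: the smeared functional controls the mass at its own scale -/
def StmtLA : Prop :=
  ∀ (d : ℕ) (V E : Type) [NormedAddCommGroup V] [InnerProductSpace ℝ V] [FiniteDimensional ℝ V]
    [NormedAddCommGroup E] [InnerProductSpace ℝ E] [FiniteDimensional ℝ E]
    (L : (Sp d →L[ℝ] V) →L[ℝ] E) (y0 : Sp d) (ρ B c0 : ℝ) (w : Sp d → V) (τ : Sp d → E),
    IsCap L y0 ρ B w τ → 0 < c0 → ∀ (κ : Sp d → ℝ) (l r : ℝ), IsCut κ y0 r l → r ≤ ρ →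
    (∀ y, 0 ≤ κ y) → 0 < ∫ y, κ y → ∃ (C c1 : ℝ), 0 ≤ C ∧ 0 < c1 ∧
    ∀ u : Sp d → V, TF u → ∀ s0 : ℝ, 0 < s0 → ∀ (x : Sp d) (i m : ℕ), 2 ≤ m →
      Val s0 (fo L u) y0 ρ τ c0 (i + 6) x →
      c1 * am s0 (fo L u) i x ≤
        (∫ z, hat (0 : Sp d) (9 / 10) 1 z *
          DD u w κ (x + sc s0 (i + 2) • z) (sc s0 (i + 2))) +
        C * (1 / 8) ^ m * am s0 (fo L u) (i + 2) x + C * 2 ^ m * er s0 (fo L u) (i + 2) x

/-- MODULE A0: masses do not grow downwards while the chart is valid -/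
def StmtA0 : Prop :=
  ∀ (d : ℕ) (V E : Type) [NormedAddCommGroup V] [InnerProductSpace ℝ V] [FiniteDimensional ℝ V]
    [NormedAddCommGroup E] [InnerProductSpace ℝ E] [FiniteDimensional ℝ E]
    (L : (Sp d →L[ℝ] V) →L[ℝ] E) (CK : ℝ), KProp L CK →
    ∀ (y0 : Sp d) (ρ B c0 : ℝ) (w : Sp d → V) (τ : Sp d → E),
    IsCap L y0 ρ B w τ → 0 < c0 → ∃ C : ℝ, 0 ≤ C ∧
    ∀ u : Sp d → V, TF u → ∀ s0 : ℝ, 0 < s0 → ∀ (x : Sp d) (j1 j2 : ℕ), 1 ≤ j1 → j1 ≤ j2 →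
      (∀ j ∈ Finset.Ico j1 j2, Val s0 (fo L u) y0 ρ τ c0 (j + 4) x) →
      am s0 (fo L u) j1 x ≤ C * (am s0 (fo L u) j2 x +
        ∑ j ∈ Finset.Icc j1 j2, er s0 (fo L u) j x)

/-- MODULE TV: total variation of the slice functionals while the chart is valid -/
def StmtTV : Prop :=
  ∀ (d : ℕ) (V E : Type) [NormedAddCommGroup V] [InnerProductSpace ℝ V] [FiniteDimensional ℝ V]
    [NormedAddCommGroup E] [InnerProductSpace ℝ E] [FiniteDimensional ℝ E]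
    (L : (Sp d →L[ℝ] V) →L[ℝ] E) (CK : ℝ), KProp L CK →
    ∀ (y0 : Sp d) (ρ B c0 : ℝ) (w : Sp d → V) (τ : Sp d → E),
    IsCap L y0 ρ B w τ → 0 < c0 → ∀ (κ : Sp d → ℝ) (l : ℝ), IsCut κ y0 (ρ / 4) l →
    ∃ C : ℝ, 0 ≤ C ∧
    ∀ u : Sp d → V, TF u → ∀ s0 : ℝ, 0 < s0 → ∀ (x : Sp d) (j1 j2 : ℕ), 1 ≤ j1 → j1 ≤ j2 →
      (∀ j ∈ Finset.Ico j1 j2, Val s0 (fo L u) y0 ρ τ c0 (j + 4) x) →
      |YY u w κ x (sc s0 j2) - YY u w κ x (sc s0 j1)| ≤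
        C * (am s0 (fo L u) j1 x + am s0 (fo L u) j2 x +
          ∑ j ∈ Finset.Icc j1 j2, er s0 (fo L u) j x)

/-- MODULE LAB: fuzzy labels -/
def StmtLab : Prop :=
  ∀ d : ℕ, ∃ c : ℝ, 0 < c ∧ ∀ (E : Type) [NormedAddCommGroup E] [InnerProductSpace ℝ E]
    [FiniteDimensional ℝ E] (f : Sp d → E), Continuous f → HasCompactSupport f →
    ∀ (s0 ε δ : ℝ), 0 < s0 → 0 < ε → ε ≤ 1 → 0 < δ → ∀ (n : ℕ) (lab : Fin n → E), 0 < n →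
      (∀ i, ‖lab i‖ = 1) → (∀ e : E, ‖e‖ = 1 → ∃ i, ‖e - lab i‖ ≤ ε / 4) →
      ∀ J : ℕ, ∃ U : ℕ → Sp d → ℝ, LabelSys s0 f ε δ c J U

/-- MODULE PT: the pointwise estimate -/
def StmtPt : Prop :=
  ∀ (d : ℕ) (V E : Type) [NormedAddCommGroup V] [InnerProductSpace ℝ V] [FiniteDimensional ℝ V]
    [NormedAddCommGroup E] [InnerProductSpace ℝ E] [FiniteDimensional ℝ E]
    (L : (Sp d →L[ℝ] V) →L[ℝ] E) (CK : ℝ), KProp L CK →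
    ∀ (ε : ℝ) (n : ℕ) (lab : Fin n → E), 0 < ε → ε ≤ 1 → (∀ i, ‖lab i‖ = 1) →
      (∀ e : E, ‖e‖ = 1 → ∃ i, ‖e - lab i‖ ≤ ε / 4) →
    ∀ ch : (i : Fin n) → Chart L (lab i) ε, ∃ δ : ℝ, 0 < δ ∧ ∀ c : ℝ, 0 < c → ∃ C : ℝ, 0 ≤ C ∧
    ∀ u : Sp d → V, TF u → ∀ s0 : ℝ, 0 < s0 → ∀ J : ℕ, 1 ≤ J → ∀ U : ℕ → Sp d → ℝ,
      LabelSys s0 (fo L u) ε δ c J U → ∀ Lu : ℝ, (∀ y y', ‖u y - u y'‖ ≤ Lu * ‖y - y'‖) →
      ∀ (x : Sp d) (i : Fin n),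
        ‖u x‖ ≤ ‖(ch i).UC u x (sc s0 J)‖ + C * (am s0 (fo L u) J x + er s0 (fo L u) J x) +
          C * ∑ j ∈ Finset.Ico 1 J, (er s0 (fo L u) j x +
            sc s0 j * kav s0 0 j (fun z => U j z * ‖fl s0 (fo L u) j z‖) x) + C * s0 * Lu

/-- MODULE CH: charts by compactness -/
def StmtCharts : Prop :=
  ∀ (d : ℕ) (V E : Type) [NormedAddCommGroup V] [InnerProductSpace ℝ V] [FiniteDimensional ℝ V]
    [NormedAddCommGroup E] [InnerProductSpace ℝ E] [FiniteDimensional ℝ E]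
    (L : (Sp d →L[ℝ] V) →L[ℝ] E), ChartHyp L →
    ∃ (ε : ℝ) (n : ℕ) (lab : Fin n → E), 0 < ε ∧ ε ≤ 1 ∧ (∀ i, ‖lab i‖ = 1) ∧
      (∀ e : E, ‖e‖ = 1 → ∃ i, ‖e - lab i‖ ≤ ε / 4) ∧
      Nonempty ((i : Fin n) → Chart L (lab i) ε)

/-- MODULE INT: the abstract theorem -/
def StmtAbs : Prop :=
  ∀ (d : ℕ), 1 ≤ d → ∀ (V E : Type) [NormedAddCommGroup V] [InnerProductSpace ℝ V]
    [FiniteDimensional ℝ V] [NormedAddCommGroup E] [InnerProductSpace ℝ E]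
    [FiniteDimensional ℝ E] [Nontrivial E]
    (L : (Sp d →L[ℝ] V) →L[ℝ] E) (CK : ℝ), KProp L CK → ChartHyp L → TraceIneq L

end Op

/-! ## The symmetric gradient -/

/-- index set of the upper triangular entries -/
abbrev SI (d : ℕ) := {p : Fin d × Fin d // p.1 ≤ p.2}

/-- symmetric matrices, as the Euclidean space of their upper triangular entries -/
abbrev EBD (d : ℕ) := EuclideanSpace ℝ (SI d)

/-- the symmetric part of a matrix -/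
def LBD (d : ℕ) : (Sp d →L[ℝ] Sp d) →L[ℝ] EBD d :=
  LinearMap.toContinuousLinearMap
    { toFun := fun M => WithLp.toLp 2 fun p : SI d =>
        (1 / 2 : ℝ) * (M (EuclideanSpace.single p.1.2 1) p.1.1 +
          M (EuclideanSpace.single p.1.1 1) p.1.2)
      map_add' := by
        intro M M'; ext p; simp; ring
      map_smul' := by
        intro c M; ext p; simp; ring }

/-- MODULE BDR -/
def StmtBDR : Prop := ∀ d : ℕ, ∃ Ψ : Sp d → (EBD d →L[ℝ] Sp d), RKer (LBD d) (bk d) Ψ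

/-- MODULE BDK2 -/
def StmtBDK2 : Prop := ∀ d : ℕ, ∃ C : ℝ, 0 ≤ C ∧ K2Prop (LBD d) (bk d) C

/-- MODULE BDCH -/
def StmtBDCharts : Prop := ∀ d : ℕ, 1 ≤ d → ChartHyp (LBD d)

end

end TrI
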