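import Pool.Agent.TR.Basic
import Pool.Agent.TR.Stmts

/-!
# Module A0: masses do not grow downwards while the chart is valid
-/

set_option linter.unusedSectionVars false

open MeasureTheory Metric Set
open scoped InnerProductSpace ContDiff

namespace TrI

noncomputable section

namespace A0

variable {d : ℕ}

/-! ## sequences -/

lemma chain {a e : ℕ → ℝ} (ha : ∀ j, 0 ≤ a j) (he : ∀ j, 0 ≤ e j) {C : ℝ} (hC : 1 ≤ C)
    (h : ∀ j, a j ≤ C * (a (j + 1) + e (j + 1))) (l n : ℕ) (hln : l ≤ n) :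
    a l ≤ C ^ (n - l) * (a n + ∑ j ∈ Finset.Icc l n, e j) := by
  induction n, hln using Nat.le_induction with
  | base => simpa using he l
  | succ n hn ih =>
    refine ih.trans ?_
    have e1 : n + 1 - l = (n - l) + 1 := by omega
    rw [e1, pow_succ, mul_assoc]
    refine mul_le_mul_of_nonneg_left ?_ (by positivity)
    have hS : 0 ≤ ∑ j ∈ Finset.Icc l n, e j := Finset.sum_nonneg fun j _ => he j
    rw [← Finset.insert_Icc_right_eq_Icc_add_one (by omega : l ≤ n + 1),
      Finset.sum_insert (by simp)]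
    have h1 := h n
    have h2 := ha (n + 1)
    have h3 := he (n + 1)
    nlinarith

lemma iterate {a e : ℕ → ℝ} (ha : ∀ j, 0 ≤ a j) (he : ∀ j, 0 ≤ e j) {j1 j2 k : ℕ} (hk : 1 ≤ k)
    {C D : ℝ} (hC : 0 ≤ C) (hD : 0 ≤ D)
    (h1 : ∀ l, j1 ≤ l → l + k ≤ j2 →
      a l ≤ a (l + k) / 2 + C * (a j2 + ∑ j ∈ Finset.Icc l j2, e j))
    (h2 : ∀ l, l ≤ j2 → j2 < l + k → a l ≤ D * (a j2 + ∑ j ∈ Finset.Icc l j2, e j)) :
    ∀ n l, j2 - l = n → j1 ≤ l → l ≤ j2 →
      a l ≤ (2 * C + D) * (a j2 + ∑ j ∈ Finset.Icc l j2, e j) := by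
  intro n
  induction n using Nat.strong_induction_on with
  | _ n ih =>
    intro l hn hl1 hl2
    have hS : 0 ≤ a j2 + ∑ j ∈ Finset.Icc l j2, e j :=
      add_nonneg (ha _) (Finset.sum_nonneg fun j _ => he j)
    by_cases hlk : l + k ≤ j2
    · have h3 := h1 l hl1 hlk
      have h4 := ih (j2 - (l + k)) (by omega) (l + k) rfl (by omega) hlk
      have h5 : ∑ j ∈ Finset.Icc (l + k) j2, e j ≤ ∑ j ∈ Finset.Icc l j2, e j :=
        Finset.sum_le_sum_of_subset_of_nonneg
          (Finset.Icc_subset_Icc (by omega) le_rfl) fun j _ _ => he j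
      have h6 : (2 * C + D) * (a j2 + ∑ j ∈ Finset.Icc (l + k) j2, e j) ≤
          (2 * C + D) * (a j2 + ∑ j ∈ Finset.Icc l j2, e j) :=
        mul_le_mul_of_nonneg_left (by linarith) (by positivity)
      nlinarith
    · have h3 := h2 l hl2 (by omega)
      nlinarith

/-! ## the cut-off -/

lemma hat_nonneg (c : Sp d) (r r' : ℝ) (y : Sp d) : 0 ≤ hat c r r' y := le_max_left _ _

lemma hat_le_one (c : Sp d) (r r' : ℝ) (y : Sp d) : hat c r r' y ≤ 1 :=
  max_le zero_le_one (min_le_left _ _)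

lemma hat_zero (c : Sp d) {r r' : ℝ} (h : r < r') {y : Sp d} (hy : r' ≤ ‖y - c‖) :
    hat c r r' y = 0 := by
  unfold hat
  refine max_eq_left ((min_le_right _ _).trans ?_)
  exact div_nonpos_of_nonpos_of_nonneg (by linarith) (by linarith)

lemma hat_one (c : Sp d) {r r' : ℝ} (h : r < r') {y : Sp d} (hy : ‖y - c‖ ≤ r) :
    hat c r r' y = 1 := by
  unfold hat
  have h1 : 1 ≤ (r' - ‖y - c‖) / (r' - r) := by
    rw [le_div_iff₀ (by linarith)]
    linarith
  rw [min_eq_left h1]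
  exact max_eq_right zero_le_one

lemma hat_cont (c : Sp d) (r r' : ℝ) : Continuous (hat c r r') := by
  unfold hat
  fun_prop

lemma hat_cs (c : Sp d) {r r' : ℝ} (h : r < r') : HasCompactSupport (hat c r r') := by
  refine HasCompactSupport.intro (isCompact_closedBall c r') fun y hy => hat_zero c h ?_
  rw [mem_closedBall, dist_eq_norm, not_le] at hy
  exact hy.le

lemma hat_lip (c : Sp d) {r r' : ℝ} (h : r < r') (y y' : Sp d) :
    |hat c r r' y - hat c r r' y'| ≤ (r' - r)⁻¹ * ‖y - y'‖ := by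
  have hp : 0 < r' - r := by linarith
  unfold hat
  have h1 : |(r' - ‖y - c‖) / (r' - r) - (r' - ‖y' - c‖) / (r' - r)| ≤
      (r' - r)⁻¹ * ‖y - y'‖ := by
    rw [← sub_div, abs_div, abs_of_pos hp, div_eq_inv_mul]
    refine mul_le_mul_of_nonneg_left ?_ (by positivity)
    have h2 := abs_norm_sub_norm_le (y' - c) (y - c)
    rw [sub_sub_sub_cancel_right, norm_sub_rev y' y] at h2
    rw [show r' - ‖y - c‖ - (r' - ‖y' - c‖) = ‖y' - c‖ - ‖y - c‖ by ring]
    exact h2
  have hnn : 0 ≤ (r' - r)⁻¹ * ‖y - y'‖ := by positivity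
  refine (abs_max_sub_max_le_max _ _ _ _).trans (max_le (by simpa using hnn) ?_)
  exact (abs_min_sub_min_le_max _ _ _ _).trans (max_le (by simpa using hnn) h1)

lemma hat_cut (c : Sp d) {r r' : ℝ} (h : r < r') : IsCut (hat c r r') c r' (r' - r)⁻¹ where
  l_nonneg := by
    have : 0 < r' - r := by linarith
    positivity
  lip := hat_lip c h
  supp := fun y hy => hat_zero c h hy
  bd := fun y => by
    rw [abs_of_nonneg (hat_nonneg _ _ _ _)]
    exact hat_le_one _ _ _ _

lemma hat_int_pos (c : Sp d) {r r' : ℝ} (h : r < r') (hr : 0 ≤ r) : 0 < ∫ y, hat c r r' y := by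
  refine (hat_cont c r r').integral_pos_of_hasCompactSupport_nonneg_nonzero (hat_cs c h)
    (fun y => hat_nonneg c r r' y) (x := c) ?_
  rw [hat_one c h (by simpa using hr)]
  exact one_ne_zero

/-! ## null fields, the test function of the top level -/

section Op

variable {V E : Type} [NormedAddCommGroup V] [InnerProductSpace ℝ V] [FiniteDimensional ℝ V]
  [NormedAddCommGroup E] [InnerProductSpace ℝ E] [FiniteDimensional ℝ E]
  {L : (Sp d →L[ℝ] V) →L[ℝ] E} {y0 : Sp d} {ρ B : ℝ} {w : Sp d → V} {τ : Sp d → E}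

lemma fo_cont (L : (Sp d →L[ℝ] V) →L[ℝ] E) {u : Sp d → V} (hu : TF u) :
    Continuous (fo L u) := by
  unfold fo
  exact L.continuous.comp (hu.smooth.continuous_fderiv (by simp))

lemma fo_cs (L : (Sp d →L[ℝ] V) →L[ℝ] E) {u : Sp d → V} (hu : TF u) :
    HasCompactSupport (fo L u) := by
  unfold fo
  exact (hu.supp.fderiv (𝕜 := ℝ)).comp_left (map_zero L)

lemma cutw_lip (hcap : IsCap L y0 ρ B w τ) {κ : Sp d → ℝ} {r l : ℝ} (hκ : IsCut κ y0 r l)
    (hr : r ≤ ρ) (y y' : Sp d) :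
    ‖κ y • w y - κ y' • w y'‖ ≤ (B * (l + 1)) * ‖y - y'‖ := by
  have hB := hcap.B_pos
  have hl := hκ.l_nonneg
  have hz : ∀ y, y ∉ ball y0 ρ → κ y = 0 := by
    intro y hy
    rw [mem_ball, dist_eq_norm, not_lt] at hy
    exact hκ.supp y (hr.trans hy)
  have hn := norm_nonneg (y - y')
  by_cases hy : y ∈ ball y0 ρ
  · by_cases hy' : y' ∈ ball y0 ρ
    · have e1 : κ y • w y - κ y' • w y' = (κ y - κ y') • w y + κ y' • (w y - w y') := by
        rw [sub_smul, smul_sub]; abel
      rw [e1]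
      refine (norm_add_le _ _).trans ?_
      rw [norm_smul, norm_smul, Real.norm_eq_abs, Real.norm_eq_abs]
      have h1 : |κ y - κ y'| * ‖w y‖ ≤ (l * ‖y - y'‖) * B :=
        mul_le_mul (hκ.lip y y') (hcap.w_bd y hy) (norm_nonneg _) (by positivity)
      have h2 : |κ y'| * ‖w y - w y'‖ ≤ 1 * (B * ‖y - y'‖) :=
        mul_le_mul (hκ.bd y') (hcap.w_lip y hy y' hy') (norm_nonneg _) zero_le_one
      linarith
    · rw [hz y' hy', zero_smul, sub_zero, norm_smul, Real.norm_eq_abs]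
      have h0 := hκ.lip y y'
      rw [hz y' hy', sub_zero] at h0
      have h1 : |κ y| * ‖w y‖ ≤ (l * ‖y - y'‖) * B :=
        mul_le_mul h0 (hcap.w_bd y hy) (norm_nonneg _) (by positivity)
      nlinarith [mul_nonneg hB.le hn]
  · by_cases hy' : y' ∈ ball y0 ρ
    · rw [hz y hy, zero_smul, zero_sub, norm_neg, norm_smul, Real.norm_eq_abs]
      have h0 := hκ.lip y y'
      rw [hz y hy, zero_sub, abs_neg] at h0
      have h1 : |κ y'| * ‖w y'‖ ≤ (l * ‖y - y'‖) * B :=
        mul_le_mul h0 (hcap.w_bd y' hy') (norm_nonneg _) (by positivity)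
      nlinarith [mul_nonneg hB.le hn]
    · rw [hz y hy, hz y' hy', zero_smul, zero_smul, sub_zero, norm_zero]
      positivity

lemma cutw_cont (hcap : IsCap L y0 ρ B w τ) {κ : Sp d → ℝ} {r l : ℝ} (hκ : IsCut κ y0 r l)
    (hr : r ≤ ρ) : Continuous fun y => κ y • w y := by
  have hB := hcap.B_pos
  have hl := hκ.l_nonneg
  have : LipschitzWith (Real.toNNReal (B * (l + 1))) fun y => κ y • w y := by
    refine LipschitzWith.of_dist_le_mul fun y y' => ?_
    rw [dist_eq_norm, dist_eq_norm, Real.coe_toNNReal _ (by positivity)]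
    exact cutw_lip hcap hκ hr y y'
  exact this.continuous

lemma cutw_cs (w : Sp d → V) {κ : Sp d → ℝ} {r l : ℝ} (hκ : IsCut κ y0 r l) :
    HasCompactSupport fun y => κ y • w y := by
  refine HasCompactSupport.intro (isCompact_closedBall y0 r) fun y hy => ?_
  rw [mem_closedBall, dist_eq_norm, not_le] at hy
  rw [hκ.supp y hy.le, zero_smul]

lemma null_even {p : Sp d → V} (hp : Null L p) (hcap : IsCap L y0 ρ B w τ) {y : Sp d}
    (hy : y ∈ ball y0 ρ) (a : Sp d) : ⟪w y, p (a + y)⟫_ℝ = ⟪w y, p (a - y)⟫_ℝ := by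
  have hd : ∀ t : ℝ, HasDerivAt (fun t : ℝ => ⟪w y, p (a + t • y)⟫_ℝ) 0 t := by
    intro t
    have h1 : HasDerivAt (fun t : ℝ => a + t • y) y t := by
      have := ((hasDerivAt_id t).smul_const y).const_add a
      simpa using this
    have h2 : HasFDerivAt p (fderiv ℝ p (a + t • y)) (a + t • y) :=
      (hp.1.differentiable (by simp)).differentiableAt.hasFDerivAt
    have h3 : HasDerivAt (fun t : ℝ => p (a + t • y)) (fderiv ℝ p (a + t • y) y) t :=
      h2.comp_hasDerivAt t h1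
    have h4 := (hasDerivAt_const t (w y)).inner ℝ h3
    have h5 : ⟪w y, fderiv ℝ p (a + t • y) y⟫_ℝ = 0 := by
      rw [hcap.slice y hy, hp.2, inner_zero_left]
    simpa [h5] using h4
  have hc := is_const_of_deriv_eq_zero (fun t => (hd t).differentiableAt)
    (fun t => (hd t).deriv) 1 (-1)
  simpa [sub_eq_add_neg] using hc

lemma YY_eq (u : Sp d → V) (w : Sp d → V) (κ : Sp d → ℝ) (x : Sp d) (t : ℝ) :
    YY u w κ x t = ∫ y, ⟪κ y • w y, u (x + t • y)⟫_ℝ := by
  unfold YY
  congr 1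
  ext y
  rw [real_inner_smul_left]

/-- integrals of a continuous function with compact support against a continuous one -/
lemma inner_integrable {W g : Sp d → V} (hW : Continuous W) (hWc : HasCompactSupport W)
    (hg : Continuous g) : Integrable fun y => ⟪W y, g y⟫_ℝ := by
  refine Continuous.integrable_of_hasCompactSupport (hW.inner hg) ?_
  refine hWc.mono' ?_
  intro y hy
  refine subset_tsupport _ ?_
  intro h0
  apply hy
  simp [h0]

/-- the two change of variables in the top level functional -/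
lemma shift_formula {W : Sp d → V} (hW : Continuous W) (hWc : HasCompactSupport W)
    {g : Sp d → V} (hg : Continuous g) (a : Sp d) :
    ∫ y, ⟪W (y - a) - W (a - y), g y⟫_ℝ =
      (∫ y, ⟪W y, g (a + y)⟫_ℝ) - ∫ y, ⟪W y, g (a - y)⟫_ℝ := by
  have e1 : ∫ y, ⟪W y, g (a + y)⟫_ℝ = ∫ y, ⟪W (y - a), g y⟫_ℝ := by
    rw [← integral_sub_right_eq_self (fun y => ⟪W y, g (a + y)⟫_ℝ) a]
    congr 1
    ext y
    rw [add_sub_cancel]
  have e2 : ∫ y, ⟪W y, g (a - y)⟫_ℝ = ∫ y, ⟪W (a - y), g y⟫_ℝ := by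
    rw [← integral_sub_left_eq_self (fun y => ⟪W y, g (a - y)⟫_ℝ) volume a]
    congr 1
    ext y
    rw [sub_sub_cancel]
  rw [e1, e2, ← integral_sub]
  · congr 1
    ext y
    rw [inner_sub_left]
  · refine inner_integrable (hW.comp (by fun_prop)) ?_ hg
    exact hWc.comp_homeomorph (Homeomorph.subRight a)
  · refine inner_integrable (hW.comp (by fun_prop)) ?_ hg
    exact hWc.comp_homeomorph (Homeomorph.subLeft a)

lemma DD_top {CK : ℝ} (hK : KProp L CK) (hcap : IsCap L y0 ρ B w τ) {κ : Sp d → ℝ} {r l : ℝ}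
    (hκ : IsCut κ y0 r l) (hr : r ≤ ρ) {u : Sp d → V} (hu : TF u) {s0 : ℝ} (hs : 0 < s0) {j : ℕ}
    (hj : 1 ≤ j) (x a : Sp d) (ha : ‖a‖ ≤ 1 / 2)
    (hnn : 0 ≤ am s0 (fo L u) j x + er s0 (fo L u) j x) :
    |DD u w κ (x + sc s0 j • a) (sc s0 j)| ≤
      |CK| * (2 * (B * (l + 1))) * (am s0 (fo L u) j x + er s0 (fo L u) j x) := by
  have hB := hcap.B_pos
  have hl := hκ.l_nonneg
  have hW := cutw_cont hcap hκ hr
  have hWc := cutw_cs w hκ
  set W : Sp d → V := fun y => κ y • w y with hWdef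
  have hin := hcap.inside
  have hρ := hcap.ρ_pos
  have h1 := hK u hu s0 hs j hj x (fun y => W (y - a) - W (a - y)) (2 * (B * (l + 1)))
    (by positivity) ?_ ?_ ?_
  · have e1 : DD u w κ (x + sc s0 j • a) (sc s0 j) =
        ∫ y, ⟪W (y - a) - W (a - y), u (x + sc s0 j • y)⟫_ℝ := by
      rw [shift_formula hW hWc (g := fun y => u (x + sc s0 j • y))
        (hu.smooth.continuous.comp (by fun_prop)) a]
      unfold DD
      rw [YY_eq, YY_eq]
      congr 2
      · ext y
        rw [smul_add, ← add_assoc]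
      · ext y
        rw [smul_sub, neg_smul, ← sub_eq_add_neg, ← add_sub_assoc]
    rw [e1]
    refine h1.trans ?_
    refine mul_le_mul_of_nonneg_right ?_ hnn
    exact mul_le_mul_of_nonneg_right (le_abs_self CK) (by positivity)
  · intro y y'
    have e1 : W (y - a) - W (a - y) - (W (y' - a) - W (a - y')) =
        (W (y - a) - W (y' - a)) - (W (a - y) - W (a - y')) := by abel
    rw [e1]
    refine (norm_sub_le _ _).trans ?_
    have h2 := cutw_lip hcap hκ hr (y - a) (y' - a)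
    have h3 := cutw_lip hcap hκ hr (a - y) (a - y')
    rw [sub_sub_sub_cancel_right] at h2
    rw [sub_sub_sub_cancel_left, norm_sub_rev y' y] at h3
    simp only [hWdef]
    linarith
  · intro y hy
    have hz : ∀ v : Sp d, 3 / 2 ≤ ‖v‖ → W v = 0 := by
      intro v hv
      simp only [hWdef]
      rw [hκ.supp v, zero_smul]
      have h4 : ‖v‖ ≤ ‖v - y0‖ + ‖y0‖ := by
        have := norm_add_le (v - y0) y0
        rwa [sub_add_cancel] at this
      linarith
    have h5 : 3 / 2 ≤ ‖y - a‖ := by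
      have := norm_sub_norm_le y a
      linarith
    rw [hz _ h5, hz (a - y) (by rw [norm_sub_rev]; exact h5), sub_zero]
  · intro p hp
    rw [shift_formula hW hWc hp.1.continuous a, sub_eq_zero]
    congr 1
    ext y
    by_cases hy : y ∈ ball y0 ρ
    · simp only [hWdef]
      rw [real_inner_smul_left, real_inner_smul_left, null_even hp hcap hy]
    · have : W y = 0 := by
        simp only [hWdef]
        rw [mem_ball, dist_eq_norm, not_lt] at hy
        rw [hκ.supp y (hr.trans hy), zero_smul]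
      rw [this, inner_zero_left, inner_zero_left]

end Op

/-! ## bounds of NN -/

section NNsec

variable {E : Type} [NormedAddCommGroup E] [InnerProductSpace ℝ E] [FiniteDimensional ℝ E]

lemma NN_nonneg {s0 : ℝ} (hs : 0 < s0) (f : Sp d → E) (m j : ℕ) (x y0 : Sp d) (r : ℝ) :
    0 ≤ NN s0 f m j x y0 r :=
  intervalIntegral.integral_nonneg (sc_le hs (Nat.le_succ j)) fun t _ =>
    setIntegral_nonneg measurableSet_ball fun y _ => by positivity

lemma int_ball_neg (g : Sp d → ℝ) (q : Sp d) (r : ℝ) :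
    ∫ y in ball q r, g (-y) = ∫ y in ball (-q) r, g y := by
  have h1 := (Measure.measurePreserving_neg (volume : Measure (Sp d))).setIntegral_preimage_emb
    (Homeomorph.neg (Sp d)).measurableEmbedding g (ball (-q) r)
  rw [← h1]
  congr 2
  ext x
  simp only [mem_preimage, mem_ball, dist_eq_norm]
  rw [show -x - -q = -(x - q) by abel, norm_neg]

lemma inner_le {g : Sp d → ℝ} (hg : LB g) (h0 : ∀ z, 0 ≤ g z) {s t : ℝ} (hs : 0 < s)
    (ht : s ≤ t) (ht' : t ≤ 8 * s) {x x' y0 : Sp d} {r : ℝ} (hr : ‖y0‖ + r ≤ 3 / 2)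
    (hx : ‖x' - x‖ ≤ s) :
    ∫ y in ball y0 r, g (x' + t • y) ≤ (s ^ d)⁻¹ * ∫ z in ball x (13 * s), g z := by
  have htp : 0 < t := hs.trans_le ht
  rw [int_ball_scale g htp, smul_eq_mul]
  have hI : 0 ≤ ∫ z in ball x (13 * s), g z :=
    setIntegral_nonneg measurableSet_ball fun z _ => h0 z
  have h1 : ∫ z in ball (x' + t • y0) (t * r), g z ≤ ∫ z in ball x (13 * s), g z := by
    refine setIntegral_mono_set (hg.integrableOn isBounded_ball)
      (Filter.Eventually.of_forall fun z => h0 z) (Filter.Eventually.of_forall ?_)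
    intro z hz
    change z ∈ ball (x' + t • y0) (t * r) at hz
    change z ∈ ball x (13 * s)
    rw [mem_ball, dist_eq_norm] at hz ⊢
    have h2 : ‖z - x‖ ≤ ‖z - (x' + t • y0)‖ + ‖t • y0‖ + ‖x' - x‖ := by
      have e : z - x = (z - (x' + t • y0)) + t • y0 + (x' - x) := by abel
      calc ‖z - x‖ = ‖(z - (x' + t • y0)) + t • y0 + (x' - x)‖ := by rw [← e]
        _ ≤ _ := norm_add₃_le
    have h3 : ‖t • y0‖ = t * ‖y0‖ := by rw [norm_smul, Real.norm_eq_abs, abs_of_pos htp]
    have h4 : t * r + t * ‖y0‖ ≤ 8 * s * (3 / 2) := by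
      have h5 : t * (‖y0‖ + r) ≤ t * (3 / 2) := mul_le_mul_of_nonneg_left hr htp.le
      nlinarith
    linarith
  have h5 : (t ^ d)⁻¹ ≤ (s ^ d)⁻¹ := by gcongr
  exact mul_le_mul h5 h1 (setIntegral_nonneg measurableSet_ball fun z _ => h0 z) (by positivity)

lemma inner_le' {g : Sp d → ℝ} (hg : LB g) (h0 : ∀ z, 0 ≤ g z) {s t : ℝ} (hs : 0 < s)
    (ht : s ≤ t) (ht' : t ≤ 8 * s) {x x' y0 : Sp d} {r : ℝ} (hr : ‖y0‖ + r ≤ 3 / 2)
    (hx : ‖x' - x‖ ≤ s) :
    ∫ y in ball y0 r, g (x' - t • y) ≤ (s ^ d)⁻¹ * ∫ z in ball x (13 * s), g z := by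
  have h1 := int_ball_neg (fun y => g (x' + t • y)) y0 r
  have h2 : ∫ y in ball y0 r, g (x' - t • y) = ∫ y in ball (-y0) r, g (x' + t • y) := by
    rw [← h1]
    congr 1
    ext y
    rw [smul_neg, sub_eq_add_neg]
  rw [h2]
  exact inner_le hg h0 hs ht ht' (by rwa [norm_neg]) hx

lemma LB.comp_sub_smul {g : Sp d → ℝ} (hg : LB g) (x : Sp d) (t : ℝ) :
    LB (fun y => g (x - t • y)) := by
  have := hg.comp_smul x (-t)
  refine ⟨?_, ?_⟩
  · have h := this.meas
    simpa only [neg_smul, ← sub_eq_add_neg] using h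
  · intro R
    obtain ⟨M, hM⟩ := this.bd R
    refine ⟨M, fun y hy => ?_⟩
    have := hM y hy
    simpa only [neg_smul, ← sub_eq_add_neg] using this

lemma NN_le {C s0 : ℝ} (hs : 0 < s0) {f : Sp d → E} (hf : Continuous f) (D : DevFacts C s0 f)
    (hC : 0 ≤ C) (m j : ℕ) {x x' y0 : Sp d} {r : ℝ} (hr : ‖y0‖ + r ≤ 3 / 2)
    (hx : ‖x' - x‖ ≤ sc s0 j) :
    NN s0 f m j x' y0 r ≤ 14 * am s0 f j x + 14 * (m * 2 ^ m * C) * er s0 f j x := by
  have hsj := sc_pos hs j
  set s := sc s0 j with hsdef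
  have hg : LB (fun z => ‖fl s0 f (j - m) z‖) := LB.of_cont (fl_cont hf s0 _).norm
  set M := ∫ z in ball x (13 * s), ‖fl s0 f (j - m) z‖ with hM
  have hM0 : 0 ≤ M := setIntegral_nonneg measurableSet_ball fun z _ => norm_nonneg _
  have h1 : NN s0 f m j x' y0 r ≤ (2 * (s ^ d)⁻¹ * M) * |sc s0 (j + 1) - s| := by
    refine (Real.le_norm_self _).trans ?_
    unfold NN
    refine intervalIntegral.norm_integral_le_of_norm_le_const fun t ht => ?_
    rw [uIoc_of_le (sc_le hs (Nat.le_succ j)), sc_succ] at ht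
    have ht1 : s ≤ t := ht.1.le
    have ht2 : t ≤ 8 * s := ht.2
    rw [Real.norm_eq_abs, abs_of_nonneg (setIntegral_nonneg measurableSet_ball fun y _ => by
      positivity), integral_add]
    · have h2 := inner_le hg (fun z => norm_nonneg _) hsj ht1 ht2 hr hx
      have h3 := inner_le' hg (fun z => norm_nonneg _) hsj ht1 ht2 hr hx
      linarith
    · exact (hg.comp_smul x' t).integrableOn isBounded_ball
    · exact (LB.comp_sub_smul hg x' t).integrableOn isBounded_ball
  have e1 : |sc s0 (j + 1) - s| = 7 * s := by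
    rw [sc_succ, ← hsdef, show 8 * s - s = 7 * s by ring, abs_of_pos (by positivity)]
  rw [e1] at h1
  have h2 := D.transfer (j - m) j x (13 * s) (Nat.sub_le _ _)
  rw [← hM] at h2
  have hfj : LB (fun z => ‖fl s0 f j z‖) := LB.of_cont (fl_cont hf s0 _).norm
  have h3 : s / s ^ d * ∫ z in ball x (13 * s + s / 7), ‖fl s0 f j z‖ ≤ am s0 f j x := by
    unfold am
    refine mul_le_mul_of_nonneg_left ?_ (by positivity)
    refine setIntegral_mono_set (hfj.integrableOn isBounded_ball)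
      (Filter.Eventually.of_forall fun z => norm_nonneg _) (Filter.Eventually.of_forall ?_)
    exact ball_subset_ball (by linarith)
  have h4 : ∀ i ∈ Finset.Ico (j - m) j, s / s ^ d * ∫ z in ball x (13 * s + s / 7),
      gap s0 f i z ≤ 2 ^ m * C * er s0 f j x := by
    intro i hi
    rw [Finset.mem_Ico] at hi
    have h5 := D.gap_le j i x (by omega)
    have h6 : s / s ^ d * ∫ z in ball x (13 * s + s / 7), gap s0 f i z ≤
        s / s ^ d * ∫ z in ball x (384 * s), gap s0 f i z := by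
      refine mul_le_mul_of_nonneg_left ?_ (by positivity)
      refine setIntegral_mono_set ((LB.gap hf s0 i).integrableOn isBounded_ball)
        (Filter.Eventually.of_forall fun z => D.gap_nonneg i z)
        (Filter.Eventually.of_forall ?_)
      exact ball_subset_ball (by linarith)
    have h7 : (2 : ℝ) ^ (j - i) * (1 / 2) ^ (j - i) = 1 := by
      rw [← mul_pow]; norm_num
    have h8 : s / s ^ d * ∫ z in ball x (384 * s), gap s0 f i z ≤
        2 ^ (j - i) * (C * er s0 f j x) := by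
      calc s / s ^ d * ∫ z in ball x (384 * s), gap s0 f i z =
            2 ^ (j - i) * ((1 / 2) ^ (j - i) *
              (s / s ^ d * ∫ z in ball x (384 * s), gap s0 f i z)) := by
            rw [← mul_assoc, h7, one_mul]
        _ ≤ _ := mul_le_mul_of_nonneg_left h5 (by positivity)
    have h9 : (2 : ℝ) ^ (j - i) ≤ 2 ^ m := pow_le_pow_right₀ (by norm_num) (by omega)
    have h10 : 0 ≤ C * er s0 f j x := mul_nonneg hC (D.er_nonneg j x)
    calc _ ≤ _ := h6
      _ ≤ _ := h8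
      _ ≤ 2 ^ m * (C * er s0 f j x) := mul_le_mul_of_nonneg_right h9 h10
      _ = _ := by ring
  have h5 : s / s ^ d * ∑ i ∈ Finset.Ico (j - m) j, ∫ z in ball x (13 * s + s / 7),
      gap s0 f i z ≤ m * (2 ^ m * C * er s0 f j x) := by
    rw [Finset.mul_sum]
    refine (Finset.sum_le_card_nsmul _ _ _ h4).trans ?_
    rw [nsmul_eq_mul, Nat.card_Ico]
    have h10 : 0 ≤ 2 ^ m * C * er s0 f j x :=
      mul_nonneg (by positivity) (D.er_nonneg j x)
    refine mul_le_mul_of_nonneg_right ?_ h10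
    exact_mod_cast (by omega : j - (j - m) ≤ m)
  have h6 : (2 * (s ^ d)⁻¹ * M) * (7 * s) = 14 * (s / s ^ d * M) := by
    rw [div_eq_mul_inv]; ring
  rw [h6] at h1
  have h7 : s / s ^ d * M ≤ s / s ^ d * ((∫ z in ball x (13 * s + s / 7), ‖fl s0 f j z‖) +
      ∑ i ∈ Finset.Ico (j - m) j, ∫ z in ball x (13 * s + s / 7), gap s0 f i z) :=
    mul_le_mul_of_nonneg_left h2 (by positivity)
  rw [mul_add] at h7
  linarith

lemma int_cont_t {g : Sp d → ℝ} (hg : Continuous g) (hgc : HasCompactSupport g) (x y0 : Sp d)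
    (r : ℝ) : Continuous fun t : ℝ => ∫ y in ball y0 r, g (x + t • y) := by
  obtain ⟨M, hM⟩ := hgc.exists_bound_of_continuous hg
  have : IsFiniteMeasure (volume.restrict (ball y0 r)) := ⟨by
    rw [Measure.restrict_apply_univ]; exact measure_ball_lt_top⟩
  refine continuous_of_dominated (bound := fun _ => M) ?_ ?_ (integrable_const M) ?_
  · exact fun t => (hg.comp (by fun_prop)).aestronglyMeasurable
  · exact fun t => Filter.Eventually.of_forall fun y => hM _
  · exact Filter.Eventually.of_forall fun y => hg.comp (by fun_prop)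

lemma int_cont_t' {g : Sp d → ℝ} (hg : Continuous g) (hgc : HasCompactSupport g) (x y0 : Sp d)
    (r : ℝ) : Continuous fun t : ℝ => ∫ y in ball y0 r, g (x - t • y) := by
  have h := (int_cont_t hg hgc x y0 r).comp continuous_neg
  refine h.congr fun t => ?_
  simp only [Function.comp_apply, neg_smul, ← sub_eq_add_neg]

lemma NN_shift {s0 : ℝ} (hs : 0 < s0) {f : Sp d → E} (hf : Continuous f)
    (hfc : HasCompactSupport f) (m j : ℕ) {x b y0 : Sp d} {r r' : ℝ}
    (hb : ‖b‖ ≤ sc s0 j * (r' - r)) :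
    NN s0 f m j (x + b) y0 r ≤ NN s0 f m j x y0 r' := by
  have hsj := sc_pos hs j
  set s := sc s0 j with hsdef
  have hg : Continuous (fun z => ‖fl s0 f (j - m) z‖) := (fl_cont hf s0 _).norm
  have hgc : HasCompactSupport (fun z => ‖fl s0 f (j - m) z‖) := (fl_cs hfc s0 _).norm
  have hgL : LB (fun z => ‖fl s0 f (j - m) z‖) := LB.of_cont hg
  have hadd : ∀ (x : Sp d) (r t : ℝ), ∫ y in ball y0 r,
      (‖fl s0 f (j - m) (x + t • y)‖ + ‖fl s0 f (j - m) (x - t • y)‖) =
      (∫ y in ball y0 r, ‖fl s0 f (j - m) (x + t • y)‖) +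
        ∫ y in ball y0 r, ‖fl s0 f (j - m) (x - t • y)‖ := by
    intro x r t
    exact integral_add ((hgL.comp_smul x t).integrableOn isBounded_ball)
      ((LB.comp_sub_smul hgL x t).integrableOn isBounded_ball)
  have hc : ∀ (x : Sp d) (r : ℝ), Continuous fun t : ℝ => ∫ y in ball y0 r,
      (‖fl s0 f (j - m) (x + t • y)‖ + ‖fl s0 f (j - m) (x - t • y)‖) := by
    intro x r
    simp only [hadd]
    exact (int_cont_t hg hgc x y0 r).add (int_cont_t' hg hgc x y0 r)
  unfold NN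
  refine intervalIntegral.integral_mono_on (sc_le hs (Nat.le_succ j))
    ((hc _ _).intervalIntegrable _ _) ((hc _ _).intervalIntegrable _ _) fun t ht => ?_
  have ht1 : s ≤ t := ht.1
  have htp : 0 < t := hsj.trans_le ht1
  have hbt : ‖t⁻¹ • b‖ ≤ r' - r := by
    rw [norm_smul, norm_inv, Real.norm_eq_abs, abs_of_pos htp, inv_mul_le_iff₀ htp]
    have h0 : 0 ≤ r' - r := by
      have := (norm_nonneg b).trans hb
      by_contra hneg
      push Not at hneg
      nlinarith
    nlinarith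
  rw [hadd, hadd]
  refine add_le_add ?_ ?_
  · have e1 : ∫ y in ball y0 r, ‖fl s0 f (j - m) (x + b + t • y)‖ =
        ∫ y in ball (y0 + t⁻¹ • b) r, ‖fl s0 f (j - m) (x + t • y)‖ := by
      rw [← setIntegral_ball_add (fun y => ‖fl s0 f (j - m) (x + t • y)‖) (t⁻¹ • b) y0 r]
      congr 1
      ext y
      rw [smul_add, smul_smul, mul_inv_cancel₀ htp.ne', one_smul, add_assoc, add_comm b]
    rw [e1]
    refine setIntegral_mono_set ((hgL.comp_smul x t).integrableOn isBounded_ball)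
      (Filter.Eventually.of_forall fun z => norm_nonneg _) (Filter.Eventually.of_forall ?_)
    refine ball_subset_ball' ?_
    rw [dist_eq_norm, add_sub_cancel_left]
    linarith
  · have e1 : ∫ y in ball y0 r, ‖fl s0 f (j - m) (x + b - t • y)‖ =
        ∫ y in ball (y0 + -(t⁻¹ • b)) r, ‖fl s0 f (j - m) (x - t • y)‖ := by
      rw [← setIntegral_ball_add (fun y => ‖fl s0 f (j - m) (x - t • y)‖) (-(t⁻¹ • b)) y0 r]
      congr 1
      ext y
      rw [smul_add, smul_neg, smul_smul, mul_inv_cancel₀ htp.ne', one_smul]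
      congr 2
      abel
    rw [e1]
    refine setIntegral_mono_set ((LB.comp_sub_smul hgL x t).integrableOn isBounded_ball)
      (Filter.Eventually.of_forall fun z => norm_nonneg _) (Filter.Eventually.of_forall ?_)
    refine ball_subset_ball' ?_
    rw [dist_eq_norm, add_sub_cancel_left, norm_neg]
    linarith

end NNsec

/-! ## the main step -/

lemma telescope {g : ℕ → ℝ} {b : ℕ → ℝ} {l n : ℕ} (h : l ≤ n)
    (hg : ∀ j ∈ Finset.Ico l n, g j ≤ g (j + 1) + b j) :
    g l ≤ g n + ∑ j ∈ Finset.Ico l n, b j := by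
  induction n, h using Nat.le_induction with
  | base => simp
  | succ n hn ih =>
    rw [Finset.sum_Ico_succ_top hn]
    have h1 := ih fun j hj => hg j (by rw [Finset.mem_Ico] at hj ⊢; omega)
    have h2 := hg n (by rw [Finset.mem_Ico]; omega)
    linarith

lemma exists_m {P Q c ρ : ℝ} (hc : 0 < c) (hρ : 0 < ρ) (m0 : ℕ) : ∃ m : ℕ, 2 ≤ m ∧ m0 ≤ m ∧
    (1 / 8 : ℝ) ^ m ≤ ρ ∧ (1 / 8 : ℝ) ^ m * (P + Q * 2 ^ m) ≤ c := by
  have h1 : Filter.Tendsto (fun m : ℕ => (1 / 8 : ℝ) ^ m) Filter.atTop (nhds 0) :=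
    tendsto_pow_atTop_nhds_zero_of_lt_one (by norm_num) (by norm_num)
  have h2 : Filter.Tendsto (fun m : ℕ => (1 / 4 : ℝ) ^ m) Filter.atTop (nhds 0) :=
    tendsto_pow_atTop_nhds_zero_of_lt_one (by norm_num) (by norm_num)
  have h3 : Filter.Tendsto (fun m : ℕ => P * (1 / 8 : ℝ) ^ m + Q * (1 / 4 : ℝ) ^ m)
      Filter.atTop (nhds 0) := by
    have := (h1.const_mul P).add (h2.const_mul Q)
    simpa using this
  have e3 := h3.eventually (gt_mem_nhds hc)
  have e1 := h1.eventually (gt_mem_nhds hρ)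
  obtain ⟨m, hm⟩ := (((Filter.eventually_ge_atTop 2).and (Filter.eventually_ge_atTop m0)).and
    (e1.and e3)).exists
  refine ⟨m, hm.1.1, hm.1.2, hm.2.1.le, ?_⟩
  have h4 : (1 / 8 : ℝ) ^ m * 2 ^ m = (1 / 4) ^ m := by
    rw [← mul_pow]; norm_num
  calc (1 / 8 : ℝ) ^ m * (P + Q * 2 ^ m) = P * (1 / 8) ^ m + Q * ((1 / 8) ^ m * 2 ^ m) := by ring
    _ = P * (1 / 8) ^ m + Q * (1 / 4) ^ m := by rw [h4]
    _ ≤ c := hm.2.2.le

end A0

/-- MODULE A0 -/
theorem stmtA0 (hDev : StmtDev) (hLI : StmtLI) (hHF : StmtHF) (hLA : StmtLA) : StmtA0 := by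
  intro d V E _ _ _ _ _ _ L CK hK y0 ρ B c0 w τ hcap hc0
  have hρ := hcap.ρ_pos
  have hBp := hcap.B_pos
  have hin := hcap.inside
  obtain ⟨CD, hCD1, hD⟩ := hDev d
  have hCD0 : 0 ≤ CD := by linarith
  have hlt : ρ / 8 < ρ / 4 := by linarith
  have hrρ : ρ / 4 ≤ ρ := by linarith
  obtain ⟨κ, hκdef⟩ : ∃ κ : Sp d → ℝ, κ = hat y0 (ρ / 8) (ρ / 4) := ⟨_, rfl⟩
  obtain ⟨lk, hlk⟩ : ∃ lk : ℝ, lk = (ρ / 4 - ρ / 8)⁻¹ := ⟨_, rfl⟩
  have hκ : IsCut κ y0 (ρ / 4) lk := by rw [hκdef, hlk]; exact A0.hat_cut y0 hlt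
  have hlk0 := hκ.l_nonneg
  have hκ0 : ∀ y, 0 ≤ κ y := by rw [hκdef]; exact A0.hat_nonneg y0 _ _
  have hκ1 : ∀ y ∈ ball y0 (ρ / 8), κ y = 1 := by
    intro y hy
    rw [mem_ball, dist_eq_norm] at hy
    rw [hκdef]
    exact A0.hat_one y0 hlt hy.le
  have hκi : 0 < ∫ y, κ y := by rw [hκdef]; exact A0.hat_int_pos y0 hlt (by linarith)
  obtain ⟨CI, hCI0, hI⟩ := hLI d V E L y0 ρ B c0 w τ hcap hc0
  obtain ⟨CH, m0, hCH0, hH⟩ := hHF d V E L CK hK y0 ρ B c0 w τ hcap hc0
  obtain ⟨CA, c1, hCA0, hc1, hA⟩ := hLA d V E L y0 ρ B c0 w τ hcap hc0 κ lk (ρ / 4) hκ hrρ hκ0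
    hκi
  obtain ⟨k0, hk0⟩ := exists_pow_lt_of_lt_one (show 0 < ρ / 8 by linarith)
    (show (1 / 8 : ℝ) < 1 by norm_num)
  obtain ⟨k, hk⟩ : ∃ k : ℕ, k = k0 + 3 := ⟨_, rfl⟩
  obtain ⟨Iφ, hIφdef⟩ : ∃ I : ℝ, I = ∫ z, hat (0 : Sp d) (9 / 10) 1 z := ⟨_, rfl⟩
  have hIφ : 0 ≤ Iφ := by rw [hIφdef]; exact integral_nonneg (A0.hat_nonneg _ _ _)
  obtain ⟨A, hAdef⟩ : ∃ A : ℝ, A = CI * (lk + 1) := ⟨_, rfl⟩
  have hA0 : 0 ≤ A := by rw [hAdef]; positivity
  obtain ⟨m, hm2, hmm0, hmρ, hmP⟩ := A0.exists_m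
    (P := Iφ * A * (14 * k * CD ^ k) + CA * CD ^ k) (Q := Iφ * A * CH)
    (show 0 < c1 / 2 by linarith) (show 0 < ρ / 8 by linarith) m0
  obtain ⟨A', hA'def⟩ : ∃ A' : ℝ, A' = CI * (2 ^ m + lk + 1) := ⟨_, rfl⟩
  have hA'0 : 0 ≤ A' := by rw [hA'def]; positivity
  obtain ⟨KK, hKKdef⟩ : ∃ KK : ℝ, KK = |CK| * (2 * (B * (lk + 1))) := ⟨_, rfl⟩
  have hKK0 : 0 ≤ KK := by rw [hKKdef]; positivity
  -- the constant of the step
  obtain ⟨T, hTdef⟩ : ∃ T : ℝ, T = Iφ * (KK + A * (14 * k * CD ^ k + 14 * (m * 2 ^ m * CD) +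
    2 * (CH * 2 ^ m)) + A') + CA * CD ^ k + CA * 2 ^ m := ⟨_, rfl⟩
  have hT0 : 0 ≤ T := by rw [hTdef]; positivity
  refine ⟨2 * (T / c1) + CD ^ k, by positivity, ?_⟩
  intro u hu s0 hs x j1 j2 hj1 hj12 hval
  have hf : Continuous (fo L u) := A0.fo_cont L hu
  have hfc : HasCompactSupport (fo L u) := A0.fo_cs L hu
  have D := hD E (fo L u) hf hfc s0 hs
  obtain ⟨a, hadef⟩ : ∃ a : ℕ → ℝ, a = fun j => am s0 (fo L u) j x := ⟨_, rfl⟩
  obtain ⟨e, hedef⟩ : ∃ e : ℕ → ℝ, e = fun j => er s0 (fo L u) j x := ⟨_, rfl⟩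
  have ha : ∀ j, 0 ≤ a j := fun j => by rw [hadef]; exact D.am_nonneg j x
  have he : ∀ j, 0 ≤ e j := fun j => by rw [hedef]; exact D.er_nonneg j x
  have hmono : ∀ j, a j ≤ CD * (a (j + 1) + e (j + 1)) := fun j => by
    rw [hadef, hedef]; exact D.am_mono j x
  have hchain := A0.chain ha he hCD1 hmono
  -- long chain bound
  have hchain' : ∀ l n : ℕ, l ≤ n → n ≤ l + k →
      a l ≤ CD ^ k * (a n + ∑ j ∈ Finset.Icc l n, e j) := by
    intro l n h1 h2
    refine (hchain l n h1).trans (mul_le_mul_of_nonneg_right ?_ ?_)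
    · exact pow_le_pow_right₀ hCD1 (by omega)
    · exact add_nonneg (ha _) (Finset.sum_nonneg fun j _ => he j)
  have hstep : ∀ l, j1 ≤ l → l + k ≤ j2 →
      a l ≤ a (l + k) / 2 + (T / c1) * (a j2 + ∑ j ∈ Finset.Icc l j2, e j) := by
    intro l hl1 hl2
    obtain ⟨S, hS⟩ : ∃ S : ℝ, S = ∑ j ∈ Finset.Icc l j2, e j := ⟨_, rfl⟩
    have hS0 : 0 ≤ S := by rw [hS]; exact Finset.sum_nonneg fun j _ => he j
    have hsub : ∀ s : Finset ℕ, s ⊆ Finset.Icc l j2 → ∑ j ∈ s, e j ≤ S := by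
      intro s hs'
      rw [hS]
      exact Finset.sum_le_sum_of_subset_of_nonneg hs' fun j _ _ => he j
    have hmem : ∀ j, l ≤ j → j ≤ j2 → e j ≤ S := by
      intro j h1 h2
      have := hsub {j} (by
        rw [Finset.singleton_subset_iff, Finset.mem_Icc]; exact ⟨h1, h2⟩)
      simpa using this
    have hσp := sc_pos hs (l + 2)
    obtain ⟨σ, hσ⟩ : ∃ σ : ℝ, σ = sc s0 (l + 2) := ⟨_, rfl⟩
    rw [← hσ] at hσp
    -- the bound N of the sum of the NN
    obtain ⟨N, hN⟩ : ∃ N : ℝ, N = (14 * k * CD ^ k) * (a (l + k) + S) +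
      14 * (m * 2 ^ m * CD) * S + CH * 2 ^ m * (a (l + k) + a j2 + S) := ⟨_, rfl⟩
    have hNN : ∀ z : Sp d, ‖z‖ ≤ 1 → ∑ j ∈ Finset.Ico (l + 2) j2,
        NN s0 (fo L u) m j (x + σ • z) y0 (ρ / 4 + (1 / 8) ^ m) ≤ N := by
      intro z hz
      have hσz : ‖σ • z‖ ≤ σ := by
        rw [norm_smul, Real.norm_eq_abs, abs_of_pos hσp]
        nlinarith
      rw [← Finset.sum_Ico_consecutive _ (show l + 2 ≤ l + k by omega) hl2]
      have hp1 : ∑ j ∈ Finset.Ico (l + 2) (l + k),
          NN s0 (fo L u) m j (x + σ • z) y0 (ρ / 4 + (1 / 8) ^ m) ≤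
          (14 * k * CD ^ k) * (a (l + k) + S) + 14 * (m * 2 ^ m * CD) * S := by
        have h1 : ∀ j ∈ Finset.Ico (l + 2) (l + k),
            NN s0 (fo L u) m j (x + σ • z) y0 (ρ / 4 + (1 / 8) ^ m) ≤
            14 * (CD ^ k * (a (l + k) + S)) + 14 * (m * 2 ^ m * CD) * e j := by
          intro j hj
          rw [Finset.mem_Ico] at hj
          have h2 := A0.NN_le hs hf D hCD0 m j (x := x) (x' := x + σ • z) (y0 := y0)
            (r := ρ / 4 + (1 / 8) ^ m) (by linarith) (by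
              rw [add_sub_cancel_left]
              refine hσz.trans ?_
              rw [hσ]
              exact sc_le hs hj.1)
          have h3 := hchain' j (l + k) hj.2.le (by omega)
          have h4 : ∑ i ∈ Finset.Icc j (l + k), e i ≤ S :=
            hsub _ (Finset.Icc_subset_Icc (by omega) hl2)
          have h5 : CD ^ k * (a (l + k) + ∑ i ∈ Finset.Icc j (l + k), e i) ≤
              CD ^ k * (a (l + k) + S) :=
            mul_le_mul_of_nonneg_left (by linarith) (by positivity)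
          have h6 : am s0 (fo L u) j x = a j := by rw [hadef]
          have h7 : er s0 (fo L u) j x = e j := by rw [hedef]
          rw [h6, h7] at h2
          linarith
        refine (Finset.sum_le_sum h1).trans ?_
        rw [Finset.sum_add_distrib, Finset.sum_const, ← Finset.mul_sum, Nat.card_Ico,
          nsmul_eq_mul]
        have h8 : ∑ j ∈ Finset.Ico (l + 2) (l + k), e j ≤ S := by
          refine hsub _ fun j hj => ?_
          rw [Finset.mem_Ico] at hj
          rw [Finset.mem_Icc]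
          omega
        have h9 : ((l + k - (l + 2) : ℕ) : ℝ) ≤ k := by exact_mod_cast (by omega)
        have h10 : 0 ≤ 14 * (CD ^ k * (a (l + k) + S)) := by
          have := ha (l + k)
          positivity
        have h11 := mul_le_mul_of_nonneg_right h9 h10
        have h12 : 14 * (m * 2 ^ m * CD) * ∑ j ∈ Finset.Ico (l + 2) (l + k), e j ≤
            14 * (m * 2 ^ m * CD) * S := mul_le_mul_of_nonneg_left h8 (by positivity)
        linarith
      have hp2 : ∑ j ∈ Finset.Ico (l + k) j2,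
          NN s0 (fo L u) m j (x + σ • z) y0 (ρ / 4 + (1 / 8) ^ m) ≤
          CH * 2 ^ m * (a (l + k) + a j2 + S) := by
        have h1 : ∀ j ∈ Finset.Ico (l + k) j2,
            NN s0 (fo L u) m j (x + σ • z) y0 (ρ / 4 + (1 / 8) ^ m) ≤
            NN s0 (fo L u) m j x y0 (ρ / 2) := by
          intro j hj
          rw [Finset.mem_Ico] at hj
          refine A0.NN_shift hs hf hfc m j (hσz.trans ?_)
          have h2 : sc s0 (l + k) ≤ sc s0 j := sc_le hs hj.1
          have h3 : sc s0 (l + k) = 8 ^ (k0 + 1) * σ := by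
            rw [hσ, ← sc_add]
            congr 1
            omega
          have h4 : (8 : ℝ) ^ k0 * (1 / 8) ^ k0 = 1 := by
            rw [← mul_pow]; norm_num
          have h5 : 1 ≤ (8 : ℝ) ^ k0 * (ρ / 8) := by
            have h50 : (8 : ℝ) ^ k0 * (1 / 8) ^ k0 ≤ 8 ^ k0 * (ρ / 8) :=
              mul_le_mul_of_nonneg_left hk0.le (by positivity)
            linarith
          have h6 : ρ / 8 ≤ ρ / 2 - (ρ / 4 + (1 / 8) ^ m) := by linarith
          calc σ ≤ 8 * (8 ^ k0 * (ρ / 8)) * σ := by nlinarith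
            _ = sc s0 (l + k) * (ρ / 8) := by rw [h3, pow_succ]; ring
            _ ≤ sc s0 j * (ρ / 8) := mul_le_mul_of_nonneg_right h2 (by positivity)
            _ ≤ sc s0 j * (ρ / 2 - (ρ / 4 + (1 / 8) ^ m)) :=
              mul_le_mul_of_nonneg_left h6 (sc_pos hs j).le
        refine (Finset.sum_le_sum h1).trans ?_
        have h2 := hH u hu s0 hs x (l + k) j2 (by omega) hl2 (fun j hj => hval j (by
          rw [Finset.mem_Ico] at hj ⊢
          omega)) m hmm0
        refine h2.trans (mul_le_mul_of_nonneg_left ?_ (by positivity))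
        have h3 : ∑ j ∈ Finset.Icc (l + k) j2, er s0 (fo L u) j x ≤ S := by
          have := hsub (Finset.Icc (l + k) j2) (Finset.Icc_subset_Icc (by omega) le_rfl)
          rwa [hedef] at this
        rw [hadef]
        linarith
      rw [hN]
      linarith
    -- the bound of DD at the scale σ
    obtain ⟨K, hKdef⟩ : ∃ K : ℝ, K = KK * (a j2 + e j2) + (A * (1 / 8) ^ m * N + A' * S) :=
      ⟨_, rfl⟩
    have hN0 : 0 ≤ N := by
      have h1 := ha (l + k)
      have h2 := ha j2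
      rw [hN]
      positivity
    have hK0 : 0 ≤ K := by
      have h1 := ha j2
      have h2 := he j2
      rw [hKdef]
      positivity
    have hDD : ∀ z : Sp d, ‖z‖ ≤ 1 → DD u w κ (x + σ • z) σ ≤ K := by
      intro z hz
      have hσz : ‖σ • z‖ ≤ σ := by
        rw [norm_smul, Real.norm_eq_abs, abs_of_pos hσp]
        nlinarith
      have h1 : ∀ j ∈ Finset.Ico (l + 2) j2,
          DD u w κ (x + σ • z) (sc s0 j) ≤ DD u w κ (x + σ • z) (sc s0 (j + 1)) +
            (A * (1 / 8) ^ m * NN s0 (fo L u) m j (x + σ • z) y0 (ρ / 4 + (1 / 8) ^ m) +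
              A' * e j) := by
        intro j hj
        rw [Finset.mem_Ico] at hj
        have h2 := hI u hu s0 hs m j x (x + σ • z) (by
              rw [add_sub_cancel_left]
              refine hσz.trans ?_
              rw [hσ]
              exact sc_le hs hj.1) (hval j (by rw [Finset.mem_Ico]; omega)) κ lk (ρ / 4)
            (ρ / 8) hκ hrρ hκ0 hκ1
        have h3 : 0 ≤ c0 / 2 * NN s0 (fo L u) m j (x + σ • z) y0 (ρ / 8) :=
          mul_nonneg (by linarith) (A0.NN_nonneg hs _ _ _ _ _ _)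
        have h4 : er s0 (fo L u) j x = e j := by rw [hedef]
        rw [h4, ← hAdef, ← hA'def] at h2
        linarith
      have h5 := A0.telescope (g := fun j => DD u w κ (x + σ • z) (sc s0 j))
        (show l + 2 ≤ j2 by omega) h1
      rw [Finset.sum_add_distrib, ← Finset.mul_sum, ← Finset.mul_sum, ← hσ] at h5
      have h6 := hNN z hz
      have h7 : ∑ j ∈ Finset.Ico (l + 2) j2, e j ≤ S := by
        refine hsub _ fun j hj => ?_
        rw [Finset.mem_Ico] at hj
        rw [Finset.mem_Icc]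
        omega
      have h8 : DD u w κ (x + σ • z) (sc s0 j2) ≤ KK * (a j2 + e j2) := by
        have hp2 := sc_pos hs j2
        have h9 : (sc s0 j2)⁻¹ * σ ≤ 1 / 2 := by
          rw [inv_mul_le_iff₀ hp2]
          have h10 : sc s0 (l + 3) ≤ sc s0 j2 := sc_le hs (by omega)
          have h11 : sc s0 (l + 3) = 8 * σ := by rw [hσ, ← sc_succ]
          linarith
        have h10 := A0.DD_top hK hcap hκ hrρ hu hs (show 1 ≤ j2 by omega) x
          (((sc s0 j2)⁻¹ * σ) • z) (by
            rw [norm_smul, Real.norm_eq_abs, abs_of_nonneg (by positivity)]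
            have := norm_nonneg z
            have h12 : 0 ≤ (sc s0 j2)⁻¹ * σ := by positivity
            nlinarith) (add_nonneg (D.am_nonneg _ _) (D.er_nonneg _ _))
        rw [smul_smul, ← mul_assoc, mul_inv_cancel₀ hp2.ne', one_mul] at h10
        have h11 := (le_abs_self _).trans h10
        rw [← hKKdef] at h11
        rw [hadef, hedef]
        exact h11
      have h9 : A * (1 / 8) ^ m * ∑ j ∈ Finset.Ico (l + 2) j2,
          NN s0 (fo L u) m j (x + σ • z) y0 (ρ / 4 + (1 / 8) ^ m) ≤ A * (1 / 8) ^ m * N :=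
        mul_le_mul_of_nonneg_left h6 (by positivity)
      have h10 : A' * ∑ j ∈ Finset.Ico (l + 2) j2, e j ≤ A' * S :=
        mul_le_mul_of_nonneg_left h7 hA'0
      rw [hKdef]
      linarith
    -- the smeared functional
    have hsm : (∫ z, hat (0 : Sp d) (9 / 10) 1 z * DD u w κ (x + σ • z) σ) ≤ Iφ * K := by
      have hφi : Integrable (fun z : Sp d => hat (0 : Sp d) (9 / 10) 1 z) :=
        (A0.hat_cont _ _ _).integrable_of_hasCompactSupport (A0.hat_cs _ (by norm_num))
      by_cases hint : Integrable fun z => hat (0 : Sp d) (9 / 10) 1 z *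
          DD u w κ (x + σ • z) σ
      · rw [hIφdef, ← integral_mul_const]
        refine integral_mono hint (hφi.mul_const _) fun z => ?_
        by_cases hz : ‖z‖ ≤ 1
        · exact mul_le_mul_of_nonneg_left (hDD z hz) (A0.hat_nonneg _ _ _ _)
        · push Not at hz
          simp only
          rw [A0.hat_zero (0 : Sp d) (by norm_num) (by rw [sub_zero]; exact hz.le)]
          simp
      · rw [integral_undef hint]
        positivity
    have hLAi := hA u hu s0 hs x l m hm2 (by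
      have := hval (l + 2) (by rw [Finset.mem_Ico]; omega)
      exact this)
    rw [← hσ] at hLAi
    have e1 : am s0 (fo L u) l x = a l := by rw [hadef]
    have e2 : am s0 (fo L u) (l + 2) x = a (l + 2) := by rw [hadef]
    have e3 : er s0 (fo L u) (l + 2) x = e (l + 2) := by rw [hedef]
    rw [e1, e2, e3] at hLAi
    have h1 : a (l + 2) ≤ CD ^ k * (a (l + k) + S) := by
      refine (hchain' (l + 2) (l + k) (by omega) (by omega)).trans ?_
      refine mul_le_mul_of_nonneg_left ?_ (by positivity)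
      have := hsub (Finset.Icc (l + 2) (l + k)) (Finset.Icc_subset_Icc (by omega) hl2)
      linarith
    have h2 : e (l + 2) ≤ S := hmem _ (by omega) (by omega)
    have h3 : e j2 ≤ S := hmem _ (by omega) le_rfl
    have h8m : (1 / 8 : ℝ) ^ m ≤ 1 := pow_le_one₀ (by norm_num) (by norm_num)
    have h8m0 : 0 ≤ (1 / 8 : ℝ) ^ m := by positivity
    have hal := ha (l + k)
    have haj := ha j2
    -- main inequality
    have hmain : c1 * a l ≤ (c1 / 2) * a (l + k) + T * (a j2 + S) := by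
      have b1 : CA * (1 / 8) ^ m * a (l + 2) ≤
          CA * (1 / 8) ^ m * (CD ^ k * (a (l + k) + S)) :=
        mul_le_mul_of_nonneg_left h1 (by positivity)
      have b2 : CA * 2 ^ m * e (l + 2) ≤ CA * 2 ^ m * S :=
        mul_le_mul_of_nonneg_left h2 (by positivity)
      have b3 : Iφ * K ≤ Iφ * (KK * (a j2 + S) + (A * (1 / 8) ^ m * N + A' * S)) := by
        refine mul_le_mul_of_nonneg_left ?_ hIφ
        rw [hKdef]
        have := mul_le_mul_of_nonneg_left (show a j2 + e j2 ≤ a j2 + S by linarith) hKK0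
        linarith
      have b4 : c1 * a l ≤ Iφ * (KK * (a j2 + S) + (A * (1 / 8) ^ m * N + A' * S)) +
          CA * (1 / 8) ^ m * (CD ^ k * (a (l + k) + S)) + CA * 2 ^ m * S := by linarith
      have b5 : (1 / 8 : ℝ) ^ m * (Iφ * A * (14 * k * CD ^ k) + CA * CD ^ k +
          Iφ * A * CH * 2 ^ m) * a (l + k) ≤ c1 / 2 * a (l + k) :=
        mul_le_mul_of_nonneg_right hmP hal
      -- the remaining part
      have b6 : Iφ * (KK * (a j2 + S) + (A * (1 / 8) ^ m * N + A' * S)) +
          CA * (1 / 8) ^ m * (CD ^ k * (a (l + k) + S)) + CA * 2 ^ m * S =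
          (1 / 8 : ℝ) ^ m * (Iφ * A * (14 * k * CD ^ k) + CA * CD ^ k +
          Iφ * A * CH * 2 ^ m) * a (l + k) +
          ((1 / 8 : ℝ) ^ m * (Iφ * A * (14 * k * CD ^ k * S + 14 * (m * 2 ^ m * CD) * S +
            CH * 2 ^ m * (a j2 + S)) + CA * CD ^ k * S) +
            (Iφ * (KK * (a j2 + S) + A' * S) + CA * 2 ^ m * S)) := by
        rw [hN]; ring
      have b7 : (1 / 8 : ℝ) ^ m * (Iφ * A * (14 * k * CD ^ k * S + 14 * (m * 2 ^ m * CD) * S +
            CH * 2 ^ m * (a j2 + S)) + CA * CD ^ k * S) ≤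
          1 * (Iφ * A * (14 * k * CD ^ k * S + 14 * (m * 2 ^ m * CD) * S +
            CH * 2 ^ m * (a j2 + S)) + CA * CD ^ k * S) :=
        mul_le_mul_of_nonneg_right h8m (by positivity)
      have b8 : 1 * (Iφ * A * (14 * k * CD ^ k * S + 14 * (m * 2 ^ m * CD) * S +
            CH * 2 ^ m * (a j2 + S)) + CA * CD ^ k * S) +
            (Iφ * (KK * (a j2 + S) + A' * S) + CA * 2 ^ m * S) ≤ T * (a j2 + S) := by
        have c1' : T * (a j2 + S) - (1 * (Iφ * A * (14 * k * CD ^ k * S +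
            14 * (m * 2 ^ m * CD) * S + CH * 2 ^ m * (a j2 + S)) + CA * CD ^ k * S) +
            (Iφ * (KK * (a j2 + S) + A' * S) + CA * 2 ^ m * S)) =
            Iφ * A * (14 * k * CD ^ k) * a j2 + Iφ * A * (14 * (m * 2 ^ m * CD)) * a j2 +
            Iφ * A * (CH * 2 ^ m) * (a j2 + S) + Iφ * A' * a j2 + CA * CD ^ k * a j2 +
            CA * 2 ^ m * a j2 := by
          rw [hTdef]; ring
        have c2 : 0 ≤ Iφ * A * (14 * k * CD ^ k) * a j2 +
            Iφ * A * (14 * (m * 2 ^ m * CD)) * a j2 +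
            Iφ * A * (CH * 2 ^ m) * (a j2 + S) + Iφ * A' * a j2 + CA * CD ^ k * a j2 +
            CA * 2 ^ m * a j2 := by positivity
        linarith
      linarith
    rw [← hS]
    have h4 : a l ≤ ((c1 / 2) * a (l + k) + T * (a j2 + S)) / c1 := by
      rw [le_div_iff₀ hc1]
      linarith
    refine h4.trans (le_of_eq ?_)
    field_simp
  have hshort : ∀ l, l ≤ j2 → j2 < l + k →
      a l ≤ CD ^ k * (a j2 + ∑ j ∈ Finset.Icc l j2, e j) := fun l h1 h2 =>
    hchain' l j2 h1 h2.le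
  have hfin := A0.iterate ha he (show 1 ≤ k by omega) (by positivity) (by positivity) hstep
    hshort (j2 - j1) j1 rfl le_rfl hj12
  rw [hadef, hedef] at hfin
  exact hfin

end

end TrI
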