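import Pool.Agent.TR.Basic1

/-!
# Basic facts on the averages, part 2: several averages
-/

set_option linter.unusedSectionVars false

open MeasureTheory Metric Set
open scoped InnerProductSpace ContDiff Pointwise

namespace TrI

noncomputable section

variable {d : ℕ}

section LBfacts

variable {F : Type*} [NormedAddCommGroup F] [NormedSpace ℝ F] {g h : Sp d → F}

/-! ## several averages -/

lemma kav_succ (s0 : ℝ) (m r : ℕ) (g : Sp d → F) :
    kav s0 m (r + 1) g = av (sc s0 (m + r)) (kav s0 m r g) := rfl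

lemma LB.kav (hg : LB g) (s0 : ℝ) (m r : ℕ) : LB (kav s0 m r g) := by
  induction r with
  | zero => exact hg
  | succ r ih => exact ih.av _

lemma kav_cont (hg : Continuous g) (s0 : ℝ) (m r : ℕ) : Continuous (kav s0 m r g) := by
  induction r with
  | zero => exact hg
  | succ r ih => exact av_cont ih _

lemma kav_cs (hg : HasCompactSupport g) (s0 : ℝ) (m r : ℕ) :
    HasCompactSupport (kav s0 m r g) := by
  induction r with
  | zero => exact hg
  | succ r ih => exact av_cs ih _

lemma kav_add (hg : LB g) (hh : LB h) (s0 : ℝ) (m r : ℕ) (x : Sp d) :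
    kav s0 m r (fun z => g z + h z) x = kav s0 m r g x + kav s0 m r h x := by
  induction r generalizing x with
  | zero => rfl
  | succ r ih =>
    rw [kav_succ, kav_succ, kav_succ, ← av_add (hg.kav s0 m r) (hh.kav s0 m r)]
    congr 1
    ext z
    exact ih z

lemma kav_sub (hg : LB g) (hh : LB h) (s0 : ℝ) (m r : ℕ) (x : Sp d) :
    kav s0 m r (fun z => g z - h z) x = kav s0 m r g x - kav s0 m r h x := by
  induction r generalizing x with
  | zero => rfl
  | succ r ih =>
    rw [kav_succ, kav_succ, kav_succ, ← av_sub (hg.kav s0 m r) (hh.kav s0 m r)]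
    congr 1
    ext z
    exact ih z

lemma kav_smul (c : ℝ) (s0 : ℝ) (m r : ℕ) (x : Sp d) :
    kav s0 m r (fun z => c • g z) x = c • kav s0 m r g x := by
  induction r generalizing x with
  | zero => rfl
  | succ r ih =>
    rw [kav_succ, kav_succ, ← av_smul]
    congr 1
    ext z
    exact ih z

lemma kav_mul (c : ℝ) (g : Sp d → ℝ) (s0 : ℝ) (m r : ℕ) (x : Sp d) :
    kav s0 m r (fun z => c * g z) x = c * kav s0 m r g x := kav_smul c s0 m r x

lemma kav_zero (s0 : ℝ) (m r : ℕ) (x : Sp d) : kav s0 m r (fun _ => (0 : F)) x = 0 := by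
  have := kav_smul (g := fun _ : Sp d => (0 : F)) 0 s0 m r x
  simpa using this

lemma kav_sum {ι : Type*} (S : Finset ι) {G : ι → Sp d → F} (hG : ∀ i ∈ S, LB (G i)) (s0 : ℝ)
    (m r : ℕ) (x : Sp d) :
    kav s0 m r (fun z => ∑ i ∈ S, G i z) x = ∑ i ∈ S, kav s0 m r (G i) x := by
  classical
  induction S using Finset.induction_on with
  | empty => simpa using kav_zero s0 m r x
  | insert i S hi ih =>
    simp only [Finset.sum_insert hi]
    rw [kav_add (hG i (Finset.mem_insert_self i S))
      (LB.sum S fun j hj => hG j (Finset.mem_insert_of_mem hj)),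
      ih fun j hj => hG j (Finset.mem_insert_of_mem hj)]

lemma kav_nonneg {g : Sp d → ℝ} (hg : ∀ z, 0 ≤ g z) (s0 : ℝ) (m r : ℕ) (x : Sp d) :
    0 ≤ kav s0 m r g x := by
  induction r generalizing x with
  | zero => exact hg x
  | succ r ih => exact av_nonneg ih _ x

lemma kav_mono {g h : Sp d → ℝ} (hg : LB g) (hh : LB h) (hgh : ∀ z, g z ≤ h z) (s0 : ℝ)
    (m r : ℕ) (x : Sp d) : kav s0 m r g x ≤ kav s0 m r h x := by
  induction r generalizing x with
  | zero => exact hgh x
  | succ r ih => exact av_mono (hg.kav s0 m r) (hh.kav s0 m r) ih _ x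

lemma kav_le_of_le {g : Sp d → ℝ} (hg : LB g) {M : ℝ} (hM : ∀ z, g z ≤ M) (s0 : ℝ)
    (m r : ℕ) (x : Sp d) : kav s0 m r g x ≤ M := by
  induction r generalizing x with
  | zero => exact hM x
  | succ r ih => exact av_le_of_le (hg.kav s0 m r) ih _ x

lemma norm_kav_le (hg : LB g) (s0 : ℝ) (m r : ℕ) (x : Sp d) :
    ‖kav s0 m r g x‖ ≤ kav s0 m r (fun z => ‖g z‖) x := by
  induction r generalizing x with
  | zero => exact le_rfl
  | succ r ih =>
    exact (norm_av_le _ _ x).trans (av_mono (hg.kav s0 m r).norm (hg.norm.kav s0 m r) ih _ x)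

lemma kav_inner {E : Type*} [NormedAddCommGroup E] [InnerProductSpace ℝ E] [CompleteSpace E]
    {g : Sp d → E} (hg : LB g) (e : E) (s0 : ℝ) (m r : ℕ) (x : Sp d) :
    kav s0 m r (fun z => ⟪g z, e⟫_ℝ) x = ⟪kav s0 m r g x, e⟫_ℝ := by
  induction r generalizing x with
  | zero => rfl
  | succ r ih =>
    rw [kav_succ, kav_succ, ← av_inner (hg.kav s0 m r)]
    congr 1
    ext z
    exact ih z

lemma kav_succ' (s0 : ℝ) (m r : ℕ) (g : Sp d → F) :
    kav s0 m (r + 1) g = kav s0 (m + 1) r (av (sc s0 m) g) := by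
  induction r with
  | zero => rfl
  | succ r ih =>
    rw [kav_succ, ih, kav_succ]
    congr 2
    omega

lemma kav_comp (s0 : ℝ) (m r r' : ℕ) (g : Sp d → F) :
    kav s0 (m + r) r' (kav s0 m r g) = kav s0 m (r + r') g := by
  induction r' with
  | zero => rfl
  | succ r' ih =>
    rw [kav_succ, ih, ← add_assoc r r' 1, kav_succ]
    congr 2
    omega

lemma kav_av_comm (hg : LB g) (s0 : ℝ) (m r : ℕ) (s : ℝ) :
    kav s0 m r (av s g) = av s (kav s0 m r g) := by
  induction r with
  | zero => rfl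
  | succ r ih => rw [kav_succ, ih, kav_succ, av_comm (hg.kav s0 m r)]

lemma kav_kav_comm (hg : LB g) (s0 : ℝ) (m r m' r' : ℕ) :
    kav s0 m r (kav s0 m' r' g) = kav s0 m' r' (kav s0 m r g) := by
  induction r' with
  | zero => rfl
  | succ r' ih => rw [kav_succ, kav_av_comm (hg.kav s0 m' r'), ih, kav_succ]

lemma kav_integrable (hg : Integrable g) (hg' : LB g) (s0 : ℝ) (m r : ℕ) :
    Integrable (kav s0 m r g) := by
  induction r with
  | zero => exact hg
  | succ r ih => exact av_integrable ih (hg'.kav s0 m r) _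

lemma kav_int [CompleteSpace F] (hg : Integrable g) (hg' : LB g) (s0 : ℝ) (m r : ℕ) :
    ∫ x, kav s0 m r g x = ∫ x, g x := by
  induction r with
  | zero => rfl
  | succ r ih => rw [kav_succ, av_int (kav_integrable hg hg' s0 m r) (hg'.kav s0 m r), ih]

/-! ## the kernel of several averages -/

/-- the kernel of r + 1 averages starting at level m -/
def kk (s0 : ℝ) (m : ℕ) : ℕ → Sp d → ℝ
  | 0 => fun y => ((sc s0 m) ^ d)⁻¹ * bk d ((sc s0 m)⁻¹ • y)
  | r + 1 => av (sc s0 (m + (r + 1))) (kk s0 m r)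

lemma sc_le {s0 : ℝ} (hs : 0 < s0) {j k : ℕ} (h : j ≤ k) : sc s0 j ≤ sc s0 k := by
  unfold sc
  gcongr
  norm_num

lemma kk_cont {s0 : ℝ} (m r : ℕ) : Continuous (kk s0 m r : Sp d → ℝ) := by
  induction r with
  | zero =>
    exact continuous_const.mul (bk_cont.comp (by fun_prop))
  | succ r ih => exact av_cont ih _

lemma kk_nonneg {s0 : ℝ} (hs : 0 < s0) (m r : ℕ) (y : Sp d) : 0 ≤ kk s0 m r y := by
  induction r generalizing y with
  | zero =>
    have := sc_pos hs m
    exact mul_nonneg (by positivity) (bk_nonneg _)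
  | succ r ih => exact av_nonneg ih _ y

lemma kk_supp {s0 : ℝ} (hs : 0 < s0) (m r : ℕ) {y : Sp d}
    (hy : 8 / 7 * sc s0 (m + r) ≤ ‖y‖) : kk s0 m r y = 0 := by
  induction r generalizing y with
  | zero =>
    have hp := sc_pos hs m
    simp only [add_zero] at hy
    simp only [kk]
    rw [bk_zero, mul_zero]
    rw [norm_smul, norm_inv, Real.norm_eq_abs, abs_of_pos hp, inv_mul_eq_div, le_div_iff₀ hp]
    linarith
  | succ r ih =>
    have hp := sc_pos hs (m + r)
    have hsucc : sc s0 (m + (r + 1)) = 8 * sc s0 (m + r) := by rw [← sc_succ]; rfl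
    rw [hsucc] at hy
    have : ‖kk s0 m (r + 1) y‖ ≤ 0 := by
      refine norm_av_le_of_bound fun z hz => ?_
      rw [hsucc, abs_of_pos (by positivity)] at hz
      rw [ih, norm_zero]
      have h3 : ‖y‖ ≤ ‖z‖ + ‖z - y‖ := by
        have := norm_sub_le z (z - y)
        rwa [sub_sub_cancel] at this
      linarith
    simpa using this

lemma kk_integrable {s0 : ℝ} (hs : 0 < s0) (m r : ℕ) : Integrable (kk s0 m r : Sp d → ℝ) := by
  refine (LB.of_cont (kk_cont m r)).integrable ?_
  refine HasCompactSupport.of_support_subset_isCompact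
    (isCompact_closedBall (0 : Sp d) (8 / 7 * sc s0 (m + r))) ?_
  intro y hy
  by_contra hy'
  apply hy
  rw [mem_closedBall, dist_zero_right, not_le] at hy'
  exact kk_supp hs m r hy'.le

lemma kk_int {s0 : ℝ} (hs : 0 < s0) (m r : ℕ) : ∫ y : Sp d, kk s0 m r y = 1 := by
  induction r with
  | zero =>
    have hp := sc_pos hs m
    simp only [kk]
    rw [integral_const_mul, Measure.integral_comp_inv_smul_of_nonneg volume (bk d) hp.le,
      finrank_euclideanSpace_fin, bk_int]
    simp only [smul_eq_mul, mul_one]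
    field_simp
  | succ r ih =>
    rw [show (fun y : Sp d => kk s0 m (r + 1) y) = av (sc s0 (m + (r + 1))) (kk s0 m r) from rfl,
      av_int (kk_integrable hs m r) (LB.of_cont (kk_cont m r)), ih]

/-- the average as integral against the rescaled kernel -/
lemma av_eq_scaled {s : ℝ} (hs : 0 < s) (g : Sp d → F) (x : Sp d) :
    av s g x = ∫ z, ((s ^ d)⁻¹ * bk d (s⁻¹ • (z - x))) • g z := by
  have h1 : ∫ z, ((s ^ d)⁻¹ * bk d (s⁻¹ • (z - x))) • g z =
      ∫ z, ((s ^ d)⁻¹ * bk d (s⁻¹ • z)) • g (x + z) := by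
    rw [← integral_add_right_eq_self (μ := volume)
      (fun z => ((s ^ d)⁻¹ * bk d (s⁻¹ • (z - x))) • g z) x]
    congr 1
    ext z
    rw [add_sub_cancel_right, add_comm z x]
  rw [h1]
  have h2 := Measure.integral_comp_smul_of_nonneg (volume : Measure (Sp d))
    (fun z => ((s ^ d)⁻¹ * bk d (s⁻¹ • z)) • g (x + z)) s (hR := hs.le)
  rw [finrank_euclideanSpace_fin] at h2
  have h3 : ∫ z, ((s ^ d)⁻¹ * bk d (s⁻¹ • z)) • g (x + z) =
      s ^ d • ∫ y, ((s ^ d)⁻¹ * bk d (s⁻¹ • s • y)) • g (x + s • y) := by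
    rw [h2, smul_smul, mul_inv_cancel₀ (by positivity), one_smul]
  rw [h3, ← integral_smul, av_def]
  congr 1
  ext y
  rw [smul_smul, smul_smul, inv_mul_cancel₀ hs.ne', one_smul, ← mul_assoc,
    mul_inv_cancel₀ (by positivity), one_mul]

lemma kk_le {s0 : ℝ} (hs : 0 < s0) (m r : ℕ) (y : Sp d) :
    kk s0 m r y ≤ bk d 0 / (sc s0 (m + r)) ^ d := by
  cases r with
  | zero =>
    have hp := sc_pos hs m
    simp only [kk, add_zero]
    rw [div_eq_inv_mul]
    exact mul_le_mul_of_nonneg_left (bk_le _) (by positivity)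
  | succ r =>
    have hp := sc_pos hs (m + (r + 1))
    simp only [kk]
    rw [av_eq_scaled hp]
    calc ∫ z, (((sc s0 (m + (r + 1))) ^ d)⁻¹ * bk d ((sc s0 (m + (r + 1)))⁻¹ • (z - y))) •
          kk s0 m r z ≤ ∫ z, (bk d 0 / (sc s0 (m + (r + 1))) ^ d) * kk s0 m r z := by
          refine integral_mono_of_nonneg (Filter.Eventually.of_forall fun z => ?_)
            ((kk_integrable hs m r).const_mul _) (Filter.Eventually.of_forall fun z => ?_)
          · exact mul_nonneg (mul_nonneg (by positivity) (bk_nonneg _)) (kk_nonneg hs m r z)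
          · refine mul_le_mul_of_nonneg_right ?_ (kk_nonneg hs m r z)
            rw [div_eq_inv_mul]
            exact mul_le_mul_of_nonneg_left (bk_le _) (by positivity)
      _ = _ := by rw [integral_const_mul, kk_int hs, mul_one]

lemma kk_eq {s0 : ℝ} (hs : 0 < s0) (m r : ℕ) {y : Sp d} (hy : ‖y‖ ≤ 3 / 4 * sc s0 (m + r)) :
    kk s0 m r y = bk d 0 / (sc s0 (m + r)) ^ d := by
  cases r with
  | zero =>
    have hp := sc_pos hs m
    simp only [add_zero] at hy ⊢
    simp only [kk]
    rw [bk_eq, div_eq_inv_mul]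
    rw [norm_smul, norm_inv, Real.norm_eq_abs, abs_of_pos hp, inv_mul_eq_div, div_le_iff₀ hp]
    linarith
  | succ r =>
    have hp := sc_pos hs (m + (r + 1))
    have hp' := sc_pos hs (m + r)
    have hsucc : sc s0 (m + (r + 1)) = 8 * sc s0 (m + r) := by rw [← sc_succ]; rfl
    simp only [kk]
    rw [av_eq_scaled hp]
    have h1 : ∀ z, (((sc s0 (m + (r + 1))) ^ d)⁻¹ *
        bk d ((sc s0 (m + (r + 1)))⁻¹ • (z - y))) • kk s0 m r z =
        (bk d 0 / (sc s0 (m + (r + 1))) ^ d) * kk s0 m r z := by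
      intro z
      by_cases hz : 8 / 7 * sc s0 (m + r) ≤ ‖z‖
      · rw [kk_supp hs m r hz]; simp
      · push Not at hz
        rw [smul_eq_mul]
        congr 1
        rw [bk_eq, div_eq_inv_mul]
        rw [norm_smul, norm_inv, Real.norm_eq_abs, abs_of_pos hp, inv_mul_eq_div,
          div_le_iff₀ hp]
        have := norm_sub_le z y
        rw [hsucc] at hy ⊢
        linarith
    simp only [h1]
    rw [integral_const_mul, kk_int hs, mul_one]

/-- averages are self adjoint, scalar times vector version -/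
lemma av_adj_smul [CompleteSpace F] {h : Sp d → ℝ} (hg : LB g) (hh : LB h)
    (hi : HasCompactSupport h) (s : ℝ) :
    ∫ x, h x • av s g x = ∫ x, av s h x • g x := by
  obtain ⟨R, hR⟩ := hi.isCompact.isBounded.subset_closedBall (0 : Sp d)
  have hR' : ∀ z, h z ≠ 0 → ‖z‖ ≤ R := fun z hz => by
    simpa using hR (subset_tsupport _ hz)
  obtain ⟨M, hM⟩ := hg.bd (R + |s|)
  have hhi : Integrable h := hh.integrable hi
  have hb : ∀ (y : Sp d), ‖y‖ < 1 → ‖s • y‖ ≤ |s| := by
    intro y hy
    rw [norm_smul, Real.norm_eq_abs]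
    nlinarith [abs_nonneg s, norm_nonneg y]
  have hI1 : Integrable (Function.uncurry fun (x y : Sp d) => h x • bk d y • g (x + s • y))
      (volume.prod volume) := by
    have hi0 : Integrable (fun p : Sp d × Sp d => ‖h p.1‖ * bk d p.2 * |M|)
        (volume.prod volume) := (hhi.norm.mul_prod bk_integrable).mul_const _
    refine hi0.mono' ?_ ?_
    · refine StronglyMeasurable.aestronglyMeasurable ?_
      refine StronglyMeasurable.smul (f := fun p : Sp d × Sp d => h p.1) ?_ ?_
      · exact hh.meas.comp_measurable measurable_fst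
      refine StronglyMeasurable.smul (f := fun p : Sp d × Sp d => bk d p.2) ?_ ?_
      · exact (bk_cont.comp continuous_snd).stronglyMeasurable
      · exact hg.meas.comp_measurable
          (show Measurable fun p : Sp d × Sp d => p.1 + s • p.2 by fun_prop)
    · refine Filter.Eventually.of_forall fun p => ?_
      obtain ⟨x, y⟩ := p
      simp only [Function.uncurry_apply_pair]
      rw [norm_smul, norm_smul, Real.norm_eq_abs (bk d y), abs_of_nonneg (bk_nonneg y)]
      by_cases hy : 1 ≤ ‖y‖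
      · simp [bk_zero hy]
      by_cases hx : h x = 0
      · simp [hx]
      push Not at hy
      have h1 : ‖g (x + s • y)‖ ≤ |M| := by
        refine (hM _ ?_).trans (le_abs_self M)
        exact (norm_add_le _ _).trans (add_le_add (hR' x hx) (hb y hy))
      calc ‖h x‖ * (bk d y * ‖g (x + s • y)‖) ≤ ‖h x‖ * (bk d y * |M|) :=
            mul_le_mul_of_nonneg_left (mul_le_mul_of_nonneg_left h1 (bk_nonneg y))
              (norm_nonneg _)
        _ = ‖h x‖ * bk d y * |M| := by ring
  have hI2 : Integrable (Function.uncurry fun (x y : Sp d) => (bk d y • h (x + s • y)) • g x)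
      (volume.prod volume) := by
    have hi0 : Integrable (fun p : Sp d × Sp d => (bk d p.2 • ‖h (p.1 + s • p.2)‖) * |M|)
        (volume.prod volume) := (shear_integrable hhi.norm hh.norm s).mul_const _
    refine hi0.mono' ?_ ?_
    · refine StronglyMeasurable.aestronglyMeasurable ?_
      refine StronglyMeasurable.smul (f := fun p : Sp d × Sp d => bk d p.2 • h (p.1 + s • p.2))
        ?_ ?_
      · refine StronglyMeasurable.smul (f := fun p : Sp d × Sp d => bk d p.2) ?_ ?_
        · exact (bk_cont.comp continuous_snd).stronglyMeasurable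
        · exact hh.meas.comp_measurable
            (show Measurable fun p : Sp d × Sp d => p.1 + s • p.2 by fun_prop)
      · exact hg.meas.comp_measurable measurable_fst
    · refine Filter.Eventually.of_forall fun p => ?_
      obtain ⟨x, y⟩ := p
      simp only [Function.uncurry_apply_pair]
      rw [norm_smul, norm_smul, Real.norm_eq_abs (bk d y), abs_of_nonneg (bk_nonneg y),
        smul_eq_mul]
      by_cases hy : 1 ≤ ‖y‖
      · simp [bk_zero hy]
      by_cases hx : h (x + s • y) = 0
      · simp [hx]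
      push Not at hy
      have h1 : ‖g x‖ ≤ |M| := by
        refine (hM _ ?_).trans (le_abs_self M)
        have h3 : ‖x‖ ≤ ‖x + s • y‖ + ‖s • y‖ := by
          have := norm_sub_le (x + s • y) (s • y)
          rwa [add_sub_cancel_right] at this
        exact h3.trans (add_le_add (hR' _ hx) (hb y hy))
      exact mul_le_mul_of_nonneg_left h1 (mul_nonneg (bk_nonneg y) (norm_nonneg _))
  have e1 : ∀ x, h x • av s g x = ∫ y, h x • bk d y • g (x + s • y) := by
    intro x
    rw [av_def, integral_smul]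
  have e2 : ∀ x, av s h x • g x = ∫ y, (bk d y • h (x + s • y)) • g x := by
    intro x
    rw [av_def, integral_smul_const]
  simp only [e1, e2]
  rw [integral_integral_swap hI1, integral_integral_swap hI2]
  have e3 : ∀ y : Sp d, ∫ x, h x • bk d y • g (x + s • y) =
      ∫ x, (bk d (-y) • h (x + s • (-y))) • g x := by
    intro y
    rw [← integral_add_right_eq_self (μ := volume) (fun x => h x • bk d y • g (x + s • y))
      (-(s • y))]
    congr 1
    ext x
    rw [bk_neg, smul_neg, neg_add_cancel_right, smul_assoc, smul_comm]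
  simp only [e3]
  exact integral_neg_eq_self (fun y : Sp d => ∫ x, (bk d y • h (x + s • y)) • g x) volume

lemma kk_cs {s0 : ℝ} (hs : 0 < s0) (m r : ℕ) : HasCompactSupport (kk s0 m r : Sp d → ℝ) := by
  refine HasCompactSupport.of_support_subset_isCompact
    (isCompact_closedBall (0 : Sp d) (8 / 7 * sc s0 (m + r))) ?_
  intro y hy
  by_contra hy'
  apply hy
  rw [mem_closedBall, dist_zero_right, not_le] at hy'
  exact kk_supp hs m r hy'.le

/-- kernel representation -/
lemma kav_eq_kk [CompleteSpace F] {s0 : ℝ} (hs : 0 < s0) (hg : LB g) (m r : ℕ) (x : Sp d) :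
    kav s0 m (r + 1) g x = ∫ z, kk s0 m r z • g (x + z) := by
  induction r generalizing g with
  | zero =>
    change av (sc s0 (m + 0)) g x = _
    have hp := sc_pos hs m
    rw [add_zero, av_eq_scaled hp]
    rw [← integral_add_right_eq_self (μ := volume)
      (fun z => ((sc s0 m ^ d)⁻¹ * bk d ((sc s0 m)⁻¹ • (z - x))) • g z) x]
    congr 1
    ext z
    rw [add_sub_cancel_right, add_comm z x]
    rfl
  | succ r ih =>
    rw [kav_succ, ← kav_av_comm hg, ih (hg.av _)]
    have h1 : ∀ z, av (sc s0 (m + (r + 1))) g (x + z) =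
        av (sc s0 (m + (r + 1))) (fun w => g (x + w)) z := by
      intro z
      simp only [av_def, add_assoc]
    simp only [h1]
    have h2 : LB (fun w => g (x + w)) := by
      have := hg.comp_add x
      simpa only [add_comm x] using this
    rw [av_adj_smul h2 (LB.of_cont (kk_cont m r)) (kk_cs hs m r)]
    rfl

lemma kav_eq_kk' [CompleteSpace F] {s0 : ℝ} (hs : 0 < s0) (hg : LB g) (m r : ℕ) (x : Sp d) :
    kav s0 m (r + 1) g x = ∫ z, kk s0 m r (z - x) • g z := by
  rw [kav_eq_kk hs hg, ← integral_add_right_eq_self (μ := volume)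
    (fun z => kk s0 m r (z - x) • g z) x]
  congr 1
  ext z
  rw [add_sub_cancel_right, add_comm z x]

lemma kk_smul_integrable {s0 : ℝ} (hs : 0 < s0) (hg : LB g) (m r : ℕ) (x : Sp d) :
    Integrable (fun z => kk s0 m r (z - x) • g z) := by
  refine hg.integrable_smul ((kk_cont m r).comp (by fun_prop))
    (R := ‖x‖ + 8 / 7 * sc s0 (m + r)) fun y hy => kk_supp hs m r ?_
  have := norm_sub_norm_le y x
  linarith

/-- lower bound of the kernel (r + 1 averages, top scale sc s0 (m + r)) -/
lemma kav_lower {s0 : ℝ} (hs : 0 < s0) {g : Sp d → ℝ} (hg : LB g) (h0 : ∀ z, 0 ≤ g z) (m r : ℕ)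
    (x : Sp d) : bk d 0 / (sc s0 (m + r)) ^ d * ∫ z in ball x (3 / 4 * sc s0 (m + r)), g z ≤
      kav s0 m (r + 1) g x := by
  rw [kav_eq_kk' hs hg, ← integral_const_mul]
  have h1 : ∫ z in ball x (3 / 4 * sc s0 (m + r)), bk d 0 / (sc s0 (m + r)) ^ d * g z =
      ∫ z in ball x (3 / 4 * sc s0 (m + r)), kk s0 m r (z - x) • g z := by
    refine setIntegral_congr_fun measurableSet_ball fun z hz => ?_
    change _ = kk s0 m r (z - x) • g z
    rw [kk_eq hs m r, smul_eq_mul]
    rw [mem_ball, dist_eq_norm] at hz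
    exact hz.le
  rw [h1]
  exact setIntegral_le_integral (kk_smul_integrable hs hg m r x)
    (Filter.Eventually.of_forall fun z => mul_nonneg (kk_nonneg hs m r _) (h0 z))

lemma kav_upper {s0 : ℝ} (hs : 0 < s0) {g : Sp d → ℝ} (hg : LB g) (h0 : ∀ z, 0 ≤ g z) (m r : ℕ)
    (x : Sp d) : kav s0 m (r + 1) g x ≤
      bk d 0 / (sc s0 (m + r)) ^ d * ∫ z in ball x (8 / 7 * sc s0 (m + r)), g z := by
  rw [kav_eq_kk' hs hg, ← integral_const_mul]
  rw [← setIntegral_eq_integral_of_forall_compl_eq_zero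
    (s := ball x (8 / 7 * sc s0 (m + r)))]
  · refine setIntegral_mono_on ((kk_smul_integrable hs hg m r x).integrableOn)
      ((hg.integrableOn isBounded_ball).const_mul _) measurableSet_ball fun z _ => ?_
    exact mul_le_mul_of_nonneg_right (kk_le hs m r _) (h0 z)
  · intro z hz
    rw [mem_ball, dist_eq_norm, not_lt] at hz
    rw [kk_supp hs m r hz, zero_smul]

lemma kav_compare {s0 : ℝ} (hs : 0 < s0) {g : Sp d → ℝ} (hg : LB g) (h0 : ∀ z, 0 ≤ g z)
    (m r : ℕ) (x z : Sp d) (hz : ‖z - x‖ ≤ 4 * sc s0 (m + r)) :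
    kav s0 m (r + 1) g z ≤ 8 ^ d * kav s0 m (r + 2) g x := by
  have hp := sc_pos hs (m + r)
  have h1 := kav_upper hs hg h0 m r z
  have h2 := kav_lower hs hg h0 m (r + 1) x
  have hsucc : sc s0 (m + (r + 1)) = 8 * sc s0 (m + r) := by rw [← sc_succ]; rfl
  rw [hsucc] at h2
  have h3 : ∫ w in ball z (8 / 7 * sc s0 (m + r)), g w ≤
      ∫ w in ball x (3 / 4 * (8 * sc s0 (m + r))), g w := by
    refine setIntegral_mono_set (hg.integrableOn isBounded_ball)
      (Filter.Eventually.of_forall fun z => h0 z) (Filter.Eventually.of_forall ?_)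
    intro w hw
    change w ∈ ball z _ at hw
    change w ∈ ball x _
    rw [mem_ball, dist_eq_norm] at hw ⊢
    have h4 : ‖w - x‖ ≤ ‖w - z‖ + ‖z - x‖ := by
      rw [← sub_add_sub_cancel w z x]; exact norm_add_le _ _
    linarith
  have hb := bk_zero_pos (d := d)
  calc kav s0 m (r + 1) g z ≤ _ := h1
    _ ≤ bk d 0 / (sc s0 (m + r)) ^ d * ∫ w in ball x (3 / 4 * (8 * sc s0 (m + r))), g w :=
        mul_le_mul_of_nonneg_left h3 (by positivity)
    _ = 8 ^ d * (bk d 0 / (8 * sc s0 (m + r)) ^ d *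
          ∫ w in ball x (3 / 4 * (8 * sc s0 (m + r))), g w) := by
        rw [mul_pow]
        field_simp
    _ ≤ _ := mul_le_mul_of_nonneg_left h2 (by positivity)

/-- av s g x only depends on g near x -/
lemma av_congr {s : ℝ} {g h : Sp d → F} (x : Sp d)
    (hgh : ∀ z, ‖z - x‖ ≤ |s| → g z = h z) : av s g x = av s h x := by
  rw [av_def, av_def]
  congr 1
  ext y
  by_cases hy : 1 ≤ ‖y‖
  · simp [bk_zero hy]
  · rw [hgh]
    rw [add_sub_cancel_left, norm_smul, Real.norm_eq_abs]
    push Not at hy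
    nlinarith [abs_nonneg s, norm_nonneg y]

lemma av_mono_local {s : ℝ} {g h : Sp d → ℝ} (hg : LB g) (hh : LB h) (x : Sp d)
    (hgh : ∀ z, ‖z - x‖ ≤ |s| → g z ≤ h z) : av s g x ≤ av s h x := by
  refine integral_mono (hg.av_integrable s x) (hh.av_integrable s x) fun y => ?_
  by_cases hy : 1 ≤ ‖y‖
  · simp [bk_zero hy]
  · refine mul_le_mul_of_nonneg_left (hgh _ ?_) (bk_nonneg y)
    rw [add_sub_cancel_left, norm_smul, Real.norm_eq_abs]
    push Not at hy
    nlinarith [abs_nonneg s, norm_nonneg y]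

lemma sc_add_one (s0 : ℝ) (m r : ℕ) : sc s0 (m + (r + 1)) = 8 * sc s0 (m + r) := by
  rw [← sc_succ]; rfl

/-- kav s0 m r g x only depends on g on the ball of radius sc s0 (m + r) / 7 -/
lemma kav_congr {s0 : ℝ} (hs : 0 < s0) {g h : Sp d → F} (m r : ℕ) (x : Sp d)
    (hgh : ∀ z, ‖z - x‖ ≤ sc s0 (m + r) / 7 → g z = h z) : kav s0 m r g x = kav s0 m r h x := by
  induction r generalizing x with
  | zero => exact hgh x (by have := sc_pos hs (m + 0); rw [sub_self, norm_zero]; positivity)
  | succ r ih =>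
    have hp := sc_pos hs (m + r)
    rw [kav_succ, kav_succ]
    refine av_congr x fun z hz => ih z fun w hw => hgh w ?_
    rw [abs_of_pos hp] at hz
    rw [sc_add_one]
    have h4 : ‖w - x‖ ≤ ‖w - z‖ + ‖z - x‖ := by
      rw [← sub_add_sub_cancel w z x]; exact norm_add_le _ _
    linarith

lemma kav_mono_local {s0 : ℝ} (hs : 0 < s0) {g h : Sp d → ℝ} (hg : LB g) (hh : LB h) (m r : ℕ)
    (x : Sp d) (hgh : ∀ z, ‖z - x‖ ≤ sc s0 (m + r) / 7 → g z ≤ h z) :
    kav s0 m r g x ≤ kav s0 m r h x := by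
  induction r generalizing x with
  | zero => exact hgh x (by have := sc_pos hs (m + 0); rw [sub_self, norm_zero]; positivity)
  | succ r ih =>
    have hp := sc_pos hs (m + r)
    rw [kav_succ, kav_succ]
    refine av_mono_local (hg.kav s0 m r) (hh.kav s0 m r) x fun z hz => ih z fun w hw => hgh w ?_
    rw [abs_of_pos hp] at hz
    rw [sc_add_one]
    have h4 : ‖w - x‖ ≤ ‖w - z‖ + ‖z - x‖ := by
      rw [← sub_add_sub_cancel w z x]; exact norm_add_le _ _
    linarith

lemma int_ball_kav_ge {s0 : ℝ} (hs : 0 < s0) {g : Sp d → ℝ} (hg : LB g) (h0 : ∀ z, 0 ≤ g z)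
    (m r : ℕ) (q : Sp d) (ρ : ℝ) :
    ∫ z in ball q ρ, g z ≤ ∫ z in ball q (ρ + sc s0 (m + r) / 7), kav s0 m r g z := by
  induction r with
  | zero =>
    refine setIntegral_mono_set ((hg.kav s0 m 0).integrableOn isBounded_ball)
      (Filter.Eventually.of_forall fun z => h0 z) (Filter.Eventually.of_forall ?_)
    exact ball_subset_ball (by have := sc_pos hs (m + 0); linarith)
  | succ r ih =>
    have hp := sc_pos hs (m + r)
    refine ih.trans ((int_ball_av_ge (hg.kav s0 m r) (kav_nonneg h0 s0 m r) hp.le q _).trans ?_)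
    refine le_of_eq ?_
    rw [kav_succ, sc_add_one]
    congr 3
    ring

lemma int_ball_kav_le {s0 : ℝ} (hs : 0 < s0) {g : Sp d → ℝ} (hg : LB g) (h0 : ∀ z, 0 ≤ g z)
    (m r : ℕ) (q : Sp d) (ρ : ℝ) :
    ∫ z in ball q ρ, kav s0 m r g z ≤ ∫ z in ball q (ρ + sc s0 (m + r) / 7), g z := by
  induction r generalizing ρ with
  | zero =>
    refine setIntegral_mono_set (hg.integrableOn isBounded_ball)
      (Filter.Eventually.of_forall fun z => h0 z) (Filter.Eventually.of_forall ?_)
    exact ball_subset_ball (by have := sc_pos hs (m + 0); linarith)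
  | succ r ih =>
    have hp := sc_pos hs (m + r)
    refine (int_ball_av_le (hg.kav s0 m r) (kav_nonneg h0 s0 m r) hp.le q _).trans
      ((ih _).trans (le_of_eq ?_))
    rw [sc_add_one]
    congr 3
    ring

/-! ## the field at its levels -/

lemma fl_zero (s0 : ℝ) (f : Sp d → F) : fl s0 f 0 = f := rfl

lemma fl_succ (s0 : ℝ) (f : Sp d → F) (n : ℕ) : fl s0 f (n + 1) = av (sc s0 n) (fl s0 f n) := by
  unfold fl
  rw [kav_succ, zero_add]

lemma fl_kav (s0 : ℝ) (f : Sp d → F) {m n : ℕ} (h : m ≤ n) :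
    kav s0 m (n - m) (fl s0 f m) = fl s0 f n := by
  have := kav_comp s0 0 m (n - m) f
  rw [zero_add] at this
  unfold fl
  rw [this]
  congr 1
  omega

lemma fl_cont {f : Sp d → F} (hf : Continuous f) (s0 : ℝ) (n : ℕ) : Continuous (fl s0 f n) :=
  kav_cont hf s0 0 n

lemma fl_cs {f : Sp d → F} (hf : HasCompactSupport f) (s0 : ℝ) (n : ℕ) :
    HasCompactSupport (fl s0 f n) := kav_cs hf s0 0 n

lemma gap_nonneg (s0 : ℝ) (f : Sp d → F) (n : ℕ) (x : Sp d) : 0 ≤ gap s0 f n x := by
  unfold gap
  rw [fl_succ]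
  have := norm_av_le (fl s0 f n) (sc s0 n) x
  linarith

lemma gap_cont {f : Sp d → F} (hf : Continuous f) (s0 : ℝ) (n : ℕ) :
    Continuous (gap s0 f n) :=
  (av_cont (fl_cont hf s0 n).norm _).sub (fl_cont hf s0 (n + 1)).norm

lemma gap_cs {f : Sp d → F} (hf : HasCompactSupport f) (s0 : ℝ) (n : ℕ) :
    HasCompactSupport (gap s0 f n) :=
  (av_cs (fl_cs hf s0 n).norm _).sub (fl_cs hf s0 (n + 1)).norm

lemma gap_int {f : Sp d → F} (hf : Continuous f) (hf' : HasCompactSupport f) (s0 : ℝ) (n : ℕ) :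
    ∫ x, gap s0 f n x = (∫ x, ‖fl s0 f n x‖) - ∫ x, ‖fl s0 f (n + 1) x‖ := by
  have h1 : LB (fun z => ‖fl s0 f n z‖) := LB.of_cont (fl_cont hf s0 n).norm
  have h2 : Integrable (fun z => ‖fl s0 f n z‖) := h1.integrable (fl_cs hf' s0 n).norm
  have h3 : Integrable (fun z => ‖fl s0 f (n + 1) z‖) :=
    (LB.of_cont (fl_cont hf s0 (n + 1)).norm).integrable (fl_cs hf' s0 (n + 1)).norm
  unfold gap
  rw [integral_sub (av_integrable h2 h1 _) h3, av_int h2 h1]

lemma er_cont {f : Sp d → F} (hf : Continuous f) (s0 : ℝ) (n : ℕ) : Continuous (er s0 f n) := by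
  unfold er
  refine continuous_const.mul (continuous_finsetSum _ fun k _ => ?_)
  exact continuous_const.mul (kav_cont (gap_cont hf s0 k) s0 _ _)

lemma LB.gap {f : Sp d → F} (hf : Continuous f) (s0 : ℝ) (n : ℕ) : LB (gap s0 f n) :=
  LB.of_cont (gap_cont hf s0 n)

/-- the integral over a moving ball is continuous -/
lemma ball_int_cont {g : Sp d → ℝ} (hg : Continuous g) (r : ℝ) :
    Continuous fun x => ∫ z in ball x r, g z := by
  have h1 : ∀ x : Sp d, ∫ z in ball x r, g z = ∫ z in ball (0 : Sp d) r, g (z + x) := by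
    intro x
    rw [setIntegral_ball_add, zero_add]
  simp only [h1]
  have : IsFiniteMeasure (volume.restrict (ball (0 : Sp d) r)) := ⟨by
    rw [Measure.restrict_apply_univ]; exact measure_ball_lt_top⟩
  rw [continuous_iff_continuousAt]
  intro x
  have hc : IsCompact (closedBall x 1) := isCompact_closedBall _ _
  obtain ⟨M, hM⟩ := (isCompact_closedBall (0 : Sp d) (‖x‖ + 1 + r)).exists_bound_of_continuousOn
    hg.continuousOn
  refine continuousAt_of_dominated (bound := fun _ => M) ?_ ?_ (integrable_const M) ?_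
  · refine Filter.Eventually.of_forall fun y => ?_
    exact (hg.comp (by fun_prop)).aestronglyMeasurable
  · filter_upwards [closedBall_mem_nhds x one_pos] with y hy
    filter_upwards [ae_restrict_mem measurableSet_ball] with z hz
    refine hM _ ?_
    rw [mem_closedBall, dist_zero_right]
    rw [mem_ball, dist_zero_right] at hz
    rw [mem_closedBall, dist_eq_norm] at hy
    have h2 := norm_add_le z y
    have h3 : ‖y‖ ≤ ‖x‖ + ‖y - x‖ := by
      have := norm_add_le x (y - x)
      rwa [add_sub_cancel] at this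
    linarith
  · exact Filter.Eventually.of_forall fun z => (hg.comp (by fun_prop)).continuousAt

lemma am_cont {f : Sp d → F} (hf : Continuous f) (s0 : ℝ) (n : ℕ) : Continuous (am s0 f n) := by
  unfold am
  exact continuous_const.mul (ball_int_cont (fl_cont hf s0 n).norm _)

/-- the deviation formula -/
lemma dev_eq {f : Sp d → F} (hf : Continuous f) (s0 : ℝ) {m n : ℕ} (h : m ≤ n) (x : Sp d) :
    kav s0 m (n - m) (fun z => ‖fl s0 f m z‖) x - ‖fl s0 f n x‖ =
      ∑ k ∈ Finset.Ico m n, kav s0 (k + 1) (n - k - 1) (gap s0 f k) x := by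
  induction n, h using Nat.le_induction generalizing x with
  | base => simp [kav]
  | succ n hmn ih =>
    have e1 : n + 1 - m = (n - m) + 1 := by omega
    rw [e1, kav_succ, Finset.sum_Ico_succ_top hmn]
    have e2 : m + (n - m) = n := by omega
    rw [e2]
    have h1 : LB (fun z => ‖fl s0 f m z‖) := LB.of_cont (fl_cont hf s0 m).norm
    have h2 : LB (fun z => ‖fl s0 f n z‖) := LB.of_cont (fl_cont hf s0 n).norm
    have e3 : av (sc s0 n) (kav s0 m (n - m) fun z => ‖fl s0 f m z‖) x -
        av (sc s0 n) (fun z => ‖fl s0 f n z‖) x =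
        ∑ k ∈ Finset.Ico m n, kav s0 (k + 1) (n + 1 - k - 1) (gap s0 f k) x := by
      rw [← av_sub (h1.kav _ _ _) h2]
      have e4 : (fun z => kav s0 m (n - m) (fun z => ‖fl s0 f m z‖) z - ‖fl s0 f n z‖) =
          fun z => ∑ k ∈ Finset.Ico m n, kav s0 (k + 1) (n - k - 1) (gap s0 f k) z := by
        ext z
        exact ih z
      rw [e4, av_sum _ fun k _ => (LB.gap hf s0 k).kav _ _ _]
      refine Finset.sum_congr rfl fun k hk => ?_
      rw [Finset.mem_Ico] at hk
      have e5 : n + 1 - k - 1 = (n - k - 1) + 1 := by omega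
      rw [e5, kav_succ]
      congr 2
      omega
    have e6 : n + 1 - n - 1 = 0 := by omega
    rw [e6, ← e3]
    simp only [kav, gap]
    ring

end LBfacts

end

end TrI
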