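import Pool.Agent.TR.Stmts
import Pool.Agent.TR.Basic

/-!
# Module CG: replacing f by its level m average in an integral against a Lipschitz function
-/

open MeasureTheory Metric Set
open scoped InnerProductSpace ContDiff

namespace TrI

noncomputable section

variable {d : ℕ}

section CG

variable {E : Type} [NormedAddCommGroup E] [InnerProductSpace ℝ E] [FiniteDimensional ℝ E]

lemma cg_sum_sc {s0 : ℝ} (h : 0 < s0) (m : ℕ) :
    ∑ k ∈ Finset.range m, sc s0 k ≤ sc s0 m / 7 := by
  induction m with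
  | zero =>
    have := sc_pos h 0
    simp only [Finset.range_zero, Finset.sum_empty]
    positivity
  | succ m ih =>
    rw [Finset.sum_range_succ, sc_succ]
    linarith

lemma cg_sum_sc_succ {s0 : ℝ} (h : 0 < s0) (i : ℕ) :
    ∑ k ∈ Finset.range (i + 1), sc s0 k ≤ 8 / 7 * sc s0 i := by
  rw [Finset.sum_range_succ]
  have := cg_sum_sc h i
  linarith

lemma cg_intOn {g : Sp d → ℝ} (hg : Continuous g) (q : Sp d) (r : ℝ) :
    IntegrableOn g (ball q r) :=
  (LB.of_cont hg).integrableOn isBounded_ball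

lemma cg_transfer {s0 : ℝ} (hs : 0 < s0) {f : Sp d → E} (hf : Continuous f) (q : Sp d) (k : ℕ)
    (r : ℝ) (n : ℕ) : ∫ z in ball q r, ‖fl s0 f k z‖ ≤
      ∫ z in ball q (r + ∑ i ∈ Finset.range n, sc s0 (k + i)),
        (‖fl s0 f (k + n) z‖ + ∑ i ∈ Finset.range n, gap s0 f (k + i) z) := by
  induction n with
  | zero => simp
  | succ n ih =>
    refine ih.trans ?_
    set R : ℝ := r + ∑ i ∈ Finset.range n, sc s0 (k + i) with hR
    have hRs : r + ∑ i ∈ Finset.range (n + 1), sc s0 (k + i) = R + sc s0 (k + n) := by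
      rw [Finset.sum_range_succ, hR]; ring
    rw [hRs]
    have hspos := sc_pos hs (k + n)
    have hc : Continuous fun z => ‖fl s0 f (k + n) z‖ := (fl_cont hf s0 (k + n)).norm
    have hc' : Continuous fun z => ‖fl s0 f (k + (n + 1)) z‖ := (fl_cont hf s0 (k + (n + 1))).norm
    have hg : Continuous fun z => ∑ i ∈ Finset.range n, gap s0 f (k + i) z :=
      continuous_finsetSum _ fun i _ => gap_cont hf s0 (k + i)
    have hgn : Continuous fun z => gap s0 f (k + n) z := gap_cont hf s0 (k + n)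
    have h1 : ∫ z in ball q R, ‖fl s0 f (k + n) z‖ ≤
        ∫ z in ball q (R + sc s0 (k + n)), (‖fl s0 f (k + (n + 1)) z‖ + gap s0 f (k + n) z) := by
      refine (int_ball_av_ge (LB.of_cont hc) (fun z => norm_nonneg _) hspos.le q R).trans ?_
      refine le_of_eq ?_
      congr 1
      ext z
      simp only [gap]
      rw [← add_assoc]
      ring
    have h2 : ∫ z in ball q R, (∑ i ∈ Finset.range n, gap s0 f (k + i) z) ≤
        ∫ z in ball q (R + sc s0 (k + n)), (∑ i ∈ Finset.range n, gap s0 f (k + i) z) := by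
      refine setIntegral_mono_set (cg_intOn hg q _) ?_ ?_
      · exact Filter.Eventually.of_forall fun z => Finset.sum_nonneg fun i _ => gap_nonneg _ _ _ _
      · exact (ball_subset_ball (by linarith)).eventuallyLE
    rw [integral_add (cg_intOn hc q R) (cg_intOn hg q R)]
    refine (add_le_add h1 h2).trans (le_of_eq ?_)
    have hcg : Continuous fun z => ‖fl s0 f (k + (n + 1)) z‖ + gap s0 f (k + n) z := hc'.add hgn
    rw [← integral_add (cg_intOn hcg q _) (cg_intOn hg q _)]
    congr 1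
    ext z
    rw [Finset.sum_range_succ]
    ring

lemma cg_diff_bd {Φ : Sp d → E} {l : ℝ} (hl : 0 ≤ l) (hΦ : ∀ y y', ‖Φ y - Φ y'‖ ≤ l * ‖y - y'‖)
    (hc : Continuous Φ) {σ : ℝ} (hσ : 0 ≤ σ) (y : Sp d) : ‖Φ y - av σ Φ y‖ ≤ l * σ := by
  have h1 : Φ y - av σ Φ y = ∫ η, bk d η • (Φ y - Φ (y + σ • η)) := by
    have hi1 : Integrable (fun η : Sp d => bk d η • Φ y) := bk_integrable.smul_const _
    have hi2 : Integrable (fun η : Sp d => bk d η • Φ (y + σ • η)) :=
      (LB.of_cont hc).av_integrable σ y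
    simp only [smul_sub]
    rw [integral_sub hi1 hi2, integral_smul_const, bk_int, one_smul]
    rfl
  rw [h1]
  calc ‖∫ η, bk d η • (Φ y - Φ (y + σ • η))‖ ≤ ∫ η, bk d η * (l * σ) := by
        refine norm_integral_le_of_norm_le (bk_integrable.mul_const _) ?_
        refine Filter.Eventually.of_forall fun η => ?_
        rw [norm_smul, Real.norm_of_nonneg (bk_nonneg η)]
        rcases le_or_gt 1 ‖η‖ with h | h
        · rw [bk_zero h]; simp
        · refine mul_le_mul_of_nonneg_left ?_ (bk_nonneg η)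
          refine (hΦ _ _).trans ?_
          refine mul_le_mul_of_nonneg_left ?_ hl
          have : y - (y + σ • η) = -(σ • η) := by abel
          rw [this, norm_neg, norm_smul, Real.norm_of_nonneg hσ]
          nlinarith
    _ = l * σ := by rw [integral_mul_const, bk_int, one_mul]

lemma cg_diff_supp {Φ : Sp d → E} {q : Sp d} {ρ : ℝ} (hsupp : ∀ y, ρ ≤ ‖y - q‖ → Φ y = 0)
    {σ : ℝ} (hσ : 0 ≤ σ) {y : Sp d} (hy : ρ + σ ≤ ‖y - q‖) : Φ y - av σ Φ y = 0 := by
  have h1 : Φ y = 0 := hsupp y (by linarith)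
  have h2 : av σ Φ y = 0 := by
    simp only [av, avk]
    refine integral_eq_zero_of_ae (Filter.Eventually.of_forall fun η => ?_)
    show bk d η • Φ (y + σ • η) = 0
    rcases le_or_gt 1 ‖η‖ with h | h
    · rw [bk_zero h, zero_smul]
    · rw [hsupp, smul_zero]
      have h3 : ‖y - q‖ ≤ ‖y + σ • η - q‖ + ‖σ • η‖ := by
        have : y - q = (y + σ • η - q) - σ • η := by abel
        rw [this]; exact norm_sub_le _ _
      rw [norm_smul, Real.norm_of_nonneg hσ] at h3
      nlinarith
  rw [h1, h2, sub_zero]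

lemma cg_step {Φ : Sp d → E} {l : ℝ} (hl : 0 ≤ l) (hΦ : ∀ y y', ‖Φ y - Φ y'‖ ≤ l * ‖y - y'‖)
    {q : Sp d} {ρ : ℝ} (hsupp : ∀ y, ρ ≤ ‖y - q‖ → Φ y = 0) {h : Sp d → E} (hh : Continuous h)
    {σ : ℝ} (hσ : 0 ≤ σ) :
    |∫ y, ⟪Φ y, h y - av σ h y⟫_ℝ| ≤ l * (σ * ∫ y in ball q (ρ + σ), ‖h y‖) := by
  have hc : Continuous Φ := by
    have : LipschitzWith (Real.toNNReal l) Φ := by
      refine LipschitzWith.of_dist_le_mul fun y y' => ?_
      rw [dist_eq_norm, dist_eq_norm, Real.coe_toNNReal l hl]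
      exact hΦ y y'
    exact this.continuous
  have hcs : HasCompactSupport Φ := by
    refine HasCompactSupport.intro (isCompact_closedBall q ρ) fun y hy => hsupp y ?_
    rw [mem_closedBall, dist_eq_norm, not_le] at hy
    exact hy.le
  have hav : Continuous (av σ h) := av_cont hh σ
  have havΦ : Continuous (av σ Φ) := av_cont hc σ
  have havΦs : HasCompactSupport (av σ Φ) := av_cs hcs σ
  have hi1 : Integrable fun y => ⟪Φ y, h y⟫_ℝ :=
    (hc.inner hh).integrable_of_hasCompactSupport (hcs.mono fun y hy => by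
      intro h0; apply hy; simp [h0])
  have hi2 : Integrable fun y => ⟪Φ y, av σ h y⟫_ℝ :=
    (hc.inner hav).integrable_of_hasCompactSupport (hcs.mono fun y hy => by
      intro h0; apply hy; simp [h0])
  have hi3 : Integrable fun y => ⟪h y, av σ Φ y⟫_ℝ :=
    (hh.inner havΦ).integrable_of_hasCompactSupport (havΦs.mono fun y hy => by
      intro h0; apply hy; simp [h0])
  have hi1' : Integrable fun y => ⟪h y, Φ y⟫_ℝ := by
    simpa only [real_inner_comm] using hi1
  have e1 : ∫ y, ⟪Φ y, h y - av σ h y⟫_ℝ = ∫ y, ⟪h y, Φ y - av σ Φ y⟫_ℝ := by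
    simp only [inner_sub_right]
    rw [integral_sub hi1 hi2, integral_sub hi1' hi3]
    congr 1
    · congr 1; ext y; exact real_inner_comm _ _
    · rw [← av_adj_inner (LB.of_cont hh) (LB.of_cont hc) hcs σ]
      congr 1; ext y; exact real_inner_comm _ _
  rw [e1]
  have e2 : ∫ y, ⟪h y, Φ y - av σ Φ y⟫_ℝ = ∫ y in ball q (ρ + σ), ⟪h y, Φ y - av σ Φ y⟫_ℝ := by
    symm
    refine setIntegral_eq_integral_of_forall_compl_eq_zero fun y hy => ?_
    rw [mem_ball, dist_eq_norm, not_lt] at hy
    rw [cg_diff_supp hsupp hσ hy, inner_zero_right]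
  rw [e2, ← mul_assoc, ← integral_const_mul, ← Real.norm_eq_abs]
  refine norm_integral_le_of_norm_le ((cg_intOn hh.norm q _).const_mul _) ?_
  refine Filter.Eventually.of_forall fun y => ?_
  refine (norm_inner_le_norm _ _).trans ?_
  rw [mul_comm]
  exact mul_le_mul_of_nonneg_right (cg_diff_bd hl hΦ hc hσ y) (norm_nonneg _)

/-- the case x = 0, t = 1 -/
lemma cg_main {s0 : ℝ} (hs : 0 < s0) {f : Sp d → E} (hf : Continuous f) (m : ℕ)
    {Φ : Sp d → E} {l : ℝ} (hl : 0 ≤ l) (hΦ : ∀ y y', ‖Φ y - Φ y'‖ ≤ l * ‖y - y'‖)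
    {q : Sp d} {ρ : ℝ} (hsupp : ∀ y, ρ ≤ ‖y - q‖ → Φ y = 0) :
    |∫ y, ⟪Φ y, f y - fl s0 f m y⟫_ℝ| ≤
      l * ∫ y in ball q (ρ + sc s0 m / 3),
        (sc s0 m / 7 * ‖fl s0 f m y‖ + 8 / 7 * ∑ k ∈ Finset.range m, sc s0 k * gap s0 f k y) := by
  have hc : Continuous Φ := by
    have : LipschitzWith (Real.toNNReal l) Φ := by
      refine LipschitzWith.of_dist_le_mul fun y y' => ?_
      rw [dist_eq_norm, dist_eq_norm, Real.coe_toNNReal l hl]
      exact hΦ y y'
    exact this.continuous
  have hcs : HasCompactSupport Φ := by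
    refine HasCompactSupport.intro (isCompact_closedBall q ρ) fun y hy => hsupp y ?_
    rw [mem_closedBall, dist_eq_norm, not_le] at hy
    exact hy.le
  have hfl : ∀ k, Continuous (fl s0 f k) := fl_cont hf s0
  have hflm : Continuous fun z => ‖fl s0 f m z‖ := (hfl m).norm
  have hgap : ∀ k, Continuous (gap s0 f k) := gap_cont hf s0
  -- telescoping
  have htel : ∀ y, f y - fl s0 f m y =
      ∑ k ∈ Finset.range m, (fl s0 f k y - av (sc s0 k) (fl s0 f k) y) := by
    intro y
    have : ∀ k, fl s0 f k y - av (sc s0 k) (fl s0 f k) y = fl s0 f k y - fl s0 f (k + 1) y := by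
      intro k; rw [fl_succ]
    simp only [this]
    rw [Finset.sum_range_sub', fl_zero]
  have hint : ∀ k, Integrable fun y => ⟪Φ y, fl s0 f k y - av (sc s0 k) (fl s0 f k) y⟫_ℝ := by
    intro k
    refine (hc.inner ((hfl k).sub (av_cont (hfl k) _))).integrable_of_hasCompactSupport
      (hcs.mono fun y hy => ?_)
    intro h0; apply hy; simp [h0]
  have e1 : ∫ y, ⟪Φ y, f y - fl s0 f m y⟫_ℝ =
      ∑ k ∈ Finset.range m, ∫ y, ⟪Φ y, fl s0 f k y - av (sc s0 k) (fl s0 f k) y⟫_ℝ := by
    rw [← integral_finsetSum _ fun k _ => hint k]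
    congr 1
    ext y
    rw [htel, inner_sum]
  rw [e1]
  refine (Finset.abs_sum_le_sum_abs _ _).trans ?_
  -- each term
  set D : Set (Sp d) := ball q (ρ + sc s0 m / 3) with hD
  have hterm : ∀ k ∈ Finset.range m,
      |∫ y, ⟪Φ y, fl s0 f k y - av (sc s0 k) (fl s0 f k) y⟫_ℝ| ≤
      l * ∫ y in D, (sc s0 k * ‖fl s0 f m y‖ +
        ∑ i ∈ Finset.range m, (if k ≤ i then sc s0 k * gap s0 f i y else 0)) := by
    intro k hk
    rw [Finset.mem_range] at hk
    have hskpos := sc_pos hs k
    refine (cg_step hl hΦ hsupp (hfl k) hskpos.le).trans ?_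
    refine mul_le_mul_of_nonneg_left ?_ hl
    rw [← mul_comm (∫ y in ball q (ρ + sc s0 k), ‖fl s0 f k y‖)]
    have h1 := cg_transfer hs hf q k (ρ + sc s0 k) (m - k)
    have hkm : k + (m - k) = m := by omega
    rw [hkm] at h1
    have hsum : ∑ i ∈ Finset.range (m - k), sc s0 (k + i) ≤ sc s0 m / 7 := by
      have h2 : ∑ i ∈ Finset.range (m - k), sc s0 (k + i) = ∑ i ∈ Finset.Ico k m, sc s0 i := by
        rw [Finset.sum_Ico_eq_sum_range]
      rw [h2]
      refine le_trans ?_ (cg_sum_sc hs m)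
      refine Finset.sum_le_sum_of_subset_of_nonneg ?_ fun i _ _ => (sc_pos hs i).le
      intro i hi
      rw [Finset.mem_Ico] at hi
      exact Finset.mem_range.mpr hi.2
    have hsk : sc s0 k ≤ sc s0 m / 8 := by
      have h4 : sc s0 (k + 1) ≤ sc s0 m := by
        obtain ⟨j, hj⟩ : ∃ j, m = k + 1 + j := ⟨m - k - 1, by omega⟩
        have h7 : sc s0 m = 8 ^ j * sc s0 (k + 1) := by rw [hj, sc_add]
        rw [h7]
        have h5 : (1 : ℝ) ≤ 8 ^ j := one_le_pow₀ (by norm_num)
        have h6 := sc_pos hs (k + 1)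
        nlinarith
      rw [sc_succ] at h4
      linarith
    have h2 : ∫ z in ball q (ρ + sc s0 k + ∑ i ∈ Finset.range (m - k), sc s0 (k + i)),
        (‖fl s0 f m z‖ + ∑ i ∈ Finset.range (m - k), gap s0 f (k + i) z) ≤
        ∫ z in D, (‖fl s0 f m z‖ + ∑ i ∈ Finset.range (m - k), gap s0 f (k + i) z) := by
      refine setIntegral_mono_set (cg_intOn ?_ q _) ?_ ?_
      · exact hflm.add (continuous_finsetSum _ fun i _ => hgap (k + i))
      · exact Filter.Eventually.of_forall fun z => add_nonneg (norm_nonneg _)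
          (Finset.sum_nonneg fun i _ => gap_nonneg _ _ _ _)
      · refine (ball_subset_ball ?_).eventuallyLE
        have := sc_pos hs m
        linarith
    have h3 := h1.trans h2
    calc (∫ y in ball q (ρ + sc s0 k), ‖fl s0 f k y‖) * sc s0 k
        ≤ (∫ z in D, (‖fl s0 f m z‖ + ∑ i ∈ Finset.range (m - k), gap s0 f (k + i) z)) *
          sc s0 k := mul_le_mul_of_nonneg_right h3 hskpos.le
      _ = ∫ y in D, (sc s0 k * ‖fl s0 f m y‖ +
        ∑ i ∈ Finset.range m, (if k ≤ i then sc s0 k * gap s0 f i y else 0)) := by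
          rw [mul_comm, ← integral_const_mul]
          congr 1
          ext z
          rw [mul_add, Finset.mul_sum]
          congr 1
          rw [← Finset.sum_filter]
          have : (Finset.range m).filter (fun i => k ≤ i) = Finset.Ico k m := by
            ext i; simp only [Finset.mem_filter, Finset.mem_range, Finset.mem_Ico]; tauto
          rw [this, Finset.sum_Ico_eq_sum_range]
  refine (Finset.sum_le_sum hterm).trans ?_
  rw [← Finset.mul_sum]
  refine mul_le_mul_of_nonneg_left ?_ hl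
  have hcont : ∀ k, Continuous fun y => (sc s0 k * ‖fl s0 f m y‖ +
        ∑ i ∈ Finset.range m, (if k ≤ i then sc s0 k * gap s0 f i y else 0)) := by
    intro k
    refine (continuous_const.mul hflm).add (continuous_finsetSum _ fun i _ => ?_)
    split_ifs
    · exact continuous_const.mul (hgap i)
    · exact continuous_const
  rw [← integral_finsetSum _ fun k _ => cg_intOn (hcont k) q _]
  refine setIntegral_mono_on ?_ ?_ measurableSet_ball ?_
  · exact cg_intOn (continuous_finsetSum _ fun k _ => hcont k) q _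
  · exact cg_intOn ((continuous_const.mul hflm).add (continuous_const.mul
      (continuous_finsetSum _ fun k _ => continuous_const.mul (hgap k)))) q _
  · intro y _
    rw [Finset.sum_add_distrib, ← Finset.sum_mul]
    refine add_le_add ?_ ?_
    · exact mul_le_mul_of_nonneg_right (cg_sum_sc hs m) (norm_nonneg _)
    · rw [Finset.sum_comm, Finset.mul_sum]
      refine Finset.sum_le_sum fun i hi => ?_
      rw [Finset.mem_range] at hi
      rw [← Finset.sum_filter, ← Finset.sum_mul, ← mul_assoc]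
      refine mul_le_mul_of_nonneg_right ?_ (gap_nonneg _ _ _ _)
      have : (Finset.range m).filter (fun k => k ≤ i) = Finset.range (i + 1) := by
        ext k; simp only [Finset.mem_filter, Finset.mem_range]; omega
      rw [this]
      exact cg_sum_sc_succ hs i

/-! rescaling -/

lemma cg_sc_div (s0 t : ℝ) (k : ℕ) : sc (s0 / t) k = sc s0 k / t := by
  unfold sc; ring

lemma cg_av_scale {F : Type*} [NormedAddCommGroup F] [NormedSpace ℝ F] (h : Sp d → F) {t : ℝ}
    (ht : 0 < t) (s : ℝ) (x y : Sp d) :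
    av s h (x + t • y) = av (s / t) (fun z => h (x + t • z)) y := by
  simp only [av, avk]
  congr 1
  ext η
  congr 2
  rw [smul_add, smul_smul, mul_div_cancel₀ _ ht.ne', add_assoc]

lemma cg_fl_scale {F : Type*} [NormedAddCommGroup F] [NormedSpace ℝ F] (f : Sp d → F) {t : ℝ}
    (ht : 0 < t) (s0 : ℝ) (x : Sp d) (k : ℕ) :
    (fun y => fl s0 f k (x + t • y)) = fl (s0 / t) (fun z => f (x + t • z)) k := by
  induction k with
  | zero => rfl
  | succ k ih =>
    ext y
    rw [fl_succ, fl_succ, cg_av_scale _ ht, ih, cg_sc_div]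

lemma cg_gap_scale {F : Type*} [NormedAddCommGroup F] [NormedSpace ℝ F] (f : Sp d → F) {t : ℝ}
    (ht : 0 < t) (s0 : ℝ) (x y : Sp d) (k : ℕ) :
    gap s0 f k (x + t • y) = gap (s0 / t) (fun z => f (x + t • z)) k y := by
  unfold gap
  rw [cg_av_scale _ ht, cg_sc_div]
  have h1 := cg_fl_scale f ht s0 x k
  have h2 := cg_fl_scale f ht s0 x (k + 1)
  rw [← h1, ← h2]

end CG

theorem stmtCG : StmtCG := by
  intro d E _ _ _ f hf _ s0 hs m Φ l q ρ t x hl hΦ hsupp ht
  have hft : Continuous fun z : Sp d => f (x + t • z) := by fun_prop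
  have h := cg_main (div_pos hs ht) hft m hl hΦ hsupp
  have e1 := cg_fl_scale f ht s0 x m
  rw [← e1] at h
  simp only [← cg_gap_scale f ht s0 x, cg_sc_div] at h
  have e2 : sc s0 m / t / 3 = sc s0 m / (3 * t) := by rw [div_div, mul_comm]
  have e3 : sc s0 m / t / 7 = sc s0 m / (7 * t) := by rw [div_div, mul_comm]
  rw [e2, e3] at h
  exact h

end

end TrI
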