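import Pool.Agent.TR.A0

/-!
# Module CH: charts by compactness
-/

set_option linter.unusedSectionVars false

open MeasureTheory Metric Set
open scoped InnerProductSpace ContDiff

namespace TrI

noncomputable section

namespace CH

variable {d : ℕ}

variable {V E : Type} [NormedAddCommGroup V] [InnerProductSpace ℝ V] [FiniteDimensional ℝ V]
  [NormedAddCommGroup E] [InnerProductSpace ℝ E] [FiniteDimensional ℝ E]
  {L : (Sp d →L[ℝ] V) →L[ℝ] E}

/-- a spanning family separates vectors quantitatively -/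
lemma span_sep {N : ℕ} (W : Fin N → V) (hW : Submodule.span ℝ (Set.range W) = ⊤) :
    ∃ c : ℝ, 0 < c ∧ ∀ (v : V) (t : ℝ), 0 ≤ t → (∀ a, |⟪W a, v⟫_ℝ| ≤ t) → c * ‖v‖ ≤ t := by
  let S : V →ₗ[ℝ] (Fin N → ℝ) := LinearMap.pi fun a => (innerSL ℝ (W a)).toLinearMap
  have hS : ∀ v a, S v a = ⟪W a, v⟫_ℝ := fun v a => rfl
  have hker : LinearMap.ker S = ⊥ := by
    rw [LinearMap.ker_eq_bot']
    intro v hv
    have h1 : ∀ a, ⟪W a, v⟫_ℝ = 0 := fun a => by
      rw [← hS]
      rw [hv]
      rfl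
    have h2 : ∀ x ∈ Submodule.span ℝ (Set.range W), ⟪x, v⟫_ℝ = 0 := by
      intro x hx
      induction hx using Submodule.span_induction with
      | mem x hx =>
        obtain ⟨a, rfl⟩ := hx
        exact h1 a
      | zero => exact inner_zero_left _
      | add x y _ _ hx hy => rw [inner_add_left, hx, hy, add_zero]
      | smul r x _ hx => rw [real_inner_smul_left, hx, mul_zero]
    have h3 := h2 v (by rw [hW]; trivial)
    exact inner_self_eq_zero.mp h3
  obtain ⟨K, hK, hA⟩ := S.exists_antilipschitzWith hker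
  refine ⟨(K : ℝ)⁻¹, by positivity, fun v t ht h => ?_⟩
  have h1 : ‖v‖ ≤ K * ‖S v‖ := by
    have := hA.le_mul_dist v 0
    simpa [dist_eq_norm] using this
  have h2 : ‖S v‖ ≤ t := by
    rw [pi_norm_le_iff_of_nonneg ht]
    intro a
    rw [hS, Real.norm_eq_abs]
    exact h a
  have hK' : (0 : ℝ) < K := by exact_mod_cast hK
  rw [inv_mul_le_iff₀ hK']
  exact h1.trans (mul_le_mul_of_nonneg_left h2 hK'.le)

/-- dual vectors -/
lemma dual_exists {N : ℕ} (W : Fin N → V) (h : ∀ v : V, (∀ a, ⟪W a, v⟫_ℝ = 0) → v = 0) :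
    ∃ q : Fin N → V, ∀ v : V, ∑ a, ⟪W a, v⟫_ℝ • q a = v := by
  let S : V →ₗ[ℝ] (Fin N → ℝ) := LinearMap.pi fun a => (innerSL ℝ (W a)).toLinearMap
  have hS : ∀ v a, S v a = ⟪W a, v⟫_ℝ := fun v a => rfl
  have hker : LinearMap.ker S = ⊥ := by
    rw [LinearMap.ker_eq_bot']
    intro v hv
    refine h v fun a => ?_
    rw [← hS, hv]
    rfl
  obtain ⟨G, hG⟩ := S.exists_leftInverse_of_injective hker
  refine ⟨fun a => G (Pi.single a 1), fun v => ?_⟩
  have h1 : G (S v) = v := by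
    have := LinearMap.congr_fun hG v
    simpa using this
  conv_rhs => rw [← h1]
  have h2 : S v = ∑ a, (S v a) • (Pi.single a (1 : ℝ) : Fin N → ℝ) := by
    ext b
    simp [Finset.sum_apply, Pi.single_apply]
  rw [h2, map_sum]
  refine Finset.sum_congr rfl fun a _ => ?_
  rw [map_smul, hS]

/-- restriction of a cap to a smaller ball -/
lemma cap_mono {y0 : Sp d} {ρ ρ' B : ℝ} {w : Sp d → V} {τ : Sp d → E}
    (h : IsCap L y0 ρ B w τ) (h0 : 0 < ρ') (h1 : ρ' ≤ ρ) : IsCap L y0 ρ' B w τ where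
  ρ_pos := h0
  B_pos := h.B_pos
  inside := by linarith [h.inside]
  slice := fun y hy => h.slice y (ball_subset_ball h1 hy)
  w_bd := fun y hy => h.w_bd y (ball_subset_ball h1 hy)
  τ_bd := fun y hy => h.τ_bd y (ball_subset_ball h1 hy)
  w_lip := fun y hy y' hy' => h.w_lip y (ball_subset_ball h1 hy) y' (ball_subset_ball h1 hy')
  τ_lip := fun y hy y' hy' => h.τ_lip y (ball_subset_ball h1 hy) y' (ball_subset_ball h1 hy')

/-- one chart which is valid for all directions near `e` -/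
lemma local_chart (hL : ChartHyp L) (e : E) (he : ‖e‖ = 1) :
    ∃ δ : ℝ, 0 < δ ∧ ∀ (c : E) (ε : ℝ), (∀ e' : E, ‖e'‖ = 1 → ‖e' - c‖ ≤ 10 * ε →
      ‖e' - e‖ < δ) → Nonempty (Chart L c ε) := by
  obtain ⟨N, hN, B, y0, ρ, w, τ, hcap, hpos, hspan⟩ := hL e he
  have hNe : Nonempty (Fin N) := ⟨⟨0, hN⟩⟩
  have hB : 0 < B := (hcap ⟨0, hN⟩).B_pos
  obtain ⟨a1, ha1⟩ := Finite.exists_min (fun a => ⟪e, τ a (y0 a)⟫_ℝ)
  obtain ⟨a2, ha2⟩ := Finite.exists_min ρ
  set c := ⟪e, τ a1 (y0 a1)⟫_ℝ with hc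
  have hcpos : 0 < c := hpos a1
  have hρ2 : 0 < ρ a2 := (hcap a2).ρ_pos
  obtain ⟨s, hs, hsep⟩ := span_sep (fun a => w a (y0 a)) hspan
  -- the common radius
  set r : ℝ := min (ρ a2) (c / (4 * B)) with hr
  have hrpos : 0 < r := lt_min hρ2 (by positivity)
  have hrρ : ∀ a, r ≤ ρ a := fun a => (min_le_left _ _).trans (ha2 a)
  have hrc : B * r ≤ c / 4 := by
    have h1 : r ≤ c / (4 * B) := min_le_right _ _
    have h2 : B * (c / (4 * B)) = c / 4 := by field_simp
    calc B * r ≤ B * (c / (4 * B)) := mul_le_mul_of_nonneg_left h1 hB.le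
      _ = c / 4 := h2
  have hcap' : ∀ a, IsCap L (y0 a) r B (w a) (τ a) := fun a => cap_mono (hcap a) hrpos (hrρ a)
  -- radius of the cut-off
  set r' : ℝ := min (r / 4) (s / (2 * B)) with hr'
  have hr'pos : 0 < r' := lt_min (by positivity) (by positivity)
  have hr'r : r' ≤ r / 4 := min_le_left _ _
  have hr's : B * r' < s := by
    have h1 : r' ≤ s / (2 * B) := min_le_right _ _
    have h2 : B * (s / (2 * B)) = s / 2 := by field_simp
    calc B * r' ≤ B * (s / (2 * B)) := mul_le_mul_of_nonneg_left h1 hB.le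
      _ = s / 2 := h2
      _ < s := by linarith
  let κ : Fin N → Sp d → ℝ := fun a => hat (y0 a) 0 r'
  have hcut0 : ∀ a, IsCut (κ a) (y0 a) r' (r' - 0)⁻¹ := fun a => A0.hat_cut (y0 a) hr'pos
  have hcut : ∀ a, IsCut (κ a) (y0 a) (r / 4) (r' - 0)⁻¹ := fun a =>
    ⟨(hcut0 a).l_nonneg, (hcut0 a).lip, fun y hy => (hcut0 a).supp y (hr'r.trans hy), (hcut0 a).bd⟩
  have hI : ∀ a, 0 < ∫ y, κ a y := fun a => A0.hat_int_pos (y0 a) hr'pos le_rfl
  have hκint : ∀ a, Integrable (κ a) := fun a =>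
    (A0.hat_cont (y0 a) 0 r').integrable_of_hasCompactSupport (A0.hat_cs (y0 a) hr'pos)
  have hwint : ∀ a, Integrable fun y => κ a y • w a y := fun a =>
    (A0.cutw_cont (hcap' a) (hcut a) (by linarith)).integrable_of_hasCompactSupport
      (A0.cutw_cs (w a) (hcut a))
  let W : Fin N → V := fun a => ∫ y, κ a y • w a y
  have hWv : ∀ a v, ∫ y, κ a y * ⟪w a y, v⟫_ℝ = ⟪W a, v⟫_ℝ := by
    intro a v
    have h1 : ∀ y, κ a y * ⟪w a y, v⟫_ℝ = ⟪v, κ a y • w a y⟫_ℝ := fun y => by
      rw [real_inner_smul_right, real_inner_comm]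
    simp_rw [h1]
    rw [integral_inner (hwint a) v, real_inner_comm]
  -- the perturbation
  have hpert : ∀ a, ‖W a - (∫ y, κ a y) • w a (y0 a)‖ ≤ B * r' * ∫ y, κ a y := by
    intro a
    have h1 : W a - (∫ y, κ a y) • w a (y0 a) = ∫ y, κ a y • (w a y - w a (y0 a)) := by
      rw [← integral_smul_const, ← integral_sub (hwint a) ((hκint a).smul_const _)]
      congr 1
      ext y
      rw [smul_sub]
    rw [h1, ← integral_const_mul]
    refine norm_integral_le_of_norm_le ((hκint a).const_mul _) (Filter.Eventually.of_forall ?_)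
    intro y
    rw [norm_smul, Real.norm_eq_abs, abs_of_nonneg (A0.hat_nonneg _ _ _ _), mul_comm]
    by_cases hy : y ∈ ball (y0 a) r'
    · refine mul_le_mul_of_nonneg_right ?_ (A0.hat_nonneg _ _ _ _)
      have hy1 : y ∈ ball (y0 a) r := ball_subset_ball (by linarith) hy
      refine ((hcap' a).w_lip y hy1 (y0 a) (mem_ball_self hrpos)).trans ?_
      rw [mem_ball, dist_eq_norm] at hy
      exact mul_le_mul_of_nonneg_left hy.le hB.le
    · rw [mem_ball, dist_eq_norm, not_lt] at hy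
      have h0 : hat (y0 a) 0 r' y = 0 := (hcut0 a).supp y hy
      change ‖w a y - w a (y0 a)‖ * hat (y0 a) 0 r' y ≤ B * r' * hat (y0 a) 0 r' y
      rw [h0, mul_zero, mul_zero]
  have hinj : ∀ v : V, (∀ a, ⟪W a, v⟫_ℝ = 0) → v = 0 := by
    intro v hv
    by_contra hne
    have hvpos : 0 < ‖v‖ := norm_pos_iff.mpr hne
    have h1 : ∀ a, |⟪w a (y0 a), v⟫_ℝ| ≤ B * r' * ‖v‖ := by
      intro a
      have h2 : (∫ y, κ a y) * ⟪w a (y0 a), v⟫_ℝ =
          -⟪W a - (∫ y, κ a y) • w a (y0 a), v⟫_ℝ := by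
        rw [inner_sub_left, hv a, real_inner_smul_left]
        ring
      have h3 : |(∫ y, κ a y) * ⟪w a (y0 a), v⟫_ℝ| ≤ (B * r' * ∫ y, κ a y) * ‖v‖ := by
        rw [h2, abs_neg]
        refine (abs_real_inner_le_norm _ _).trans ?_
        exact mul_le_mul_of_nonneg_right (hpert a) (norm_nonneg _)
      rw [abs_mul, abs_of_pos (hI a)] at h3
      have h4 : (∫ y, κ a y) * |⟪w a (y0 a), v⟫_ℝ| ≤ (∫ y, κ a y) * (B * r' * ‖v‖) := by
        calc _ ≤ _ := h3
          _ = _ := by ring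
      exact le_of_mul_le_mul_left h4 (hI a)
    have h2 := hsep v (B * r' * ‖v‖) (by positivity) h1
    have h3 : B * r' * ‖v‖ < s * ‖v‖ := mul_lt_mul_of_pos_right hr's hvpos
    linarith
  obtain ⟨q, hq⟩ := dual_exists W hinj
  refine ⟨c / (4 * B), by positivity, fun c' ε hε => ⟨?_⟩⟩
  exact
    { N := N
      N_pos := hN
      c0 := c / 2
      B := B
      l := (r' - 0)⁻¹
      c0_pos := by positivity
      y0 := y0
      ρ := fun _ => r
      w := w
      τ := τ
      κ := κ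
      q := q
      cap := hcap'
      cut := hcut
      pos := by
        intro a e' he' hec y hy
        have h1 := hε e' he' hec
        have hτ : ‖τ a y‖ ≤ B := (hcap' a).τ_bd y hy
        have hτ2 : ‖τ a y - τ a (y0 a)‖ ≤ c / 4 := by
          refine ((hcap' a).τ_lip y hy (y0 a) (mem_ball_self hrpos)).trans ?_
          rw [mem_ball, dist_eq_norm] at hy
          exact (mul_le_mul_of_nonneg_left hy.le hB.le).trans hrc
        have h2 : ⟪e', τ a y⟫_ℝ = ⟪e, τ a (y0 a)⟫_ℝ + ⟪e, τ a y - τ a (y0 a)⟫_ℝ +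
            ⟪e' - e, τ a y⟫_ℝ := by
          rw [inner_sub_right, inner_sub_left]
          ring
        have h3 : |⟪e, τ a y - τ a (y0 a)⟫_ℝ| ≤ c / 4 := by
          refine (abs_real_inner_le_norm _ _).trans ?_
          rw [he, one_mul]
          exact hτ2
        have h4 : |⟪e' - e, τ a y⟫_ℝ| ≤ c / 4 := by
          refine (abs_real_inner_le_norm _ _).trans ?_
          calc ‖e' - e‖ * ‖τ a y‖ ≤ (c / (4 * B)) * B :=
                mul_le_mul h1.le hτ (norm_nonneg _) (by positivity)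
            _ = c / 4 := by field_simp
        have h5 := ha1 a
        rw [abs_le] at h3 h4
        rw [h2]
        linarith [h3.1, h4.1]
      dual := by
        intro v
        simp_rw [hWv]
        exact hq v }

end CH

theorem stmtCharts : StmtCharts := by
  intro d V E _ _ _ _ _ _ L hL
  have hS : IsCompact (sphere (0 : E) 1) := isCompact_sphere _ _
  -- Lebesgue number
  choose! δ hδ hch using fun (e : E) (he : ‖e‖ = 1) => CH.local_chart hL e he
  obtain ⟨η, hη, hleb⟩ := lebesgue_number_lemma_of_metric (s := sphere (0 : E) 1)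
    (c := fun e : sphere (0 : E) 1 => ball (e : E) (δ e)) hS (fun _ => isOpen_ball) (by
      intro x hx
      rw [mem_iUnion]
      have hx1 : ‖x‖ = 1 := by simpa using hx
      exact ⟨⟨x, hx⟩, mem_ball_self (hδ x hx1)⟩)
  set ε : ℝ := min 1 (η / 20) with hε
  have hεpos : 0 < ε := lt_min one_pos (by positivity)
  have hε1 : ε ≤ 1 := min_le_left _ _
  have hεη : 10 * ε < η := by
    have : ε ≤ η / 20 := min_le_right _ _
    linarith
  have hchart : ∀ x : E, ‖x‖ = 1 → Nonempty (Chart L x ε) := by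
    intro x hx
    obtain ⟨⟨e, he⟩, hsub⟩ := hleb x (by simpa using hx)
    have he1 : ‖e‖ = 1 := by simpa using he
    refine hch e he1 x ε fun e' _ he'x => ?_
    have h1 : e' ∈ ball x η := by
      rw [mem_ball, dist_eq_norm]
      linarith
    have h2 := hsub h1
    rwa [mem_ball, dist_eq_norm] at h2
  obtain ⟨t, htS, htf, htc⟩ := hS.finite_cover_balls (e := ε / 4) (by positivity)
  have : Fintype t := htf.fintype
  let n := Fintype.card t
  let φ : t ≃ Fin n := Fintype.equivFin t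
  refine ⟨ε, n, fun i => (φ.symm i : E), hεpos, hε1, fun i => ?_, fun e he => ?_, ?_⟩
  · have := htS (φ.symm i).2
    simpa using this
  · have h1 := htc (show e ∈ sphere (0 : E) 1 by simpa using he)
    simp only [mem_iUnion] at h1
    obtain ⟨x, hx, hex⟩ := h1
    refine ⟨φ ⟨x, hx⟩, ?_⟩
    rw [mem_ball, dist_eq_norm] at hex
    simpa using hex.le
  · refine ⟨fun i => (hchart _ ?_).some⟩
    have := htS (φ.symm i).2
    simpa using this

end

end TrI
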