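import Pool.Agent.TR.Stmts

/-!
# Trace inequality, stage 2: every ℂ-elliptic operator in the plane

Statements of the modules (helper97).  Stage 2 proves `KProp` for every ℂ-elliptic `L` (all `d`)
and `ChartHyp` for every ℂ-elliptic `L` in dimension two.
-/

open MeasureTheory Metric Set
open scoped InnerProductSpace ContDiff

namespace TrI

noncomputable section

variable {d : ℕ}

section Op2

variable {V E : Type} [NormedAddCommGroup V] [InnerProductSpace ℝ V] [FiniteDimensional ℝ V]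
  [NormedAddCommGroup E] [InnerProductSpace ℝ E] [FiniteDimensional ℝ E]

/-- the rank one map y ↦ ⟪ξ, y⟫ v -/
def rk1 (ξ : Sp d) (v : V) : Sp d →L[ℝ] V := (innerSL ℝ ξ).smulRight v

/-- ℂ-ellipticity in real form: for the complex frequency ξ + iη ≠ 0 and the complex vector
v + iw, the equation A(ξ + iη)(v + iw) = 0 has only the zero solution; here A(ξ)v = L (rk1 ξ v). -/
def CEll (L : (Sp d →L[ℝ] V) →L[ℝ] E) : Prop :=
  ∀ ξ η : Sp d, (ξ ≠ 0 ∨ η ≠ 0) → ∀ v w : V,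
    L (rk1 ξ v) - L (rk1 η w) = 0 → L (rk1 ξ w) + L (rk1 η v) = 0 → v = 0 ∧ w = 0

/-- the derivative of order n+1 of u is a fixed linear image of the derivative of order n of
L(Du) -/
def NSProp (L : (Sp d →L[ℝ] V) →L[ℝ] E) (n : ℕ)
    (T : (ContinuousMultilinearMap ℝ (fun _ : Fin n => Sp d) E) →L[ℝ]
      (ContinuousMultilinearMap ℝ (fun _ : Fin (n + 1) => Sp d) V)) : Prop :=
  ∀ u : Sp d → V, ContDiff ℝ ∞ u → ∀ z,
    iteratedFDeriv ℝ (n + 1) u z = T (iteratedFDeriv ℝ n (fo L u) z)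

end Op2

/-- smooth kernels supported in the unit ball whose averages reproduce polynomials of degree at
most n -/
structure VKer (n : ℕ) (ψ : Sp d → ℝ) : Prop where
  smooth : ContDiff ℝ ∞ ψ
  supp : ∀ y, 1 ≤ ‖y‖ → ψ y = 0
  int : ∫ y, ψ y = 1
  mom : ∀ m : ℕ, 1 ≤ m → m ≤ n → ∀ M : ContinuousMultilinearMap ℝ (fun _ : Fin m => Sp d) ℝ,
    ∫ y, ψ y * M (fun _ => y) = 0

/-- MODULE NS (Nullstellensatz) -/
def StmtNS : Prop :=
  ∀ (d : ℕ) (V E : Type) [NormedAddCommGroup V] [InnerProductSpace ℝ V] [FiniteDimensional ℝ V]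
    [NormedAddCommGroup E] [InnerProductSpace ℝ E] [FiniteDimensional ℝ E]
    (L : (Sp d →L[ℝ] V) →L[ℝ] E), CEll L →
    ∃ (n : ℕ) (T : (ContinuousMultilinearMap ℝ (fun _ : Fin n => Sp d) E) →L[ℝ]
      (ContinuousMultilinearMap ℝ (fun _ : Fin (n + 1) => Sp d) V)), 1 ≤ n ∧ NSProp L n T

/-- MODULE VK (kernels with vanishing moments) -/
def StmtVK : Prop := ∀ d n : ℕ, ∃ ψ : Sp d → ℝ, VKer n ψ

/-- MODULE KD (derivatives of averages fall on the kernel) -/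
def StmtKD : Prop :=
  ∀ (d : ℕ) (E : Type) [NormedAddCommGroup E] [InnerProductSpace ℝ E] [FiniteDimensional ℝ E]
    (ψ : Sp d → ℝ), ContDiff ℝ ∞ ψ → (∀ y, 1 ≤ ‖y‖ → ψ y = 0) →
    ∀ f : Sp d → E, Continuous f → ∀ s : ℝ, 0 < s → ∀ (n : ℕ) (z : Sp d),
      iteratedFDeriv ℝ n (avk ψ s f) z =
        (-1 / s) ^ n • ∫ y, (iteratedFDeriv ℝ n ψ y).smulRight (f (z + s • y))

/-- MODULE RKG (RKer for operators with NSProp) -/
def StmtRKG : Prop :=
  ∀ (d : ℕ) (V E : Type) [NormedAddCommGroup V] [InnerProductSpace ℝ V] [FiniteDimensional ℝ V]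
    [NormedAddCommGroup E] [InnerProductSpace ℝ E] [FiniteDimensional ℝ E]
    (L : (Sp d →L[ℝ] V) →L[ℝ] E) (n : ℕ)
    (T : (ContinuousMultilinearMap ℝ (fun _ : Fin n => Sp d) E) →L[ℝ]
      (ContinuousMultilinearMap ℝ (fun _ : Fin (n + 1) => Sp d) V)), 1 ≤ n → NSProp L n T →
    ∀ ψ : Sp d → ℝ, VKer n ψ → ∃ Ψ : Sp d → (E →L[ℝ] V), RKer L ψ Ψ

/-- MODULE K2G (second half of KProp for operators with NSProp) -/
def StmtK2G : Prop :=
  ∀ (d : ℕ) (V E : Type) [NormedAddCommGroup V] [InnerProductSpace ℝ V] [FiniteDimensional ℝ V]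
    [NormedAddCommGroup E] [InnerProductSpace ℝ E] [FiniteDimensional ℝ E]
    (L : (Sp d →L[ℝ] V) →L[ℝ] E) (n : ℕ)
    (T : (ContinuousMultilinearMap ℝ (fun _ : Fin n => Sp d) E) →L[ℝ]
      (ContinuousMultilinearMap ℝ (fun _ : Fin (n + 1) => Sp d) V)), 1 ≤ n → NSProp L n T →
    ∀ ψ : Sp d → ℝ, VKer n ψ → ∃ C : ℝ, 0 ≤ C ∧ K2Prop L ψ C

/-- MODULE CH2 (charts in the plane) -/
def StmtCH2 : Prop :=
  ∀ (V E : Type) [NormedAddCommGroup V] [InnerProductSpace ℝ V] [FiniteDimensional ℝ V]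
    [NormedAddCommGroup E] [InnerProductSpace ℝ E] [FiniteDimensional ℝ E]
    (L : (Sp 2 →L[ℝ] V) →L[ℝ] E), CEll L → Nontrivial E → ChartHyp L

/-- Local Korn-Poincare property of every ℂ-elliptic operator -/
def StmtKPG : Prop :=
  ∀ (d : ℕ) (V E : Type) [NormedAddCommGroup V] [InnerProductSpace ℝ V] [FiniteDimensional ℝ V]
    [NormedAddCommGroup E] [InnerProductSpace ℝ E] [FiniteDimensional ℝ E]
    (L : (Sp d →L[ℝ] V) →L[ℝ] E), CEll L → ∃ CK : ℝ, KProp L CK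

end

end TrI
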