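import Pool.Agent.TR.CH2c
import Pool.Agent.TR.Stmts2

/-!
# Module CH2: charts for every complex elliptic operator in the plane
-/

set_option linter.unusedSectionVars false
set_option linter.unusedSimpArgs false

open MeasureTheory Metric Set Matrix
open scoped InnerProductSpace ContDiff

namespace TrI

noncomputable section

namespace CH2

variable {V E : Type} [NormedAddCommGroup V] [InnerProductSpace ℝ V] [FiniteDimensional ℝ V]
  [NormedAddCommGroup E] [InnerProductSpace ℝ E] [FiniteDimensional ℝ E]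

theorem yt_ne (t : ℝ) : yt t ≠ 0 := by
  intro h
  have := congrArg (fun z : Sp 2 => z 0) h
  simp [yt, e0, e1] at this

theorem IsCap.mono {d : ℕ} {L : (Sp d →L[ℝ] V) →L[ℝ] E} {y0 : Sp d} {ρ B B' : ℝ} {w : Sp d → V}
    {τ : Sp d → E} (h : IsCap L y0 ρ B w τ) (hB : B ≤ B') : IsCap L y0 ρ B' w τ := by
  obtain ⟨h1, h2, h3, h4, h5, h6, h7, h8⟩ := h
  refine ⟨h1, lt_of_lt_of_le h2 hB, h3, h4, ?_, ?_, ?_, ?_⟩
  · intro y hy
    exact (h5 y hy).trans hB
  · intro y hy
    exact (h6 y hy).trans hB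
  · intro y hy y' hy'
    exact (h7 y hy y' hy').trans (mul_le_mul_of_nonneg_right hB (norm_nonneg _))
  · intro y hy y' hy'
    exact (h8 y hy y' hy').trans (mul_le_mul_of_nonneg_right hB (norm_nonneg _))

theorem main {L : (Sp 2 →L[ℝ] V) →L[ℝ] E} (hL : CEllR L) : ChartHyp L := by
  classical
  intro e he
  have he0 : e ≠ 0 := by
    rintro rfl
    simp at he
  set R : Submodule ℝ E := LinearMap.range (L : (Sp 2 →L[ℝ] V) →ₗ[ℝ] E) with hR
  obtain ⟨g, hg⟩ := LinearMap.exists_rightInverse_of_surjective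
    ((L : (Sp 2 →L[ℝ] V) →ₗ[ℝ] E).rangeRestrict) (LinearMap.range_rangeRestrict _)
  set S : E →ₗ[ℝ] (Sp 2 →L[ℝ] V) := g ∘ₗ (R.orthogonalProjectionOnto : E →ₗ[ℝ] R) with hSdef
  have hLS : ∀ x : E, L (S x) = R.starProjection x := by
    intro x
    have h1 := LinearMap.congr_fun hg (R.orthogonalProjectionOnto x)
    exact congrArg Subtype.val h1
  have hS : ∀ M, L (M - S (L M)) = 0 := by
    intro M
    have h1 : L M ∈ R := ⟨M, rfl⟩
    rw [map_sub, hLS, Submodule.starProjection_eq_self_iff.mpr h1, sub_self]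
  set n : E := e - R.starProjection e with hn
  have hnR : n ∈ Rᗮ := Submodule.sub_starProjection_mem_orthogonal e
  have hn' : ∀ M, ⟪L M, n⟫_ℝ = 0 := fun M =>
    (Submodule.mem_orthogonal _ _).mp hnR _ ⟨M, rfl⟩
  have hen : ⟪e, n⟫_ℝ = ‖n‖ ^ 2 := by
    have h1 : e = L (S e) + n := by rw [hLS, hn]; abel
    conv_lhs => rw [h1]
    rw [inner_add_left, hn', zero_add, real_inner_self_eq_norm_sq]
  set K : Submodule ℝ (Sp 2 →L[ℝ] V) := LinearMap.ker (L : (Sp 2 →L[ℝ] V) →ₗ[ℝ] E) with hK
  have hKm : ∀ M, M ∈ K ↔ L M = 0 := fun M => by simp [hK]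
  -- evaluation
  set Ky : Sp 2 → Submodule ℝ V := fun y =>
    K.map ((ContinuousLinearMap.apply ℝ V y : (Sp 2 →L[ℝ] V) →L[ℝ] V) :
      (Sp 2 →L[ℝ] V) →ₗ[ℝ] V) with hKy
  have hKym : ∀ y v, v ∈ Ky y ↔ ∃ M, L M = 0 ∧ M y = v := by
    intro y v
    simp only [hKy, Submodule.mem_map, hKm]
    rfl
  set Good : ℝ → ℝ → V → Prop := fun s t w => 0 < s ∧ ‖s • yt t‖ ≤ 1 ∧
    (∀ M, L M = 0 → ⟪w, M (s • yt t)⟫_ℝ = 0) ∧ 0 < ⟪w, S e (s • yt t)⟫_ℝ + ⟪e, n⟫_ℝ with hGood
  set W : Set V := {w | ∃ s t, Good s t w} with hW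
  set st : ℝ → ℝ := fun t => 1 / ‖yt t‖ with hst
  have hst0 : ∀ t, 0 < st t := fun t => by
    have := norm_pos_iff.mpr (yt_ne t)
    simp only [hst]
    positivity
  have hst1 : ∀ t, ‖st t • yt t‖ ≤ 1 := fun t => by
    have h1 := norm_pos_iff.mpr (yt_ne t)
    rw [norm_smul, Real.norm_eq_abs, abs_of_pos (hst0 t)]
    simp only [hst]
    rw [one_div, inv_mul_cancel₀ h1.ne']
  set T' : Set ℝ := {t | ∃ w0, Good (st t) t w0} with hT'
  have hT'inf : T'.Infinite := by
    by_cases hn0 : n = 0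
    · have hLSe : L (S e) ≠ 0 := by
        rw [hLS]
        intro h0
        rw [hn, h0, sub_zero] at hn0
        exact he0 hn0
      have hT0 : {t : ℝ | ∃ M, L M = 0 ∧ S e (yt t) = M (yt t)}.Finite := by
        by_contra hcon
        exact hLSe (claimB hL (S e) _ hcon fun t ht => ht)
      refine hT0.infinite_compl.mono fun t ht => ?_
      have hnot : S e (st t • yt t) ∉ Ky (st t • yt t) := by
        intro hmem
        obtain ⟨M, hM, hMe⟩ := (hKym _ _).mp hmem
        apply ht
        refine ⟨M, hM, ?_⟩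
        rw [map_smul, map_smul] at hMe
        exact (smul_right_injective V (hst0 t).ne' hMe).symm
      set w0 : V := S e (st t • yt t) - (Ky (st t • yt t)).starProjection (S e (st t • yt t))
        with hw0
      have hw0o : w0 ∈ (Ky (st t • yt t))ᗮ := Submodule.sub_starProjection_mem_orthogonal _
      have hw0n : w0 ≠ 0 := by
        intro h0
        apply hnot
        rw [hw0, sub_eq_zero] at h0
        rw [h0]
        exact Submodule.starProjection_apply_mem _ _
      refine ⟨w0, hst0 t, hst1 t, ?_, ?_⟩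
      · intro M hM
        exact (Submodule.mem_orthogonal' _ _).mp hw0o _ ((hKym _ _).mpr ⟨M, hM, rfl⟩)
      · have h1 : S e (st t • yt t) =
            w0 + (Ky (st t • yt t)).starProjection (S e (st t • yt t)) := by
          rw [hw0]; abel
        rw [hn0, inner_zero_right, add_zero, h1, inner_add_right,
          (Submodule.mem_orthogonal' _ _).mp hw0o _ (Submodule.starProjection_apply_mem _ _),
          add_zero, real_inner_self_eq_norm_sq]
        have := norm_pos_iff.mpr hw0n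
        positivity
    · have : T' = Set.univ := by
        rw [Set.eq_univ_iff_forall]
        intro t
        refine ⟨0, hst0 t, hst1 t, fun M _ => inner_zero_left _, ?_⟩
        rw [inner_zero_left, zero_add, hen]
        have := norm_pos_iff.mpr hn0
        positivity
      rw [this]
      exact Set.infinite_univ
  have hspan : Submodule.span ℝ W = ⊤ := by
    rw [← Submodule.orthogonal_eq_bot_iff, eq_bot_iff]
    intro v hv
    rw [Submodule.mem_bot]
    apply claimA hL v T' hT'inf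
    intro t ht
    obtain ⟨w0, hw0⟩ := ht
    have hvW : ∀ w ∈ W, ⟪w, v⟫_ℝ = 0 := fun w hw =>
      (Submodule.mem_orthogonal _ _).mp hv w (Submodule.subset_span hw)
    have hvK : v ∈ Ky (st t • yt t) := by
      rw [← Submodule.orthogonal_orthogonal (Ky (st t • yt t)), Submodule.mem_orthogonal]
      intro w' hw'
      have hw'' := (Submodule.mem_orthogonal' _ _).mp hw'
      obtain ⟨h1, h2, h3, h4⟩ := hw0
      set α : ℝ := ⟪w0, S e (st t • yt t)⟫_ℝ + ⟪e, n⟫_ℝ with hα
      set β : ℝ := ⟪w', S e (st t • yt t)⟫_ℝ with hβ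
      set δ : ℝ := α / (2 * (|β| + 1)) with hδ
      have hδ0 : 0 < δ := by positivity
      have hgood : Good (st t) t (w0 + δ • w') := by
        refine ⟨h1, h2, ?_, ?_⟩
        · intro M hM
          rw [inner_add_left, h3 M hM, real_inner_smul_left,
            hw'' _ ((hKym _ _).mpr ⟨M, hM, rfl⟩), mul_zero, add_zero]
        · rw [inner_add_left, real_inner_smul_left, add_right_comm, ← hα, ← hβ]
          have h5 : δ * |β| ≤ α / 2 := by
            rw [hδ, div_mul_eq_mul_div, div_le_iff₀ (by positivity)]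
            nlinarith [abs_nonneg β]
          have h6 : -(δ * |β|) ≤ δ * β := by
            rw [← mul_neg]
            exact mul_le_mul_of_nonneg_left (neg_abs_le β) hδ0.le
          linarith
      have h5 := hvW w0 ⟨_, _, h1, h2, h3, h4⟩
      have h6 := hvW (w0 + δ • w') ⟨_, _, hgood⟩
      rw [inner_add_left, h5, zero_add, real_inner_smul_left, mul_eq_zero] at h6
      exact h6.resolve_left hδ0.ne'
    obtain ⟨M, hM, hMv⟩ := (hKym _ _).mp hvK
    refine ⟨st t • M, by rw [map_smul, hM, smul_zero], ?_⟩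
    rw [← hMv, map_smul, _root_.smul_apply]
  obtain ⟨b, hbW, hbs, hbli⟩ := exists_linearIndependent ℝ W
  have hbfin : b.Finite := hbli.setFinite
  obtain ⟨t0, w0, hw0⟩ := hT'inf.nonempty
  set F : Finset V := insert w0 hbfin.toFinset with hF
  have hFW : ∀ w ∈ F, w ∈ W := by
    intro w hw
    rw [hF, Finset.mem_insert, Set.Finite.mem_toFinset] at hw
    rcases hw with rfl | hw
    · exact ⟨_, _, hw0⟩
    · exact hbW hw
  have hFpos : 0 < F.card := Finset.card_pos.mpr ⟨w0, by rw [hF]; exact Finset.mem_insert_self _ _⟩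
  have hch : ∀ a : Fin F.card, ∃ (y : Sp 2) (ρ B : ℝ) (w : Sp 2 → V) (τ : Sp 2 → E),
      IsCap L y ρ B w τ ∧ w y = (F.equivFin.symm a : V) ∧ 0 < ⟪e, τ y⟫_ℝ := by
    intro a
    obtain ⟨s, t, h1, h2, h3, h4⟩ := hFW _ (F.equivFin.symm a).2
    obtain ⟨ρ, B, w, τ, h5, h6, h7⟩ := exists_cap hL S hS n hn' s t h1 h2 _ h3
    exact ⟨_, ρ, B, w, τ, h5, h6, by rw [h7]; exact h4⟩
  choose y ρ B w τ hcap hwy hpos using hch
  refine ⟨F.card, hFpos, ∑ a, B a, y, ρ, w, τ, ?_, hpos, ?_⟩
  · intro a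
    refine IsCap.mono (hcap a) ?_
    exact Finset.single_le_sum (f := B) (fun a _ => (hcap a).B_pos.le) (Finset.mem_univ a)
  · rw [eq_top_iff, ← hspan, ← hbs]
    apply Submodule.span_mono
    intro v hv
    have hvF : v ∈ F := by
      rw [hF, Finset.mem_insert, Set.Finite.mem_toFinset]
      exact Or.inr hv
    refine ⟨F.equivFin ⟨v, hvF⟩, ?_⟩
    simp only
    rw [hwy, Equiv.symm_apply_apply]

theorem cEllR_of {d : ℕ} {L : (Sp d →L[ℝ] V) →L[ℝ] E} (hL : CEll L) : CEllR L := by
  intro ξ η v w h1 h2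
  by_cases hξ : ξ = 0
  · by_cases hη : η = 0
    · exact Or.inl ⟨hξ, hη⟩
    · refine Or.inr (hL ξ η (Or.inr hη) v w ?_ ?_)
      · rw [← map_sub]
        exact h1
      · rw [← map_add]
        exact h2
  · refine Or.inr (hL ξ η (Or.inl hξ) v w ?_ ?_)
    · rw [← map_sub]
      exact h1
    · rw [← map_add]
      exact h2

end CH2

theorem stmtCH2 : StmtCH2 := by
  intro V E _ _ _ _ _ _ L hL _
  exact CH2.main (CH2.cEllR_of hL)

end

end TrI
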