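import Pool.Agent.TR.Basic
import Pool.Agent.TR.Stmts

/-!
# Module DEV: facts on deviations and gaps
-/

set_option linter.unusedSectionVars false

open MeasureTheory Metric Set
open scoped InnerProductSpace ContDiff

namespace TrI

noncomputable section

namespace DEV

variable {d : ℕ} {E : Type} [NormedAddCommGroup E] [InnerProductSpace ℝ E]
  [FiniteDimensional ℝ E]

lemma LBn {f : Sp d → E} (hf : Continuous f) (s0 : ℝ) (n : ℕ) :
    LB (fun z => ‖fl s0 f n z‖) := LB.of_cont (fl_cont hf s0 n).norm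

lemma LBi {f : Sp d → E} (hf : Continuous f) (s0 : ℝ) (n : ℕ) (e : E) :
    LB (fun z => ⟪fl s0 f n z, e⟫_ℝ) := LB.inner_const (LB.of_cont (fl_cont hf s0 n)) e

lemma LBG {f : Sp d → E} (hf : Continuous f) (s0 : ℝ) (n : ℕ) (e : E) :
    LB (fun z => ‖fl s0 f n z‖ - ⟪fl s0 f n z, e⟫_ℝ) := (LBn hf s0 n).sub (LBi hf s0 n e)

lemma G_nonneg {f : Sp d → E} (s0 : ℝ) (n : ℕ) {e : E} (he : ‖e‖ = 1) (z : Sp d) :
    0 ≤ ‖fl s0 f n z‖ - ⟪fl s0 f n z, e⟫_ℝ := by
  have := real_inner_le_norm (fl s0 f n z) e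
  rw [he, mul_one] at this
  linarith

lemma kavG {f : Sp d → E} (hf : Continuous f) {s0 : ℝ} {n N : ℕ} (h : n ≤ N) {x : Sp d} {e : E}
    (he : ‖e‖ = 1) (hx : fl s0 f N x = ‖fl s0 f N x‖ • e) :
    kav s0 n (N - n) (fun z => ‖fl s0 f n z‖ - ⟪fl s0 f n z, e⟫_ℝ) x =
      ∑ k ∈ Finset.Ico n N, kav s0 (k + 1) (N - k - 1) (gap s0 f k) x := by
  have := FiniteDimensional.complete ℝ E
  rw [kav_sub (LBn hf s0 n) (LBi hf s0 n e), kav_inner (LB.of_cont (fl_cont hf s0 n)),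
    fl_kav s0 f h, ← dev_eq hf s0 h x]
  congr 1
  conv_lhs => rw [hx]
  rw [real_inner_smul_left, real_inner_self_eq_norm_sq, he]
  ring

lemma sum_le_er {f : Sp d → E} {s0 : ℝ} (hs : 0 < s0) (j m n : ℕ)
    (hn : j ≤ n + m) (x : Sp d) :
    sc s0 j * ∑ k ∈ Finset.Ico n (j + 4), kav s0 (k + 1) (j + 4 - k - 1) (gap s0 f k) x ≤
      2 ^ m * er s0 f j x := by
  have hp := sc_pos hs j
  unfold er
  rw [← mul_assoc, mul_comm (2 ^ m) (sc s0 j), mul_assoc]
  refine mul_le_mul_of_nonneg_left ?_ hp.le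
  rw [Finset.mul_sum]
  have h0 : ∀ k, 0 ≤ kav s0 (k + 1) (j + 3 - k) (gap s0 f k) x := fun k =>
    kav_nonneg (fun z => gap_nonneg s0 f k z) s0 _ _ x
  have h1 : ∀ k ∈ Finset.Ico n (j + 4), kav s0 (k + 1) (j + 4 - k - 1) (gap s0 f k) x ≤
      2 ^ m * ((1 / 2 : ℝ) ^ (j - k) * kav s0 (k + 1) (j + 3 - k) (gap s0 f k) x) := by
    intro k hk
    rw [Finset.mem_Ico] at hk
    have e1 : j + 4 - k - 1 = j + 3 - k := by omega
    rw [e1, ← mul_assoc]
    have h2 : 1 ≤ (2 : ℝ) ^ m * (1 / 2) ^ (j - k) := by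
      have h3 : (1 / 2 : ℝ) ^ m ≤ (1 / 2) ^ (j - k) :=
        pow_le_pow_of_le_one (by norm_num) (by norm_num) (by omega)
      have h4 : (2 : ℝ) ^ m * (1 / 2) ^ m = 1 := by rw [← mul_pow]; norm_num
      calc (1 : ℝ) = 2 ^ m * (1 / 2) ^ m := h4.symm
        _ ≤ _ := mul_le_mul_of_nonneg_left h3 (by positivity)
    exact le_mul_of_one_le_left (h0 k) h2
  refine (Finset.sum_le_sum h1).trans ?_
  refine Finset.sum_le_sum_of_subset_of_nonneg ?_ fun k _ _ => ?_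
  · intro k hk
    rw [Finset.mem_Ico] at hk
    rw [Finset.mem_range]
    exact hk.2
  · exact mul_nonneg (by positivity) (mul_nonneg (by positivity) (h0 k))

lemma er_nonneg {f : Sp d → E} {s0 : ℝ} (hs : 0 < s0) (j : ℕ) (x : Sp d) :
    0 ≤ er s0 f j x := by
  have hp := sc_pos hs j
  unfold er
  refine mul_nonneg hp.le (Finset.sum_nonneg fun k _ => mul_nonneg (by positivity) ?_)
  exact kav_nonneg (fun z => gap_nonneg s0 f k z) s0 _ _ x

lemma am_nonneg {f : Sp d → E} {s0 : ℝ} (hs : 0 < s0) (j : ℕ) (x : Sp d) :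
    0 ≤ am s0 f j x := by
  have hp := sc_pos hs j
  unfold am
  exact mul_nonneg (by positivity) (setIntegral_nonneg measurableSet_ball fun z _ =>
    norm_nonneg _)

/-- conversion of the lower bound of the kernel -/
lemma conv {s0 : ℝ} (hs : 0 < s0) {g : Sp d → ℝ} (hg : LB g) (h0 : ∀ z, 0 ≤ g z) (j m r : ℕ)
    (hr : m + r = j + 3) (x : Sp d) :
    sc s0 j / (sc s0 j) ^ d * ∫ z in ball x (384 * sc s0 j), g z ≤
      512 ^ d / bk d 0 * (sc s0 j * kav s0 m (r + 1) g x) := by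
  have hp := sc_pos hs j
  have hb := bk_zero_pos (d := d)
  have h1 := kav_lower hs hg h0 m r x
  have h2 : sc s0 (m + r) = 512 * sc s0 j := by
    rw [hr, sc_add]; norm_num
  rw [h2, show 3 / 4 * (512 * sc s0 j) = 384 * sc s0 j by ring] at h1
  have h3 : sc s0 j / (sc s0 j) ^ d * ∫ z in ball x (384 * sc s0 j), g z =
      512 ^ d / bk d 0 * (sc s0 j * (bk d 0 / (512 * sc s0 j) ^ d *
        ∫ z in ball x (384 * sc s0 j), g z)) := by
    rw [mul_pow]
    field_simp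
  rw [h3]
  refine mul_le_mul_of_nonneg_left ?_ (by positivity)
  exact mul_le_mul_of_nonneg_left h1 hp.le

lemma dev {f : Sp d → E} (hf : Continuous f) {s0 : ℝ} (hs : 0 < s0) (j m : ℕ) (x : Sp d)
    (e : E) (he : ‖e‖ = 1) (hx : fl s0 f (j + 4) x = ‖fl s0 f (j + 4) x‖ • e) :
    sc s0 j / (sc s0 j) ^ d * ∫ z in ball x (384 * sc s0 j),
      (‖fl s0 f (j - m) z‖ - ⟪fl s0 f (j - m) z, e⟫_ℝ) ≤
      512 ^ d / bk d 0 * (2 ^ m * er s0 f j x) := by
  have hb := bk_zero_pos (d := d)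
  refine (conv hs (LBG hf s0 (j - m) e) (G_nonneg s0 (j - m) he) j (j - m) (j + 3 - (j - m))
    (by omega) x).trans ?_
  refine mul_le_mul_of_nonneg_left ?_ (by positivity)
  have e1 : j + 3 - (j - m) + 1 = j + 4 - (j - m) := by omega
  rw [e1, kavG hf (by omega) he hx]
  exact sum_le_er hs j m (j - m) (by omega) x

lemma gap_le {f : Sp d → E} (hf : Continuous f) {s0 : ℝ} (hs : 0 < s0) (j k : ℕ) (x : Sp d)
    (hk : k ≤ j + 2) :
    (1 / 2 : ℝ) ^ (j - k) * (sc s0 j / (sc s0 j) ^ d * ∫ z in ball x (384 * sc s0 j),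
      gap s0 f k z) ≤ 512 ^ d / bk d 0 * er s0 f j x := by
  have hb := bk_zero_pos (d := d)
  have hp := sc_pos hs j
  have h1 := conv hs (LB.gap hf s0 k) (gap_nonneg s0 f k) j (k + 1) (j + 2 - k) (by omega) x
  have e1 : j + 2 - k + 1 = j + 3 - k := by omega
  rw [e1] at h1
  have h0 : ∀ i, 0 ≤ kav s0 (i + 1) (j + 3 - i) (gap s0 f i) x := fun i =>
    kav_nonneg (fun z => gap_nonneg s0 f i z) s0 _ _ x
  have h2 : (1 / 2 : ℝ) ^ (j - k) * kav s0 (k + 1) (j + 3 - k) (gap s0 f k) x ≤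
      ∑ i ∈ Finset.range (j + 4),
        (1 / 2 : ℝ) ^ (j - i) * kav s0 (i + 1) (j + 3 - i) (gap s0 f i) x :=
    Finset.single_le_sum (f := fun i => (1 / 2 : ℝ) ^ (j - i) *
      kav s0 (i + 1) (j + 3 - i) (gap s0 f i) x)
      (fun i _ => mul_nonneg (by positivity) (h0 i)) (by rw [Finset.mem_range]; omega)
  calc _ ≤ (1 / 2 : ℝ) ^ (j - k) * (512 ^ d / bk d 0 *
        (sc s0 j * kav s0 (k + 1) (j + 3 - k) (gap s0 f k) x)) :=
        mul_le_mul_of_nonneg_left h1 (by positivity)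
    _ = 512 ^ d / bk d 0 * (sc s0 j * ((1 / 2 : ℝ) ^ (j - k) *
        kav s0 (k + 1) (j + 3 - k) (gap s0 f k) x)) := by ring
    _ ≤ _ := by
        unfold er
        refine mul_le_mul_of_nonneg_left ?_ (by positivity)
        exact mul_le_mul_of_nonneg_left h2 hp.le

/-- one step of the transfer -/
lemma step {f : Sp d → E} (hf : Continuous f) {s0 : ℝ} (hs : 0 < s0) (m : ℕ) (q : Sp d)
    (r : ℝ) : ∫ z in ball q r, ‖fl s0 f m z‖ ≤
      (∫ z in ball q (r + sc s0 m), ‖fl s0 f (m + 1) z‖) +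
        ∫ z in ball q (r + sc s0 m), gap s0 f m z := by
  refine (int_ball_av_ge (LBn hf s0 m) (fun z => norm_nonneg _) (sc_pos hs m).le q r).trans ?_
  rw [← integral_add ((LBn hf s0 (m + 1)).integrableOn isBounded_ball)
    ((LB.gap hf s0 m).integrableOn isBounded_ball)]
  refine le_of_eq ?_
  congr 1
  ext z
  unfold gap
  ring

lemma mono_ball {g : Sp d → ℝ} (hg : LB g) (h0 : ∀ z, 0 ≤ g z) {p q : Sp d} {r r' : ℝ}
    (h : r + ‖p - q‖ ≤ r') : ∫ z in ball p r, g z ≤ ∫ z in ball q r', g z := by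
  refine setIntegral_mono_set (hg.integrableOn isBounded_ball)
    (Filter.Eventually.of_forall fun z => h0 z) (Filter.Eventually.of_forall ?_)
  refine ball_subset_ball' ?_
  rw [dist_eq_norm]
  exact h

lemma transfer {f : Sp d → E} (hf : Continuous f) {s0 : ℝ} (hs : 0 < s0) (k m : ℕ) (q : Sp d)
    (r : ℝ) (h : k ≤ m) :
    ∫ z in ball q r, ‖fl s0 f k z‖ ≤ (∫ z in ball q (r + sc s0 m / 7), ‖fl s0 f m z‖) +
      ∑ i ∈ Finset.Ico k m, ∫ z in ball q (r + sc s0 m / 7), gap s0 f i z := by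
  induction m, h using Nat.le_induction with
  | base =>
    rw [Finset.Ico_self, Finset.sum_empty, add_zero]
    have hp := sc_pos hs k
    exact mono_ball (LBn hf s0 k) (fun z => norm_nonneg _) (by rw [sub_self, norm_zero]; linarith)
  | succ m hm ih =>
    have hp := sc_pos hs m
    have e1 : r + sc s0 m / 7 + sc s0 m = r + sc s0 (m + 1) / 7 := by
      rw [sc_succ]; ring
    have h1 := step hf hs m q (r + sc s0 m / 7)
    rw [e1] at h1
    rw [Finset.sum_Ico_succ_top hm]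
    have h2 : ∑ i ∈ Finset.Ico k m, ∫ z in ball q (r + sc s0 m / 7), gap s0 f i z ≤
        ∑ i ∈ Finset.Ico k m, ∫ z in ball q (r + sc s0 (m + 1) / 7), gap s0 f i z := by
      refine Finset.sum_le_sum fun i _ => ?_
      refine mono_ball (LB.gap hf s0 i) (gap_nonneg s0 f i) ?_
      rw [sub_self, norm_zero, sc_succ]
      linarith
    linarith

lemma transfer' {f : Sp d → E} (hf : Continuous f) {s0 : ℝ} (hs : 0 < s0) (k m : ℕ) (q : Sp d)
    (r : ℝ) (h : k ≤ m) :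
    ∫ z in ball q r, ‖fl s0 f m z‖ ≤ ∫ z in ball q (r + sc s0 m / 7), ‖fl s0 f k z‖ := by
  induction m, h using Nat.le_induction generalizing r with
  | base =>
    have hp := sc_pos hs k
    exact mono_ball (LBn hf s0 k) (fun z => norm_nonneg _) (by rw [sub_self, norm_zero]; linarith)
  | succ m hm ih =>
    have hp := sc_pos hs m
    have e1 : r + sc s0 m + sc s0 m / 7 = r + sc s0 (m + 1) / 7 := by
      rw [sc_succ]; ring
    have h1 : ∫ z in ball q r, ‖fl s0 f (m + 1) z‖ ≤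
        ∫ z in ball q r, av (sc s0 m) (fun z => ‖fl s0 f m z‖) z := by
      refine setIntegral_mono_on ((LBn hf s0 (m + 1)).integrableOn isBounded_ball)
        (((LBn hf s0 m).av _).integrableOn isBounded_ball) measurableSet_ball fun z _ => ?_
      have := gap_nonneg s0 f m z
      unfold gap at this
      linarith
    have h2 := int_ball_av_le (LBn hf s0 m) (fun z => norm_nonneg _) hp.le q r
    have h3 := ih (r + sc s0 m)
    rw [e1] at h3
    linarith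

lemma am_mono {f : Sp d → E} (hf : Continuous f) {s0 : ℝ} (hs : 0 < s0) (j : ℕ) (x : Sp d) :
    am s0 f j x ≤ 8 ^ d * (1 + 2 * (512 ^ d / bk d 0)) *
      (am s0 f (j + 1) x + er s0 f (j + 1) x) := by
  have hb := bk_zero_pos (d := d)
  have hp := sc_pos hs j
  have h1 := step hf hs j x (32 * sc s0 j)
  have h2 : ∫ z in ball x (32 * sc s0 j + sc s0 j), ‖fl s0 f (j + 1) z‖ ≤
      ∫ z in ball x (32 * sc s0 (j + 1)), ‖fl s0 f (j + 1) z‖ := by
    refine mono_ball (LBn hf s0 (j + 1)) (fun z => norm_nonneg _) ?_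
    rw [sub_self, norm_zero, sc_succ]
    linarith
  have h3 : ∫ z in ball x (32 * sc s0 j + sc s0 j), gap s0 f j z ≤
      ∫ z in ball x (384 * sc s0 (j + 1)), gap s0 f j z := by
    refine mono_ball (LB.gap hf s0 j) (gap_nonneg s0 f j) ?_
    rw [sub_self, norm_zero, sc_succ]
    linarith
  have h4 := gap_le hf hs (j + 1) j x (by omega)
  have e1 : j + 1 - j = 1 := by omega
  rw [e1, pow_one] at h4
  have e2 : sc s0 j / (sc s0 j) ^ d = 8 ^ d / 8 * (sc s0 (j + 1) / (sc s0 (j + 1)) ^ d) := by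
    rw [sc_succ, mul_pow]
    field_simp
  have hq : 0 ≤ sc s0 (j + 1) / (sc s0 (j + 1)) ^ d := by
    have := sc_pos hs (j + 1)
    positivity
  have hE := er_nonneg (f := f) hs (j + 1) x
  have hA := am_nonneg (f := f) hs (j + 1) x
  have h5 : am s0 f j x ≤ 8 ^ d / 8 * (sc s0 (j + 1) / (sc s0 (j + 1)) ^ d *
      ((∫ z in ball x (32 * sc s0 (j + 1)), ‖fl s0 f (j + 1) z‖) +
        ∫ z in ball x (384 * sc s0 (j + 1)), gap s0 f j z)) := by
    unfold am
    rw [e2, mul_assoc]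
    refine mul_le_mul_of_nonneg_left ?_ (by positivity)
    exact mul_le_mul_of_nonneg_left (by linarith) hq
  have h6 : sc s0 (j + 1) / (sc s0 (j + 1)) ^ d *
      ((∫ z in ball x (32 * sc s0 (j + 1)), ‖fl s0 f (j + 1) z‖) +
        ∫ z in ball x (384 * sc s0 (j + 1)), gap s0 f j z) ≤
      am s0 f (j + 1) x + 2 * (512 ^ d / bk d 0) * er s0 f (j + 1) x := by
    rw [mul_add]
    unfold am
    linarith
  have h8 : (8 : ℝ) ^ d / 8 ≤ 8 ^ d := by
    have : (0 : ℝ) < 8 ^ d := by positivity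
    linarith
  have hC : 0 ≤ 512 ^ d / bk d 0 := by positivity
  have h9 : 0 ≤ am s0 f (j + 1) x + 2 * (512 ^ d / bk d 0) * er s0 f (j + 1) x := by positivity
  calc am s0 f j x ≤ _ := h5
    _ ≤ 8 ^ d / 8 * (am s0 f (j + 1) x + 2 * (512 ^ d / bk d 0) * er s0 f (j + 1) x) :=
        mul_le_mul_of_nonneg_left h6 (by positivity)
    _ ≤ 8 ^ d * (am s0 f (j + 1) x + 2 * (512 ^ d / bk d 0) * er s0 f (j + 1) x) :=
        mul_le_mul_of_nonneg_right h8 h9
    _ ≤ 8 ^ d * ((1 + 2 * (512 ^ d / bk d 0)) * (am s0 f (j + 1) x + er s0 f (j + 1) x)) := by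
        refine mul_le_mul_of_nonneg_left ?_ (by positivity)
        nlinarith
    _ = _ := by ring

lemma dir {f : Sp d → E} (hf : Continuous f) {s0 : ℝ} (hs : 0 < s0) (j : ℕ) (x z : Sp d)
    (e : E) (he : ‖e‖ = 1) (hx : fl s0 f (j + 4) x = ‖fl s0 f (j + 4) x‖ • e)
    (hz : ‖z - x‖ ≤ sc s0 (j + 2) / 4) :
    sc s0 j * (‖fl s0 f (j + 3) z‖ - ⟪fl s0 f (j + 3) z, e⟫_ℝ) ≤ 8 ^ d * er s0 f j x := by
  have := FiniteDimensional.complete ℝ E
  have hp := sc_pos hs j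
  have hp2 := sc_pos hs (j + 2)
  have h1 : ‖fl s0 f (j + 3) z‖ - ⟪fl s0 f (j + 3) z, e⟫_ℝ ≤
      kav s0 (j + 2) 1 (fun z => ‖fl s0 f (j + 2) z‖ - ⟪fl s0 f (j + 2) z, e⟫_ℝ) z := by
    rw [kav_sub (LBn hf s0 (j + 2)) (LBi hf s0 (j + 2) e),
      kav_inner (LB.of_cont (fl_cont hf s0 (j + 2)))]
    have e1 : kav s0 (j + 2) 1 (fl s0 f (j + 2)) z = fl s0 f (j + 3) z := by
      have := fl_kav s0 f (m := j + 2) (n := j + 3) (by omega)
      rw [show j + 3 - (j + 2) = 1 by omega] at this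
      rw [this]
    have h2 := norm_kav_le (LB.of_cont (fl_cont hf s0 (j + 2))) s0 (j + 2) 1 z
    rw [e1] at h2 ⊢
    linarith
  have h2 := kav_compare hs (LBG hf s0 (j + 2) e) (G_nonneg s0 (j + 2) he) (j + 2) 0 x z
    (by rw [add_zero]; linarith)
  have h3 := kavG hf (show j + 2 ≤ j + 4 by omega) he hx
  rw [show j + 4 - (j + 2) = 0 + 2 by omega] at h3
  have h4 := sum_le_er (f := f) hs j 0 (j + 2) (by omega) x
  rw [pow_zero, one_mul] at h4
  rw [h3] at h2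
  have h5 : ‖fl s0 f (j + 3) z‖ - ⟪fl s0 f (j + 3) z, e⟫_ℝ ≤ 8 ^ d *
      ∑ k ∈ Finset.Ico (j + 2) (j + 4), kav s0 (k + 1) (j + 4 - k - 1) (gap s0 f k) x :=
    h1.trans h2
  calc sc s0 j * (‖fl s0 f (j + 3) z‖ - ⟪fl s0 f (j + 3) z, e⟫_ℝ) ≤
        sc s0 j * (8 ^ d * ∑ k ∈ Finset.Ico (j + 2) (j + 4),
          kav s0 (k + 1) (j + 4 - k - 1) (gap s0 f k) x) := mul_le_mul_of_nonneg_left h5 hp.le
    _ = 8 ^ d * (sc s0 j * ∑ k ∈ Finset.Ico (j + 2) (j + 4),
          kav s0 (k + 1) (j + 4 - k - 1) (gap s0 f k) x) := by ring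
    _ ≤ _ := mul_le_mul_of_nonneg_left h4 (by positivity)

lemma low {f : Sp d → E} (hf : Continuous f) {s0 : ℝ} (hs : 0 < s0) (j : ℕ) (x z : Sp d)
    (hz : ‖z - x‖ ≤ sc s0 (j + 2) / 4) :
    am s0 f j x ≤ 512 ^ d / bk d 0 * (sc s0 j * ‖fl s0 f (j + 3) z‖ + er s0 f j x) := by
  have := FiniteDimensional.complete ℝ E
  have hb := bk_zero_pos (d := d)
  have hp := sc_pos hs j
  have hp2 := sc_pos hs (j + 2)
  have hE := er_nonneg (f := f) hs j x
  rcases subsingleton_or_nontrivial E with hE1 | hE1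
  · have h0 : am s0 f j x = 0 := by
      unfold am
      have : ∀ z, ‖fl s0 f j z‖ = 0 := fun z => by
        rw [Subsingleton.elim (fl s0 f j z) 0, norm_zero]
      simp [this]
    rw [h0]
    positivity
  -- the direction at level j + 4
  obtain ⟨e, he, hx⟩ : ∃ e : E, ‖e‖ = 1 ∧ fl s0 f (j + 4) x = ‖fl s0 f (j + 4) x‖ • e := by
    by_cases h0 : fl s0 f (j + 4) x = 0
    · obtain ⟨e, he⟩ := exists_norm_eq E zero_le_one
      exact ⟨e, he, by rw [h0, norm_zero, zero_smul]⟩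
    · have hn : ‖fl s0 f (j + 4) x‖ ≠ 0 := norm_ne_zero_iff.mpr h0
      refine ⟨‖fl s0 f (j + 4) x‖⁻¹ • fl s0 f (j + 4) x, ?_, ?_⟩
      · rw [norm_smul, norm_inv, norm_norm, inv_mul_cancel₀ hn]
      · rw [smul_smul, mul_inv_cancel₀ hn, one_smul]
  have h64 : sc s0 (j + 2) = 64 * sc s0 j := by rw [sc_add]; norm_num
  have h1 := kav_lower hs (LBn hf s0 j) (fun z => norm_nonneg _) j 2 z
  have h2 : ∫ w in ball x (32 * sc s0 j), ‖fl s0 f j w‖ ≤
      ∫ w in ball z (3 / 4 * sc s0 (j + 2)), ‖fl s0 f j w‖ := by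
    refine mono_ball (LBn hf s0 j) (fun z => norm_nonneg _) ?_
    rw [norm_sub_rev]
    rw [h64] at hz ⊢
    linarith
  have h3 : kav s0 j 3 (fun w => ‖fl s0 f j w‖) z =
      kav s0 j 3 (fun w => ‖fl s0 f j w‖ - ⟪fl s0 f j w, e⟫_ℝ) z +
        ⟪fl s0 f (j + 3) z, e⟫_ℝ := by
    rw [kav_sub (LBn hf s0 j) (LBi hf s0 j e), kav_inner (LB.of_cont (fl_cont hf s0 j))]
    have e1 : kav s0 j 3 (fl s0 f j) z = fl s0 f (j + 3) z := by
      have := fl_kav s0 f (m := j) (n := j + 3) (by omega)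
      rw [show j + 3 - j = 3 by omega] at this
      rw [this]
    rw [e1]
    ring
  have h4 := kav_compare hs (LBG hf s0 j e) (G_nonneg s0 j he) j 2 x z (by linarith)
  have h5 := kavG hf (show j ≤ j + 4 by omega) he hx
  rw [show j + 4 - j = 2 + 2 by omega] at h5
  have h6 := sum_le_er (f := f) hs j 0 j (by omega) x
  rw [pow_zero, one_mul] at h6
  rw [h5] at h4
  have h7 : ⟪fl s0 f (j + 3) z, e⟫_ℝ ≤ ‖fl s0 f (j + 3) z‖ := by
    have := real_inner_le_norm (fl s0 f (j + 3) z) e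
    rwa [he, mul_one] at this
  set S := ∑ k ∈ Finset.Ico j (j + 4), kav s0 (k + 1) (j + 4 - k - 1) (gap s0 f k) x with hS
  have h8 : bk d 0 / (sc s0 (j + 2)) ^ d * ∫ w in ball x (32 * sc s0 j), ‖fl s0 f j w‖ ≤
      8 ^ d * S + ‖fl s0 f (j + 3) z‖ := by
    have h9 : bk d 0 / (sc s0 (j + 2)) ^ d * ∫ w in ball x (32 * sc s0 j), ‖fl s0 f j w‖ ≤
        bk d 0 / (sc s0 (j + 2)) ^ d *
          ∫ w in ball z (3 / 4 * sc s0 (j + 2)), ‖fl s0 f j w‖ :=
      mul_le_mul_of_nonneg_left h2 (by positivity)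
    have h10 : kav s0 j (2 + 1) (fun w => ‖fl s0 f j w‖ - ⟪fl s0 f j w, e⟫_ℝ) z ≤ 8 ^ d * S :=
      h4
    have h11 : kav s0 j (2 + 1) (fun w => ‖fl s0 f j w‖) z =
      kav s0 j (2 + 1) (fun w => ‖fl s0 f j w‖ - ⟪fl s0 f j w, e⟫_ℝ) z +
        ⟪fl s0 f (j + 3) z, e⟫_ℝ := h3
    linarith
  have e3 : am s0 f j x = 64 ^ d / bk d 0 * (sc s0 j * (bk d 0 / (sc s0 (j + 2)) ^ d *
      ∫ w in ball x (32 * sc s0 j), ‖fl s0 f j w‖)) := by
    unfold am
    rw [h64, mul_pow]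
    field_simp
  rw [e3]
  have h12 : sc s0 j * (bk d 0 / (sc s0 (j + 2)) ^ d *
      ∫ w in ball x (32 * sc s0 j), ‖fl s0 f j w‖) ≤
      sc s0 j * (8 ^ d * S + ‖fl s0 f (j + 3) z‖) := mul_le_mul_of_nonneg_left h8 hp.le
  have h13 : sc s0 j * (8 ^ d * S + ‖fl s0 f (j + 3) z‖) ≤
      8 ^ d * (sc s0 j * ‖fl s0 f (j + 3) z‖ + er s0 f j x) := by
    have h14 : 8 ^ d * (sc s0 j * S) ≤ 8 ^ d * er s0 f j x :=
      mul_le_mul_of_nonneg_left h6 (by positivity)
    have h15 : (1 : ℝ) ≤ 8 ^ d := one_le_pow₀ (by norm_num)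
    have h16 : 1 * (sc s0 j * ‖fl s0 f (j + 3) z‖) ≤ 8 ^ d * (sc s0 j * ‖fl s0 f (j + 3) z‖) :=
      mul_le_mul_of_nonneg_right h15 (by positivity)
    nlinarith
  calc 64 ^ d / bk d 0 * (sc s0 j * (bk d 0 / (sc s0 (j + 2)) ^ d *
      ∫ w in ball x (32 * sc s0 j), ‖fl s0 f j w‖)) ≤
      64 ^ d / bk d 0 * (8 ^ d * (sc s0 j * ‖fl s0 f (j + 3) z‖ + er s0 f j x)) :=
        mul_le_mul_of_nonneg_left (h12.trans h13) (by positivity)
    _ = _ := by
      have : (512 : ℝ) ^ d = 64 ^ d * 8 ^ d := by rw [← mul_pow]; norm_num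
      rw [this]
      ring

end DEV

/-- MODULE DEV -/
theorem stmtDev : StmtDev := by
  intro d
  have hb := bk_zero_pos (d := d)
  obtain ⟨C1, hC1⟩ : ∃ C1 : ℝ, C1 = 512 ^ d / bk d 0 := ⟨_, rfl⟩
  have hC10 : 0 ≤ C1 := by rw [hC1]; positivity
  have h8 : (1 : ℝ) ≤ 8 ^ d := one_le_pow₀ (by norm_num)
  obtain ⟨C2, hC2⟩ : ∃ C2 : ℝ, C2 = 8 ^ d * (1 + 2 * C1) := ⟨_, rfl⟩
  have hC20 : 8 ^ d ≤ C2 := by rw [hC2]; nlinarith
  refine ⟨1 + C1 + C2, by linarith, ?_⟩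
  intro E _ _ _ f hf hfc s0 hs
  have hle1 : C1 ≤ 1 + C1 + C2 := by linarith
  have hle2 : C2 ≤ 1 + C1 + C2 := by linarith
  have hle3 : (8 : ℝ) ^ d ≤ 1 + C1 + C2 := by linarith
  refine
    { gap_nonneg := fun k x => gap_nonneg s0 f k x
      er_nonneg := fun j x => DEV.er_nonneg hs j x
      am_nonneg := fun j x => DEV.am_nonneg hs j x
      dev := ?_
      gap_le := ?_
      am_mono := ?_
      transfer := fun k m q r h => DEV.transfer hf hs k m q r h
      transfer' := fun k m q r h => DEV.transfer' hf hs k m q r h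
      dir := ?_
      low := ?_ }
  · intro j m x e he hx
    refine (DEV.dev hf hs j m x e he hx).trans ?_
    rw [← hC1, mul_assoc]
    exact mul_le_mul_of_nonneg_right hle1
      (mul_nonneg (by positivity) (DEV.er_nonneg hs j x))
  · intro j k x hk
    refine (DEV.gap_le hf hs j k x hk).trans ?_
    rw [← hC1]
    exact mul_le_mul_of_nonneg_right hle1 (DEV.er_nonneg hs j x)
  · intro j x
    refine (DEV.am_mono hf hs j x).trans ?_
    rw [← hC1, ← hC2]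
    exact mul_le_mul_of_nonneg_right hle2
      (add_nonneg (DEV.am_nonneg hs _ x) (DEV.er_nonneg hs _ x))
  · intro j x z e he hx hz
    refine (DEV.dir hf hs j x z e he hx hz).trans ?_
    exact mul_le_mul_of_nonneg_right hle3 (DEV.er_nonneg hs j x)
  · intro j x z hz
    refine (DEV.low hf hs j x z hz).trans ?_
    rw [← hC1]
    have hp := sc_pos hs j
    exact mul_le_mul_of_nonneg_right hle1
      (add_nonneg (by positivity) (DEV.er_nonneg hs j x))

end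

end TrI
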