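import Pool.Agent.TR.LI

/-!
# Module HF: hole filling, and module TV: total variation
-/

open MeasureTheory Metric Set
open scoped InnerProductSpace ContDiff

namespace TrI

noncomputable section

set_option linter.unusedSectionVars false

namespace HF

open LI

variable {d : ℕ}

/-! ## cut-off functions -/

lemma hat_cut (c : Sp d) {r r' : ℝ} (h : r < r') : IsCut (hat c r r') c r' (1 / (r' - r)) where
  l_nonneg := by
    have : 0 < r' - r := by linarith
    positivity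
  lip := by
    intro y y'
    have h0 : 0 < r' - r := by linarith
    unfold hat
    set a := (r' - ‖y - c‖) / (r' - r) with ha
    set b := (r' - ‖y' - c‖) / (r' - r) with hb
    have h1 : |max 0 (min 1 a) - max 0 (min 1 b)| ≤ |a - b| := by
      have e1 := abs_max_sub_max_le_abs (min 1 a) (min 1 b) 0
      have e2 := abs_min_sub_min_le_max 1 a 1 b
      rw [max_comm 0, max_comm 0]
      refine e1.trans (e2.trans ?_)
      simp
    refine h1.trans ?_
    have h2 : a - b = (‖y' - c‖ - ‖y - c‖) / (r' - r) := by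
      rw [ha, hb, ← sub_div]; congr 1; ring
    rw [h2, abs_div, abs_of_pos h0, div_eq_inv_mul, one_div]
    apply mul_le_mul_of_nonneg_left _ (by positivity)
    refine (abs_norm_sub_norm_le _ _).trans (le_of_eq ?_)
    rw [← norm_neg]
    congr 1
    abel
  supp := by
    intro y hy
    have h0 : 0 < r' - r := by linarith
    unfold hat
    apply max_eq_left
    apply (min_le_right _ _).trans
    apply div_nonpos_of_nonpos_of_nonneg _ h0.le
    linarith
  bd := by
    intro y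
    unfold hat
    rw [abs_of_nonneg (le_max_left _ _)]
    exact max_le zero_le_one (min_le_left _ _)

lemma hat_nonneg (c : Sp d) (r r' : ℝ) (y : Sp d) : 0 ≤ hat c r r' y := le_max_left _ _

lemma hat_one (c : Sp d) {r r' : ℝ} (h : r < r') : ∀ y ∈ ball c r, hat c r r' y = 1 := by
  intro y hy
  rw [mem_ball, dist_eq_norm] at hy
  have h0 : 0 < r' - r := by linarith
  unfold hat
  have h1 : 1 ≤ (r' - ‖y - c‖) / (r' - r) := by
    rw [le_div_iff₀ h0]; linarith
  rw [min_eq_left h1, max_eq_right zero_le_one]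

/-! ## masses of slices -/

section Mass

variable {E : Type} [NormedAddCommGroup E] [InnerProductSpace ℝ E] [FiniteDimensional ℝ E]

/-- the integrand of NN -/
def SL (s0 : ℝ) (f : Sp d → E) (n : ℕ) (x y0 : Sp d) (R t : ℝ) : ℝ :=
  ∫ y in ball y0 R, (‖fl s0 f n (x + t • y)‖ + ‖fl s0 f n (x - t • y)‖)

lemma NN_eq (s0 : ℝ) (f : Sp d → E) (m j : ℕ) (x y0 : Sp d) (R : ℝ) :
    NN s0 f m j x y0 R = ∫ t in (sc s0 j)..(sc s0 (j + 1)), SL s0 f (j - m) x y0 R t := rfl

lemma SL_cont {f : Sp d → E} (hf : Continuous f) (s0 : ℝ) (n : ℕ) (x y0 : Sp d) (R : ℝ) :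
    Continuous (SL s0 f n x y0 R) := by
  have hfn : Continuous (fl s0 f n) := fl_cont hf s0 n
  apply cont_par (G := fun t y => (‖fl s0 f n (x + t • y)‖ + ‖fl s0 f n (x - t • y)‖))
  show Continuous fun p : ℝ × Sp d => (‖fl s0 f n (x + p.1 • p.2)‖ +
    ‖fl s0 f n (x - p.1 • p.2)‖)
  have h1 : Continuous fun p : ℝ × Sp d => p.1 • p.2 := continuous_fst.smul continuous_snd
  exact (hfn.comp (continuous_const.add h1)).norm.add
    (hfn.comp (continuous_const.sub h1)).norm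

lemma SL_nonneg (s0 : ℝ) (f : Sp d → E) (n : ℕ) (x y0 : Sp d) (R t : ℝ) :
    0 ≤ SL s0 f n x y0 R t := integral_nonneg fun y => by positivity

lemma SL_split {f : Sp d → E} (hf : Continuous f) (s0 : ℝ) (n : ℕ) (x y0 : Sp d) (R t : ℝ) :
    SL s0 f n x y0 R t = (∫ y in ball y0 R, ‖fl s0 f n (x + t • y)‖) +
      ∫ y in ball (-y0) R, ‖fl s0 f n (x + t • y)‖ := by
  have hfn : Continuous (fl s0 f n) := fl_cont hf s0 n
  have h1 : Continuous fun y : Sp d => ‖fl s0 f n (x + t • y)‖ :=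
    (hfn.comp (continuous_const.add (continuous_const_smul t))).norm
  have h2 : Continuous fun y : Sp d => ‖fl s0 f n (x - t • y)‖ :=
    (hfn.comp (continuous_const.sub (continuous_const_smul t))).norm
  unfold SL
  rw [integral_add ((LB.of_cont h1).integrableOn isBounded_ball)
    ((LB.of_cont h2).integrableOn isBounded_ball)]
  congr 1
  rw [← int_ball_neg (fun y => ‖fl s0 f n (x - t • y)‖) y0 R]
  congr 1
  funext y
  rw [smul_neg, sub_neg_eq_add]

lemma ball_mono {g : Sp d → ℝ} (hg : Continuous g) (h0 : ∀ z, 0 ≤ g z) (q : Sp d) {r r' : ℝ}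
    (h : r ≤ r') : ∫ z in ball q r, g z ≤ ∫ z in ball q r', g z := by
  apply setIntegral_mono_set ((LB.of_cont hg).integrableOn isBounded_ball)
    (Filter.Eventually.of_forall fun z => h0 z) (Filter.Eventually.of_forall ?_)
  intro z hz
  exact ball_subset_ball h hz

lemma SL_mono {f : Sp d → E} (hf : Continuous f) (s0 : ℝ) (n : ℕ) (x y0 : Sp d) {R R' : ℝ}
    (h : R ≤ R') (t : ℝ) : SL s0 f n x y0 R t ≤ SL s0 f n x y0 R' t := by
  have hfn : Continuous (fl s0 f n) := fl_cont hf s0 n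
  apply ball_mono _ (fun z => by positivity) _ h
  exact (hfn.comp (continuous_const.add (continuous_const_smul t))).norm.add
    (hfn.comp (continuous_const.sub (continuous_const_smul t))).norm

/-- one slice, one level down -/
lemma slice_level {f : Sp d → E} (hf : Continuous f) {s0 : ℝ} (hs0 : 0 < s0) (k : ℕ)
    (x q : Sp d) (r : ℝ) {t a : ℝ} (ht : 0 < t) (ha : sc s0 k ≤ t * a) :
    ∫ y in ball q r, ‖fl s0 f (k + 1) (x + t • y)‖ ≤
      ∫ y in ball q (r + a), ‖fl s0 f k (x + t • y)‖ := by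
  have hfk : Continuous (fl s0 f k) := fl_cont hf s0 k
  rw [int_ball_scale (fun z => ‖fl s0 f (k + 1) z‖) ht, int_ball_scale (fun z => ‖fl s0 f k z‖) ht]
  rw [smul_eq_mul, smul_eq_mul]
  apply mul_le_mul_of_nonneg_left _ (by positivity)
  have hLB : LB fun z => ‖fl s0 f k z‖ := LB.of_cont hfk.norm
  calc ∫ z in ball (x + t • q) (t * r), ‖fl s0 f (k + 1) z‖
      ≤ ∫ z in ball (x + t • q) (t * r), av (sc s0 k) (fun z => ‖fl s0 f k z‖) z := by
        apply setIntegral_mono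
        · exact (LB.of_cont (fl_cont hf s0 (k + 1)).norm).integrableOn isBounded_ball
        · exact (hLB.av _).integrableOn isBounded_ball
        · intro z
          show ‖fl s0 f (k + 1) z‖ ≤ av (sc s0 k) (fun z => ‖fl s0 f k z‖) z
          rw [fl_succ]
          exact norm_av_le _ _ _
    _ ≤ ∫ z in ball (x + t • q) (t * r + sc s0 k), ‖fl s0 f k z‖ :=
        int_ball_av_le hLB (fun z => norm_nonneg _) (sc_pos hs0 k).le _ _
    _ ≤ ∫ z in ball (x + t • q) (t * (r + a)), ‖fl s0 f k z‖ := by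
        apply ball_mono hfk.norm (fun z => norm_nonneg _)
        rw [mul_add]; linarith

lemma NN_nonneg {s0 : ℝ} (hs0 : 0 < s0) (f : Sp d → E) (m j : ℕ) (x y0 : Sp d) (R : ℝ) :
    0 ≤ NN s0 f m j x y0 R := by
  have hle : sc s0 j ≤ sc s0 (j + 1) := by rw [sc_succ]; linarith [sc_pos hs0 j]
  rw [NN_eq]
  exact intervalIntegral.integral_nonneg hle fun t _ => SL_nonneg _ _ _ _ _ _ _

lemma NN_mono {f : Sp d → E} (hf : Continuous f) {s0 : ℝ} (hs0 : 0 < s0) (m j : ℕ)
    (x y0 : Sp d) {R R' : ℝ} (h : R ≤ R') : NN s0 f m j x y0 R ≤ NN s0 f m j x y0 R' := by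
  have hle : sc s0 j ≤ sc s0 (j + 1) := by rw [sc_succ]; linarith [sc_pos hs0 j]
  rw [NN_eq, NN_eq]
  apply intervalIntegral.integral_mono_on hle
    ((SL_cont hf s0 _ x y0 R).intervalIntegrable _ _)
    ((SL_cont hf s0 _ x y0 R').intervalIntegrable _ _)
  intro t _
  exact SL_mono hf s0 _ x y0 h t

/-- one level down costs an enlargement of the cone -/
lemma NN_level {f : Sp d → E} (hf : Continuous f) {s0 : ℝ} (hs0 : 0 < s0) (m j : ℕ)
    (x y0 : Sp d) (r : ℝ) :
    NN s0 f m j x y0 r ≤ NN s0 f (m + 1) j x y0 (r + (1 / 8) ^ (m + 1)) := by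
  by_cases hmj : j ≤ m
  · have e1 : j - m = 0 := by omega
    have e2 : j - (m + 1) = 0 := by omega
    have h := NN_mono hf hs0 m j x y0 (R := r) (R' := r + (1 / 8) ^ (m + 1))
      (by have : (0 : ℝ) < (1 / 8) ^ (m + 1) := by positivity
          linarith)
    refine h.trans (le_of_eq ?_)
    rw [NN_eq, NN_eq, e1, e2]
  · push Not at hmj
    have hle : sc s0 j ≤ sc s0 (j + 1) := by rw [sc_succ]; linarith [sc_pos hs0 j]
    rw [NN_eq, NN_eq]
    apply intervalIntegral.integral_mono_on hle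
      ((SL_cont hf s0 _ x y0 _).intervalIntegrable _ _)
      ((SL_cont hf s0 _ x y0 _).intervalIntegrable _ _)
    intro t ht
    have htp : 0 < t := lt_of_lt_of_le (sc_pos hs0 j) ht.1
    have e1 : j - m = (j - (m + 1)) + 1 := by omega
    have e3 : sc s0 (j - (m + 1)) ≤ t * (1 / 8) ^ (m + 1) := by
      have e4 : sc s0 j = 8 ^ (m + 1) * sc s0 (j - (m + 1)) := by
        rw [← sc_add]; congr 1; omega
      have e5 : sc s0 (j - (m + 1)) = (1 / 8) ^ (m + 1) * sc s0 j := by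
        rw [e4, ← mul_assoc, ← mul_pow]; norm_num
      rw [e5, mul_comm]
      exact mul_le_mul_of_nonneg_right ht.1 (by positivity)
    rw [SL_split hf, SL_split hf, e1]
    exact add_le_add (slice_level hf hs0 _ x y0 r htp e3) (slice_level hf hs0 _ x (-y0) r htp e3)

/-- a crude bound -/
lemma NN_bound {f : Sp d → E} {M : ℝ} (hM : ∀ z, ‖f z‖ ≤ M) (hf : Continuous f) {s0 : ℝ}
    (hs0 : 0 < s0) (j : ℕ) (x y0 : Sp d) (ρ : ℝ) : ∃ K : ℝ, ∀ m : ℕ, ∀ r ≤ ρ,
      NN s0 f m j x y0 r ≤ K := by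
  have hle : sc s0 j ≤ sc s0 (j + 1) := by rw [sc_succ]; linarith [sc_pos hs0 j]
  refine ⟨∫ _ in (sc s0 j)..(sc s0 (j + 1)), ∫ _ in ball y0 ρ, (M + M), ?_⟩
  intro m r hr
  refine (NN_mono hf hs0 m j x y0 hr).trans ?_
  rw [NN_eq]
  apply intervalIntegral.integral_mono_on hle
    ((SL_cont hf s0 _ x y0 _).intervalIntegrable _ _)
    (continuous_const.intervalIntegrable _ _)
  intro t _
  have hb : ∀ n z, ‖fl s0 f n z‖ ≤ M := by
    intro n z
    refine (norm_kav_le (LB.of_cont hf) s0 0 n z).trans ?_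
    exact kav_le_of_le (LB.of_cont hf.norm) hM s0 0 n z
  have hfn : Continuous (fl s0 f (j - m)) := fl_cont hf s0 _
  apply setIntegral_mono
  · apply (LB.of_cont _).integrableOn isBounded_ball
    exact (hfn.comp (continuous_const.add (continuous_const_smul t))).norm.add
      (hfn.comp (continuous_const.sub (continuous_const_smul t))).norm
  · exact (LB.of_cont continuous_const).integrableOn isBounded_ball
  · intro y
    exact add_le_add (hb _ _) (hb _ _)

end Mass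

/-! ## the two sided functional is bounded by KProp -/

section Bound

variable {V E : Type} [NormedAddCommGroup V] [InnerProductSpace ℝ V] [FiniteDimensional ℝ V]
  [NormedAddCommGroup E] [InnerProductSpace ℝ E] [FiniteDimensional ℝ E]
  {L : (Sp d →L[ℝ] V) →L[ℝ] E}

/-- null fields are constant along the slices -/
lemma null_const {y0 : Sp d} {ρ B : ℝ} {w : Sp d → V} {τ : Sp d → E}
    (hc : IsCap L y0 ρ B w τ) {p : Sp d → V} (hp : Null L p) {y : Sp d} (hy : y ∈ ball y0 ρ) :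
    ⟪w y, p y⟫_ℝ = ⟪w y, p (-y)⟫_ℝ := by
  have hd : ∀ t : ℝ, HasDerivAt (fun t : ℝ => ⟪w y, p (t • y)⟫_ℝ) 0 t := by
    intro t
    have h1 : HasDerivAt (fun t : ℝ => t • y) y t := by
      simpa using (hasDerivAt_id t).smul_const y
    have h2 : HasFDerivAt p (fderiv ℝ p (t • y)) (t • y) :=
      (hp.1.differentiable (by simp) _).hasFDerivAt
    have h3 := h2.comp_hasDerivAt t h1
    have h4 := (hasDerivAt_const t (w y)).inner ℝ h3
    have h5 : ⟪w y, (fderiv ℝ p (t • y)) y⟫_ℝ = 0 := by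
      rw [hc.slice y hy, hp.2, inner_zero_left]
    simpa [h5] using h4
  have hconst := is_const_of_deriv_eq_zero (f := fun t : ℝ => ⟪w y, p (t • y)⟫_ℝ)
    (fun t => (hd t).differentiableAt) (fun t => (hd t).deriv) 1 (-1)
  simpa using hconst

lemma DD_bound {CK : ℝ} (hK : KProp L CK) {y0 : Sp d} {ρ B r l : ℝ} {w : Sp d → V}
    {τ : Sp d → E} {κ : Sp d → ℝ} (hc : IsCap L y0 ρ B w τ) (hκ : IsCut κ y0 r l) (hr : r ≤ ρ)
    {u : Sp d → V} (hu : TF u) {s0 : ℝ} (hs0 : 0 < s0) {j : ℕ} (hj : 1 ≤ j) (x : Sp d) :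
    |DD u w κ x (sc s0 j)| ≤ CK * (2 * B * (l + 1)) *
      (am s0 (fo L u) j x + er s0 (fo L u) j x) := by
  have hB := hc.B_pos
  have hl := hκ.l_nonneg
  set W : Sp d → V := fun y => κ y • w y with hW
  have hWl : ∀ y y', ‖W y - W y'‖ ≤ B * (l + 1) * ‖y - y'‖ := fun y y' =>
    cut_lip hc.B_pos hc.w_bd hc.w_lip hκ hr y y'
  have hWc : Continuous W := cont_of_lip hWl
  have hW0 : ∀ y, r ≤ ‖y - y0‖ → W y = 0 := fun y hy => by
    simp only [hW, hκ.supp y hy, zero_smul]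
  have hWs : HasCompactSupport W := cs_of_supp hW0
  have hW2 : ∀ y, 2 ≤ ‖y‖ → W y = 0 := by
    intro y hy
    apply hW0
    have h1 : ‖y‖ ≤ ‖y - y0‖ + ‖y0‖ := by
      have := norm_add_le (y - y0) y0
      rwa [sub_add_cancel] at this
    linarith [hc.inside, hc.ρ_pos]
  have hint : ∀ g : Sp d → V, Continuous g → Integrable fun y => ⟪W y, g y⟫_ℝ := by
    intro g hg
    apply (hWc.inner hg).integrable_of_hasCompactSupport
    exact hWs.mono' (fun y hy => by
      apply subset_closure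
      intro h0
      apply hy
      show ⟪W y, g y⟫_ℝ = 0
      rw [h0, inner_zero_left])
  have hsplit : ∀ g : Sp d → V, Continuous g → ∫ y, ⟪W y - W (-y), g y⟫_ℝ =
      (∫ y, ⟪W y, g y⟫_ℝ) - ∫ y, ⟪W y, g (-y)⟫_ℝ := by
    intro g hg
    have h1 : Integrable fun y => ⟪W (-y), g y⟫_ℝ := by
      have h2 := (hint (fun y => g (-y)) (hg.comp continuous_neg)).comp_neg
      refine h2.congr (Filter.Eventually.of_forall fun y => ?_)
      simp
    have h3 : ∫ y, ⟪W y, g (-y)⟫_ℝ = ∫ y, ⟪W (-y), g y⟫_ℝ := by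
      rw [← integral_neg_eq_self (fun y => ⟪W (-y), g y⟫_ℝ)]
      congr 1
      funext y
      simp
    rw [h3, ← integral_sub (hint g hg) h1]
    congr 1
    funext y
    rw [inner_sub_left]
  have hAnn : Ann L (fun y => W y - W (-y)) := by
    intro p hp
    rw [hsplit p hp.1.continuous, ← integral_sub (hint p hp.1.continuous)
      (hint (fun y => p (-y)) (hp.1.continuous.comp continuous_neg))]
    rw [← integral_zero (Sp d) ℝ]
    congr 1
    funext y
    by_cases hy : y ∈ ball y0 ρ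
    · simp only [hW, real_inner_smul_left]
      rw [null_const hc hp hy, sub_self]
    · have : W y = 0 := by
        apply hW0
        rw [mem_ball, dist_eq_norm] at hy
        linarith
      rw [this, inner_zero_left, inner_zero_left, sub_self]
  have key := hK u hu s0 hs0 j hj x (fun y => W y - W (-y)) (2 * B * (l + 1)) (by positivity)
    (fun y y' => by
      have e : W y - W (-y) - (W y' - W (-y')) = (W y - W y') - (W (-y) - W (-y')) := by abel
      rw [e]
      refine (norm_sub_le _ _).trans ?_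
      have h1 := hWl y y'
      have h2 := hWl (-y) (-y')
      rw [show -y - -y' = -(y - y') by abel, norm_neg] at h2
      linarith)
    (fun y hy => by
      rw [hW2 y hy, hW2 (-y) (by rwa [norm_neg]), sub_zero]) hAnn
  have hDD : DD u w κ x (sc s0 j) = ∫ y, ⟪W y - W (-y), u (x + sc s0 j • y)⟫_ℝ := by
    have huc : Continuous fun y : Sp d => u (x + sc s0 j • y) :=
      hu.smooth.continuous.comp (continuous_const.add (continuous_const_smul _))
    rw [hsplit _ huc]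
    unfold DD YY
    congr 1
    · congr 1
      funext y
      simp only [hW, real_inner_smul_left]
    · congr 1
      funext y
      simp only [hW, real_inner_smul_left, smul_neg, neg_smul]
  rw [hDD]
  exact key

end Bound

/-! ## the iteration -/

lemma iter {X : ℕ → ℝ} {A M : ℝ} (hA : 0 ≤ A) (hX : ∀ n, X n ≤ A * 2 ^ n + 1 / 4 * X (n + 1))
    (hM : ∀ n, X n ≤ M) : X 0 ≤ 2 * A := by
  have h1 : ∀ n, X 0 ≤ 2 * A * (1 - (1 / 2) ^ n) + (1 / 4) ^ n * X n := by
    intro n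
    induction n with
    | zero => simp
    | succ n ih =>
      have h2 : (1 / 4 : ℝ) ^ n * X n ≤ (1 / 4) ^ n * (A * 2 ^ n + 1 / 4 * X (n + 1)) :=
        mul_le_mul_of_nonneg_left (hX n) (by positivity)
      have h3 : (1 / 4 : ℝ) ^ n * 2 ^ n = (1 / 2) ^ n := by
        rw [← mul_pow]; norm_num
      have h4 : (1 / 4 : ℝ) ^ n * (A * 2 ^ n + 1 / 4 * X (n + 1)) =
          A * (1 / 2) ^ n + (1 / 4) ^ (n + 1) * X (n + 1) := by
        rw [← h3, pow_succ]; ring
      rw [h4] at h2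
      have h5 : 2 * A * (1 - (1 / 2) ^ (n + 1)) = 2 * A * (1 - (1 / 2) ^ n) + A * (1 / 2) ^ n := by
        rw [pow_succ]; ring
      rw [h5]
      linarith
  have h2 : ∀ n, X 0 ≤ 2 * A + (1 / 4 : ℝ) ^ n * |M| := by
    intro n
    refine (h1 n).trans ?_
    have h3 : (1 / 4 : ℝ) ^ n * X n ≤ (1 / 4) ^ n * |M| :=
      mul_le_mul_of_nonneg_left ((hM n).trans (le_abs_self M)) (by positivity)
    have h4 : 0 ≤ A * (1 / 2 : ℝ) ^ n := by positivity
    nlinarith
  have h3 : Filter.Tendsto (fun n : ℕ => 2 * A + (1 / 4 : ℝ) ^ n * |M|) Filter.atTop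
      (nhds (2 * A + 0 * |M|)) :=
    tendsto_const_nhds.add
      ((tendsto_pow_atTop_nhds_zero_of_lt_one (by norm_num) (by norm_num)).mul_const _)
  have h4 := ge_of_tendsto' h3 h2
  simpa using h4

lemma sum_tel (g : ℕ → ℝ) {a b : ℕ} (h : a ≤ b) :
    ∑ j ∈ Finset.Ico a b, (g (j + 1) - g j) = g b - g a := by
  induction b, h using Nat.le_induction with
  | base => simp
  | succ n hn ih => rw [Finset.sum_Ico_succ_top hn, ih]; ring

section Nonneg

variable {E : Type} [NormedAddCommGroup E] [InnerProductSpace ℝ E] [FiniteDimensional ℝ E]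

lemma er_nn {s0 : ℝ} (hs0 : 0 < s0) (f : Sp d → E) (j : ℕ) (x : Sp d) : 0 ≤ er s0 f j x := by
  unfold er
  apply mul_nonneg (sc_pos hs0 j).le
  apply Finset.sum_nonneg
  intro k _
  exact mul_nonneg (by positivity) (kav_nonneg (gap_nonneg s0 f k) s0 _ _ _)

lemma am_nn {s0 : ℝ} (hs0 : 0 < s0) (f : Sp d → E) (j : ℕ) (x : Sp d) : 0 ≤ am s0 f j x := by
  unfold am
  have := sc_pos hs0 j
  exact mul_nonneg (by positivity) (integral_nonneg fun z => norm_nonneg _)

/-- the quantity on the right hand side of the estimates -/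
def QQ (s0 : ℝ) (f : Sp d → E) (j1 j2 : ℕ) (x : Sp d) : ℝ :=
  am s0 f j1 x + am s0 f j2 x + ∑ j ∈ Finset.Icc j1 j2, er s0 f j x

lemma QQ_nonneg {s0 : ℝ} (hs0 : 0 < s0) (f : Sp d → E) (j1 j2 : ℕ) (x : Sp d) :
    0 ≤ QQ s0 f j1 j2 x :=
  add_nonneg (add_nonneg (am_nn hs0 f _ x) (am_nn hs0 f _ x))
    (Finset.sum_nonneg fun j _ => er_nn hs0 f j x)

lemma sum_er_le {s0 : ℝ} (hs0 : 0 < s0) (f : Sp d → E) (j1 j2 : ℕ) (x : Sp d) :
    ∑ j ∈ Finset.Ico j1 j2, er s0 f j x ≤ QQ s0 f j1 j2 x := by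
  have h1 : ∑ j ∈ Finset.Ico j1 j2, er s0 f j x ≤ ∑ j ∈ Finset.Icc j1 j2, er s0 f j x :=
    Finset.sum_le_sum_of_subset_of_nonneg Finset.Ico_subset_Icc_self
      fun j _ _ => er_nn hs0 f j x
  unfold QQ
  linarith [am_nn hs0 f j1 x, am_nn hs0 f j2 x]

lemma one_er_le {s0 : ℝ} (hs0 : 0 < s0) (f : Sp d → E) {j1 j2 : ℕ} (x : Sp d) {j : ℕ}
    (hj : j ∈ Finset.Icc j1 j2) : er s0 f j x ≤ ∑ j ∈ Finset.Icc j1 j2, er s0 f j x :=
  Finset.single_le_sum (f := fun j => er s0 f j x) (fun j _ => er_nn hs0 f j x) hj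

end Nonneg

end HF

open LI HF

theorem stmtHF (hLI : StmtLI) : StmtHF := by
  intro d V E _ _ _ _ _ _ L CK hK y0 ρ B c0 w τ hc hc0
  obtain ⟨CL, hCL, hLIc⟩ := hLI d V E L y0 ρ B c0 w τ hc hc0
  have hρ := hc.ρ_pos
  have hB := hc.B_pos
  set Λ : ℝ := 8 / ρ + 1 with hΛ
  have hΛp : 0 < Λ := by positivity
  obtain ⟨m1, hm1⟩ : ∃ m1 : ℕ, (1 / 8 : ℝ) ^ m1 < ρ / 16 :=
    exists_pow_lt_of_lt_one (by positivity) (by norm_num)
  obtain ⟨m2, hm2⟩ : ∃ m2 : ℕ, (1 / 8 : ℝ) ^ m2 < c0 / 8 / (CL * Λ + 1) :=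
    exists_pow_lt_of_lt_one (by positivity) (by norm_num)
  set A' : ℝ := 4 * |CK| * B * Λ + CL * (1 + Λ) with hA'
  have hA'0 : 0 ≤ A' := by positivity
  refine ⟨2 * (2 / c0 * A'), max m1 m2, by positivity, ?_⟩
  intro u hu s0 hs0 x j1 j2 hj1 hj12 hV m hm
  set f : Sp d → E := fo L u with hf
  have hfc : Continuous f := fo_cont hu
  have hfs : HasCompactSupport f := fo_cs hu
  obtain ⟨M, hM⟩ := hfc.bounded_above_of_compact_support hfs
  have he1 : (1 / 8 : ℝ) ^ m ≤ ρ / 16 :=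
    (pow_le_pow_of_le_one (by norm_num) (by norm_num) ((le_max_left _ _).trans hm)).trans hm1.le
  have he2 : CL * Λ * (1 / 8 : ℝ) ^ m ≤ c0 / 8 := by
    have h1 : (1 / 8 : ℝ) ^ m ≤ c0 / 8 / (CL * Λ + 1) :=
      (pow_le_pow_of_le_one (by norm_num) (by norm_num) ((le_max_right _ _).trans hm)).trans hm2.le
    have h2 : 0 < CL * Λ + 1 := by positivity
    rw [le_div_iff₀ h2] at h1
    nlinarith [pow_pos (show (0 : ℝ) < 1 / 8 by norm_num) m]
  set Q := QQ s0 f j1 j2 x with hQ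
  have hQ0 : 0 ≤ Q := QQ_nonneg hs0 f j1 j2 x
  set R : ℕ → ℝ := fun n => ρ / 2 + ρ / 4 * (1 - (1 / 2) ^ n) + 9 / 7 * (1 / 8) ^ m *
    (1 - (1 / 8) ^ n) with hR
  have hRle : ∀ n, R n ≤ ρ := by
    intro n
    have h1 : (0 : ℝ) < (1 / 2) ^ n := by positivity
    have h2 : (0 : ℝ) < (1 / 8) ^ n := by positivity
    have h3 : (0 : ℝ) < (1 / 8) ^ m := by positivity
    have h4 : (9 / 7 * (1 / 8) ^ m * (1 - (1 / 8) ^ n) : ℝ) ≤ 9 / 7 * (1 / 8) ^ m := by
      have : (0 : ℝ) ≤ 9 / 7 * (1 / 8) ^ m * (1 / 8) ^ n := by positivity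
      nlinarith
    have h5 : ρ / 4 * (1 - (1 / 2) ^ n) ≤ ρ / 4 := by
      have : 0 ≤ ρ / 4 * (1 / 2) ^ n := by positivity
      nlinarith
    simp only [hR]
    linarith
  have hRs : ∀ n, R (n + 1) = R n + ρ / 8 * (1 / 2) ^ n + (1 / 8) ^ (m + n) +
      (1 / 8) ^ (m + n + 1) := by
    intro n
    simp only [hR]
    rw [pow_succ, pow_succ, pow_succ, pow_add]
    ring
  set X : ℕ → ℝ := fun n => ∑ j ∈ Finset.Ico j1 j2, NN s0 f (m + n) j x y0 (R n) with hX
  have hXb : ∃ K, ∀ n, X n ≤ K := by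
    choose K hK using fun j => NN_bound hM hfc hs0 j x y0 ρ
    exact ⟨∑ j ∈ Finset.Ico j1 j2, K j, fun n => Finset.sum_le_sum fun j _ =>
      hK j (m + n) (R n) (hRle n)⟩
  obtain ⟨K, hKX⟩ := hXb
  have hXrec : ∀ n, X n ≤ (2 / c0 * A' * (2 ^ m * Q)) * 2 ^ n + 1 / 4 * X (n + 1) := by
    intro n
    set δ : ℝ := ρ / 8 * (1 / 2) ^ n with hδ
    have hδp : 0 < δ := by positivity
    have hr : R n + δ ≤ ρ := by
      have h1 := hRs n
      have h2 := hRle (n + 1)
      have h3 : (0 : ℝ) < (1 / 8) ^ (m + n) := by positivity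
      have h4 : (0 : ℝ) < (1 / 8) ^ (m + n + 1) := by positivity
      linarith
    have hlt : R n < R n + δ := by linarith
    have hcut := hat_cut y0 hlt
    set l : ℝ := 1 / (R n + δ - R n) with hl
    have hl0 := hcut.l_nonneg
    have hlΛ : l + 1 ≤ Λ * 2 ^ n := by
      have e1 : l = 8 / ρ * 2 ^ n := by
        rw [hl, add_sub_cancel_left, hδ]
        have : (1 / 2 : ℝ) ^ n = (2 ^ n)⁻¹ := by rw [one_div, inv_pow]
        rw [this]
        field_simp
      have e2 : (1 : ℝ) ≤ 2 ^ n := one_le_pow₀ (by norm_num)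
      rw [e1, hΛ]
      nlinarith
    have hstep : ∀ j ∈ Finset.Ico j1 j2, c0 / 2 * NN s0 f (m + n) j x y0 (R n) ≤
        (DD u w (hat y0 (R n) (R n + δ)) x (sc s0 (j + 1)) -
          DD u w (hat y0 (R n) (R n + δ)) x (sc s0 j)) +
        CL * Λ * (1 / 8) ^ m * NN s0 f (m + (n + 1)) j x y0 (R (n + 1)) +
        CL * (1 + Λ) * (2 ^ m * 2 ^ n) * er s0 f j x := by
      intro j hj
      have h1 := hLIc u hu s0 hs0 (m + n) j x x (by simpa using (sc_pos hs0 j).le) (hV j hj)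
        (hat y0 (R n) (R n + δ)) l (R n + δ) (R n) hcut hr (hat_nonneg _ _ _) (hat_one _ hlt)
      have h2 : NN s0 f (m + n) j x y0 (R n + δ + (1 / 8) ^ (m + n)) ≤
          NN s0 f (m + (n + 1)) j x y0 (R (n + 1)) := by
        have h3 := NN_level hfc hs0 (m + n) j x y0 (R n + δ + (1 / 8) ^ (m + n))
        rw [hRs n, ← add_assoc m n 1]
        exact h3
      have hN0 : 0 ≤ NN s0 f (m + (n + 1)) j x y0 (R (n + 1)) := NN_nonneg hs0 _ _ _ _ _ _
      have her : 0 ≤ er s0 f j x := er_nn hs0 f j x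
      have h3 : CL * (l + 1) * (1 / 8) ^ (m + n) * NN s0 f (m + n) j x y0
          (R n + δ + (1 / 8) ^ (m + n)) ≤
          CL * Λ * (1 / 8) ^ m * NN s0 f (m + (n + 1)) j x y0 (R (n + 1)) := by
        have e1 : CL * (l + 1) * (1 / 8) ^ (m + n) ≤ CL * Λ * (1 / 8) ^ m := by
          have e2 : (l + 1) * (1 / 8) ^ (m + n) ≤ Λ * (1 / 8) ^ m := by
            calc (l + 1) * (1 / 8) ^ (m + n) ≤ (Λ * 2 ^ n) * (1 / 8) ^ (m + n) :=
                  mul_le_mul_of_nonneg_right hlΛ (by positivity)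
              _ = Λ * (1 / 8) ^ m * (1 / 4) ^ n := by
                  rw [pow_add, show (1 / 4 : ℝ) = 2 * (1 / 8) by norm_num, mul_pow]; ring
              _ ≤ Λ * (1 / 8) ^ m * 1 := by
                  apply mul_le_mul_of_nonneg_left _ (by positivity)
                  exact pow_le_one₀ (by norm_num) (by norm_num)
              _ = Λ * (1 / 8) ^ m := mul_one _
          calc CL * (l + 1) * (1 / 8) ^ (m + n) = CL * ((l + 1) * (1 / 8) ^ (m + n)) := by ring
            _ ≤ CL * (Λ * (1 / 8) ^ m) := mul_le_mul_of_nonneg_left e2 hCL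
            _ = CL * Λ * (1 / 8) ^ m := by ring
        exact mul_le_mul e1 h2 (NN_nonneg hs0 _ _ _ _ _ _) (by positivity)
      have h4 : CL * (2 ^ (m + n) + l + 1) * er s0 f j x ≤
          CL * (1 + Λ) * (2 ^ m * 2 ^ n) * er s0 f j x := by
        apply mul_le_mul_of_nonneg_right _ her
        rw [mul_assoc]
        apply mul_le_mul_of_nonneg_left _ hCL
        have e2 : (1 : ℝ) ≤ 2 ^ m := one_le_pow₀ (by norm_num)
        have e3 : Λ * 2 ^ n ≤ Λ * (2 ^ m * 2 ^ n) := by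
          apply mul_le_mul_of_nonneg_left _ hΛp.le
          nlinarith [pow_pos (show (0 : ℝ) < 2 by norm_num) n]
        rw [pow_add]
        nlinarith
      linarith
    have hsum := Finset.sum_le_sum hstep
    rw [← Finset.mul_sum, Finset.sum_add_distrib, Finset.sum_add_distrib,
      sum_tel (fun j => DD u w (hat y0 (R n) (R n + δ)) x (sc s0 j)) hj12, ← Finset.mul_sum,
      ← Finset.mul_sum] at hsum
    have hj2 : 1 ≤ j2 := hj1.trans hj12
    have hdd : ∀ j ∈ Finset.Icc j1 j2, (am s0 f j x + er s0 f j x ≤ Q) →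
        |DD u w (hat y0 (R n) (R n + δ)) x (sc s0 j)| ≤ 2 * |CK| * B * Λ * (2 ^ m * 2 ^ n) * Q := by
      intro j hj hjQ
      have hj1' : 1 ≤ j := hj1.trans (Finset.mem_Icc.1 hj).1
      refine (DD_bound hK hc hcut hr hu hs0 hj1' x).trans ?_
      have e0 : 0 ≤ am s0 f j x + er s0 f j x := add_nonneg (am_nn hs0 f j x) (er_nn hs0 f j x)
      have e1 : CK * (2 * B * (l + 1)) ≤ 2 * |CK| * B * Λ * (2 ^ m * 2 ^ n) := by
        have e2 : (1 : ℝ) ≤ 2 ^ m := one_le_pow₀ (by norm_num)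
        have e3 : Λ * 2 ^ n ≤ Λ * (2 ^ m * 2 ^ n) := by
          apply mul_le_mul_of_nonneg_left _ hΛp.le
          nlinarith [pow_pos (show (0 : ℝ) < 2 by norm_num) n]
        calc CK * (2 * B * (l + 1)) ≤ |CK| * (2 * B * (l + 1)) :=
              mul_le_mul_of_nonneg_right (le_abs_self CK) (by positivity)
          _ ≤ |CK| * (2 * B * (Λ * (2 ^ m * 2 ^ n))) := by
              apply mul_le_mul_of_nonneg_left _ (abs_nonneg CK)
              apply mul_le_mul_of_nonneg_left _ (by positivity)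
              exact hlΛ.trans e3
          _ = 2 * |CK| * B * Λ * (2 ^ m * 2 ^ n) := by ring
      exact mul_le_mul e1 hjQ e0 (by positivity)
    have hQ1 : am s0 f j1 x + er s0 f j1 x ≤ Q := by
      have := one_er_le hs0 f (j1 := j1) (j2 := j2) x (j := j1) (Finset.mem_Icc.2 ⟨le_rfl, hj12⟩)
      rw [hQ]; unfold QQ
      linarith [am_nn hs0 f j2 x]
    have hQ2 : am s0 f j2 x + er s0 f j2 x ≤ Q := by
      have := one_er_le hs0 f (j1 := j1) (j2 := j2) x (j := j2) (Finset.mem_Icc.2 ⟨hj12, le_rfl⟩)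
      rw [hQ]; unfold QQ
      linarith [am_nn hs0 f j1 x]
    have hd1 := hdd j1 (Finset.mem_Icc.2 ⟨le_rfl, hj12⟩) hQ1
    have hd2 := hdd j2 (Finset.mem_Icc.2 ⟨hj12, le_rfl⟩) hQ2
    have hS := sum_er_le hs0 f j1 j2 x
    rw [← hQ] at hS
    have hS' : CL * (1 + Λ) * (2 ^ m * 2 ^ n) * ∑ j ∈ Finset.Ico j1 j2, er s0 f j x ≤
        CL * (1 + Λ) * (2 ^ m * 2 ^ n) * Q := mul_le_mul_of_nonneg_left hS (by positivity)
    have hX1 : CL * Λ * (1 / 8) ^ m * X (n + 1) ≤ c0 / 8 * X (n + 1) := by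
      apply mul_le_mul_of_nonneg_right he2
      exact Finset.sum_nonneg fun j _ => NN_nonneg hs0 _ _ _ _ _ _
    have hfin : c0 / 2 * X n ≤ A' * (2 ^ m * 2 ^ n) * Q + c0 / 8 * X (n + 1) := by
      have e1 := (abs_le.1 hd1).1
      have e2 := (abs_le.1 hd2).2
      have e3 : c0 / 2 * X n ≤ DD u w (hat y0 (R n) (R n + δ)) x (sc s0 j2) -
          DD u w (hat y0 (R n) (R n + δ)) x (sc s0 j1) + CL * Λ * (1 / 8) ^ m * X (n + 1) +
          CL * (1 + Λ) * (2 ^ m * 2 ^ n) * ∑ j ∈ Finset.Ico j1 j2, er s0 f j x := hsum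
      rw [hA']
      linarith
    have h2c : 0 < 2 / c0 := by positivity
    have hm := mul_le_mul_of_nonneg_left hfin h2c.le
    have e1 : 2 / c0 * (c0 / 2 * X n) = X n := by field_simp
    have e2 : 2 / c0 * (A' * (2 ^ m * 2 ^ n) * Q + c0 / 8 * X (n + 1)) =
        2 / c0 * A' * (2 ^ m * Q) * 2 ^ n + 1 / 4 * X (n + 1) := by
      field_simp
      ring
    rwa [e1, e2] at hm
  have hfinal := iter (X := X) (A := 2 / c0 * A' * (2 ^ m * Q)) (M := K) (by positivity)
    hXrec hKX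
  have hX0 : X 0 = ∑ j ∈ Finset.Ico j1 j2, NN s0 f m j x y0 (ρ / 2) := by
    simp [hX, hR]
  rw [hX0] at hfinal
  refine hfinal.trans (le_of_eq ?_)
  rw [hQ]; unfold QQ
  ring

theorem stmtTV (hLT : StmtLT) (hHF : StmtHF) : StmtTV := by
  intro d V E _ _ _ _ _ _ L CK hK y0 ρ B c0 w τ hc hc0 κ l hκ
  obtain ⟨CT, hCT, hLTc⟩ := hLT d V E L y0 ρ B w τ hc
  obtain ⟨CH, m0, hCH, hHFc⟩ := hHF d V E L CK hK y0 ρ B c0 w τ hc hc0
  have hρ := hc.ρ_pos
  have hl := hκ.l_nonneg
  obtain ⟨m1, hm1⟩ : ∃ m1 : ℕ, (1 / 8 : ℝ) ^ m1 < ρ / 4 :=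
    exists_pow_lt_of_lt_one (by positivity) (by norm_num)
  set m := max m0 m1 with hm
  refine ⟨CT * (l + 1) * (CH * 2 ^ m + 1), by positivity, ?_⟩
  intro u hu s0 hs0 x j1 j2 hj1 hj12 hV
  set f : Sp d → E := fo L u with hf
  have hfc : Continuous f := fo_cont hu
  have he : ρ / 4 + (1 / 8 : ℝ) ^ m ≤ ρ / 2 := by
    have h1 : (1 / 8 : ℝ) ^ m ≤ (1 / 8) ^ m1 :=
      pow_le_pow_of_le_one (by norm_num) (by norm_num) (le_max_right _ _)
    linarith
  have h1 := hHFc u hu s0 hs0 x j1 j2 hj1 hj12 hV m (le_max_left _ _)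
  have h2 : |YY u w κ x (sc s0 j2) - YY u w κ x (sc s0 j1)| ≤ ∑ j ∈ Finset.Ico j1 j2,
      CT * (l + 1) * (NN s0 f m j x y0 (ρ / 2) + er s0 f j x) := by
    rw [← sum_tel (fun j => YY u w κ x (sc s0 j)) hj12]
    refine (Finset.abs_sum_le_sum_abs _ _).trans (Finset.sum_le_sum fun j _ => ?_)
    refine (hLTc u hu s0 hs0 m j x κ l (ρ / 4) hκ (by linarith)).trans ?_
    apply mul_le_mul_of_nonneg_left _ (by positivity)
    have := NN_mono hfc hs0 m j x y0 he
    linarith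
  rw [← Finset.mul_sum, Finset.sum_add_distrib] at h2
  have h3 := sum_er_le hs0 f j1 j2 x
  refine h2.trans ?_
  rw [mul_assoc (CT * (l + 1))]
  apply mul_le_mul_of_nonneg_left _ (by positivity)
  have h4 : CH * 2 ^ m * (am s0 (fo L u) j1 x + am s0 (fo L u) j2 x +
      ∑ j ∈ Finset.Icc j1 j2, er s0 (fo L u) j x) = CH * 2 ^ m * QQ s0 f j1 j2 x := rfl
  rw [h4] at h1
  have h5 : (CH * 2 ^ m + 1) * (am s0 (fo L u) j1 x + am s0 (fo L u) j2 x +
      ∑ j ∈ Finset.Icc j1 j2, er s0 (fo L u) j x) = (CH * 2 ^ m + 1) * QQ s0 f j1 j2 x := rfl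
  rw [h5]
  linarith

end

end TrI
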