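import Pool.Agent.TR.Basic
import Pool.Agent.TR.Stmts

/-!
# Trace inequality: module INT (integration of the pointwise estimate)
-/

open MeasureTheory Metric Set Filter
open scoped InnerProductSpace ContDiff Topology

namespace TrI

noncomputable section

variable {d : ℕ}

section Operator

variable {V E : Type} [NormedAddCommGroup V] [InnerProductSpace ℝ V] [FiniteDimensional ℝ V]
  [NormedAddCommGroup E] [InnerProductSpace ℝ E] [FiniteDimensional ℝ E]

lemma fo_continuous (L : (Sp d →L[ℝ] V) →L[ℝ] E) {u : Sp d → V} (hu : TF u) :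
    Continuous (fo L u) :=
  L.continuous.comp (hu.smooth.continuous_fderiv (by simp))

lemma fo_compact (L : (Sp d →L[ℝ] V) →L[ℝ] E) {u : Sp d → V} (hu : TF u) :
    HasCompactSupport (fo L u) :=
  (hu.supp.fderiv (𝕜 := ℝ)).comp_left (g := fun M => L M) (map_zero L)

lemma exists_lip {u : Sp d → V} (hu : TF u) :
    ∃ Lu : ℝ, 0 ≤ Lu ∧ ∀ y y', ‖u y - u y'‖ ≤ Lu * ‖y - y'‖ := by
  obtain ⟨C, hC⟩ := hu.smooth.lipschitzWith_of_hasCompactSupport hu.supp (by simp)
  refine ⟨C, C.2, fun y y' => ?_⟩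
  have := hC.dist_le_mul y y'
  rwa [dist_eq_norm, dist_eq_norm] at this

lemma integral_norm_scaled (u : Sp d → V) (x : Sp d) {t : ℝ} (ht : 0 < t) :
    ∫ y, ‖u (x + t • y)‖ = (t ^ d)⁻¹ * ∫ z, ‖u z‖ := by
  have h1 := Measure.integral_comp_smul (volume : Measure (Sp d)) (fun z => ‖u (x + z)‖) t
  rw [h1, finrank_euclideanSpace, Fintype.card_fin, abs_of_pos (by positivity), smul_eq_mul]
  congr 1
  exact integral_add_left_eq_self (μ := (volume : Measure (Sp d))) (fun z => ‖u z‖) x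

lemma integrable_scaled {u : Sp d → V} (hu : TF u) (x : Sp d) {t : ℝ} (ht : 0 < t) :
    Integrable (fun y => ‖u (x + t • y)‖) := by
  have h0 : Integrable u := hu.smooth.continuous.integrable_of_hasCompactSupport hu.supp
  have h1 : Integrable (fun z => ‖u (x + z)‖) := (h0.norm).comp_add_left x
  exact (integrable_comp_smul_iff (volume : Measure (Sp d)) (fun z => ‖u (x + z)‖) ht.ne').mpr h1

lemma YY_le {L : (Sp d →L[ℝ] V) →L[ℝ] E} {y0 : Sp d} {ρ B : ℝ} {w : Sp d → V} {τ : Sp d → E}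
    (hc : IsCap L y0 ρ B w τ) {κ : Sp d → ℝ} {l : ℝ} (hκ : IsCut κ y0 (ρ / 4) l) {u : Sp d → V}
    (hu : TF u) (x : Sp d) {t : ℝ} (ht : 0 < t) :
    |YY u w κ x t| ≤ B * ((t ^ d)⁻¹ * ∫ z, ‖u z‖) := by
  rw [← integral_norm_scaled u x ht, ← integral_const_mul]
  rw [← Real.norm_eq_abs]
  refine norm_integral_le_of_norm_le ((integrable_scaled hu x ht).const_mul B) ?_
  refine Eventually.of_forall fun y => ?_
  have hB := hc.B_pos
  by_cases hy : ρ / 4 ≤ ‖y - y0‖
  · rw [hκ.supp y hy, zero_mul, norm_zero]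
    positivity
  · push Not at hy
    have hρ := hc.ρ_pos
    have hyb : y ∈ ball y0 ρ := by
      rw [mem_ball, dist_eq_norm]
      linarith
    rw [norm_mul, Real.norm_eq_abs, Real.norm_eq_abs]
    calc |κ y| * |⟪w y, u (x + t • y)⟫_ℝ| ≤ 1 * (‖w y‖ * ‖u (x + t • y)‖) := by
          refine mul_le_mul (hκ.bd y) (abs_real_inner_le_norm _ _) (abs_nonneg _) zero_le_one
      _ ≤ B * ‖u (x + t • y)‖ := by
          rw [one_mul]
          exact mul_le_mul_of_nonneg_right (hc.w_bd y hyb) (norm_nonneg _)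

lemma UC_le {L : (Sp d →L[ℝ] V) →L[ℝ] E} {c : E} {ε : ℝ} (K : Chart L c ε) {u : Sp d → V}
    (hu : TF u) (x : Sp d) {t : ℝ} (ht : 0 < t) :
    ‖K.UC u x t‖ ≤ (∑ a, K.B * ‖K.q a‖) * ((t ^ d)⁻¹ * ∫ z, ‖u z‖) := by
  unfold Chart.UC
  refine (norm_sum_le _ _).trans ?_
  rw [Finset.sum_mul]
  refine Finset.sum_le_sum fun a _ => ?_
  rw [norm_smul, Real.norm_eq_abs]
  have := YY_le (K.cap a) (K.cut a) hu x ht
  calc |YY u (K.w a) (K.κ a) x t| * ‖K.q a‖ ≤ (K.B * ((t ^ d)⁻¹ * ∫ z, ‖u z‖)) * ‖K.q a‖ :=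
        mul_le_mul_of_nonneg_right this (norm_nonneg _)
    _ = _ := by ring

/-- uniform decay of the chart value at large distances -/
lemma UC_small (hd : 1 ≤ d) {L : (Sp d →L[ℝ] V) →L[ℝ] E} {c : E} {ε : ℝ} (K : Chart L c ε)
    {u : Sp d → V} (hu : TF u) {s0 : ℝ} (hs0 : 0 < s0) {η : ℝ} (hη : 0 < η) :
    ∃ J : ℕ, 1 ≤ J ∧ ∀ x, ‖K.UC u x (sc s0 J)‖ ≤ η := by
  set M : ℝ := (∑ a, K.B * ‖K.q a‖) * ∫ z, ‖u z‖ with hM
  have hM0 : 0 ≤ M := by
    refine mul_nonneg (Finset.sum_nonneg fun a _ => mul_nonneg (K.cap a).B_pos.le (norm_nonneg _))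
      (integral_nonneg fun _ => norm_nonneg _)
  have htend : Tendsto (fun J : ℕ => sc s0 J) atTop atTop := by
    unfold sc
    exact (tendsto_pow_atTop_atTop_of_one_lt (by norm_num : (1 : ℝ) < 8)).const_mul_atTop hs0
  obtain ⟨J, hJ1, hJ2⟩ := ((eventually_ge_atTop 1).and
    (htend.eventually_ge_atTop (max 1 (M / η)))).exists
  refine ⟨J, hJ1, fun x => ?_⟩
  have ht : 0 < sc s0 J := sc_pos hs0 J
  have ht1 : 1 ≤ sc s0 J := (le_max_left _ _).trans hJ2
  have ht2 : M / η ≤ sc s0 J := (le_max_right _ _).trans hJ2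
  have hpow : sc s0 J ≤ sc s0 J ^ d := le_self_pow₀ ht1 (by omega)
  calc ‖K.UC u x (sc s0 J)‖ ≤ (∑ a, K.B * ‖K.q a‖) * ((sc s0 J ^ d)⁻¹ * ∫ z, ‖u z‖) :=
        UC_le K hu x ht
    _ = M / sc s0 J ^ d := by rw [hM]; field_simp
    _ ≤ M / sc s0 J := div_le_div_of_nonneg_left hM0 ht hpow
    _ ≤ η := by
        rw [div_le_iff₀ ht]
        rw [div_le_iff₀ hη] at ht2
        linarith

end Operator

/-- MODULE INT -/
theorem stmtAbs (hPt : StmtPt) (hLab : StmtLab) (hMu : StmtMu) (hCh : StmtCharts)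
    (hDev : StmtDev) : StmtAbs := by
  intro d hd V E _ _ _ _ _ _ _ L CK hK hL C' hC'
  obtain ⟨ε, n, lab, hε, hε1, hlab, hnet, ⟨ch⟩⟩ := hCh d V E L hL
  obtain ⟨e0, he0⟩ : ∃ e : E, ‖e‖ = 1 := exists_norm_eq E zero_le_one
  obtain ⟨i0, -⟩ := hnet e0 he0
  have hn : 0 < n := lt_of_le_of_lt (Nat.zero_le _) i0.2
  obtain ⟨δ, hδ, hPt'⟩ := hPt d V E L CK hK ε n lab hε hε1 hlab hnet ch
  obtain ⟨c, hc, hLab'⟩ := hLab d
  obtain ⟨Cp, hCp, hPt''⟩ := hPt' c hc
  obtain ⟨Cm, hCm, hMu'⟩ := hMu d hd C' hC'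
  obtain ⟨Cd, hCd, hDev'⟩ := hDev d
  refine ⟨Cp * Cm * (2 + 8 / ε ^ 2) + 1, by positivity, ?_⟩
  intro μ hμ hgrow u hu
  set f : Sp d → E := fo L u with hf
  have hfc : Continuous f := fo_continuous L hu
  have hfs : HasCompactSupport f := fo_compact L hu
  obtain ⟨Lu, hLu0, hLu⟩ := exists_lip hu
  set K : Set (Sp d) := tsupport u with hKdef
  have hKc : IsCompact K := hu.supp
  have hKm : MeasurableSet K := hKc.measurableSet
  have hμK : μ K < ⊤ := hKc.measure_lt_top
  set F : ENNReal := ∫⁻ x, ‖f x‖ₑ with hF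
  have hfi : Integrable f := hfc.integrable_of_hasCompactSupport hfs
  -- it suffices to prove the inequality with a small error
  have key : ∀ η : ℝ, 0 < η → ∫⁻ x, ‖u x‖ₑ ∂μ ≤
      ENNReal.ofReal (Cp * Cm * (2 + 8 / ε ^ 2)) * F + ENNReal.ofReal η * μ K := by
    intro η hη
    obtain ⟨s0, hs0, hs0η⟩ : ∃ s0 : ℝ, 0 < s0 ∧ Cp * s0 * Lu ≤ η / 2 := by
      refine ⟨η / 2 / (Cp * Lu + 1), by positivity, ?_⟩
      rw [mul_comm Cp, mul_assoc, div_mul_eq_mul_div, div_le_iff₀ (by positivity)]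
      nlinarith [mul_nonneg hCp hLu0]
    obtain ⟨J, hJ, hUC⟩ := UC_small hd (ch i0) hu hs0 (half_pos hη)
    obtain ⟨U, hU⟩ := hLab' E f hfc hfs s0 ε δ hs0 hε hε1 hδ n lab hn hlab hnet J
    have hDF := hDev' E f hfc hfs s0 hs0
    have hP := hPt'' u hu s0 hs0 J hJ U hU Lu hLu
    obtain ⟨hmu1, hmu2, hmu3⟩ := hMu' E μ hμ hgrow f hfc hfs s0 hs0
    -- the weights
    set g : ℕ → Sp d → ℝ := fun j z => U j z * ‖fl s0 f j z‖ with hg
    have hg0 : ∀ j z, 0 ≤ g j z := fun j z => mul_nonneg (hU.nonneg j z) (norm_nonneg _)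
    have hgm : ∀ j, Measurable (g j) := fun j =>
      (hU.meas j).mul (fl_cont hfc s0 j).norm.measurable
    have hgb : ∀ j, ∃ M, ∀ z, g j z ≤ M := by
      intro j
      obtain ⟨M, hM⟩ := (fl_cont hfc s0 j).bounded_above_of_compact_support (fl_cs hfs s0 j)
      refine ⟨M, fun z => ?_⟩
      calc U j z * ‖fl s0 f j z‖ ≤ 1 * ‖fl s0 f j z‖ :=
            mul_le_mul_of_nonneg_right (hU.le_one j z) (norm_nonneg _)
        _ ≤ M := by rw [one_mul]; exact hM z
    have hgi : ∀ j, Integrable (g j) := by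
      intro j
      have h1 : Integrable (fl s0 f j) :=
        (fl_cont hfc s0 j).integrable_of_hasCompactSupport (fl_cs hfs s0 j)
      refine h1.norm.mono' (hgm j).aestronglyMeasurable (Eventually.of_forall fun z => ?_)
      rw [Real.norm_eq_abs, abs_of_nonneg (hg0 j z)]
      calc U j z * ‖fl s0 f j z‖ ≤ 1 * ‖fl s0 f j z‖ :=
            mul_le_mul_of_nonneg_right (hU.le_one j z) (norm_nonneg _)
        _ = _ := one_mul _
    have hgLB : ∀ j, LB (g j) := by
      intro j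
      obtain ⟨M, hM⟩ := hgb j
      refine LB.of_bdd (hgm j).stronglyMeasurable (M := M) fun z => ?_
      rw [Real.norm_eq_abs, abs_of_nonneg (hg0 j z)]
      exact hM z
    have hkm : ∀ j, Measurable (fun x => sc s0 j * kav s0 0 j (g j) x) := fun j =>
      ((hgLB j).kav s0 0 j).meas.measurable.const_mul _
    have hk0 : ∀ j x, 0 ≤ sc s0 j * kav s0 0 j (g j) x := fun j x =>
      mul_nonneg (sc_pos hs0 j).le (kav_nonneg (hg0 j) s0 0 j x)
    -- the pointwise bound
    have hpw : ∀ x, ‖u x‖ₑ ≤ K.indicator (fun _ => ENNReal.ofReal η) x +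
        (ENNReal.ofReal Cp * ENNReal.ofReal (am s0 f J x) +
        (ENNReal.ofReal Cp * ENNReal.ofReal (∑ j ∈ Finset.range (J + 1), er s0 f j x) +
        ∑ j ∈ Finset.Ico 1 J, ENNReal.ofReal Cp *
          ENNReal.ofReal (sc s0 j * kav s0 0 j (g j) x))) := by
      intro x
      by_cases hx : x ∈ K
      · rw [indicator_of_mem hx]
        have h1 := hP x i0
        have h2 := hUC x
        have e1 : ∑ j ∈ Finset.Ico 1 J, (er s0 f j x + sc s0 j * kav s0 0 j (g j) x)
            = ∑ j ∈ Finset.Ico 1 J, er s0 f j x +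
              ∑ j ∈ Finset.Ico 1 J, sc s0 j * kav s0 0 j (g j) x := Finset.sum_add_distrib
        have e2 : er s0 f J x + ∑ j ∈ Finset.Ico 1 J, er s0 f j x
            ≤ ∑ j ∈ Finset.range (J + 1), er s0 f j x := by
          rw [Finset.sum_range_succ, add_comm]
          refine add_le_add ?_ le_rfl
          refine Finset.sum_le_sum_of_subset_of_nonneg ?_ fun j _ _ => hDF.er_nonneg j x
          intro j hj
          rw [Finset.mem_Ico] at hj
          exact Finset.mem_range.mpr hj.2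
        have h3 : ‖u x‖ ≤ η + (Cp * am s0 f J x + (Cp * ∑ j ∈ Finset.range (J + 1), er s0 f j x
            + ∑ j ∈ Finset.Ico 1 J, Cp * (sc s0 j * kav s0 0 j (g j) x))) := by
          rw [← Finset.mul_sum]
          have h4 : Cp * (er s0 f J x + ∑ j ∈ Finset.Ico 1 J, er s0 f j x)
              ≤ Cp * ∑ j ∈ Finset.range (J + 1), er s0 f j x := mul_le_mul_of_nonneg_left e2 hCp
          have h6 : ‖u x‖ ≤ ‖(ch i0).UC u x (sc s0 J)‖ + Cp * (am s0 f J x + er s0 f J x) +
              Cp * (∑ j ∈ Finset.Ico 1 J, er s0 f j x +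
              ∑ j ∈ Finset.Ico 1 J, sc s0 j * kav s0 0 j (g j) x) + Cp * s0 * Lu := by
            rw [← e1]
            exact h1
          linarith
        have hsum0 : 0 ≤ ∑ j ∈ Finset.range (J + 1), er s0 f j x :=
          Finset.sum_nonneg fun j _ => hDF.er_nonneg j x
        have ham0 : 0 ≤ am s0 f J x := hDF.am_nonneg J x
        rw [← ofReal_norm_eq_enorm]
        refine (ENNReal.ofReal_le_ofReal h3).trans ?_
        have hA0 : 0 ≤ Cp * am s0 f J x := mul_nonneg hCp ham0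
        have hB0 : 0 ≤ Cp * ∑ j ∈ Finset.range (J + 1), er s0 f j x := mul_nonneg hCp hsum0
        have hS0 : 0 ≤ ∑ j ∈ Finset.Ico 1 J, Cp * (sc s0 j * kav s0 0 j (g j) x) :=
          Finset.sum_nonneg fun j _ => mul_nonneg hCp (hk0 j x)
        rw [ENNReal.ofReal_add hη.le (add_nonneg hA0 (add_nonneg hB0 hS0)),
          ENNReal.ofReal_add hA0 (add_nonneg hB0 hS0), ENNReal.ofReal_add hB0 hS0]
        have r1 : ENNReal.ofReal (Cp * am s0 f J x) =
            ENNReal.ofReal Cp * ENNReal.ofReal (am s0 f J x) := ENNReal.ofReal_mul hCp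
        have r2 : ENNReal.ofReal (Cp * ∑ j ∈ Finset.range (J + 1), er s0 f j x) =
            ENNReal.ofReal Cp * ENNReal.ofReal (∑ j ∈ Finset.range (J + 1), er s0 f j x) :=
          ENNReal.ofReal_mul hCp
        have r3 : ENNReal.ofReal (∑ j ∈ Finset.Ico 1 J, Cp * (sc s0 j * kav s0 0 j (g j) x)) =
            ∑ j ∈ Finset.Ico 1 J, ENNReal.ofReal Cp *
              ENNReal.ofReal (sc s0 j * kav s0 0 j (g j) x) := by
          rw [ENNReal.ofReal_sum_of_nonneg fun j _ => mul_nonneg hCp (hk0 j x)]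
          exact Finset.sum_congr rfl fun j _ => ENNReal.ofReal_mul hCp
        rw [r1, r2, r3]
      · have : u x = 0 := image_eq_zero_of_notMem_tsupport hx
        rw [this]
        simp
    -- measurability
    have hm1 : Measurable (K.indicator (fun _ : Sp d => ENNReal.ofReal η)) :=
      measurable_const.indicator hKm
    have hm2 : Measurable (fun x => ENNReal.ofReal Cp * ENNReal.ofReal (am s0 f J x)) :=
      ((am_cont hfc s0 J).measurable.ennreal_ofReal).const_mul _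
    have hm3 : Measurable (fun x => ENNReal.ofReal Cp *
        ENNReal.ofReal (∑ j ∈ Finset.range (J + 1), er s0 f j x)) :=
      ((continuous_finsetSum _ fun j _ => er_cont hfc s0 j).measurable.ennreal_ofReal).const_mul _
    -- integration
    have hI1 : ∫⁻ x, K.indicator (fun _ => ENNReal.ofReal η) x ∂μ = ENNReal.ofReal η * μ K := by
      rw [lintegral_indicator hKm, setLIntegral_const]
    have hI2 : ∫⁻ x, ENNReal.ofReal Cp * ENNReal.ofReal (am s0 f J x) ∂μ ≤
        ENNReal.ofReal Cp * (ENNReal.ofReal Cm * F) := by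
      rw [lintegral_const_mul _ (am_cont hfc s0 J).measurable.ennreal_ofReal]
      exact mul_le_mul_right (hmu2 J) _
    have hI3 : ∫⁻ x, ENNReal.ofReal Cp * ENNReal.ofReal (∑ j ∈ Finset.range (J + 1), er s0 f j x) ∂μ
        ≤ ENNReal.ofReal Cp * (ENNReal.ofReal Cm * F) := by
      rw [lintegral_const_mul _
        (continuous_finsetSum _ fun j _ => er_cont hfc s0 j).measurable.ennreal_ofReal]
      exact mul_le_mul_right (hmu1 (J + 1)) _
    have hI4 : ∫⁻ x, ∑ j ∈ Finset.Ico 1 J, ENNReal.ofReal Cp *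
        ENNReal.ofReal (sc s0 j * kav s0 0 j (g j) x) ∂μ
        ≤ ENNReal.ofReal Cp * (ENNReal.ofReal Cm * (ENNReal.ofReal (8 / ε ^ 2) * F)) := by
      rw [lintegral_finsetSum _ fun j _ => ((hkm j).ennreal_ofReal).const_mul _]
      have h1 : ∀ j ∈ Finset.Ico 1 J, ∫⁻ x, ENNReal.ofReal Cp *
          ENNReal.ofReal (sc s0 j * kav s0 0 j (g j) x) ∂μ ≤
          ENNReal.ofReal Cp * (ENNReal.ofReal Cm * ENNReal.ofReal (∫ z, g j z)) := by
        intro j hj
        rw [Finset.mem_Ico] at hj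
        rw [lintegral_const_mul _ (hkm j).ennreal_ofReal]
        refine mul_le_mul_right ?_ _
        refine (hmu3 j hj.1 (g j) (hgm j) (hg0 j) (hgb j)).trans ?_
        rw [ofReal_integral_eq_lintegral_ofReal (hgi j) (Eventually.of_forall (hg0 j))]
      refine (Finset.sum_le_sum h1).trans ?_
      rw [← Finset.mul_sum, ← Finset.mul_sum]
      refine mul_le_mul_right (mul_le_mul_right ?_ _) _
      rw [← ENNReal.ofReal_sum_of_nonneg fun j _ => integral_nonneg (hg0 j)]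
      have h2 : ∑ j ∈ Finset.Ico 1 J, ∫ z, g j z ≤ 8 / ε ^ 2 * ∫ z, ‖f z‖ := by
        refine le_trans ?_ hU.cost
        refine Finset.sum_le_sum_of_subset_of_nonneg ?_ fun j _ _ => integral_nonneg (hg0 j)
        intro j hj
        rw [Finset.mem_Ico] at hj
        exact Finset.mem_range.mpr hj.2
      refine (ENNReal.ofReal_le_ofReal h2).trans ?_
      rw [ENNReal.ofReal_mul (by positivity), ofReal_integral_norm_eq_lintegral_enorm hfi]
    calc ∫⁻ x, ‖u x‖ₑ ∂μ ≤ ∫⁻ x, (K.indicator (fun _ => ENNReal.ofReal η) x +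
        (ENNReal.ofReal Cp * ENNReal.ofReal (am s0 f J x) +
        (ENNReal.ofReal Cp * ENNReal.ofReal (∑ j ∈ Finset.range (J + 1), er s0 f j x) +
        ∑ j ∈ Finset.Ico 1 J, ENNReal.ofReal Cp *
          ENNReal.ofReal (sc s0 j * kav s0 0 j (g j) x)))) ∂μ := lintegral_mono hpw
      _ = ∫⁻ x, K.indicator (fun _ => ENNReal.ofReal η) x ∂μ +
          (∫⁻ x, ENNReal.ofReal Cp * ENNReal.ofReal (am s0 f J x) ∂μ +
          (∫⁻ x, ENNReal.ofReal Cp *
            ENNReal.ofReal (∑ j ∈ Finset.range (J + 1), er s0 f j x) ∂μ +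
          ∫⁻ x, ∑ j ∈ Finset.Ico 1 J, ENNReal.ofReal Cp *
            ENNReal.ofReal (sc s0 j * kav s0 0 j (g j) x) ∂μ)) := by
          rw [lintegral_add_left hm1, lintegral_add_left hm2, lintegral_add_left hm3]
      _ ≤ ENNReal.ofReal η * μ K + (ENNReal.ofReal Cp * (ENNReal.ofReal Cm * F) +
          (ENNReal.ofReal Cp * (ENNReal.ofReal Cm * F) +
          ENNReal.ofReal Cp * (ENNReal.ofReal Cm * (ENNReal.ofReal (8 / ε ^ 2) * F)))) := by
          rw [hI1]
          exact add_le_add le_rfl (add_le_add hI2 (add_le_add hI3 hI4))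
      _ = _ := by
          have e3 : ENNReal.ofReal (Cp * Cm * (2 + 8 / ε ^ 2)) =
              ENNReal.ofReal Cp * ENNReal.ofReal Cm * (2 + ENNReal.ofReal (8 / ε ^ 2)) := by
            rw [ENNReal.ofReal_mul (mul_nonneg hCp hCm), ENNReal.ofReal_mul hCp,
              ENNReal.ofReal_add (by norm_num) (by positivity)]
            norm_num
          rw [e3]
          ring
  -- let the error tend to zero
  have hfin : ∫⁻ x, ‖u x‖ₑ ∂μ ≤ ENNReal.ofReal (Cp * Cm * (2 + 8 / ε ^ 2)) * F := by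
    refine ENNReal.le_of_forall_pos_le_add fun η hη _ => ?_
    obtain ⟨m, hm⟩ : ∃ m : ℝ, μ K ≤ ENNReal.ofReal m ∧ 0 < m := by
      refine ⟨(μ K).toReal + 1, ?_, by positivity⟩
      rw [ENNReal.ofReal_add ENNReal.toReal_nonneg zero_le_one, ENNReal.ofReal_toReal hμK.ne]
      exact le_self_add
    have hη' : (0 : ℝ) < (η : ℝ) := hη
    have hdm : (0 : ℝ) < (η : ℝ) / m := div_pos hη' hm.2
    have h1 := key ((η : ℝ) / m) hdm
    refine h1.trans (add_le_add le_rfl ?_)
    calc ENNReal.ofReal ((η : ℝ) / m) * μ K ≤ ENNReal.ofReal ((η : ℝ) / m) * ENNReal.ofReal m :=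
          mul_le_mul_right hm.1 _
      _ = ENNReal.ofReal ((η : ℝ) / m * m) := (ENNReal.ofReal_mul hdm.le).symm
      _ = η := by
          rw [div_mul_cancel₀ _ hm.2.ne']
          simp
  refine hfin.trans (mul_le_mul_left (ENNReal.ofReal_le_ofReal ?_) _)
  linarith

end

end TrI
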