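import Pool.Agent.TR.BDK2a

/-!
# Module BDK2, part b: the key bound
-/

open MeasureTheory Metric Set
open scoped InnerProductSpace ContDiff

namespace TrI

noncomputable section

namespace BK2
variable {d : ℕ}

lemma geo_sum (j : ℕ) : ∑ k ∈ Finset.range j, (1 / 4 : ℝ) ^ (j - k) ≤ 1 / 2 := by
  induction j with
  | zero => norm_num
  | succ j ih =>
    rw [Finset.sum_range_succ]
    have h1 : ∑ k ∈ Finset.range j, (1 / 4 : ℝ) ^ (j + 1 - k)
        = 1 / 4 * ∑ k ∈ Finset.range j, (1 / 4 : ℝ) ^ (j - k) := by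
      rw [Finset.mul_sum]
      refine Finset.sum_congr rfl fun k hk => ?_
      have : j + 1 - k = (j - k) + 1 := by
        have := Finset.mem_range.1 hk; omega
      rw [this, pow_succ]; ring
    rw [h1]
    have h2 : j + 1 - j = 1 := by omega
    rw [h2]
    linarith

lemma intOn_ball {F : Type*} [NormedAddCommGroup F] {g : Sp d → F} (hg : Continuous g)
    (q : Sp d) (r : ℝ) : IntegrableOn g (ball q r) :=
  (hg.locallyIntegrable.integrableOn_isCompact (isCompact_closedBall q r)).mono_set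
    ball_subset_closedBall

lemma ball_int_le {g : Sp d → ℝ} (hg : Continuous g) (h0 : ∀ w, 0 ≤ g w) {t : ℝ} (ht : 0 < t)
    (x z : Sp d) (r R : ℝ) (h : ‖z - x‖ + t * r ≤ R) :
    ∫ y in ball (0 : Sp d) r, g (z + t • y) ≤ (t ^ d)⁻¹ * ∫ w in ball x R, g w := by
  rw [int_ball_scale g ht z 0 r, smul_zero, add_zero, smul_eq_mul]
  refine mul_le_mul_of_nonneg_left ?_ (by positivity)
  refine setIntegral_mono_set (intOn_ball hg x R) ?_ ?_
  · exact Filter.Eventually.of_forall h0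
  · refine Filter.Eventually.of_forall ?_
    intro w hw
    have hw' : dist w z < t * r := hw
    show dist w x < R
    have h2 : dist w x ≤ dist w z + dist z x := dist_triangle _ _ _
    rw [dist_eq_norm z x] at h2
    linarith

lemma sc_ratio {s0 : ℝ} (hs : 0 < s0) {k j : ℕ} (h : k ≤ j) :
    sc s0 k / sc s0 j = (1 / 8 : ℝ) ^ (j - k) := by
  have h1 : j = k + (j - k) := by omega
  have h2 : sc s0 j = 8 ^ (j - k) * sc s0 k := by
    conv_lhs => rw [h1]
    exact sc_add s0 k (j - k)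
  have h3 := sc_pos hs k
  rw [h2, one_div, inv_pow]
  field_simp

/-- the key bound -/
lemma key (hCG : StmtCG) (hDev : StmtDev) (d : ℕ) : ∃ C : ℝ, 0 ≤ C ∧
    ∀ (E : Type) [NormedAddCommGroup E] [InnerProductSpace ℝ E] [FiniteDimensional ℝ E]
      (f : Sp d → E), Continuous f → HasCompactSupport f → ∀ s0 : ℝ, 0 < s0 →
      ∀ (j : ℕ) (x z : Sp d), ‖z - x‖ ≤ 2 * sc s0 j →
      ∀ (Φ : Sp d → E) (l M : ℝ), 0 ≤ l → 0 ≤ M → (∀ y y', ‖Φ y - Φ y'‖ ≤ l * ‖y - y'‖) →
        (∀ y, 1 ≤ ‖y‖ → Φ y = 0) → (∀ y, ‖Φ y‖ ≤ M) →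
        sc s0 j * |∫ y, ⟪Φ y, f (z + sc s0 j • y)⟫_ℝ| ≤
          C * (l + M) * (am s0 f j x + er s0 f j x) := by
  obtain ⟨C0, hC0, hD⟩ := hDev d
  refine ⟨1 + C0, by linarith, ?_⟩
  intro E _ _ _ f hf hf' s0 hs j x z hz Φ l M hl hM hLip hsupp hbd
  have D := hD E f hf hf' s0 hs
  set t := sc s0 j with ht
  have htp : 0 < t := sc_pos hs j
  have hfl : Continuous (fl s0 f j) := fl_cont hf s0 j
  have hΦc : Continuous Φ := by
    have hL : LipschitzWith (Real.toNNReal l) Φ := by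
      refine LipschitzWith.of_dist_le_mul fun y y' => ?_
      rw [dist_eq_norm, dist_eq_norm, Real.coe_toNNReal l hl]
      exact hLip y y'
    exact hL.continuous
  have hΦs : HasCompactSupport Φ := by
    refine HasCompactSupport.intro (isCompact_closedBall (0 : Sp d) 1) ?_
    intro y hy
    refine hsupp y ?_
    rw [mem_closedBall_zero_iff] at hy
    linarith
  have ham0 := D.am_nonneg j x
  have her0 := D.er_nonneg j x
  -- the average term
  have am_eq : am s0 f j x = t * ((t ^ d)⁻¹ * ∫ w in ball x (32 * t), ‖fl s0 f j w‖) := by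
    unfold am; rw [← ht, div_eq_mul_inv]; ring
  have hA : ∀ r, r ≤ 4 / 3 → t * ∫ y in ball (0 : Sp d) r, ‖fl s0 f j (z + t • y)‖
      ≤ am s0 f j x := by
    intro r hr
    rw [am_eq]
    refine mul_le_mul_of_nonneg_left ?_ htp.le
    exact ball_int_le (g := fun w => ‖fl s0 f j w‖) hfl.norm (fun w => norm_nonneg _) htp x z r _
      (by nlinarith)
  have hG : ∀ k ∈ Finset.range j, t * (sc s0 k / t *
      ∫ y in ball (0 : Sp d) (4 / 3), gap s0 f k (z + t • y))
      ≤ (1 / 4 : ℝ) ^ (j - k) * (C0 * er s0 f j x) := by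
    intro k hk
    have hkj : k < j := Finset.mem_range.1 hk
    have h1 := ball_int_le (g := gap s0 f k) (gap_cont hf s0 k) (fun w => gap_nonneg s0 f k w) htp
      x z (4 / 3) (384 * t) (by nlinarith)
    have h2 := D.gap_le j k x (by omega)
    rw [← ht] at h2
    rw [sc_ratio hs hkj.le]
    set I := ∫ w in ball x (384 * t), gap s0 f k w with hI
    have h3 : (1 / 4 : ℝ) ^ (j - k) = (1 / 8 : ℝ) ^ (j - k) * 2 ^ (j - k) := by
      rw [← mul_pow]; norm_num
    have h4 : (1 / 2 : ℝ) ^ (j - k) * 2 ^ (j - k) = 1 := by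
      rw [← mul_pow]; norm_num
    have h5 : (0 : ℝ) < (1 / 8 : ℝ) ^ (j - k) := by positivity
    have h6 : (0 : ℝ) < 2 ^ (j - k) := by positivity
    calc t * ((1 / 8 : ℝ) ^ (j - k) * ∫ y in ball (0 : Sp d) (4 / 3), gap s0 f k (z + t • y))
        ≤ t * ((1 / 8 : ℝ) ^ (j - k) * ((t ^ d)⁻¹ * I)) := by gcongr
      _ = (1 / 8 : ℝ) ^ (j - k) * 2 ^ (j - k) * ((1 / 2 : ℝ) ^ (j - k) * (t / t ^ d * I)) := by
          rw [div_eq_mul_inv]
          linear_combination (-(1 / 8 : ℝ) ^ (j - k) * (t * (t ^ d)⁻¹ * I)) * h4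
      _ ≤ (1 / 8 : ℝ) ^ (j - k) * 2 ^ (j - k) * (C0 * er s0 f j x) := by gcongr
      _ = _ := by rw [h3]
  -- the first part
  have h1 := hCG d E f hf hf' s0 hs j Φ l 0 1 t z hl hLip (fun y hy => hsupp y (by simpa using hy))
    htp
  rw [← ht] at h1
  have hrad : (1 : ℝ) + t / (3 * t) = 4 / 3 := by field_simp; norm_num
  have h17 : t / (7 * t) = 1 / 7 := by field_simp
  rw [hrad, h17] at h1
  have hcA : Continuous (fun y : Sp d => ‖fl s0 f j (z + t • y)‖) := by fun_prop
  have hcG : ∀ k, Continuous (fun y : Sp d => gap s0 f k (z + t • y)) := by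
    intro k
    have := gap_cont hf s0 k
    fun_prop
  have hsplit : ∫ y in ball (0 : Sp d) (4 / 3), (1 / 7 * ‖fl s0 f j (z + t • y)‖ +
      8 / 7 * ∑ k ∈ Finset.range j, sc s0 k / t * gap s0 f k (z + t • y))
      = 1 / 7 * (∫ y in ball (0 : Sp d) (4 / 3), ‖fl s0 f j (z + t • y)‖) +
        8 / 7 * ∑ k ∈ Finset.range j, sc s0 k / t *
          ∫ y in ball (0 : Sp d) (4 / 3), gap s0 f k (z + t • y) := by
    rw [integral_add, integral_const_mul, integral_const_mul, integral_finset_sum]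
    · simp only [integral_const_mul]
    · intro k _
      exact (intOn_ball (hcG k) _ _).const_mul _
    · exact (intOn_ball hcA _ _).const_mul _
    · refine Integrable.const_mul ?_ _
      refine integrable_finset_sum _ fun k _ => ?_
      exact (intOn_ball (hcG k) _ _).const_mul _
  rw [hsplit] at h1
  have hS : t * ∑ k ∈ Finset.range j, sc s0 k / t *
      ∫ y in ball (0 : Sp d) (4 / 3), gap s0 f k (z + t • y) ≤ 1 / 2 * (C0 * er s0 f j x) := by
    rw [Finset.mul_sum]
    refine (Finset.sum_le_sum hG).trans ?_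
    rw [← Finset.sum_mul]
    exact mul_le_mul_of_nonneg_right (geo_sum j) (by positivity)
  have hP1 : t * |∫ y, ⟪Φ y, f (z + t • y) - fl s0 f j (z + t • y)⟫_ℝ|
      ≤ l * (1 / 7 * am s0 f j x + 8 / 7 * (1 / 2 * (C0 * er s0 f j x))) := by
    have h2 := mul_le_mul_of_nonneg_left h1 htp.le
    refine h2.trans ?_
    have h3 := hA (4 / 3) le_rfl
    calc t * (l * (1 / 7 * (∫ y in ball (0 : Sp d) (4 / 3), ‖fl s0 f j (z + t • y)‖) +
        8 / 7 * ∑ k ∈ Finset.range j, sc s0 k / t *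
          ∫ y in ball (0 : Sp d) (4 / 3), gap s0 f k (z + t • y)))
        = l * (1 / 7 * (t * ∫ y in ball (0 : Sp d) (4 / 3), ‖fl s0 f j (z + t • y)‖) +
        8 / 7 * (t * ∑ k ∈ Finset.range j, sc s0 k / t *
          ∫ y in ball (0 : Sp d) (4 / 3), gap s0 f k (z + t • y))) := by ring
      _ ≤ _ := by gcongr
  -- the second part
  have hcI : Continuous (fun y : Sp d => ⟪Φ y, fl s0 f j (z + t • y)⟫_ℝ) := by fun_prop
  have hP2 : t * |∫ y, ⟪Φ y, fl s0 f j (z + t • y)⟫_ℝ| ≤ M * am s0 f j x := by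
    have e1 : ∫ y, ⟪Φ y, fl s0 f j (z + t • y)⟫_ℝ
        = ∫ y in ball (0 : Sp d) 1, ⟪Φ y, fl s0 f j (z + t • y)⟫_ℝ := by
      rw [setIntegral_eq_integral_of_forall_compl_eq_zero]
      intro y hy
      rw [mem_ball_zero_iff, not_lt] at hy
      rw [hsupp y hy, inner_zero_left]
    rw [e1]
    have e2 : |∫ y in ball (0 : Sp d) 1, ⟪Φ y, fl s0 f j (z + t • y)⟫_ℝ|
        ≤ ∫ y in ball (0 : Sp d) 1, M * ‖fl s0 f j (z + t • y)‖ := by
      rw [← Real.norm_eq_abs]
      refine (norm_integral_le_integral_norm _).trans ?_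
      refine integral_mono (intOn_ball hcI.norm _ _) ((intOn_ball hcA _ _).const_mul M) ?_
      intro y
      refine (norm_inner_le_norm _ _).trans ?_
      exact mul_le_mul_of_nonneg_right (hbd y) (norm_nonneg _)
    rw [integral_const_mul] at e2
    have e3 := hA 1 (by norm_num)
    calc t * |∫ y in ball (0 : Sp d) 1, ⟪Φ y, fl s0 f j (z + t • y)⟫_ℝ|
        ≤ t * (M * ∫ y in ball (0 : Sp d) 1, ‖fl s0 f j (z + t • y)‖) := by gcongr
      _ = M * (t * ∫ y in ball (0 : Sp d) 1, ‖fl s0 f j (z + t • y)‖) := by ring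
      _ ≤ M * am s0 f j x := by gcongr
  have hcf : Continuous (fun y : Sp d => ⟪Φ y, f (z + t • y) - fl s0 f j (z + t • y)⟫_ℝ) := by
    fun_prop
  have hsum : ∫ y, ⟪Φ y, f (z + t • y)⟫_ℝ
      = (∫ y, ⟪Φ y, f (z + t • y) - fl s0 f j (z + t • y)⟫_ℝ)
        + ∫ y, ⟪Φ y, fl s0 f j (z + t • y)⟫_ℝ := by
    rw [← integral_add]
    · refine integral_congr_ae (Filter.Eventually.of_forall fun y => ?_)
      simp only
      rw [← inner_add_right, sub_add_cancel]
    · refine Continuous.integrable_of_hasCompactSupport hcf ?_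
      refine HasCompactSupport.intro (isCompact_closedBall (0 : Sp d) 1) ?_
      intro y hy
      rw [mem_closedBall_zero_iff] at hy
      rw [hsupp y (by linarith), inner_zero_left]
    · refine Continuous.integrable_of_hasCompactSupport hcI ?_
      refine HasCompactSupport.intro (isCompact_closedBall (0 : Sp d) 1) ?_
      intro y hy
      rw [mem_closedBall_zero_iff] at hy
      rw [hsupp y (by linarith), inner_zero_left]
  rw [hsum]
  have htri := abs_add_le (∫ y, ⟪Φ y, f (z + t • y) - fl s0 f j (z + t • y)⟫_ℝ)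
    (∫ y, ⟪Φ y, fl s0 f j (z + t • y)⟫_ℝ)
  have h9 := mul_le_mul_of_nonneg_left htri htp.le
  rw [mul_add] at h9
  have hlam : 0 ≤ l * am s0 f j x := mul_nonneg hl ham0
  have hler : 0 ≤ l * er s0 f j x := mul_nonneg hl her0
  have hMam : 0 ≤ M * am s0 f j x := mul_nonneg hM ham0
  have hMer : 0 ≤ M * er s0 f j x := mul_nonneg hM her0
  have hC00 : 0 ≤ C0 := by linarith
  have k1 := mul_nonneg hC00 hlam
  have k2 := mul_nonneg hC00 hler
  have k3 := mul_nonneg hC00 hMam
  have k4 := mul_nonneg hC00 hMer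
  nlinarith

end BK2
end
end TrI
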