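import Pool.Agent.TR.K2Gb
import Pool.Agent.TR.Stmts2
import Pool.Agent.TR.BDK2b

/-!
# Module K2G: the estimate for the average at scale s_j for operators with NSProp
-/

open MeasureTheory Metric Set
open scoped InnerProductSpace ContDiff Convolution

namespace TrI

set_option linter.unusedSectionVars false

noncomputable section

namespace K2G

section Main

variable {d : ℕ} {V E : Type} [NormedAddCommGroup V] [InnerProductSpace ℝ V]
  [FiniteDimensional ℝ V] [NormedAddCommGroup E] [InnerProductSpace ℝ E]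
  [FiniteDimensional ℝ E]

lemma ker_cs {ψ : Sp d → ℝ} (hψs : ∀ y, 1 ≤ ‖y‖ → ψ y = 0) : HasCompactSupport ψ := by
  refine HasCompactSupport.intro (isCompact_closedBall 0 1) fun y hy => hψs y ?_
  rw [mem_closedBall, dist_zero_right, not_le] at hy
  exact hy.le

/-- the average at scale 1 as a convolution -/
lemma avk_one_conv (ψ : Sp d → ℝ) (u : Sp d → V) :
    avk ψ 1 u = (fun y => ψ (-y)) ⋆[ContinuousLinearMap.lsmul ℝ ℝ, volume] u := by
  funext z
  unfold avk
  rw [convolution_def, ← integral_neg_eq_self]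
  refine integral_congr_ae (Filter.Eventually.of_forall fun y => ?_)
  simp [sub_eq_add_neg]

lemma avk_one_contDiff {ψ : Sp d → ℝ} (hψ : Continuous ψ) {u : Sp d → V}
    (hu : TF u) : ContDiff ℝ ∞ (avk ψ 1 u) := by
  rw [avk_one_conv]
  refine hu.supp.contDiff_convolution_right _ ?_ hu.smooth
  exact (hψ.comp continuous_neg).locallyIntegrable

lemma fderiv_avk_one {ψ : Sp d → ℝ} (hψ : Continuous ψ) {u : Sp d → V}
    (hu : TF u) (z : Sp d) : fderiv ℝ (avk ψ 1 u) z = avk ψ 1 (fderiv ℝ u) z := by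
  have h1 := hu.supp.hasFDerivAt_convolution_right (ContinuousLinearMap.lsmul ℝ ℝ)
    (hψ.comp continuous_neg).locallyIntegrable (hu.smooth.of_le (by exact_mod_cast le_top)) z
    (μ := (volume : Measure (Sp d))) (f := fun y => ψ (-y))
  rw [avk_one_conv, h1.fderiv]
  unfold avk
  rw [convolution_def, ← integral_neg_eq_self]
  refine integral_congr_ae (Filter.Eventually.of_forall fun y => ?_)
  ext v
  simp [sub_eq_add_neg]

lemma fo_avk_one (L : (Sp d →L[ℝ] V) →L[ℝ] E) {ψ : Sp d → ℝ} (hψ : Continuous ψ)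
    (hψs : ∀ y, 1 ≤ ‖y‖ → ψ y = 0) {u : Sp d → V}
    (hu : TF u) : fo L (avk ψ 1 u) = avk ψ 1 (fo L u) := by
  funext z
  unfold fo
  rw [fderiv_avk_one hψ hu]
  unfold avk
  rw [← ContinuousLinearMap.integral_comp_comm]
  · refine integral_congr_ae (Filter.Eventually.of_forall fun y => ?_)
    simp
  · have h1 : Continuous (fderiv ℝ u) := hu.smooth.continuous_fderiv (by simp)
    refine Continuous.integrable_of_hasCompactSupport (by fun_prop) ?_
    exact (ker_cs hψs).smul_right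

lemma tf_scale {u : Sp d → V} (hu : TF u) (x : Sp d) {s : ℝ} (hs : 0 < s) :
    TF (fun y => u (x + s • y)) := by
  refine ⟨hu.smooth.comp (by fun_prop), ?_⟩
  have h1 : HasCompactSupport (fun η : Sp d => u (x + η)) :=
    hu.supp.comp_homeomorph (Homeomorph.addLeft x)
  exact h1.comp_homeomorph (Homeomorph.smulOfNeZero s hs.ne')

lemma fo_scale (L : (Sp d →L[ℝ] V) →L[ℝ] E) {u : Sp d → V} (hu : TF u) (x : Sp d) (s : ℝ)
    (y : Sp d) : fo L (fun y => u (x + s • y)) y = s • fo L u (x + s • y) := by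
  have h1 : HasFDerivAt (fun w : Sp d => x + s • w) (s • ContinuousLinearMap.id ℝ (Sp d)) y :=
    ((hasFDerivAt_id y).const_smul s).const_add _
  have h2 := ((hu.smooth.differentiable (by simp)) (x + s • y)).hasFDerivAt.comp y h1
  have h3 : (fun y => u (x + s • y)) = u ∘ fun w : Sp d => x + s • w := rfl
  unfold fo
  rw [h3, h2.fderiv, ← map_smul]
  congr 1
  ext v
  simp

/-- the derivatives of the kernel vanish off the unit ball -/
lemma iter_supp {ψ : Sp d → ℝ} (hψ : ContDiff ℝ ∞ ψ) (hψs : ∀ y, 1 ≤ ‖y‖ → ψ y = 0) (k : ℕ)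
    (y : Sp d) (hy : 1 ≤ ‖y‖) : iteratedFDeriv ℝ k ψ y = 0 := by
  have hc : Continuous (iteratedFDeriv ℝ k ψ) := (smooth_iter hψ k).continuous
  have h1 : ∀ z : Sp d, 1 < ‖z‖ → iteratedFDeriv ℝ k ψ z = 0 := by
    intro z hz
    have hev : ψ =ᶠ[nhds z] fun _ => 0 := by
      have : {w : Sp d | 1 < ‖w‖} ∈ nhds z :=
        (isOpen_lt continuous_const continuous_norm).mem_nhds hz
      filter_upwards [this] with w hw
      exact hψs w (le_of_lt hw)
    have h2 := hev.iteratedFDeriv ℝ k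
    have h3 := h2.self_of_nhds
    rw [h3]
    exact congrFun (iteratedFDeriv_fun_zero (𝕜 := ℝ) (E := Sp d) (F := ℝ)) z
  have h2 : Filter.Tendsto (fun t : ℝ => iteratedFDeriv ℝ k ψ (t • y)) (nhdsWithin 1 (Ioi 1))
      (nhds (iteratedFDeriv ℝ k ψ y)) := by
    have h3 : Continuous (fun t : ℝ => iteratedFDeriv ℝ k ψ (t • y)) := by fun_prop
    have h4 := (h3.tendsto 1).mono_left (nhdsWithin_le_nhds (s := Ioi 1))
    rwa [one_smul] at h4
  have h3 : Filter.Tendsto (fun t : ℝ => iteratedFDeriv ℝ k ψ (t • y)) (nhdsWithin 1 (Ioi 1))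
      (nhds 0) := by
    refine Filter.Tendsto.congr' ?_ tendsto_const_nhds
    filter_upwards [self_mem_nhdsWithin] with t ht
    have ht' : (1 : ℝ) < t := ht
    refine (h1 (t • y) ?_).symm
    rw [norm_smul, Real.norm_eq_abs, abs_of_pos (by linarith)]
    nlinarith
  exact tendsto_nhds_unique h2 h3

/-- Lipschitz and size constants of the derivatives of the kernel -/
lemma iter_const {ψ : Sp d → ℝ} (hψ : ContDiff ℝ ∞ ψ) (hψs : ∀ y, 1 ≤ ‖y‖ → ψ y = 0) (k : ℕ) :
    ∃ K : ℝ, 0 ≤ K ∧ (∀ y y', ‖iteratedFDeriv ℝ k ψ y - iteratedFDeriv ℝ k ψ y'‖ ≤ K * ‖y - y'‖) ∧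
      ∀ y, ‖iteratedFDeriv ℝ k ψ y‖ ≤ K := by
  have hcs : HasCompactSupport (iteratedFDeriv ℝ k ψ) := by
    refine HasCompactSupport.intro (isCompact_closedBall 0 1) fun y hy =>
      iter_supp hψ hψs k y ?_
    rw [mem_closedBall, dist_zero_right, not_le] at hy
    exact hy.le
  have hs : ContDiff ℝ 1 (iteratedFDeriv ℝ k ψ) := (smooth_iter hψ k).of_le (by exact_mod_cast le_top)
  obtain ⟨L, hL⟩ := ContDiff.lipschitzWith_of_hasCompactSupport (𝕂 := ℝ) hcs hs one_ne_zero
  obtain ⟨M, hM⟩ := hs.continuous.bounded_above_of_compact_support hcs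
  refine ⟨L + |M|, by positivity, ?_, ?_⟩
  · intro y y'
    have h1 := hL.dist_le_mul y y'
    rw [dist_eq_norm, dist_eq_norm] at h1
    have h2 : 0 ≤ |M| * ‖y - y'‖ := by positivity
    linarith
  · intro y
    have h1 := hM y
    have h2 := le_abs_self M
    have h3 : (0 : ℝ) ≤ L := L.coe_nonneg
    linarith

/-- bound of the derivatives of the average of f -/
lemma iter_avk_bd (hKD : StmtKD) (hCG : StmtCG) (hDev : StmtDev) {ψ : Sp d → ℝ}
    (hψ : ContDiff ℝ ∞ ψ) (hψs : ∀ y, 1 ≤ ‖y‖ → ψ y = 0) (k : ℕ) :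
    ∃ C : ℝ, 0 ≤ C ∧ ∀ (E : Type) [NormedAddCommGroup E] [InnerProductSpace ℝ E]
      [FiniteDimensional ℝ E] (f : Sp d → E), Continuous f → HasCompactSupport f →
      ∀ s0 : ℝ, 0 < s0 → ∀ (j : ℕ) (x z : Sp d), ‖z‖ ≤ 2 →
      ‖iteratedFDeriv ℝ k (avk ψ 1 (fun y => sc s0 j • f (x + sc s0 j • y))) z‖ ≤
        C * (am s0 f j x + er s0 f j x) := by
  obtain ⟨C, hC, hkey⟩ := BK2.key hCG hDev d
  obtain ⟨K, hK, hK1, hK2⟩ := iter_const hψ hψs k
  refine ⟨C * (K + K), by positivity, ?_⟩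
  intro E _ _ _ f hf hf' s0 hs j x z hz
  have D : DevFacts (hDev d).choose s0 f := (hDev d).choose_spec.2 E f hf hf' s0 hs
  set Q := am s0 f j x + er s0 f j x with hQ
  have hQ0 : 0 ≤ Q := add_nonneg (D.am_nonneg j x) (D.er_nonneg j x)
  set s := sc s0 j with hsdef
  have hsp : 0 < s := sc_pos hs j
  have hfs : Continuous (fun y : Sp d => s • f (x + s • y)) := by fun_prop
  rw [hKD d E ψ hψ hψs (fun y => s • f (x + s • y)) hfs 1 one_pos k z, norm_smul]
  have e1 : ‖((-1 / 1 : ℝ)) ^ k‖ = 1 := by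
    rw [norm_pow]; simp
  rw [e1, one_mul]
  have hci : Continuous (iteratedFDeriv ℝ k ψ) := (smooth_iter hψ k).continuous
  refine ContinuousMultilinearMap.opNorm_le_bound (by positivity) fun v => ?_
  -- evaluate at v
  have hgc : Continuous (fun y : Sp d => s • f (x + s • (z + (1 : ℝ) • y))) := by fun_prop
  have hint : Integrable (fun y : Sp d => (iteratedFDeriv ℝ k ψ y).smulRight
      (s • f (x + s • (z + (1 : ℝ) • y)))) := by
    refine Continuous.integrable_of_hasCompactSupport ?_ ?_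
    · exact ((ContinuousMultilinearMap.smulRightL ℝ (fun _ : Fin k => Sp d) E).continuous.comp
        hci).clm_apply hgc
    · refine HasCompactSupport.intro (isCompact_closedBall 0 1) fun y hy => ?_
      rw [mem_closedBall, dist_zero_right, not_le] at hy
      rw [iter_supp hψ hψs k y hy.le]
      ext v
      simp
  have happ : (∫ y, (iteratedFDeriv ℝ k ψ y).smulRight
      (s • f (x + s • (z + (1 : ℝ) • y)))) v =
      ∫ y, (iteratedFDeriv ℝ k ψ y v) • (s • f (x + s • (z + (1 : ℝ) • y))) := by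
    have h1 := (ContinuousMultilinearMap.apply ℝ (fun _ : Fin k => Sp d) E v).integral_comp_comm
      hint
    exact h1.symm
  rw [happ]
  set w : E := ∫ y, (iteratedFDeriv ℝ k ψ y v) • (s • f (x + s • (z + (1 : ℝ) • y))) with hw
  set P : ℝ := ∏ i, ‖v i‖ with hP
  have hP0 : 0 ≤ P := Finset.prod_nonneg fun i _ => norm_nonneg _
  rcases eq_or_ne w 0 with h0 | h0
  · rw [h0, norm_zero]; positivity
  have hwn : 0 < ‖w‖ := norm_pos_iff.2 h0
  obtain ⟨e, hen, hew⟩ : ∃ e : E, ‖e‖ = 1 ∧ ⟪e, w⟫_ℝ = ‖w‖ := by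
    refine ⟨(‖w‖)⁻¹ • w, ?_, ?_⟩
    · rw [norm_smul, norm_inv, norm_norm, inv_mul_cancel₀ hwn.ne']
    · rw [real_inner_smul_left, real_inner_self_eq_norm_sq]
      field_simp
  have hint2 : Integrable (fun y : Sp d => (iteratedFDeriv ℝ k ψ y v) •
      (s • f (x + s • (z + (1 : ℝ) • y)))) := by
    have h1 := (ContinuousMultilinearMap.apply ℝ (fun _ : Fin k => Sp d) E v).integrable_comp hint
    exact h1
  have hinn : ‖w‖ = s * ∫ y, ⟪(iteratedFDeriv ℝ k ψ y v) • e, f ((x + s • z) + s • y)⟫_ℝ := by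
    rw [← hew, hw, ← integral_inner hint2, ← integral_const_mul]
    refine integral_congr_ae (Filter.Eventually.of_forall fun y => ?_)
    have hp : x + s • (z + (1 : ℝ) • y) = (x + s • z) + s • y := by
      rw [one_smul, smul_add, add_assoc]
    simp only
    rw [hp, real_inner_smul_right, real_inner_smul_right, real_inner_smul_left]
    ring
  have hK3 : ∀ y y', |iteratedFDeriv ℝ k ψ y v - iteratedFDeriv ℝ k ψ y' v| ≤
      K * P * ‖y - y'‖ := by
    intro y y'
    have h1 := (iteratedFDeriv ℝ k ψ y - iteratedFDeriv ℝ k ψ y').le_opNorm v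
    have h2 : (iteratedFDeriv ℝ k ψ y - iteratedFDeriv ℝ k ψ y') v =
      iteratedFDeriv ℝ k ψ y v - iteratedFDeriv ℝ k ψ y' v := rfl
    rw [h2, Real.norm_eq_abs] at h1
    refine h1.trans ?_
    calc ‖iteratedFDeriv ℝ k ψ y - iteratedFDeriv ℝ k ψ y'‖ * P ≤ (K * ‖y - y'‖) * P :=
          mul_le_mul_of_nonneg_right (hK1 y y') hP0
      _ = K * P * ‖y - y'‖ := by ring
  have hK4 : ∀ y, |iteratedFDeriv ℝ k ψ y v| ≤ K * P := by
    intro y
    have h1 := (iteratedFDeriv ℝ k ψ y).le_opNorm v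
    rw [Real.norm_eq_abs] at h1
    exact h1.trans (mul_le_mul_of_nonneg_right (hK2 y) hP0)
  have hk := hkey E f hf hf' s0 hs j x (x + s • z) ?_
    (fun y => (iteratedFDeriv ℝ k ψ y v) • e) (K * P) (K * P) (by positivity) (by positivity)
    ?_ ?_ ?_
  · rw [hinn]
    calc s * ∫ y, ⟪(iteratedFDeriv ℝ k ψ y v) • e, f ((x + s • z) + s • y)⟫_ℝ
        ≤ s * |∫ y, ⟪(iteratedFDeriv ℝ k ψ y v) • e, f ((x + s • z) + s • y)⟫_ℝ| :=
          mul_le_mul_of_nonneg_left (le_abs_self _) hsp.le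
      _ ≤ C * (K * P + K * P) * Q := hk
      _ = C * (K + K) * Q * P := by ring
  · rw [add_sub_cancel_left, norm_smul, Real.norm_eq_abs, abs_of_pos hsp]
    nlinarith
  · intro y y'
    rw [← sub_smul, norm_smul, hen, mul_one, Real.norm_eq_abs]
    exact hK3 y y'
  · intro y hy
    rw [iter_supp hψ hψs k y hy]
    simp
  · intro y
    rw [norm_smul, hen, mul_one, Real.norm_eq_abs]
    exact hK4 y

end Main

end K2G

open K2G

theorem stmtK2G (hKD : StmtKD) (hCG : StmtCG) (hDev : StmtDev) : StmtK2G := by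
  intro d V E _ _ _ _ _ _ L n T hn hNS ψ hψ
  rcases Nat.eq_zero_or_pos d with hd | hd
  · subst hd
    refine ⟨0, le_rfl, ?_⟩
    intro u hu s0 hs j x lam l _ _ _ hann
    have hnull : Null L (fun y => avk ψ (sc s0 j) u (x + sc s0 j • y)) := by
      refine ⟨?_, fun z => ?_⟩
      · have : (fun y => avk ψ (sc s0 j) u (x + sc s0 j • y)) =
            fun _ => avk ψ (sc s0 j) u (x + sc s0 j • (0 : Sp 0)) := by
          funext y
          rw [Subsingleton.elim y 0]
        rw [this]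
        exact contDiff_const
      have : fderiv ℝ (fun y => avk ψ (sc s0 j) u (x + sc s0 j • y)) z = 0 := by
        ext v
        have : v = 0 := Subsingleton.elim _ _
        rw [this]; simp
      rw [this, map_zero]
    have h1 := hann _ hnull
    simp [h1]
  have hψc : Continuous ψ := hψ.smooth.continuous
  choose C hC hbd using fun k : ℕ => iter_avk_bd hKD hCG hDev hψ.smooth hψ.supp k
  obtain ⟨CN, hCN, hnull⟩ := null_approx L n hn
  set CT : ℝ := ‖T‖ * C n + ∑ k ∈ Finset.range n, C k with hCT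
  have hCT0 : 0 ≤ CT := by
    have h1 : 0 ≤ ∑ k ∈ Finset.range n, C k := Finset.sum_nonneg fun k _ => hC k
    have h2 : 0 ≤ ‖T‖ * C n := mul_nonneg (norm_nonneg T) (hC n)
    positivity
  set vol := (volume : Measure (Sp d)).real (ball (0 : Sp d) 2) with hvol
  refine ⟨4 * (CN * CT) * vol, by positivity, ?_⟩
  intro u hu s0 hs j x lam l hl hlip hsupp hann
  set s := sc s0 j with hsdef
  have hsp : 0 < s := sc_pos hs j
  set f := fo L u with hf
  have hfc : Continuous f := (fo_contDiff L hu.smooth).continuous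
  have hfs : HasCompactSupport f := by
    have h1 : HasCompactSupport (fderiv ℝ u) := hu.supp.fderiv ℝ
    exact h1.comp_left (map_zero L)
  have D : DevFacts (hDev d).choose s0 f := (hDev d).choose_spec.2 E f hfc hfs s0 hs
  set Q := am s0 f j x + er s0 f j x with hQ
  have hQ0 : 0 ≤ Q := add_nonneg (D.am_nonneg j x) (D.er_nonneg j x)
  set u' : Sp d → V := fun y => u (x + s • y) with hu'
  have hu't : TF u' := tf_scale hu x hsp
  set g : Sp d → V := avk ψ 1 u' with hg
  have hgs : ContDiff ℝ ∞ g := avk_one_contDiff hψc hu't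
  have hgeq : ∀ y, g y = avk ψ s u (x + s • y) := by
    intro y
    rw [hg, hu']
    unfold avk
    refine integral_congr_ae (Filter.Eventually.of_forall fun η => ?_)
    simp only [one_smul, smul_add, add_assoc]
  have hfg : fo L g = avk ψ 1 (fun y => s • f (x + s • y)) := by
    rw [hg, fo_avk_one L hψc hψ.supp hu't]
    congr 1
    funext y
    exact fo_scale L hu x s y
  have hF : ∀ k z, ‖z‖ ≤ 2 → ‖iteratedFDeriv ℝ k (fo L g) z‖ ≤ C k * Q := by
    intro k z hz
    rw [hfg]
    exact hbd k E f hfc hfs s0 hs j x z hz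
  have hN1 : ∀ z, ‖z‖ ≤ 2 → ‖iteratedFDeriv ℝ (n + 1) g z‖ ≤ CT * Q := by
    intro z hz
    rw [hNS g hgs z]
    refine (T.le_opNorm _).trans ?_
    calc ‖T‖ * ‖iteratedFDeriv ℝ n (fo L g) z‖ ≤ ‖T‖ * (C n * Q) :=
          mul_le_mul_of_nonneg_left (hF n z hz) (norm_nonneg T)
      _ = (‖T‖ * C n) * Q := by ring
      _ ≤ CT * Q := by
          refine mul_le_mul_of_nonneg_right ?_ hQ0
          have h1 : 0 ≤ ∑ k ∈ Finset.range n, C k := Finset.sum_nonneg fun k _ => hC k
          linarith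
  have hN2 : ∀ k < n, ‖iteratedFDeriv ℝ k (fo L g) 0‖ ≤ CT * Q := by
    intro k hk
    refine (hF k 0 (by simp)).trans ?_
    refine mul_le_mul_of_nonneg_right ?_ hQ0
    have h1 : C k ≤ ∑ k ∈ Finset.range n, C k :=
      Finset.single_le_sum (fun i _ => hC i) (Finset.mem_range.2 hk)
    have h2 : 0 ≤ ‖T‖ * C n := mul_nonneg (norm_nonneg T) (hC n)
    linarith
  obtain ⟨p, hp, hpb⟩ := hnull g hgs (CT * Q) (by positivity) hN1 hN2
  have hlamc : Continuous lam := by
    have hL : LipschitzWith (Real.toNNReal l) lam := by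
      refine LipschitzWith.of_dist_le_mul fun y y' => ?_
      rw [dist_eq_norm, dist_eq_norm, Real.coe_toNNReal l hl]
      exact hlip y y'
    exact hL.continuous
  have hlamb : ∀ y, ‖lam y‖ ≤ 4 * l := by
    intro y
    by_cases h2 : 2 ≤ ‖y‖
    · rw [hsupp y h2, norm_zero]; positivity
    · push Not at h2
      set e : Sp d := EuclideanSpace.single ⟨0, hd⟩ (4 : ℝ) with he
      have hen : ‖e‖ = 4 := by rw [he, PiLp.norm_single]; norm_num
      have h3 : 2 ≤ ‖y + e‖ := by
        have := norm_sub_le (y + e) y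
        rw [add_sub_cancel_left, hen] at this
        linarith
      have h4 := hlip y (y + e)
      rw [hsupp _ h3, sub_zero, sub_add_cancel_left, norm_neg, hen] at h4
      linarith
  have hann0 : ∫ y, ⟪lam y, p y⟫_ℝ = 0 := hann p hp
  have cs : ∀ {g : Sp d → V}, Continuous g → Integrable (fun y => ⟪lam y, g y⟫_ℝ) := by
    intro g hg
    refine Continuous.integrable_of_hasCompactSupport (by fun_prop) ?_
    refine HasCompactSupport.intro (isCompact_closedBall (0 : Sp d) 2) ?_
    intro y hy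
    rw [mem_closedBall_zero_iff] at hy
    rw [hsupp y (by linarith), inner_zero_left]
  have hsplit : ∫ y, ⟪lam y, avk ψ s u (x + s • y)⟫_ℝ = ∫ y, ⟪lam y, g y - p y⟫_ℝ := by
    have h1 : ∫ y, ⟪lam y, g y - p y⟫_ℝ = (∫ y, ⟪lam y, g y⟫_ℝ) - ∫ y, ⟪lam y, p y⟫_ℝ := by
      rw [← integral_sub (cs hgs.continuous) (cs hp.1.continuous)]
      refine integral_congr_ae (Filter.Eventually.of_forall fun y => ?_)
      simp only; rw [inner_sub_right]
    rw [h1, hann0, sub_zero]
    refine integral_congr_ae (Filter.Eventually.of_forall fun y => ?_)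
    simp only [hgeq]
  rw [hsplit]
  have e1 : ∫ y, ⟪lam y, g y - p y⟫_ℝ = ∫ y in ball (0 : Sp d) 2, ⟪lam y, g y - p y⟫_ℝ := by
    rw [setIntegral_eq_integral_of_forall_compl_eq_zero]
    intro y hy
    rw [mem_ball_zero_iff, not_lt] at hy
    rw [hsupp y hy, inner_zero_left]
  rw [e1, ← Real.norm_eq_abs]
  refine (norm_setIntegral_le_of_norm_le_const (C := 4 * l * (CN * (CT * Q)))
    measure_ball_lt_top ?_).trans (le_of_eq (by rw [← hvol]; ring))
  intro y hyb
  rw [mem_ball_zero_iff] at hyb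
  refine (norm_inner_le_norm _ _).trans ?_
  exact mul_le_mul (hlamb y) (hpb y hyb.le) (norm_nonneg _) (by positivity)

end

end TrI
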