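import Pool.Agent.TR.Stmts
import Pool.Agent.TR.Basic

/-!
# Module K1: comparison of u with its average at scale s_j
-/

open MeasureTheory Metric Set
open scoped InnerProductSpace ContDiff

namespace TrI

noncomputable section

variable {d : ℕ}

section K1

variable {V E : Type} [NormedAddCommGroup V] [InnerProductSpace ℝ V] [FiniteDimensional ℝ V]
    [NormedAddCommGroup E] [InnerProductSpace ℝ E] [FiniteDimensional ℝ E]

lemma k1_geom (j : ℕ) : ∑ i ∈ Finset.range j, (1 / 4 : ℝ) ^ (j - i) ≤ 1 := by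
  have key : ∑ i ∈ Finset.range j, (1 / 4 : ℝ) ^ (j - i) ≤ 1 / 3 := by
    induction j with
    | zero => norm_num
    | succ j ih =>
      rw [Finset.sum_range_succ]
      have : ∑ i ∈ Finset.range j, (1 / 4 : ℝ) ^ (j + 1 - i) =
          1 / 4 * ∑ i ∈ Finset.range j, (1 / 4 : ℝ) ^ (j - i) := by
        rw [Finset.mul_sum]
        refine Finset.sum_congr rfl fun i hi => ?_
        rw [Finset.mem_range] at hi
        rw [show j + 1 - i = (j - i) + 1 by omega, pow_succ]; ring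
      rw [this]
      have : j + 1 - j = 1 := by omega
      rw [this]
      linarith
  linarith

lemma k1_sc_ratio {s0 : ℝ} (hs : 0 < s0) {k j : ℕ} (h : k ≤ j) :
    sc s0 k / sc s0 j = (1 / 8 : ℝ) ^ (j - k) := by
  obtain ⟨m, rfl⟩ := Nat.exists_eq_add_of_le h
  have h1 := sc_pos hs k
  rw [sc_add, Nat.add_sub_cancel_left, one_div, inv_pow]
  field_simp

lemma k1_intOn {g : Sp d → ℝ} (hg : Continuous g) (q : Sp d) (r : ℝ) :
    IntegrableOn g (ball q r) :=
  (LB.of_cont hg).integrableOn isBounded_ball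

lemma k1_gap {s0 : ℝ} (hs : 0 < s0) {f : Sp d → E} (hf : Continuous f) {CD : ℝ}
    (hD : DevFacts CD s0 f) {k j : ℕ} (hk : k ≤ j) (x : Sp d) :
    sc s0 k / sc s0 j * (sc s0 j / sc s0 j ^ d * ∫ z in ball x (5 * sc s0 j), gap s0 f k z) ≤
      (1 / 4 : ℝ) ^ (j - k) * (CD * er s0 f j x) := by
  have ht := sc_pos hs j
  have h1 := hD.gap_le j k x (by omega)
  have h2 : ∫ z in ball x (5 * sc s0 j), gap s0 f k z ≤
      ∫ z in ball x (384 * sc s0 j), gap s0 f k z := by
    refine setIntegral_mono_set (k1_intOn (gap_cont hf s0 k) x _) ?_ ?_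
    · exact Filter.Eventually.of_forall fun z => gap_nonneg _ _ _ _
    · exact (ball_subset_ball (by nlinarith)).eventuallyLE
  have h3 : sc s0 j / sc s0 j ^ d * ∫ z in ball x (5 * sc s0 j), gap s0 f k z ≤
      sc s0 j / sc s0 j ^ d * ∫ z in ball x (384 * sc s0 j), gap s0 f k z :=
    mul_le_mul_of_nonneg_left h2 (by positivity)
  rw [k1_sc_ratio hs hk]
  have h4 : (1 / 8 : ℝ) ^ (j - k) = (1 / 4) ^ (j - k) * (1 / 2) ^ (j - k) := by
    rw [← mul_pow]; norm_num
  rw [h4, mul_assoc]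
  refine mul_le_mul_of_nonneg_left ?_ (by positivity)
  exact (mul_le_mul_of_nonneg_left h3 (by positivity)).trans h1

lemma k1_mass {s0 : ℝ} (hs : 0 < s0) {f : Sp d → E} (hf : Continuous f) {CD : ℝ}
    (hCD : 0 ≤ CD) (hD : DevFacts CD s0 f) {n j : ℕ} (hn : n ≤ j) (x : Sp d) :
    sc s0 j * ∫ y in ball (0 : Sp d) (13 / 3),
      (sc s0 n / sc s0 j * ‖fl s0 f n (x + sc s0 j • y)‖ +
        ∑ k ∈ Finset.range n, sc s0 k / sc s0 j * gap s0 f k (x + sc s0 j • y)) ≤
      am s0 f j x + CD * er s0 f j x := by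
  have ht := sc_pos hs j
  have hfl : ∀ k, Continuous (fl s0 f k) := fl_cont hf s0
  have hgap : ∀ k, Continuous (gap s0 f k) := gap_cont hf s0
  have hcast := int_ball_scale (fun z => sc s0 n / sc s0 j * ‖fl s0 f n z‖ +
      ∑ k ∈ Finset.range n, sc s0 k / sc s0 j * gap s0 f k z) ht x 0 (13 / 3)
  rw [smul_zero, add_zero] at hcast
  have hcast' : ∫ y in ball (0 : Sp d) (13 / 3),
      (sc s0 n / sc s0 j * ‖fl s0 f n (x + sc s0 j • y)‖ +
        ∑ k ∈ Finset.range n, sc s0 k / sc s0 j * gap s0 f k (x + sc s0 j • y)) =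
      (sc s0 j ^ d)⁻¹ • ∫ z in ball x (sc s0 j * (13 / 3)),
        (sc s0 n / sc s0 j * ‖fl s0 f n z‖ +
          ∑ k ∈ Finset.range n, sc s0 k / sc s0 j * gap s0 f k z) := hcast
  rw [hcast', smul_eq_mul, ← mul_assoc, ← div_eq_mul_inv]
  have ha0 : 0 ≤ sc s0 j / sc s0 j ^ d := by positivity
  have hnj : sc s0 n / sc s0 j ≤ 1 := by
    rw [k1_sc_ratio hs hn]
    exact pow_le_one₀ (by norm_num) (by norm_num)
  have hn0 : 0 ≤ sc s0 n / sc s0 j := by
    have := sc_pos hs n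
    positivity
  have hI5 : ∀ k, ∫ z in ball x (sc s0 j * (13 / 3)), gap s0 f k z ≤
      ∫ z in ball x (5 * sc s0 j), gap s0 f k z := by
    intro k
    refine setIntegral_mono_set (k1_intOn (hgap k) x _) ?_ ?_
    · exact Filter.Eventually.of_forall fun z => gap_nonneg _ _ _ _
    · exact (ball_subset_ball (by linarith)).eventuallyLE
  have hT : ∫ z in ball x (sc s0 j * (13 / 3)), ‖fl s0 f n z‖ ≤
      (∫ z in ball x (5 * sc s0 j), ‖fl s0 f j z‖) +
        ∑ i ∈ Finset.Ico n j, ∫ z in ball x (5 * sc s0 j), gap s0 f i z := by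
    refine (hD.transfer n j x (sc s0 j * (13 / 3)) hn).trans ?_
    refine add_le_add ?_ (Finset.sum_le_sum fun i _ => ?_)
    · refine setIntegral_mono_set (k1_intOn (hfl j).norm x _) ?_ ?_
      · exact Filter.Eventually.of_forall fun z => norm_nonneg _
      · exact (ball_subset_ball (by linarith)).eventuallyLE
    · refine setIntegral_mono_set (k1_intOn (hgap i) x _) ?_ ?_
      · exact Filter.Eventually.of_forall fun z => gap_nonneg _ _ _ _
      · exact (ball_subset_ball (by linarith)).eventuallyLE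
  have hsplit : ∫ z in ball x (sc s0 j * (13 / 3)),
        (sc s0 n / sc s0 j * ‖fl s0 f n z‖ +
          ∑ k ∈ Finset.range n, sc s0 k / sc s0 j * gap s0 f k z) =
      sc s0 n / sc s0 j * (∫ z in ball x (sc s0 j * (13 / 3)), ‖fl s0 f n z‖) +
        ∑ k ∈ Finset.range n, sc s0 k / sc s0 j *
          ∫ z in ball x (sc s0 j * (13 / 3)), gap s0 f k z := by
    rw [integral_add, integral_const_mul, integral_finsetSum]
    · congr 1
      refine Finset.sum_congr rfl fun k _ => ?_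
      rw [integral_const_mul]
    · intro k _
      exact k1_intOn (continuous_const.mul (hgap k)) x _
    · exact k1_intOn (continuous_const.mul (hfl n).norm) x _
    · exact k1_intOn (continuous_finsetSum _ fun k _ => continuous_const.mul (hgap k)) x _
  rw [hsplit]
  have hG0 : ∀ i, 0 ≤ ∫ z in ball x (5 * sc s0 j), gap s0 f i z := fun i =>
    integral_nonneg fun z => gap_nonneg _ _ _ _
  have hF0 : 0 ≤ ∫ z in ball x (5 * sc s0 j), ‖fl s0 f j z‖ :=
    integral_nonneg fun z => norm_nonneg _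
  have h1 : sc s0 n / sc s0 j * (∫ z in ball x (sc s0 j * (13 / 3)), ‖fl s0 f n z‖) ≤
      (∫ z in ball x (5 * sc s0 j), ‖fl s0 f j z‖) +
        ∑ i ∈ Finset.Ico n j, sc s0 i / sc s0 j * ∫ z in ball x (5 * sc s0 j), gap s0 f i z := by
    refine (mul_le_mul_of_nonneg_left hT hn0).trans ?_
    rw [mul_add, Finset.mul_sum]
    refine add_le_add ?_ (Finset.sum_le_sum fun i hi => ?_)
    · nlinarith
    · rw [Finset.mem_Ico] at hi
      refine mul_le_mul_of_nonneg_right ?_ (hG0 i)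
      rw [k1_sc_ratio hs hn, k1_sc_ratio hs hi.2.le]
      exact pow_le_pow_of_le_one (by norm_num) (by norm_num) (by omega)
  have h2 : ∑ k ∈ Finset.range n, sc s0 k / sc s0 j *
          ∫ z in ball x (sc s0 j * (13 / 3)), gap s0 f k z ≤
      ∑ k ∈ Finset.range n, sc s0 k / sc s0 j *
          ∫ z in ball x (5 * sc s0 j), gap s0 f k z := by
    refine Finset.sum_le_sum fun k _ => ?_
    have := sc_pos hs k
    exact mul_le_mul_of_nonneg_left (hI5 k) (by positivity)
  have h3 := add_le_add h1 h2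
  have h4 : (∫ z in ball x (5 * sc s0 j), ‖fl s0 f j z‖) +
        ∑ i ∈ Finset.Ico n j, sc s0 i / sc s0 j * (∫ z in ball x (5 * sc s0 j), gap s0 f i z) +
      ∑ k ∈ Finset.range n, sc s0 k / sc s0 j * (∫ z in ball x (5 * sc s0 j), gap s0 f k z) =
      (∫ z in ball x (5 * sc s0 j), ‖fl s0 f j z‖) +
        ∑ i ∈ Finset.range j, sc s0 i / sc s0 j * ∫ z in ball x (5 * sc s0 j), gap s0 f i z := by
    rw [← Finset.sum_range_add_sum_Ico _ hn]
    ring
  rw [h4] at h3
  refine (mul_le_mul_of_nonneg_left h3 ha0).trans ?_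
  rw [mul_add, Finset.mul_sum]
  refine add_le_add ?_ ?_
  · unfold am
    refine mul_le_mul_of_nonneg_left ?_ ha0
    refine setIntegral_mono_set (k1_intOn (hfl j).norm x _) ?_ ?_
    · exact Filter.Eventually.of_forall fun z => norm_nonneg _
    · exact (ball_subset_ball (by linarith)).eventuallyLE
  · have h5 : ∀ i ∈ Finset.range j, sc s0 j / sc s0 j ^ d * (sc s0 i / sc s0 j *
        ∫ z in ball x (5 * sc s0 j), gap s0 f i z) ≤
        (1 / 4 : ℝ) ^ (j - i) * (CD * er s0 f j x) := by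
      intro i hi
      rw [Finset.mem_range] at hi
      have := k1_gap hs hf hD hi.le x
      linarith
    refine (Finset.sum_le_sum h5).trans ?_
    rw [← Finset.sum_mul]
    have := k1_geom j
    have h6 := mul_nonneg hCD (hD.er_nonneg j x)
    nlinarith

lemma k1_term (hCG : StmtCG) {s0 : ℝ} (hs : 0 < s0) {f : Sp d → E} (hf : Continuous f)
    (hfs : HasCompactSupport f) {CD : ℝ}
    (hCD : 0 ≤ CD) (hD : DevFacts CD s0 f) {n j : ℕ} (hn : n ≤ j) (x : Sp d)
    {Φ : Sp d → E} {l0 l1 : ℝ} (hl0 : 0 ≤ l0) (hl1 : 0 ≤ l1)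
    (hΦ : ∀ y y', ‖Φ y - Φ y'‖ ≤ l0 * ‖y - y'‖)
    (hsupp : ∀ y, 4 ≤ ‖y‖ → Φ y = 0) (hbd : ∀ y, ‖Φ y‖ ≤ l1 * (sc s0 n / sc s0 j)) :
    sc s0 j * |∫ y, ⟪Φ y, f (x + sc s0 j • y)⟫_ℝ| ≤
      (l1 + 8 / 7 * l0) * (am s0 f j x + CD * er s0 f j x) := by
  have ht := sc_pos hs j
  have hsn := sc_pos hs n
  have hfl : ∀ k, Continuous (fl s0 f k) := fl_cont hf s0
  have hgap : ∀ k, Continuous (gap s0 f k) := gap_cont hf s0
  have hflx : Continuous fun y : Sp d => fl s0 f n (x + sc s0 j • y) :=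
    (hfl n).comp (by fun_prop)
  have hfx : Continuous fun y : Sp d => f (x + sc s0 j • y) := hf.comp (by fun_prop)
  have hgapx : ∀ k, Continuous fun y : Sp d => gap s0 f k (x + sc s0 j • y) := fun k =>
    (hgap k).comp (by fun_prop)
  have hc : Continuous Φ := by
    have : LipschitzWith (Real.toNNReal l0) Φ := by
      refine LipschitzWith.of_dist_le_mul fun y y' => ?_
      rw [dist_eq_norm, dist_eq_norm, Real.coe_toNNReal l0 hl0]
      exact hΦ y y'
    exact this.continuous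
  have hcs : HasCompactSupport Φ := by
    refine HasCompactSupport.intro (isCompact_closedBall 0 4) fun y hy => hsupp y ?_
    rw [mem_closedBall, dist_zero_right, not_le] at hy
    exact hy.le
  have hcg := hCG d E f hf hfs s0 hs n Φ l0 0 4 (sc s0 j) x hl0 hΦ
    (fun y hy => hsupp y (by simpa using hy)) ht
  have hi1 : Integrable fun y => ⟪Φ y, f (x + sc s0 j • y) - fl s0 f n (x + sc s0 j • y)⟫_ℝ :=
    (hc.inner (hfx.sub hflx)).integrable_of_hasCompactSupport (hcs.mono fun y hy => by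
      intro h0; apply hy; simp [h0])
  have hi2 : Integrable fun y => ⟪Φ y, fl s0 f n (x + sc s0 j • y)⟫_ℝ :=
    (hc.inner hflx).integrable_of_hasCompactSupport (hcs.mono fun y hy => by
      intro h0; apply hy; simp [h0])
  have e1 : ∫ y, ⟪Φ y, f (x + sc s0 j • y)⟫_ℝ =
      (∫ y, ⟪Φ y, f (x + sc s0 j • y) - fl s0 f n (x + sc s0 j • y)⟫_ℝ) +
      ∫ y, ⟪Φ y, fl s0 f n (x + sc s0 j • y)⟫_ℝ := by
    rw [← integral_add hi1 hi2]
    congr 1
    ext y
    rw [← inner_add_right, sub_add_cancel]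
  have hr : sc s0 n / (3 * sc s0 j) ≤ 1 / 3 := by
    have h1 : sc s0 n / (3 * sc s0 j) = (sc s0 n / sc s0 j) / 3 := by
      rw [mul_comm, div_div]
    have h2 : sc s0 n / sc s0 j ≤ 1 := by
      rw [k1_sc_ratio hs hn]
      exact pow_le_one₀ (by norm_num) (by norm_num)
    rw [h1]
    linarith
  set H : Sp d → ℝ := fun y => sc s0 n / sc s0 j * ‖fl s0 f n (x + sc s0 j • y)‖ +
        ∑ k ∈ Finset.range n, sc s0 k / sc s0 j * gap s0 f k (x + sc s0 j • y) with hH
  have hHc : Continuous H := (continuous_const.mul hflx.norm).add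
    (continuous_finsetSum _ fun k _ => continuous_const.mul (hgapx k))
  have hH0 : ∀ y, 0 ≤ H y := by
    intro y
    refine add_nonneg (by positivity) (Finset.sum_nonneg fun k _ => ?_)
    have := sc_pos hs k
    exact mul_nonneg (by positivity) (gap_nonneg _ _ _ _)
  have b1 : |∫ y, ⟪Φ y, f (x + sc s0 j • y) - fl s0 f n (x + sc s0 j • y)⟫_ℝ| ≤
      8 / 7 * l0 * ∫ y in ball (0 : Sp d) (13 / 3), H y := by
    refine hcg.trans ?_
    have h1 : ∫ y in ball (0 : Sp d) (4 + sc s0 n / (3 * sc s0 j)),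
        (sc s0 n / (7 * sc s0 j) * ‖fl s0 f n (x + sc s0 j • y)‖ +
          8 / 7 * ∑ k ∈ Finset.range n, sc s0 k / sc s0 j * gap s0 f k (x + sc s0 j • y)) ≤
        ∫ y in ball (0 : Sp d) (4 + sc s0 n / (3 * sc s0 j)), 8 / 7 * H y := by
      refine setIntegral_mono_on ?_ ?_ measurableSet_ball ?_
      · exact k1_intOn ((continuous_const.mul hflx.norm).add (continuous_const.mul
          (continuous_finsetSum _ fun k _ => continuous_const.mul (hgapx k)))) _ _
      · exact k1_intOn (continuous_const.mul hHc) _ _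
      · intro y _
        rw [hH]
        simp only [mul_add]
        refine add_le_add ?_ le_rfl
        rw [← mul_assoc]
        refine mul_le_mul_of_nonneg_right ?_ (norm_nonneg _)
        have h1 : sc s0 n / (7 * sc s0 j) = 1 / 7 * (sc s0 n / sc s0 j) := by
          rw [mul_comm 7, ← div_div]; ring
        have h2 : 0 ≤ sc s0 n / sc s0 j := by positivity
        rw [h1]
        linarith
    have h2 : ∫ y in ball (0 : Sp d) (4 + sc s0 n / (3 * sc s0 j)), 8 / 7 * H y ≤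
        ∫ y in ball (0 : Sp d) (13 / 3), 8 / 7 * H y := by
      refine setIntegral_mono_set (k1_intOn (continuous_const.mul hHc) _ _) ?_ ?_
      · exact Filter.Eventually.of_forall fun z => mul_nonneg (by norm_num) (hH0 z)
      · exact (ball_subset_ball (by linarith)).eventuallyLE
    have h3 := mul_le_mul_of_nonneg_left (h1.trans h2) hl0
    refine h3.trans (le_of_eq ?_)
    rw [integral_const_mul]
    ring
  have b2 : |∫ y, ⟪Φ y, fl s0 f n (x + sc s0 j • y)⟫_ℝ| ≤
      l1 * ∫ y in ball (0 : Sp d) (13 / 3), H y := by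
    have h1 : ∫ y, ⟪Φ y, fl s0 f n (x + sc s0 j • y)⟫_ℝ =
        ∫ y in ball (0 : Sp d) (13 / 3), ⟪Φ y, fl s0 f n (x + sc s0 j • y)⟫_ℝ := by
      symm
      refine setIntegral_eq_integral_of_forall_compl_eq_zero fun y hy => ?_
      rw [mem_ball, dist_zero_right, not_lt] at hy
      rw [hsupp y (by linarith), inner_zero_left]
    rw [h1, ← integral_const_mul, ← Real.norm_eq_abs]
    refine norm_integral_le_of_norm_le (k1_intOn (continuous_const.mul hHc) _ _) ?_
    refine Filter.Eventually.of_forall fun y => ?_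
    refine (norm_inner_le_norm _ _).trans ?_
    have h2 : ‖Φ y‖ * ‖fl s0 f n (x + sc s0 j • y)‖ ≤
        l1 * (sc s0 n / sc s0 j) * ‖fl s0 f n (x + sc s0 j • y)‖ :=
      mul_le_mul_of_nonneg_right (hbd y) (norm_nonneg _)
    refine h2.trans ?_
    rw [mul_assoc]
    refine mul_le_mul_of_nonneg_left ?_ hl1
    rw [hH]
    simp only
    have : 0 ≤ ∑ k ∈ Finset.range n, sc s0 k / sc s0 j * gap s0 f k (x + sc s0 j • y) := by
      refine Finset.sum_nonneg fun k _ => ?_
      have := sc_pos hs k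
      exact mul_nonneg (by positivity) (gap_nonneg _ _ _ _)
    linarith
  have b3 := k1_mass hs hf hCD hD hn x
  rw [e1]
  calc sc s0 j * |(∫ y, ⟪Φ y, f (x + sc s0 j • y) - fl s0 f n (x + sc s0 j • y)⟫_ℝ) +
      ∫ y, ⟪Φ y, fl s0 f n (x + sc s0 j • y)⟫_ℝ|
      ≤ sc s0 j * ((8 / 7 * l0 * ∫ y in ball (0 : Sp d) (13 / 3), H y) +
        l1 * ∫ y in ball (0 : Sp d) (13 / 3), H y) :=
        mul_le_mul_of_nonneg_left ((abs_add_le _ _).trans (add_le_add b1 b2)) ht.le
    _ = (l1 + 8 / 7 * l0) * (sc s0 j * ∫ y in ball (0 : Sp d) (13 / 3), H y) := by ring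
    _ ≤ _ := mul_le_mul_of_nonneg_left b3 (by positivity)

/-! the adjoint kernel -/

/-- the test field obtained from lam -/
def k1Phi (Ψ : Sp d → (E →L[ℝ] V)) (lam : Sp d → V) (σ : ℝ) (y : Sp d) : E :=
  ∫ η, ContinuousLinearMap.adjoint (Ψ η) (lam (y - σ • η))

lemma k1_int_fun {Ψ : Sp d → (E →L[ℝ] V)} (hΨ : Continuous Ψ) (hΨs : ∀ y, 16 ≤ ‖y‖ → Ψ y = 0)
    {F : Sp d → V} (hF : Continuous F) :
    Integrable fun η => ContinuousLinearMap.adjoint (Ψ η) (F η) := by
  have hc : Continuous fun η => ContinuousLinearMap.adjoint (Ψ η) (F η) :=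
    (ContinuousLinearMap.adjoint.continuous.comp hΨ).clm_apply hF
  refine hc.integrable_of_hasCompactSupport ?_
  refine HasCompactSupport.intro (isCompact_closedBall 0 16) fun y hy => ?_
  rw [mem_closedBall, dist_zero_right, not_le] at hy
  rw [hΨs y hy.le, map_zero, zero_apply]

lemma k1_int_norm {Ψ : Sp d → (E →L[ℝ] V)} (hΨ : Continuous Ψ)
    (hΨs : ∀ y, 16 ≤ ‖y‖ → Ψ y = 0) : Integrable fun η => ‖Ψ η‖ := by
  refine hΨ.norm.integrable_of_hasCompactSupport ?_
  refine HasCompactSupport.intro (isCompact_closedBall 0 16) fun y hy => ?_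
  rw [mem_closedBall, dist_zero_right, not_le] at hy
  rw [hΨs y hy.le, norm_zero]

lemma k1Phi_lip {Ψ : Sp d → (E →L[ℝ] V)} (hΨ : Continuous Ψ) (hΨs : ∀ y, 16 ≤ ‖y‖ → Ψ y = 0)
    {lam : Sp d → V} {l : ℝ} (hlc : Continuous lam)
    (hlam : ∀ y y', ‖lam y - lam y'‖ ≤ l * ‖y - y'‖) (σ : ℝ) (y y' : Sp d) :
    ‖k1Phi Ψ lam σ y - k1Phi Ψ lam σ y'‖ ≤ ((∫ η, ‖Ψ η‖) * l) * ‖y - y'‖ := by
  unfold k1Phi
  rw [← integral_sub (k1_int_fun hΨ hΨs (by fun_prop)) (k1_int_fun hΨ hΨs (by fun_prop)),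
    mul_assoc, ← integral_mul_const]
  refine norm_integral_le_of_norm_le ((k1_int_norm hΨ hΨs).mul_const _) ?_
  refine Filter.Eventually.of_forall fun η => ?_
  rw [← map_sub]
  refine (ContinuousLinearMap.le_opNorm _ _).trans ?_
  rw [LinearIsometryEquiv.norm_map]
  refine mul_le_mul_of_nonneg_left ?_ (norm_nonneg _)
  refine (hlam _ _).trans (le_of_eq ?_)
  congr 2
  abel

lemma k1Phi_supp {Ψ : Sp d → (E →L[ℝ] V)} (hΨs : ∀ y, 16 ≤ ‖y‖ → Ψ y = 0)
    {lam : Sp d → V} (hls : ∀ y, 2 ≤ ‖y‖ → lam y = 0) {σ : ℝ} (hσ : 0 ≤ σ) (hσ' : σ ≤ 1 / 8)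
    {y : Sp d} (hy : 4 ≤ ‖y‖) : k1Phi Ψ lam σ y = 0 := by
  unfold k1Phi
  refine integral_eq_zero_of_ae (Filter.Eventually.of_forall fun η => ?_)
  show ContinuousLinearMap.adjoint (Ψ η) (lam (y - σ • η)) = 0
  rcases le_or_gt 16 ‖η‖ with h | h
  · rw [hΨs η h, map_zero, zero_apply]
  · have h1 : lam (y - σ • η) = 0 := by
      refine hls _ ?_
      have h2 : ‖y‖ - ‖σ • η‖ ≤ ‖y - σ • η‖ := norm_sub_norm_le _ _
      rw [norm_smul, Real.norm_of_nonneg hσ] at h2
      have h3 : σ * ‖η‖ ≤ 1 / 8 * 16 :=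
        mul_le_mul hσ' h.le (norm_nonneg _) (by norm_num)
      linarith
    rw [h1, map_zero]

lemma k1_int_adj_zero {Ψ : Sp d → (E →L[ℝ] V)} (hΨ : Continuous Ψ)
    (hΨs : ∀ y, 16 ≤ ‖y‖ → Ψ y = 0) (hΨi : ∫ y, Ψ y = 0) (v : V) :
    ∫ η, ContinuousLinearMap.adjoint (Ψ η) v = 0 := by
  refine ext_inner_left ℝ fun w => ?_
  have hi : Integrable Ψ := by
    refine hΨ.integrable_of_hasCompactSupport ?_
    refine HasCompactSupport.intro (isCompact_closedBall 0 16) fun y hy => ?_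
    rw [mem_closedBall, dist_zero_right, not_le] at hy
    exact hΨs y hy.le
  rw [inner_zero_right, ← integral_inner (k1_int_fun hΨ hΨs continuous_const)]
  simp only [ContinuousLinearMap.adjoint_inner_right]
  have h1 : ∫ η, ⟪(Ψ η) w, v⟫_ℝ = ∫ η, ⟪v, (Ψ η) w⟫_ℝ := by
    congr 1; ext η; exact real_inner_comm _ _
  have h2 : Integrable fun η => (Ψ η) w := hi.apply_continuousLinearMap w
  rw [h1, integral_inner h2, ← ContinuousLinearMap.integral_apply hi, hΨi,
    zero_apply, inner_zero_right]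

lemma k1Phi_bd {Ψ : Sp d → (E →L[ℝ] V)} (hΨ : Continuous Ψ) (hΨs : ∀ y, 16 ≤ ‖y‖ → Ψ y = 0)
    (hΨi : ∫ y, Ψ y = 0) {lam : Sp d → V} {l : ℝ} (hl : 0 ≤ l) (hlc : Continuous lam)
    (hlam : ∀ y y', ‖lam y - lam y'‖ ≤ l * ‖y - y'‖) {σ : ℝ} (hσ : 0 ≤ σ) (y : Sp d) :
    ‖k1Phi Ψ lam σ y‖ ≤ (16 * (∫ η, ‖Ψ η‖) * l) * σ := by
  have h1 : k1Phi Ψ lam σ y =
      ∫ η, ContinuousLinearMap.adjoint (Ψ η) (lam (y - σ • η) - lam y) := by
    simp only [map_sub]
    rw [integral_sub (k1_int_fun hΨ hΨs (by fun_prop)) (k1_int_fun hΨ hΨs continuous_const),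
      k1_int_adj_zero hΨ hΨs hΨi, sub_zero]
    rfl
  rw [h1]
  have h2 : 16 * (∫ η, ‖Ψ η‖) * l * σ = ∫ η, ‖Ψ η‖ * (l * (σ * 16)) := by
    rw [integral_mul_const]; ring
  rw [h2]
  refine norm_integral_le_of_norm_le ((k1_int_norm hΨ hΨs).mul_const _) ?_
  refine Filter.Eventually.of_forall fun η => ?_
  refine (ContinuousLinearMap.le_opNorm _ _).trans ?_
  rw [LinearIsometryEquiv.norm_map]
  rcases le_or_gt 16 ‖η‖ with h | h
  · rw [hΨs η h, norm_zero, zero_mul, zero_mul]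
  · refine mul_le_mul_of_nonneg_left ?_ (norm_nonneg _)
    refine (hlam _ _).trans ?_
    refine mul_le_mul_of_nonneg_left ?_ hl
    have : y - σ • η - y = -(σ • η) := by abel
    rw [this, norm_neg, norm_smul, Real.norm_of_nonneg hσ]
    exact mul_le_mul_of_nonneg_left h.le hσ

lemma k1_adj {Ψ : Sp d → (E →L[ℝ] V)} (hΨ : Continuous Ψ) (hΨs : ∀ y, 16 ≤ ‖y‖ → Ψ y = 0)
    {lam : Sp d → V} (hlc : Continuous lam) (hls : ∀ y, 2 ≤ ‖y‖ → lam y = 0)
    {G : Sp d → E} (hG : Continuous G) {σ : ℝ} (hσ : 0 ≤ σ) :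
    ∫ y, ⟪lam y, ∫ η, Ψ η (G (y + σ • η))⟫_ℝ = ∫ y, ⟪k1Phi Ψ lam σ y, G y⟫_ℝ := by
  have hi1 : ∀ y, Integrable fun η => Ψ η (G (y + σ • η)) := by
    intro y
    have hc : Continuous fun η => Ψ η (G (y + σ • η)) := hΨ.clm_apply (by fun_prop)
    refine hc.integrable_of_hasCompactSupport ?_
    refine HasCompactSupport.intro (isCompact_closedBall 0 16) fun η hη => ?_
    rw [mem_closedBall, dist_zero_right, not_le] at hη
    rw [hΨs η hη.le, zero_apply]
  have e1 : ∫ y, ⟪lam y, ∫ η, Ψ η (G (y + σ • η))⟫_ℝ =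
      ∫ y, ∫ η, ⟪lam y, Ψ η (G (y + σ • η))⟫_ℝ := by
    congr 1
    ext y
    rw [integral_inner (hi1 y)]
  have e2 : ∫ y, ∫ η, ⟪lam y, Ψ η (G (y + σ • η))⟫_ℝ =
      ∫ η, ∫ y, ⟪lam y, Ψ η (G (y + σ • η))⟫_ℝ := by
    refine integral_integral_swap_of_hasCompactSupport ?_ ?_
    · have h1 : Continuous fun p : Sp d × Sp d => lam p.1 := hlc.comp continuous_fst
      have h2 : Continuous fun p : Sp d × Sp d => Ψ p.2 (G (p.1 + σ • p.2)) :=
        (hΨ.comp continuous_snd).clm_apply (by fun_prop)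
      exact h1.inner h2
    · refine HasCompactSupport.intro ((isCompact_closedBall (0 : Sp d) 2).prod
        (isCompact_closedBall (0 : Sp d) 16)) fun p hp => ?_
      simp only [Function.uncurry]
      rw [mem_prod, not_and_or] at hp
      rcases hp with hp | hp
      · rw [mem_closedBall, dist_zero_right, not_le] at hp
        rw [hls _ hp.le, inner_zero_left]
      · rw [mem_closedBall, dist_zero_right, not_le] at hp
        rw [hΨs _ hp.le, zero_apply, inner_zero_right]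
  have e3 : ∫ η, ∫ y, ⟪lam y, Ψ η (G (y + σ • η))⟫_ℝ =
      ∫ η, ∫ y, ⟪lam (y - σ • η), Ψ η (G y)⟫_ℝ := by
    congr 1
    ext η
    rw [← integral_sub_right_eq_self (fun y => ⟪lam y, Ψ η (G (y + σ • η))⟫_ℝ) (σ • η)]
    simp only [sub_add_cancel]
  have e4 : ∫ η, ∫ y, ⟪lam (y - σ • η), Ψ η (G y)⟫_ℝ =
      ∫ y, ∫ η, ⟪lam (y - σ • η), Ψ η (G y)⟫_ℝ := by
    refine integral_integral_swap_of_hasCompactSupport ?_ ?_
    · have h1 : Continuous fun p : Sp d × Sp d => lam (p.2 - σ • p.1) :=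
        hlc.comp (by fun_prop)
      have h2 : Continuous fun p : Sp d × Sp d => Ψ p.1 (G p.2) :=
        (hΨ.comp continuous_fst).clm_apply (by fun_prop)
      exact h1.inner h2
    · refine HasCompactSupport.intro ((isCompact_closedBall (0 : Sp d) 16).prod
        (isCompact_closedBall (0 : Sp d) (2 + σ * 16))) fun p hp => ?_
      simp only [Function.uncurry]
      rcases le_or_gt 16 ‖p.1‖ with h | h
      · rw [hΨs _ h, zero_apply, inner_zero_right]
      · have h1 : lam (p.2 - σ • p.1) = 0 := by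
          refine hls _ ?_
          have h2 : ¬ ‖p.2‖ ≤ 2 + σ * 16 := by
            intro h3
            apply hp
            rw [mem_prod, mem_closedBall, mem_closedBall, dist_zero_right, dist_zero_right]
            exact ⟨h.le, h3⟩
          rw [not_le] at h2
          have h4 : ‖p.2‖ - ‖σ • p.1‖ ≤ ‖p.2 - σ • p.1‖ := norm_sub_norm_le _ _
          rw [norm_smul, Real.norm_of_nonneg hσ] at h4
          have h5 : σ * ‖p.1‖ ≤ σ * 16 := mul_le_mul_of_nonneg_left h.le hσ
          linarith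
        rw [h1, inner_zero_left]
  rw [e1, e2, e3, e4]
  congr 1
  ext y
  have h1 : ⟪k1Phi Ψ lam σ y, G y⟫_ℝ = ⟪G y, k1Phi Ψ lam σ y⟫_ℝ := real_inner_comm _ _
  rw [h1]
  unfold k1Phi
  rw [← integral_inner (k1_int_fun hΨ hΨs (by fun_prop))]
  congr 1
  ext η
  rw [ContinuousLinearMap.adjoint_inner_right]
  exact real_inner_comm _ _

/-! telescoping -/

lemma k1_tel {L : (Sp d →L[ℝ] V) →L[ℝ] E} {ψ : Sp d → ℝ} {Ψ : Sp d → (E →L[ℝ] V)}
    (hR : RKer L ψ Ψ) {u : Sp d → V} (hu : TF u) {t : ℝ} (ht : 0 < t) (z : Sp d) (N : ℕ) :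
    avk ψ (t / 8 ^ N) u z - avk ψ t u z =
      ∑ i ∈ Finset.range N, (t / 8 ^ (i + 1)) •
        ∫ y, Ψ y (fo L u (z + (t / 8 ^ (i + 1)) • y)) := by
  induction N with
  | zero => simp
  | succ N ih =>
    rw [Finset.sum_range_succ, ← ih, ← hR.id u hu (t / 8 ^ (N + 1)) (by positivity) z]
    have : 8 * (t / 8 ^ (N + 1)) = t / 8 ^ N := by
      rw [pow_succ]; field_simp
    rw [this]
    abel

lemma k1_conv {ψ : Sp d → ℝ} (hψ : Continuous ψ) (hψs : ∀ y, 1 ≤ ‖y‖ → ψ y = 0)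
    (hψi : ∫ y, ψ y = 1) {u : Sp d → V} (huc : Continuous u) {Lu : ℝ} (hLu : 0 ≤ Lu)
    (hu : ∀ y y', ‖u y - u y'‖ ≤ Lu * ‖y - y'‖) {s : ℝ} (hs : 0 ≤ s) (z : Sp d) :
    ‖u z - avk ψ s u z‖ ≤ Lu * (∫ y, |ψ y|) * s := by
  have hψcs : HasCompactSupport ψ := by
    refine HasCompactSupport.intro (isCompact_closedBall 0 1) fun y hy => hψs y ?_
    rw [mem_closedBall, dist_zero_right, not_le] at hy
    exact hy.le
  have hψint : Integrable ψ := hψ.integrable_of_hasCompactSupport hψcs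
  have h1 : u z - avk ψ s u z = ∫ y, ψ y • (u z - u (z + s • y)) := by
    have hi1 : Integrable (fun y : Sp d => ψ y • u z) := hψint.smul_const _
    have hi2 : Integrable (fun y : Sp d => ψ y • u (z + s • y)) := by
      refine (hψ.smul (by fun_prop)).integrable_of_hasCompactSupport (hψcs.mono fun y hy => ?_)
      intro h0; apply hy; simp [h0]
    simp only [smul_sub]
    rw [integral_sub hi1 hi2, integral_smul_const, hψi, one_smul]
    rfl
  rw [h1]
  have h2 : Lu * (∫ y, |ψ y|) * s = ∫ y, |ψ y| * (Lu * s) := by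
    rw [integral_mul_const]; ring
  rw [h2]
  refine norm_integral_le_of_norm_le (hψint.abs.mul_const _) ?_
  refine Filter.Eventually.of_forall fun y => ?_
  rw [norm_smul, Real.norm_eq_abs]
  rcases le_or_gt 1 ‖y‖ with h | h
  · rw [hψs y h]; simp
  · refine mul_le_mul_of_nonneg_left ?_ (abs_nonneg _)
    refine (hu _ _).trans ?_
    refine mul_le_mul_of_nonneg_left ?_ hLu
    have : z - (z + s • y) = -(s • y) := by abel
    rw [this, norm_neg, norm_smul, Real.norm_of_nonneg hs]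
    nlinarith

lemma k1_avk_cont {ψ : Sp d → ℝ} (hψ : Continuous ψ) (hψs : ∀ y, 1 ≤ ‖y‖ → ψ y = 0)
    {u : Sp d → V} (huc : Continuous u) (s : ℝ) : Continuous (avk ψ s u) := by
  have h1 : avk ψ s u = fun z => ∫ y in closedBall (0 : Sp d) 1, ψ y • u (z + s • y) := by
    ext z
    unfold avk
    symm
    refine setIntegral_eq_integral_of_forall_compl_eq_zero fun y hy => ?_
    rw [mem_closedBall, dist_zero_right, not_le] at hy
    rw [hψs y hy.le, zero_smul]
  rw [h1]
  refine continuous_parametric_integral_of_continuous ?_ (isCompact_closedBall _ _)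
  have h2 : Continuous fun p : Sp d × Sp d => ψ p.2 • u (p.1 + s • p.2) :=
    (hψ.comp continuous_snd).smul (huc.comp (by fun_prop))
  exact h2

lemma k1_lip {u : Sp d → V} (hu : TF u) : ∃ Lu : ℝ, 0 ≤ Lu ∧
    ∀ y y', ‖u y - u y'‖ ≤ Lu * ‖y - y'‖ := by
  have h1 : ContDiff ℝ 1 u := hu.smooth.of_le (by exact_mod_cast le_top)
  obtain ⟨C, hC⟩ := h1.lipschitzWith_of_hasCompactSupport hu.supp (by norm_num)
  refine ⟨C, C.2, fun y y' => ?_⟩
  have := hC.dist_le_mul y y'
  rwa [dist_eq_norm, dist_eq_norm] at this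

lemma k1_fo_cont (L : (Sp d →L[ℝ] V) →L[ℝ] E) {u : Sp d → V} (hu : TF u) :
    Continuous (fo L u) := by
  have h1 : Continuous (fderiv ℝ u) := hu.smooth.continuous_fderiv (by simp)
  exact L.continuous.comp h1

lemma k1_fo_cs (L : (Sp d →L[ℝ] V) →L[ℝ] E) {u : Sp d → V} (hu : TF u) :
    HasCompactSupport (fo L u) := by
  have h1 : HasCompactSupport (fderiv ℝ u) := hu.supp.fderiv ℝ
  exact h1.comp_left (map_zero L)

end K1

theorem stmtK1 (hCG : StmtCG) (hDev : StmtDev) : StmtK1 := by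
  intro d V E _ _ _ _ _ _ L ψ Ψ hR
  obtain ⟨CD, hCD1, hCD⟩ := hDev d
  have hCD0 : 0 ≤ CD := by linarith
  set P : ℝ := ∫ η, ‖Ψ η‖ with hP
  have hP0 : 0 ≤ P := integral_nonneg fun η => norm_nonneg _
  refine ⟨18 * P * CD, by positivity, ?_⟩
  intro u hu s0 hs j x lam l hl hlam hls
  have hf : Continuous (fo L u) := k1_fo_cont L hu
  have hfs : HasCompactSupport (fo L u) := k1_fo_cs L hu
  have hD := hCD E (fo L u) hf hfs s0 hs
  have ht := sc_pos hs j
  have hlc : Continuous lam := by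
    have : LipschitzWith (Real.toNNReal l) lam := by
      refine LipschitzWith.of_dist_le_mul fun y y' => ?_
      rw [dist_eq_norm, dist_eq_norm, Real.coe_toNNReal l hl]
      exact hlam y y'
    exact this.continuous
  have hlcs : HasCompactSupport lam := by
    refine HasCompactSupport.intro (isCompact_closedBall 0 2) fun y hy => hls y ?_
    rw [mem_closedBall, dist_zero_right, not_le] at hy
    exact hy.le
  obtain ⟨Lu, hLu0, hLu⟩ := k1_lip hu
  have huc : Continuous u := hu.smooth.continuous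
  set t := sc s0 j with htdef
  set Q := am s0 (fo L u) j x + CD * er s0 (fo L u) j x with hQ
  have hQ0 : 0 ≤ Q := add_nonneg (hD.am_nonneg j x) (mul_nonneg hCD0 (hD.er_nonneg j x))
  -- the terms
  have hterm : ∀ i : ℕ, |∫ y, ⟪lam y, (t / 8 ^ (i + 1)) •
      ∫ η, Ψ η (fo L u (x + t • y + (t / 8 ^ (i + 1)) • η))⟫_ℝ| ≤
      (1 / 8 : ℝ) ^ (i + 1) * (18 * P * l * Q) := by
    intro i
    set σ : ℝ := (1 / 8 : ℝ) ^ (i + 1) with hσ
    have hσ0 : 0 ≤ σ := by positivity
    have hσ8 : σ ≤ 1 / 8 := by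
      rw [hσ, pow_succ]
      have : (1 / 8 : ℝ) ^ i ≤ 1 := pow_le_one₀ (by norm_num) (by norm_num)
      linarith
    have hts : t / 8 ^ (i + 1) = t * σ := by
      rw [hσ, one_div, inv_pow]; rfl
    rw [hts]
    have h1 : ∫ y, ⟪lam y, (t * σ) • ∫ η, Ψ η (fo L u (x + t • y + (t * σ) • η))⟫_ℝ =
        σ * (t * ∫ y, ⟪k1Phi Ψ lam σ y, fo L u (x + t • y)⟫_ℝ) := by
      have hG : Continuous fun y : Sp d => fo L u (x + t • y) := hf.comp (by fun_prop)
      rw [← k1_adj hR.Ψ_cont hR.Ψ_supp hlc hls hG hσ0, ← mul_assoc, ← integral_const_mul]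
      congr 1
      ext y
      rw [real_inner_smul_right, mul_comm σ t]
      congr 2
      congr 1
      ext η
      congr 2
      rw [smul_add, smul_smul, add_assoc]
    rw [h1, abs_mul, abs_mul, abs_of_nonneg hσ0, abs_of_pos ht]
    refine mul_le_mul_of_nonneg_left ?_ hσ0
    -- the level n = j - (i + 1)
    have hn : j - (i + 1) ≤ j := Nat.sub_le _ _
    have hσn : σ ≤ sc s0 (j - (i + 1)) / sc s0 j := by
      rw [k1_sc_ratio hs hn]
      exact pow_le_pow_of_le_one (by norm_num) (by norm_num) (by omega)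
    have h2 := k1_term hCG hs hf hfs hCD0 hD hn x (Φ := k1Phi Ψ lam σ) (l0 := P * l)
      (l1 := 16 * P * l) (by positivity) (by positivity)
      (k1Phi_lip hR.Ψ_cont hR.Ψ_supp hlc hlam σ)
      (fun y hy => k1Phi_supp hR.Ψ_supp hls hσ0 hσ8 hy)
      (fun y => (k1Phi_bd hR.Ψ_cont hR.Ψ_supp hR.Ψ_int hl hlc hlam hσ0 y).trans
        (mul_le_mul_of_nonneg_left hσn (by positivity)))
    refine h2.trans ?_
    refine mul_le_mul_of_nonneg_right ?_ hQ0
    have : 0 ≤ P * l := by positivity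
    nlinarith
  -- geometric sum
  have hgeo : ∀ N : ℕ, ∑ i ∈ Finset.range N, (1 / 8 : ℝ) ^ (i + 1) ≤ 1 := by
    intro N
    have key : ∑ i ∈ Finset.range N, (1 / 8 : ℝ) ^ (i + 1) ≤ 1 / 7 * (1 - (1 / 8) ^ N) := by
      induction N with
      | zero => simp
      | succ N ih =>
        rw [Finset.sum_range_succ]
        have : (1 / 8 : ℝ) ^ (N + 1) = 1 / 8 * (1 / 8) ^ N := by rw [pow_succ]; ring
        rw [this]
        linarith
    have : 0 ≤ (1 / 8 : ℝ) ^ N := by positivity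
    linarith
  -- the estimate with error
  set K : ℝ := (∫ y, ‖lam y‖) * (Lu * (∫ y, |ψ y|) * t) with hK
  have hlami : Integrable fun y => ‖lam y‖ := hlc.norm.integrable_of_hasCompactSupport hlcs.norm
  have hux : Continuous fun y : Sp d => u (x + t • y) := huc.comp (by fun_prop)
  have havc : ∀ s : ℝ, Continuous fun y : Sp d => avk ψ s u (x + t • y) := by
    intro s
    exact (k1_avk_cont hR.ψ_cont hR.ψ_supp huc s).comp (by fun_prop)
  have htc : ∀ i : ℕ, Continuous fun y : Sp d => (t / 8 ^ (i + 1)) •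
      ∫ η, Ψ η (fo L u (x + t • y + (t / 8 ^ (i + 1)) • η)) := by
    intro i
    have h1 : (fun y : Sp d => (t / 8 ^ (i + 1)) •
        ∫ η, Ψ η (fo L u (x + t • y + (t / 8 ^ (i + 1)) • η))) =
        fun y => avk ψ (t / 8 ^ (i + 1)) u (x + t • y) -
          avk ψ (8 * (t / 8 ^ (i + 1))) u (x + t • y) := by
      ext y
      rw [hR.id u hu (t / 8 ^ (i + 1)) (by positivity) (x + t • y)]
    rw [h1]
    exact (havc _).sub (havc _)
  have hint : ∀ {F : Sp d → V}, Continuous F → Integrable fun y => ⟪lam y, F y⟫_ℝ := by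
    intro F hF
    refine (hlc.inner hF).integrable_of_hasCompactSupport (hlcs.mono fun y hy => ?_)
    intro h0; apply hy; simp [h0]
  have hmain : ∀ N : ℕ, |∫ y, ⟪lam y, u (x + t • y) - avk ψ t u (x + t • y)⟫_ℝ| ≤
      K * (1 / 8) ^ N + 18 * P * l * Q := by
    intro N
    have e0 : ∀ y : Sp d, ⟪lam y, u (x + t • y) - avk ψ t u (x + t • y)⟫_ℝ =
        ⟪lam y, u (x + t • y) - avk ψ (t / 8 ^ N) u (x + t • y)⟫_ℝ +
        ∑ i ∈ Finset.range N, ⟪lam y, (t / 8 ^ (i + 1)) •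
          ∫ η, Ψ η (fo L u (x + t • y + (t / 8 ^ (i + 1)) • η))⟫_ℝ := by
      intro y
      rw [← inner_sum, ← inner_add_right, ← k1_tel hR hu ht (x + t • y) N]
      congr 1
      abel
    have e1 : ∫ y, ⟪lam y, u (x + t • y) - avk ψ t u (x + t • y)⟫_ℝ =
        (∫ y, ⟪lam y, u (x + t • y) - avk ψ (t / 8 ^ N) u (x + t • y)⟫_ℝ) +
        ∑ i ∈ Finset.range N, ∫ y, ⟪lam y, (t / 8 ^ (i + 1)) •
          ∫ η, Ψ η (fo L u (x + t • y + (t / 8 ^ (i + 1)) • η))⟫_ℝ := by
      simp only [e0]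
      have hc0 : Continuous fun y : Sp d => u (x + t • y) - avk ψ (t / 8 ^ N) u (x + t • y) :=
        hux.sub (havc _)
      rw [integral_add (hint hc0), integral_finsetSum]
      · exact fun i _ => hint (htc i)
      · exact integrable_finsetSum _ fun i _ => hint (htc i)
    rw [e1]
    refine (abs_add_le _ _).trans (add_le_add ?_ ?_)
    · have h1 : K * (1 / 8) ^ N = ∫ y, ‖lam y‖ * (Lu * (∫ y, |ψ y|) * (t / 8 ^ N)) := by
        rw [integral_mul_const, hK, one_div, inv_pow]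
        field_simp
      rw [h1, ← Real.norm_eq_abs]
      refine norm_integral_le_of_norm_le (hlami.mul_const _) ?_
      refine Filter.Eventually.of_forall fun y => ?_
      refine (norm_inner_le_norm _ _).trans ?_
      refine mul_le_mul_of_nonneg_left ?_ (norm_nonneg _)
      exact k1_conv hR.ψ_cont hR.ψ_supp hR.ψ_int huc hLu0 hLu (by positivity) _
    · refine (Finset.abs_sum_le_sum_abs _ _).trans ?_
      refine (Finset.sum_le_sum fun i _ => hterm i).trans ?_
      rw [← Finset.sum_mul]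
      have h2 : 0 ≤ 18 * P * l * Q := by positivity
      have := hgeo N
      nlinarith
  have hlim : Filter.Tendsto (fun N : ℕ => K * (1 / 8 : ℝ) ^ N + 18 * P * l * Q) Filter.atTop
      (nhds (K * 0 + 18 * P * l * Q)) := by
    refine Filter.Tendsto.add_const _ (Filter.Tendsto.const_mul _ ?_)
    exact tendsto_pow_atTop_nhds_zero_of_lt_one (by norm_num) (by norm_num)
  have h3 := ge_of_tendsto' hlim hmain
  rw [mul_zero, zero_add] at h3
  refine h3.trans ?_
  have h4 : Q ≤ CD * (am s0 (fo L u) j x + er s0 (fo L u) j x) := by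
    have := hD.am_nonneg j x
    rw [hQ]
    nlinarith
  have h5 : 0 ≤ 18 * P * l := by positivity
  calc 18 * P * l * Q ≤ 18 * P * l * (CD * (am s0 (fo L u) j x + er s0 (fo L u) j x)) :=
        mul_le_mul_of_nonneg_left h4 h5
    _ = _ := by ring

end

end TrI
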