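import Pool.Agent.TR.Stmts2
import Pool.Agent.TR.K1

/-!
# Module KPG: the local Korn-Poincare property of every complex elliptic operator
-/

open MeasureTheory Metric Set
open scoped InnerProductSpace ContDiff

namespace TrI

noncomputable section

variable {d : ℕ}

/-- the two halves give KProp -/
theorem kpg_of {V E : Type} [NormedAddCommGroup V] [InnerProductSpace ℝ V]
    [FiniteDimensional ℝ V] [NormedAddCommGroup E] [InnerProductSpace ℝ E]
    [FiniteDimensional ℝ E] (hK1 : StmtK1) (L : (Sp d →L[ℝ] V) →L[ℝ] E) (ψ : Sp d → ℝ)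
    (Ψ : Sp d → (E →L[ℝ] V)) (hΨ : RKer L ψ Ψ) (C : ℝ) (hC : K2Prop L ψ C) :
    ∃ CK : ℝ, KProp L CK := by
  obtain ⟨C1, _, h1⟩ := hK1 d V E L ψ Ψ hΨ
  refine ⟨C1 + C, ?_⟩
  intro u hu s0 hs0 j _ x lam l hl hlip hsupp hann
  have a1 := h1 u hu s0 hs0 j x lam l hl hlip hsupp
  have a2 := hC u hu s0 hs0 j x lam l hl hlip hsupp hann
  have hlc : Continuous lam := by
    have : LipschitzWith (Real.toNNReal l) lam := by
      refine LipschitzWith.of_dist_le_mul fun y y' => ?_
      rw [dist_eq_norm, dist_eq_norm, Real.coe_toNNReal l hl]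
      exact hlip y y'
    exact this.continuous
  have hlcs : HasCompactSupport lam := by
    refine HasCompactSupport.intro (isCompact_closedBall 0 2) fun y hy => hsupp y ?_
    rw [mem_closedBall, dist_zero_right, not_le] at hy
    exact hy.le
  have hint : ∀ g : Sp d → V, Continuous g →
      Integrable fun y => ⟪lam y, g (x + sc s0 j • y)⟫_ℝ := by
    intro g hg
    refine (hlc.inner (hg.comp (by fun_prop))).integrable_of_hasCompactSupport
      (hlcs.mono fun y hy => ?_)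
    intro h0
    apply hy
    simp [h0]
  have huc : Continuous u := hu.smooth.continuous
  have hac : Continuous (avk ψ (sc s0 j) u) := k1_avk_cont hΨ.ψ_cont hΨ.ψ_supp huc _
  have h3 : ∫ y, ⟪lam y, u (x + sc s0 j • y)⟫_ℝ =
      (∫ y, ⟪lam y, u (x + sc s0 j • y) - avk ψ (sc s0 j) u (x + sc s0 j • y)⟫_ℝ) +
        ∫ y, ⟪lam y, avk ψ (sc s0 j) u (x + sc s0 j • y)⟫_ℝ := by
    simp only [inner_sub_right]
    rw [integral_sub (hint u huc) (hint _ hac)]
    ring
  rw [h3]
  refine (abs_add_le _ _).trans ?_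
  refine (add_le_add a1 a2).trans (le_of_eq ?_)
  ring

/-- Module KPG -/
theorem stmtKPG (hNS : StmtNS) (hVK : StmtVK) (hRKG : StmtRKG) (hK1 : StmtK1)
    (hK2G : StmtK2G) : StmtKPG := by
  intro d V E _ _ _ _ _ _ L hL
  obtain ⟨n, T, hn, hT⟩ := hNS d V E L hL
  obtain ⟨ψ, hψ⟩ := hVK d n
  obtain ⟨Ψ, hΨ⟩ := hRKG d V E L n T hn hT ψ hψ
  obtain ⟨C, _, hC⟩ := hK2G d V E L n T hn hT ψ hψ
  exact kpg_of hK1 L ψ Ψ hΨ C hC

end

end TrI
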