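import Pool.Agent.TR.LA2

/-!
# Trace inequality, module LA
-/

open MeasureTheory Metric Set
open scoped InnerProductSpace ContDiff

set_option linter.unusedSectionVars false

namespace TrI.LA

noncomputable section

variable {d : ℕ}
variable {V E : Type} [NormedAddCommGroup V] [InnerProductSpace ℝ V] [FiniteDimensional ℝ V]
  [NormedAddCommGroup E] [InnerProductSpace ℝ E] [FiniteDimensional ℝ E]
  {L : (Sp d →L[ℝ] V) →L[ℝ] E}

/-- positivity of the smeared slice at one point -/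
lemma point_low (hCG : StmtCG) {f : Sp d → E} (hf : Continuous f) (hfc : HasCompactSupport f)
    {C s0 : ℝ} (hs : 0 < s0) (D : DevFacts C s0 f) (hC : 0 ≤ C) (j m : ℕ) (x p : Sp d)
    (hp : ‖p - x‖ ≤ 3 / 2 * sc s0 j) {e : E} (he : ‖e‖ = 1)
    (hfe : fl s0 f (j + 4) x = ‖fl s0 f (j + 4) x‖ • e) {T : E} {B c0 : ℝ} (hT : ‖T‖ ≤ B)
    (hc0 : 0 < c0) (hpos : c0 ≤ ⟪e, T⟫_ℝ) :
    c0 / 2 * (sc s0 j * ∫ z, ph d z * ‖fl s0 f (j - m) (p + sc s0 j • z)‖) -
      (10 * B * ((1 / 8) ^ m * am s0 f j x + 3 * C * 2 ^ m * er s0 f j x) +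
        (B + B ^ 2 / c0) * (C * 2 ^ m * er s0 f j x)) ≤
      sc s0 j * ∫ z, ph d z * ⟪f (p + sc s0 j • z), T⟫_ℝ := by
  have hB : 0 ≤ B := (norm_nonneg T).trans hT
  have hA : 0 < sc s0 j := sc_pos hs j
  have h1 := cg_err hCG hf hfc hs D hC j m x p hp hT
  have h2 := dev_err hf hs D j m x p hp he hfe
  have hgc : Continuous (fl s0 f (j - m)) := fl_cont hf s0 _
  have h3 : c0 / 2 * (∫ z, ph d z * ‖fl s0 f (j - m) (p + sc s0 j • z)‖) -
      (B + B ^ 2 / c0) * (∫ z, ph d z * (‖fl s0 f (j - m) (p + sc s0 j • z)‖ -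
        ⟪fl s0 f (j - m) (p + sc s0 j • z), e⟫_ℝ)) ≤
      ∫ z, ph d z * ⟪fl s0 f (j - m) (p + sc s0 j • z), T⟫_ℝ := by
    rw [← integral_const_mul, ← integral_const_mul, ← integral_sub]
    · refine integral_mono ?_ (ph_integrable (by fun_prop)) fun z => ?_
      · refine Integrable.sub ?_ ?_
        · exact (ph_integrable (by fun_prop)).const_mul _
        · exact (ph_integrable (by fun_prop)).const_mul _
      · simp only
        have h4 := pos_part (v := fl s0 f (j - m) (p + sc s0 j • z)) he hc0 hpos hT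
        have h5 := mul_le_mul_of_nonneg_left h4 (ph_nonneg z)
        linarith
    · exact (ph_integrable (by fun_prop)).const_mul _
    · exact (ph_integrable (by fun_prop)).const_mul _
  have h4 := mul_le_mul_of_nonneg_left h3 hA.le
  have h5 : 0 ≤ B + B ^ 2 / c0 := by positivity
  have h6 := mul_le_mul_of_nonneg_left h2 h5
  have h7 := neg_abs_le ((∫ z, ph d z * ⟪f (p + sc s0 j • z), T⟫_ℝ) -
      ∫ z, ph d z * ⟪fl s0 f (j - m) (p + sc s0 j • z), T⟫_ℝ)
  have h8 := mul_le_mul_of_nonneg_left h7 hA.le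
  nlinarith

end

end TrI.LA

namespace TrI

open TrI.LA

/-- MODULE LA -/
theorem stmtLA (hCG : StmtCG) (hDev : StmtDev) : StmtLA := by
  intro d V E _ _ _ _ _ _ L y0 ρ B c0 w τ hc hc0 κ l r hκ hr hκ0 hκint
  obtain ⟨CD, hCD, hD⟩ := hDev d
  have hCD0 : 0 ≤ CD := by linarith
  have hB := hc.B_pos
  set I := ∫ y, κ y with hI
  refine ⟨2 * I * (10 * B + 30 * B * CD + (B + B ^ 2 / c0) * CD), c0 / 8 * I * (64 / 64 ^ d),
    by positivity, by positivity, ?_⟩
  intro u hu s0 hs x i m hm hval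
  obtain ⟨e, he, hfe, hpos⟩ := hval
  set f := fo L u with hf
  have hfc : Continuous f := fo_cont hu
  have hfs : HasCompactSupport f := fo_cs hu
  have D : DevFacts CD s0 f := hD E f hfc hfs s0 hs
  have hA : 0 < sc s0 (i + 2) := sc_pos hs _
  set A := sc s0 (i + 2) with hAdef
  have her := D.er_nonneg (i + 2) x
  have ham := D.am_nonneg (i + 2) x
  have ham' := D.am_nonneg i x
  set Err := 10 * B * ((1 / 8) ^ m * am s0 f (i + 2) x + 3 * CD * 2 ^ m * er s0 f (i + 2) x) +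
        (B + B ^ 2 / c0) * (CD * 2 ^ m * er s0 f (i + 2) x) with hErr
  have hErr0 : 0 ≤ Err := by positivity
  set Q := c0 / 2 * (64 / 64 ^ d * am s0 f i x) with hQ
  have hQ0 : 0 ≤ Q := by positivity
  -- the smeared integrand
  set M : ℝ → Sp d → ℝ := fun t y => κ y *
      ((∫ z, ph d z * ⟪f (x + t • y + A • z), τ y⟫_ℝ) +
        ∫ z, ph d z * ⟪f (x - t • y + A • z), τ y⟫_ℝ) with hM
  have hsm : ∫ z, ph d z * DD u w κ (x + A • z) A = ∫ t in (0 : ℝ)..A, ∫ y, M t y :=
    smear_eq hc hκ hr hu x A A ph_cont (R := 1) (fun z hz => ph_zero hz)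
  have hτc := cut_tau_cont hc hκ hr
  have hMc : Continuous (Function.uncurry M) := by
    have h1 : ∀ (t : ℝ) (y : Sp d), M t y = ∫ z, ph d z *
        (⟪f (x + t • y + A • z), κ y • τ y⟫_ℝ + ⟪f (x - t • y + A • z), κ y • τ y⟫_ℝ) := by
      intro t y
      simp only [hM]
      rw [← integral_add (ph_integrable (by fun_prop)) (ph_integrable (by fun_prop)),
        ← integral_const_mul]
      refine integral_congr_ae (Filter.Eventually.of_forall fun z => ?_)
      simp only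
      rw [real_inner_smul_right, real_inner_smul_right]; ring
    have h2 : Function.uncurry M = fun p : ℝ × Sp d => ∫ z, ph d z *
        (⟪f (x + p.1 • p.2 + A • z), κ p.2 • τ p.2⟫_ℝ +
          ⟪f (x - p.1 • p.2 + A • z), κ p.2 • τ p.2⟫_ℝ) := by
      ext ⟨t, y⟩
      exact h1 t y
    rw [h2]
    refine cont_param (R := 1) (F := fun (p : ℝ × Sp d) z => ph d z *
        (⟪f (x + p.1 • p.2 + A • z), κ p.2 • τ p.2⟫_ℝ +
          ⟪f (x - p.1 • p.2 + A • z), κ p.2 • τ p.2⟫_ℝ)) ?_ ?_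
    · have h3 : Continuous fun q : (ℝ × Sp d) × Sp d => κ q.1.2 • τ q.1.2 :=
        hτc.comp (f := fun q : (ℝ × Sp d) × Sp d => q.1.2) (by fun_prop)
      have h4 : Continuous fun q : (ℝ × Sp d) × Sp d => ph d q.2 := ph_cont.comp continuous_snd
      have h5 : Continuous fun q : (ℝ × Sp d) × Sp d => f (x + q.1.1 • q.1.2 + A • q.2) :=
        hfc.comp (by fun_prop)
      have h6 : Continuous fun q : (ℝ × Sp d) × Sp d => f (x - q.1.1 • q.1.2 + A • q.2) :=
        hfc.comp (by fun_prop)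
      exact h4.mul ((h5.inner h3).add (h6.inner h3))
    · intro p z hz
      rw [ph_zero hz, zero_mul]
  have hM0 : ∀ t y, 2 ≤ ‖y‖ → M t y = 0 := by
    intro t y hy
    simp only [hM]
    rw [cut_zero hc hκ hr hy, zero_mul]
  have hhc : Continuous fun t : ℝ => ∫ y, M t y := cont_param (R := 2) hMc hM0
  have hint : ∀ {g : Sp d → ℝ}, Continuous g → (∀ y, 2 ≤ ‖y‖ → g y = 0) → Integrable g := by
    intro g hg hg0
    refine hg.integrable_of_hasCompactSupport ?_
    refine HasCompactSupport.of_support_subset_isCompact (isCompact_closedBall (0 : Sp d) 2) ?_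
    intro y hy
    rw [Function.mem_support] at hy
    simp only [mem_closedBall, dist_zero_right]
    by_contra h
    exact hy (hg0 y (le_of_lt (not_le.mp h)))
  have hMi : ∀ t, Integrable (M t) := fun t =>
    hint (hMc.comp (f := fun y : Sp d => (t, y)) (by fun_prop)) (hM0 t)
  have hκi : Integrable κ := hint (cut_cont hκ) fun y hy => cut_zero hc hκ hr hy
  -- points
  have hpt : ∀ t : ℝ, ∀ y : Sp d, κ y ≠ 0 → ‖t • y‖ ≤ 3 / 2 * |t| := by
    intro t y hy
    have := cap_norm_lt hc (cut_out hκ hr hy)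
    rw [norm_smul, Real.norm_eq_abs, mul_comm]
    exact mul_le_mul_of_nonneg_right this.le (abs_nonneg t)
  have hlow : ∀ t : ℝ, 0 ≤ t → t ≤ A → ∀ y : Sp d, -(2 * Err) * κ y ≤ A * M t y := by
    intro t ht htA y
    by_cases hy : κ y = 0
    · simp [hM, hy]
    have hyb := cut_out hκ hr hy
    have h0 := hpt t y hy
    rw [abs_of_nonneg ht] at h0
    have h1 := point_low hCG hfc hfs hs D hCD0 (i + 2) m x (x + t • y)
      (by rw [add_sub_cancel_left]; linarith) he hfe (hc.τ_bd y hyb) hc0 (hpos y hyb)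
    have h2 := point_low hCG hfc hfs hs D hCD0 (i + 2) m x (x - t • y)
      (by rw [sub_sub_cancel_left, norm_neg]; linarith) he hfe (hc.τ_bd y hyb) hc0 (hpos y hyb)
    rw [← hErr, ← hAdef] at h1 h2
    have n1 : 0 ≤ ∫ z, ph d z * ‖fl s0 f (i + 2 - m) (x + t • y + A • z)‖ :=
      integral_nonneg fun z => mul_nonneg (ph_nonneg z) (norm_nonneg _)
    have n2 : 0 ≤ ∫ z, ph d z * ‖fl s0 f (i + 2 - m) (x - t • y + A • z)‖ :=
      integral_nonneg fun z => mul_nonneg (ph_nonneg z) (norm_nonneg _)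
    have m1 : 0 ≤ c0 / 2 * (A * ∫ z, ph d z * ‖fl s0 f (i + 2 - m) (x + t • y + A • z)‖) := by
      positivity
    have m2 : 0 ≤ c0 / 2 * (A * ∫ z, ph d z * ‖fl s0 f (i + 2 - m) (x - t • y + A • z)‖) := by
      positivity
    have h3 : -(2 * Err) ≤ A * ((∫ z, ph d z * ⟪f (x + t • y + A • z), τ y⟫_ℝ) +
        ∫ z, ph d z * ⟪f (x - t • y + A • z), τ y⟫_ℝ) := by
      rw [mul_add]; linarith
    have h4 := mul_le_mul_of_nonneg_left h3 (hκ0 y)
    calc -(2 * Err) * κ y = κ y * -(2 * Err) := by ring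
      _ ≤ _ := h4
      _ = A * M t y := by simp only [hM]; ring
  have hhigh : ∀ t : ℝ, 0 ≤ t → t ≤ A / 4 → ∀ y : Sp d, (Q - 2 * Err) * κ y ≤ A * M t y := by
    intro t ht htA y
    by_cases hy : κ y = 0
    · simp [hM, hy]
    have hyb := cut_out hκ hr hy
    have h0 := hpt t y hy
    rw [abs_of_nonneg ht] at h0
    have h1 := point_low hCG hfc hfs hs D hCD0 (i + 2) m x (x + t • y)
      (by rw [add_sub_cancel_left]; linarith) he hfe (hc.τ_bd y hyb) hc0 (hpos y hyb)
    have h2 := point_low hCG hfc hfs hs D hCD0 (i + 2) m x (x - t • y)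
      (by rw [sub_sub_cancel_left, norm_neg]; linarith) he hfe (hc.τ_bd y hyb) hc0 (hpos y hyb)
    have h5 := main_low hfc hs D i m hm x (x + t • y)
      (by rw [add_sub_cancel_left]; linarith)
    rw [← hErr, ← hAdef] at h1 h2
    rw [← hAdef] at h5
    have n2 : 0 ≤ ∫ z, ph d z * ‖fl s0 f (i + 2 - m) (x - t • y + A • z)‖ :=
      integral_nonneg fun z => mul_nonneg (ph_nonneg z) (norm_nonneg _)
    have m1 : Q ≤ c0 / 2 * (A * ∫ z, ph d z * ‖fl s0 f (i + 2 - m) (x + t • y + A • z)‖) :=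
      mul_le_mul_of_nonneg_left h5 (by positivity)
    have m2 : 0 ≤ c0 / 2 * (A * ∫ z, ph d z * ‖fl s0 f (i + 2 - m) (x - t • y + A • z)‖) := by
      positivity
    have h3 : Q - 2 * Err ≤ A * ((∫ z, ph d z * ⟪f (x + t • y + A • z), τ y⟫_ℝ) +
        ∫ z, ph d z * ⟪f (x - t • y + A • z), τ y⟫_ℝ) := by
      rw [mul_add]; linarith
    have h4 := mul_le_mul_of_nonneg_left h3 (hκ0 y)
    calc (Q - 2 * Err) * κ y = κ y * (Q - 2 * Err) := by ring
      _ ≤ _ := h4
      _ = A * M t y := by simp only [hM]; ring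
  have hlow' : ∀ t : ℝ, 0 ≤ t → t ≤ A → -(2 * Err) * I / A ≤ ∫ y, M t y := by
    intro t ht htA
    have h1 := integral_mono (hκi.const_mul _) ((hMi t).const_mul _) (hlow t ht htA)
    rw [integral_const_mul, integral_const_mul] at h1
    rw [div_le_iff₀ hA]
    linarith
  have hhigh' : ∀ t : ℝ, 0 ≤ t → t ≤ A / 4 → (Q - 2 * Err) * I / A ≤ ∫ y, M t y := by
    intro t ht htA
    have h1 := integral_mono (hκi.const_mul _) ((hMi t).const_mul _) (hhigh t ht htA)
    rw [integral_const_mul, integral_const_mul] at h1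
    rw [div_le_iff₀ hA]
    linarith
  have hi1 : IntervalIntegrable (fun t : ℝ => ∫ y, M t y) volume 0 (A / 4) :=
    hhc.intervalIntegrable _ _
  have hi2 : IntervalIntegrable (fun t : ℝ => ∫ y, M t y) volume (A / 4) A :=
    hhc.intervalIntegrable _ _
  have hj1 : A / 4 * ((Q - 2 * Err) * I / A) ≤ ∫ t in (0 : ℝ)..(A / 4), ∫ y, M t y := by
    have h1 : ∫ t in (0 : ℝ)..(A / 4), (Q - 2 * Err) * I / A ≤
        ∫ t in (0 : ℝ)..(A / 4), ∫ y, M t y :=
      intervalIntegral.integral_mono_on (by positivity) (by simp) hi1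
        fun t ht => hhigh' t ht.1 ht.2
    rw [intervalIntegral.integral_const, smul_eq_mul, sub_zero] at h1
    exact h1
  have hj2 : (A - A / 4) * (-(2 * Err) * I / A) ≤ ∫ t in (A / 4)..A, ∫ y, M t y := by
    have h1 : ∫ t in (A / 4)..A, -(2 * Err) * I / A ≤ ∫ t in (A / 4)..A, ∫ y, M t y :=
      intervalIntegral.integral_mono_on (by linarith) (by simp) hi2
        fun t ht => hlow' t (by linarith [ht.1]) ht.2
    rw [intervalIntegral.integral_const, smul_eq_mul] at h1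
    exact h1
  have hsum := intervalIntegral.integral_add_adjacent_intervals hi1 hi2
  have e1 : A / 4 * ((Q - 2 * Err) * I / A) + (A - A / 4) * (-(2 * Err) * I / A) =
      Q * I / 4 - 2 * Err * I := by
    field_simp
    ring
  have hfin : Q * I / 4 - 2 * Err * I ≤ ∫ z, ph d z * DD u w κ (x + A • z) A := by
    rw [hsm]
    linarith
  have e2 : Q * I / 4 = c0 / 8 * I * (64 / 64 ^ d) * am s0 f i x := by
    rw [hQ]; ring
  rw [e2] at hfin
  have e3 : 2 * Err * I ≤ 2 * I * (10 * B + 30 * B * CD + (B + B ^ 2 / c0) * CD) * (1 / 8) ^ m *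
      am s0 f (i + 2) x + 2 * I * (10 * B + 30 * B * CD + (B + B ^ 2 / c0) * CD) * 2 ^ m *
      er s0 f (i + 2) x := by
    have p1 : 0 ≤ 2 * I * (30 * B * CD + (B + B ^ 2 / c0) * CD) * ((1 / 8) ^ m *
      am s0 f (i + 2) x) := by positivity
    have p2 : 0 ≤ 2 * I * (10 * B) * (2 ^ m * er s0 f (i + 2) x) := by positivity
    have e4 : 2 * I * (10 * B + 30 * B * CD + (B + B ^ 2 / c0) * CD) * (1 / 8) ^ m *
      am s0 f (i + 2) x + 2 * I * (10 * B + 30 * B * CD + (B + B ^ 2 / c0) * CD) * 2 ^ m *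
      er s0 f (i + 2) x = 2 * Err * I + 2 * I * (30 * B * CD + (B + B ^ 2 / c0) * CD) *
        ((1 / 8) ^ m * am s0 f (i + 2) x) + 2 * I * (10 * B) * (2 ^ m * er s0 f (i + 2) x) := by
      rw [hErr]; ring
    rw [e4]; linarith
  linarith

end TrI
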