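import Pool.Agent.TR.Basic
import Pool.Agent.TR.Stmts

/-!
# Trace inequality: fuzzy labels
-/

open MeasureTheory Metric Set
open scoped InnerProductSpace ContDiff

namespace TrI

noncomputable section

variable {d : ℕ} {E : Type} [NormedAddCommGroup E] [InnerProductSpace ℝ E] {n : ℕ}

/-- the direction of the field at level l -/
def dirv (s0 : ℝ) (f : Sp d → E) (l : ℕ) (z : Sp d) : E := ‖fl s0 f l z‖⁻¹ • fl s0 f l z

/-- labels far from the direction -/
def BadL (s0 : ℝ) (f : Sp d → E) (ε : ℝ) (lab : Fin n → E) (l : ℕ) (z : Sp d) (j : Fin n) : Prop :=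
  ε < ‖dirv s0 f l z - lab j‖

/-- labels very close to the direction -/
def GoodL (s0 : ℝ) (f : Sp d → E) (ε : ℝ) (lab : Fin n → E) (l : ℕ) (z : Sp d) (j : Fin n) :
    Prop := ‖dirv s0 f l z - lab j‖ ≤ ε / 4

/-- the first label very close to the direction -/
def FstL (s0 : ℝ) (f : Sp d → E) (ε : ℝ) (lab : Fin n → E) (l : ℕ) (z : Sp d) (j : Fin n) :
    Prop := GoodL s0 f ε lab l z j ∧ ∀ k < j, ¬ GoodL s0 f ε lab l z k

open Classical in
/-- the total weight of the bad labels -/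
def badw (s0 : ℝ) (f : Sp d → E) (ε : ℝ) (lab : Fin n → E) (l : ℕ) (w : Fin n → Sp d → ℝ)
    (z : Sp d) : ℝ := ∑ j, if BadL s0 f ε lab l z j then w j z else 0

open Classical in
/-- moving the weight of the bad labels to the first good label -/
def mvw (s0 : ℝ) (f : Sp d → E) (ε δ : ℝ) (lab : Fin n → E) (l : ℕ) (w : Fin n → Sp d → ℝ)
    (i : Fin n) (z : Sp d) : ℝ :=
  if Gated s0 f δ l z then
    (if BadL s0 f ε lab l z i then 0 else w i z) +
      (if FstL s0 f ε lab l z i then badw s0 f ε lab l w z else 0)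
  else w i z

open Classical in
/-- the moved weight -/
def UU (s0 : ℝ) (f : Sp d → E) (ε δ : ℝ) (lab : Fin n → E) (l : ℕ) (w : Fin n → Sp d → ℝ)
    (z : Sp d) : ℝ := if Gated s0 f δ l z then badw s0 f ε lab l w z else 0

/-- probability weights on the labels -/
structure Wt (w : Fin n → Sp d → ℝ) : Prop where
  meas : ∀ i, Measurable (w i)
  nonneg : ∀ i z, 0 ≤ w i z
  sum_one : ∀ z, ∑ i, w i z = 1

lemma Wt.le_one {w : Fin n → Sp d → ℝ} (h : Wt w) (i : Fin n) (z : Sp d) : w i z ≤ 1 := by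
  rw [← h.sum_one z]
  exact Finset.single_le_sum (fun j _ => h.nonneg j z) (Finset.mem_univ i)

lemma Wt.lb {w : Fin n → Sp d → ℝ} (h : Wt w) (i : Fin n) : LB (w i) :=
  LB.of_bdd (h.meas i).stronglyMeasurable (M := 1) fun z => by
    rw [Real.norm_eq_abs, abs_of_nonneg (h.nonneg i z)]; exact h.le_one i z

lemma Wt.av {w : Fin n → Sp d → ℝ} (h : Wt w) (s : ℝ) : Wt fun i => av s (w i) where
  meas := fun i => ((h.lb i).av s).meas.measurable
  nonneg := fun i z => av_nonneg (h.nonneg i) s z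
  sum_one := by
    intro z
    rw [← av_sum Finset.univ (fun i _ => h.lb i) s z]
    have : (fun z => ∑ i, w i z) = fun _ => (1 : ℝ) := by
      ext z; exact h.sum_one z
    rw [this, av_const]

lemma dirv_sm {f : Sp d → E} (hf : Continuous f) (s0 : ℝ) (l : ℕ) :
    StronglyMeasurable (dirv s0 f l) := by
  have h1 := fl_cont hf s0 l
  have h2 : Measurable fun z => ‖fl s0 f l z‖⁻¹ := h1.norm.measurable.inv
  exact h2.stronglyMeasurable.smul h1.stronglyMeasurable

lemma dist_meas {f : Sp d → E} (hf : Continuous f) (s0 : ℝ) (l : ℕ) (e : E) :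
    Measurable fun z => ‖dirv s0 f l z - e‖ :=
  ((dirv_sm hf s0 l).sub stronglyMeasurable_const).norm.measurable

lemma badL_meas {f : Sp d → E} (hf : Continuous f) (s0 ε : ℝ) (lab : Fin n → E) (l : ℕ)
    (j : Fin n) : MeasurableSet {z | BadL s0 f ε lab l z j} :=
  measurableSet_lt measurable_const (dist_meas hf s0 l _)

lemma goodL_meas {f : Sp d → E} (hf : Continuous f) (s0 ε : ℝ) (lab : Fin n → E) (l : ℕ)
    (j : Fin n) : MeasurableSet {z | GoodL s0 f ε lab l z j} :=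
  measurableSet_le (dist_meas hf s0 l _) measurable_const

lemma fstL_meas {f : Sp d → E} (hf : Continuous f) (s0 ε : ℝ) (lab : Fin n → E) (l : ℕ)
    (j : Fin n) : MeasurableSet {z | FstL s0 f ε lab l z j} := by
  have : {z | FstL s0 f ε lab l z j} = {z | GoodL s0 f ε lab l z j} ∩
      ⋂ k : Fin n, ⋂ _ : k < j, {z | GoodL s0 f ε lab l z k}ᶜ := by
    ext z
    simp [FstL]
  rw [this]
  exact (goodL_meas hf s0 ε lab l j).inter (MeasurableSet.iInter fun k =>
    MeasurableSet.iInter fun _ => (goodL_meas hf s0 ε lab l k).compl)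

lemma gated_meas {f : Sp d → E} (hf : Continuous f) (s0 δ : ℝ) (l : ℕ) :
    MeasurableSet {z | Gated s0 f δ l z} := by
  have h1 := fl_cont hf s0 l
  have h2 : MeasurableSet {z | fl s0 f l z ≠ 0} :=
    (isOpen_ne_fun h1 continuous_const).measurableSet
  have h3 : MeasurableSet {z | δ / (sc s0 l) ^ d *
      ∫ z' in ball z (40 * sc s0 l), ‖fl s0 f l z'‖ ≤ ‖fl s0 f l z‖} :=
    measurableSet_le (measurable_const.mul (ball_int_cont h1.norm _).measurable) h1.norm.measurable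
  exact h2.inter h3

lemma badw_meas {f : Sp d → E} (hf : Continuous f) (s0 ε : ℝ) (lab : Fin n → E) (l : ℕ)
    {w : Fin n → Sp d → ℝ} (hw : Wt w) : Measurable (badw s0 f ε lab l w) := by
  classical
  unfold badw
  refine Finset.measurable_fun_sum _ fun j _ => ?_
  exact Measurable.ite (badL_meas hf s0 ε lab l j) (hw.meas j) measurable_const

lemma badw_nonneg {f : Sp d → E} (s0 ε : ℝ) (lab : Fin n → E) (l : ℕ)
    {w : Fin n → Sp d → ℝ} (hw : Wt w) (z : Sp d) : 0 ≤ badw s0 f ε lab l w z := by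
  classical
  unfold badw
  refine Finset.sum_nonneg fun j _ => ?_
  split_ifs
  · exact hw.nonneg j z
  · exact le_rfl

lemma badw_le_one {f : Sp d → E} (s0 ε : ℝ) (lab : Fin n → E) (l : ℕ)
    {w : Fin n → Sp d → ℝ} (hw : Wt w) (z : Sp d) : badw s0 f ε lab l w z ≤ 1 := by
  classical
  unfold badw
  rw [← hw.sum_one z]
  refine Finset.sum_le_sum fun j _ => ?_
  split_ifs
  · exact le_rfl
  · exact hw.nonneg j z

lemma dirv_norm {s0 : ℝ} {f : Sp d → E} {δ : ℝ} {l : ℕ} {z : Sp d} (h : Gated s0 f δ l z) :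
    ‖dirv s0 f l z‖ = 1 := by
  have := norm_pos_iff.mpr h.1
  unfold dirv
  rw [norm_smul, norm_inv, norm_norm, inv_mul_cancel₀ this.ne']

lemma fl_eq_dirv {s0 : ℝ} {f : Sp d → E} {l : ℕ} {z : Sp d} (h : fl s0 f l z ≠ 0) :
    fl s0 f l z = ‖fl s0 f l z‖ • dirv s0 f l z := by
  have := norm_pos_iff.mpr h
  unfold dirv
  rw [smul_smul, mul_inv_cancel₀ this.ne', one_smul]

lemma exists_fst {s0 : ℝ} {f : Sp d → E} {ε : ℝ} {lab : Fin n → E} {l : ℕ} {z : Sp d}
    (h : ∃ i, GoodL s0 f ε lab l z i) : ∃ i, FstL s0 f ε lab l z i := by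
  classical
  let S : Finset (Fin n) := Finset.univ.filter fun i => GoodL s0 f ε lab l z i
  have hS : S.Nonempty := by
    obtain ⟨i, hi⟩ := h
    exact ⟨i, by simp [S, hi]⟩
  refine ⟨S.min' hS, ?_, ?_⟩
  · have := S.min'_mem hS
    simpa [S] using this
  · intro k hk hk'
    have h1 : k ∈ S := by simp [S, hk']
    exact absurd (S.min'_le k h1) (not_le.mpr hk)

lemma fst_unique {s0 : ℝ} {f : Sp d → E} {ε : ℝ} {lab : Fin n → E} {l : ℕ} {z : Sp d}
    {i j : Fin n} (hi : FstL s0 f ε lab l z i) (hj : FstL s0 f ε lab l z j) : i = j := by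
  rcases lt_trichotomy i j with h | h | h
  · exact absurd hi.1 (hj.2 i h)
  · exact h
  · exact absurd hj.1 (hi.2 j h)

section
variable {s0 ε δ : ℝ} {f : Sp d → E} {lab : Fin n → E}

lemma exists_fst' (hnet : ∀ e : E, ‖e‖ = 1 → ∃ i, ‖e - lab i‖ ≤ ε / 4) {l : ℕ} {z : Sp d}
    (hg : Gated s0 f δ l z) : ∃ i, FstL s0 f ε lab l z i :=
  exists_fst (hnet _ (dirv_norm hg))

/-- value of moved weights at gated points, tested against an arbitrary function of the labels -/
lemma mvw_sum {l : ℕ} {z : Sp d}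
    (hg : Gated s0 f δ l z) (w : Fin n → Sp d → ℝ) (i0 : Fin n) (h0 : FstL s0 f ε lab l z i0)
    (φ : Fin n → ℝ) :
    ∑ i, mvw s0 f ε δ lab l w i z * φ i =
      ∑ i, w i z * φ i + ∑ j, (by classical exact if BadL s0 f ε lab l z j then w j z * (φ i0 - φ j) else 0) := by
  classical
  have h1 : ∀ i, mvw s0 f ε δ lab l w i z * φ i =
      (if BadL s0 f ε lab l z i then 0 else w i z * φ i) +
      (if i = i0 then badw s0 f ε lab l w z * φ i0 else 0) := by
    intro i
    unfold mvw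
    rw [if_pos hg]
    by_cases hi : i = i0
    · subst hi
      rw [if_pos h0, if_pos rfl]
      split_ifs <;> ring
    · have : ¬ FstL s0 f ε lab l z i := fun h => hi (fst_unique h h0)
      rw [if_neg this, if_neg hi]
      split_ifs <;> ring
  simp only [h1]
  rw [Finset.sum_add_distrib, Finset.sum_ite_eq' Finset.univ i0, if_pos (Finset.mem_univ _)]
  unfold badw
  rw [Finset.sum_mul, ← Finset.sum_add_distrib, ← Finset.sum_add_distrib]
  refine Finset.sum_congr rfl fun j _ => ?_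
  split_ifs <;> ring

lemma Wt.mvw (hf : Continuous f) (hnet : ∀ e : E, ‖e‖ = 1 → ∃ i, ‖e - lab i‖ ≤ ε / 4) (l : ℕ)
    {w : Fin n → Sp d → ℝ} (hw : Wt w) : Wt (mvw s0 f ε δ lab l w) where
  meas := by
    classical
    intro i
    unfold TrI.mvw
    refine Measurable.ite (gated_meas hf s0 δ l) ?_ (hw.meas i)
    refine Measurable.add ?_ ?_
    · exact Measurable.ite (badL_meas hf s0 ε lab l i) measurable_const (hw.meas i)
    · exact Measurable.ite (fstL_meas hf s0 ε lab l i) (badw_meas hf s0 ε lab l hw)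
        measurable_const
  nonneg := by
    classical
    intro i z
    unfold TrI.mvw
    have h1 := badw_nonneg (f := f) s0 ε lab l hw z
    have h2 := hw.nonneg i z
    split_ifs <;> first | exact h2 | linarith
  sum_one := by
    classical
    intro z
    by_cases hg : Gated s0 f δ l z
    · obtain ⟨i0, h0⟩ := exists_fst' hnet hg
      have h1 := mvw_sum hg w i0 h0 (fun _ => 1)
      simp only [mul_one, sub_self, mul_zero, ite_self, Finset.sum_const_zero, add_zero] at h1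
      rw [h1, hw.sum_one z]
    · have : ∀ i, TrI.mvw s0 f ε δ lab l w i z = w i z := fun i => by
        unfold TrI.mvw; rw [if_neg hg]
      simp only [this]
      exact hw.sum_one z

lemma UU_nonneg (l : ℕ) {w : Fin n → Sp d → ℝ} (hw : Wt w) (z : Sp d) :
    0 ≤ UU s0 f ε δ lab l w z := by
  unfold UU
  split_ifs
  · exact badw_nonneg s0 ε lab l hw z
  · exact le_rfl

lemma UU_le_one (l : ℕ) {w : Fin n → Sp d → ℝ} (hw : Wt w) (z : Sp d) :
    UU s0 f ε δ lab l w z ≤ 1 := by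
  unfold UU
  split_ifs
  · exact badw_le_one s0 ε lab l hw z
  · exact zero_le_one

lemma UU_meas (hf : Continuous f) (l : ℕ) {w : Fin n → Sp d → ℝ} (hw : Wt w) :
    Measurable (UU s0 f ε δ lab l w) := by
  classical
  unfold UU
  exact Measurable.ite (gated_meas hf s0 δ l) (badw_meas hf s0 ε lab l hw) measurable_const

lemma UU_lb (hf : Continuous f) (l : ℕ) {w : Fin n → Sp d → ℝ} (hw : Wt w) :
    LB (UU s0 f ε δ lab l w) :=
  LB.of_bdd (UU_meas hf l hw).stronglyMeasurable (M := 1) fun z => by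
    rw [Real.norm_eq_abs, abs_of_nonneg (UU_nonneg l hw z)]; exact UU_le_one l hw z

/-- the energy -/
def PP (s0 : ℝ) (f : Sp d → E) (lab : Fin n → E) (l : ℕ) (w : Fin n → Sp d → ℝ) : ℝ :=
  ∫ z, ∑ i, w i z * ⟪fl s0 f l z, lab i⟫_ℝ

lemma lb_mul_integrable {w h : Sp d → ℝ} (hw : LB w) (hh : LB h) (hc : HasCompactSupport h) :
    Integrable fun z => w z * h z :=
  (hw.smul hh).integrable (hc.smul_left (f := w))

lemma inner_cs (hf' : HasCompactSupport f) (l : ℕ) (e : E) :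
    HasCompactSupport fun z => ⟪fl s0 f l z, e⟫_ℝ := by
  refine (fl_cs hf' s0 l).comp_left (g := fun v : E => ⟪v, e⟫_ℝ) ?_
  simp

lemma pp_integrable (hf : Continuous f) (hf' : HasCompactSupport f) (l : ℕ)
    {w : Fin n → Sp d → ℝ} (hw : Wt w) (i : Fin n) :
    Integrable fun z => w i z * ⟪fl s0 f l z, lab i⟫_ℝ :=
  lb_mul_integrable (hw.lb i) ((LB.of_cont (fl_cont hf s0 l)).inner_const _) (inner_cs hf' l _)

lemma PP_succ [CompleteSpace E] (hf : Continuous f) (hf' : HasCompactSupport f) (l : ℕ)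
    {w : Fin n → Sp d → ℝ} (hw : Wt w) :
    PP s0 f lab (l + 1) w = PP s0 f lab l fun i => av (sc s0 l) (w i) := by
  unfold PP
  rw [integral_finsetSum _ fun i _ => pp_integrable hf hf' (l + 1) hw i,
    integral_finsetSum _ fun i _ => pp_integrable hf hf' l (hw.av _) i]
  refine Finset.sum_congr rfl fun i _ => ?_
  have h1 : LB (fun z => ⟪fl s0 f l z, lab i⟫_ℝ) := (LB.of_cont (fl_cont hf s0 l)).inner_const _
  rw [av_adj (hw.lb i) h1 (inner_cs hf' l _)]
  congr 1
  ext z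
  rw [fl_succ, av_inner (LB.of_cont (fl_cont hf s0 l))]

lemma fl_int_le (hf : Continuous f) (hf' : HasCompactSupport f) (l : ℕ) :
    ∫ z, ‖fl s0 f l z‖ ≤ ∫ z, ‖f z‖ := by
  induction l with
  | zero => exact le_rfl
  | succ l ih =>
    refine le_trans ?_ ih
    have h1 := gap_int hf hf' s0 l
    have h2 : 0 ≤ ∫ x, gap s0 f l x := integral_nonneg fun x => gap_nonneg s0 f l x
    linarith

lemma PP_abs (hf : Continuous f) (hf' : HasCompactSupport f) (hlab : ∀ i, ‖lab i‖ = 1) (l : ℕ)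
    {w : Fin n → Sp d → ℝ} (hw : Wt w) : |PP s0 f lab l w| ≤ ∫ z, ‖f z‖ := by
  refine le_trans ?_ (fl_int_le (s0 := s0) hf hf' l)
  unfold PP
  rw [← Real.norm_eq_abs]
  refine norm_integral_le_of_norm_le ?_ (Filter.Eventually.of_forall fun z => ?_)
  · exact (LB.of_cont (fl_cont hf s0 l).norm).integrable (fl_cs hf' s0 l).norm
  · refine (norm_sum_le _ _).trans ?_
    calc ∑ i, ‖w i z * ⟪fl s0 f l z, lab i⟫_ℝ‖ ≤ ∑ i, w i z * ‖fl s0 f l z‖ := by
          refine Finset.sum_le_sum fun i _ => ?_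
          rw [norm_mul, Real.norm_eq_abs, abs_of_nonneg (hw.nonneg i z)]
          refine mul_le_mul_of_nonneg_left ?_ (hw.nonneg i z)
          have := norm_inner_le_norm (𝕜 := ℝ) (fl s0 f l z) (lab i)
          rwa [hlab i, mul_one] at this
      _ = ‖fl s0 f l z‖ := by rw [← Finset.sum_mul, hw.sum_one z, one_mul]

lemma inner_unit {e a : E} (he : ‖e‖ = 1) (ha : ‖a‖ = 1) :
    ⟪e, a⟫_ℝ = 1 - ‖e - a‖ ^ 2 / 2 := by
  have := norm_sub_sq_real e a
  rw [he, ha] at this
  linarith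

lemma mvw_gain (hε : 0 < ε) (hlab : ∀ i, ‖lab i‖ = 1)
    (hnet : ∀ e : E, ‖e‖ = 1 → ∃ i, ‖e - lab i‖ ≤ ε / 4) (l : ℕ)
    {w : Fin n → Sp d → ℝ} (hw : Wt w) (z : Sp d) :
    ∑ i, w i z * ⟪fl s0 f l z, lab i⟫_ℝ + 15 / 32 * ε ^ 2 * (UU s0 f ε δ lab l w z *
      ‖fl s0 f l z‖) ≤ ∑ i, mvw s0 f ε δ lab l w i z * ⟪fl s0 f l z, lab i⟫_ℝ := by
  classical
  by_cases hg : Gated s0 f δ l z
  · obtain ⟨i0, h0⟩ := exists_fst' hnet hg
    rw [mvw_sum hg w i0 h0]
    refine add_le_add le_rfl ?_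
    unfold UU badw
    rw [if_pos hg, Finset.sum_mul, Finset.mul_sum]
    refine Finset.sum_le_sum fun j _ => ?_
    by_cases hb : BadL s0 f ε lab l z j
    · rw [if_pos hb, if_pos hb]
      have he := dirv_norm hg
      have hv := fl_eq_dirv hg.1
      have e1 : ⟪fl s0 f l z, lab i0⟫_ℝ = ‖fl s0 f l z‖ * ⟪dirv s0 f l z, lab i0⟫_ℝ := by
        conv_lhs => rw [hv]
        rw [real_inner_smul_left]
      have e2 : ⟪fl s0 f l z, lab j⟫_ℝ = ‖fl s0 f l z‖ * ⟪dirv s0 f l z, lab j⟫_ℝ := by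
        conv_lhs => rw [hv]
        rw [real_inner_smul_left]
      rw [e1, e2, inner_unit he (hlab i0), inner_unit he (hlab j)]
      have h3 : ‖dirv s0 f l z - lab i0‖ ≤ ε / 4 := h0.1
      have h4 : ε < ‖dirv s0 f l z - lab j‖ := hb
      have h5 : ‖dirv s0 f l z - lab i0‖ ^ 2 ≤ (ε / 4) ^ 2 :=
        pow_le_pow_left₀ (norm_nonneg _) h3 2
      have h6 : ε ^ 2 ≤ ‖dirv s0 f l z - lab j‖ ^ 2 := pow_le_pow_left₀ hε.le h4.le 2
      have h7 : 15 / 32 * ε ^ 2 ≤ (1 - ‖dirv s0 f l z - lab i0‖ ^ 2 / 2) -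
          (1 - ‖dirv s0 f l z - lab j‖ ^ 2 / 2) := by nlinarith
      have h8 : 0 ≤ w j z * ‖fl s0 f l z‖ := mul_nonneg (hw.nonneg j z) (norm_nonneg _)
      have h9 := mul_le_mul_of_nonneg_left h7 h8
      linarith
    · rw [if_neg hb, if_neg hb]; simp
  · unfold UU mvw
    simp only [if_neg hg]
    simp

lemma PP_gain (hf : Continuous f) (hf' : HasCompactSupport f) (hε : 0 < ε)
    (hlab : ∀ i, ‖lab i‖ = 1) (hnet : ∀ e : E, ‖e‖ = 1 → ∃ i, ‖e - lab i‖ ≤ ε / 4) (l : ℕ)
    {w : Fin n → Sp d → ℝ} (hw : Wt w) :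
    PP s0 f lab l w + 15 / 32 * ε ^ 2 * ∫ z, UU s0 f ε δ lab l w z * ‖fl s0 f l z‖ ≤
      PP s0 f lab l (mvw s0 f ε δ lab l w) := by
  have h1 : Integrable fun z => UU s0 f ε δ lab l w z * ‖fl s0 f l z‖ :=
    lb_mul_integrable (UU_lb hf l hw) (LB.of_cont (fl_cont hf s0 l).norm) (fl_cs hf' s0 l).norm
  have h2 : Integrable fun z => ∑ i, w i z * ⟪fl s0 f l z, lab i⟫_ℝ :=
    integrable_finsetSum _ fun i _ => pp_integrable hf hf' l hw i
  have h3 : Integrable fun z => ∑ i, mvw s0 f ε δ lab l w i z * ⟪fl s0 f l z, lab i⟫_ℝ :=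
    integrable_finsetSum _ fun i _ => pp_integrable hf hf' l (hw.mvw hf hnet l) i
  unfold PP
  rw [← integral_const_mul, ← integral_add h2 (h1.const_mul _)]
  exact integral_mono (h2.add (h1.const_mul _)) h3 fun z => mvw_gain hε hlab hnet l hw z

/-! ## the recursion -/

open Classical in
/-- the weights, k levels below level J -/
def rr (s0 : ℝ) (f : Sp d → E) (ε δ : ℝ) (lab : Fin n → E) (i0 : Fin n) (J : ℕ) :
    ℕ → Fin n → Sp d → ℝ
  | 0 => fun i _ => if i = i0 then 1 else 0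
  | k + 1 => mvw s0 f ε δ lab (J - (k + 1)) fun i =>
      av (sc s0 (J - (k + 1))) (rr s0 f ε δ lab i0 J k i)

/-- the weights of level l -/
def RR (s0 : ℝ) (f : Sp d → E) (ε δ : ℝ) (lab : Fin n → E) (i0 : Fin n) (J l : ℕ) :
    Fin n → Sp d → ℝ := rr s0 f ε δ lab i0 J (J - l)

lemma rr_wt (hf : Continuous f) (hnet : ∀ e : E, ‖e‖ = 1 → ∃ i, ‖e - lab i‖ ≤ ε / 4)
    (i0 : Fin n) (J k : ℕ) : Wt (rr s0 f ε δ lab i0 J k) := by
  classical
  induction k with
  | zero =>
    refine ⟨fun i => measurable_const, fun i z => ?_, fun z => ?_⟩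
    · simp only [rr]; split_ifs <;> norm_num
    · simp [rr]
  | succ k ih => exact (ih.av _).mvw hf hnet _

lemma RR_wt (hf : Continuous f) (hnet : ∀ e : E, ‖e‖ = 1 → ∃ i, ‖e - lab i‖ ≤ ε / 4)
    (i0 : Fin n) (J l : ℕ) : Wt (RR s0 f ε δ lab i0 J l) := rr_wt hf hnet i0 J _

lemma RR_succ (i0 : Fin n) {J l : ℕ} (h : l < J) : RR s0 f ε δ lab i0 J l =
    mvw s0 f ε δ lab l fun i => av (sc s0 l) (RR s0 f ε δ lab i0 J (l + 1) i) := by
  unfold RR
  obtain ⟨k, hk⟩ : ∃ k, J = l + (k + 1) := ⟨J - l - 1, by omega⟩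
  have e1 : J - l = k + 1 := by omega
  have e2 : J - (l + 1) = k := by omega
  have e3 : J - (k + 1) = l := by omega
  rw [e1, e2, rr, e3]

open Classical in
/-- moved weights -/
def UL (s0 : ℝ) (f : Sp d → E) (ε δ : ℝ) (lab : Fin n → E) (i0 : Fin n) (J l : ℕ) :
    Sp d → ℝ :=
  if l < J then UU s0 f ε δ lab l fun i => av (sc s0 l) (RR s0 f ε δ lab i0 J (l + 1) i)
  else fun _ => 0

lemma UL_lt (i0 : Fin n) {J l : ℕ} (h : l < J) : UL s0 f ε δ lab i0 J l =
    UU s0 f ε δ lab l fun i => av (sc s0 l) (RR s0 f ε δ lab i0 J (l + 1) i) := by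
  unfold UL; rw [if_pos h]

lemma UL_lb (hf : Continuous f) (hnet : ∀ e : E, ‖e‖ = 1 → ∃ i, ‖e - lab i‖ ≤ ε / 4)
    (i0 : Fin n) (J l : ℕ) : LB (UL s0 f ε δ lab i0 J l) := by
  unfold UL
  split_ifs
  · exact UU_lb hf l ((RR_wt hf hnet i0 J (l + 1)).av _)
  · exact LB.zero

lemma UL_nonneg (hf : Continuous f) (hnet : ∀ e : E, ‖e‖ = 1 → ∃ i, ‖e - lab i‖ ≤ ε / 4)
    (i0 : Fin n) (J l : ℕ) (z : Sp d) : 0 ≤ UL s0 f ε δ lab i0 J l z := by
  unfold UL
  split_ifs
  · exact UU_nonneg l ((RR_wt hf hnet i0 J (l + 1)).av _) z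
  · exact le_rfl

lemma cost_lemma [CompleteSpace E] (hf : Continuous f) (hf' : HasCompactSupport f) (hε : 0 < ε)
    (hlab : ∀ i, ‖lab i‖ = 1) (hnet : ∀ e : E, ‖e‖ = 1 → ∃ i, ‖e - lab i‖ ≤ ε / 4)
    (i0 : Fin n) (J : ℕ) :
    ∑ l ∈ Finset.range J, ∫ z, UL s0 f ε δ lab i0 J l z * ‖fl s0 f l z‖ ≤
      8 / ε ^ 2 * ∫ z, ‖f z‖ := by
  set P : ℕ → ℝ := fun l => PP s0 f lab l (RR s0 f ε δ lab i0 J l) with hP
  have h1 : ∀ l ∈ Finset.range J, 15 / 32 * ε ^ 2 * ∫ z, UL s0 f ε δ lab i0 J l z *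
      ‖fl s0 f l z‖ ≤ P l - P (l + 1) := by
    intro l hl
    rw [Finset.mem_range] at hl
    have hw := RR_wt (s0 := s0) (δ := δ) hf hnet i0 J (l + 1)
    have h2 := PP_gain (s0 := s0) (δ := δ) hf hf' hε hlab hnet l (hw.av (sc s0 l))
    rw [← PP_succ hf hf' l hw, ← RR_succ i0 hl, ← UL_lt i0 hl] at h2
    simp only [hP]
    linarith
  have h3 := Finset.sum_le_sum h1
  rw [Finset.sum_range_sub', ← Finset.mul_sum] at h3
  have h4 := PP_abs (s0 := s0) hf hf' hlab 0 (RR_wt (s0 := s0) (δ := δ) hf hnet i0 J 0)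
  have h5 := PP_abs (s0 := s0) hf hf' hlab J (RR_wt (s0 := s0) (δ := δ) hf hnet i0 J J)
  rw [abs_le] at h4 h5
  have h6 : P 0 - P J ≤ 2 * ∫ z, ‖f z‖ := by simp only [hP]; linarith [h4.2, h5.1]
  have h7 : 0 ≤ ∫ z, ‖f z‖ := integral_nonneg fun z => norm_nonneg _
  have hε2 : 0 < ε ^ 2 := by positivity
  rw [div_mul_eq_mul_div, le_div_iff₀ hε2]
  nlinarith

/-! ## capture -/

open Classical in
/-- total weight of a set of labels -/
def sw (S : Fin n → Prop) (w : Fin n → Sp d → ℝ) (z : Sp d) : ℝ := ∑ j, if S j then w j z else 0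

lemma mvw_supp {l : ℕ} {w : Fin n → Sp d → ℝ} {z : Sp d} (hε : 0 < ε) (hg : Gated s0 f δ l z)
    {j : Fin n} (h : mvw s0 f ε δ lab l w j z ≠ 0) : ‖dirv s0 f l z - lab j‖ ≤ ε := by
  classical
  by_contra hc
  apply h
  unfold mvw
  have h1 : BadL s0 f ε lab l z j := not_le.mp hc
  have h2 : ¬ FstL s0 f ε lab l z j := by
    intro h3
    have h4 : ‖dirv s0 f l z - lab j‖ ≤ ε / 4 := h3.1
    apply hc
    linarith
  rw [if_pos hg, if_pos h1, if_neg h2, add_zero]

lemma sw_mvw (S : Fin n → Prop) (l : ℕ) {w : Fin n → Sp d → ℝ} (hw : Wt w) (z : Sp d) :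
    sw S w z - UU s0 f ε δ lab l w z ≤ sw S (mvw s0 f ε δ lab l w) z := by
  classical
  unfold sw UU
  by_cases hg : Gated s0 f δ l z
  · rw [if_pos hg]
    unfold badw
    rw [← Finset.sum_sub_distrib]
    refine Finset.sum_le_sum fun j _ => ?_
    have h1 := hw.nonneg j z
    have h2 := badw_nonneg (f := f) s0 ε lab l hw z
    unfold mvw
    rw [if_pos hg]
    by_cases hS : S j
    · rw [if_pos hS, if_pos hS]
      by_cases hb : BadL s0 f ε lab l z j
      · rw [if_pos hb, if_pos hb]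
        split_ifs <;> linarith
      · rw [if_neg hb, if_neg hb]
        split_ifs <;> linarith
    · rw [if_neg hS, if_neg hS]
      split_ifs <;> linarith
  · rw [if_neg hg]
    unfold mvw
    simp only [if_neg hg]
    simp

lemma sw_av (S : Fin n → Prop) (s : ℝ) {w : Fin n → Sp d → ℝ} (hw : Wt w) (z : Sp d) :
    sw S (fun i => av s (w i)) z = av s (sw S w) z := by
  classical
  unfold sw
  rw [av_sum Finset.univ]
  · refine Finset.sum_congr rfl fun j _ => ?_
    split_ifs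
    · rfl
    · rw [av_const]
  · intro j _
    split_ifs
    · exact hw.lb j
    · exact LB.zero

lemma sw_lb (S : Fin n → Prop) {w : Fin n → Sp d → ℝ} (hw : Wt w) : LB (sw S w) := by
  classical
  unfold sw
  refine LB.sum _ fun j _ => ?_
  split_ifs
  · exact hw.lb j
  · exact LB.zero

lemma sw_nonneg (S : Fin n → Prop) {w : Fin n → Sp d → ℝ} (hw : Wt w) (z : Sp d) :
    0 ≤ sw S w z := by
  classical
  unfold sw
  refine Finset.sum_nonneg fun j _ => ?_
  split_ifs
  · exact hw.nonneg j z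
  · exact le_rfl

/-- the indicator of a ball -/
def bi (x : Sp d) (r : ℝ) : Sp d → ℝ := (ball x r).indicator fun _ => (1 : ℝ)

lemma bi_lb (x : Sp d) (r : ℝ) : LB (bi x r) :=
  (LB.of_cont (continuous_const (y := (1 : ℝ)))).indicator measurableSet_ball

lemma bi_nonneg (x : Sp d) (r : ℝ) (z : Sp d) : 0 ≤ bi x r z :=
  Set.indicator_nonneg (fun _ _ => zero_le_one) z

/-- the constant -/
def cc0 (d : ℕ) : ℝ := bk d 0 * (volume (ball (0 : Sp d) 1)).toReal / 4 ^ d

lemma cc0_pos : 0 < cc0 d := by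
  have h1 := bk_zero_pos (d := d)
  have h2 : 0 < (volume (ball (0 : Sp d) 1)).toReal :=
    ENNReal.toReal_pos (measure_ball_pos _ _ one_pos).ne' measure_ball_lt_top.ne
  unfold cc0
  positivity

lemma bi_low (hs : 0 < s0) (m r : ℕ) (x z : Sp d) (hz : ‖z - x‖ ≤ sc s0 (m + r) / 4) :
    cc0 d ≤ kav s0 m (r + 1) (bi x (sc s0 (m + r) / 4)) z := by
  have hp := sc_pos hs (m + r)
  refine le_trans (le_of_eq ?_) (kav_lower hs (bi_lb x _) (bi_nonneg x _) m r z)
  unfold bi
  rw [setIntegral_indicator measurableSet_ball]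
  have h1 : ball z (3 / 4 * sc s0 (m + r)) ∩ ball x (sc s0 (m + r) / 4) =
      ball x (sc s0 (m + r) / 4) := by
    apply inter_eq_right.mpr
    intro w hw
    rw [mem_ball, dist_eq_norm] at hw ⊢
    have h4 : ‖w - z‖ ≤ ‖w - x‖ + ‖z - x‖ := by
      have := norm_sub_le (w - x) (z - x)
      rwa [sub_sub_sub_cancel_right] at this
    linarith
  rw [h1]
  simp only [integral_const, MeasurableSet.univ, measureReal_restrict_apply, univ_inter,
    smul_eq_mul, mul_one]
  rw [measureReal_def, Measure.addHaar_ball_of_pos volume x (by positivity : 0 < sc s0 (m + r) / 4),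
    finrank_euclideanSpace_fin, ENNReal.toReal_mul, ENNReal.toReal_ofReal (by positivity)]
  unfold cc0
  rw [div_pow]
  field_simp

lemma kav_level (g : Sp d → ℝ) (hg : LB g) {l i' : ℕ} (h : l < i') :
    av (sc s0 l) (kav s0 (l + 1) (i' - (l + 1)) g) = kav s0 l (i' - l) g := by
  obtain ⟨k, rfl⟩ : ∃ k, i' = l + (k + 1) := ⟨i' - l - 1, by omega⟩
  have e1 : l + (k + 1) - (l + 1) = k := by omega
  have e2 : l + (k + 1) - l = k + 1 := by omega
  rw [e1, e2, kav_succ', kav_av_comm hg]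

lemma capture_ind (hf : Continuous f)
    (hnet : ∀ e : E, ‖e‖ = 1 → ∃ i, ‖e - lab i‖ ≤ ε / 4) (i0 : Fin n) {J i' : ℕ} (hi' : i' < J)
    (S : Fin n → Prop) {g : Sp d → ℝ} (hg : LB g)
    (h0 : ∀ z, g z ≤ sw S (RR s0 f ε δ lab i0 J i') z) :
    ∀ k l : ℕ, l + k = i' → ∀ z, kav s0 l (i' - l) g z -
      ∑ l' ∈ Finset.Ico l i', kav s0 l (l' - l) (UL s0 f ε δ lab i0 J l') z ≤
      sw S (RR s0 f ε δ lab i0 J l) z := by
  intro k
  induction k with
  | zero =>
    intro l hl z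
    rw [add_zero] at hl
    subst hl
    simp only [Nat.sub_self, Finset.Ico_self, Finset.sum_empty, sub_zero]
    exact h0 z
  | succ k ih =>
    intro l hl z
    have hl' : l < i' := by omega
    have hlJ : l < J := by omega
    have h1 := ih (l + 1) (by omega)
    have hw := RR_wt (s0 := s0) (δ := δ) hf hnet i0 J (l + 1)
    have hU : ∀ l', LB (UL s0 f ε δ lab i0 J l') := UL_lb hf hnet i0 J
    have hs1 : LB (fun z => ∑ l' ∈ Finset.Ico (l + 1) i',
        kav s0 (l + 1) (l' - (l + 1)) (UL s0 f ε δ lab i0 J l') z) :=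
      LB.sum _ fun l' _ => (hU l').kav _ _ _
    have h2 := av_mono ((hg.kav s0 (l + 1) (i' - (l + 1))).sub hs1) (sw_lb S hw) h1 (sc s0 l) z
    rw [av_sub (hg.kav s0 (l + 1) (i' - (l + 1))) hs1,
      av_sum _ fun l' _ => (hU l').kav _ _ _, kav_level g hg hl', ← sw_av S _ hw] at h2
    have h3 : ∑ l' ∈ Finset.Ico (l + 1) i', av (sc s0 l)
        (kav s0 (l + 1) (l' - (l + 1)) (UL s0 f ε δ lab i0 J l')) z =
        ∑ l' ∈ Finset.Ico (l + 1) i', kav s0 l (l' - l) (UL s0 f ε δ lab i0 J l') z := by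
      refine Finset.sum_congr rfl fun l' hl'' => ?_
      rw [Finset.mem_Ico] at hl''
      rw [kav_level _ (hU l') (by omega)]
    rw [h3] at h2
    have h4 := sw_mvw (s0 := s0) (f := f) (ε := ε) (δ := δ) (lab := lab) S l (hw.av (sc s0 l)) z
    rw [← UL_lt i0 hlJ, ← RR_succ i0 hlJ] at h4
    rw [Finset.sum_eq_sum_Ico_succ_bot hl', Nat.sub_self]
    change _ - (UL s0 f ε δ lab i0 J l z + _) ≤ _
    linarith

lemma near_dir {p : E} {l : ℕ} {z : Sp d} (hg : Gated s0 f δ l z) (h : Near s0 f ε l z p) :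
    ‖dirv s0 f l z - p‖ ≤ ε := by
  have hp := norm_pos_iff.mpr hg.1
  unfold Near at h
  have h1 : fl s0 f l z - ‖fl s0 f l z‖ • p = ‖fl s0 f l z‖ • (dirv s0 f l z - p) := by
    rw [smul_sub, ← fl_eq_dirv hg.1]
  rw [h1, norm_smul, norm_norm, mul_comm] at h
  exact le_of_mul_le_mul_right h hp

lemma capture_lemma (hf : Continuous f) (hs : 0 < s0) (hε : 0 < ε)
    (hnet : ∀ e : E, ‖e‖ = 1 → ∃ i, ‖e - lab i‖ ≤ ε / 4) (i0 : Fin n) (J : ℕ)
    (x : Sp d) (i i' : ℕ) (p p' : E) (hi : 1 ≤ i) (hii : i < i') (hi' : i' < J)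
    (hpp : 5 * ε ≤ ‖p - p'‖)
    (h1 : ∀ z ∈ ball x (sc s0 (i - 1) / 4), Gated s0 f δ i z ∧ Near s0 f ε i z p)
    (h2 : ∀ z ∈ ball x (sc s0 (i' - 1) / 4), Gated s0 f δ i' z ∧ Near s0 f ε i' z p') :
    cc0 d * cc0 d ≤ ∑ l ∈ Finset.Ico i i', kav s0 0 l (UL s0 f ε δ lab i0 J l) x := by
  classical
  set S : Fin n → Prop := fun j => ‖lab j - p'‖ ≤ 2 * ε with hS
  have hU : ∀ l', LB (UL s0 f ε δ lab i0 J l') := UL_lb hf hnet i0 J
  have hU0 : ∀ l' z, 0 ≤ UL s0 f ε δ lab i0 J l' z := fun l' z => UL_nonneg hf hnet i0 J l' z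
  have hb : ∀ z, bi x (sc s0 (i' - 1) / 4) z ≤ sw S (RR s0 f ε δ lab i0 J i') z := by
    intro z
    have hw := RR_wt (s0 := s0) (δ := δ) hf hnet i0 J i'
    by_cases hz : z ∈ ball x (sc s0 (i' - 1) / 4)
    · have e1 : bi x (sc s0 (i' - 1) / 4) z = 1 := by
        unfold bi; rw [Set.indicator_of_mem hz]
      rw [e1, ← hw.sum_one z]
      unfold sw
      refine Finset.sum_le_sum fun j _ => ?_
      by_cases hj : S j
      · rw [if_pos hj]
      · rw [if_neg hj]
        refine le_of_eq ?_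
        by_contra hne
        apply hj
        obtain ⟨hg, hn⟩ := h2 z hz
        rw [RR_succ i0 hi'] at hne
        have h3 := mvw_supp hε hg hne
        have h4 := near_dir hg hn
        have h5 : lab j - p' = (dirv s0 f i' z - p') - (dirv s0 f i' z - lab j) := by abel
        change ‖lab j - p'‖ ≤ 2 * ε
        rw [h5]
        refine (norm_sub_le _ _).trans ?_
        linarith
    · have e1 : bi x (sc s0 (i' - 1) / 4) z = 0 := by
        unfold bi; rw [Set.indicator_of_notMem hz]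
      rw [e1]
      exact sw_nonneg S hw z
  have h3 := capture_ind hf hnet i0 hi' S (bi_lb x _) hb (i' - i) i (by omega)
  -- lower bound of the sum near x
  set G : Sp d → ℝ := fun z => ∑ l ∈ Finset.Ico i i',
    kav s0 i (l - i) (UL s0 f ε δ lab i0 J l) z with hG
  have hGlb : LB G := LB.sum _ fun l _ => (hU l).kav _ _ _
  have h4 : ∀ z, cc0 d * bi x (sc s0 (i - 1) / 4) z ≤ G z := by
    intro z
    by_cases hz : z ∈ ball x (sc s0 (i - 1) / 4)
    · have e1 : bi x (sc s0 (i - 1) / 4) z = 1 := by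
        unfold bi; rw [Set.indicator_of_mem hz]
      rw [e1, mul_one]
      have h5 : sw S (RR s0 f ε δ lab i0 J i) z = 0 := by
        unfold sw
        refine Finset.sum_eq_zero fun j _ => ?_
        by_cases hj : S j
        · rw [if_pos hj]
          by_contra hne
          obtain ⟨hg, hn⟩ := h1 z hz
          rw [RR_succ i0 (hii.trans hi')] at hne
          have h6 := mvw_supp hε hg hne
          have h7 := near_dir hg hn
          have h8 : ‖lab j - p'‖ ≤ 2 * ε := hj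
          have h9 : p - p' = (dirv s0 f i z - lab j) - (dirv s0 f i z - p) + (lab j - p') := by
            abel
          rw [h9] at hpp
          have h10 := norm_add_le ((dirv s0 f i z - lab j) - (dirv s0 f i z - p)) (lab j - p')
          have h11 := norm_sub_le (dirv s0 f i z - lab j) (dirv s0 f i z - p)
          linarith
        · rw [if_neg hj]
      have h6 := h3 z
      rw [h5] at h6
      have h7 : cc0 d ≤ kav s0 i (i' - i) (bi x (sc s0 (i' - 1) / 4)) z := by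
        obtain ⟨k, rfl⟩ : ∃ k, i' = i + (k + 1) := ⟨i' - i - 1, by omega⟩
        have e2 : i + (k + 1) - i = k + 1 := by omega
        have e3 : i + (k + 1) - 1 = i + k := by omega
        rw [e2, e3]
        refine bi_low hs i k x z ?_
        rw [mem_ball, dist_eq_norm] at hz
        have h8 : sc s0 (i - 1) ≤ sc s0 (i + k) := sc_le hs (by omega)
        linarith
      simp only [hG]
      linarith
    · have e1 : bi x (sc s0 (i - 1) / 4) z = 0 := by
        unfold bi; rw [Set.indicator_of_notMem hz]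
      rw [e1, mul_zero]
      exact Finset.sum_nonneg fun l _ => kav_nonneg (hU0 l) _ _ _ _
  have h5 := kav_mono ((bi_lb x (sc s0 (i - 1) / 4)).const_mul (cc0 d)) hGlb h4 s0 0 i x
  rw [kav_mul] at h5
  have h6 : cc0 d ≤ kav s0 0 i (bi x (sc s0 (i - 1) / 4)) x := by
    obtain ⟨k, rfl⟩ : ∃ k, i = k + 1 := ⟨i - 1, by omega⟩
    have e3 : k + 1 - 1 = 0 + k := by omega
    rw [e3]
    refine bi_low hs 0 k x x ?_
    have := sc_pos hs (0 + k)
    rw [sub_self, norm_zero]
    positivity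
  have h7 : kav s0 0 i G x = ∑ l ∈ Finset.Ico i i', kav s0 0 l (UL s0 f ε δ lab i0 J l) x := by
    simp only [hG]
    rw [kav_sum _ fun l _ => (hU l).kav _ _ _]
    refine Finset.sum_congr rfl fun l hl => ?_
    rw [Finset.mem_Ico] at hl
    rw [kav_kav_comm (hU l)]
    have h8 := kav_comp s0 0 i (l - i) (UL s0 f ε δ lab i0 J l)
    rw [zero_add] at h8
    rw [h8]
    congr 2
    omega
  rw [h7] at h5
  have h8 := cc0_pos (d := d)
  nlinarith

end

/-- MODULE LAB -/
theorem stmtLab : StmtLab := by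
  intro d
  refine ⟨cc0 d * cc0 d, mul_pos cc0_pos cc0_pos, ?_⟩
  intro E _ _ _ f hf hf' s0 ε δ hs hε _ _ n lab hn hlab hnet J
  have : CompleteSpace E := FiniteDimensional.complete ℝ E
  refine ⟨UL s0 f ε δ lab ⟨0, hn⟩ J, ?_⟩
  refine ⟨fun l => (UL_lb hf hnet _ J l).meas.measurable, fun l z => UL_nonneg hf hnet _ J l z,
    ?_, ?_, cost_lemma hf hf' hε hlab hnet _ J, ?_⟩
  · intro l z
    unfold UL
    split_ifs
    · exact UU_le_one l ((RR_wt hf hnet _ J (l + 1)).av _) z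
    · exact zero_le_one
  · intro l z h
    unfold UL at h
    split_ifs at h
    · unfold UU at h
      by_contra hg
      rw [if_neg hg] at h
      exact h rfl
    · exact absurd rfl h
  · intro x i i' p p' hi hii hi' _ _ hpp h1 h2
    exact capture_lemma hf hs hε hnet _ J x i i' p p' hi hii hi' hpp h1 h2

end

end TrI
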