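import Pool.Agent.TR.Stmts
import Pool.Agent.TR.Basic

/-!
# Modules LI and LT: one level estimates for the slice functionals
-/

open MeasureTheory Metric Set
open scoped InnerProductSpace ContDiff

namespace TrI

noncomputable section

namespace LI

variable {d : ℕ}

/-! ## elementary facts on integrals -/

/-- reflection in a ball -/
lemma int_ball_neg {F : Type*} [NormedAddCommGroup F] [NormedSpace ℝ F] (G : Sp d → F)
    (q : Sp d) (R : ℝ) : ∫ y in ball (-q) R, G (-y) = ∫ y in ball q R, G y := by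
  rw [← integral_indicator measurableSet_ball, ← integral_indicator measurableSet_ball,
    ← integral_neg_eq_self (fun y => (ball q R).indicator G y)]
  congr 1
  funext y
  by_cases h : y ∈ ball (-q) R
  · have h' : -y ∈ ball q R := by
      rw [mem_ball, dist_eq_norm] at h ⊢
      rwa [← norm_neg, show -(-y - q) = y - -q by abel]
    rw [indicator_of_mem h, indicator_of_mem h']
  · have h' : -y ∉ ball q R := by
      intro h'
      apply h
      rw [mem_ball, dist_eq_norm] at h' ⊢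
      rwa [← norm_neg, show -(y - -q) = -y - q by abel]
    rw [indicator_of_notMem h, indicator_of_notMem h']

/-- change of variables, upper bound -/
lemma int_ball_le {g : Sp d → ℝ} (hg : Continuous g) (h0 : ∀ z, 0 ≤ g z) {s t : ℝ} (hs : 0 < s)
    (ht : s ≤ |t|) (x x' q : Sp d) (R R' : ℝ)
    (hsub : ∀ y ∈ ball q R, x' + t • y ∈ ball x R') :
    ∫ y in ball q R, g (x' + t • y) ≤ (s ^ d)⁻¹ * ∫ z in ball x R', g z := by
  have ht0 : t ≠ 0 := by
    intro h; rw [h, abs_zero] at ht; linarith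
  set h : Sp d → ℝ := (ball x R').indicator g with hh
  have hint : Integrable h := by
    rw [hh, integrable_indicator_iff measurableSet_ball]
    exact (LB.of_cont hg).integrableOn isBounded_ball
  have h1 : ∫ y in ball q R, g (x' + t • y) ≤ ∫ y, h (x' + t • y) := by
    have hcomp : Integrable (fun y => h (x' + t • y)) := by
      have h2 : Integrable (fun y => h (x' + y)) := hint.comp_add_left x'
      exact (integrable_comp_smul_iff volume (fun y => h (x' + y)) ht0).2 h2
    rw [← integral_indicator measurableSet_ball]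
    apply integral_mono_of_nonneg
    · exact Filter.Eventually.of_forall fun y => indicator_nonneg (fun z _ => h0 _) y
    · exact hcomp
    · apply Filter.Eventually.of_forall
      intro y
      by_cases hy : y ∈ ball q R
      · simp only [indicator_of_mem hy, hh, indicator_of_mem (hsub y hy), le_refl]
      · simp only [indicator_of_notMem hy]
        exact indicator_nonneg (fun z _ => h0 z) _
  refine h1.trans ?_
  have h3 : ∫ y, h (x' + t • y) = |(t ^ d)⁻¹| * ∫ z, h z := by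
    have := Measure.integral_comp_smul (volume : Measure (Sp d)) (fun y => h (x' + y)) t
    rw [this, integral_add_left_eq_self, finrank_euclideanSpace_fin, smul_eq_mul]
  rw [h3, hh, integral_indicator measurableSet_ball]
  apply mul_le_mul_of_nonneg_right
  · rw [abs_inv, abs_pow]
    exact inv_anti₀ (pow_pos hs d) (pow_le_pow_left₀ hs.le ht d)
  · exact integral_nonneg fun z => h0 z

/-- continuity of parametric integrals over a bounded set -/
lemma cont_par {G : ℝ → Sp d → ℝ} (hG : Continuous (Function.uncurry G)) (q : Sp d) (R : ℝ) :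
    Continuous fun t => ∫ y in ball q R, G t y := by
  have h := continuous_parametric_integral_of_continuous
    (μ := (volume : Measure (Sp d)).restrict (ball q R)) hG (isCompact_closedBall q R)
  have e : (fun t => ∫ y in closedBall q R, G t y ∂((volume : Measure (Sp d)).restrict (ball q R)))
      = fun t => ∫ y in ball q R, G t y := by
    funext t
    rw [Measure.restrict_restrict measurableSet_closedBall,
      inter_eq_self_of_subset_right ball_subset_closedBall]
  rw [e] at h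
  exact h

/-- continuity of parametric integrals of functions of bounded support -/
lemma cont_par' {G : ℝ → Sp d → ℝ} (hG : Continuous (Function.uncurry G)) (q : Sp d) (R : ℝ)
    (h0 : ∀ t y, R ≤ ‖y - q‖ → G t y = 0) :
    Continuous fun t => ∫ y, G t y := by
  have h := cont_par hG q R
  have e : (fun t => ∫ y in ball q R, G t y) = fun t => ∫ y, G t y := by
    funext t
    apply setIntegral_eq_integral_of_forall_compl_eq_zero
    intro y hy
    apply h0
    rw [mem_ball, dist_eq_norm] at hy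
    linarith
  rw [e] at h
  exact h

/-! ## cut-off fields -/

lemma cut_lip {F : Type*} [NormedAddCommGroup F] [NormedSpace ℝ F] {w : Sp d → F} {y0 : Sp d}
    {ρ B r l : ℝ} {κ : Sp d → ℝ} (hB : 0 < B) (hbd : ∀ y ∈ ball y0 ρ, ‖w y‖ ≤ B)
    (hlip : ∀ y ∈ ball y0 ρ, ∀ y' ∈ ball y0 ρ, ‖w y - w y'‖ ≤ B * ‖y - y'‖)
    (hκ : IsCut κ y0 r l) (hr : r ≤ ρ) (y y' : Sp d) :
    ‖κ y • w y - κ y' • w y'‖ ≤ B * (l + 1) * ‖y - y'‖ := by
  have hl := hκ.l_nonneg
  have hz : ∀ z, z ∉ ball y0 ρ → κ z = 0 := by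
    intro z hz
    apply hκ.supp
    rw [mem_ball, dist_eq_norm] at hz
    linarith
  have hnn : 0 ≤ ‖y - y'‖ := norm_nonneg _
  have key : ∀ a b, a ∈ ball y0 ρ → b ∉ ball y0 ρ → ‖κ a • w a‖ ≤ B * (l + 1) * ‖a - b‖ := by
    intro a b ha hb
    rw [norm_smul, Real.norm_eq_abs]
    have h1 := hκ.lip a b
    rw [hz b hb, sub_zero] at h1
    calc |κ a| * ‖w a‖ ≤ (l * ‖a - b‖) * B :=
          mul_le_mul h1 (hbd a ha) (norm_nonneg _) (by positivity)
      _ ≤ B * (l + 1) * ‖a - b‖ := by nlinarith [norm_nonneg (a - b), mul_nonneg hB.le (norm_nonneg (a-b))]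
  by_cases h1 : y ∈ ball y0 ρ
  · by_cases h2 : y' ∈ ball y0 ρ
    · have e : κ y • w y - κ y' • w y' = (κ y - κ y') • w y + κ y' • (w y - w y') := by
        rw [sub_smul, smul_sub]; abel
      rw [e]
      refine (norm_add_le _ _).trans ?_
      rw [norm_smul, norm_smul, Real.norm_eq_abs, Real.norm_eq_abs]
      have e1 := mul_le_mul (hκ.lip y y') (hbd y h1) (norm_nonneg _) (by positivity)
      have e2 := mul_le_mul (hκ.bd y') (hlip y h1 y' h2) (norm_nonneg _) zero_le_one
      nlinarith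
    · rw [hz y' h2, zero_smul, sub_zero]
      exact key y y' h1 h2
  · by_cases h2 : y' ∈ ball y0 ρ
    · rw [hz y h1, zero_smul, zero_sub, norm_neg, ← norm_neg (y - y'), neg_sub]
      exact key y' y h2 h1
    · rw [hz y h1, hz y' h2, zero_smul, zero_smul, sub_zero, norm_zero]
      positivity

lemma cont_of_lip {F : Type*} [NormedAddCommGroup F] {g : Sp d → F} {K : ℝ}
    (h : ∀ y y', ‖g y - g y'‖ ≤ K * ‖y - y'‖) : Continuous g := by
  have : LipschitzWith (Real.toNNReal K) g := by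
    apply LipschitzWith.of_dist_le_mul
    intro y y'
    rw [dist_eq_norm, dist_eq_norm]
    refine (h y y').trans ?_
    apply mul_le_mul_of_nonneg_right (Real.le_coe_toNNReal K) (norm_nonneg _)
  exact this.continuous

lemma cs_of_supp {F : Type*} [NormedAddCommGroup F] {g : Sp d → F} {y0 : Sp d} {r : ℝ}
    (h : ∀ y, r ≤ ‖y - y0‖ → g y = 0) : HasCompactSupport g := by
  apply HasCompactSupport.intro (isCompact_closedBall y0 r)
  intro y hy
  apply h
  rw [mem_closedBall, dist_eq_norm] at hy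
  linarith

/-! ## the slice identity -/

section Slice

variable {V E : Type} [NormedAddCommGroup V] [InnerProductSpace ℝ V]
  [NormedAddCommGroup E] [InnerProductSpace ℝ E]
  {L : (Sp d →L[ℝ] V) →L[ℝ] E}

lemma fo_cont {u : Sp d → V} (hu : TF u) : Continuous (fo L u) := by
  have : Continuous (fderiv ℝ u) := hu.smooth.continuous_fderiv (by simp)
  exact L.continuous.comp this

lemma fo_cs {u : Sp d → V} (hu : TF u) : HasCompactSupport (fo L u) := by
  have h : HasCompactSupport (fderiv ℝ u) := hu.supp.fderiv ℝ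
  exact h.comp_left (map_zero L)

/-- the derivative of the slice functional -/
def SD (L : (Sp d →L[ℝ] V) →L[ℝ] E) (u : Sp d → V) (τ : Sp d → E) (κ : Sp d → ℝ) (x : Sp d)
    (t : ℝ) : ℝ := ∫ y, ⟪κ y • τ y, fo L u (x + t • y)⟫_ℝ

lemma SD_cont {u : Sp d → V} (hu : TF u) {y0 : Sp d} {ρ B r l : ℝ} {w : Sp d → V}
    {τ : Sp d → E} {κ : Sp d → ℝ} (hc : IsCap L y0 ρ B w τ) (hκ : IsCut κ y0 r l) (hr : r ≤ ρ)
    (x : Sp d) : Continuous (SD L u τ κ x) := by
  have hT : Continuous fun y => κ y • τ y :=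
    cont_of_lip (cut_lip hc.B_pos hc.τ_bd hc.τ_lip hκ hr)
  have hf := fo_cont (L := L) hu
  apply cont_par' (G := fun t y => ⟪κ y • τ y, fo L u (x + t • y)⟫_ℝ) _ y0 r
  · intro t y hy
    simp [hκ.supp y hy]
  · show Continuous fun p : ℝ × Sp d => ⟪κ p.2 • τ p.2, fo L u (x + p.1 • p.2)⟫_ℝ
    apply Continuous.inner
    · exact hT.comp continuous_snd
    · exact hf.comp (continuous_const.add (continuous_fst.smul continuous_snd))

lemma YY_deriv {u : Sp d → V} (hu : TF u) {y0 : Sp d} {ρ B r l : ℝ} {w : Sp d → V}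
    {τ : Sp d → E} {κ : Sp d → ℝ} (hc : IsCap L y0 ρ B w τ) (hκ : IsCut κ y0 r l) (hr : r ≤ ρ)
    (x : Sp d) (t : ℝ) : HasDerivAt (YY u w κ x) (SD L u τ κ x t) t := by
  have hW : Continuous fun y => κ y • w y :=
    cont_of_lip (cut_lip hc.B_pos hc.w_bd hc.w_lip hκ hr)
  have hWs : HasCompactSupport fun y => κ y • w y :=
    cs_of_supp (y0 := y0) (r := r) fun y hy => by rw [hκ.supp y hy, zero_smul]
  have hDc : Continuous (fderiv ℝ u) := hu.smooth.continuous_fderiv (by simp)
  have hDs : HasCompactSupport (fderiv ℝ u) := hu.supp.fderiv ℝ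
  obtain ⟨M, hM⟩ := hDc.bounded_above_of_compact_support hDs
  have huc : Continuous u := hu.smooth.continuous
  have e1 : YY u w κ x = fun t => ∫ y, ⟪κ y • w y, u (x + t • y)⟫_ℝ := by
    funext t
    unfold YY
    congr 1
    funext y
    rw [real_inner_smul_left]
  have e2 : SD L u τ κ x t = ∫ y, ⟪κ y • w y, fderiv ℝ u (x + t • y) y⟫_ℝ := by
    unfold SD
    congr 1
    funext y
    rw [real_inner_smul_left, real_inner_smul_left]
    by_cases hy : y ∈ ball y0 ρ
    · rw [hc.slice y hy, real_inner_comm]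
      rfl
    · have : κ y = 0 := by
        apply hκ.supp
        rw [mem_ball, dist_eq_norm] at hy
        linarith
      rw [this, zero_mul, zero_mul]
  rw [e1, e2]
  have hcf : ∀ t : ℝ, Continuous fun y => ⟪κ y • w y, u (x + t • y)⟫_ℝ := fun t =>
    hW.inner (huc.comp (continuous_const.add (continuous_const_smul t)))
  have hsf : ∀ t : ℝ, HasCompactSupport fun y => ⟪κ y • w y, u (x + t • y)⟫_ℝ := fun t =>
    hWs.mono' (fun y hy => by
      apply subset_closure
      intro h0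
      apply hy
      simp only [h0, inner_zero_left])
  have hcd : Continuous fun y => ⟪κ y • w y, fderiv ℝ u (x + t • y) y⟫_ℝ :=
    hW.inner ((hDc.comp (continuous_const.add (continuous_const_smul t))).clm_apply
      continuous_id)
  have hbc : Continuous fun y => ‖κ y • w y‖ * (M * ‖y‖) := hW.norm.mul (continuous_const.mul continuous_norm)
  have hbs : HasCompactSupport fun y => ‖κ y • w y‖ * (M * ‖y‖) :=
    hWs.mono' (fun y hy => by
      apply subset_closure
      intro h0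
      apply hy
      simp only [h0, norm_zero, zero_mul])
  refine (hasDerivAt_integral_of_dominated_loc_of_deriv_le
    (F := fun t y => ⟪κ y • w y, u (x + t • y)⟫_ℝ)
    (F' := fun t y => ⟪κ y • w y, fderiv ℝ u (x + t • y) y⟫_ℝ)
    (bound := fun y => ‖κ y • w y‖ * (M * ‖y‖)) (s := univ) (x₀ := t) Filter.univ_mem
    ?_ ?_ ?_ ?_ ?_ ?_).2
  · exact Filter.Eventually.of_forall fun t => (hcf t).aestronglyMeasurable
  · exact (hcf t).integrable_of_hasCompactSupport (hsf t)
  · exact hcd.aestronglyMeasurable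
  · apply Filter.Eventually.of_forall
    intro y t' _
    refine (norm_inner_le_norm _ _).trans ?_
    apply mul_le_mul_of_nonneg_left _ (norm_nonneg _)
    refine (ContinuousLinearMap.le_opNorm _ _).trans ?_
    exact mul_le_mul_of_nonneg_right (hM _) (norm_nonneg _)
  · exact hbc.integrable_of_hasCompactSupport hbs
  · apply Filter.Eventually.of_forall
    intro y t' _
    have h1 : HasDerivAt (fun t : ℝ => x + t • y) y t' := by
      have := (hasDerivAt_id t').smul_const y
      simpa using this.const_add x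
    have h2 : HasFDerivAt u (fderiv ℝ u (x + t' • y)) (x + t' • y) :=
      (hu.smooth.differentiable (by simp) _).hasFDerivAt
    have h3 := h2.comp_hasDerivAt t' h1
    have h4 := (hasDerivAt_const t' (κ y • w y)).inner ℝ h3
    simpa using h4

lemma YY_sub {u : Sp d → V} (hu : TF u) {y0 : Sp d} {ρ B r l : ℝ} {w : Sp d → V}
    {τ : Sp d → E} {κ : Sp d → ℝ} (hc : IsCap L y0 ρ B w τ) (hκ : IsCut κ y0 r l) (hr : r ≤ ρ)
    (x : Sp d) (a b : ℝ) :
    YY u w κ x b - YY u w κ x a = ∫ t in a..b, SD L u τ κ x t := by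
  rw [intervalIntegral.integral_eq_sub_of_hasDerivAt]
  · intro t _
    exact YY_deriv hu hc hκ hr x t
  · exact (SD_cont hu hc hκ hr x).intervalIntegrable _ _

lemma DD_sub {u : Sp d → V} (hu : TF u) {y0 : Sp d} {ρ B r l : ℝ} {w : Sp d → V}
    {τ : Sp d → E} {κ : Sp d → ℝ} (hc : IsCap L y0 ρ B w τ) (hκ : IsCut κ y0 r l) (hr : r ≤ ρ)
    (x : Sp d) (a b : ℝ) :
    DD u w κ x b - DD u w κ x a = ∫ t in a..b, (SD L u τ κ x t + SD L u τ κ x (-t)) := by
  have hcont := SD_cont (L := L) hu hc hκ hr x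
  have hneg : Continuous fun t => SD L u τ κ x (-t) := hcont.comp continuous_neg
  rw [intervalIntegral.integral_add (hcont.intervalIntegrable _ _)
    (hneg.intervalIntegrable _ _),
    intervalIntegral.integral_comp_neg (fun t => SD L u τ κ x t), ← YY_sub hu hc hκ hr,
    ← YY_sub hu hc hκ hr]
  unfold DD
  ring

end Slice

/-! ## positivity -/

lemma pos_inner {E : Type*} [NormedAddCommGroup E] [InnerProductSpace ℝ E] {c0 B : ℝ}
    (hc0 : 0 < c0) (hB : 0 < B) {e T : E} (he : ‖e‖ = 1) (hT : ‖T‖ ≤ B) (heT : c0 ≤ ⟪e, T⟫_ℝ)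
    (v : E) : c0 / 2 * ‖v‖ - (B + B ^ 2 / c0) * (‖v‖ - ⟪v, e⟫_ℝ) ≤ ⟪T, v⟫_ℝ := by
  set a := ⟪v, e⟫_ℝ with ha
  set v' := v - a • e with hv'
  have hav : |a| ≤ ‖v‖ := by
    have := abs_real_inner_le_norm v e
    rwa [he, mul_one] at this
  have h1 : ⟪T, v⟫_ℝ = a * ⟪e, T⟫_ℝ + ⟪T, v'⟫_ℝ := by
    rw [hv', inner_sub_right, real_inner_smul_right, real_inner_comm T e]; ring
  have h2 : ‖v'‖ ^ 2 = (‖v‖ - a) * (‖v‖ + a) := by
    rw [hv', ← real_inner_self_eq_norm_sq, inner_sub_left, inner_sub_right, inner_sub_right,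
      real_inner_smul_right, real_inner_smul_left, real_inner_smul_left, real_inner_smul_right,
      real_inner_comm v e, ← ha, real_inner_self_eq_norm_sq, real_inner_self_eq_norm_sq, he]
    ring
  have h3 : ‖v'‖ ^ 2 ≤ 2 * ‖v‖ * (‖v‖ - a) := by
    rw [h2]
    nlinarith [abs_le.1 hav]
  have h4 : -(B * ‖v'‖) ≤ ⟪T, v'⟫_ℝ := by
    have := abs_real_inner_le_norm T v'
    have h5 : ‖T‖ * ‖v'‖ ≤ B * ‖v'‖ := mul_le_mul_of_nonneg_right hT (norm_nonneg _)
    linarith [(abs_le.1 this).1]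
  have h5 : B * ‖v'‖ ≤ c0 / 2 * ‖v‖ + B ^ 2 / c0 * (‖v‖ - a) := by
    have hv0 : 0 ≤ ‖v‖ := norm_nonneg _
    have hd0 : 0 ≤ ‖v‖ - a := by linarith [(abs_le.1 hav).2]
    have hr0 : 0 ≤ c0 / 2 * ‖v‖ + B ^ 2 / c0 * (‖v‖ - a) := by positivity
    apply le_of_sq_le_sq _ hr0
    have e1 : (B * ‖v'‖) ^ 2 ≤ B ^ 2 * (2 * ‖v‖ * (‖v‖ - a)) := by
      rw [mul_pow]; exact mul_le_mul_of_nonneg_left h3 (by positivity)
    have e2 : B ^ 2 * (2 * ‖v‖ * (‖v‖ - a)) =
        4 * (c0 / 2 * ‖v‖) * (B ^ 2 / c0 * (‖v‖ - a)) := by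
      field_simp
      ring
    nlinarith [sq_nonneg (c0 / 2 * ‖v‖ - B ^ 2 / c0 * (‖v‖ - a))]
  have h6 : c0 * ‖v‖ - B * (‖v‖ - a) ≤ a * ⟪e, T⟫_ℝ := by
    have hd0 : 0 ≤ ‖v‖ - a := by linarith [(abs_le.1 hav).2]
    have heB : ⟪e, T⟫_ℝ ≤ B := by
      have := abs_real_inner_le_norm e T
      rw [he, one_mul] at this
      exact (le_abs_self _).trans (this.trans hT)
    nlinarith [norm_nonneg v]
  rw [h1]
  nlinarith

/-! ## the comparison error, for both signs of the scale -/

section Err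

variable {E : Type} [NormedAddCommGroup E] [InnerProductSpace ℝ E] [FiniteDimensional ℝ E]

lemma CG_signed (hCG : StmtCG) {f : Sp d → E} (hf : Continuous f) (hf' : HasCompactSupport f)
    {s0 : ℝ} (hs0 : 0 < s0) (m : ℕ) {Φ : Sp d → E} {l : ℝ} (q : Sp d) (ρ : ℝ) {t : ℝ} (x : Sp d)
    (hl : 0 ≤ l) (hΦ : ∀ y y', ‖Φ y - Φ y'‖ ≤ l * ‖y - y'‖) (hΦ' : ∀ y, ρ ≤ ‖y - q‖ → Φ y = 0)
    (ht : t ≠ 0) :
    |∫ y, ⟪Φ y, f (x + t • y) - fl s0 f m (x + t • y)⟫_ℝ| ≤
      l * ∫ y in ball q (ρ + sc s0 m / (3 * |t|)),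
        (sc s0 m / (7 * |t|) * ‖fl s0 f m (x + t • y)‖ +
          8 / 7 * ∑ k ∈ Finset.range m, sc s0 k / |t| * gap s0 f k (x + t • y)) := by
  rcases lt_or_gt_of_ne ht with h | h
  · have h' : 0 < -t := by linarith
    have key := hCG d E f hf hf' s0 hs0 m (fun y => Φ (-y)) l (-q) ρ (-t) x hl
      (fun y y' => by
        refine (hΦ _ _).trans (le_of_eq ?_)
        rw [show -y - -y' = -(y - y') by abel, norm_neg])
      (fun y hy => hΦ' _ (by
        rwa [show -y - q = -(y - -q) by abel, norm_neg])) h'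
    rw [abs_of_neg h]
    have e1 : ∫ y, ⟪Φ (-y), f (x + (-t) • y) - fl s0 f m (x + (-t) • y)⟫_ℝ =
        ∫ y, ⟪Φ y, f (x + t • y) - fl s0 f m (x + t • y)⟫_ℝ := by
      rw [← integral_neg_eq_self (fun y => ⟪Φ y, f (x + t • y) - fl s0 f m (x + t • y)⟫_ℝ)]
      congr 1
      funext y
      simp only [smul_neg, neg_smul]
    rw [e1] at key
    refine key.trans (le_of_eq ?_)
    congr 1
    rw [← int_ball_neg (fun y => (sc s0 m / (7 * -t) * ‖fl s0 f m (x + t • y)‖ +
          8 / 7 * ∑ k ∈ Finset.range m, sc s0 k / -t * gap s0 f k (x + t • y)))]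
    congr 1
    funext y
    simp only [smul_neg, neg_smul]
  · have key := hCG d E f hf hf' s0 hs0 m Φ l q ρ t x hl hΦ hΦ' h
    rwa [abs_of_pos h]

lemma geo_sum (j n : ℕ) (h : n ≤ j) :
    ∑ k ∈ Finset.range n, (1 / 4 : ℝ) ^ (j - k) ≤ 1 / 3 * (1 / 4) ^ (j - n) := by
  induction n with
  | zero => simp
  | succ n ih =>
    rw [Finset.sum_range_succ]
    have h1 := ih (by omega)
    have e : (1 / 4 : ℝ) ^ (j - n) = 1 / 4 * (1 / 4) ^ (j - (n + 1)) := by
      rw [show j - n = (j - (n + 1)) + 1 by omega, pow_succ]; ring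
    rw [e] at h1 ⊢
    linarith

/-- geometry: everything happens in the ball of radius 384 * sc s0 j around x -/
lemma geom {s : ℝ} (hs : 0 < s) {t : ℝ} (ht2 : |t| ≤ 8 * s) {x x' y0 y : Sp d} {r a : ℝ}
    (hx : ‖x' - x‖ ≤ s) (hy0 : ‖y0‖ + r ≤ 3 / 2) (ha : a ≤ 1) (hy : y ∈ ball y0 (r + a)) :
    x' + t • y ∈ ball x (384 * s) := by
  rw [mem_ball, dist_eq_norm] at hy ⊢
  have h1 : ‖y‖ ≤ 5 / 2 := by
    have : ‖y‖ ≤ ‖y - y0‖ + ‖y0‖ := by
      have := norm_add_le (y - y0) y0
      rwa [sub_add_cancel] at this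
    linarith
  have h2 : x' + t • y - x = (x' - x) + t • y := by abel
  rw [h2]
  refine (norm_add_le _ _).trans_lt ?_
  rw [norm_smul, Real.norm_eq_abs]
  have h3 : |t| * ‖y‖ ≤ 8 * s * (5 / 2) := mul_le_mul ht2 h1 (norm_nonneg _) (by positivity)
  linarith

/-- the comparison error at one point of time -/
lemma err_bound (hCG : StmtCG) {f : Sp d → E} (hf : Continuous f) (hf' : HasCompactSupport f)
    {s0 : ℝ} (hs0 : 0 < s0) {C : ℝ} (hC : 1 ≤ C) (hD : DevFacts C s0 f) (m j : ℕ) {Φ : Sp d → E}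
    {l : ℝ} {y0 : Sp d} {r : ℝ} {t : ℝ} {x x' : Sp d} (hl : 0 ≤ l)
    (hΦ : ∀ y y', ‖Φ y - Φ y'‖ ≤ l * ‖y - y'‖) (hΦ' : ∀ y, r ≤ ‖y - y0‖ → Φ y = 0)
    (hy0 : ‖y0‖ + r ≤ 3 / 2) (hx : ‖x' - x‖ ≤ sc s0 j) (ht1 : sc s0 j ≤ |t|)
    (ht2 : |t| ≤ 8 * sc s0 j) :
    |∫ y, ⟪Φ y, f (x' + t • y) - fl s0 f (j - m) (x' + t • y)⟫_ℝ| ≤
      l * ((1 / 8) ^ m * ∫ y in ball y0 (r + (1 / 8) ^ m), ‖fl s0 f (j - m) (x' + t • y)‖) +
        C * l * (er s0 f j x / sc s0 j) := by
  have hs : 0 < sc s0 j := sc_pos hs0 j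
  have her : 0 ≤ er s0 f j x := hD.er_nonneg j x
  have hnn : 0 ≤ l * ((1 / 8) ^ m *
      ∫ y in ball y0 (r + (1 / 8) ^ m), ‖fl s0 f (j - m) (x' + t • y)‖) := by
    apply mul_nonneg hl
    apply mul_nonneg (by positivity)
    exact integral_nonneg fun y => norm_nonneg _
  by_cases hm : j < m
  · have h0 : j - m = 0 := by omega
    rw [h0] at hnn ⊢
    simp only [fl_zero, sub_self, inner_zero_right, integral_zero, abs_zero]
    have : 0 ≤ C * l * (er s0 f j x / sc s0 j) := by positivity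
    rw [fl_zero] at hnn
    linarith
  · have ht0 : t ≠ 0 := by
      intro h; rw [h, abs_zero] at ht1; linarith
    have htp : 0 < |t| := abs_pos.2 ht0
    refine (CG_signed hCG hf hf' hs0 (j - m) y0 r x' hl hΦ hΦ' ht0).trans ?_
    have e1 : sc s0 j = 8 ^ m * sc s0 (j - m) := by
      rw [← sc_add, show j - m + m = j by omega]
    have e2 : sc s0 (j - m) = (1 / 8) ^ m * sc s0 j := by
      rw [e1, ← mul_assoc, ← mul_pow]; norm_num
    have hrad : sc s0 (j - m) / (3 * |t|) ≤ (1 / 8) ^ m := by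
      rw [div_le_iff₀ (by positivity), e2]
      have : (0 : ℝ) < (1 / 8) ^ m := by positivity
      nlinarith
    have hm1 : ((1 : ℝ) / 8) ^ m ≤ 1 := pow_le_one₀ (by norm_num) (by norm_num)
    have hcoef : sc s0 (j - m) / (7 * |t|) ≤ (1 / 8) ^ m := by
      rw [div_le_iff₀ (by positivity), e2]
      have : (0 : ℝ) < (1 / 8) ^ m := by positivity
      nlinarith
    have hcmp : Continuous fun y : Sp d => x' + t • y :=
      continuous_const.add (continuous_const_smul t)
    have hc1 : Continuous fun y : Sp d => ‖fl s0 f (j - m) (x' + t • y)‖ :=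
      ((fl_cont hf s0 _).comp hcmp).norm
    have hc2 : ∀ k, Continuous fun y : Sp d => gap s0 f k (x' + t • y) := fun k =>
      (gap_cont hf s0 k).comp hcmp
    have hi : ∀ {g : Sp d → ℝ}, Continuous g → ∀ R, IntegrableOn g (ball y0 R) := fun hg R =>
      (LB.of_cont hg).integrableOn isBounded_ball
    have hcs : Continuous fun y : Sp d => ∑ k ∈ Finset.range (j - m),
        sc s0 k / |t| * gap s0 f k (x' + t • y) :=
      continuous_finsetSum _ fun k _ => continuous_const.mul (hc2 k)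
    have hcA : ∀ a : ℝ, Continuous fun y : Sp d => a * ‖fl s0 f (j - m) (x' + t • y)‖ :=
      fun a => continuous_const.mul hc1
    have hcB : Continuous fun y : Sp d => 8 / 7 * ∑ k ∈ Finset.range (j - m),
        sc s0 k / |t| * gap s0 f k (x' + t • y) := continuous_const.mul hcs
    have hcC : ∀ a : ℝ, Continuous fun y : Sp d => a * ‖fl s0 f (j - m) (x' + t • y)‖ +
        8 / 7 * ∑ k ∈ Finset.range (j - m), sc s0 k / |t| * gap s0 f k (x' + t • y) :=
      fun a => (hcA a).add hcB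
    -- enlarge the ball
    have step1 : ∫ y in ball y0 (r + sc s0 (j - m) / (3 * |t|)),
        (sc s0 (j - m) / (7 * |t|) * ‖fl s0 f (j - m) (x' + t • y)‖ +
          8 / 7 * ∑ k ∈ Finset.range (j - m), sc s0 k / |t| * gap s0 f k (x' + t • y)) ≤
        ∫ y in ball y0 (r + (1 / 8) ^ m),
        ((1 / 8) ^ m * ‖fl s0 f (j - m) (x' + t • y)‖ +
          8 / 7 * ∑ k ∈ Finset.range (j - m), sc s0 k / |t| * gap s0 f k (x' + t • y)) := by
      have hpt : ∀ y : Sp d, 0 ≤ ∑ k ∈ Finset.range (j - m),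
          sc s0 k / |t| * gap s0 f k (x' + t • y) := fun y =>
        Finset.sum_nonneg fun k _ => mul_nonneg (div_nonneg (sc_pos hs0 k).le htp.le)
          (hD.gap_nonneg _ _)
      refine (setIntegral_mono_on (hi (hcC _) _) (hi (hcC _) _) measurableSet_ball ?_).trans
        (setIntegral_mono_set (hi (hcC ((1 / 8) ^ m)) _) ?_ ?_)
      · intro y _
        have := mul_le_mul_of_nonneg_right hcoef (norm_nonneg (fl s0 f (j - m) (x' + t • y)))
        linarith
      · apply Filter.Eventually.of_forall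
        intro y
        have h1 := hpt y
        show 0 ≤ (1 / 8 : ℝ) ^ m * ‖fl s0 f (j - m) (x' + t • y)‖ +
          8 / 7 * ∑ k ∈ Finset.range (j - m), sc s0 k / |t| * gap s0 f k (x' + t • y)
        positivity
      · exact (ball_subset_ball (by linarith)).eventuallyLE
    have step2 : ∫ y in ball y0 (r + (1 / 8) ^ m),
        ((1 / 8) ^ m * ‖fl s0 f (j - m) (x' + t • y)‖ +
          8 / 7 * ∑ k ∈ Finset.range (j - m), sc s0 k / |t| * gap s0 f k (x' + t • y)) =
        (1 / 8) ^ m * (∫ y in ball y0 (r + (1 / 8) ^ m), ‖fl s0 f (j - m) (x' + t • y)‖) +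
          8 / 7 * ∑ k ∈ Finset.range (j - m), sc s0 k / |t| *
            ∫ y in ball y0 (r + (1 / 8) ^ m), gap s0 f k (x' + t • y) := by
      have hcD : ∀ k, Continuous fun y : Sp d => sc s0 k / |t| * gap s0 f k (x' + t • y) :=
        fun k => continuous_const.mul (hc2 k)
      rw [integral_add (hi (hcA _) _) (hi hcB _),
        integral_const_mul, integral_const_mul, integral_finsetSum]
      · congr 2
        apply Finset.sum_congr rfl
        intro k _
        rw [integral_const_mul]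
      · intro k _
        exact hi (hcD k) _
    have step3 : ∀ k ∈ Finset.range (j - m), sc s0 k / |t| *
        (∫ y in ball y0 (r + (1 / 8) ^ m), gap s0 f k (x' + t • y)) ≤
        (1 / 4) ^ (j - k) * (C * (er s0 f j x / sc s0 j)) := by
      intro k hk
      rw [Finset.mem_range] at hk
      have h1 : ∫ y in ball y0 (r + (1 / 8) ^ m), gap s0 f k (x' + t • y) ≤
          ((sc s0 j) ^ d)⁻¹ * ∫ z in ball x (384 * sc s0 j), gap s0 f k z :=
        int_ball_le (gap_cont hf s0 k) (hD.gap_nonneg k) hs ht1 x x' y0 _ _ fun y hy =>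
          geom hs ht2 hx hy0 hm1 hy
      have h2 := hD.gap_le j k x (by omega)
      have e3 : sc s0 j = 8 ^ (j - k) * sc s0 k := by
        rw [← sc_add, show k + (j - k) = j by omega]
      have e4 : sc s0 k = (1 / 8) ^ (j - k) * sc s0 j := by
        rw [e3, ← mul_assoc, ← mul_pow]; norm_num
      have h3 : sc s0 k / |t| ≤ (1 / 8) ^ (j - k) := by
        rw [div_le_iff₀ htp, e4]
        exact mul_le_mul_of_nonneg_left ht1 (by positivity)
      have h4 : 0 ≤ ∫ z in ball x (384 * sc s0 j), gap s0 f k z :=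
        integral_nonneg fun z => hD.gap_nonneg k z
      have h5 : 0 ≤ ∫ y in ball y0 (r + (1 / 8) ^ m), gap s0 f k (x' + t • y) :=
        integral_nonneg fun z => hD.gap_nonneg k _
      calc sc s0 k / |t| * (∫ y in ball y0 (r + (1 / 8) ^ m), gap s0 f k (x' + t • y))
          ≤ (1 / 8) ^ (j - k) * (((sc s0 j) ^ d)⁻¹ * ∫ z in ball x (384 * sc s0 j), gap s0 f k z) :=
            mul_le_mul h3 h1 h5 (by positivity)
        _ = (1 / 4) ^ (j - k) * (((1 / 2 : ℝ) ^ (j - k) * (sc s0 j / (sc s0 j) ^ d *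
            ∫ z in ball x (384 * sc s0 j), gap s0 f k z)) / sc s0 j) := by
            rw [show ((1 : ℝ) / 8) = 1 / 4 * (1 / 2) by norm_num, mul_pow]
            field_simp
        _ ≤ (1 / 4) ^ (j - k) * (C * (er s0 f j x / sc s0 j)) := by
            apply mul_le_mul_of_nonneg_left _ (by positivity)
            rw [mul_div_assoc']
            exact div_le_div_of_nonneg_right h2 hs.le
    have step4 : 8 / 7 * ∑ k ∈ Finset.range (j - m), sc s0 k / |t| *
        (∫ y in ball y0 (r + (1 / 8) ^ m), gap s0 f k (x' + t • y)) ≤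
        C * (er s0 f j x / sc s0 j) := by
      have h1 := Finset.sum_le_sum step3
      rw [← Finset.sum_mul] at h1
      have h2 := geo_sum j (j - m) (by omega)
      have h3 : ((1 : ℝ) / 4) ^ (j - (j - m)) ≤ 1 := pow_le_one₀ (by norm_num) (by norm_num)
      have h4 : 0 ≤ C * (er s0 f j x / sc s0 j) := by positivity
      have h5 : (∑ k ∈ Finset.range (j - m), ((1 : ℝ) / 4) ^ (j - k)) *
          (C * (er s0 f j x / sc s0 j)) ≤ 1 / 3 * (C * (er s0 f j x / sc s0 j)) :=
        mul_le_mul_of_nonneg_right (by linarith) h4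
      linarith
    rw [step2] at step1
    calc l * ∫ y in ball y0 (r + sc s0 (j - m) / (3 * |t|)),
        (sc s0 (j - m) / (7 * |t|) * ‖fl s0 f (j - m) (x' + t • y)‖ +
          8 / 7 * ∑ k ∈ Finset.range (j - m), sc s0 k / |t| * gap s0 f k (x' + t • y))
        ≤ l * ((1 / 8) ^ m * (∫ y in ball y0 (r + (1 / 8) ^ m),
            ‖fl s0 f (j - m) (x' + t • y)‖) + C * (er s0 f j x / sc s0 j)) := by
          apply mul_le_mul_of_nonneg_left _ hl
          linarith
      _ = l * ((1 / 8) ^ m * ∫ y in ball y0 (r + (1 / 8) ^ m), ‖fl s0 f (j - m) (x' + t • y)‖) +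
        C * l * (er s0 f j x / sc s0 j) := by ring

end Err

section Pt

set_option linter.unusedSectionVars false

variable {V E : Type} [NormedAddCommGroup V] [InnerProductSpace ℝ V] [FiniteDimensional ℝ V]
  [NormedAddCommGroup E] [InnerProductSpace ℝ E] [FiniteDimensional ℝ E]
  {L : (Sp d →L[ℝ] V) →L[ℝ] E}

lemma inner_cont {Φ g : Sp d → E} (hΦ : Continuous Φ) (hg : Continuous g) (x : Sp d) (t : ℝ) :
    Continuous fun y => ⟪Φ y, g (x + t • y)⟫_ℝ :=
  hΦ.inner (hg.comp (continuous_const.add (continuous_const_smul t)))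

lemma inner_cs {Φ g : Sp d → E} (hΦ : HasCompactSupport Φ) (x : Sp d) (t : ℝ) :
    HasCompactSupport fun y => ⟪Φ y, g (x + t • y)⟫_ℝ :=
  hΦ.mono' (fun y hy => by
    apply subset_closure
    intro h0
    apply hy
    simp only [h0, inner_zero_left])

/-- splitting of the derivative of the slice functional -/
lemma SD_split {u : Sp d → V} (hu : TF u) {y0 : Sp d} {ρ B r l : ℝ} {w : Sp d → V}
    {τ : Sp d → E} {κ : Sp d → ℝ} (hc : IsCap L y0 ρ B w τ) (hκ : IsCut κ y0 r l) (hr : r ≤ ρ)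
    (s0 : ℝ) (n : ℕ) (x : Sp d) (t : ℝ) :
    SD L u τ κ x t = (∫ y, ⟪κ y • τ y, fl s0 (fo L u) n (x + t • y)⟫_ℝ) +
      ∫ y, ⟪κ y • τ y, fo L u (x + t • y) - fl s0 (fo L u) n (x + t • y)⟫_ℝ := by
  have hT : Continuous fun y => κ y • τ y :=
    cont_of_lip (cut_lip hc.B_pos hc.τ_bd hc.τ_lip hκ hr)
  have hTs : HasCompactSupport fun y => κ y • τ y :=
    cs_of_supp (y0 := y0) (r := r) fun y hy => by rw [hκ.supp y hy, zero_smul]
  have hf := fo_cont (L := L) hu
  have i1 : Integrable fun y => ⟪κ y • τ y, fl s0 (fo L u) n (x + t • y)⟫_ℝ :=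
    (inner_cont hT (fl_cont hf s0 n) x t).integrable_of_hasCompactSupport (inner_cs hTs x t)
  have i2 : Integrable fun y => ⟪κ y • τ y, fo L u (x + t • y) - fl s0 (fo L u) n (x + t • y)⟫_ℝ :=
    (inner_cont hT (hf.sub (fl_cont hf s0 n)) x t).integrable_of_hasCompactSupport
      (inner_cs (g := fun z => fo L u z - fl s0 (fo L u) n z) hTs x t)
  rw [← integral_add i1 i2]
  unfold SD
  congr 1
  funext y
  rw [← inner_add_right]
  congr 1
  abel

lemma SD_err (hCG : StmtCG) {C : ℝ} (hC : 1 ≤ C) {u : Sp d → V} (hu : TF u) {s0 : ℝ}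
    (hs0 : 0 < s0) (hD : DevFacts C s0 (fo L u)) {y0 : Sp d} {ρ B r l : ℝ} {w : Sp d → V}
    {τ : Sp d → E} {κ : Sp d → ℝ} (hc : IsCap L y0 ρ B w τ) (hκ : IsCut κ y0 r l) (hr : r ≤ ρ)
    (m j : ℕ) {x x' : Sp d} {t : ℝ} (hx : ‖x' - x‖ ≤ sc s0 j) (ht1 : sc s0 j ≤ |t|)
    (ht2 : |t| ≤ 8 * sc s0 j) :
    |∫ y, ⟪κ y • τ y, fo L u (x' + t • y) - fl s0 (fo L u) (j - m) (x' + t • y)⟫_ℝ| ≤
      B * (l + 1) * ((1 / 8) ^ m *
        ∫ y in ball y0 (r + (1 / 8) ^ m), ‖fl s0 (fo L u) (j - m) (x' + t • y)‖) +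
        C * (B * (l + 1)) * (er s0 (fo L u) j x / sc s0 j) := by
  have hl := hκ.l_nonneg
  have hB := hc.B_pos
  apply err_bound hCG (fo_cont hu) (fo_cs hu) hs0 hC hD m j (Φ := fun y => κ y • τ y)
    (by positivity) (cut_lip hc.B_pos hc.τ_bd hc.τ_lip hκ hr) _ _ hx ht1 ht2
  · intro y hy
    simp only [hκ.supp y hy, zero_smul]
  · have := hc.inside
    linarith

lemma li_pt (hCG : StmtCG) {C : ℝ} (hC : 1 ≤ C) {u : Sp d → V} (hu : TF u) {s0 : ℝ}
    (hs0 : 0 < s0) (hD : DevFacts C s0 (fo L u)) {y0 : Sp d} {ρ B r l c0 r1 : ℝ} {w : Sp d → V}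
    {τ : Sp d → E} {κ : Sp d → ℝ} (hc0 : 0 < c0) (hc : IsCap L y0 ρ B w τ)
    (hκ : IsCut κ y0 r l) (hr : r ≤ ρ) (hκ0 : ∀ y, 0 ≤ κ y) (hκ1 : ∀ y ∈ ball y0 r1, κ y = 1)
    (m j : ℕ) {x x' : Sp d} {t : ℝ} (hx : ‖x' - x‖ ≤ sc s0 j)
    (hV : Val s0 (fo L u) y0 ρ τ c0 (j + 4) x) (ht1 : sc s0 j ≤ |t|) (ht2 : |t| ≤ 8 * sc s0 j) :
    c0 / 2 * (∫ y in ball y0 r1, ‖fl s0 (fo L u) (j - m) (x' + t • y)‖) ≤
      SD L u τ κ x' t + B * (l + 1) * ((1 / 8) ^ m *
        ∫ y in ball y0 (r + (1 / 8) ^ m), ‖fl s0 (fo L u) (j - m) (x' + t • y)‖) +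
      (C * (B * (l + 1)) + (B + B ^ 2 / c0) * (C * 2 ^ m)) * (er s0 (fo L u) j x / sc s0 j) := by
  obtain ⟨e, he, hfe, hpos⟩ := hV
  have hs : 0 < sc s0 j := sc_pos hs0 j
  have hB := hc.B_pos
  set f := fo L u with hfdef
  set n := j - m with hn
  have hf : Continuous f := fo_cont hu
  have hfn : Continuous (fl s0 f n) := fl_cont hf s0 n
  have herr := SD_err hCG hC hu hs0 hD hc hκ hr m j hx ht1 ht2
  have hsplit := SD_split (L := L) hu hc hκ hr s0 n x' t
  rw [← hfdef, ← hn] at herr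
  rw [← hfdef] at hsplit
  have hT : Continuous fun y => κ y • τ y :=
    cont_of_lip (cut_lip hc.B_pos hc.τ_bd hc.τ_lip hκ hr)
  have hTs : HasCompactSupport fun y => κ y • τ y :=
    cs_of_supp (y0 := y0) (r := r) fun y hy => by rw [hκ.supp y hy, zero_smul]
  have hκc : Continuous κ := cont_of_lip (K := l) fun y y' => by
    rw [Real.norm_eq_abs]; exact hκ.lip y y'
  have hκs : HasCompactSupport κ := cs_of_supp (y0 := y0) (r := r) hκ.supp
  have hcmp : Continuous fun y : Sp d => x' + t • y :=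
    continuous_const.add (continuous_const_smul t)
  have hv : Continuous fun y => fl s0 f n (x' + t • y) := hfn.comp hcmp
  have hg : Continuous fun z => ‖fl s0 f n z‖ - ⟪fl s0 f n z, e⟫_ℝ :=
    hfn.norm.sub (hfn.inner continuous_const)
  have hg0 : ∀ z, 0 ≤ ‖fl s0 f n z‖ - ⟪fl s0 f n z, e⟫_ℝ := by
    intro z
    have := real_inner_le_norm (fl s0 f n z) e
    rw [he, mul_one] at this
    linarith
  have hks : ∀ g : Sp d → ℝ, HasCompactSupport fun y => κ y * g y := fun g =>
    hκs.mul_right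
  have i0 : Integrable fun y => κ y * ‖fl s0 f n (x' + t • y)‖ :=
    (hκc.mul hv.norm).integrable_of_hasCompactSupport (hks _)
  have i1 : Integrable fun y => κ y * (‖fl s0 f n (x' + t • y)‖ -
      ⟪fl s0 f n (x' + t • y), e⟫_ℝ) :=
    (hκc.mul (hg.comp hcmp)).integrable_of_hasCompactSupport (hks _)
  have i2 : Integrable fun y => ⟪κ y • τ y, fl s0 f n (x' + t • y)⟫_ℝ :=
    (inner_cont hT hfn x' t).integrable_of_hasCompactSupport (inner_cs hTs x' t)
  -- the main term
  have main : c0 / 2 * (∫ y, κ y * ‖fl s0 f n (x' + t • y)‖) - (B + B ^ 2 / c0) *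
      (∫ y, κ y * (‖fl s0 f n (x' + t • y)‖ - ⟪fl s0 f n (x' + t • y), e⟫_ℝ)) ≤
      ∫ y, ⟪κ y • τ y, fl s0 f n (x' + t • y)⟫_ℝ := by
    rw [← integral_const_mul, ← integral_const_mul,
      ← integral_sub (i0.const_mul _) (i1.const_mul _)]
    apply integral_mono ((i0.const_mul _).sub (i1.const_mul _)) i2
    intro y
    show c0 / 2 * (κ y * ‖fl s0 f n (x' + t • y)‖) - (B + B ^ 2 / c0) *
      (κ y * (‖fl s0 f n (x' + t • y)‖ - ⟪fl s0 f n (x' + t • y), e⟫_ℝ)) ≤
      ⟪κ y • τ y, fl s0 f n (x' + t • y)⟫_ℝ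
    rw [real_inner_smul_left]
    by_cases hy : y ∈ ball y0 ρ
    · have h1 := pos_inner hc0 hB he (hc.τ_bd y hy) (hpos y hy) (fl s0 f n (x' + t • y))
      have h2 := mul_le_mul_of_nonneg_left h1 (hκ0 y)
      linarith
    · have : κ y = 0 := by
        apply hκ.supp
        rw [mem_ball, dist_eq_norm] at hy
        linarith
      rw [this]; simp
  have low : ∫ y in ball y0 r1, ‖fl s0 f n (x' + t • y)‖ ≤
      ∫ y, κ y * ‖fl s0 f n (x' + t • y)‖ := by
    rw [← integral_indicator measurableSet_ball]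
    apply integral_mono_of_nonneg
    · exact Filter.Eventually.of_forall fun y => indicator_nonneg (fun z _ => norm_nonneg _) y
    · exact i0
    · apply Filter.Eventually.of_forall
      intro y
      by_cases hy : y ∈ ball y0 r1
      · simp only [indicator_of_mem hy, hκ1 y hy, one_mul, le_refl]
      · simp only [indicator_of_notMem hy]
        exact mul_nonneg (hκ0 y) (norm_nonneg _)
  have up : ∫ y, κ y * (‖fl s0 f n (x' + t • y)‖ - ⟪fl s0 f n (x' + t • y), e⟫_ℝ) ≤
      C * 2 ^ m * (er s0 f j x / sc s0 j) := by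
    have h1 : ∫ y, κ y * (‖fl s0 f n (x' + t • y)‖ - ⟪fl s0 f n (x' + t • y), e⟫_ℝ) ≤
        ∫ y in ball y0 (r + 0), (‖fl s0 f n (x' + t • y)‖ - ⟪fl s0 f n (x' + t • y), e⟫_ℝ) := by
      rw [← integral_indicator measurableSet_ball]
      apply integral_mono i1
      · rw [integrable_indicator_iff measurableSet_ball]
        exact (LB.of_cont (hg.comp hcmp)).integrableOn isBounded_ball
      · intro y
        by_cases hy : y ∈ ball y0 (r + 0)
        · simp only [indicator_of_mem hy]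
          have h2 := (abs_le.1 (hκ.bd y)).2
          have h3 := hg0 (x' + t • y)
          nlinarith [hκ0 y]
        · simp only [indicator_of_notMem hy]
          have : κ y = 0 := by
            apply hκ.supp
            rw [mem_ball, dist_eq_norm] at hy
            linarith
          rw [this, zero_mul]
    have h2 := int_ball_le hg hg0 hs ht1 x x' y0 (r + 0) (384 * sc s0 j) fun y hy =>
      geom (r := r) (a := 0) hs ht2 hx (by have := hc.inside; linarith) zero_le_one hy
    have h3 := hD.dev j m x e he hfe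
    rw [← hn] at h3
    refine h1.trans (h2.trans ?_)
    rw [mul_div_assoc', le_div_iff₀ hs]
    refine (le_of_eq ?_).trans h3
    field_simp
  have hsum : -(B * (l + 1) * ((1 / 8) ^ m *
        ∫ y in ball y0 (r + (1 / 8) ^ m), ‖fl s0 f n (x' + t • y)‖) +
        C * (B * (l + 1)) * (er s0 f j x / sc s0 j)) ≤
      ∫ y, ⟪κ y • τ y, f (x' + t • y) - fl s0 f n (x' + t • y)⟫_ℝ := (abs_le.1 herr).1
  rw [hsplit]
  have h4 := mul_le_mul_of_nonneg_left low (by positivity : 0 ≤ c0 / 2)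
  have h5 := mul_le_mul_of_nonneg_left up (by positivity : 0 ≤ B + B ^ 2 / c0)
  nlinarith

lemma lt_pt (hCG : StmtCG) {C : ℝ} (hC : 1 ≤ C) {u : Sp d → V} (hu : TF u) {s0 : ℝ}
    (hs0 : 0 < s0) (hD : DevFacts C s0 (fo L u)) {y0 : Sp d} {ρ B r l : ℝ} {w : Sp d → V}
    {τ : Sp d → E} {κ : Sp d → ℝ} (hc : IsCap L y0 ρ B w τ)
    (hκ : IsCut κ y0 r l) (hr : r ≤ ρ)
    (m j : ℕ) {x : Sp d} {t : ℝ} (ht1 : sc s0 j ≤ |t|) (ht2 : |t| ≤ 8 * sc s0 j) :
    |SD L u τ κ x t| ≤ 2 * B * (l + 1) *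
        (∫ y in ball y0 (r + (1 / 8) ^ m), ‖fl s0 (fo L u) (j - m) (x + t • y)‖) +
      C * (B * (l + 1)) * (er s0 (fo L u) j x / sc s0 j) := by
  have hs : 0 < sc s0 j := sc_pos hs0 j
  have hB := hc.B_pos
  have hl := hκ.l_nonneg
  set f := fo L u with hfdef
  set n := j - m with hn
  have hf : Continuous f := fo_cont hu
  have hfn : Continuous (fl s0 f n) := fl_cont hf s0 n
  have herr := SD_err hCG hC hu hs0 hD hc hκ hr m j (x := x) (x' := x) (by simp [hs.le]) ht1 ht2
  have hsplit := SD_split (L := L) hu hc hκ hr s0 n x t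
  rw [← hfdef, ← hn] at herr
  rw [← hfdef] at hsplit
  have hcmp : Continuous fun y : Sp d => x + t • y :=
    continuous_const.add (continuous_const_smul t)
  have hv : Continuous fun y => fl s0 f n (x + t • y) := hfn.comp hcmp
  have hint : Integrable ((ball y0 (r + (1 / 8) ^ m)).indicator
      fun y => B * ‖fl s0 f n (x + t • y)‖) := by
    rw [integrable_indicator_iff measurableSet_ball]
    exact (LB.of_cont (continuous_const.mul hv.norm)).integrableOn isBounded_ball
  have main : |∫ y, ⟪κ y • τ y, fl s0 f n (x + t • y)⟫_ℝ| ≤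
      B * ∫ y in ball y0 (r + (1 / 8) ^ m), ‖fl s0 f n (x + t • y)‖ := by
    rw [← integral_const_mul, ← integral_indicator measurableSet_ball, ← Real.norm_eq_abs]
    apply norm_integral_le_of_norm_le hint
    apply Filter.Eventually.of_forall
    intro y
    by_cases hy : y ∈ ball y0 r
    · have hy1 : y ∈ ball y0 (r + (1 / 8) ^ m) :=
        ball_subset_ball (by linarith [show (0:ℝ) < (1/8)^m by positivity]) hy
      rw [indicator_of_mem hy1]
      refine (norm_inner_le_norm _ _).trans ?_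
      apply mul_le_mul_of_nonneg_right _ (norm_nonneg _)
      rw [norm_smul, Real.norm_eq_abs]
      have h1 := mul_le_mul (hκ.bd y) (hc.τ_bd y (ball_subset_ball hr hy)) (norm_nonneg _)
        zero_le_one
      linarith
    · have : κ y = 0 := by
        apply hκ.supp
        rw [mem_ball, dist_eq_norm] at hy
        linarith
      rw [this, zero_smul, inner_zero_left, norm_zero]
      apply indicator_nonneg
      intro z _
      positivity
  have hI : 0 ≤ ∫ y in ball y0 (r + (1 / 8) ^ m), ‖fl s0 f n (x + t • y)‖ :=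
    integral_nonneg fun y => norm_nonneg _
  have h8 : ((1 : ℝ) / 8) ^ m ≤ 1 := pow_le_one₀ (by norm_num) (by norm_num)
  have h80 : (0 : ℝ) ≤ (1 / 8) ^ m := by positivity
  have h1 : (1 / 8 : ℝ) ^ m * (∫ y in ball y0 (r + (1 / 8) ^ m), ‖fl s0 f n (x + t • y)‖) ≤
      ∫ y in ball y0 (r + (1 / 8) ^ m), ‖fl s0 f n (x + t • y)‖ := by
    nlinarith
  have h2 := mul_le_mul_of_nonneg_left h1 (by positivity : 0 ≤ B * (l + 1))
  have h3 : B * (∫ y in ball y0 (r + (1 / 8) ^ m), ‖fl s0 f n (x + t • y)‖) ≤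
      B * (l + 1) * ∫ y in ball y0 (r + (1 / 8) ^ m), ‖fl s0 f n (x + t • y)‖ := by
    nlinarith [mul_nonneg (mul_nonneg hB.le hl) hI]
  rw [hsplit]
  refine (abs_add_le _ _).trans ?_
  linarith

end Pt

end LI

open LI

theorem stmtLI (hCG : StmtCG) (hDev : StmtDev) : StmtLI := by
  intro d V E _ _ _ _ _ _ L y0 ρ B c0 w τ hc hc0
  obtain ⟨C, hC, hDevC⟩ := hDev d
  have hB := hc.B_pos
  refine ⟨14 * C * (B + (B + B ^ 2 / c0)) + B, by positivity, ?_⟩
  intro u hu s0 hs0 m j x x' hx hV κ l r r1 hκ hr hκ0 hκ1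
  have hD := hDevC E (fo L u) (fo_cont hu) (fo_cs hu) s0 hs0
  have hs : 0 < sc s0 j := sc_pos hs0 j
  have hl := hκ.l_nonneg
  have her : 0 ≤ er s0 (fo L u) j x := hD.er_nonneg j x
  have hf : Continuous (fo L u) := fo_cont hu
  have hfn : Continuous (fl s0 (fo L u) (j - m)) := fl_cont hf s0 _
  have hle : sc s0 j ≤ sc s0 (j + 1) := by rw [sc_succ]; linarith
  have hcN : ∀ R, Continuous fun t : ℝ => ∫ y in ball y0 R,
      (‖fl s0 (fo L u) (j - m) (x' + t • y)‖ + ‖fl s0 (fo L u) (j - m) (x' - t • y)‖) := by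
    intro R
    apply cont_par (G := fun t y =>
      (‖fl s0 (fo L u) (j - m) (x' + t • y)‖ + ‖fl s0 (fo L u) (j - m) (x' - t • y)‖))
    show Continuous fun p : ℝ × Sp d => (‖fl s0 (fo L u) (j - m) (x' + p.1 • p.2)‖ +
      ‖fl s0 (fo L u) (j - m) (x' - p.1 • p.2)‖)
    have h1 : Continuous fun p : ℝ × Sp d => p.1 • p.2 := continuous_fst.smul continuous_snd
    exact (hfn.comp (continuous_const.add h1)).norm.add
      (hfn.comp (continuous_const.sub h1)).norm
  have hcS : Continuous fun t : ℝ => SD L u τ κ x' t + SD L u τ κ x' (-t) := by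
    have h1 := SD_cont (L := L) hu hc hκ hr x'
    exact h1.add (h1.comp continuous_neg)
  set K2 : ℝ := C * (B * (l + 1)) + (B + B ^ 2 / c0) * (C * 2 ^ m) with hK2
  have hsplitN : ∀ (R t : ℝ), ∫ y in ball y0 R,
      (‖fl s0 (fo L u) (j - m) (x' + t • y)‖ + ‖fl s0 (fo L u) (j - m) (x' - t • y)‖) =
      (∫ y in ball y0 R, ‖fl s0 (fo L u) (j - m) (x' + t • y)‖) +
      ∫ y in ball y0 R, ‖fl s0 (fo L u) (j - m) (x' + (-t) • y)‖ := by
    intro R t
    have h1 : ∀ a : ℝ, Continuous fun y : Sp d => ‖fl s0 (fo L u) (j - m) (x' + a • y)‖ :=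
      fun a => (hfn.comp (continuous_const.add (continuous_const_smul a))).norm
    rw [← integral_add]
    · congr 1
      funext y
      rw [neg_smul, ← sub_eq_add_neg]
    · exact (LB.of_cont (h1 t)).integrableOn isBounded_ball
    · exact (LB.of_cont (h1 (-t))).integrableOn isBounded_ball
  have pt : ∀ t ∈ Icc (sc s0 j) (sc s0 (j + 1)), c0 / 2 * (∫ y in ball y0 r1,
      (‖fl s0 (fo L u) (j - m) (x' + t • y)‖ + ‖fl s0 (fo L u) (j - m) (x' - t • y)‖)) ≤
      (SD L u τ κ x' t + SD L u τ κ x' (-t)) + (B * (l + 1) * (1 / 8) ^ m *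
        (∫ y in ball y0 (r + (1 / 8) ^ m), (‖fl s0 (fo L u) (j - m) (x' + t • y)‖ +
          ‖fl s0 (fo L u) (j - m) (x' - t • y)‖)) +
      2 * (K2 * (er s0 (fo L u) j x / sc s0 j))) := by
    intro t ht
    rw [sc_succ] at ht
    have htp : 0 < t := lt_of_lt_of_le hs ht.1
    have a1 : |t| = t := abs_of_pos htp
    have a2 : |-t| = t := by rw [abs_neg, a1]
    have h1 := li_pt hCG hC hu hs0 hD hc0 hc hκ hr hκ0 hκ1 m j hx hV (t := t)
      (by rw [a1]; exact ht.1) (by rw [a1]; exact ht.2)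
    have h2 := li_pt hCG hC hu hs0 hD hc0 hc hκ hr hκ0 hκ1 m j hx hV (t := -t)
      (by rw [a2]; exact ht.1) (by rw [a2]; exact ht.2)
    rw [hsplitN, hsplitN]
    rw [← hK2] at h1 h2
    linarith
  have ci : ∀ c : ℝ, ∫ _ in (sc s0 j)..(sc s0 (j + 1)), c = 7 * sc s0 j * c := by
    intro c
    rw [intervalIntegral.integral_const, sc_succ, smul_eq_mul]; ring
  have hcA : Continuous fun t : ℝ => c0 / 2 * ∫ y in ball y0 r1,
      (‖fl s0 (fo L u) (j - m) (x' + t • y)‖ + ‖fl s0 (fo L u) (j - m) (x' - t • y)‖) :=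
    continuous_const.mul (hcN r1)
  have hcM : Continuous fun t : ℝ => B * (l + 1) * (1 / 8) ^ m *
        (∫ y in ball y0 (r + (1 / 8) ^ m), (‖fl s0 (fo L u) (j - m) (x' + t • y)‖ +
          ‖fl s0 (fo L u) (j - m) (x' - t • y)‖)) :=
    continuous_const.mul (hcN _)
  have hcK : Continuous fun _ : ℝ => 2 * (K2 * (er s0 (fo L u) j x / sc s0 j)) :=
    continuous_const
  have hcMK : Continuous fun t : ℝ => B * (l + 1) * (1 / 8) ^ m *
        (∫ y in ball y0 (r + (1 / 8) ^ m), (‖fl s0 (fo L u) (j - m) (x' + t • y)‖ +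
          ‖fl s0 (fo L u) (j - m) (x' - t • y)‖)) +
        2 * (K2 * (er s0 (fo L u) j x / sc s0 j)) := hcM.add hcK
  have hcT : Continuous fun t : ℝ => (SD L u τ κ x' t + SD L u τ κ x' (-t)) +
        (B * (l + 1) * (1 / 8) ^ m *
        (∫ y in ball y0 (r + (1 / 8) ^ m), (‖fl s0 (fo L u) (j - m) (x' + t • y)‖ +
          ‖fl s0 (fo L u) (j - m) (x' - t • y)‖)) +
        2 * (K2 * (er s0 (fo L u) j x / sc s0 j))) := hcS.add hcMK
  have hint := intervalIntegral.integral_mono_on (μ := volume) hle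
    (hcA.intervalIntegrable _ _) (hcT.intervalIntegrable _ _) pt
  rw [intervalIntegral.integral_const_mul,
    intervalIntegral.integral_add (hcS.intervalIntegrable _ _) (hcMK.intervalIntegrable _ _),
    intervalIntegral.integral_add (hcM.intervalIntegrable _ _) (hcK.intervalIntegrable _ _),
    intervalIntegral.integral_const_mul, ci, ← DD_sub hu hc hκ hr] at hint
  have e1 : 7 * sc s0 j * (2 * (K2 * (er s0 (fo L u) j x / sc s0 j))) =
      14 * K2 * er s0 (fo L u) j x := by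
    field_simp
    ring
  rw [e1] at hint
  have hN0 : 0 ≤ NN s0 (fo L u) m j x' y0 (r + (1 / 8) ^ m) := by
    apply intervalIntegral.integral_nonneg hle
    intro t _
    exact integral_nonneg fun y => by positivity
  have hNN : ∀ R, NN s0 (fo L u) m j x' y0 R = ∫ t in (sc s0 j)..(sc s0 (j + 1)),
      ∫ y in ball y0 R, (‖fl s0 (fo L u) (j - m) (x' + t • y)‖ +
        ‖fl s0 (fo L u) (j - m) (x' - t • y)‖) := fun R => rfl
  rw [← hNN, ← hNN] at hint
  refine hint.trans ?_
  have p8 : (0 : ℝ) ≤ (1 / 8) ^ m := by positivity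
  have p2 : (0 : ℝ) ≤ 2 ^ m := by positivity
  have hCp : 0 ≤ 14 * C * (B + (B + B ^ 2 / c0)) := by positivity
  have h1 : B * (l + 1) * (1 / 8) ^ m * NN s0 (fo L u) m j x' y0 (r + (1 / 8) ^ m) ≤
      (14 * C * (B + (B + B ^ 2 / c0)) + B) * (l + 1) * (1 / 8) ^ m *
        NN s0 (fo L u) m j x' y0 (r + (1 / 8) ^ m) := by
    apply mul_le_mul_of_nonneg_right _ hN0
    apply mul_le_mul_of_nonneg_right _ p8
    apply mul_le_mul_of_nonneg_right _ (by positivity)
    linarith
  have h2 : 14 * K2 * er s0 (fo L u) j x ≤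
      (14 * C * (B + (B + B ^ 2 / c0)) + B) * (2 ^ m + l + 1) * er s0 (fo L u) j x := by
    apply mul_le_mul_of_nonneg_right _ her
    have q : 0 ≤ B ^ 2 / c0 := by positivity
    have hCB : 0 ≤ C * B := by positivity
    have hCQ : 0 ≤ C * (B ^ 2 / c0) := by positivity
    have hx1 : 14 * K2 = 14 * C * B * (l + 1) + 14 * C * (B + B ^ 2 / c0) * 2 ^ m := by
      rw [hK2]; ring
    have hx2 : (14 * C * (B + (B + B ^ 2 / c0)) + B) * (2 ^ m + l + 1) =
        14 * C * B * (l + 1) + 14 * C * (B + B ^ 2 / c0) * 2 ^ m +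
        (14 * C * B * 2 ^ m + 14 * C * (B + B ^ 2 / c0) * (l + 1) + B * (2 ^ m + l + 1)) := by
      ring
    rw [hx1, hx2]
    have : 0 ≤ 14 * C * B * 2 ^ m + 14 * C * (B + B ^ 2 / c0) * (l + 1) + B * (2 ^ m + l + 1) := by
      positivity
    linarith
  linarith

theorem stmtLT (hCG : StmtCG) (hDev : StmtDev) : StmtLT := by
  intro d V E _ _ _ _ _ _ L y0 ρ B w τ hc
  obtain ⟨C, hC, hDevC⟩ := hDev d
  have hB := hc.B_pos
  refine ⟨7 * C * B + 2 * B, by positivity, ?_⟩
  intro u hu s0 hs0 m j x κ l r hκ hr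
  have hD := hDevC E (fo L u) (fo_cont hu) (fo_cs hu) s0 hs0
  have hs : 0 < sc s0 j := sc_pos hs0 j
  have hl := hκ.l_nonneg
  have her : 0 ≤ er s0 (fo L u) j x := hD.er_nonneg j x
  have hf : Continuous (fo L u) := fo_cont hu
  have hfn : Continuous (fl s0 (fo L u) (j - m)) := fl_cont hf s0 _
  have hle : sc s0 j ≤ sc s0 (j + 1) := by rw [sc_succ]; linarith
  have hcN : ∀ R, Continuous fun t : ℝ => ∫ y in ball y0 R,
      (‖fl s0 (fo L u) (j - m) (x + t • y)‖ + ‖fl s0 (fo L u) (j - m) (x - t • y)‖) := by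
    intro R
    apply cont_par (G := fun t y =>
      (‖fl s0 (fo L u) (j - m) (x + t • y)‖ + ‖fl s0 (fo L u) (j - m) (x - t • y)‖))
    show Continuous fun p : ℝ × Sp d => (‖fl s0 (fo L u) (j - m) (x + p.1 • p.2)‖ +
      ‖fl s0 (fo L u) (j - m) (x - p.1 • p.2)‖)
    have h1 : Continuous fun p : ℝ × Sp d => p.1 • p.2 := continuous_fst.smul continuous_snd
    exact (hfn.comp (continuous_const.add h1)).norm.add
      (hfn.comp (continuous_const.sub h1)).norm
  have pt : ∀ t ∈ Icc (sc s0 j) (sc s0 (j + 1)), |SD L u τ κ x t| ≤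
      2 * B * (l + 1) * (∫ y in ball y0 (r + (1 / 8) ^ m),
        (‖fl s0 (fo L u) (j - m) (x + t • y)‖ + ‖fl s0 (fo L u) (j - m) (x - t • y)‖)) +
      C * (B * (l + 1)) * (er s0 (fo L u) j x / sc s0 j) := by
    intro t ht
    rw [sc_succ] at ht
    have htp : 0 < t := lt_of_lt_of_le hs ht.1
    have a1 : |t| = t := abs_of_pos htp
    refine (lt_pt hCG hC hu hs0 hD hc hκ hr m j (t := t)
      (by rw [a1]; exact ht.1) (by rw [a1]; exact ht.2)).trans ?_
    have h1 : ∀ a : ℝ, Continuous fun y : Sp d => ‖fl s0 (fo L u) (j - m) (x + a • y)‖ :=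
      fun a => (hfn.comp (continuous_const.add (continuous_const_smul a))).norm
    have h2 : Continuous fun y : Sp d => ‖fl s0 (fo L u) (j - m) (x - t • y)‖ :=
      (hfn.comp (continuous_const.sub (continuous_const_smul t))).norm
    have h3 : ∫ y in ball y0 (r + (1 / 8) ^ m), ‖fl s0 (fo L u) (j - m) (x + t • y)‖ ≤
        ∫ y in ball y0 (r + (1 / 8) ^ m), (‖fl s0 (fo L u) (j - m) (x + t • y)‖ +
          ‖fl s0 (fo L u) (j - m) (x - t • y)‖) := by
      apply setIntegral_mono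
      · exact (LB.of_cont (h1 t)).integrableOn isBounded_ball
      · exact (LB.of_cont ((h1 t).add h2)).integrableOn isBounded_ball
      · intro y
        show ‖fl s0 (fo L u) (j - m) (x + t • y)‖ ≤ ‖fl s0 (fo L u) (j - m) (x + t • y)‖ +
          ‖fl s0 (fo L u) (j - m) (x - t • y)‖
        linarith [norm_nonneg (fl s0 (fo L u) (j - m) (x - t • y))]
    have h4 := mul_le_mul_of_nonneg_left h3 (by positivity : 0 ≤ 2 * B * (l + 1))
    linarith
  have ci : ∀ c : ℝ, ∫ _ in (sc s0 j)..(sc s0 (j + 1)), c = 7 * sc s0 j * c := by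
    intro c
    rw [intervalIntegral.integral_const, sc_succ, smul_eq_mul]; ring
  have hcS : Continuous fun t : ℝ => |SD L u τ κ x t| := (SD_cont (L := L) hu hc hκ hr x).abs
  have hcM : Continuous fun t : ℝ => 2 * B * (l + 1) *
        (∫ y in ball y0 (r + (1 / 8) ^ m), (‖fl s0 (fo L u) (j - m) (x + t • y)‖ +
          ‖fl s0 (fo L u) (j - m) (x - t • y)‖)) :=
    continuous_const.mul (hcN _)
  have hcK : Continuous fun _ : ℝ => C * (B * (l + 1)) * (er s0 (fo L u) j x / sc s0 j) :=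
    continuous_const
  have hcT : Continuous fun t : ℝ => 2 * B * (l + 1) *
        (∫ y in ball y0 (r + (1 / 8) ^ m), (‖fl s0 (fo L u) (j - m) (x + t • y)‖ +
          ‖fl s0 (fo L u) (j - m) (x - t • y)‖)) +
        C * (B * (l + 1)) * (er s0 (fo L u) j x / sc s0 j) := hcM.add hcK
  have hint := intervalIntegral.integral_mono_on (μ := volume) hle
    (hcS.intervalIntegrable _ _) (hcT.intervalIntegrable _ _) pt
  rw [intervalIntegral.integral_add (hcM.intervalIntegrable _ _) (hcK.intervalIntegrable _ _),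
    intervalIntegral.integral_const_mul, ci] at hint
  have e1 : 7 * sc s0 j * (C * (B * (l + 1)) * (er s0 (fo L u) j x / sc s0 j)) =
      7 * C * B * (l + 1) * er s0 (fo L u) j x := by
    field_simp
  rw [e1] at hint
  have hNN : ∀ R, NN s0 (fo L u) m j x y0 R = ∫ t in (sc s0 j)..(sc s0 (j + 1)),
      ∫ y in ball y0 R, (‖fl s0 (fo L u) (j - m) (x + t • y)‖ +
        ‖fl s0 (fo L u) (j - m) (x - t • y)‖) := fun R => rfl
  rw [← hNN] at hint
  have hN0 : 0 ≤ NN s0 (fo L u) m j x y0 (r + (1 / 8) ^ m) := by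
    apply intervalIntegral.integral_nonneg hle
    intro t _
    exact integral_nonneg fun y => by positivity
  rw [YY_sub hu hc hκ hr]
  refine (intervalIntegral.abs_integral_le_integral_abs hle).trans (hint.trans ?_)
  have hx2 : (7 * C * B + 2 * B) * (l + 1) *
      (NN s0 (fo L u) m j x y0 (r + (1 / 8) ^ m) + er s0 (fo L u) j x) =
      2 * B * (l + 1) * NN s0 (fo L u) m j x y0 (r + (1 / 8) ^ m) +
      7 * C * B * (l + 1) * er s0 (fo L u) j x +
      (7 * C * B * (l + 1) * NN s0 (fo L u) m j x y0 (r + (1 / 8) ^ m) +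
      2 * B * (l + 1) * er s0 (fo L u) j x) := by ring
  rw [hx2]
  have : 0 ≤ 7 * C * B * (l + 1) * NN s0 (fo L u) m j x y0 (r + (1 / 8) ^ m) +
      2 * B * (l + 1) * er s0 (fo L u) j x := by positivity
  linarith

end

end TrI
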