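import Pool.Agent.TR.Stmts
import Pool.Agent.TR.Basic

/-!
# Module MU: integration against a measure of growth d - 1
-/

set_option linter.unusedSectionVars false

open MeasureTheory Metric Set
open scoped InnerProductSpace ContDiff Pointwise

namespace TrI

noncomputable section

variable {d : ℕ}

lemma mu_ball_int {C' : ℝ} (μ : Measure (Sp d)) [IsFiniteMeasureOnCompacts μ]
    (hμ : ∀ x : Sp d, ∀ r : ℝ, 0 < r → μ (ball x r) ≤ ENNReal.ofReal (C' * r ^ (d - 1)))
    {g : Sp d → ℝ} (hg : LB g) (h0 : ∀ z, 0 ≤ g z) {R : ℝ} (hR : 0 < R) :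
    ∫⁻ x, ENNReal.ofReal (∫ z in ball x R, g z) ∂μ ≤
      ENNReal.ofReal (C' * R ^ (d - 1)) * ∫⁻ z, ENNReal.ofReal (g z) := by
  have hgm : Measurable g := hg.meas.measurable
  have h1 : ∀ x, ENNReal.ofReal (∫ z in ball x R, g z) =
      ∫⁻ z, (ball x R).indicator (fun z => ENNReal.ofReal (g z)) z := by
    intro x
    rw [lintegral_indicator measurableSet_ball]
    exact ofReal_integral_eq_lintegral_ofReal (hg.integrableOn isBounded_ball)
      (Filter.Eventually.of_forall h0)
  simp only [h1]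
  have hset : MeasurableSet {p : Sp d × Sp d | dist p.2 p.1 < R} := by
    refine measurableSet_lt ?_ measurable_const
    exact (continuous_snd.dist continuous_fst).measurable
  have hm : Measurable (Function.uncurry fun (x z : Sp d) =>
      (ball x R).indicator (fun z => ENNReal.ofReal (g z)) z) := by
    have : (Function.uncurry fun (x z : Sp d) =>
        (ball x R).indicator (fun z => ENNReal.ofReal (g z)) z) =
        {p : Sp d × Sp d | dist p.2 p.1 < R}.indicator
          (fun p => ENNReal.ofReal (g p.2)) := by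
      ext p
      obtain ⟨x, z⟩ := p
      simp only [Function.uncurry_apply_pair, indicator, mem_ball, mem_ofPred_eq]
    rw [this]
    exact (ENNReal.measurable_ofReal.comp (hgm.comp measurable_snd)).indicator hset
  rw [lintegral_lintegral_swap hm.aemeasurable, ← lintegral_const_mul' _ _
    ENNReal.ofReal_ne_top]
  refine lintegral_mono fun z => ?_
  have h2 : ∀ x : Sp d, (ball x R).indicator (fun z => ENNReal.ofReal (g z)) z =
      (ball z R).indicator (fun _ => ENNReal.ofReal (g z)) x := by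
    intro x
    simp only [indicator, mem_ball, dist_comm]
  simp only [h2]
  rw [lintegral_indicator measurableSet_ball, lintegral_const, Measure.restrict_apply_univ,
    mul_comm]
  exact mul_le_mul_left (hμ z R hR) _

/-- the constant of MU -/
def cMu (d : ℕ) (C' : ℝ) : ℝ := bk d 0 * C' * (8 / 7) ^ (d - 1)

lemma cMu_nonneg {C' : ℝ} (h : 0 < C') : 0 ≤ cMu d C' := by
  unfold cMu
  have := bk_zero_pos (d := d)
  positivity

lemma mu_kav {C' : ℝ} (hC' : 0 < C') (hd : 1 ≤ d) (μ : Measure (Sp d))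
    [IsFiniteMeasureOnCompacts μ]
    (hμ : ∀ x : Sp d, ∀ r : ℝ, 0 < r → μ (ball x r) ≤ ENNReal.ofReal (C' * r ^ (d - 1)))
    {g : Sp d → ℝ} (hg : LB g) (h0 : ∀ z, 0 ≤ g z) {s0 : ℝ} (hs : 0 < s0) (m r : ℕ) :
    ∫⁻ x, ENNReal.ofReal (sc s0 (m + r) * kav s0 m (r + 1) g x) ∂μ ≤
      ENNReal.ofReal (cMu d C') * ∫⁻ z, ENNReal.ofReal (g z) := by
  have hp := sc_pos hs (m + r)
  have hb := bk_zero_pos (d := d)
  set s := sc s0 (m + r) with hsdef
  have h1 : ∀ x, ENNReal.ofReal (s * kav s0 m (r + 1) g x) ≤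
      ENNReal.ofReal (s * (bk d 0 / s ^ d)) *
        ENNReal.ofReal (∫ z in ball x (8 / 7 * s), g z) := by
    intro x
    rw [← ENNReal.ofReal_mul (by positivity)]
    refine ENNReal.ofReal_le_ofReal ?_
    rw [mul_assoc]
    exact mul_le_mul_of_nonneg_left (kav_upper hs hg h0 m r x) hp.le
  refine (lintegral_mono h1).trans ?_
  rw [lintegral_const_mul' _ _ ENNReal.ofReal_ne_top]
  refine (mul_le_mul_right (mu_ball_int μ hμ hg h0 (R := 8 / 7 * s) (by positivity)) _).trans ?_
  rw [← mul_assoc, ← ENNReal.ofReal_mul (by positivity)]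
  refine le_of_eq ?_
  congr 2
  unfold cMu
  obtain ⟨n, rfl⟩ : ∃ n, d = n + 1 := ⟨d - 1, by omega⟩
  simp only [Nat.add_sub_cancel]
  rw [mul_pow, pow_succ s n]
  field_simp

/-- sum rule -/
lemma mu_sum (g : ℕ → ℝ) (hg : ∀ k, 0 ≤ g k) (J : ℕ) :
    ∑ j ∈ Finset.range J, ∑ k ∈ Finset.range (j + 3), (1 / 2 : ℝ) ^ (j - k) * g k ≤
      8 * ∑ k ∈ Finset.range (J + 3), g k := by
  have h1 : ∀ j, ∑ k ∈ Finset.range (j + 3), (1 / 2 : ℝ) ^ (j - k) * g k ≤
      4 * ∑ k ∈ Finset.range (j + 3), (1 / 2 : ℝ) ^ (j + 2 - k) * g k := by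
    intro j
    rw [Finset.mul_sum]
    refine Finset.sum_le_sum fun k hk => ?_
    rw [← mul_assoc]
    refine mul_le_mul_of_nonneg_right ?_ (hg k)
    have h2 : (1 / 2 : ℝ) ^ ((j - k) + 2) ≤ (1 / 2 : ℝ) ^ (j + 2 - k) :=
      pow_le_pow_of_le_one (by norm_num) (by norm_num) (by omega)
    rw [pow_add] at h2
    linarith
  have h3 : ∀ j, ∑ k ∈ Finset.range (j + 1 + 3), (1 / 2 : ℝ) ^ (j + 1 + 2 - k) * g k =
      1 / 2 * (∑ k ∈ Finset.range (j + 3), (1 / 2 : ℝ) ^ (j + 2 - k) * g k) + g (j + 3) := by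
    intro j
    rw [show j + 1 + 3 = (j + 3) + 1 by ring, Finset.sum_range_succ, Finset.mul_sum]
    congr 1
    · refine Finset.sum_congr rfl fun k hk => ?_
      rw [Finset.mem_range] at hk
      rw [show j + 1 + 2 - k = (j + 2 - k) + 1 by omega, pow_succ]
      ring
    · rw [show j + 1 + 2 - (j + 3) = 0 by omega]
      simp
  have h4 : ∑ j ∈ Finset.range J, ∑ k ∈ Finset.range (j + 3), (1 / 2 : ℝ) ^ (j + 2 - k) * g k ≤
      2 * (∑ k ∈ Finset.range (J + 3), g k) -
        2 * ∑ k ∈ Finset.range (J + 3), (1 / 2 : ℝ) ^ (J + 2 - k) * g k := by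
    induction J with
    | zero =>
      simp only [Finset.range_zero, Finset.sum_empty, Finset.sum_range_succ]
      have := hg 0
      have := hg 1
      norm_num
      linarith
    | succ J ih =>
      rw [Finset.sum_range_succ, h3 J, show J + 1 + 3 = (J + 3) + 1 by ring,
        Finset.sum_range_succ (fun k => g k) (J + 3)]
      linarith
  have h5 : 0 ≤ ∑ k ∈ Finset.range (J + 3), (1 / 2 : ℝ) ^ (J + 2 - k) * g k :=
    Finset.sum_nonneg fun k _ => mul_nonneg (by positivity) (hg k)
  calc _ ≤ ∑ j ∈ Finset.range J,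
        4 * ∑ k ∈ Finset.range (j + 3), (1 / 2 : ℝ) ^ (j + 2 - k) * g k :=
        Finset.sum_le_sum fun j _ => h1 j
    _ = 4 * ∑ j ∈ Finset.range J,
        ∑ k ∈ Finset.range (j + 3), (1 / 2 : ℝ) ^ (j + 2 - k) * g k := by rw [Finset.mul_sum]
    _ ≤ _ := by linarith

section

variable {E : Type} [NormedAddCommGroup E] [InnerProductSpace ℝ E] [FiniteDimensional ℝ E]

/-- the gap at a point is dominated by averages -/
lemma gap_le_av {f : Sp d → E} (hf : Continuous f) {s0 : ℝ} (hs : 0 < s0) (n : ℕ) (x : Sp d) :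
    gap s0 f n x ≤ kav s0 n 1
      (fun z => 8 ^ d * (kav s0 (n + 1) 1 (gap s0 f n) z + gap s0 f (n + 1) z)) x := by
  have hp := sc_pos hs n
  have hc1 : Continuous fun z => 8 ^ d * (kav s0 (n + 1) 1 (gap s0 f n) z +
      gap s0 f (n + 1) z) :=
    continuous_const.mul ((kav_cont (gap_cont hf s0 n) s0 _ _).add (gap_cont hf s0 (n + 1)))
  have key : ∀ z, ‖z - x‖ ≤ |sc s0 n| → gap s0 f n x ≤
      8 ^ d * (kav s0 (n + 1) 1 (gap s0 f n) z + gap s0 f (n + 1) z) := by
    intro z hz
    rw [abs_of_pos hp] at hz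
    set v := fl s0 f (n + 2) z with hv
    set e : E := ‖v‖⁻¹ • v with he
    have he1 : ‖e‖ ≤ 1 := by
      rw [he, norm_smul, norm_inv, norm_norm]
      by_cases h : ‖v‖ = 0
      · simp [h]
      · rw [inv_mul_cancel₀ h]
    have he2 : ⟪v, e⟫_ℝ = ‖v‖ := by
      rw [he, inner_smul_right, real_inner_self_eq_norm_sq]
      by_cases h : ‖v‖ = 0
      · simp [h]
      · field_simp
    have hfl : LB (fl s0 f n) := LB.of_cont (fl_cont hf s0 n)
    set D : Sp d → ℝ := fun w => ‖fl s0 f n w‖ - ⟪fl s0 f n w, e⟫_ℝ with hD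
    have hDLB : LB D := hfl.norm.sub (hfl.inner_const e)
    have hD0 : ∀ w, 0 ≤ D w := by
      intro w
      have := real_inner_le_norm (fl s0 f n w) e
      have h2 : ‖fl s0 f n w‖ * ‖e‖ ≤ ‖fl s0 f n w‖ :=
        mul_le_of_le_one_right (norm_nonneg _) he1
      simp only [hD]
      linarith
    have h1 : gap s0 f n x ≤ kav s0 n 1 D x := by
      have h2 : kav s0 n 1 D x = kav s0 n 1 (fun w => ‖fl s0 f n w‖) x -
          ⟪fl s0 f (n + 1) x, e⟫_ℝ := by
        rw [hD, kav_sub hfl.norm (hfl.inner_const e), kav_inner hfl, fl_succ]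
        rfl
      rw [h2]
      have h3 : ⟪fl s0 f (n + 1) x, e⟫_ℝ ≤ ‖fl s0 f (n + 1) x‖ :=
        (real_inner_le_norm _ _).trans (mul_le_of_le_one_right (norm_nonneg _) he1)
      unfold gap
      change av (sc s0 n) (fun z => ‖fl s0 f n z‖) x - _ ≤
        kav s0 n (0 + 1) (fun w => ‖fl s0 f n w‖) x - _
      rw [kav_succ]
      simp only [kav, add_zero]
      linarith
    have h2 : kav s0 n 1 D x ≤ 8 ^ d * kav s0 n 2 D z :=
      kav_compare hs hDLB hD0 n 0 z x (by
        rw [← norm_neg, neg_sub, add_zero]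
        linarith)
    have h3 : kav s0 n 2 D z = kav s0 n 2 (fun w => ‖fl s0 f n w‖) z - ‖v‖ := by
      rw [hD, kav_sub hfl.norm (hfl.inner_const e), kav_inner hfl]
      have h4 : kav s0 n 2 (fl s0 f n) z = v := by
        have := fl_kav s0 f (show n ≤ n + 2 by omega)
        rw [show n + 2 - n = 2 by omega] at this
        rw [this]
      rw [h4, he2]
    have h4 := dev_eq hf s0 (show n ≤ n + 2 by omega) z
    rw [show n + 2 - n = 2 by omega] at h4
    rw [h4, Finset.sum_Ico_succ_top (by omega), Finset.sum_Ico_succ_top (by omega),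
      Finset.Ico_self, Finset.sum_empty, zero_add, show n + 2 - n - 1 = 1 by omega,
      show n + 2 - (n + 1) - 1 = 0 by omega] at h3
    rw [h3] at h2
    exact h1.trans h2
  have h5 : av (sc s0 n) (fun _ => gap s0 f n x) x = gap s0 f n x := av_const _ _ _
  rw [← h5]
  exact av_mono_local (LB.of_cont continuous_const) (LB.of_cont hc1) x key

end

theorem stmtMu : StmtMu := by
  intro d hd C' hC'
  have hb := bk_zero_pos (d := d)
  have hc0 := cMu_nonneg (d := d) hC'
  refine ⟨8 * cMu d C' * (2 + 8 ^ d * 2) + C' * 32 ^ (d - 1) + 8 * cMu d C', by positivity, ?_⟩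
  intro E _ _ _ μ hfin hμ f hf hfs s0 hs
  have hfi : Integrable f := (LB.of_cont hf).integrable hfs
  have hfn : ∫⁻ x, ‖f x‖ₑ = ENNReal.ofReal (∫ x, ‖f x‖) := by
    rw [ofReal_integral_eq_lintegral_ofReal hfi.norm (Filter.Eventually.of_forall fun x =>
      norm_nonneg _)]
    simp only [ofReal_norm]
  have hflint : ∀ n, Integrable (fun z => ‖fl s0 f n z‖) := fun n =>
    (LB.of_cont (fl_cont hf s0 n).norm).integrable (fl_cs hfs s0 n).norm
  have hgint : ∀ n, Integrable (gap s0 f n) := fun n =>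
    (LB.of_cont (gap_cont hf s0 n)).integrable (gap_cs hfs s0 n)
  have hg0 : ∀ n, 0 ≤ ∫ x, gap s0 f n x := fun n => integral_nonneg (gap_nonneg s0 f n)
  have hgsum : ∀ N, ∑ k ∈ Finset.range N, ∫ x, gap s0 f k x =
      (∫ x, ‖f x‖) - ∫ x, ‖fl s0 f N x‖ := by
    intro N
    induction N with
    | zero => simp [fl_zero]
    | succ N ih =>
      rw [Finset.sum_range_succ, ih, gap_int hf hfs]
      ring
  have hgsum' : ∀ N, ∑ k ∈ Finset.range N, ∫ x, gap s0 f k x ≤ ∫ x, ‖f x‖ := by
    intro N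
    rw [hgsum]
    have : 0 ≤ ∫ x, ‖fl s0 f N x‖ := integral_nonneg fun x => norm_nonneg _
    linarith
  have hF0 : 0 ≤ ∫ x, ‖f x‖ := integral_nonneg fun x => norm_nonneg _
  have hmufin : IsFiniteMeasureOnCompacts μ := hfin
  refine ⟨?_, ?_, ?_⟩
  · intro J
    -- bound for one level
    have hlev : ∀ j, ∫⁻ x, ENNReal.ofReal (er s0 f j x) ∂μ ≤ ENNReal.ofReal (cMu d C' *
        ((∑ k ∈ Finset.range (j + 3), (1 / 2 : ℝ) ^ (j - k) * ∫ x, gap s0 f k x) +
          8 ^ d * ((∫ x, gap s0 f (j + 3) x) + ∫ x, gap s0 f (j + 4) x))) := by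
      intro j
      have hp := sc_pos hs j
      -- terms with averages
      have ht : ∀ k ∈ Finset.range (j + 3), ∫⁻ x, ENNReal.ofReal (sc s0 j *
          ((1 / 2 : ℝ) ^ (j - k) * kav s0 (k + 1) (j + 3 - k) (gap s0 f k) x)) ∂μ ≤
          ENNReal.ofReal (cMu d C' * ((1 / 2 : ℝ) ^ (j - k) * ∫ x, gap s0 f k x)) := by
        intro k hk
        rw [Finset.mem_range] at hk
        have h1 := mu_kav hC' hd μ hμ (LB.gap hf s0 k) (gap_nonneg s0 f k) hs (k + 1) (j + 2 - k)
        rw [show k + 1 + (j + 2 - k) = j + 3 by omega, show j + 2 - k + 1 = j + 3 - k by omega]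
          at h1
        rw [← ofReal_integral_eq_lintegral_ofReal (hgint k)
          (Filter.Eventually.of_forall (gap_nonneg s0 f k)),
          ← ENNReal.ofReal_mul hc0] at h1
        have h2 : ∀ x, ENNReal.ofReal (sc s0 j *
            ((1 / 2 : ℝ) ^ (j - k) * kav s0 (k + 1) (j + 3 - k) (gap s0 f k) x)) ≤
            ENNReal.ofReal ((1 / 2 : ℝ) ^ (j - k)) *
              ENNReal.ofReal (sc s0 (j + 3) * kav s0 (k + 1) (j + 3 - k) (gap s0 f k) x) := by
          intro x
          rw [← ENNReal.ofReal_mul (by positivity)]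
          refine ENNReal.ofReal_le_ofReal ?_
          have h3 : sc s0 j ≤ sc s0 (j + 3) := sc_le hs (by omega)
          have h4 := kav_nonneg (gap_nonneg s0 f k) s0 (k + 1) (j + 3 - k) x
          have h5 : (0 : ℝ) ≤ (1 / 2 : ℝ) ^ (j - k) := by positivity
          have h6 := mul_nonneg h5 h4
          nlinarith
        refine (lintegral_mono h2).trans ?_
        rw [lintegral_const_mul' _ _ ENNReal.ofReal_ne_top]
        refine (mul_le_mul_right h1 _).trans ?_
        rw [← ENNReal.ofReal_mul (by positivity)]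
        refine le_of_eq ?_
        congr 1
        ring
      -- the last term
      have hl : ∫⁻ x, ENNReal.ofReal (sc s0 j *
          ((1 / 2 : ℝ) ^ (j - (j + 3)) * kav s0 (j + 3 + 1) (j + 3 - (j + 3))
            (gap s0 f (j + 3)) x)) ∂μ ≤
          ENNReal.ofReal (cMu d C' *
            (8 ^ d * ((∫ x, gap s0 f (j + 3) x) + ∫ x, gap s0 f (j + 4) x))) := by
        set G : Sp d → ℝ := fun z => 8 ^ d * (kav s0 (j + 3 + 1) 1 (gap s0 f (j + 3)) z +
          gap s0 f (j + 3 + 1) z) with hG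
        have hGc : Continuous G := continuous_const.mul
          ((kav_cont (gap_cont hf s0 _) s0 _ _).add (gap_cont hf s0 _))
        have hG0 : ∀ z, 0 ≤ G z := fun z => mul_nonneg (by positivity)
          (add_nonneg (kav_nonneg (gap_nonneg s0 f _) s0 _ _ z) (gap_nonneg s0 f _ z))
        have hGi : Integrable G :=
          ((kav_integrable (hgint _) (LB.gap hf s0 _) s0 _ _).add (hgint _)).const_mul _
        have hGint : ∫ z, G z = 8 ^ d * ((∫ x, gap s0 f (j + 3) x) +
            ∫ x, gap s0 f (j + 4) x) := by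
          rw [hG, integral_const_mul, integral_add
            (kav_integrable (hgint _) (LB.gap hf s0 _) s0 _ _) (hgint _),
            kav_int (hgint _) (LB.gap hf s0 _)]
        have h1 := mu_kav hC' hd μ hμ (LB.of_cont hGc) hG0 hs (j + 3) 0
        rw [← ofReal_integral_eq_lintegral_ofReal hGi
          (Filter.Eventually.of_forall hG0), ← ENNReal.ofReal_mul hc0, hGint] at h1
        refine (lintegral_mono fun x => ENNReal.ofReal_le_ofReal ?_).trans h1
        rw [show j - (j + 3) = 0 by omega, show j + 3 - (j + 3) = 0 by omega, pow_zero, one_mul]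
        have h2 : kav s0 (j + 3 + 1) 0 (gap s0 f (j + 3)) x ≤ kav s0 (j + 3) (0 + 1) G x :=
          gap_le_av hf hs (j + 3) x
        have h3 : sc s0 j ≤ sc s0 (j + 3 + 0) := sc_le hs (by omega)
        have h4 : 0 ≤ kav s0 (j + 3 + 1) 0 (gap s0 f (j + 3)) x := gap_nonneg s0 f _ x
        exact mul_le_mul h3 h2 h4 (sc_pos hs _).le
      have hsplit : ∀ x, ENNReal.ofReal (er s0 f j x) =
          ∑ k ∈ Finset.range (j + 4), ENNReal.ofReal (sc s0 j *
          ((1 / 2 : ℝ) ^ (j - k) * kav s0 (k + 1) (j + 3 - k) (gap s0 f k) x)) := by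
        intro x
        unfold er
        rw [Finset.mul_sum, ENNReal.ofReal_sum_of_nonneg]
        intro k _
        have := kav_nonneg (gap_nonneg s0 f k) s0 (k + 1) (j + 3 - k) x
        positivity
      simp only [hsplit]
      rw [lintegral_finsetSum, Finset.sum_range_succ, mul_add, ENNReal.ofReal_add, Finset.mul_sum,
        ENNReal.ofReal_sum_of_nonneg]
      · exact add_le_add (Finset.sum_le_sum ht) hl
      · intro k _
        have := hg0 k
        positivity
      · have : 0 ≤ ∑ k ∈ Finset.range (j + 3), (1 / 2 : ℝ) ^ (j - k) * ∫ x, gap s0 f k x :=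
          Finset.sum_nonneg fun k _ => mul_nonneg (by positivity) (hg0 k)
        positivity
      · have := hg0 (j + 3)
        have := hg0 (j + 4)
        positivity
      · intro k _
        exact ENNReal.measurable_ofReal.comp ((continuous_const.mul (continuous_const.mul
          (kav_cont (gap_cont hf s0 k) s0 _ _))).measurable)
    have hsplit : ∀ x, ENNReal.ofReal (∑ j ∈ Finset.range J, er s0 f j x) =
        ∑ j ∈ Finset.range J, ENNReal.ofReal (er s0 f j x) := by
      intro x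
      rw [ENNReal.ofReal_sum_of_nonneg]
      intro j _
      have hp := sc_pos hs j
      unfold er
      refine mul_nonneg hp.le (Finset.sum_nonneg fun k _ => ?_)
      exact mul_nonneg (by positivity) (kav_nonneg (gap_nonneg s0 f k) s0 _ _ x)
    simp only [hsplit]
    have hmer : ∀ j ∈ Finset.range J, Measurable fun x => ENNReal.ofReal (er s0 f j x) :=
      fun j _ => ENNReal.measurable_ofReal.comp (er_cont hf s0 j).measurable
    rw [lintegral_finsetSum (Finset.range J) hmer]
    refine (Finset.sum_le_sum fun j _ => hlev j).trans ?_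
    rw [← ENNReal.ofReal_sum_of_nonneg, hfn, ← ENNReal.ofReal_mul (by positivity)]
    · refine ENNReal.ofReal_le_ofReal ?_
      rw [← Finset.mul_sum, Finset.sum_add_distrib, ← Finset.mul_sum, Finset.sum_add_distrib]
      have h1 := mu_sum (fun k => ∫ x, gap s0 f k x) hg0 J
      have h2 := hgsum' (J + 3)
      have h3 : ∀ a, ∑ j ∈ Finset.range J, ∫ x, gap s0 f (j + a) x ≤ ∫ x, ‖f x‖ := by
        intro a
        refine le_trans ?_ (hgsum' (J + a))
        rw [← Finset.sum_range_add_sum_Ico _ (show a ≤ J + a by omega)]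
        have h4 : ∑ j ∈ Finset.range J, ∫ x, gap s0 f (j + a) x =
            ∑ k ∈ Finset.Ico a (J + a), ∫ x, gap s0 f k x := by
          rw [Finset.sum_Ico_eq_sum_range]
          simp only [Nat.add_sub_cancel]
          refine Finset.sum_congr rfl fun j _ => ?_
          rw [add_comm a j]
        rw [h4]
        have : 0 ≤ ∑ k ∈ Finset.range a, ∫ x, gap s0 f k x := Finset.sum_nonneg fun k _ => hg0 k
        linarith
      have h4 := h3 3
      have h5 := h3 4
      have h8 : (0 : ℝ) < 8 ^ d := by positivity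
      have h6 : (∑ j ∈ Finset.range J, ∑ k ∈ Finset.range (j + 3),
          (1 / 2 : ℝ) ^ (j - k) * ∫ x, gap s0 f k x) +
          8 ^ d * ((∑ j ∈ Finset.range J, ∫ x, gap s0 f (j + 3) x) +
            ∑ j ∈ Finset.range J, ∫ x, gap s0 f (j + 4) x) ≤
          8 * (∫ x, ‖f x‖) + 8 ^ d * (2 * ∫ x, ‖f x‖) := by
        have := mul_le_mul_of_nonneg_left (add_le_add h4 h5) h8.le
        have h7 : (∑ j ∈ Finset.range J, ∑ k ∈ Finset.range (j + 3),
          (1 / 2 : ℝ) ^ (j - k) * ∫ x, gap s0 f k x) ≤ 8 * ∫ x, ‖f x‖ := by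
          refine h1.trans ?_
          exact mul_le_mul_of_nonneg_left h2 (by norm_num)
        linarith
      have h7 := mul_le_mul_of_nonneg_left h6 hc0
      refine h7.trans ?_
      have h9 : 0 ≤ C' * 32 ^ (d - 1) * ∫ x, ‖f x‖ := by positivity
      have h10 : 0 ≤ cMu d C' * ∫ x, ‖f x‖ := by positivity
      have h11 : 0 ≤ cMu d C' * 8 ^ d * ∫ x, ‖f x‖ := by positivity
      nlinarith
    · intro j _
      have h1 : 0 ≤ ∑ k ∈ Finset.range (j + 3), (1 / 2 : ℝ) ^ (j - k) * ∫ x, gap s0 f k x :=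
        Finset.sum_nonneg fun k _ => mul_nonneg (by positivity) (hg0 k)
      have := hg0 (j + 3)
      have := hg0 (j + 4)
      positivity
  · intro J
    have hp := sc_pos hs J
    have hn : LB (fun z => ‖fl s0 f J z‖) := LB.of_cont (fl_cont hf s0 J).norm
    have h1 := mu_ball_int μ hμ hn (fun z => norm_nonneg _) (R := 32 * sc s0 J) (by positivity)
    rw [← ofReal_integral_eq_lintegral_ofReal (hflint J)
      (Filter.Eventually.of_forall fun z => norm_nonneg _)] at h1
    have h2 : ∀ x, ENNReal.ofReal (am s0 f J x) =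
        ENNReal.ofReal (sc s0 J / (sc s0 J) ^ d) *
          ENNReal.ofReal (∫ z in ball x (32 * sc s0 J), ‖fl s0 f J z‖) := by
      intro x
      rw [← ENNReal.ofReal_mul (by positivity)]
      rfl
    simp only [h2]
    rw [lintegral_const_mul' _ _ ENNReal.ofReal_ne_top]
    refine (mul_le_mul_right h1 _).trans ?_
    rw [← mul_assoc, ← ENNReal.ofReal_mul (by positivity), hfn]
    rw [← ENNReal.ofReal_mul (by positivity), ← ENNReal.ofReal_mul (by positivity)]
    refine ENNReal.ofReal_le_ofReal ?_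
    have h3 : sc s0 J / sc s0 J ^ d * (C' * (32 * sc s0 J) ^ (d - 1)) = C' * 32 ^ (d - 1) := by
      obtain ⟨n, rfl⟩ : ∃ n, d = n + 1 := ⟨d - 1, by omega⟩
      simp only [Nat.add_sub_cancel]
      rw [mul_pow, pow_succ (sc s0 J) n]
      field_simp
    rw [h3]
    have h4 : ∫ z, ‖fl s0 f J z‖ ≤ ∫ z, ‖f z‖ := by
      have h5 := hgsum J
      have h6 : 0 ≤ ∑ k ∈ Finset.range J, ∫ x, gap s0 f k x :=
        Finset.sum_nonneg fun k _ => hg0 k
      linarith
    have h5 : C' * 32 ^ (d - 1) * ∫ z, ‖fl s0 f J z‖ ≤ C' * 32 ^ (d - 1) * ∫ z, ‖f z‖ :=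
      mul_le_mul_of_nonneg_left h4 (by positivity)
    refine h5.trans ?_
    have h9 : 0 ≤ cMu d C' * (2 + 8 ^ d * 2) * ∫ x, ‖f x‖ := by positivity
    have h10 : 0 ≤ cMu d C' * ∫ x, ‖f x‖ := by positivity
    nlinarith
  · intro l hl g hgm hg0' hgb
    obtain ⟨M, hM⟩ := hgb
    have hgLB : LB g := LB.of_bdd hgm.stronglyMeasurable (M := M) fun x => by
      rw [Real.norm_eq_abs, abs_of_nonneg (hg0' x)]
      exact hM x
    obtain ⟨r, rfl⟩ : ∃ r, l = r + 1 := ⟨l - 1, by omega⟩
    have h1 := mu_kav hC' hd μ hμ hgLB hg0' hs 0 r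
    rw [zero_add] at h1
    have h2 : ∀ x, ENNReal.ofReal (sc s0 (r + 1) * kav s0 0 (r + 1) g x) =
        ENNReal.ofReal 8 * ENNReal.ofReal (sc s0 r * kav s0 0 (r + 1) g x) := by
      intro x
      rw [← ENNReal.ofReal_mul (by norm_num), sc_succ]
      congr 1
      ring
    simp only [h2]
    rw [lintegral_const_mul' _ _ ENNReal.ofReal_ne_top]
    refine (mul_le_mul_right h1 _).trans ?_
    rw [← mul_assoc, ← ENNReal.ofReal_mul (by norm_num)]
    refine mul_le_mul_left (ENNReal.ofReal_le_ofReal ?_) _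
    have h9 : 0 ≤ cMu d C' * (2 + 8 ^ d * 2) := by positivity
    have h10 : 0 ≤ C' * 32 ^ (d - 1) := by positivity
    nlinarith

end

end TrI
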