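import Mathlib

/-!
# Symmetry of the iterated derivatives of smooth functions
-/

open scoped ContDiff

namespace TrI

section

variable {G F : Type*} [NormedAddCommGroup G] [NormedSpace ℝ G] [NormedAddCommGroup F]
  [NormedSpace ℝ F]

theorem smooth_iter {f : G → F} (hf : ContDiff ℝ ∞ f) (n : ℕ) :
    ContDiff ℝ ∞ (iteratedFDeriv ℝ n f) :=
  hf.iteratedFDeriv_right (m := ∞) (by exact_mod_cast le_top)

theorem iter_succ {f : G → F} (hf : ContDiff ℝ ∞ f) (n : ℕ) (x : G) (m : Fin (n + 1) → G) :
    iteratedFDeriv ℝ (n + 1) f x m =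
      fderiv ℝ (fun y => iteratedFDeriv ℝ n f y (Fin.tail m)) x (m 0) :=
  ((smooth_iter hf n).differentiable (by simp)).differentiableAt.iteratedFDeriv_succ_apply_left'

theorem smooth_iter_apply {f : G → F} (hf : ContDiff ℝ ∞ f) (n : ℕ) (w : Fin n → G) :
    ContDiff ℝ ∞ (fun y => iteratedFDeriv ℝ n f y w) := by
  have h := smooth_iter hf n
  exact (ContinuousMultilinearMap.apply ℝ (fun _ : Fin n => G) F w).contDiff.comp h

/-- swapping two adjacent arguments -/
theorem iter_swap (n : ℕ) : ∀ (f : G → F), ContDiff ℝ ∞ f → ∀ (x : G) (i : Fin n)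
    (v : Fin (n + 1) → G),
    iteratedFDeriv ℝ (n + 1) f x (v ∘ Equiv.swap i.castSucc i.succ) =
      iteratedFDeriv ℝ (n + 1) f x v := by
  induction n with
  | zero => intro f _ x i; exact i.elim0
  | succ n ih =>
    intro f hf x i v
    rw [iter_succ hf, iter_succ hf]
    refine Fin.cases ?_ (fun j => ?_) i
    · -- first two arguments
      set w : Fin n → G := Fin.tail (Fin.tail v) with hw
      have h1 : ∀ m : Fin (n + 2) → G, Fin.tail (Fin.tail m) = w →
          (fun y => iteratedFDeriv ℝ (n + 1) f y (Fin.tail m)) =
            fun y => fderiv ℝ (fun y => iteratedFDeriv ℝ n f y w) y (m 1) := by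
        intro m hm
        funext y
        rw [iter_succ hf, hm]
        rfl
      have hv' : Fin.tail (Fin.tail (v ∘ Equiv.swap (Fin.castSucc (0 : Fin (n + 1)))
          (Fin.succ 0))) = w := by
        funext k
        simp only [hw, Fin.tail, Function.comp_apply]
        rw [Equiv.swap_apply_of_ne_of_ne]
        · intro h; simp [Fin.ext_iff] at h
        · intro h; simp [Fin.ext_iff] at h
      rw [h1 _ hv', h1 v rfl]
      set g : G → F := fun y => iteratedFDeriv ℝ n f y w with hg
      have hgs : ContDiff ℝ ∞ g := smooth_iter_apply hf n w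
      have hd : ∀ b : G, ∀ a : G, fderiv ℝ (fun y => fderiv ℝ g y b) x a =
          fderiv ℝ (fderiv ℝ g) x a b := by
        intro b a
        have h2 : DifferentiableAt ℝ (fderiv ℝ g) x :=
          ((hgs.fderiv_right (m := ∞) (by simp)).differentiable (by simp)) x
        rw [fderiv_clm_apply h2 (differentiableAt_const b)]
        simp
      rw [hd, hd]
      have hsym := (hgs.contDiffAt (x := x)).isSymmSndFDerivAt
        (by rw [minSmoothness_of_isRCLikeNormedField]
            exact WithTop.coe_le_coe.2 (le_top : (2 : ℕ∞) ≤ ⊤))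
      have e0 : (v ∘ Equiv.swap (Fin.castSucc (0 : Fin (n + 1))) (Fin.succ 0)) 0 = v 1 := by
        simp
      have e1 : (v ∘ Equiv.swap (Fin.castSucc (0 : Fin (n + 1))) (Fin.succ 0)) 1 = v 0 := by
        simp
      rw [e0, e1]
      exact hsym _ _
    · -- the other arguments
      have e0 : (v ∘ Equiv.swap (Fin.castSucc j.succ) (Fin.succ j.succ)) 0 = v 0 := by
        simp only [Function.comp_apply]
        rw [Equiv.swap_apply_of_ne_of_ne]
        · intro h; simp [Fin.ext_iff] at h
        · intro h; simp [Fin.ext_iff] at h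
      have e1 : Fin.tail (v ∘ Equiv.swap (Fin.castSucc j.succ) (Fin.succ j.succ)) =
          Fin.tail v ∘ Equiv.swap j.castSucc j.succ := by
        funext k
        simp only [Fin.tail, Function.comp_apply]
        congr 1
        rw [← Fin.succ_castSucc]
        by_cases h1 : k = j.castSucc
        · subst h1; simp
        · by_cases h2 : k = j.succ
          · subst h2; simp
          · rw [Equiv.swap_apply_of_ne_of_ne h1 h2, Equiv.swap_apply_of_ne_of_ne]
            · intro h; exact h1 (Fin.succ_injective _ h)
            · intro h; exact h2 (Fin.succ_injective _ h)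
      rw [e0, e1]
      have h3 : (fun y => iteratedFDeriv ℝ (n + 1) f y
          (Fin.tail v ∘ Equiv.swap j.castSucc j.succ)) =
          fun y => iteratedFDeriv ℝ (n + 1) f y (Fin.tail v) := by
        funext y
        exact ih f hf y j _
      rw [h3]

/-- the iterated derivatives of smooth functions are symmetric -/
theorem iter_perm {f : G → F} (hf : ContDiff ℝ ∞ f) (n : ℕ) (x : G) (π : Equiv.Perm (Fin n))
    (v : Fin n → G) : iteratedFDeriv ℝ n f x (v ∘ π) = iteratedFDeriv ℝ n f x v := by
  cases n with
  | zero =>
    congr 1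
    funext i; exact i.elim0
  | succ n =>
    have hmem : π ∈ Submonoid.closure
        (Set.range fun i : Fin n => Equiv.swap i.castSucc i.succ) := by
      rw [Equiv.Perm.mclosure_swap_castSucc_succ]; trivial
    induction hmem using Submonoid.closure_induction generalizing v with
    | mem π h =>
      obtain ⟨i, rfl⟩ := h
      exact iter_swap n f hf x i v
    | one => rfl
    | mul a b _ _ ha hb =>
      rw [Equiv.Perm.coe_mul, ← Function.comp_assoc, hb, ha]

end

end TrI
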