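import Pool.Agent.TR.Stmts2
import Pool.Agent.TR.SymD

/-!
# Trace inequality, stage 2, module NS: the Nullstellensatz

For a ℂ-elliptic operator the derivatives of order n+1 of u are linear images of the derivatives
of order n of L(Du), for some n.
-/

open MeasureTheory Metric Set
open scoped InnerProductSpace ContDiff

namespace TrI

noncomputable section

section algebra

open MvPolynomial Matrix

variable {σ κ ν : Type} [Fintype σ] [Fintype κ] [Fintype ν] [DecidableEq ν] [DecidableEq κ]
  [DecidableEq σ]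

/-- product with a constant matrix -/
def bp (B : Matrix ν κ ℂ) (P : Matrix κ ν (MvPolynomial σ ℂ)) :
    Matrix ν ν (MvPolynomial σ ℂ) := Matrix.of fun i j => ∑ k, C (B i k) * P k j

/-- Cramer: the determinants of B * A(X) kill the functionals which are killed by A(X). -/
theorem ns_kill (P : Matrix κ ν (MvPolynomial σ ℂ)) (φ : ν → (MvPolynomial σ ℂ →ₗ[ℂ] ℂ))
    (h : ∀ k Q, ∑ j, φ j (P k j * Q) = 0) (B : Matrix ν κ ℂ) (i : ν) (Q : MvPolynomial σ ℂ) :
    φ i ((bp B P).det * Q) = 0 := by
  set M : Matrix ν ν (MvPolynomial σ ℂ) := bp B P with hM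
  have h1 : ∀ l Q, ∑ j, φ j (M l j * Q) = 0 := by
    intro l Q
    have h2 : ∀ j, φ j (M l j * Q) = ∑ k, B l k * φ j (P k j * Q) := by
      intro j
      rw [hM, bp, Matrix.of_apply, Finset.sum_mul, map_sum]
      refine Finset.sum_congr rfl fun k _ => ?_
      rw [mul_assoc, ← MvPolynomial.smul_eq_C_mul, map_smul, smul_eq_mul]
    simp_rw [h2]
    rw [Finset.sum_comm]
    refine Finset.sum_eq_zero fun k _ => ?_
    rw [← Finset.mul_sum, h, mul_zero]
  have h3 : φ i (M.det * Q) = ∑ j, φ j ((M.adjugate * M) i j * Q) := by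
    rw [Matrix.adjugate_mul]
    rw [Finset.sum_eq_single i]
    · simp
    · intro j _ hj
      simp [Matrix.smul_apply, Matrix.one_apply_ne hj.symm]
    · intro h; exact absurd (Finset.mem_univ i) h
  rw [h3]
  have h4 : ∀ j, φ j ((M.adjugate * M) i j * Q) = ∑ l, φ j (M l j * (M.adjugate i l * Q)) := by
    intro j
    rw [Matrix.mul_apply, Finset.sum_mul, map_sum]
    refine Finset.sum_congr rfl fun l _ => ?_
    congr 1; ring
  simp_rw [h4]
  rw [Finset.sum_comm]
  exact Finset.sum_eq_zero fun l _ => h1 l _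

/-- Nullstellensatz for a matrix of linear forms which is injective at every nonzero point. -/
theorem ns_alg (A : σ → Matrix κ ν ℂ)
    (hA : ∀ x : σ → ℂ, x ≠ 0 → ∀ v : ν → ℂ, (∑ i, x i • A i) *ᵥ v = 0 → v = 0) :
    ∃ m0 : ℕ, ∀ a : (σ →₀ ℕ) → ν → ℂ,
      (∀ k β, ∑ j, ∑ i, A i k j * a (β + Finsupp.single i 1) j = 0) →
      ∀ α : σ →₀ ℕ, m0 ≤ α.degree → ∀ j, a α j = 0 := by
  set P : Matrix κ ν (MvPolynomial σ ℂ) := Matrix.of fun k j => ∑ i, C (A i k j) * X i with hP
  set I : Ideal (MvPolynomial σ ℂ) :=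
    Ideal.span (Set.range fun B : Matrix ν κ ℂ => (bp B P).det) with hI
  have hev : ∀ x : σ → ℂ, P.map (aeval x) = ∑ i, x i • A i := by
    intro x
    ext k j
    simp only [hP, Matrix.map_apply, Matrix.of_apply, map_sum, map_mul, aeval_X]
    rw [Matrix.sum_apply]
    refine Finset.sum_congr rfl fun i _ => ?_
    simp [mul_comm]
  have hzero : ∀ x ∈ zeroLocus ℂ I, x = 0 := by
    intro x hx
    by_contra hne
    have hinj : Function.Injective (∑ i, x i • A i).mulVecLin := by
      rw [← LinearMap.ker_eq_bot, LinearMap.ker_eq_bot']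
      intro v hv
      exact hA x hne v hv
    obtain ⟨g, hg⟩ := LinearMap.exists_leftInverse_of_injective _
      (LinearMap.ker_eq_bot.2 hinj)
    set B : Matrix ν κ ℂ := LinearMap.toMatrix' g with hB
    have hBA : B * (∑ i, x i • A i) = 1 := by
      have h1 := congrArg LinearMap.toMatrix' hg
      rw [LinearMap.toMatrix'_comp, LinearMap.toMatrix'_id] at h1
      rw [← Matrix.toLin'_apply', LinearMap.toMatrix'_toLin'] at h1
      exact h1
    have hx1 : aeval x ((bp B P).det) = 0 :=
      hx _ (Ideal.subset_span ⟨B, rfl⟩)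
    have hx2 : aeval x ((bp B P).det) =
        (B * (∑ i, x i • A i)).det := by
      rw [← hev]
      have h2 := (aeval x : MvPolynomial σ ℂ →ₐ[ℂ] ℂ).toRingHom.map_det
        (bp B P)
      have h3 : (aeval x : MvPolynomial σ ℂ →ₐ[ℂ] ℂ).toRingHom.mapMatrix
          (bp B P) = B * P.map (aeval x) := by
        ext a b
        simp [Matrix.mul_apply, bp]
      rw [h3] at h2
      exact h2
    rw [hx2, hBA, Matrix.det_one] at hx1
    exact one_ne_zero hx1
  have hX : ∀ i : σ, (X i : MvPolynomial σ ℂ) ∈ I.radical := by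
    intro i
    rw [← vanishingIdeal_zeroLocus_eq_radical (K := ℂ)]
    intro x hx
    rw [hzero x hx]
    simp
  choose e he using fun i => hX i
  refine ⟨(∑ i, e i) + 1, ?_⟩
  intro a ha α hα j
  -- the functionals
  set φ : ν → (MvPolynomial σ ℂ →ₗ[ℂ] ℂ) := fun j =>
    (MvPolynomial.basisMonomials σ ℂ).constr ℂ (fun α => a α j) with hφ
  have hφm : ∀ j α (c : ℂ), φ j (monomial α c) = c * a α j := by
    intro j α c
    have h1 : (monomial α c : MvPolynomial σ ℂ) = c • (MvPolynomial.basisMonomials σ ℂ α) := by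
      rw [MvPolynomial.coe_basisMonomials, MvPolynomial.smul_monomial, smul_eq_mul, mul_one]
    rw [h1, map_smul, hφ]
    simp only [Module.Basis.constr_basis, smul_eq_mul]
  have hkill : ∀ k Q, ∑ j, φ j (P k j * Q) = 0 := by
    intro k Q
    induction Q using MvPolynomial.induction_on' with
    | monomial β c =>
      have h1 : ∀ j, φ j (P k j * monomial β c) =
          c * ∑ i, A i k j * a (β + Finsupp.single i 1) j := by
        intro j
        simp only [hP, Matrix.of_apply, Finset.sum_mul, map_sum, Finset.mul_sum]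
        refine Finset.sum_congr rfl fun i _ => ?_
        have h2 : (C (A i k j) * X i * monomial β c : MvPolynomial σ ℂ) =
            monomial (β + Finsupp.single i 1) (A i k j * c) := by
          rw [MvPolynomial.X, C_mul_monomial, monomial_mul, mul_one, add_comm]
        rw [h2, hφm]; ring
      simp_rw [h1]
      rw [← Finset.mul_sum, ha, mul_zero]
    | add p q hp hq =>
      simp_rw [mul_add, map_add, Finset.sum_add_distrib]
      rw [hp, hq, add_zero]
  have hIkill : ∀ p ∈ I, ∀ j Q, φ j (p * Q) = 0 := by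
    intro p hp
    rw [hI] at hp
    refine Submodule.span_induction ?_ ?_ ?_ ?_ hp
    · rintro _ ⟨B, rfl⟩ j Q
      exact ns_kill P φ hkill B j Q
    · intro j Q; simp
    · intro x y _ _ hx hy j Q
      rw [add_mul, map_add, hx, hy, add_zero]
    · intro c x _ hx j Q
      rw [smul_eq_mul, mul_comm c x, mul_assoc]
      exact hx j _
  -- some exponent is large
  have hex : ∃ i, e i ≤ α i := by
    by_contra hcon
    push Not at hcon
    have h1 : α.degree ≤ ∑ i, e i := by
      rw [Finsupp.degree_eq_sum]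
      exact Finset.sum_le_sum fun i _ => (hcon i).le
    omega
  obtain ⟨i, hi⟩ := hex
  have h5 : (monomial α (1 : ℂ) : MvPolynomial σ ℂ) =
      X i ^ (e i) * monomial (α - Finsupp.single i (e i)) 1 := by
    rw [MvPolynomial.X_pow_eq_monomial, monomial_mul, mul_one]
    congr 2
    rw [add_comm]
    exact (tsub_add_cancel_of_le (Finsupp.single_le_iff.2 hi)).symm
  have h6 := hIkill _ (he i) j (monomial (α - Finsupp.single i (e i)) 1)
  rw [← h5, hφm, one_mul] at h6
  exact h6

end algebra

section tuples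

variable {m d : ℕ}

/-- content of a tuple -/
def cnt (t : Fin m → Fin d) : Fin d →₀ ℕ := ∑ r, Finsupp.single (t r) 1

theorem cnt_apply (t : Fin m → Fin d) (c : Fin d) : cnt t c = Fintype.card {r // t r = c} := by
  classical
  rw [cnt, Finsupp.finset_sum_apply, Fintype.card_subtype, Finset.card_filter]
  refine Finset.sum_congr rfl fun r _ => ?_
  rw [Finsupp.single_apply]

theorem cnt_degree (t : Fin m → Fin d) : (cnt t).degree = m := by
  rw [cnt, map_sum]
  simp

theorem cnt_snoc (t : Fin m → Fin d) (i : Fin d) :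
    cnt (Fin.snoc t i : Fin (m + 1) → Fin d) = cnt t + Finsupp.single i 1 := by
  rw [cnt, cnt, Fin.sum_univ_castSucc]
  simp

theorem exists_perm_of_cnt (t t' : Fin m → Fin d) (h : cnt t = cnt t') :
    ∃ π : Equiv.Perm (Fin m), t ∘ π = t' := by
  classical
  have h1 : ∀ c, Fintype.card {r // t' r = c} = Fintype.card {r // t r = c} := by
    intro c; rw [← cnt_apply, ← cnt_apply, h]
  let e : ∀ c, {r // t' r = c} ≃ {r // t r = c} := fun c => Fintype.equivOfCardEq (h1 c)
  refine ⟨(Equiv.sigmaFiberEquiv t').symm.trans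
    ((Equiv.sigmaCongrRight e).trans (Equiv.sigmaFiberEquiv t)), ?_⟩
  funext r
  exact (e (t' r) ⟨r, rfl⟩).2

theorem exists_tuple (α : Fin d →₀ ℕ) : ∀ m : ℕ, α.degree = m →
    ∃ t : Fin m → Fin d, cnt t = α := by
  intro m
  induction m generalizing α with
  | zero =>
    intro h
    refine ⟨fun i => i.elim0, ?_⟩
    rw [Finsupp.degree_eq_zero_iff] at h
    rw [h, cnt]; simp
  | succ m ih =>
    intro h
    have hne : ∃ i, 1 ≤ α i := by
      by_contra hcon
      push Not at hcon
      have h0 : α = 0 := by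
        ext i
        have := hcon i
        simp; omega
      rw [h0] at h
      simp at h
    obtain ⟨i, hi⟩ := hne
    have hle : Finsupp.single i 1 ≤ α := Finsupp.single_le_iff.2 hi
    have h2 : α = (α - Finsupp.single i 1) + Finsupp.single i 1 :=
      (tsub_add_cancel_of_le hle).symm
    have h3 : (α - Finsupp.single i 1).degree = m := by
      have h4 := congrArg Finsupp.degree h2
      rw [map_add, h, Finsupp.degree_single] at h4
      omega
    obtain ⟨t, ht⟩ := ih _ h3
    refine ⟨Fin.snoc t i, ?_⟩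
    rw [cnt_snoc, ht]
    exact h2.symm

end tuples

section main

variable {d : ℕ} {V E : Type} [NormedAddCommGroup V] [InnerProductSpace ℝ V]
  [FiniteDimensional ℝ V] [NormedAddCommGroup E] [InnerProductSpace ℝ E]
  [FiniteDimensional ℝ E]

theorem rk1_expand (ξ : Sp d) (v : V) :
    rk1 ξ v = ∑ i, ∑ j, (ξ i * ⟪stdOrthonormalBasis ℝ V j, v⟫_ℝ) •
      rk1 (EuclideanSpace.single i (1 : ℝ)) (stdOrthonormalBasis ℝ V j) := by
  ext y
  have h1 : v = ∑ j, ⟪stdOrthonormalBasis ℝ V j, v⟫_ℝ • stdOrthonormalBasis ℝ V j :=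
    ((stdOrthonormalBasis ℝ V).sum_repr' v).symm
  have h2 : ⟪ξ, y⟫_ℝ = ∑ i, ξ i * y i := by
    rw [PiLp.inner_apply]
    refine Finset.sum_congr rfl fun i _ => ?_
    simp [mul_comm]
  simp only [rk1, ContinuousLinearMap.smulRight_apply, innerSL_apply_apply,
    ContinuousLinearMap.sum_apply, ContinuousLinearMap.smul_apply]
  rw [h2]
  conv_lhs => rw [h1]
  rw [Finset.sum_smul]
  refine Finset.sum_congr rfl fun i _ => ?_
  rw [Finset.smul_sum]
  refine Finset.sum_congr rfl fun j _ => ?_
  rw [EuclideanSpace.inner_single_left]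
  simp only [smul_smul]
  congr 1
  simp; ring

/-- a continuous linear map is the sum of its rank one parts -/
theorem clm_expand (M : Sp d →L[ℝ] V) :
    M = ∑ i, rk1 (EuclideanSpace.single i (1 : ℝ)) (M (EuclideanSpace.single i 1)) := by
  ext y
  simp only [rk1, ContinuousLinearMap.smulRight_apply, innerSL_apply_apply,
    ContinuousLinearMap.sum_apply]
  have h : y = ∑ i, y i • EuclideanSpace.single i (1 : ℝ) := by
    have := ((EuclideanSpace.basisFun (Fin d) ℝ).sum_repr y).symm
    simpa using this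
  conv_lhs => rw [h]
  rw [map_sum]
  refine Finset.sum_congr rfl fun i _ => ?_
  rw [map_smul, EuclideanSpace.inner_single_left]
  simp

/-- the matrix of the operator -/
def nsA (L : (Sp d →L[ℝ] V) →L[ℝ] E) (i : Fin d) :
    Matrix (Fin (Module.finrank ℝ E)) (Fin (Module.finrank ℝ V)) ℂ :=
  Matrix.of fun k j => ((⟪stdOrthonormalBasis ℝ E k,
    L (rk1 (EuclideanSpace.single i (1 : ℝ)) (stdOrthonormalBasis ℝ V j))⟫_ℝ : ℝ) : ℂ)

/-- the coordinates of L (rk1 ξ v) -/
theorem nsA_coord (L : (Sp d →L[ℝ] V) →L[ℝ] E) (ξ : Sp d) (v : V)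
    (k : Fin (Module.finrank ℝ E)) :
    ⟪stdOrthonormalBasis ℝ E k, L (rk1 ξ v)⟫_ℝ =
      ∑ i, ∑ j, (ξ i * ⟪stdOrthonormalBasis ℝ V j, v⟫_ℝ) *
        ⟪stdOrthonormalBasis ℝ E k,
          L (rk1 (EuclideanSpace.single i (1 : ℝ)) (stdOrthonormalBasis ℝ V j))⟫_ℝ := by
  rw [rk1_expand ξ v, map_sum, inner_sum]
  refine Finset.sum_congr rfl fun i _ => ?_
  rw [map_sum, inner_sum]
  refine Finset.sum_congr rfl fun j _ => ?_
  rw [map_smul, inner_smul_right]

theorem nsA_inj (L : (Sp d →L[ℝ] V) →L[ℝ] E) (hL : CEll L) (x : Fin d → ℂ) (hx : x ≠ 0)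
    (v : Fin (Module.finrank ℝ V) → ℂ) (hv : Matrix.mulVec (∑ i, x i • nsA L i) v = 0) :
    v = 0 := by
  set ξ : Sp d := WithLp.toLp 2 fun i => (x i).re with hξ
  set η : Sp d := WithLp.toLp 2 fun i => (x i).im with hη
  set a : V := ∑ j, (v j).re • stdOrthonormalBasis ℝ V j with ha
  set b : V := ∑ j, (v j).im • stdOrthonormalBasis ℝ V j with hb
  have hac : ∀ j, ⟪stdOrthonormalBasis ℝ V j, a⟫_ℝ = (v j).re := by
    intro j; rw [ha]; exact (stdOrthonormalBasis ℝ V).orthonormal.inner_right_fintype _ j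
  have hbc : ∀ j, ⟪stdOrthonormalBasis ℝ V j, b⟫_ℝ = (v j).im := by
    intro j; rw [hb]; exact (stdOrthonormalBasis ℝ V).orthonormal.inner_right_fintype _ j
  have hk : ∀ k, ∑ j, ∑ i, x i * nsA L i k j * v j = 0 := by
    intro k
    have h := congrFun hv k
    simp only [Matrix.mulVec, dotProduct, Matrix.sum_apply, Matrix.smul_apply, smul_eq_mul,
      Finset.sum_mul, Pi.zero_apply] at h
    exact h
  have hre : ∀ k, ⟪stdOrthonormalBasis ℝ E k, L (rk1 ξ a) - L (rk1 η b)⟫_ℝ = 0 := by
    intro k
    rw [inner_sub_right, nsA_coord, nsA_coord, ← Finset.sum_sub_distrib]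
    have h := congrArg Complex.re (hk k)
    rw [Finset.sum_comm] at h
    simp only [Complex.re_sum, Complex.zero_re] at h
    rw [← h]
    refine Finset.sum_congr rfl fun i _ => ?_
    rw [← Finset.sum_sub_distrib]
    refine Finset.sum_congr rfl fun j _ => ?_
    rw [hac, hbc]
    simp [nsA, hξ, hη, Complex.mul_re, Complex.mul_im]
    ring
  have him : ∀ k, ⟪stdOrthonormalBasis ℝ E k, L (rk1 ξ b) + L (rk1 η a)⟫_ℝ = 0 := by
    intro k
    rw [inner_add_right, nsA_coord, nsA_coord, ← Finset.sum_add_distrib]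
    have h := congrArg Complex.im (hk k)
    rw [Finset.sum_comm] at h
    simp only [Complex.im_sum, Complex.zero_im] at h
    rw [← h]
    refine Finset.sum_congr rfl fun i _ => ?_
    rw [← Finset.sum_add_distrib]
    refine Finset.sum_congr rfl fun j _ => ?_
    rw [hac, hbc]
    simp [nsA, hξ, hη, Complex.mul_re, Complex.mul_im]
    ring
  have hzE : ∀ w : E, (∀ k, ⟪stdOrthonormalBasis ℝ E k, w⟫_ℝ = 0) → w = 0 := by
    intro w hw
    rw [← (stdOrthonormalBasis ℝ E).sum_repr' w]
    simp [hw]
  have hne : ξ ≠ 0 ∨ η ≠ 0 := by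
    by_contra hcon
    push Not at hcon
    refine hx (funext fun i => Complex.ext ?_ ?_)
    · have := congrArg (fun z : Sp d => z i) hcon.1
      simpa [hξ] using this
    · have := congrArg (fun z : Sp d => z i) hcon.2
      simpa [hη] using this
  obtain ⟨h1, h2⟩ := hL ξ η hne a b (hzE _ hre) (hzE _ him)
  funext j
  refine Complex.ext ?_ ?_
  · rw [← hac j, h1, inner_zero_right]; rfl
  · rw [← hbc j, h2, inner_zero_right]; rfl

/-- symmetric multilinear maps of high order killed by L vanish -/
theorem ns_inj (L : (Sp d →L[ℝ] V) →L[ℝ] E) (hL : CEll L) :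
    ∃ m0 : ℕ, ∀ n : ℕ, m0 ≤ n → ∀ M : ContinuousMultilinearMap ℝ (fun _ : Fin (n + 1) => Sp d) V,
      (∀ (π : Equiv.Perm (Fin (n + 1))) (v : Fin (n + 1) → Sp d), M (v ∘ π) = M v) →
      (∀ y : Fin n → Sp d, L (M.curryRight y) = 0) → M = 0 := by
  classical
  obtain ⟨m0, hm0⟩ := ns_alg (nsA L) (nsA_inj L hL)
  refine ⟨m0, ?_⟩
  intro n hn M hsym hM
  set e : Fin d → Sp d := fun i => EuclideanSpace.single i (1 : ℝ) with he
  set b := stdOrthonormalBasis ℝ V with hb
  set a : (Fin d →₀ ℕ) → Fin (Module.finrank ℝ V) → ℂ := fun α j =>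
    if h : ∃ t : Fin (n + 1) → Fin d, cnt t = α then
      ((⟪b j, M (fun r => e (h.choose r))⟫_ℝ : ℝ) : ℂ) else 0 with ha
  have hat : ∀ (t : Fin (n + 1) → Fin d) j,
      a (cnt t) j = ((⟪b j, M (fun r => e (t r))⟫_ℝ : ℝ) : ℂ) := by
    intro t j
    have h : ∃ t' : Fin (n + 1) → Fin d, cnt t' = cnt t := ⟨t, rfl⟩
    obtain ⟨π, hπ⟩ := exists_perm_of_cnt _ _ h.choose_spec
    have h1 : M (fun r => e (t r)) = M (fun r => e (h.choose r)) := by
      have h2 : (fun r => e (t r)) = (fun r => e (h.choose r)) ∘ π := by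
        funext r
        exact congrArg e (congrFun hπ r).symm
      rw [h2]
      exact hsym π _
    simp only [ha]
    rw [dif_pos h, h1]
  have hH : ∀ k β, ∑ j, ∑ i, nsA L i k j * a (β + Finsupp.single i 1) j = 0 := by
    intro k β
    by_cases hs : ∃ s : Fin n → Fin d, cnt s = β
    · obtain ⟨s, rfl⟩ := hs
      have h1 : ∀ i, a (cnt s + Finsupp.single i 1) = fun j =>
          ((⟪b j, M.curryRight (fun r => e (s r)) (e i)⟫_ℝ : ℝ) : ℂ) := by
        intro i
        funext j
        rw [← cnt_snoc, hat]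
        have h2 : (fun r => e ((Fin.snoc s i : Fin (n + 1) → Fin d) r)) =
            (Fin.snoc (fun r => e (s r)) (e i) : Fin (n + 1) → Sp d) := by
          funext r
          refine Fin.lastCases ?_ (fun r => ?_) r
          · simp
          · simp
        rw [h2]
        rfl
      simp_rw [h1]
      rw [Finset.sum_comm]
      have h2 : ∑ i, ∑ j, nsA L i k j *
          ((⟪b j, M.curryRight (fun r => e (s r)) (e i)⟫_ℝ : ℝ) : ℂ) =
          ((⟪stdOrthonormalBasis ℝ E k, L (M.curryRight (fun r => e (s r)))⟫_ℝ : ℝ) : ℂ) := by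
        conv_rhs => rw [clm_expand (M.curryRight (fun r => e (s r)))]
        rw [map_sum, inner_sum, Complex.ofReal_sum]
        refine Finset.sum_congr rfl fun i _ => ?_
        rw [nsA_coord, Complex.ofReal_sum, Finset.sum_eq_single i]
        · rw [Complex.ofReal_sum]
          refine Finset.sum_congr rfl fun j _ => ?_
          simp [nsA, he, hb, mul_comm]
        · intro i' _ hi'
          simp [hi']
        · intro h; exact absurd (Finset.mem_univ i) h
      rw [h2, hM, inner_zero_right]; rfl
    · refine Finset.sum_eq_zero fun j _ => Finset.sum_eq_zero fun i _ => ?_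
      have h1 : ¬ ∃ t : Fin (n + 1) → Fin d, cnt t = β + Finsupp.single i 1 := by
        rintro ⟨t, ht⟩
        have h2 := congrArg Finsupp.degree ht
        rw [cnt_degree, map_add, Finsupp.degree_single] at h2
        exact hs (exists_tuple β n (by omega))
      simp only [ha]
      rw [dif_neg h1, mul_zero]
  have hzero : ∀ t : Fin (n + 1) → Fin d, M (fun r => e (t r)) = 0 := by
    intro t
    have h1 : ∀ j, ⟪b j, M (fun r => e (t r))⟫_ℝ = 0 := by
      intro j
      have h2 := hm0 a hH (cnt t) (by rw [cnt_degree]; omega) j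
      rw [hat] at h2
      exact_mod_cast h2
    rw [← b.sum_repr' (M (fun r => e (t r)))]
    simp [h1]
  have hM0 : M.toMultilinearMap = 0 := by
    refine Module.Basis.ext_multilinear (fun _ => (EuclideanSpace.basisFun (Fin d) ℝ).toBasis) ?_
    intro t
    have h1 := hzero t
    simpa [he] using h1
  ext v
  exact congrArg (fun N : MultilinearMap ℝ (fun _ : Fin (n + 1) => Sp d) V => N v) hM0

theorem stmtNS : StmtNS := by
  intro d V E _ _ _ _ _ _ L hL
  obtain ⟨m0, hm0⟩ := ns_inj L hL
  set n : ℕ := m0 + 1 with hn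
  -- the space of symmetric maps
  set Sy : Submodule ℝ (ContinuousMultilinearMap ℝ (fun _ : Fin (n + 1) => Sp d) V) :=
    { carrier := {M | ∀ (π : Equiv.Perm (Fin (n + 1))) (v : Fin (n + 1) → Sp d),
        M (v ∘ π) = M v}
      add_mem' := by
        intro M M' h h' π v
        simp only [ContinuousMultilinearMap.add_apply]
        rw [h, h']
      zero_mem' := by intro π v; rfl
      smul_mem' := by
        intro c M h π v
        simp only [ContinuousMultilinearMap.smul_apply]
        rw [h] } with hSy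
  set F : Sy →ₗ[ℝ] ContinuousMultilinearMap ℝ (fun _ : Fin n => Sp d) E :=
    { toFun := fun M => L.compContinuousMultilinearMap M.1.curryRight
      map_add' := by
        intro M M'
        ext y
        simp only [ContinuousLinearMap.compContinuousMultilinearMap_coe, Function.comp_apply,
          ContinuousMultilinearMap.add_apply]
        rw [← map_add]
        congr 1
      map_smul' := by
        intro c M
        ext y
        simp only [ContinuousLinearMap.compContinuousMultilinearMap_coe, Function.comp_apply,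
          ContinuousMultilinearMap.smul_apply, RingHom.id_apply]
        rw [← map_smul]
        congr 1 } with hF
  have hker : LinearMap.ker F = ⊥ := by
    rw [LinearMap.ker_eq_bot']
    intro M hM
    refine Subtype.ext (hm0 n (by omega) M.1 M.2 fun y => ?_)
    exact congrArg (fun N : ContinuousMultilinearMap ℝ (fun _ : Fin n => Sp d) E => N y) hM
  obtain ⟨g, hg⟩ := LinearMap.exists_leftInverse_of_injective F hker
  have hfin : FiniteDimensional ℝ (ContinuousMultilinearMap ℝ (fun _ : Fin n => Sp d) E) := by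
    let J : (ContinuousMultilinearMap ℝ (fun _ : Fin n => Sp d) E) →ₗ[ℝ]
        (MultilinearMap ℝ (fun _ : Fin n => Sp d) E) :=
      { toFun := fun M => M.toMultilinearMap
        map_add' := fun _ _ => rfl
        map_smul' := fun _ _ => rfl }
    exact FiniteDimensional.of_injective J ContinuousMultilinearMap.toMultilinearMap_injective
  refine ⟨n, LinearMap.toContinuousLinearMap (Sy.subtype ∘ₗ g), by omega, ?_⟩
  intro u hu z
  have hmem : iteratedFDeriv ℝ (n + 1) u z ∈ Sy := fun π v => iter_perm hu (n + 1) z π v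
  have hFu : F ⟨iteratedFDeriv ℝ (n + 1) u z, hmem⟩ = iteratedFDeriv ℝ n (fo L u) z := by
    have h1 : iteratedFDeriv ℝ n (fo L u) z =
        L.compContinuousMultilinearMap (iteratedFDeriv ℝ n (fderiv ℝ u) z) := by
      have h2 : ContDiffAt ℝ ∞ (fderiv ℝ u) z :=
        (hu.fderiv_right (m := ∞) (by simp)).contDiffAt
      exact ContinuousLinearMap.iteratedFDeriv_comp_left L h2 (by exact_mod_cast le_top)
    rw [h1]
    ext y
    show L _ = L _
    congr 1
    ext h
    have h3 : iteratedFDeriv ℝ (n + 1) u z (Fin.snoc y h) =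
        iteratedFDeriv ℝ n (fderiv ℝ u) z y h := by
      rw [iteratedFDeriv_succ_apply_right]
      simp
    exact h3
  have hgF := LinearMap.congr_fun hg ⟨iteratedFDeriv ℝ (n + 1) u z, hmem⟩
  show iteratedFDeriv ℝ (n + 1) u z = ((g (iteratedFDeriv ℝ n (fo L u) z)) : _)
  rw [← hFu]
  exact (congrArg Subtype.val hgF).symm

end main

end

end TrI
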