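import Pool.Agent.TR.Stmts
import Pool.Agent.TR.Basic

/-!
# Module PT: the pointwise estimate
-/

set_option linter.unusedSectionVars false

open MeasureTheory Metric Set
open scoped InnerProductSpace ContDiff

namespace TrI
namespace PT

noncomputable section

/-! ### The abstract induction -/

/-- abstract induction on the levels -/
theorem induct {ι : Type*} (J : ℕ) (a E F : ℕ → ℝ) (D : ι → ℕ → ℝ) (C M C3 W : ℝ)
    (hC : 0 ≤ C) (hM : 0 ≤ M) (hC3 : 0 ≤ C3)
    (ha : ∀ j, 0 ≤ a j) (hE : ∀ j, 0 ≤ E j) (hF : ∀ j, 0 ≤ F j)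
    (h0 : ∀ q, 1 ≤ q → ∀ i i', D i q ≤ D i' q + C * (a q + E q))
    (h1 : ∀ i, D i 1 ≤ W)
    (h2 : ∀ q, 2 ≤ q → q ≤ J → ∃ i, (D i q ≤ D i 1 + C * (a q + ∑ j ∈ Finset.Icc 1 q, E j)) ∨
      ∃ p, 1 ≤ p ∧ p < q ∧ D i q ≤ D i p + C * (a p + a q + ∑ j ∈ Finset.Icc p q, E j) ∧
        (a p ≤ a q / 4 ∨ a p ≤ M * ∑ j ∈ Finset.Icc p q, E j ∨
          a p ≤ C3 * ∑ j ∈ Finset.Ico p q, F j)) :
    ∀ q, 1 ≤ q → q ≤ J → ∀ i, D i q ≤ (3 * C) * a q + (4 * C * M + 2 * C) * E q +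
      (C + (4 * C * M + 2 * C) + 4 * C * (M + C3)) * ∑ j ∈ Finset.Ico 1 q, (E j + F j) + W := by
  intro q
  induction q using Nat.strong_induction_on with
  | _ q ih =>
    intro hq hqJ i
    have hCM : 0 ≤ C * M := mul_nonneg hC hM
    have hCC3 : 0 ≤ C * C3 := mul_nonneg hC hC3
    have hIcc : ∀ p, p ≤ q → ∑ j ∈ Finset.Icc p q, E j = ∑ j ∈ Finset.Ico p q, E j + E q := by
      intro p hp
      rw [← Finset.sum_Ico_succ_top hp]
      rfl
    have hEF : ∀ p, ∑ j ∈ Finset.Ico p q, (E j + F j) =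
        ∑ j ∈ Finset.Ico p q, E j + ∑ j ∈ Finset.Ico p q, F j := fun p =>
      Finset.sum_add_distrib
    have hTE : ∀ p, 0 ≤ ∑ j ∈ Finset.Ico p q, E j := fun p => Finset.sum_nonneg fun j _ => hE j
    have hTF : ∀ p, 0 ≤ ∑ j ∈ Finset.Ico p q, F j := fun p => Finset.sum_nonneg fun j _ => hF j
    rcases Nat.lt_or_ge q 2 with hq2 | hq2
    · obtain rfl : q = 1 := by omega
      have h3 := h1 i
      have h4 := mul_nonneg (by linarith : (0 : ℝ) ≤ 3 * C) (ha 1)
      have h5 := mul_nonneg (by linarith : (0 : ℝ) ≤ 4 * C * M + 2 * C) (hE 1)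
      simp only [Finset.Ico_self, Finset.sum_empty, mul_zero]
      linarith
    · obtain ⟨i', h3 | ⟨p, hp1, hpq, h3, h4⟩⟩ := h2 q hq2 hqJ
      · have h5 := h0 q hq i i'
        have h6 := h1 i'
        rw [hIcc 1 hq] at h3
        rw [hEF 1]
        obtain ⟨T, hT⟩ : ∃ T, T = ∑ j ∈ Finset.Ico 1 q, E j := ⟨_, rfl⟩
        obtain ⟨S, hS⟩ : ∃ S, S = ∑ j ∈ Finset.Ico 1 q, F j := ⟨_, rfl⟩
        have hT0 : 0 ≤ T := by rw [hT]; exact hTE 1
        have hS0 : 0 ≤ S := by rw [hS]; exact hTF 1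
        rw [← hT] at h3
        rw [← hT, ← hS]
        have e1 := mul_nonneg hC (ha q)
        have e2 := mul_nonneg hCM (hE q)
        have e3 := mul_nonneg hC hT0
        have e4 := mul_nonneg hC hS0
        have e5 := mul_nonneg hCM hT0
        have e6 := mul_nonneg hCM hS0
        have e7 := mul_nonneg hCC3 hT0
        have e8 := mul_nonneg hCC3 hS0
        nlinarith
      · have h5 := h0 q hq i i'
        have h6 := ih p hpq hp1 (hpq.le.trans hqJ) i'
        rw [hIcc p hpq.le] at h3 h4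
        have hsplit : ∑ j ∈ Finset.Ico 1 q, (E j + F j) = ∑ j ∈ Finset.Ico 1 p, (E j + F j) +
            (∑ j ∈ Finset.Ico p q, E j + ∑ j ∈ Finset.Ico p q, F j) := by
          rw [← hEF p, Finset.sum_Ico_consecutive _ hp1 hpq.le]
        rw [hsplit]
        have hEp : E p ≤ ∑ j ∈ Finset.Ico p q, E j :=
          Finset.single_le_sum (f := E) (fun j _ => hE j) (Finset.mem_Ico.2 ⟨le_rfl, hpq⟩)
        obtain ⟨T, hT⟩ : ∃ T, T = ∑ j ∈ Finset.Ico p q, E j := ⟨_, rfl⟩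
        obtain ⟨S, hS⟩ : ∃ S, S = ∑ j ∈ Finset.Ico p q, F j := ⟨_, rfl⟩
        obtain ⟨R, hR⟩ : ∃ R, R = ∑ j ∈ Finset.Ico 1 p, (E j + F j) := ⟨_, rfl⟩
        have hT0 : 0 ≤ T := by rw [hT]; exact hTE p
        have hS0 : 0 ≤ S := by rw [hS]; exact hTF p
        rw [← hT] at h3 h4 hEp
        rw [← hS] at h4
        rw [← hR] at h6
        rw [← hT, ← hS, ← hR]
        have e1 := mul_nonneg hC (ha q)
        have e1' := mul_nonneg hC (ha p)
        have e2 := mul_nonneg hCM (hE q)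
        have e2' := mul_nonneg hC (hE q)
        have e3 := mul_nonneg hC hT0
        have e4 := mul_nonneg hC hS0
        have e5 := mul_nonneg hCM hT0
        have e6 := mul_nonneg hCM hS0
        have e7 := mul_nonneg hCC3 hT0
        have e8 := mul_nonneg hCC3 hS0
        have e9 := mul_le_mul_of_nonneg_left hEp (by linarith : (0 : ℝ) ≤ 4 * C * M + 2 * C)
        rcases h4 with h4 | h4 | h4
        · have e10 := mul_le_mul_of_nonneg_left h4 hC
          nlinarith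
        · have e10 := mul_le_mul_of_nonneg_left h4 hC
          nlinarith
        · have e10 := mul_le_mul_of_nonneg_left h4 hC
          nlinarith

/-! ### Caps and charts -/

section caps

variable {d : ℕ} {V E : Type} [NormedAddCommGroup V] [InnerProductSpace ℝ V]
  [FiniteDimensional ℝ V] [NormedAddCommGroup E] [InnerProductSpace ℝ E] [FiniteDimensional ℝ E]
  {L : (Sp d →L[ℝ] V) →L[ℝ] E}

lemma cap_lip {y0 : Sp d} {ρ B r l : ℝ} {w : Sp d → V} {τ : Sp d → E} {κ : Sp d → ℝ}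
    (hc : IsCap L y0 ρ B w τ) (hk : IsCut κ y0 r l) (hr : r ≤ ρ) (y y' : Sp d) :
    ‖κ y • w y - κ y' • w y'‖ ≤ B * (l + 1) * ‖y - y'‖ := by
  have hB := hc.B_pos.le
  have hl := hk.l_nonneg
  have hyy := norm_nonneg (y - y')
  have hout : ∀ y y' : Sp d, y ∈ ball y0 ρ → y' ∉ ball y0 ρ →
      ‖κ y • w y - κ y' • w y'‖ ≤ B * (l + 1) * ‖y - y'‖ := by
    intro y y' h1 h2
    have hyy := norm_nonneg (y - y')
    have h3 : κ y' = 0 := hk.supp y' (hr.trans (by
      rw [mem_ball, dist_eq_norm] at h2; exact not_lt.1 h2))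
    have h4 : |κ y| ≤ l * ‖y - y'‖ := by
      have := hk.lip y y'
      rwa [h3, sub_zero] at this
    rw [h3, zero_smul, sub_zero, norm_smul, Real.norm_eq_abs]
    calc |κ y| * ‖w y‖ ≤ (l * ‖y - y'‖) * B :=
          mul_le_mul h4 (hc.w_bd y h1) (norm_nonneg _) (mul_nonneg hl hyy)
      _ ≤ B * (l + 1) * ‖y - y'‖ := by nlinarith [mul_nonneg hB hyy]
  by_cases h1 : y ∈ ball y0 ρ
  · by_cases h2 : y' ∈ ball y0 ρ
    · have h3 : κ y • w y - κ y' • w y' = κ y • (w y - w y') + (κ y - κ y') • w y' := by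
        rw [smul_sub, sub_smul]; abel
      rw [h3]
      refine (norm_add_le _ _).trans ?_
      rw [norm_smul, norm_smul, Real.norm_eq_abs, Real.norm_eq_abs]
      have e1 : |κ y| * ‖w y - w y'‖ ≤ 1 * (B * ‖y - y'‖) :=
        mul_le_mul (hk.bd y) (hc.w_lip y h1 y' h2) (norm_nonneg _) zero_le_one
      have e2 : |κ y - κ y'| * ‖w y'‖ ≤ (l * ‖y - y'‖) * B :=
        mul_le_mul (hk.lip y y') (hc.w_bd y' h2) (norm_nonneg _) (mul_nonneg hl hyy)
      nlinarith
    · exact hout y y' h1 h2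
  · by_cases h2 : y' ∈ ball y0 ρ
    · have := hout y' y h2 h1
      rw [norm_sub_rev, norm_sub_rev y y']
      exact this
    · have h3 : κ y' = 0 := hk.supp y' (hr.trans (by
        rw [mem_ball, dist_eq_norm] at h2; exact not_lt.1 h2))
      have h4 : κ y = 0 := hk.supp y (hr.trans (by
        rw [mem_ball, dist_eq_norm] at h1; exact not_lt.1 h1))
      rw [h3, h4, zero_smul, zero_smul, sub_zero, norm_zero]
      positivity

lemma cap_supp {y0 : Sp d} {ρ B r l : ℝ} {w : Sp d → V} {τ : Sp d → E} {κ : Sp d → ℝ}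
    (hc : IsCap L y0 ρ B w τ) (hk : IsCut κ y0 r l) (hr : r ≤ ρ) (y : Sp d) (hy : 2 ≤ ‖y‖) :
    κ y = 0 := by
  apply hk.supp
  have h1 : ‖y‖ ≤ ‖y - y0‖ + ‖y0‖ := by
    have := norm_add_le (y - y0) y0
    rwa [sub_add_cancel] at this
  have := hc.inside
  linarith

lemma mem_ball_of_ne {y0 : Sp d} {ρ r l : ℝ} {κ : Sp d → ℝ} (hk : IsCut κ y0 r l) (hr : r ≤ ρ)
    {y : Sp d} (hy : κ y ≠ 0) : y ∈ ball y0 ρ := by
  rw [mem_ball, dist_eq_norm]
  by_contra h
  exact hy (hk.supp y (hr.trans (not_lt.1 h)))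

lemma cap_cont {y0 : Sp d} {ρ B r l : ℝ} {w : Sp d → V} {τ : Sp d → E} {κ : Sp d → ℝ}
    (hc : IsCap L y0 ρ B w τ) (hk : IsCut κ y0 r l) (hr : r ≤ ρ) :
    Continuous (fun y => κ y • w y) := by
  have h0 : 0 ≤ B * (l + 1) := mul_nonneg hc.B_pos.le (by linarith [hk.l_nonneg])
  have : LipschitzWith ⟨B * (l + 1), h0⟩ (fun y => κ y • w y) :=
    LipschitzWith.of_dist_le_mul fun y y' => by
      rw [dist_eq_norm, dist_eq_norm]
      exact cap_lip hc hk hr y y'
  exact this.continuous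

/-- on a cap the slice of a null field is constant -/
lemma cap_null {y0 : Sp d} {ρ B : ℝ} {w : Sp d → V} {τ : Sp d → E}
    (hc : IsCap L y0 ρ B w τ) {p : Sp d → V} (hp : Null L p) {y : Sp d} (hy : y ∈ ball y0 ρ) :
    ⟪w y, p y⟫_ℝ = ⟪w y, p 0⟫_ℝ := by
  have hdiff : Differentiable ℝ p := hp.1.differentiable (by simp)
  have h1 : ∀ t : ℝ, HasDerivAt (fun t : ℝ => ⟪w y, p (t • y)⟫_ℝ) 0 t := by
    intro t
    have h2 : HasDerivAt (fun t : ℝ => t • y) y t := by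
      simpa using (hasDerivAt_id t).smul_const y
    have h3 : HasDerivAt (fun t : ℝ => p (t • y)) (fderiv ℝ p (t • y) y) t :=
      (hdiff (t • y)).hasFDerivAt.comp_hasDerivAt t h2
    have h4 : HasDerivAt (fun t : ℝ => ⟪w y, p (t • y)⟫_ℝ) (⟪w y, fderiv ℝ p (t • y) y⟫_ℝ) t := by
      have := (hasDerivAt_const t (w y)).inner ℝ h3
      simpa using this
    rwa [hc.slice y hy, hp.2, inner_zero_left] at h4
  have h2 := is_const_of_deriv_eq_zero (f := fun t : ℝ => ⟪w y, p (t • y)⟫_ℝ)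
    (fun t => (h1 t).differentiableAt) (fun t => (h1 t).deriv) 1 0
  simpa using h2

/-- integrability of slices -/
lemma cap_integrable {y0 : Sp d} {ρ B r l : ℝ} {w : Sp d → V} {τ : Sp d → E} {κ : Sp d → ℝ}
    (hc : IsCap L y0 ρ B w τ) (hk : IsCut κ y0 r l) (hr : r ≤ ρ) {g : Sp d → V}
    (hg : Continuous g) : Integrable (fun y => κ y * ⟪w y, g y⟫_ℝ) := by
  have h1 : (fun y => κ y * ⟪w y, g y⟫_ℝ) = fun y => ⟪κ y • w y, g y⟫_ℝ := by
    funext y; rw [real_inner_smul_left]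
  rw [h1]
  refine Continuous.integrable_of_hasCompactSupport ((cap_cont hc hk hr).inner hg) ?_
  refine HasCompactSupport.intro (isCompact_closedBall (0 : Sp d) 2) fun y hy => ?_
  have : κ y = 0 := cap_supp hc hk hr y (by
    rw [mem_closedBall, dist_zero_right] at hy
    exact (not_le.1 hy).le)
  rw [this, zero_smul, inner_zero_left]

variable {c : E} {ε : ℝ}

lemma quarter_le {y0 : Sp d} {ρ B : ℝ} {w : Sp d → V} {τ : Sp d → E}
    (hc : IsCap L y0 ρ B w τ) : ρ / 4 ≤ ρ := by linarith [hc.ρ_pos]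

/-- value of a chart on a continuous function -/
def val (K : Chart L c ε) (g : Sp d → V) : V :=
  ∑ a, (∫ y, K.κ a y * ⟪K.w a y, g y⟫_ℝ) • K.q a

lemma UC_eq (K : Chart L c ε) (u : Sp d → V) (x : Sp d) (t : ℝ) :
    K.UC u x t = val K (fun y => u (x + t • y)) := rfl

lemma val_null (K : Chart L c ε) {p : Sp d → V} (hp : Null L p) : val K p = p 0 := by
  unfold val
  have h1 : ∀ a, (∫ y, K.κ a y * ⟪K.w a y, p y⟫_ℝ) = ∫ y, K.κ a y * ⟪K.w a y, p 0⟫_ℝ := by
    intro a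
    congr 1
    funext y
    by_cases hy : K.κ a y = 0
    · rw [hy, zero_mul, zero_mul]
    · rw [cap_null (K.cap a) hp (mem_ball_of_ne (K.cut a) (quarter_le (K.cap a)) hy)]
  simp only [h1]
  exact K.dual (p 0)

/-- the kernel representing the component of the chart value in the direction v -/
def ker (K : Chart L c ε) (v : V) (y : Sp d) : V :=
  ∑ a, ⟪K.q a, v⟫_ℝ • (K.κ a y • K.w a y)

lemma ker_inner (K : Chart L c ε) (v : V) {g : Sp d → V} (hg : Continuous g) :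
    ∫ y, ⟪ker K v y, g y⟫_ℝ = ⟪val K g, v⟫_ℝ := by
  unfold ker val
  have h1 : ∀ y, ⟪∑ a, ⟪K.q a, v⟫_ℝ • (K.κ a y • K.w a y), g y⟫_ℝ =
      ∑ a, ⟪K.q a, v⟫_ℝ * (K.κ a y * ⟪K.w a y, g y⟫_ℝ) := by
    intro y
    rw [sum_inner]
    refine Finset.sum_congr rfl fun a _ => ?_
    rw [real_inner_smul_left, real_inner_smul_left]
  simp only [h1]
  rw [integral_finsetSum _ fun a _ =>
    (cap_integrable (K.cap a) (K.cut a) (quarter_le (K.cap a)) hg).const_mul _, sum_inner]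
  refine Finset.sum_congr rfl fun a _ => ?_
  rw [integral_const_mul, real_inner_smul_left, mul_comm]

/-- Lipschitz constant of the kernels of a chart -/
def lipc (K : Chart L c ε) : ℝ := ∑ a, ‖K.q a‖ * (K.B * (K.l + 1))

lemma l_nonneg (K : Chart L c ε) : 0 ≤ K.l := (K.cut ⟨0, K.N_pos⟩).l_nonneg

lemma B_pos (K : Chart L c ε) : 0 < K.B := (K.cap ⟨0, K.N_pos⟩).B_pos

lemma lipc_nonneg (K : Chart L c ε) : 0 ≤ lipc K :=
  Finset.sum_nonneg fun a _ => mul_nonneg (norm_nonneg _)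
    (mul_nonneg (B_pos K).le (by linarith [l_nonneg K]))

lemma ker_lip (K : Chart L c ε) (v : V) (y y' : Sp d) :
    ‖ker K v y - ker K v y'‖ ≤ lipc K * ‖v‖ * ‖y - y'‖ := by
  unfold ker lipc
  rw [← Finset.sum_sub_distrib, Finset.sum_mul, Finset.sum_mul]
  refine (norm_sum_le _ _).trans (Finset.sum_le_sum fun a _ => ?_)
  rw [← smul_sub, norm_smul, Real.norm_eq_abs]
  have h1 := abs_real_inner_le_norm (K.q a) v
  have h2 := cap_lip (K.cap a) (K.cut a) (quarter_le (K.cap a)) y y'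
  calc |⟪K.q a, v⟫_ℝ| * ‖K.κ a y • K.w a y - K.κ a y' • K.w a y'‖ ≤
      (‖K.q a‖ * ‖v‖) * (K.B * (K.l + 1) * ‖y - y'‖) :=
        mul_le_mul h1 h2 (norm_nonneg _) (by positivity)
    _ = _ := by ring

lemma ker_supp (K : Chart L c ε) (v : V) (y : Sp d) (hy : 2 ≤ ‖y‖) : ker K v y = 0 := by
  unfold ker
  refine Finset.sum_eq_zero fun a _ => ?_
  rw [cap_supp (K.cap a) (K.cut a) (quarter_le (K.cap a)) y hy, zero_smul, smul_zero]

lemma ker_cont (K : Chart L c ε) (v : V) : Continuous (ker K v) := by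
  unfold ker
  exact continuous_finsetSum _ fun a _ =>
    (cap_cont (K.cap a) (K.cut a) (quarter_le (K.cap a))).const_smul _

lemma ker_integrable (K : Chart L c ε) (v : V) {g : Sp d → V} (hg : Continuous g) :
    Integrable (fun y => ⟪ker K v y, g y⟫_ℝ) := by
  refine Continuous.integrable_of_hasCompactSupport ((ker_cont K v).inner hg) ?_
  refine HasCompactSupport.intro (isCompact_closedBall (0 : Sp d) 2) fun y hy => ?_
  rw [ker_supp K v y (by
    rw [mem_closedBall, dist_zero_right] at hy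
    exact (not_le.1 hy).le), inner_zero_left]

/-- change of chart at one level -/
lemma change {c' : E} {CK : ℝ} (hK : KProp L CK) (K : Chart L c ε) (K' : Chart L c' ε)
    {u : Sp d → V} (hu : TF u) {s0 : ℝ} (hs : 0 < s0) {j : ℕ} (hj : 1 ≤ j) (x : Sp d)
    (hae : 0 ≤ am s0 (fo L u) j x + er s0 (fo L u) j x) :
    ‖K.UC u x (sc s0 j) - K'.UC u x (sc s0 j)‖ ≤
      |CK| * (lipc K + lipc K') * (am s0 (fo L u) j x + er s0 (fo L u) j x) := by
  have hcu : Continuous (fun y => u (x + sc s0 j • y)) :=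
    hu.smooth.continuous.comp (by fun_prop)
  obtain ⟨v, hv⟩ : ∃ v, v = K.UC u x (sc s0 j) - K'.UC u x (sc s0 j) := ⟨_, rfl⟩
  obtain ⟨Q, hQ⟩ : ∃ Q, Q = am s0 (fo L u) j x + er s0 (fo L u) j x := ⟨_, rfl⟩
  rw [← hQ] at hae
  have h1 : |∫ y, ⟪ker K v y - ker K' v y, u (x + sc s0 j • y)⟫_ℝ| ≤
      CK * ((lipc K + lipc K') * ‖v‖) * (am s0 (fo L u) j x + er s0 (fo L u) j x) := by
    refine hK u hu s0 hs j hj x (fun y => ker K v y - ker K' v y) ((lipc K + lipc K') * ‖v‖)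
      (mul_nonneg (add_nonneg (lipc_nonneg K) (lipc_nonneg K')) (norm_nonneg _)) ?_ ?_ ?_
    · intro y y'
      have e1 := ker_lip K v y y'
      have e2 := ker_lip K' v y y'
      calc ‖ker K v y - ker K' v y - (ker K v y' - ker K' v y')‖ =
          ‖(ker K v y - ker K v y') - (ker K' v y - ker K' v y')‖ := by congr 1; abel
        _ ≤ _ := norm_sub_le _ _
        _ ≤ lipc K * ‖v‖ * ‖y - y'‖ + lipc K' * ‖v‖ * ‖y - y'‖ := add_le_add e1 e2
        _ = _ := by ring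
    · intro y hy
      rw [ker_supp K v y hy, ker_supp K' v y hy, sub_zero]
    · intro p hp
      simp only [inner_sub_left]
      rw [integral_sub (ker_integrable K v hp.1.continuous) (ker_integrable K' v hp.1.continuous),
        ker_inner K v hp.1.continuous, ker_inner K' v hp.1.continuous, val_null K hp,
        val_null K' hp, sub_self]
  have h2 : ∫ y, ⟪ker K v y - ker K' v y, u (x + sc s0 j • y)⟫_ℝ = ‖v‖ ^ 2 := by
    simp only [inner_sub_left]
    rw [integral_sub (ker_integrable K v hcu) (ker_integrable K' v hcu),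
      ker_inner K v hcu, ker_inner K' v hcu, ← inner_sub_left, ← UC_eq, ← UC_eq, ← hv,
      real_inner_self_eq_norm_sq]
  rw [h2, abs_of_nonneg (by positivity), ← hQ] at h1
  rw [← hv, ← hQ]
  have hlip := add_nonneg (lipc_nonneg K) (lipc_nonneg K')
  rcases (norm_nonneg v).eq_or_lt with h3 | h3
  · rw [← h3]
    exact mul_nonneg (mul_nonneg (abs_nonneg _) hlip) hae
  · have h4 : ‖v‖ * ‖v‖ ≤ (|CK| * (lipc K + lipc K') * Q) * ‖v‖ := by
      have h5 : CK * ((lipc K + lipc K') * ‖v‖) * Q ≤ |CK| * ((lipc K + lipc K') * ‖v‖) * Q := by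
        refine mul_le_mul_of_nonneg_right (mul_le_mul_of_nonneg_right (le_abs_self _) ?_) hae
        exact mul_nonneg hlip h3.le
      nlinarith
    exact le_of_mul_le_mul_right h4 h3

/-- the constant of the first level -/
def c1 (K : Chart L c ε) : ℝ :=
  ∑ a, ‖K.q a‖ * (16 * K.B * (volume (closedBall (0 : Sp d) 2)).toReal)

lemma c1_nonneg (K : Chart L c ε) : 0 ≤ c1 K :=
  Finset.sum_nonneg fun a _ => mul_nonneg (norm_nonneg _)
    (mul_nonneg (by linarith [B_pos K]) ENNReal.toReal_nonneg)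

lemma first (K : Chart L c ε) {u : Sp d → V} (hu : TF u) {s0 : ℝ} (hs : 0 < s0) {Lu : ℝ}
    (hLu0 : 0 ≤ Lu) (hLu : ∀ y y', ‖u y - u y'‖ ≤ Lu * ‖y - y'‖) (x : Sp d) :
    ‖K.UC u x (sc s0 1) - u x‖ ≤ c1 K * s0 * Lu := by
  have hsc : sc s0 1 = 8 * s0 := by unfold sc; ring
  have hcu : Continuous (fun y => u (x + sc s0 1 • y)) :=
    hu.smooth.continuous.comp (by fun_prop)
  rw [UC_eq]
  nth_rewrite 1 [← K.dual (u x)]
  unfold val c1
  rw [← Finset.sum_sub_distrib, Finset.sum_mul, Finset.sum_mul]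
  refine (norm_sum_le _ _).trans (Finset.sum_le_sum fun a _ => ?_)
  rw [← sub_smul, norm_smul, mul_comm, Real.norm_eq_abs,
    ← integral_sub (cap_integrable (K.cap a) (K.cut a) (quarter_le (K.cap a)) hcu)
      (cap_integrable (K.cap a) (K.cut a) (quarter_le (K.cap a)) continuous_const)]
  have h1 : |∫ y, (K.κ a y * ⟪K.w a y, u (x + sc s0 1 • y)⟫_ℝ - K.κ a y * ⟪K.w a y, u x⟫_ℝ)| ≤
      (16 * K.B * s0 * Lu) * (volume (closedBall (0 : Sp d) 2)).toReal := by
    rw [← setIntegral_eq_integral_of_forall_compl_eq_zero (s := closedBall (0 : Sp d) 2)]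
    · rw [← Real.norm_eq_abs]
      refine norm_setIntegral_le_of_norm_le_const (measure_closedBall_lt_top) ?_
      intro y hy
      rw [mem_closedBall, dist_zero_right] at hy
      rw [← mul_sub, ← inner_sub_right, Real.norm_eq_abs, abs_mul]
      by_cases hκ : K.κ a y = 0
      · rw [hκ, abs_zero, zero_mul]
        have := (B_pos K).le
        positivity
      have hyb := mem_ball_of_ne (K.cut a) (quarter_le (K.cap a)) hκ
      have e1 := (K.cut a).bd y
      have e2 := (K.cap a).w_bd y hyb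
      have e3 := abs_real_inner_le_norm (K.w a y) (u (x + sc s0 1 • y) - u x)
      have e4 : ‖u (x + sc s0 1 • y) - u x‖ ≤ Lu * (16 * s0) := by
        refine (hLu _ _).trans (mul_le_mul_of_nonneg_left ?_ hLu0)
        rw [add_sub_cancel_left, norm_smul, Real.norm_eq_abs, hsc,
          abs_of_pos (by linarith : 0 < 8 * s0)]
        nlinarith
      calc |K.κ a y| * |⟪K.w a y, u (x + sc s0 1 • y) - u x⟫_ℝ| ≤
          1 * (K.B * (Lu * (16 * s0))) :=
            mul_le_mul e1 (e3.trans (mul_le_mul e2 e4 (norm_nonneg _) (B_pos K).le))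
              (abs_nonneg _) zero_le_one
        _ = _ := by ring
    · intro y hy
      rw [mem_closedBall, dist_zero_right, not_le] at hy
      rw [cap_supp (K.cap a) (K.cut a) (quarter_le (K.cap a)) y hy.le, zero_mul, zero_mul,
        sub_self]
  calc ‖K.q a‖ * |∫ y, (K.κ a y * ⟪K.w a y, u (x + sc s0 1 • y)⟫_ℝ - K.κ a y * ⟪K.w a y, u x⟫_ℝ)|
      ≤ ‖K.q a‖ * ((16 * K.B * s0 * Lu) * (volume (closedBall (0 : Sp d) 2)).toReal) :=
        mul_le_mul_of_nonneg_left h1 (norm_nonneg _)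
    _ = _ := by ring

/-! ### The chart along an interval of valid levels -/

/-- the direction at level n is compatible with the label c -/
def ValC (s0 : ℝ) (f : Sp d → E) (c : E) (ε : ℝ) (n : ℕ) (x : Sp d) : Prop :=
  ∃ e : E, ‖e‖ = 1 ∧ fl s0 f n x = ‖fl s0 f n x‖ • e ∧ ‖e - c‖ ≤ 10 * ε

lemma ValC.val {K : Chart L c ε} {s0 : ℝ} {f : Sp d → E} {n : ℕ} {x : Sp d}
    (h : ValC s0 f c ε n x) (a : Fin K.N) : Val s0 f (K.y0 a) (K.ρ a) (K.τ a) K.c0 n x := by
  obtain ⟨e, he, hfl, hec⟩ := h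
  exact ⟨e, he, hfl, K.pos a e he hec⟩

/-- total variation and growth of a chart -/
lemma chart_tv (hTV : StmtTV) (hA0 : StmtA0) {CK : ℝ} (hK : KProp L CK) (K : Chart L c ε) :
    ∃ C : ℝ, 1 ≤ C ∧ ∀ u : Sp d → V, TF u → ∀ s0 : ℝ, 0 < s0 → ∀ (x : Sp d) (j1 j2 : ℕ),
      1 ≤ j1 → j1 ≤ j2 → (∀ j ∈ Finset.Ico j1 j2, ValC s0 (fo L u) c ε (j + 4) x) →
      ‖K.UC u x (sc s0 j2) - K.UC u x (sc s0 j1)‖ ≤ C * (|am s0 (fo L u) j1 x +
        am s0 (fo L u) j2 x + ∑ j ∈ Finset.Icc j1 j2, er s0 (fo L u) j x|) ∧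
      am s0 (fo L u) j1 x ≤ C * |am s0 (fo L u) j2 x +
        ∑ j ∈ Finset.Icc j1 j2, er s0 (fo L u) j x| := by
  choose CT hCT0 hCT using fun a => hTV d V E L CK hK (K.y0 a) (K.ρ a) K.B K.c0 (K.w a) (K.τ a)
    (K.cap a) K.c0_pos (K.κ a) K.l (K.cut a)
  obtain ⟨CA, hCA0, hCA⟩ := hA0 d V E L CK hK (K.y0 ⟨0, K.N_pos⟩) (K.ρ ⟨0, K.N_pos⟩) K.B K.c0
    (K.w ⟨0, K.N_pos⟩) (K.τ ⟨0, K.N_pos⟩) (K.cap ⟨0, K.N_pos⟩) K.c0_pos
  have hsum0 : 0 ≤ ∑ a, CT a * ‖K.q a‖ :=
    Finset.sum_nonneg fun a _ => mul_nonneg (hCT0 a) (norm_nonneg _)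
  refine ⟨1 + CA + ∑ a, CT a * ‖K.q a‖, by linarith, ?_⟩
  intro u hu s0 hs x j1 j2 h1 h2 hval
  constructor
  · obtain ⟨Q, hQ⟩ : ∃ Q, Q = am s0 (fo L u) j1 x + am s0 (fo L u) j2 x +
      ∑ j ∈ Finset.Icc j1 j2, er s0 (fo L u) j x := ⟨_, rfl⟩
    rw [← hQ]
    have h3 : ‖K.UC u x (sc s0 j2) - K.UC u x (sc s0 j1)‖ ≤
        (∑ a, CT a * ‖K.q a‖) * |Q| := by
      unfold Chart.UC
      rw [← Finset.sum_sub_distrib, Finset.sum_mul]
      refine (norm_sum_le _ _).trans (Finset.sum_le_sum fun a _ => ?_)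
      rw [← sub_smul, norm_smul, Real.norm_eq_abs]
      have h4 := hCT a u hu s0 hs x j1 j2 h1 h2 (fun j hj => (hval j hj).val a)
      rw [← hQ] at h4
      have h5 : CT a * Q ≤ CT a * |Q| := mul_le_mul_of_nonneg_left (le_abs_self Q) (hCT0 a)
      calc _ ≤ (CT a * |Q|) * ‖K.q a‖ :=
            mul_le_mul_of_nonneg_right (h4.trans h5) (norm_nonneg _)
        _ = _ := by ring
    have h6 : 0 ≤ (1 + CA) * |Q| := mul_nonneg (by linarith) (abs_nonneg _)
    nlinarith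
  · obtain ⟨Q, hQ⟩ : ∃ Q, Q = am s0 (fo L u) j2 x +
      ∑ j ∈ Finset.Icc j1 j2, er s0 (fo L u) j x := ⟨_, rfl⟩
    rw [← hQ]
    have h4 := hCA u hu s0 hs x j1 j2 h1 h2 (fun j hj => (hval j hj).val _)
    rw [← hQ] at h4
    have h5 : CA * Q ≤ CA * |Q| := mul_le_mul_of_nonneg_left (le_abs_self Q) hCA0
    have h6 : 0 ≤ (1 + ∑ a, CT a * ‖K.q a‖) * |Q| := mul_nonneg (by linarith) (abs_nonneg _)
    nlinarith

end caps

/-! ### Stable levels -/

section stable

variable {d : ℕ} {E : Type} [NormedAddCommGroup E] [InnerProductSpace ℝ E]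
  [FiniteDimensional ℝ E]

/-- lower bound of the field in a stable level -/
lemma low4 {f : Sp d → E} {s0 CD : ℝ} (hD : DevFacts CD s0 f) {CA M α : ℝ}
    (hCA : 1 ≤ CA) (hM : 4 * CA * CD ≤ M) {l : ℕ} {x z : Sp d}
    (hz : ‖z - x‖ ≤ sc s0 (l + 2) / 4) (ha : α ≤ 2 * CA * am s0 f l x)
    (hE : M * er s0 f l x ≤ α) : α ≤ 4 * CA * CD * (sc s0 l * ‖fl s0 f (l + 3) z‖) := by
  have h1 := hD.low l x z hz
  have h2 := hD.er_nonneg l x
  have h3 : 4 * CA * CD * er s0 f l x ≤ α := (mul_le_mul_of_nonneg_right hM h2).trans hE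
  have h4 := mul_le_mul_of_nonneg_left h1 (by linarith : 0 ≤ 2 * CA)
  nlinarith

/-- the direction hardly changes from one level to the next -/
lemma near4 {f : Sp d → E} {s0 CD : ℝ} (hs : 0 < s0) (hD : DevFacts CD s0 f) {CA M α ε : ℝ}
    (hCA : 1 ≤ CA) (hCD : 1 ≤ CD) (hM : 4 * CA * CD ≤ M) (hε : 0 < ε)
    (hM' : 128 * CA * CD ^ 2 ≤ M * ε ^ 2) {l : ℕ} {x z : Sp d}
    (hz : ‖z - x‖ ≤ sc s0 (l + 2) / 4) (ha : α ≤ 2 * CA * am s0 f l x)
    (hE : M * er s0 f l x ≤ α) {e : E} (he : ‖e‖ = 1)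
    (hfl : fl s0 f (l + 4) x = ‖fl s0 f (l + 4) x‖ • e) : Near s0 f (ε / 4) (l + 3) z e := by
  have h1 := low4 hD hCA hM hz ha hE
  have h2 := hD.dir l x z e he hfl hz
  have hsl := sc_pos hs l
  unfold Near
  obtain ⟨v, hv⟩ : ∃ v, v = fl s0 f (l + 3) z := ⟨_, rfl⟩
  rw [← hv] at h1 h2 ⊢
  have hin : ⟪v, e⟫_ℝ ≤ ‖v‖ := by
    have := real_inner_le_norm v e
    rwa [he, mul_one] at this
  have h3 : ‖v - ‖v‖ • e‖ ^ 2 = 2 * ‖v‖ * (‖v‖ - ⟪v, e⟫_ℝ) := by
    rw [norm_sub_sq_real, real_inner_smul_right, norm_smul, he, Real.norm_eq_abs,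
      abs_of_nonneg (norm_nonneg v)]
    ring
  have hM0 : 0 < M := by nlinarith [mul_pos (by linarith : 0 < CA) (by linarith : 0 < CD)]
  have h4 : M * (‖v‖ - ⟪v, e⟫_ℝ) ≤ 4 * CA * CD ^ 2 * ‖v‖ := by
    have h5 : sc s0 l * (M * (‖v‖ - ⟪v, e⟫_ℝ)) ≤ sc s0 l * (4 * CA * CD ^ 2 * ‖v‖) := by
      calc sc s0 l * (M * (‖v‖ - ⟪v, e⟫_ℝ)) = M * (sc s0 l * (‖v‖ - ⟪v, e⟫_ℝ)) := by ring
        _ ≤ M * (CD * er s0 f l x) := mul_le_mul_of_nonneg_left h2 hM0.le
        _ = CD * (M * er s0 f l x) := by ring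
        _ ≤ CD * α := mul_le_mul_of_nonneg_left hE (by linarith)
        _ ≤ CD * (4 * CA * CD * (sc s0 l * ‖v‖)) := mul_le_mul_of_nonneg_left h1 (by linarith)
        _ = _ := by ring
    exact le_of_mul_le_mul_left h5 hsl
  have h6 : 32 * (‖v‖ - ⟪v, e⟫_ℝ) ≤ ε ^ 2 * ‖v‖ := by
    have hpos : 0 < 4 * CA * CD ^ 2 := by
      have : 0 < CA := by linarith
      have : 0 < CD := by linarith
      positivity
    have h7 : (4 * CA * CD ^ 2) * (32 * (‖v‖ - ⟪v, e⟫_ℝ)) ≤ (4 * CA * CD ^ 2) * (ε ^ 2 * ‖v‖) := by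
      calc (4 * CA * CD ^ 2) * (32 * (‖v‖ - ⟪v, e⟫_ℝ)) =
          (128 * CA * CD ^ 2) * (‖v‖ - ⟪v, e⟫_ℝ) := by ring
        _ ≤ (M * ε ^ 2) * (‖v‖ - ⟪v, e⟫_ℝ) := mul_le_mul_of_nonneg_right hM' (by linarith)
        _ = ε ^ 2 * (M * (‖v‖ - ⟪v, e⟫_ℝ)) := by ring
        _ ≤ ε ^ 2 * (4 * CA * CD ^ 2 * ‖v‖) := mul_le_mul_of_nonneg_left h4 (by positivity)
        _ = _ := by ring
    exact le_of_mul_le_mul_left h7 hpos
  have h8 : ‖v - ‖v‖ • e‖ ^ 2 ≤ (ε / 4 * ‖v‖) ^ 2 := by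
    rw [h3]
    have := mul_le_mul_of_nonneg_right h6 (norm_nonneg v)
    nlinarith
  exact (sq_le_sq₀ (norm_nonneg _) (by positivity)).1 h8

/-- the unit direction -/
def drc (s0 : ℝ) (f : Sp d → E) (x : Sp d) (n : ℕ) : E := (‖fl s0 f n x‖)⁻¹ • fl s0 f n x

lemma drc_norm {s0 : ℝ} {f : Sp d → E} {x : Sp d} {n : ℕ} (h : fl s0 f n x ≠ 0) :
    ‖drc s0 f x n‖ = 1 := by
  unfold drc
  rw [norm_smul, norm_inv, norm_norm, inv_mul_cancel₀ (norm_ne_zero_iff.2 h)]

lemma drc_smul {s0 : ℝ} {f : Sp d → E} {x : Sp d} {n : ℕ} (h : fl s0 f n x ≠ 0) :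
    fl s0 f n x = ‖fl s0 f n x‖ • drc s0 f x n := by
  unfold drc
  rw [smul_smul, mul_inv_cancel₀ (norm_ne_zero_iff.2 h), one_smul]

lemma drc_eq {s0 : ℝ} {f : Sp d → E} {x : Sp d} {n : ℕ} (h : fl s0 f n x ≠ 0) {e : E}
    (he : fl s0 f n x = ‖fl s0 f n x‖ • e) : drc s0 f x n = e := by
  unfold drc
  nth_rewrite 2 [he]
  rw [smul_smul, inv_mul_cancel₀ (norm_ne_zero_iff.2 h), one_smul]

lemma drc_near {s0 : ℝ} {f : Sp d → E} {x : Sp d} {n : ℕ} {ε : ℝ} {p : E}
    (h : fl s0 f n x ≠ 0) (hN : Near s0 f ε n x p) : ‖drc s0 f x n - p‖ ≤ ε := by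
  unfold Near at hN
  have hpos : 0 < ‖fl s0 f n x‖ := norm_pos_iff.2 h
  have h1 : fl s0 f n x - ‖fl s0 f n x‖ • p = ‖fl s0 f n x‖ • (drc s0 f x n - p) := by
    rw [smul_sub, ← drc_smul h]
  rw [h1, norm_smul, norm_norm, mul_comm] at hN
  exact le_of_mul_le_mul_right hN hpos

/-- the gate is open in stable levels -/
lemma gate {f : Sp d → E} (hf : Continuous f) {s0 CD : ℝ} (hs : 0 < s0)
    (hD : DevFacts CD s0 f) {CA M α δ : ℝ} (hCA : 1 ≤ CA) (hCD : 1 ≤ CD)
    (hM : 4 * CA * CD ≤ M) (hδ : 0 < δ) (hδ' : δ * (8 ^ d * (5 * CA + 2 * CD) * (CA * CD)) ≤ 1)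
    {l : ℕ} {x z : Sp d}
    (hz : ‖z - x‖ ≤ sc s0 (l + 2) / 4) (hα : 0 < α) (ha : α ≤ 2 * CA * am s0 f l x)
    (hE : M * er s0 f l x ≤ α) (ha' : am s0 f (l + 4) x ≤ 5 * CA * α)
    (hE' : M * er s0 f (l + 4) x ≤ α) : Gated s0 f δ (l + 3) z := by
  have hCA0 : 0 < CA := by linarith
  have hCD0 : 0 < CD := by linarith
  have h1 := low4 hD hCA hM hz ha hE
  have hsl := sc_pos hs l
  have hs3 := sc_pos hs (l + 3)
  have hs4 := sc_pos hs (l + 4)
  have e4 : sc s0 (l + 4) = 8 * sc s0 (l + 3) := sc_succ s0 (l + 3)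
  have e3 : sc s0 (l + 3) = 8 * sc s0 (l + 2) := sc_succ s0 (l + 2)
  have e34 : sc s0 (l + 4) = 4096 * sc s0 l := by
    rw [sc_add]; norm_num
  refine ⟨?_, ?_⟩
  · intro h0
    rw [h0, norm_zero, mul_zero, mul_zero] at h1
    linarith
  -- upper bound of the mass
  have hint : ∀ (q : Sp d) (r : ℝ), IntegrableOn (fun z' => ‖fl s0 f (l + 3) z'‖) (ball q r) :=
    fun q r => (LB.of_cont (fl_cont hf s0 (l + 3)).norm).integrableOn isBounded_ball
  have hint4 : ∀ (q : Sp d) (r : ℝ), IntegrableOn (fun z' => ‖fl s0 f (l + 4) z'‖) (ball q r) :=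
    fun q r => (LB.of_cont (fl_cont hf s0 (l + 4)).norm).integrableOn isBounded_ball
  have hintg : ∀ (q : Sp d) (r : ℝ), IntegrableOn (fun z' => gap s0 f (l + 3) z') (ball q r) :=
    fun q r => (LB.of_cont (gap_cont hf s0 (l + 3))).integrableOn isBounded_ball
  have h2 : ∫ z' in ball z (40 * sc s0 (l + 3)), ‖fl s0 f (l + 3) z'‖ ≤
      ∫ z' in ball x (41 * sc s0 (l + 3)), ‖fl s0 f (l + 3) z'‖ := by
    refine setIntegral_mono_set (hint _ _) ?_ ?_
    · exact Filter.Eventually.of_forall fun z' => norm_nonneg _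
    · refine (ball_subset_ball' ?_).eventuallyLE
      rw [dist_eq_norm]
      linarith
  have h3 := hD.transfer (l + 3) (l + 4) x (41 * sc s0 (l + 3)) (Nat.le_succ _)
  rw [Finset.sum_Ico_eq_sum_range, show l + 4 - (l + 3) = 1 by omega, Finset.sum_range_one,
    Nat.add_zero] at h3
  have h4 : ∫ z' in ball x (41 * sc s0 (l + 3) + sc s0 (l + 4) / 7), ‖fl s0 f (l + 4) z'‖ ≤
      ∫ z' in ball x (32 * sc s0 (l + 4)), ‖fl s0 f (l + 4) z'‖ := by
    refine setIntegral_mono_set (hint4 _ _) ?_ ?_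
    · exact Filter.Eventually.of_forall fun z' => norm_nonneg _
    · refine (ball_subset_ball ?_).eventuallyLE
      linarith
  have h5 : ∫ z' in ball x (41 * sc s0 (l + 3) + sc s0 (l + 4) / 7), gap s0 f (l + 3) z' ≤
      ∫ z' in ball x (384 * sc s0 (l + 4)), gap s0 f (l + 3) z' := by
    refine setIntegral_mono_set (hintg _ _) ?_ ?_
    · exact Filter.Eventually.of_forall fun z' => gap_nonneg s0 f (l + 3) z'
    · refine (ball_subset_ball ?_).eventuallyLE
      linarith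
  have h6 := hD.gap_le (l + 4) (l + 3) x (by omega)
  rw [show l + 4 - (l + 3) = 1 by omega, pow_one] at h6
  obtain ⟨X, hX⟩ : ∃ X, X = ∫ z' in ball z (40 * sc s0 (l + 3)), ‖fl s0 f (l + 3) z'‖ := ⟨_, rfl⟩
  obtain ⟨Y, hY⟩ : ∃ Y, Y = ∫ z' in ball x (32 * sc s0 (l + 4)), ‖fl s0 f (l + 4) z'‖ := ⟨_, rfl⟩
  obtain ⟨Z, hZ⟩ : ∃ Z, Z = ∫ z' in ball x (384 * sc s0 (l + 4)), gap s0 f (l + 3) z' := ⟨_, rfl⟩
  have h7 : X ≤ Y + Z := by rw [hX, hY, hZ]; linarith
  rw [← hZ] at h6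
  rw [← hX]
  have ham : am s0 f (l + 4) x = sc s0 (l + 4) / (sc s0 (l + 4)) ^ d * Y := by
    rw [hY]; rfl
  obtain ⟨m0, hm0⟩ : ∃ m0, m0 = sc s0 (l + 4) / (sc s0 (l + 4)) ^ d := ⟨_, rfl⟩
  have hm0p : 0 < m0 := by rw [hm0]; positivity
  rw [← hm0] at ham h6
  have hEn := hD.er_nonneg (l + 4) x
  have hM1 : 1 ≤ M := by nlinarith
  have hE1 : er s0 f (l + 4) x ≤ α := by nlinarith
  have h8 : m0 * X ≤ (5 * CA + 2 * CD) * α := by
    have := mul_le_mul_of_nonneg_left h7 hm0p.le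
    nlinarith
  -- compare
  have h9 : δ / (sc s0 (l + 3)) ^ d * X = δ * 8 ^ d / sc s0 (l + 4) * (m0 * X) := by
    rw [hm0, e4, mul_pow]
    field_simp
  rw [h9]
  have h10 : δ * 8 ^ d / sc s0 (l + 4) * (m0 * X) ≤
      δ * 8 ^ d / sc s0 (l + 4) * ((5 * CA + 2 * CD) * α) :=
    mul_le_mul_of_nonneg_left h8 (by positivity)
  refine h10.trans ?_
  have h11 : δ * 8 ^ d / sc s0 (l + 4) * ((5 * CA + 2 * CD) * α) ≤
      δ * 8 ^ d / sc s0 (l + 4) * ((5 * CA + 2 * CD) *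
        (4 * CA * CD * (sc s0 l * ‖fl s0 f (l + 3) z‖))) :=
    mul_le_mul_of_nonneg_left (mul_le_mul_of_nonneg_left h1 (by linarith)) (by positivity)
  refine h11.trans ?_
  rw [e34]
  have h12 : δ * 8 ^ d / (4096 * sc s0 l) * ((5 * CA + 2 * CD) *
        (4 * CA * CD * (sc s0 l * ‖fl s0 f (l + 3) z‖))) =
      (δ * (8 ^ d * (5 * CA + 2 * CD) * (CA * CD))) * (‖fl s0 f (l + 3) z‖ / 1024) := by
    field_simp
    ring
  rw [h12]
  have hn := norm_nonneg (fl s0 f (l + 3) z)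
  have hpos : 0 ≤ δ * (8 ^ d * (5 * CA + 2 * CD) * (CA * CD)) := by positivity
  calc (δ * (8 ^ d * (5 * CA + 2 * CD) * (CA * CD))) * (‖fl s0 f (l + 3) z‖ / 1024) ≤
      1 * (‖fl s0 f (l + 3) z‖ / 1024) := mul_le_mul_of_nonneg_right hδ' (by positivity)
    _ ≤ ‖fl s0 f (l + 3) z‖ := by linarith

/-- the weighted mass of a level with open gates -/
lemma cost_level {f : Sp d → E} (hf : Continuous f) {s0 ε δ c : ℝ} (hs : 0 < s0) (hδ : 0 < δ)
    {J : ℕ} {U : ℕ → Sp d → ℝ} (hU : LabelSys s0 f ε δ c J U) (l : ℕ) (x : Sp d) :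
    δ * am s0 f l x * kav s0 0 l (U l) x ≤
      sc s0 l * kav s0 0 l (fun z => U l z * ‖fl s0 f l z‖) x := by
  have hsl := sc_pos hs l
  have hLU : LB (U l) := LB.of_bdd (M := 1) (hU.meas l).stronglyMeasurable fun z => by
    rw [Real.norm_eq_abs, abs_of_nonneg (hU.nonneg l z)]; exact hU.le_one l z
  have hLf : LB (fun z => ‖fl s0 f l z‖) := LB.of_cont (fl_cont hf s0 l).norm
  have hLUf : LB (fun z => U l z * ‖fl s0 f l z‖) := LB.smul hLU hLf
  have h1 : kav s0 0 l (fun z => (δ * am s0 f l x / sc s0 l) * U l z) x ≤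
      kav s0 0 l (fun z => U l z * ‖fl s0 f l z‖) x := by
    refine kav_mono_local hs (hLU.const_mul _) hLUf 0 l x fun z hz => ?_
    rw [Nat.zero_add] at hz
    rw [mul_comm]
    by_cases hUz : U l z = 0
    · rw [hUz, zero_mul, zero_mul]
    refine mul_le_mul_of_nonneg_left ?_ (hU.nonneg l z)
    obtain ⟨-, hg⟩ := hU.gated l z hUz
    refine le_trans ?_ hg
    have h2 : ∫ z' in ball x (32 * sc s0 l), ‖fl s0 f l z'‖ ≤
        ∫ z' in ball z (40 * sc s0 l), ‖fl s0 f l z'‖ := by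
      refine setIntegral_mono_set (hLf.integrableOn isBounded_ball) ?_ ?_
      · exact Filter.Eventually.of_forall fun z' => norm_nonneg _
      · refine (ball_subset_ball' ?_).eventuallyLE
        rw [dist_eq_norm, norm_sub_rev]
        linarith
    unfold am
    have h3 : δ * (sc s0 l / sc s0 l ^ d * ∫ z in ball x (32 * sc s0 l), ‖fl s0 f l z‖) / sc s0 l =
        δ / sc s0 l ^ d * ∫ z in ball x (32 * sc s0 l), ‖fl s0 f l z‖ := by
      field_simp
    rw [h3]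
    exact mul_le_mul_of_nonneg_left h2 (by positivity)
  rw [kav_mul] at h1
  have h4 := mul_le_mul_of_nonneg_left h1 hsl.le
  refine le_trans (le_of_eq ?_) h4
  field_simp

/-- the third case: many labels are moved -/
lemma case3 {f : Sp d → E} (hf : Continuous f) {s0 CD : ℝ} (hs : 0 < s0)
    (hD : DevFacts CD s0 f) {CA M α δ ε c : ℝ} (hCA : 1 ≤ CA) (hCD : 1 ≤ CD)
    (hM : 4 * CA * CD ≤ M) (hε : 0 < ε) (hM' : 128 * CA * CD ^ 2 ≤ M * ε ^ 2) (hδ : 0 < δ)
    (hδ' : δ * (8 ^ d * (5 * CA + 2 * CD) * (CA * CD)) ≤ 1) (hc : 0 < c) (hα : 0 < α)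
    {J q p : ℕ} (hpq : p < q) (hqJ : q ≤ J) {x : Sp d} {lab : E}
    (hal : ∀ l, p ≤ l → l ≤ q → α ≤ 2 * CA * am s0 f l x)
    (hau : ∀ l, p ≤ l → l ≤ q → am s0 f l x ≤ 5 * CA * α)
    (hE : ∀ l, p ≤ l → l ≤ q → M * er s0 f l x ≤ α)
    (hinv : ¬ ValC s0 f lab ε (p + 3) x) {e : E}
    (hfl : fl s0 f (q + 3) x = ‖fl s0 f (q + 3) x‖ • e) (hec : ‖e - lab‖ ≤ ε / 4)
    {U : ℕ → Sp d → ℝ} (hU : LabelSys s0 f ε δ c J U) :
    α ≤ 2 * CA / (δ * c) * ∑ j ∈ Finset.Ico p q,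
      sc s0 j * kav s0 0 j (fun z => U j z * ‖fl s0 f j z‖) x := by
  have hCA0 : 0 < CA := by linarith
  have hxx : ∀ l, ‖x - x‖ ≤ sc s0 (l + 2) / 4 := fun l => by
    rw [sub_self, norm_zero]
    have := sc_pos hs (l + 2)
    positivity
  have hne : ∀ l, p ≤ l → l ≤ q → fl s0 f (l + 3) x ≠ 0 := by
    intro l h1 h2 h0
    have h3 := low4 hD hCA hM (hxx l) (hal l h1 h2) (hE l h1 h2)
    rw [h0, norm_zero, mul_zero, mul_zero] at h3
    linarith
  have hstep : ∀ l, p ≤ l → l < q → ‖drc s0 f x (l + 3) - drc s0 f x (l + 4)‖ ≤ ε / 4 := by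
    intro l h1 h2
    refine drc_near (hne l h1 h2.le) ?_
    exact near4 hs hD hCA hCD hM hε hM' (hxx l) (hal l h1 h2.le) (hE l h1 h2.le)
      (drc_norm (hne (l + 1) (by omega) (by omega))) (drc_smul (hne (l + 1) (by omega) (by omega)))
  have hchain : ∀ k l, p ≤ l → l + k ≤ q →
      ‖drc s0 f x (l + 3) - drc s0 f x (l + k + 3)‖ ≤ k * (ε / 4) := by
    intro k
    induction k with
    | zero => intro l _ _; simp
    | succ k ih =>
      intro l h1 h2
      have h3 := ih l h1 (by omega)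
      have h4 := hstep (l + k) (by omega) (by omega)
      have h5 : drc s0 f x (l + 3) - drc s0 f x (l + (k + 1) + 3) =
          (drc s0 f x (l + 3) - drc s0 f x (l + k + 3)) +
          (drc s0 f x (l + k + 3) - drc s0 f x (l + k + 4)) := by
        rw [show l + (k + 1) + 3 = l + k + 4 by omega]; abel
      rw [h5]
      refine (norm_add_le _ _).trans ?_
      push_cast
      linarith
  have hfirst : 10 * ε < ‖drc s0 f x (p + 3) - lab‖ := by
    by_contra hcon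
    exact hinv ⟨drc s0 f x (p + 3), drc_norm (hne p le_rfl hpq.le), drc_smul (hne p le_rfl hpq.le),
      not_lt.1 hcon⟩
  have hlast : drc s0 f x (q + 3) = e := drc_eq (hne q hpq.le le_rfl) hfl
  have hfar : 10 * ε - ε / 4 < ‖drc s0 f x (p + 3) - drc s0 f x (q + 3)‖ := by
    have h1 : drc s0 f x (p + 3) - lab =
        (drc s0 f x (p + 3) - drc s0 f x (q + 3)) + (drc s0 f x (q + 3) - lab) := by abel
    rw [h1] at hfirst
    have h2 := norm_add_le (drc s0 f x (p + 3) - drc s0 f x (q + 3)) (drc s0 f x (q + 3) - lab)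
    rw [hlast] at h2 hfirst ⊢
    linarith
  have hlong : p + 5 ≤ q := by
    by_contra hcon
    have h1 := hchain (q - p) p le_rfl (by omega)
    rw [show p + (q - p) + 3 = q + 3 by omega] at h1
    have h2 : ((q - p : ℕ) : ℝ) ≤ 4 := by exact_mod_cast (by omega : q - p ≤ 4)
    nlinarith
  have hsep : 5 * ε ≤ ‖drc s0 f x (p + 4) - drc s0 f x q‖ := by
    have h1 := hstep p le_rfl hpq
    have h2 := hchain 3 (q - 3) (by omega) (by omega)
    rw [show q - 3 + 3 = q by omega] at h2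
    have h3 : drc s0 f x (p + 3) - drc s0 f x (q + 3) =
        (drc s0 f x (p + 3) - drc s0 f x (p + 4)) + (drc s0 f x (p + 4) - drc s0 f x q) +
        (drc s0 f x q - drc s0 f x (q + 3)) := by abel
    rw [h3] at hfar
    have h4 := norm_add_le ((drc s0 f x (p + 3) - drc s0 f x (p + 4)) +
      (drc s0 f x (p + 4) - drc s0 f x q)) (drc s0 f x q - drc s0 f x (q + 3))
    have h5 := norm_add_le (drc s0 f x (p + 3) - drc s0 f x (p + 4))
      (drc s0 f x (p + 4) - drc s0 f x q)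
    push_cast at h2
    linarith
  -- gates and directions around x
  have hgn : ∀ l, p ≤ l → l + 4 ≤ q → ∀ z ∈ ball x (sc s0 (l + 2) / 4),
      Gated s0 f δ (l + 3) z ∧ Near s0 f ε (l + 3) z (drc s0 f x (l + 4)) := by
    intro l h1 h2 z hz
    have hz' : ‖z - x‖ ≤ sc s0 (l + 2) / 4 := by
      rw [mem_ball, dist_eq_norm] at hz; exact hz.le
    refine ⟨gate hf hs hD hCA hCD hM hδ hδ' hz' hα (hal l h1 (by omega)) (hE l h1 (by omega))
      (hau (l + 4) (by omega) h2) (hE (l + 4) (by omega) h2), ?_⟩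
    have h3 := near4 hs hD hCA hCD hM hε hM' hz' (hal l h1 (by omega)) (hE l h1 (by omega))
      (drc_norm (hne (l + 1) (by omega) (by omega))) (drc_smul (hne (l + 1) (by omega) (by omega)))
    unfold Near at h3 ⊢
    have := norm_nonneg (fl s0 f (l + 3) z)
    exact h3.trans (by nlinarith)
  have hcap := hU.capture x (p + 3) (q - 1) (drc s0 f x (p + 4)) (drc s0 f x q) (by omega)
    (by omega) (by omega) (drc_norm (hne (p + 1) (by omega) (by omega)))
    (by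
      have := drc_norm (hne (q - 3) (by omega) (by omega))
      rwa [show q - 3 + 3 = q by omega] at this) hsep
    (by
      intro z hz
      rw [show p + 3 - 1 = p + 2 by omega] at hz
      exact hgn p le_rfl (by omega) z hz)
    (by
      intro z hz
      rw [show q - 1 - 1 = q - 4 + 2 by omega] at hz
      have := hgn (q - 4) (by omega) (by omega) z hz
      rwa [show q - 4 + 3 = q - 1 by omega, show q - 4 + 4 = q by omega] at this)
  -- sum of the costs
  have hF0 : ∀ j, 0 ≤ sc s0 j * kav s0 0 j (fun z => U j z * ‖fl s0 f j z‖) x := fun j =>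
    mul_nonneg (sc_pos hs j).le
      (kav_nonneg (fun z => mul_nonneg (hU.nonneg j z) (norm_nonneg _)) s0 0 j x)
  have h1 : δ * α * c ≤ 2 * CA * ∑ j ∈ Finset.Ico p q,
      sc s0 j * kav s0 0 j (fun z => U j z * ‖fl s0 f j z‖) x := by
    calc δ * α * c ≤ δ * α * ∑ l ∈ Finset.Ico (p + 3) (q - 1), kav s0 0 l (U l) x :=
          mul_le_mul_of_nonneg_left hcap (by positivity)
      _ = ∑ l ∈ Finset.Ico (p + 3) (q - 1), δ * α * kav s0 0 l (U l) x := by
          rw [Finset.mul_sum]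
      _ ≤ ∑ l ∈ Finset.Ico (p + 3) (q - 1), 2 * CA *
          (sc s0 l * kav s0 0 l (fun z => U l z * ‖fl s0 f l z‖) x) := by
          refine Finset.sum_le_sum fun l hl => ?_
          rw [Finset.mem_Ico] at hl
          have h2 := cost_level hf hs hδ hU l x
          have h3 := hal l (by omega) (by omega)
          have h4 : 0 ≤ kav s0 0 l (U l) x := kav_nonneg (hU.nonneg l) s0 0 l x
          calc δ * α * kav s0 0 l (U l) x ≤ δ * (2 * CA * am s0 f l x) * kav s0 0 l (U l) x :=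
                mul_le_mul_of_nonneg_right (mul_le_mul_of_nonneg_left h3 hδ.le) h4
            _ = 2 * CA * (δ * am s0 f l x * kav s0 0 l (U l) x) := by ring
            _ ≤ _ := mul_le_mul_of_nonneg_left h2 (by linarith)
      _ = 2 * CA * ∑ l ∈ Finset.Ico (p + 3) (q - 1),
          sc s0 l * kav s0 0 l (fun z => U l z * ‖fl s0 f l z‖) x := by rw [Finset.mul_sum]
      _ ≤ _ := by
          refine mul_le_mul_of_nonneg_left ?_ (by linarith)
          refine Finset.sum_le_sum_of_subset_of_nonneg ?_ fun j _ _ => hF0 j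
          intro j hj
          rw [Finset.mem_Ico] at hj ⊢
          omega
  rw [div_mul_eq_mul_div, le_div_iff₀ (mul_pos hδ hc)]
  linarith

end stable

/-! ### The pointwise estimate -/

lemma stmtPt_zero {V E : Type} [NormedAddCommGroup V] [InnerProductSpace ℝ V]
    [FiniteDimensional ℝ V] [NormedAddCommGroup E] [InnerProductSpace ℝ E]
    [FiniteDimensional ℝ E] {L : (Sp 0 →L[ℝ] V) →L[ℝ] E} {c : E} {ε : ℝ} (K : Chart L c ε)
    (u : Sp 0 → V) (x : Sp 0) (t : ℝ) : K.UC u x t = u x := by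
  rw [UC_eq]
  have h1 : (fun y : Sp 0 => u (x + t • y)) = fun _ => u x := by
    funext y
    rw [Subsingleton.elim (x + t • y) x]
  rw [h1]
  exact K.dual (u x)

theorem stmtPt (hDev : StmtDev) (hTV : StmtTV) (hA0 : StmtA0) : StmtPt := by
  classical
  intro d V E _ _ _ _ _ _ L CK hK ε n lab hε hε1 hlab hnet ch
  rcases Nat.eq_zero_or_pos d with rfl | hd
  · refine ⟨1, one_pos, fun c _ => ⟨0, le_rfl, ?_⟩⟩
    intro u hu s0 hs J hJ U hU Lu hLu x i
    rw [stmtPt_zero]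
    simp
  obtain ⟨CD, hCD, hDevC⟩ := hDev d
  choose CT hCT1 hCT using fun i => chart_tv hTV hA0 hK (ch i)
  obtain ⟨CA, hCAdef⟩ : ∃ CA : ℝ, CA = 1 + ∑ i, CT i := ⟨_, rfl⟩
  have hCT0 : ∀ i, 0 ≤ CT i := fun i => zero_le_one.trans (hCT1 i)
  have hsumCT : 0 ≤ ∑ i, CT i := Finset.sum_nonneg fun i _ => hCT0 i
  have hCA : 1 ≤ CA := by rw [hCAdef]; linarith
  have hCTA : ∀ i, CT i ≤ CA := by
    intro i
    have := Finset.single_le_sum (f := CT) (fun i _ => hCT0 i) (Finset.mem_univ i)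
    rw [hCAdef]; linarith
  have hCA0 : 0 < CA := by linarith
  have hCD0 : 0 < CD := by linarith
  obtain ⟨M, hMdef⟩ : ∃ M : ℝ, M = 1 + 4 * CA * CD + 128 * CA * CD ^ 2 / ε ^ 2 := ⟨_, rfl⟩
  have hq1 : 0 ≤ 128 * CA * CD ^ 2 / ε ^ 2 := by positivity
  have hq2 : 0 ≤ 4 * CA * CD := by positivity
  have hM1 : 1 ≤ M := by rw [hMdef]; linarith
  have hM : 4 * CA * CD ≤ M := by rw [hMdef]; linarith
  have hM' : 128 * CA * CD ^ 2 ≤ M * ε ^ 2 := by
    have h1 : 128 * CA * CD ^ 2 / ε ^ 2 ≤ M := by rw [hMdef]; linarith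
    rwa [div_le_iff₀ (by positivity)] at h1
  have hMCA : 2 * CA ≤ M := by nlinarith
  obtain ⟨δ, hδdef⟩ : ∃ δ : ℝ, δ = 1 / (8 ^ d * (5 * CA + 2 * CD) * (CA * CD)) := ⟨_, rfl⟩
  have hδpos : 0 < δ := by rw [hδdef]; positivity
  have hδ' : δ * (8 ^ d * (5 * CA + 2 * CD) * (CA * CD)) ≤ 1 := by
    rw [hδdef, one_div, inv_mul_cancel₀]
    positivity
  refine ⟨δ, hδpos, fun c hc => ?_⟩
  obtain ⟨C3, hC3⟩ : ∃ C3 : ℝ, C3 = 2 * CA / (δ * c) := ⟨_, rfl⟩
  have hC30 : 0 ≤ C3 := by rw [hC3]; positivity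
  obtain ⟨Ch, hCh⟩ : ∃ Ch : ℝ, Ch = ∑ i, ∑ i', |CK| * (lipc (ch i) + lipc (ch i')) := ⟨_, rfl⟩
  have hterm0 : ∀ i i', 0 ≤ |CK| * (lipc (ch i) + lipc (ch i')) := fun i i' =>
    mul_nonneg (abs_nonneg _) (add_nonneg (lipc_nonneg _) (lipc_nonneg _))
  have hChle : ∀ i i', |CK| * (lipc (ch i) + lipc (ch i')) ≤ Ch := by
    intro i i'
    rw [hCh]
    exact (Finset.single_le_sum (f := fun i' => |CK| * (lipc (ch i) + lipc (ch i')))
      (fun i' _ => hterm0 i i') (Finset.mem_univ i')).trans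
      (Finset.single_le_sum (f := fun i => ∑ i', |CK| * (lipc (ch i) + lipc (ch i')))
      (fun i _ => Finset.sum_nonneg fun i' _ => hterm0 i i') (Finset.mem_univ i))
  have hCh0 : 0 ≤ Ch := by
    rw [hCh]; exact Finset.sum_nonneg fun i _ => Finset.sum_nonneg fun i' _ => hterm0 i i'
  obtain ⟨Cm, hCm⟩ : ∃ Cm : ℝ, Cm = CA * (CA + 1) + Ch := ⟨_, rfl⟩
  have hCm0 : 0 ≤ Cm := by rw [hCm]; positivity
  have hCmCh : Ch ≤ Cm := by rw [hCm]; nlinarith
  have hCmCA : CA ≤ Cm := by rw [hCm]; nlinarith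
  have hCmCA' : CA * (CA + 1) ≤ Cm := by rw [hCm]; linarith
  obtain ⟨W1, hW1⟩ : ∃ W1 : ℝ, W1 = ∑ i, c1 (ch i) := ⟨_, rfl⟩
  have hW10 : 0 ≤ W1 := by rw [hW1]; exact Finset.sum_nonneg fun i _ => c1_nonneg _
  have hW1le : ∀ i, c1 (ch i) ≤ W1 := fun i => by
    rw [hW1]
    exact Finset.single_le_sum (f := fun i => c1 (ch i)) (fun i _ => c1_nonneg _)
      (Finset.mem_univ i)
  obtain ⟨Cf, hCf⟩ : ∃ Cf : ℝ, Cf = 3 * Cm + (4 * Cm * M + 2 * Cm) +
    (Cm + (4 * Cm * M + 2 * Cm) + 4 * Cm * (M + C3)) + W1 := ⟨_, rfl⟩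
  have hp1 : 0 ≤ 3 * Cm := by positivity
  have hp2 : 0 ≤ 4 * Cm * M + 2 * Cm := by positivity
  have hp3 : 0 ≤ Cm + (4 * Cm * M + 2 * Cm) + 4 * Cm * (M + C3) := by positivity
  refine ⟨Cf, by rw [hCf]; positivity, ?_⟩
  intro u hu s0 hs J hJ U hU Lu hLu x i
  -- the field
  have hfc : Continuous (fo L u) := L.continuous.comp (hu.smooth.continuous_fderiv (by simp))
  have hfs : HasCompactSupport (fo L u) :=
    (hu.supp.fderiv (𝕜 := ℝ)).comp_left (g := fun M => L M) (map_zero L)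
  obtain ⟨f, hf⟩ : ∃ f, f = fo L u := ⟨_, rfl⟩
  have hD : DevFacts CD s0 f := by rw [hf]; exact hDevC E (fo L u) hfc hfs s0 hs
  have hfc' : Continuous f := by rw [hf]; exact hfc
  rw [← hf]
  rw [← hf] at hU
  -- Lipschitz constant is nonnegative
  have hLu0 : 0 ≤ Lu := by
    have : Nontrivial (Sp d) := by
      have : Nonempty (Fin d) := ⟨⟨0, hd⟩⟩
      infer_instance
    obtain ⟨y, y', hyy⟩ := exists_pair_ne (Sp d)
    have h1 := (norm_nonneg _).trans (hLu y y')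
    have h2 : 0 < ‖y - y'‖ := norm_pos_iff.2 (sub_ne_zero.2 hyy)
    exact nonneg_of_mul_nonneg_left h1 h2
  obtain ⟨a, ha⟩ : ∃ a : ℕ → ℝ, a = fun j => am s0 f j x := ⟨_, rfl⟩
  obtain ⟨R, hR⟩ : ∃ R : ℕ → ℝ, R = fun j => er s0 f j x := ⟨_, rfl⟩
  obtain ⟨F, hF⟩ : ∃ F : ℕ → ℝ, F = fun j =>
    sc s0 j * kav s0 0 j (fun z => U j z * ‖fl s0 f j z‖) x := ⟨_, rfl⟩
  have ha0 : ∀ j, 0 ≤ a j := fun j => by rw [ha]; exact hD.am_nonneg j x
  have hR0 : ∀ j, 0 ≤ R j := fun j => by rw [hR]; exact hD.er_nonneg j x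
  have hF0 : ∀ j, 0 ≤ F j := fun j => by
    rw [hF]
    exact mul_nonneg (sc_pos hs j).le
      (kav_nonneg (fun z => mul_nonneg (hU.nonneg j z) (norm_nonneg _)) s0 0 j x)
  have haj : ∀ j, am s0 f j x = a j := fun j => by rw [ha]
  have hRj : ∀ j, er s0 f j x = R j := fun j => by rw [hR]
  have hFj : ∀ j, sc s0 j * kav s0 0 j (fun z => U j z * ‖fl s0 f j z‖) x = F j := fun j => by
    rw [hF]
  have hSR : ∀ S : Finset ℕ, 0 ≤ ∑ j ∈ S, R j := fun S => Finset.sum_nonneg fun j _ => hR0 j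
  -- total variation and growth
  have htv : ∀ (i' : Fin n) (j1 j2 : ℕ), 1 ≤ j1 → j1 ≤ j2 →
      (∀ j ∈ Finset.Ico j1 j2, ValC s0 f (lab i') ε (j + 4) x) →
      ‖(ch i').UC u x (sc s0 j2) - (ch i').UC u x (sc s0 j1)‖ ≤
        CA * (a j1 + a j2 + ∑ j ∈ Finset.Icc j1 j2, R j) ∧
      a j1 ≤ CA * (a j2 + ∑ j ∈ Finset.Icc j1 j2, R j) := by
    intro i' j1 j2 h1 h2 h3
    have h4 := hCT i' u hu s0 hs x j1 j2 h1 h2 (by rw [← hf]; exact h3)
    rw [← hf] at h4
    simp only [haj, hRj] at h4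
    have e1 : 0 ≤ a j1 + a j2 + ∑ j ∈ Finset.Icc j1 j2, R j :=
      add_nonneg (add_nonneg (ha0 _) (ha0 _)) (hSR _)
    have e2 : 0 ≤ a j2 + ∑ j ∈ Finset.Icc j1 j2, R j := add_nonneg (ha0 _) (hSR _)
    rw [abs_of_nonneg e1, abs_of_nonneg e2] at h4
    exact ⟨h4.1.trans (mul_le_mul_of_nonneg_right (hCTA i') e1),
      h4.2.trans (mul_le_mul_of_nonneg_right (hCTA i') e2)⟩
  -- the induction
  have hind := induct (ι := Fin n) J a R F (fun i q => ‖(ch i).UC u x (sc s0 q) - u x‖) Cm M C3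
    (W1 * s0 * Lu) hCm0 (by linarith) hC30 ha0 hR0 hF0
    (by
      intro q hq i i'
      have h1 := change hK (ch i) (ch i') hu hs hq x (by
        rw [← hf, haj, hRj]; exact add_nonneg (ha0 _) (hR0 _))
      rw [← hf, haj, hRj] at h1
      have h2 : ‖(ch i).UC u x (sc s0 q) - u x‖ ≤
          ‖(ch i).UC u x (sc s0 q) - (ch i').UC u x (sc s0 q)‖ +
          ‖(ch i').UC u x (sc s0 q) - u x‖ := by
        have := norm_add_le ((ch i).UC u x (sc s0 q) - (ch i').UC u x (sc s0 q))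
          ((ch i').UC u x (sc s0 q) - u x)
        rwa [sub_add_sub_cancel] at this
      have h3 : |CK| * (lipc (ch i) + lipc (ch i')) * (a q + R q) ≤ Cm * (a q + R q) :=
        mul_le_mul_of_nonneg_right ((hChle i i').trans hCmCh) (add_nonneg (ha0 _) (hR0 _))
      linarith)
    (by
      intro i
      have h1 := first (ch i) hu hs hLu0 hLu x
      refine h1.trans ?_
      exact mul_le_mul_of_nonneg_right (mul_le_mul_of_nonneg_right (hW1le i) hs.le) hLu0)
    (by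
      intro q hq2 hqJ
      -- direction at level q + 3
      obtain ⟨e, he, hfl⟩ : ∃ e : E, ‖e‖ = 1 ∧ fl s0 f (q + 3) x = ‖fl s0 f (q + 3) x‖ • e := by
        by_cases h0 : fl s0 f (q + 3) x = 0
        · exact ⟨lab i, hlab i, by rw [h0, norm_zero, zero_smul]⟩
        · exact ⟨_, drc_norm h0, drc_smul h0⟩
      obtain ⟨i', hi'⟩ := hnet e he
      have hlastval : ValC s0 f (lab i') ε (q + 3) x := ⟨e, he, hfl, by linarith⟩
      refine ⟨i', ?_⟩
      by_cases hall : ∀ j ∈ Finset.Ico 1 q, ValC s0 f (lab i') ε (j + 4) x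
      · left
        obtain ⟨h1, h2⟩ := htv i' 1 q le_rfl (by omega) hall
        have h3 : ‖(ch i').UC u x (sc s0 q) - u x‖ ≤
            ‖(ch i').UC u x (sc s0 q) - (ch i').UC u x (sc s0 1)‖ +
            ‖(ch i').UC u x (sc s0 1) - u x‖ := by
          have := norm_add_le ((ch i').UC u x (sc s0 q) - (ch i').UC u x (sc s0 1))
            ((ch i').UC u x (sc s0 1) - u x)
          rwa [sub_add_sub_cancel] at this
        obtain ⟨Q, hQ⟩ : ∃ Q, Q = a q + ∑ j ∈ Finset.Icc 1 q, R j := ⟨_, rfl⟩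
        have hQ0 : 0 ≤ Q := by rw [hQ]; exact add_nonneg (ha0 _) (hSR _)
        have h4 : a 1 + a q + ∑ j ∈ Finset.Icc 1 q, R j = a 1 + Q := by rw [hQ]; ring
        rw [h4] at h1
        rw [← hQ] at h2 ⊢
        have h5 : CA * (a 1 + Q) ≤ CA * (CA + 1) * Q := by
          have := mul_le_mul_of_nonneg_left h2 hCA0.le
          nlinarith
        have h6 := mul_le_mul_of_nonneg_right hCmCA' hQ0
        linarith
      · right
        push Not at hall
        obtain ⟨j0, hj0, hj0v⟩ := hall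
        obtain ⟨j, hj, hjmax⟩ := Finset.exists_max_image ((Finset.Ico 1 q).filter
          fun j => ¬ ValC s0 f (lab i') ε (j + 4) x) id ⟨j0, by
            rw [Finset.mem_filter]; exact ⟨hj0, hj0v⟩⟩
        rw [Finset.mem_filter, Finset.mem_Ico] at hj
        have hjq : j + 1 ≠ q := by
          intro h0
          apply hj.2
          rw [show j + 4 = q + 3 by omega]
          exact hlastval
        have hpq : j + 1 < q := by omega
        have hvalid : ∀ j' ∈ Finset.Ico (j + 1) q, ValC s0 f (lab i') ε (j' + 4) x := by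
          intro j' hj'
          rw [Finset.mem_Ico] at hj'
          by_contra hcon
          have := hjmax j' (by
            rw [Finset.mem_filter, Finset.mem_Ico]
            exact ⟨⟨by omega, hj'.2⟩, hcon⟩)
          simp only [id] at this
          omega
        have hvalid' : ∀ l l', j + 1 ≤ l → l' ≤ q →
            ∀ j' ∈ Finset.Ico l l', ValC s0 f (lab i') ε (j' + 4) x := by
          intro l l' h1 h2 j' hj'
          rw [Finset.mem_Ico] at hj'
          exact hvalid j' (Finset.mem_Ico.2 ⟨by omega, by omega⟩)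
        obtain ⟨p, hp⟩ : ∃ p, p = j + 1 := ⟨_, rfl⟩
        rw [← hp] at hpq hvalid hvalid'
        have hinv : ¬ ValC s0 f (lab i') ε (p + 3) x := by
          rw [hp, show j + 1 + 3 = j + 4 by omega]; exact hj.2
        refine ⟨p, by omega, hpq, ?_, ?_⟩
        · obtain ⟨h1, h2⟩ := htv i' p q (by omega) hpq.le hvalid
          have h3 : ‖(ch i').UC u x (sc s0 q) - u x‖ ≤
              ‖(ch i').UC u x (sc s0 q) - (ch i').UC u x (sc s0 p)‖ +
              ‖(ch i').UC u x (sc s0 p) - u x‖ := by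
            have := norm_add_le ((ch i').UC u x (sc s0 q) - (ch i').UC u x (sc s0 p))
              ((ch i').UC u x (sc s0 p) - u x)
            rwa [sub_add_sub_cancel] at this
          have h4 : CA * (a p + a q + ∑ j ∈ Finset.Icc p q, R j) ≤
              Cm * (a p + a q + ∑ j ∈ Finset.Icc p q, R j) :=
            mul_le_mul_of_nonneg_right hCmCA
              (add_nonneg (add_nonneg (ha0 _) (ha0 _)) (hSR _))
          linarith
        · by_cases hi : a p ≤ a q / 4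
          · exact Or.inl hi
          by_cases hii : a p ≤ M * ∑ j ∈ Finset.Icc p q, R j
          · exact Or.inr (Or.inl hii)
          refine Or.inr (Or.inr ?_)
          rw [not_le] at hi hii
          obtain ⟨S, hS⟩ : ∃ S, S = ∑ j ∈ Finset.Icc p q, R j := ⟨_, rfl⟩
          rw [← hS] at hii
          have hS0 : 0 ≤ S := by rw [hS]; exact hSR _
          have hαpos : 0 < a p := lt_of_le_of_lt (by have := ha0 q; positivity) hi
          have hSle : S ≤ a p := by nlinarith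
          have hsub : ∀ l l', p ≤ l → l' ≤ q → ∑ j ∈ Finset.Icc l l', R j ≤ S := by
            intro l l' h1 h2
            rw [hS]
            refine Finset.sum_le_sum_of_subset_of_nonneg ?_ fun j _ _ => hR0 j
            intro j' hj'
            rw [Finset.mem_Icc] at hj' ⊢
            omega
          have h5 := case3 (J := J) hfc' hs hD hCA hCD hM hε hM' hδpos hδ' hc hαpos hpq hqJ
            (x := x) (lab := lab i')
            (by
              intro l h1 h2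
              rw [haj]
              obtain ⟨-, h3⟩ := htv i' p l (by omega) h1 (hvalid' p l le_rfl h2)
              have h4 := hsub p l le_rfl h2
              have h6 : CA * (a l + ∑ j ∈ Finset.Icc p l, R j) ≤ CA * (a l + S) :=
                mul_le_mul_of_nonneg_left (by linarith) hCA0.le
              have h7 : 2 * CA * S ≤ a p := (mul_le_mul_of_nonneg_right hMCA hS0).trans hii.le
              linarith)
            (by
              intro l h1 h2
              rw [haj]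
              obtain ⟨-, h3⟩ := htv i' l q (by omega) h2 (hvalid' l q h1 le_rfl)
              have h4 := hsub l q h1 le_rfl
              have h6 : CA * (a q + ∑ j ∈ Finset.Icc l q, R j) ≤ CA * (4 * a p + a p) :=
                mul_le_mul_of_nonneg_left (by linarith) hCA0.le
              linarith)
            (by
              intro l h1 h2
              rw [hRj]
              have h3 : R l ≤ S := by
                rw [hS]
                exact Finset.single_le_sum (f := R) (fun j _ => hR0 j) (Finset.mem_Icc.2 ⟨h1, h2⟩)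
              have h4 := mul_le_mul_of_nonneg_left h3 (by linarith : 0 ≤ M)
              linarith)
            hinv hfl hi' hU
          simp only [hFj] at h5
          rw [hC3]
          exact h5)
  have hfin := hind J hJ le_rfl i
  simp only [haj, hRj, hFj]
  have h1 : ‖u x‖ ≤ ‖(ch i).UC u x (sc s0 J)‖ + ‖(ch i).UC u x (sc s0 J) - u x‖ := by
    have := norm_sub_le ((ch i).UC u x (sc s0 J)) ((ch i).UC u x (sc s0 J) - u x)
    rwa [sub_sub_cancel] at this
  have hSF : 0 ≤ ∑ j ∈ Finset.Ico 1 J, (R j + F j) :=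
    Finset.sum_nonneg fun j _ => add_nonneg (hR0 j) (hF0 j)
  have e1 : 3 * Cm * a J ≤ Cf * a J :=
    mul_le_mul_of_nonneg_right (by rw [hCf]; linarith) (ha0 J)
  have e2 : (4 * Cm * M + 2 * Cm) * R J ≤ Cf * R J :=
    mul_le_mul_of_nonneg_right (by rw [hCf]; linarith) (hR0 J)
  have e3 : (Cm + (4 * Cm * M + 2 * Cm) + 4 * Cm * (M + C3)) *
      ∑ j ∈ Finset.Ico 1 J, (R j + F j) ≤ Cf * ∑ j ∈ Finset.Ico 1 J, (R j + F j) :=
    mul_le_mul_of_nonneg_right (by rw [hCf]; linarith) hSF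
  have e4 : W1 * s0 * Lu ≤ Cf * s0 * Lu :=
    mul_le_mul_of_nonneg_right (mul_le_mul_of_nonneg_right (by rw [hCf]; linarith) hs.le) hLu0
  linarith

end

end PT

theorem stmtPt (hDev : StmtDev) (hTV : StmtTV) (hA0 : StmtA0) : StmtPt :=
  PT.stmtPt hDev hTV hA0

end TrI
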