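import Pool.Agent.TR.KD

/-!
# Trace inequality, stage 2: module RKG (the kernels of RKer for operators with NSProp)
-/

open MeasureTheory Metric Set Filter
open scoped InnerProductSpace ContDiff Topology Convolution Nat

namespace TrI

noncomputable section

variable {d : ℕ}

section General

variable {V E : Type} [NormedAddCommGroup V] [InnerProductSpace ℝ V] [FiniteDimensional ℝ V]
  [NormedAddCommGroup E] [InnerProductSpace ℝ E] [FiniteDimensional ℝ E]

/-- averages of continuous functions with smooth kernels are smooth -/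
lemma avk_contDiff {ψ : Sp d → ℝ} (hψ : ContDiff ℝ ∞ ψ) (h0 : ∀ y, 1 ≤ ‖y‖ → ψ y = 0)
    {f : Sp d → V} (hf : Continuous f) {s : ℝ} (hs : 0 < s) : ContDiff ℝ ∞ (avk ψ s f) := by
  have e1 : avk ψ s f = fun z => |(s ^ Module.finrank ℝ (Sp d))⁻¹| •
      (f ⋆[(ContinuousLinearMap.lsmul ℝ ℝ : ℝ →L[ℝ] V →L[ℝ] V).flip, (volume : Measure (Sp d))]
        (fun w => ψ ((-s)⁻¹ • w))) z := by
    funext z
    exact kernel_eq_conv (ContinuousLinearMap.lsmul ℝ ℝ : ℝ →L[ℝ] V →L[ℝ] V) ψ f hs.ne' z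
  rw [e1]
  have hcs : HasCompactSupport (fun w => ψ ((-s)⁻¹ • w)) := by
    refine HasCompactSupport.intro (isCompact_closedBall (0 : Sp d) s) fun x hx => h0 _ ?_
    rw [mem_closedBall, dist_zero_right, not_le] at hx
    rw [norm_smul, norm_inv, norm_neg, Real.norm_eq_abs, abs_of_pos hs, inv_mul_eq_div,
      le_div_iff₀ hs]
    linarith
  have hcd : ContDiff ℝ ∞ (fun w => ψ ((-s)⁻¹ • w)) := hψ.comp (contDiff_const_smul _)
  refine ContDiff.const_smul _ ?_
  exact hcs.contDiff_convolution_right _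
    (hf.locallyIntegrable (μ := (volume : Measure (Sp d)))) hcd

/-- the derivative commutes with averages -/
lemma fderiv_avk {ψ : Sp d → ℝ} (hψ : Continuous ψ) (h0 : ∀ y, 1 ≤ ‖y‖ → ψ y = 0)
    {u : Sp d → V} (hu : TF u) {s : ℝ} (z : Sp d) :
    fderiv ℝ (avk ψ s u) z = ∫ y, ψ y • fderiv ℝ u (z + s • y) := by
  have hu1 : ContDiff ℝ 1 u := hu.smooth.of_le (by exact_mod_cast le_top)
  have hcf : Continuous (fderiv ℝ u) := hu1.continuous_fderiv one_ne_zero
  obtain ⟨M, hM⟩ := hcf.bounded_above_of_compact_support (hu.supp.fderiv (𝕜 := ℝ))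
  have hF : ∀ z, Integrable (fun y => ψ y • u (z + s • y)) := fun z =>
    kernel_integrable (ContinuousLinearMap.lsmul ℝ ℝ : ℝ →L[ℝ] V →L[ℝ] V) hψ h0
      hu.smooth.continuous s z
  have hψi : Integrable ψ := hψ.integrable_of_hasCompactSupport (cs_of_vanish h0)
  have key : HasFDerivAt (fun z => ∫ y, ψ y • u (z + s • y))
      (∫ y, ψ y • fderiv ℝ u (z + s • y)) z := by
    refine hasFDerivAt_integral_of_dominated_of_fderiv_le (s := univ)
      (F := fun z y => ψ y • u (z + s • y)) (F' := fun z y => ψ y • fderiv ℝ u (z + s • y))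
      (bound := fun y => ‖ψ y‖ * M) univ_mem ?_ (hF z) ?_ ?_ ?_ ?_
    · exact Eventually.of_forall fun z => (hF z).aestronglyMeasurable
    · exact (hψ.smul (hcf.comp (by fun_prop))).aestronglyMeasurable
    · refine Eventually.of_forall fun y z _ => ?_
      rw [norm_smul]
      exact mul_le_mul_of_nonneg_left (hM _) (norm_nonneg _)
    · exact hψi.norm.mul_const M
    · refine Eventually.of_forall fun y z _ => ?_
      have h1 : HasFDerivAt u (fderiv ℝ u (z + s • y)) (z + s • y) :=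
        (hu1.differentiable one_ne_zero _).hasFDerivAt
      have h2 : HasFDerivAt (fun z => u (z + s • y)) (fderiv ℝ u (z + s • y)) z :=
        (hasFDerivAt_comp_add_right (s • y)).mpr h1
      exact h2.const_smul (ψ y)
  exact key.fderiv

/-- the operator commutes with averages -/
lemma fo_avk (L : (Sp d →L[ℝ] V) →L[ℝ] E) {ψ : Sp d → ℝ} (hψ : Continuous ψ)
    (h0 : ∀ y, 1 ≤ ‖y‖ → ψ y = 0) {u : Sp d → V} (hu : TF u) (s : ℝ) :
    fo L (avk ψ s u) = avk ψ s (fo L u) := by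
  funext z
  unfold fo
  rw [fderiv_avk hψ h0 hu z]
  have hu1 : ContDiff ℝ 1 u := hu.smooth.of_le (by exact_mod_cast le_top)
  have hcf : Continuous (fderiv ℝ u) := hu1.continuous_fderiv one_ne_zero
  have hi : Integrable (fun y => ψ y • fderiv ℝ u (z + s • y)) :=
    kernel_integrable (ContinuousLinearMap.lsmul ℝ ℝ : ℝ →L[ℝ] (Sp d →L[ℝ] V) →L[ℝ] _) hψ h0
      hcf s z
  rw [← L.integral_comp_comm hi]
  simp only [map_smul]
  rfl

/-- averages commute -/
lemma avk_comm {ψ : Sp d → ℝ} (hψ : Continuous ψ) (h0 : ∀ y, 1 ≤ ‖y‖ → ψ y = 0)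
    {u : Sp d → V} (hu : Continuous u) (s t : ℝ) (x : Sp d) :
    avk ψ s (avk ψ t u) x = avk ψ t (avk ψ s u) x := by
  unfold avk
  have hint : Integrable (Function.uncurry fun (y w : Sp d) =>
      ψ y • ψ w • u (x + s • y + t • w)) ((volume : Measure (Sp d)).prod volume) := by
    refine Continuous.integrable_of_hasCompactSupport (by unfold Function.uncurry; fun_prop) ?_
    refine HasCompactSupport.intro
      ((isCompact_closedBall (0 : Sp d) 1).prod (isCompact_closedBall (0 : Sp d) 1)) ?_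
    rintro ⟨y, w⟩ hx
    simp only [Function.uncurry]
    rw [mem_prod, not_and_or] at hx
    rcases hx with hx | hx
    · rw [mem_closedBall, dist_zero_right, not_le] at hx
      rw [h0 y hx.le, zero_smul]
    · rw [mem_closedBall, dist_zero_right, not_le] at hx
      rw [h0 w hx.le, zero_smul, smul_zero]
  have h1 := integral_integral_swap hint
  have e1 : ∀ y, ψ y • ∫ w, ψ w • u (x + s • y + t • w) =
      ∫ w, ψ y • ψ w • u (x + s • y + t • w) := fun y => (integral_smul _ _).symm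
  have e2 : ∀ w, ψ w • ∫ y, ψ y • u (x + t • w + s • y) =
      ∫ y, ψ y • ψ w • u (x + s • y + t • w) := by
    intro w
    rw [← integral_smul]
    refine integral_congr_ae (Eventually.of_forall fun y => ?_)
    show ψ w • ψ y • u (x + t • w + s • y) = ψ y • ψ w • u (x + s • y + t • w)
    rw [smul_comm, add_right_comm]
  simp only [e1, e2]
  exact h1

/-- vector valued moments vanish -/
lemma VKer.mom' {n : ℕ} {ψ : Sp d → ℝ} (h : VKer n ψ) {m : ℕ} (h1 : 1 ≤ m) (h2 : m ≤ n)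
    (M : ContinuousMultilinearMap ℝ (fun _ : Fin m => Sp d) V) :
    ∫ y, ψ y • M (fun _ => y) = 0 := by
  have hi : Integrable (fun y => ψ y • M (fun _ => y)) := by
    refine Continuous.integrable_of_hasCompactSupport ?_ (cs_of_vanish fun y hy => ?_)
    · have := h.smooth.continuous
      fun_prop
    · rw [h.supp y hy, zero_smul]
  refine ext_inner_left ℝ fun e => ?_
  rw [inner_zero_right]
  have h3 := (innerSL ℝ e).integral_comp_comm hi
  simp only [innerSL_apply_apply, inner_smul_right] at h3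
  rw [← h3]
  exact h.mom m h1 h2 ((innerSL ℝ e).compContinuousMultilinearMap M)

end General

/-- the parameter set of the Taylor remainder -/
def PS (d : ℕ) : Set (Sp d × ℝ) := closedBall (0 : Sp d) 1 ×ˢ Icc (0 : ℝ) 1

lemma PS_compact : IsCompact (PS d) := (isCompact_closedBall _ _).prod isCompact_Icc

lemma PS_meas : MeasurableSet (PS d) := PS_compact.isClosed.measurableSet

section Taylor

variable {V E : Type} [NormedAddCommGroup V] [InnerProductSpace ℝ V] [FiniteDimensional ℝ V]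
  [NormedAddCommGroup E] [InnerProductSpace ℝ E] [FiniteDimensional ℝ E]

/-- Taylor expansion of an average with vanishing moments -/
lemma avk_taylor {n : ℕ} {ψ : Sp d → ℝ} (hψ : VKer n ψ) {v : Sp d → V} (hv : ContDiff ℝ ∞ v)
    (S : ℝ) (z : Sp d) :
    avk ψ S v z - v z = (n ! : ℝ)⁻¹ • ∫ p in PS d, (ψ p.1 * (1 - p.2) ^ n) •
      iteratedFDeriv ℝ (n + 1) v (z + p.2 • S • p.1) (fun _ => S • p.1) := by
  have hψc := hψ.smooth.continuous
  have hDc : ∀ k : ℕ, Continuous (iteratedFDeriv ℝ k v) := fun k =>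
    hv.continuous_iteratedFDeriv (by exact_mod_cast le_top)
  have hcs : ∀ G : Sp d → V, HasCompactSupport (fun y => ψ y • G y) := fun G =>
    cs_of_vanish fun y hy => by rw [hψ.supp y hy, zero_smul]
  -- the integrand
  have hT : ∀ η : Sp d, v (z + S • η) =
      ∑ k ∈ Finset.range (n + 1), (k ! : ℝ)⁻¹ • (iteratedFDeriv ℝ k v z (fun _ ↦ S • η)) +
      (n ! : ℝ)⁻¹ • ∫ t in (0 : ℝ)..1, (1 - t) ^ n •
        iteratedFDeriv ℝ (n + 1) v (z + t • S • η) (fun _ ↦ S • η) := fun η =>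
    map_add_eq_sum_add_integral_iteratedFDeriv fun t _ =>
      (hv.contDiffAt).of_le (by exact_mod_cast le_top)
  -- the remainder is continuous
  have hRc : Continuous fun η : Sp d => ∫ t in (0 : ℝ)..1, (1 - t) ^ n •
        iteratedFDeriv ℝ (n + 1) v (z + t • S • η) (fun _ ↦ S • η) := by
    have := hDc (n + 1)
    refine intervalIntegral.continuous_parametric_intervalIntegral_of_continuous' ?_ 0 1
    unfold Function.uncurry
    fun_prop
  have hi1 : ∀ k, Integrable fun η : Sp d =>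
      ψ η • ((k ! : ℝ)⁻¹ • (iteratedFDeriv ℝ k v z (fun _ ↦ S • η))) := fun k =>
    Continuous.integrable_of_hasCompactSupport (by fun_prop) (hcs _)
  have hi2 : Integrable fun η : Sp d => ψ η • ((n ! : ℝ)⁻¹ • ∫ t in (0 : ℝ)..1, (1 - t) ^ n •
        iteratedFDeriv ℝ (n + 1) v (z + t • S • η) (fun _ ↦ S • η)) :=
    Continuous.integrable_of_hasCompactSupport (by fun_prop) (hcs _)
  have h1 : avk ψ S v z = ∑ k ∈ Finset.range (n + 1),
      (∫ η, ψ η • ((k ! : ℝ)⁻¹ • (iteratedFDeriv ℝ k v z (fun _ ↦ S • η)))) +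
      ∫ η, ψ η • ((n ! : ℝ)⁻¹ • ∫ t in (0 : ℝ)..1, (1 - t) ^ n •
        iteratedFDeriv ℝ (n + 1) v (z + t • S • η) (fun _ ↦ S • η)) := by
    unfold avk
    rw [← integral_finset_sum _ fun k _ => hi1 k, ← integral_add (integrable_finset_sum _
      fun k _ => hi1 k) hi2]
    refine integral_congr_ae (Eventually.of_forall fun η => ?_)
    show ψ η • v (z + S • η) = _
    rw [hT η, smul_add, Finset.smul_sum]
  -- the moments
  have h2 : ∑ k ∈ Finset.range (n + 1),
      (∫ η, ψ η • ((k ! : ℝ)⁻¹ • (iteratedFDeriv ℝ k v z (fun _ ↦ S • η)))) = v z := by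
    rw [Finset.sum_range_succ']
    have h3 : ∀ k ∈ Finset.range n, (∫ η, ψ η • (((k + 1)! : ℝ)⁻¹ •
        (iteratedFDeriv ℝ (k + 1) v z (fun _ ↦ S • η)))) = 0 := by
      intro k hk
      rw [Finset.mem_range] at hk
      have h4 := hψ.mom' (V := V) (m := k + 1) (by omega) (by omega) (iteratedFDeriv ℝ (k + 1) v z)
      have h5 : ∀ η : Sp d, ψ η • (((k + 1)! : ℝ)⁻¹ •
          (iteratedFDeriv ℝ (k + 1) v z (fun _ ↦ S • η))) =
          (((k + 1)! : ℝ)⁻¹ * S ^ (k + 1)) •
            (ψ η • iteratedFDeriv ℝ (k + 1) v z (fun _ => η)) := by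
        intro η
        have h6 := (iteratedFDeriv ℝ (k + 1) v z).map_smul_univ (fun _ => S) (fun _ => η)
        rw [Finset.prod_const, Finset.card_univ, Fintype.card_fin] at h6
        rw [h6, smul_smul, smul_smul, smul_smul]
        congr 1
        ring
      simp only [h5]
      rw [integral_smul, h4, smul_zero]
    rw [Finset.sum_eq_zero h3, zero_add]
    simp only [iteratedFDeriv_zero_apply, Nat.factorial_zero, Nat.cast_one, inv_one, one_smul]
    rw [integral_smul_const, hψ.int, one_smul]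
  -- the remainder
  have h3 : ∫ η, ψ η • ((n ! : ℝ)⁻¹ • ∫ t in (0 : ℝ)..1, (1 - t) ^ n •
        iteratedFDeriv ℝ (n + 1) v (z + t • S • η) (fun _ ↦ S • η)) =
      (n ! : ℝ)⁻¹ • ∫ p in PS d, (ψ p.1 * (1 - p.2) ^ n) •
      iteratedFDeriv ℝ (n + 1) v (z + p.2 • S • p.1) (fun _ => S • p.1) := by
    have hcont : Continuous fun p : Sp d × ℝ => (ψ p.1 * (1 - p.2) ^ n) •
        iteratedFDeriv ℝ (n + 1) v (z + p.2 • S • p.1) (fun _ => S • p.1) := by
      have := hDc (n + 1)
      fun_prop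
    have h4 := setIntegral_prod (μ := (volume : Measure (Sp d))) (ν := (volume : Measure ℝ))
      (fun p : Sp d × ℝ => (ψ p.1 * (1 - p.2) ^ n) •
        iteratedFDeriv ℝ (n + 1) v (z + p.2 • S • p.1) (fun _ => S • p.1))
      (s := closedBall (0 : Sp d) 1) (t := Icc (0 : ℝ) 1)
      (hcont.continuousOn.integrableOn_compact PS_compact)
    have h5 : ∫ p in PS d, (ψ p.1 * (1 - p.2) ^ n) •
        iteratedFDeriv ℝ (n + 1) v (z + p.2 • S • p.1) (fun _ => S • p.1) =
        ∫ η in closedBall (0 : Sp d) 1, ∫ t in Icc (0 : ℝ) 1, (ψ η * (1 - t) ^ n) •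
        iteratedFDeriv ℝ (n + 1) v (z + t • S • η) (fun _ => S • η) := h4
    rw [h5]
    rw [← integral_smul]
    rw [← setIntegral_eq_integral_of_forall_compl_eq_zero (s := closedBall (0 : Sp d) 1)
      (μ := (volume : Measure (Sp d)))]
    · refine integral_congr_ae (Eventually.of_forall fun η => ?_)
      show ψ η • ((n ! : ℝ)⁻¹ • ∫ t in (0 : ℝ)..1, (1 - t) ^ n •
        iteratedFDeriv ℝ (n + 1) v (z + t • S • η) (fun _ ↦ S • η)) =
        (n ! : ℝ)⁻¹ • ∫ t in Icc (0 : ℝ) 1, (ψ η * (1 - t) ^ n) •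
        iteratedFDeriv ℝ (n + 1) v (z + t • S • η) (fun _ => S • η)
      rw [smul_comm, intervalIntegral.integral_of_le zero_le_one, integral_Icc_eq_integral_Ioc,
        ← integral_smul]
      congr 1
      refine integral_congr_ae (Eventually.of_forall fun t => ?_)
      exact smul_smul _ _ _
    · intro η hη
      rw [mem_closedBall, dist_zero_right, not_le] at hη
      rw [hψ.supp η hη.le, zero_smul]
  rw [h1, h2, h3]
  abel

end Taylor

section Kernel

variable {V E : Type} [NormedAddCommGroup V] [InnerProductSpace ℝ V] [FiniteDimensional ℝ V]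
  [NormedAddCommGroup E] [InnerProductSpace ℝ E] [FiniteDimensional ℝ E]

/-- the elementary kernel: e is sent to T (D^n ψ (ζ) ⊗ e) (η, ..., η) -/
def qk {n : ℕ} (T : (ContinuousMultilinearMap ℝ (fun _ : Fin n => Sp d) E) →L[ℝ]
      (ContinuousMultilinearMap ℝ (fun _ : Fin (n + 1) => Sp d) V)) (ψ : Sp d → ℝ)
    (ζ η : Sp d) : E →L[ℝ] V :=
  (ContinuousMultilinearMap.apply ℝ (fun _ : Fin (n + 1) => Sp d) V (fun _ => η)).comp
    (T.comp (ContinuousMultilinearMap.smulRightL ℝ (fun _ : Fin n => Sp d) E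
      (iteratedFDeriv ℝ n ψ ζ)))

lemma qk_apply {n : ℕ} (T : (ContinuousMultilinearMap ℝ (fun _ : Fin n => Sp d) E) →L[ℝ]
      (ContinuousMultilinearMap ℝ (fun _ : Fin (n + 1) => Sp d) V)) (ψ : Sp d → ℝ)
    (ζ η : Sp d) (e : E) :
    qk T ψ ζ η e = T ((iteratedFDeriv ℝ n ψ ζ).smulRight e) (fun _ => η) := rfl

lemma qk_cont {n : ℕ} (T : (ContinuousMultilinearMap ℝ (fun _ : Fin n => Sp d) E) →L[ℝ]
      (ContinuousMultilinearMap ℝ (fun _ : Fin (n + 1) => Sp d) V)) {ψ : Sp d → ℝ}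
    (hψ : ContDiff ℝ ∞ ψ) {X : Type*} [TopologicalSpace X] {g h : X → Sp d} (hg : Continuous g)
    (hh : Continuous h) : Continuous (fun x => qk T ψ (g x) (h x)) := by
  have hD : Continuous (iteratedFDeriv ℝ n ψ) :=
    hψ.continuous_iteratedFDeriv (by exact_mod_cast le_top)
  rw [continuous_clm_apply]
  intro e
  have h1 : Continuous fun x => T (ContinuousMultilinearMap.smulRightL ℝ (fun _ : Fin n => Sp d) E
      (iteratedFDeriv ℝ n ψ (g x)) e) := by
    fun_prop
  have h2 : (fun x => qk T ψ (g x) (h x) e) = fun x =>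
      (T (ContinuousMultilinearMap.smulRightL ℝ (fun _ : Fin n => Sp d) E
      (iteratedFDeriv ℝ n ψ (g x)) e)) (fun _ => h x) := rfl
  rw [h2]
  fun_prop

lemma qk_zero {n : ℕ} (T : (ContinuousMultilinearMap ℝ (fun _ : Fin n => Sp d) E) →L[ℝ]
      (ContinuousMultilinearMap ℝ (fun _ : Fin (n + 1) => Sp d) V)) {ψ : Sp d → ℝ}
    (hψ : ContDiff ℝ ∞ ψ) (h0 : ∀ y, 1 ≤ ‖y‖ → ψ y = 0) {ζ : Sp d} (hζ : 1 ≤ ‖ζ‖) (η : Sp d) :
    qk T ψ ζ η = 0 := by
  unfold qk
  rw [iteratedFDeriv_vanish hψ h0 n ζ hζ]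
  simp

/-- the kernel for one Taylor expansion, without constant -/
def th {n : ℕ} (T : (ContinuousMultilinearMap ℝ (fun _ : Fin n => Sp d) E) →L[ℝ]
      (ContinuousMultilinearMap ℝ (fun _ : Fin (n + 1) => Sp d) V)) (ψ : Sp d → ℝ) (a b : ℝ)
    (y : Sp d) : E →L[ℝ] V :=
  ∫ p in PS d, (ψ p.1 * (1 - p.2) ^ n) • qk T ψ (a⁻¹ • (y - (p.2 * b) • p.1)) p.1

lemma th_integrand_cont {n : ℕ} (T : (ContinuousMultilinearMap ℝ (fun _ : Fin n => Sp d) E) →L[ℝ]
      (ContinuousMultilinearMap ℝ (fun _ : Fin (n + 1) => Sp d) V)) {ψ : Sp d → ℝ}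
    (hψ : ContDiff ℝ ∞ ψ) (a b : ℝ) :
    Continuous (fun q : Sp d × (Sp d × ℝ) => (ψ q.2.1 * (1 - q.2.2) ^ n) •
      qk T ψ (a⁻¹ • (q.1 - (q.2.2 * b) • q.2.1)) q.2.1) := by
  have hc := hψ.continuous
  have h1 := qk_cont T hψ (g := fun q : Sp d × (Sp d × ℝ) => a⁻¹ • (q.1 - (q.2.2 * b) • q.2.1))
    (h := fun q : Sp d × (Sp d × ℝ) => q.2.1) (by fun_prop) (by fun_prop)
  have h2 : Continuous (fun q : Sp d × (Sp d × ℝ) => ψ q.2.1 * (1 - q.2.2) ^ n) := by fun_prop
  exact h2.smul h1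

lemma th_cont {n : ℕ} (T : (ContinuousMultilinearMap ℝ (fun _ : Fin n => Sp d) E) →L[ℝ]
      (ContinuousMultilinearMap ℝ (fun _ : Fin (n + 1) => Sp d) V)) {ψ : Sp d → ℝ}
    (hψ : ContDiff ℝ ∞ ψ) (a b : ℝ) : Continuous (th T ψ a b) :=
  continuous_parametric_integral_of_continuous
    (f := fun (y : Sp d) (p : Sp d × ℝ) => (ψ p.1 * (1 - p.2) ^ n) •
      qk T ψ (a⁻¹ • (y - (p.2 * b) • p.1)) p.1) (th_integrand_cont T hψ a b) PS_compact

lemma qk_far {n : ℕ} (T : (ContinuousMultilinearMap ℝ (fun _ : Fin n => Sp d) E) →L[ℝ]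
      (ContinuousMultilinearMap ℝ (fun _ : Fin (n + 1) => Sp d) V)) {ψ : Sp d → ℝ}
    (hψ : ContDiff ℝ ∞ ψ) (h0 : ∀ y, 1 ≤ ‖y‖ → ψ y = 0) {a b : ℝ} (ha : 0 < a) (hb : 0 < b)
    {y : Sp d} (hy : a + b ≤ ‖y‖) {p : Sp d × ℝ} (hp : p ∈ PS d) :
    qk T ψ (a⁻¹ • (y - (p.2 * b) • p.1)) p.1 = 0 := by
  refine qk_zero T hψ h0 ?_ _
  obtain ⟨hp1, hp2⟩ := hp
  rw [mem_closedBall, dist_zero_right] at hp1
  rw [mem_Icc] at hp2
  rw [norm_smul, norm_inv, Real.norm_eq_abs, abs_of_pos ha, inv_mul_eq_div, le_div_iff₀ ha,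
    one_mul]
  have h1 : ‖(p.2 * b) • p.1‖ ≤ b := by
    rw [norm_smul, Real.norm_eq_abs, abs_of_nonneg (mul_nonneg hp2.1 hb.le)]
    calc p.2 * b * ‖p.1‖ ≤ 1 * b * 1 :=
          mul_le_mul (mul_le_mul_of_nonneg_right hp2.2 hb.le) hp1 (norm_nonneg _) (by positivity)
      _ = b := by ring
  have h2 : ‖y‖ - ‖(p.2 * b) • p.1‖ ≤ ‖y - (p.2 * b) • p.1‖ := norm_sub_norm_le _ _
  linarith

lemma th_far {n : ℕ} (T : (ContinuousMultilinearMap ℝ (fun _ : Fin n => Sp d) E) →L[ℝ]
      (ContinuousMultilinearMap ℝ (fun _ : Fin (n + 1) => Sp d) V)) {ψ : Sp d → ℝ}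
    (hψ : ContDiff ℝ ∞ ψ) (h0 : ∀ y, 1 ≤ ‖y‖ → ψ y = 0) {a b : ℝ} (ha : 0 < a) (hb : 0 < b)
    {y : Sp d} (hy : a + b ≤ ‖y‖) : th T ψ a b y = 0 := by
  unfold th
  refine setIntegral_eq_zero_of_forall_eq_zero fun p hp => ?_
  rw [qk_far T hψ h0 ha hb hy hp, smul_zero]

/-- the action of the kernel th -/
lemma th_int {n : ℕ} (T : (ContinuousMultilinearMap ℝ (fun _ : Fin n => Sp d) E) →L[ℝ]
      (ContinuousMultilinearMap ℝ (fun _ : Fin (n + 1) => Sp d) V)) {ψ : Sp d → ℝ}
    (hψ : ContDiff ℝ ∞ ψ) (h0 : ∀ y, 1 ≤ ‖y‖ → ψ y = 0) {a b : ℝ} (ha : 0 < a) (hb : 0 < b)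
    {f : Sp d → E} (hf : Continuous f) (s : ℝ) (z : Sp d) :
    ∫ y, th T ψ a b y (f (z + s • y)) = a ^ d • ∫ p in PS d, (ψ p.1 * (1 - p.2) ^ n) •
      ∫ ζ, qk T ψ ζ p.1 (f ((z + p.2 • (b * s) • p.1) + (a * s) • ζ)) := by
  set H : Sp d → (Sp d × ℝ) → V := fun y p => ((ψ p.1 * (1 - p.2) ^ n) •
      qk T ψ (a⁻¹ • (y - (p.2 * b) • p.1)) p.1) (f (z + s • y)) with hH
  have hHc : Continuous (Function.uncurry H) := by
    have h1 := th_integrand_cont T hψ a b
    have h2 : Continuous fun q : Sp d × (Sp d × ℝ) => f (z + s • q.1) := by fun_prop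
    exact h1.clm_apply h2
  -- the inner integral
  have e1 : ∀ y, th T ψ a b y (f (z + s • y)) = ∫ p in PS d, H y p := by
    intro y
    unfold th
    rw [ContinuousLinearMap.integral_apply]
    refine ContinuousOn.integrableOn_compact PS_compact ?_
    exact ((th_integrand_cont T hψ a b).comp (by fun_prop :
      Continuous fun p : Sp d × ℝ => (y, p))).continuousOn
  simp only [e1]
  -- swap
  have hint : Integrable (Function.uncurry H)
      ((volume : Measure (Sp d)).prod (volume.restrict (PS d))) := by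
    have hr : ((volume : Measure (Sp d)).prod (volume.restrict (PS d))) =
        ((volume : Measure (Sp d)).prod (volume : Measure (Sp d × ℝ))).restrict
          (univ ×ˢ PS d) := by
      rw [← Measure.prod_restrict, Measure.restrict_univ]
    rw [hr]
    have hcomp : IsCompact ((closedBall (0 : Sp d) (a + b)) ×ˢ PS d) :=
      (isCompact_closedBall _ _).prod PS_compact
    refine IntegrableOn.of_forall_sdiff_eq_zero
      (hHc.continuousOn.integrableOn_compact hcomp) (MeasurableSet.univ.prod PS_meas) ?_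
    rintro ⟨y, p⟩ ⟨hq1, hq2⟩
    have hp : p ∈ PS d := hq1.2
    have hy : a + b ≤ ‖y‖ := by
      by_contra hlt
      push Not at hlt
      refine hq2 ⟨?_, hp⟩
      rw [mem_closedBall, dist_zero_right]
      exact hlt.le
    show ((ψ p.1 * (1 - p.2) ^ n) • qk T ψ (a⁻¹ • (y - (p.2 * b) • p.1)) p.1) (f (z + s • y)) = 0
    rw [qk_far T hψ h0 ha hb hy hp]
    simp
  rw [integral_integral_swap hint, ← integral_smul]
  refine integral_congr_ae (Eventually.of_forall fun p => ?_)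
  show ∫ y, ((ψ p.1 * (1 - p.2) ^ n) • qk T ψ (a⁻¹ • (y - (p.2 * b) • p.1)) p.1) (f (z + s • y)) =
    a ^ d • (ψ p.1 * (1 - p.2) ^ n) •
      ∫ ζ, qk T ψ ζ p.1 (f ((z + p.2 • (b * s) • p.1) + (a * s) • ζ))
  simp only [ContinuousLinearMap.smul_apply]
  rw [integral_smul, smul_comm (a ^ d)]
  congr 1
  -- change of variables
  have h1 := integral_add_right_eq_self (μ := (volume : Measure (Sp d)))
    (fun y => qk T ψ (a⁻¹ • (y - (p.2 * b) • p.1)) p.1 (f (z + s • y))) ((p.2 * b) • p.1)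
  rw [← h1]
  have h2 := Measure.integral_comp_smul (volume : Measure (Sp d))
    (fun y => qk T ψ (a⁻¹ • (y + (p.2 * b) • p.1 - (p.2 * b) • p.1)) p.1
      (f (z + s • (y + (p.2 * b) • p.1)))) a
  rw [finrank_euclideanSpace, Fintype.card_fin, abs_of_pos (by positivity)] at h2
  have h3 : (fun ζ => qk T ψ (a⁻¹ • (a • ζ + (p.2 * b) • p.1 - (p.2 * b) • p.1)) p.1
      (f (z + s • (a • ζ + (p.2 * b) • p.1)))) =
      fun ζ => qk T ψ ζ p.1 (f ((z + p.2 • (b * s) • p.1) + (a * s) • ζ)) := by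
    funext ζ
    rw [add_sub_cancel_right, smul_smul, inv_mul_cancel₀ ha.ne', one_smul]
    congr 2
    rw [smul_add, smul_smul, smul_smul, smul_smul, add_assoc, add_comm ((s * a) • ζ)]
    congr 2
    · congr 1
      ring
    · congr 1
      ring
  rw [h3] at h2
  rw [h2, smul_smul, mul_inv_cancel₀ (by positivity), one_smul]

end Kernel

section Final

variable {V E : Type} [NormedAddCommGroup V] [InnerProductSpace ℝ V] [FiniteDimensional ℝ V]
  [NormedAddCommGroup E] [InnerProductSpace ℝ E] [FiniteDimensional ℝ E]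

/-- the inner integral of th_int in terms of the derivative of the average -/
lemma qk_int {n : ℕ} (T : (ContinuousMultilinearMap ℝ (fun _ : Fin n => Sp d) E) →L[ℝ]
      (ContinuousMultilinearMap ℝ (fun _ : Fin (n + 1) => Sp d) V)) {ψ : Sp d → ℝ}
    (hψ : ContDiff ℝ ∞ ψ) (h0 : ∀ y, 1 ≤ ‖y‖ → ψ y = 0) {f : Sp d → E} (hf : Continuous f)
    {σ : ℝ} (hσ : 0 < σ) (z η : Sp d) :
    T (iteratedFDeriv ℝ n (avk ψ σ f) z) (fun _ => η) =
      (-1 / σ) ^ n • ∫ ζ, qk T ψ ζ η (f (z + σ • ζ)) := by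
  rw [stmtKD d E ψ hψ h0 f hf σ hσ n z, map_smul, ContinuousMultilinearMap.smul_apply]
  congr 1
  have hint := kernel_integrable
      (ContinuousMultilinearMap.smulRightL ℝ (fun _ : Fin n => Sp d) E)
      (K := iteratedFDeriv ℝ n ψ) (hψ.continuous_iteratedFDeriv (by exact_mod_cast le_top))
      (iteratedFDeriv_vanish hψ h0 n) hf σ z
  have h1 := ((ContinuousMultilinearMap.apply ℝ (fun _ : Fin (n + 1) => Sp d) V
    (fun _ => η)).comp T).integral_comp_comm hint
  exact h1.symm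

/-- the constant in front of th -/
def thc (d n : ℕ) (a b : ℝ) : ℝ := -((n ! : ℝ)⁻¹ * b ^ (n + 1) * (-1 / a) ^ n * (a ^ d)⁻¹)

lemma one_step {L : (Sp d →L[ℝ] V) →L[ℝ] E} {n : ℕ}
    {T : (ContinuousMultilinearMap ℝ (fun _ : Fin n => Sp d) E) →L[ℝ]
      (ContinuousMultilinearMap ℝ (fun _ : Fin (n + 1) => Sp d) V)} (hT : NSProp L n T)
    {ψ : Sp d → ℝ} (hψ : VKer n ψ) {a b : ℝ} (ha : 0 < a) (hb : 0 < b) {u : Sp d → V}
    (hu : TF u) {s : ℝ} (hs : 0 < s) (z : Sp d) :
    avk ψ (a * s) u z - avk ψ (b * s) (avk ψ (a * s) u) z =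
      s • ∫ y, (thc d n a b • th T ψ a b y) (fo L u (z + s • y)) := by
  have hψc := hψ.smooth.continuous
  have has : 0 < a * s := mul_pos ha hs
  have hv : ContDiff ℝ ∞ (avk ψ (a * s) u) := avk_contDiff hψ.smooth hψ.supp hu.smooth.continuous has
  have hfc : Continuous (fo L u) := L.continuous.comp (hu.smooth.continuous_fderiv (by simp))
  have h1 := avk_taylor hψ hv (b * s) z
  have h2 : ∀ p : Sp d × ℝ, iteratedFDeriv ℝ (n + 1) (avk ψ (a * s) u) (z + p.2 • (b * s) • p.1)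
      (fun _ => (b * s) • p.1) = ((b * s) ^ (n + 1) * (-1 / (a * s)) ^ n) •
        ∫ ζ, qk T ψ ζ p.1 (fo L u ((z + p.2 • (b * s) • p.1) + (a * s) • ζ)) := by
    intro p
    have h3 := (iteratedFDeriv ℝ (n + 1) (avk ψ (a * s) u)
      (z + p.2 • (b * s) • p.1)).map_smul_univ (fun _ => b * s) (fun _ => p.1)
    rw [Finset.prod_const, Finset.card_univ, Fintype.card_fin] at h3
    rw [h3, hT _ hv, fo_avk L hψc hψ.supp hu, qk_int T hψ.smooth hψ.supp hfc has, smul_smul]
  simp only [h2] at h1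
  have h4 := th_int T hψ.smooth hψ.supp ha hb hfc s z
  have h5 : ∫ y, (thc d n a b • th T ψ a b y) (fo L u (z + s • y)) =
      thc d n a b • ∫ y, th T ψ a b y (fo L u (z + s • y)) := by
    rw [← integral_smul]
    rfl
  rw [h5, h4]
  have h6 : avk ψ (a * s) u z - avk ψ (b * s) (avk ψ (a * s) u) z =
      -(avk ψ (b * s) (avk ψ (a * s) u) z - avk ψ (a * s) u z) := by abel
  rw [h6, h1]
  have h7 : ∫ p in PS d, (ψ p.1 * (1 - p.2) ^ n) • ((b * s) ^ (n + 1) * (-1 / (a * s)) ^ n) •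
        ∫ ζ, qk T ψ ζ p.1 (fo L u ((z + p.2 • (b * s) • p.1) + (a * s) • ζ)) =
      ((b * s) ^ (n + 1) * (-1 / (a * s)) ^ n) • ∫ p in PS d, (ψ p.1 * (1 - p.2) ^ n) •
        ∫ ζ, qk T ψ ζ p.1 (fo L u ((z + p.2 • (b * s) • p.1) + (a * s) • ζ)) := by
    rw [← integral_smul]
    refine integral_congr_ae (Eventually.of_forall fun p => ?_)
    exact smul_comm _ _ _
  rw [h7, ← neg_smul, smul_smul, smul_smul, smul_smul]
  congr 1
  unfold thc
  have e1 : (-1 / (a * s)) ^ n = (-1 / a) ^ n * (s ^ n)⁻¹ := by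
    rw [← div_div, div_pow, div_eq_mul_inv]
  rw [e1, mul_pow, pow_succ s n]
  field_simp

/-- MODULE RKG -/
theorem stmtRKG : StmtRKG := by
  intro d V E _ _ _ _ _ _ L n T hn hT ψ hψ
  have hψc := hψ.smooth.continuous
  set Ψ : Sp d → (E →L[ℝ] V) := fun y =>
    thc d n 1 8 • th T ψ 1 8 y - thc d n 8 1 • th T ψ 8 1 y with hΨ
  have hc1 : Continuous fun y => thc d n 1 8 • th T ψ 1 8 y :=  by
    have := th_cont T hψ.smooth 1 8
    fun_prop
  have hc2 : Continuous fun y => thc d n 8 1 • th T ψ 8 1 y :=  by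
    have := th_cont T hψ.smooth 8 1
    fun_prop
  have hΨc : Continuous Ψ := hc1.sub hc2
  have hf1 : ∀ y : Sp d, 16 ≤ ‖y‖ → thc d n 1 8 • th T ψ 1 8 y = 0 := by
    intro y hy
    rw [th_far T hψ.smooth hψ.supp one_pos (by norm_num) (by linarith), smul_zero]
  have hf2 : ∀ y : Sp d, 16 ≤ ‖y‖ → thc d n 8 1 • th T ψ 8 1 y = 0 := by
    intro y hy
    rw [th_far T hψ.smooth hψ.supp (by norm_num) one_pos (by linarith), smul_zero]
  have hcsg : ∀ (G : Sp d → E →L[ℝ] V), (∀ y : Sp d, 16 ≤ ‖y‖ → G y = 0) →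
      HasCompactSupport G := by
    intro G hG
    refine HasCompactSupport.intro (isCompact_closedBall (0 : Sp d) 16) fun x hx => hG x ?_
    rw [mem_closedBall, dist_zero_right, not_le] at hx
    exact hx.le
  have hint : ∀ (G : Sp d → E →L[ℝ] V), Continuous G → (∀ y : Sp d, 16 ≤ ‖y‖ → G y = 0) →
      ∀ (f : Sp d → E), Continuous f → ∀ (s : ℝ) (z : Sp d),
      Integrable fun y => G y (f (z + s • y)) := by
    intro G hG hG0 f hf s z
    refine Continuous.integrable_of_hasCompactSupport ?_ ?_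
    · exact hG.clm_apply (hf.comp (by fun_prop))
    · refine HasCompactSupport.intro (isCompact_closedBall (0 : Sp d) 16) fun x hx => ?_
      rw [mem_closedBall, dist_zero_right, not_le] at hx
      rw [hG0 x hx.le]
      rfl
  refine ⟨Ψ, ⟨hψc, hψ.supp, hψ.int, hΨc, ?_, ?_, ?_⟩⟩
  · intro y hy
    rw [hΨ]
    simp only [hf1 y hy, hf2 y hy, sub_zero]
  · -- the integral vanishes
    have hi1 : Integrable (fun y => thc d n 1 8 • th T ψ 1 8 y) :=
      hc1.integrable_of_hasCompactSupport (hcsg _ hf1)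
    have hi2 : Integrable (fun y => thc d n 8 1 • th T ψ 8 1 y) :=
      hc2.integrable_of_hasCompactSupport (hcsg _ hf2)
    have key : ∀ a b : ℝ, 0 < a → 0 < b → Integrable (th T ψ a b) →
        ∫ y, th T ψ a b y = 0 := by
      intro a b ha hb hi
      ext e
      rw [ContinuousLinearMap.integral_apply hi]
      have h1 := th_int T hψ.smooth hψ.supp ha hb (f := fun _ : Sp d => e) continuous_const 1 0
      rw [h1]
      have h2 : ∀ η : Sp d, ∫ ζ : Sp d, qk T ψ ζ η e = 0 := by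
        intro η
        have h3 := qk_int T hψ.smooth hψ.supp (f := fun _ : Sp d => e) continuous_const
          one_pos 0 η
        have h4 : avk ψ 1 (fun _ : Sp d => e) = fun _ => e := by
          funext z
          unfold avk
          rw [integral_smul_const, hψ.int, one_smul]
        rw [h4, iteratedFDeriv_const_of_ne (by omega)] at h3
        simp only [Pi.zero_apply, map_zero, ContinuousMultilinearMap.zero_apply, div_one] at h3
        have h5 : ((-1 : ℝ)) ^ n ≠ 0 := pow_ne_zero _ (by norm_num)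
        exact (smul_eq_zero.mp h3.symm).resolve_left h5
      simp only [h2, smul_zero, integral_zero]
      rfl
    rw [hΨ]
    rw [integral_sub hi1 hi2, integral_smul, integral_smul, key 1 8 one_pos (by norm_num), key 8 1
      (by norm_num) one_pos]
    · simp
    · refine (th_cont T hψ.smooth 8 1).integrable_of_hasCompactSupport (hcsg _ fun y hy => ?_)
      exact th_far T hψ.smooth hψ.supp (by norm_num) one_pos (by linarith)
    · refine (th_cont T hψ.smooth 1 8).integrable_of_hasCompactSupport (hcsg _ fun y hy => ?_)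
      exact th_far T hψ.smooth hψ.supp one_pos (by norm_num) (by linarith)
  · intro u hu s hs z
    have hfc : Continuous (fo L u) := L.continuous.comp (hu.smooth.continuous_fderiv (by simp))
    have h1 := one_step hT hψ one_pos (by norm_num : (0 : ℝ) < 8) hu hs z
    have h2 := one_step hT hψ (by norm_num : (0 : ℝ) < 8) one_pos hu hs z
    rw [one_mul] at h1 h2
    have h3 := avk_comm hψc hψ.supp hu.smooth.continuous (8 * s) s z
    have h4 : avk ψ s u z - avk ψ (8 * s) u z =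
        (avk ψ s u z - avk ψ (8 * s) (avk ψ s u) z) -
        (avk ψ (8 * s) u z - avk ψ s (avk ψ (8 * s) u) z) := by
      rw [h3]
      abel
    rw [h4, h1, h2, ← smul_sub, ← integral_sub]
    · congr 1
    · exact hint _ hc1 hf1 _ hfc s z
    · exact hint _ hc2 hf2 _ hfc s z

end Final

end

end TrI
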