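import Pool.Agent.TR.Defs

/-!
# Basic facts on the averages, part 1
-/

open MeasureTheory Metric Set
open scoped InnerProductSpace ContDiff Pointwise

set_option linter.unusedSectionVars false

namespace TrI

noncomputable section

variable {d : ℕ}

/-! ## the kernel -/

lemma bk_nonneg (y : Sp d) : 0 ≤ bk d y := (bmp d).nonneg_normed y

lemma bk_contDiff : ContDiff ℝ ∞ (bk d) := (bmp d).contDiff_normed

lemma bk_cont : Continuous (bk d) := (bmp d).continuous_normed

lemma bk_int : ∫ y, bk d y = 1 := (bmp d).integral_normed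

lemma bk_integrable : Integrable (bk d) := (bmp d).integrable_normed

lemma bk_neg (y : Sp d) : bk d (-y) = bk d y := (bmp d).normed_neg y

lemma bk_zero {y : Sp d} (h : 1 ≤ ‖y‖) : bk d y = 0 := by
  have h1 : y ∉ Function.support (bk d) := by
    have : Function.support (bk d) = ball 0 (bmp d).rOut := (bmp d).support_normed_eq
    rw [this]
    simp only [mem_ball, dist_zero_right, not_lt]
    exact h
  simpa using h1

lemma bk_eq {y : Sp d} (h : ‖y‖ ≤ 9 / 10) : bk d y = bk d 0 := by
  unfold bk
  rw [ContDiffBump.normed_def, ContDiffBump.normed_def]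
  rw [(bmp d).one_of_mem_closedBall, (bmp d).one_of_mem_closedBall]
  · simp [bmp]; norm_num
  · simpa [bmp] using h

lemma bk_le (y : Sp d) : bk d y ≤ bk d 0 := by
  unfold bk
  rw [ContDiffBump.normed_def, ContDiffBump.normed_def]
  have h0 : (bmp d) 0 = 1 := (bmp d).one_of_mem_closedBall (by simp [bmp]; norm_num)
  rw [h0]
  have := (bmp d).integral_pos (μ := volume)
  gcongr
  exact (bmp d).le_one

lemma bk_zero_pos : 0 < bk d 0 := by
  unfold bk
  rw [ContDiffBump.normed_def]
  have h0 : (bmp d) 0 = 1 := (bmp d).one_of_mem_closedBall (by simp [bmp]; norm_num)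
  rw [h0]
  have := (bmp d).integral_pos (μ := volume)
  positivity

lemma sc_pos {s0 : ℝ} (h : 0 < s0) (j : ℕ) : 0 < sc s0 j := by
  unfold sc; positivity

lemma sc_succ (s0 : ℝ) (j : ℕ) : sc s0 (j + 1) = 8 * sc s0 j := by
  unfold sc; ring

lemma sc_add (s0 : ℝ) (j k : ℕ) : sc s0 (j + k) = 8 ^ k * sc s0 j := by
  unfold sc; ring

section LBfacts

variable {F : Type*} [NormedAddCommGroup F] [NormedSpace ℝ F] {g h : Sp d → F}

lemma LB.of_cont (hg : Continuous g) : LB g where
  meas := hg.stronglyMeasurable
  bd := by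
    intro R
    obtain ⟨M, hM⟩ := (isCompact_closedBall (0 : Sp d) R).exists_bound_of_continuousOn
      hg.continuousOn
    exact ⟨M, fun x hx => hM x (by simpa using hx)⟩

lemma LB.of_bdd (hm : StronglyMeasurable g) {M : ℝ} (hb : ∀ x, ‖g x‖ ≤ M) : LB g where
  meas := hm
  bd := fun _ => ⟨M, fun x _ => hb x⟩

lemma LB.add (hg : LB g) (hh : LB h) : LB (fun x => g x + h x) where
  meas := hg.meas.add hh.meas
  bd := by
    intro R
    obtain ⟨M, hM⟩ := hg.bd R
    obtain ⟨M', hM'⟩ := hh.bd R
    exact ⟨M + M', fun x hx => (norm_add_le _ _).trans (add_le_add (hM x hx) (hM' x hx))⟩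

lemma LB.sub (hg : LB g) (hh : LB h) : LB (fun x => g x - h x) where
  meas := hg.meas.sub hh.meas
  bd := by
    intro R
    obtain ⟨M, hM⟩ := hg.bd R
    obtain ⟨M', hM'⟩ := hh.bd R
    exact ⟨M + M', fun x hx => (norm_sub_le _ _).trans (add_le_add (hM x hx) (hM' x hx))⟩

lemma LB.neg (hg : LB g) : LB (fun x => - g x) where
  meas := hg.meas.neg
  bd := by
    intro R
    obtain ⟨M, hM⟩ := hg.bd R
    exact ⟨M, fun x hx => by simpa using hM x hx⟩

lemma LB.smul {c : Sp d → ℝ} (hc : LB c) (hg : LB g) : LB (fun x => c x • g x) where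
  meas := hc.meas.smul hg.meas
  bd := by
    intro R
    obtain ⟨M, hM⟩ := hc.bd R
    obtain ⟨M', hM'⟩ := hg.bd R
    refine ⟨|M| * |M'|, fun x hx => ?_⟩
    rw [norm_smul]
    exact mul_le_mul ((hM x hx).trans (le_abs_self M)) ((hM' x hx).trans (le_abs_self M'))
      (norm_nonneg _) (abs_nonneg _)

lemma LB.const_mul {g : Sp d → ℝ} (hg : LB g) (c : ℝ) : LB (fun x => c * g x) where
  meas := hg.meas.const_mul c
  bd := by
    intro R
    obtain ⟨M, hM⟩ := hg.bd R
    refine ⟨|c| * M, fun x hx => ?_⟩
    rw [norm_mul]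
    exact mul_le_mul_of_nonneg_left (hM x hx) (abs_nonneg _)

lemma LB.norm (hg : LB g) : LB (fun x => ‖g x‖) where
  meas := hg.meas.norm
  bd := by
    intro R
    obtain ⟨M, hM⟩ := hg.bd R
    exact ⟨M, fun x hx => by simpa using hM x hx⟩

lemma LB.comp_add (hg : LB g) (a : Sp d) : LB (fun x => g (x + a)) where
  meas := hg.meas.comp_measurable (by fun_prop)
  bd := by
    intro R
    obtain ⟨M, hM⟩ := hg.bd (R + ‖a‖)
    exact ⟨M, fun x hx => hM _ ((norm_add_le _ _).trans (by linarith))⟩

lemma LB.comp_smul (hg : LB g) (x : Sp d) (s : ℝ) : LB (fun y => g (x + s • y)) where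
  meas := hg.meas.comp_measurable (by fun_prop)
  bd := by
    intro R
    obtain ⟨M, hM⟩ := hg.bd (‖x‖ + |s| * |R|)
    refine ⟨M, fun y hy => hM _ ((norm_add_le _ _).trans ?_)⟩
    rw [norm_smul, Real.norm_eq_abs]
    have : ‖y‖ ≤ |R| := hy.trans (le_abs_self R)
    gcongr

lemma LB.indicator (hg : LB g) {S : Set (Sp d)} (hS : MeasurableSet S) : LB (S.indicator g) where
  meas := hg.meas.indicator hS
  bd := by
    intro R
    obtain ⟨M, hM⟩ := hg.bd R
    refine ⟨M, fun x hx => ?_⟩
    exact (norm_indicator_le_norm_self _ _).trans (hM x hx)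

lemma LB.zero : LB (fun _ : Sp d => (0 : F)) := LB.of_cont continuous_const

lemma LB.sum {ι : Type*} (s : Finset ι) {G : ι → Sp d → F} (hG : ∀ i ∈ s, LB (G i)) :
    LB (fun x => ∑ i ∈ s, G i x) := by
  classical
  induction s using Finset.induction_on with
  | empty => simpa using LB.zero
  | insert i s hi ih =>
    simp only [Finset.sum_insert hi]
    exact (hG i (Finset.mem_insert_self i s)).add
      (ih fun j hj => hG j (Finset.mem_insert_of_mem hj))

lemma LB.integrableOn (hg : LB g) {S : Set (Sp d)} (hS : Bornology.IsBounded S) :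
    IntegrableOn g S := by
  obtain ⟨R, hR⟩ := hS.subset_closedBall 0
  obtain ⟨M, hM⟩ := hg.bd R
  have h1 : IntegrableOn g (closedBall 0 R) := by
    refine Measure.integrableOn_of_bounded (M := M) ?_ hg.meas.aestronglyMeasurable ?_
    · exact measure_closedBall_lt_top.ne
    · filter_upwards [ae_restrict_mem measurableSet_closedBall] with x hx
      exact hM x (by simpa using hx)
  exact h1.mono_set hR

/-- integrability against a continuous compactly supported function -/
lemma LB.integrable_smul (hg : LB g) {ψ : Sp d → ℝ} (hψ : Continuous ψ) {R : ℝ}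
    (hR : ∀ y, R ≤ ‖y‖ → ψ y = 0) : Integrable (fun y => ψ y • g y) := by
  have h1 : IntegrableOn (fun y => ψ y • g y) (ball 0 R) :=
    ((LB.of_cont hψ).smul hg).integrableOn isBounded_ball
  rw [← integrableOn_univ]
  refine h1.of_forall_sdiff_eq_zero MeasurableSet.univ ?_
  intro x hx
  rw [hR x (by simpa using hx), zero_smul]

lemma LB.av_integrable (hg : LB g) (s : ℝ) (x : Sp d) :
    Integrable (fun y => bk d y • g (x + s • y)) :=
  (hg.comp_smul x s).integrable_smul bk_cont (R := 1) fun _ hy => bk_zero hy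

lemma LB.inner_const {E : Type*} [NormedAddCommGroup E] [InnerProductSpace ℝ E] {g : Sp d → E}
    (hg : LB g) (e : E) : LB (fun x => ⟪g x, e⟫_ℝ) where
  meas := by
    have : Continuous fun v : E => ⟪v, e⟫_ℝ := by fun_prop
    exact this.comp_stronglyMeasurable hg.meas
  bd := by
    intro R
    obtain ⟨M, hM⟩ := hg.bd R
    refine ⟨M * ‖e‖, fun x hx => ?_⟩
    exact (norm_inner_le_norm _ _).trans (mul_le_mul_of_nonneg_right (hM x hx) (norm_nonneg _))

/-! ## one average -/

lemma av_def (s : ℝ) (g : Sp d → F) (x : Sp d) : av s g x = ∫ y, bk d y • g (x + s • y) := rfl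

lemma av_zero_scale [CompleteSpace F] (g : Sp d → F) (x : Sp d) : av 0 g x = g x := by
  rw [av_def]
  simp only [zero_smul, add_zero]
  rw [integral_smul_const, bk_int, one_smul]

/-- bound of an average by a bound of g near x -/
lemma norm_av_le_of_bound {g : Sp d → F} {s : ℝ} {x : Sp d} {M : ℝ}
    (hM : ∀ z, ‖z - x‖ ≤ |s| → ‖g z‖ ≤ M) : ‖av s g x‖ ≤ M := by
  have hM0 : 0 ≤ M := (norm_nonneg _).trans (hM x (by simp))
  have h1 : ‖av s g x‖ ≤ ∫ y, bk d y * M := by
    refine norm_integral_le_of_norm_le (bk_integrable.mul_const M) ?_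
    refine Filter.Eventually.of_forall fun y => ?_
    rw [norm_smul, Real.norm_eq_abs, abs_of_nonneg (bk_nonneg y)]
    by_cases hy : 1 ≤ ‖y‖
    · rw [bk_zero hy]; simp
    · refine mul_le_mul_of_nonneg_left (hM _ ?_) (bk_nonneg y)
      rw [add_sub_cancel_left, norm_smul, Real.norm_eq_abs]
      push Not at hy
      nlinarith [abs_nonneg s, norm_nonneg y]
  rwa [integral_mul_const, bk_int, one_mul] at h1

lemma LB.av (hg : LB g) (s : ℝ) : LB (av s g) where
  meas := by
    have h2 : StronglyMeasurable (Function.uncurry fun (x y : Sp d) => bk d y • g (x + s • y)) := by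
      refine StronglyMeasurable.smul (f := fun p : Sp d × Sp d => bk d p.2) ?_ ?_
      · exact (bk_cont.comp continuous_snd).stronglyMeasurable
      · exact hg.meas.comp_measurable
          (show Measurable fun p : Sp d × Sp d => p.1 + s • p.2 by fun_prop)
    exact h2.integral_prod_right
  bd := by
    intro R
    obtain ⟨M, hM⟩ := hg.bd (R + |s|)
    refine ⟨M, fun x hx => norm_av_le_of_bound fun z hz => hM z ?_⟩
    have : ‖z‖ ≤ ‖x‖ + ‖z - x‖ := by
      have := norm_add_le x (z - x)
      rwa [add_sub_cancel] at this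
    linarith

lemma av_cs (hg : HasCompactSupport g) (s : ℝ) : HasCompactSupport (av s g) := by
  obtain ⟨R, hR⟩ := hg.isCompact.isBounded.subset_closedBall (0 : Sp d)
  refine HasCompactSupport.of_support_subset_isCompact (isCompact_closedBall (0 : Sp d) (R + |s|)) ?_
  intro x hx
  by_contra hx'
  apply hx
  have h1 : ‖av s g x‖ ≤ 0 := by
    refine norm_av_le_of_bound fun z hz => ?_
    have : g z = 0 := by
      by_contra hz'
      have h2 : z ∈ closedBall (0 : Sp d) R := hR (subset_tsupport _ hz')
      rw [mem_closedBall, dist_zero_right] at h2 hx'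
      have : ‖x‖ ≤ ‖z‖ + ‖z - x‖ := by
        have := norm_sub_le z (z - x)
        rwa [sub_sub_cancel] at this
      linarith
    simp [this]
  simpa using h1

lemma av_eq_setIntegral (s : ℝ) (g : Sp d → F) (x : Sp d) :
    av s g x = ∫ y in closedBall (0 : Sp d) 1, bk d y • g (x + s • y) := by
  rw [av_def, setIntegral_eq_integral_of_forall_compl_eq_zero]
  intro y hy
  rw [bk_zero, zero_smul]
  simp only [mem_closedBall, dist_zero_right, not_le] at hy
  exact hy.le

lemma av_cont (hg : Continuous g) (s : ℝ) : Continuous (av s g) := by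
  have h2 : Continuous (Function.uncurry fun (x y : Sp d) => bk d y • g (x + s • y)) := by
    refine Continuous.smul (bk_cont.comp continuous_snd) (hg.comp ?_)
    fun_prop
  have h3 := continuous_parametric_integral_of_continuous (μ := volume) h2
    (isCompact_closedBall (0 : Sp d) 1)
  refine h3.congr fun x => ?_
  exact (av_eq_setIntegral s g x).symm

lemma av_add (hg : LB g) (hh : LB h) (s : ℝ) (x : Sp d) :
    av s (fun z => g z + h z) x = av s g x + av s h x := by
  simp only [av_def, smul_add]
  exact integral_add (hg.av_integrable s x) (hh.av_integrable s x)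

lemma av_sub (hg : LB g) (hh : LB h) (s : ℝ) (x : Sp d) :
    av s (fun z => g z - h z) x = av s g x - av s h x := by
  simp only [av_def, smul_sub]
  exact integral_sub (hg.av_integrable s x) (hh.av_integrable s x)

lemma av_smul (c : ℝ) (s : ℝ) (x : Sp d) : av s (fun z => c • g z) x = c • av s g x := by
  simp only [av_def]
  rw [← integral_smul]
  congr 1
  ext y
  rw [smul_comm]

lemma av_mul (c : ℝ) (g : Sp d → ℝ) (s : ℝ) (x : Sp d) :
    av s (fun z => c * g z) x = c * av s g x := av_smul c s x

lemma av_sum {ι : Type*} (S : Finset ι) {G : ι → Sp d → F} (hG : ∀ i ∈ S, LB (G i)) (s : ℝ)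
    (x : Sp d) : av s (fun z => ∑ i ∈ S, G i z) x = ∑ i ∈ S, av s (G i) x := by
  simp only [av_def, Finset.smul_sum]
  exact integral_finsetSum S fun i hi => (hG i hi).av_integrable s x

lemma av_const [CompleteSpace F] (c : F) (s : ℝ) (x : Sp d) : av s (fun _ => c) x = c := by
  rw [av_def, integral_smul_const, bk_int, one_smul]

lemma av_nonneg {g : Sp d → ℝ} (hg : ∀ z, 0 ≤ g z) (s : ℝ) (x : Sp d) : 0 ≤ av s g x :=
  integral_nonneg fun y => mul_nonneg (bk_nonneg y) (hg _)

lemma av_mono {g h : Sp d → ℝ} (hg : LB g) (hh : LB h) (hgh : ∀ z, g z ≤ h z) (s : ℝ)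
    (x : Sp d) : av s g x ≤ av s h x :=
  integral_mono (hg.av_integrable s x) (hh.av_integrable s x)
    fun y => mul_le_mul_of_nonneg_left (hgh _) (bk_nonneg y)

lemma av_le_of_le {g : Sp d → ℝ} (hg : LB g) {M : ℝ} (hM : ∀ z, g z ≤ M) (s : ℝ) (x : Sp d) :
    av s g x ≤ M :=
  (av_mono hg (LB.of_cont continuous_const) hM s x).trans (av_const M s x).le

lemma norm_av_le (g : Sp d → F) (s : ℝ) (x : Sp d) : ‖av s g x‖ ≤ av s (fun z => ‖g z‖) x := by
  refine (norm_integral_le_integral_norm _).trans (le_of_eq ?_)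
  rw [av_def]
  congr 1
  ext y
  rw [norm_smul, Real.norm_eq_abs, abs_of_nonneg (bk_nonneg y), smul_eq_mul]

lemma av_inner {E : Type*} [NormedAddCommGroup E] [InnerProductSpace ℝ E] [CompleteSpace E]
    {g : Sp d → E} (hg : LB g) (e : E) (s : ℝ) (x : Sp d) :
    av s (fun z => ⟪g z, e⟫_ℝ) x = ⟪av s g x, e⟫_ℝ := by
  simp only [av_def]
  rw [real_inner_comm, ← integral_inner (hg.av_integrable s x) e]
  congr 1
  ext y
  rw [inner_smul_right, real_inner_comm, smul_eq_mul]

lemma LB.prod_integrable (hg : LB g) (s t : ℝ) (x : Sp d) :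
    Integrable (Function.uncurry fun (y z : Sp d) => bk d y • bk d z • g (x + s • y + t • z))
      (volume.prod volume) := by
  obtain ⟨M, hM⟩ := hg.bd (‖x‖ + |s| + |t|)
  have hi : Integrable (fun p : Sp d × Sp d => bk d p.1 * bk d p.2 * |M|)
      (volume.prod volume) := (bk_integrable.mul_prod bk_integrable).mul_const _
  refine hi.mono' ?_ ?_
  · refine StronglyMeasurable.aestronglyMeasurable ?_
    refine StronglyMeasurable.smul (f := fun p : Sp d × Sp d => bk d p.1) ?_ ?_
    · exact (bk_cont.comp continuous_fst).stronglyMeasurable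
    · refine StronglyMeasurable.smul (f := fun p : Sp d × Sp d => bk d p.2) ?_ ?_
      · exact (bk_cont.comp continuous_snd).stronglyMeasurable
      · exact hg.meas.comp_measurable
          (show Measurable fun p : Sp d × Sp d => x + s • p.1 + t • p.2 by fun_prop)
  · refine Filter.Eventually.of_forall fun p => ?_
    obtain ⟨y, z⟩ := p
    simp only [Function.uncurry_apply_pair]
    rw [norm_smul, norm_smul, Real.norm_eq_abs, Real.norm_eq_abs, abs_of_nonneg (bk_nonneg y),
      abs_of_nonneg (bk_nonneg z), ← mul_assoc]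
    by_cases hy : 1 ≤ ‖y‖
    · simp [bk_zero hy]
    by_cases hz : 1 ≤ ‖z‖
    · simp [bk_zero hz]
    push Not at hy hz
    refine mul_le_mul_of_nonneg_left ((hM _ ?_).trans (le_abs_self M))
      (mul_nonneg (bk_nonneg y) (bk_nonneg z))
    refine (norm_add_le _ _).trans ?_
    have h1 : ‖x + s • y‖ ≤ ‖x‖ + |s| * ‖y‖ := (norm_add_le _ _).trans (by
      rw [norm_smul, Real.norm_eq_abs])
    have h2 : ‖t • z‖ = |t| * ‖z‖ := by rw [norm_smul, Real.norm_eq_abs]
    nlinarith [abs_nonneg s, abs_nonneg t, norm_nonneg y, norm_nonneg z]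

/-- averages commute -/
lemma av_comm (hg : LB g) (s t : ℝ) : av s (av t g) = av t (av s g) := by
  ext x
  simp only [av_def, ← integral_smul]
  rw [integral_integral_swap (hg.prod_integrable s t x)]
  congr 1
  ext z
  congr 1
  ext y
  rw [smul_comm, add_right_comm]

lemma shear_integrable (hg : Integrable g) (hg' : LB g) (s : ℝ) :
    Integrable (Function.uncurry fun (x y : Sp d) => bk d y • g (x + s • y))
      (volume.prod volume) := by
  have hm : StronglyMeasurable (Function.uncurry fun (x y : Sp d) =>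
      bk d y • g (x + s • y)) := by
    refine StronglyMeasurable.smul (f := fun p : Sp d × Sp d => bk d p.2) ?_ ?_
    · exact (bk_cont.comp continuous_snd).stronglyMeasurable
    · exact hg'.meas.comp_measurable
        (show Measurable fun p : Sp d × Sp d => p.1 + s • p.2 by fun_prop)
  rw [integrable_prod_iff' hm.aestronglyMeasurable]
  constructor
  · refine Filter.Eventually.of_forall fun y => ?_
    simp only [Function.uncurry_apply_pair]
    exact (hg.comp_add_right (s • y)).smul (bk d y)
  · simp only [Function.uncurry_apply_pair, norm_smul]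
    have h3 : (fun y : Sp d => ∫ x, ‖bk d y‖ * ‖g (x + s • y)‖) =
        fun y => ‖bk d y‖ * ∫ x, ‖g x‖ := by
      ext y
      rw [integral_const_mul]
      congr 1
      exact integral_add_right_eq_self (μ := volume) (fun x => ‖g x‖) (s • y)
    rw [h3]
    exact bk_integrable.norm.mul_const _

/-- averages preserve integrals -/
lemma av_int [CompleteSpace F] (hg : Integrable g) (hg' : LB g) (s : ℝ) :
    ∫ x, av s g x = ∫ x, g x := by
  simp only [av_def]
  rw [integral_integral_swap (shear_integrable hg hg' s)]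
  simp only [integral_smul]
  have h3 : (fun y : Sp d => bk d y • ∫ x, g (x + s • y)) = fun y => bk d y • ∫ x, g x := by
    ext y
    congr 1
    exact integral_add_right_eq_self (μ := volume) g (s • y)
  rw [h3, integral_smul_const, bk_int, one_smul]

lemma av_integrable (hg : Integrable g) (hg' : LB g) (s : ℝ) : Integrable (av s g) :=
  (shear_integrable hg hg' s).integral_prod_left

lemma LB.integrable (hg : LB g) (hc : HasCompactSupport g) : Integrable g := by
  obtain ⟨R, hR⟩ := hc.isCompact.isBounded.subset_closedBall (0 : Sp d)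
  have h1 : IntegrableOn g (closedBall 0 R) := hg.integrableOn isBounded_closedBall
  rw [← integrableOn_univ]
  refine h1.of_forall_sdiff_eq_zero MeasurableSet.univ ?_
  intro x hx
  by_contra hx'
  exact hx.2 (hR (subset_tsupport _ hx'))

/-- averages are self adjoint -/
lemma av_adj_inner {E : Type*} [NormedAddCommGroup E] [InnerProductSpace ℝ E] [CompleteSpace E]
    {g h : Sp d → E} (hg : LB g) (hh : LB h) (hi : HasCompactSupport h) (s : ℝ) :
    ∫ x, ⟪av s g x, h x⟫_ℝ = ∫ x, ⟪g x, av s h x⟫_ℝ := by
  obtain ⟨R, hR⟩ := hi.isCompact.isBounded.subset_closedBall (0 : Sp d)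
  have hR' : ∀ z, h z ≠ 0 → ‖z‖ ≤ R := fun z hz => by
    simpa using hR (subset_tsupport _ hz)
  obtain ⟨M, hM⟩ := hg.bd (R + |s|)
  have hhi : Integrable h := hh.integrable hi
  have hinner : Continuous (fun p : E × E => ⟪p.1, p.2⟫_ℝ) := by fun_prop
  have hb : ∀ (z y : Sp d), ‖y‖ < 1 → ‖s • y‖ ≤ |s| := by
    intro z y hy
    rw [norm_smul, Real.norm_eq_abs]
    nlinarith [abs_nonneg s, norm_nonneg y]
  -- first product integrability
  have hI1 : Integrable (Function.uncurry fun (x y : Sp d) => bk d y * ⟪g (x + s • y), h x⟫_ℝ)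
      (volume.prod volume) := by
    have hi0 : Integrable (fun p : Sp d × Sp d => ‖h p.1‖ * bk d p.2 * |M|)
        (volume.prod volume) := (hhi.norm.mul_prod bk_integrable).mul_const _
    refine hi0.mono' ?_ ?_
    · refine StronglyMeasurable.aestronglyMeasurable ?_
      refine StronglyMeasurable.mul (f := fun p : Sp d × Sp d => bk d p.2) ?_ ?_
      · exact (bk_cont.comp continuous_snd).stronglyMeasurable
      · refine hinner.comp_stronglyMeasurable (StronglyMeasurable.prodMk ?_ ?_)
        · exact hg.meas.comp_measurable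
            (show Measurable fun p : Sp d × Sp d => p.1 + s • p.2 by fun_prop)
        · exact hh.meas.comp_measurable measurable_fst
    · refine Filter.Eventually.of_forall fun p => ?_
      obtain ⟨x, y⟩ := p
      simp only [Function.uncurry_apply_pair]
      rw [norm_mul, Real.norm_eq_abs, abs_of_nonneg (bk_nonneg y)]
      by_cases hy : 1 ≤ ‖y‖
      · simp [bk_zero hy]
      by_cases hx : h x = 0
      · simp [hx]
      push Not at hy
      have h1 : ‖g (x + s • y)‖ ≤ |M| := by
        refine (hM _ ?_).trans (le_abs_self M)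
        exact (norm_add_le _ _).trans (add_le_add (hR' x hx) (hb x y hy))
      have h2 : ‖⟪g (x + s • y), h x⟫_ℝ‖ ≤ |M| * ‖h x‖ :=
        (norm_inner_le_norm _ _).trans (mul_le_mul_of_nonneg_right h1 (norm_nonneg _))
      calc bk d y * ‖⟪g (x + s • y), h x⟫_ℝ‖ ≤ bk d y * (|M| * ‖h x‖) :=
            mul_le_mul_of_nonneg_left h2 (bk_nonneg y)
        _ = ‖h x‖ * bk d y * |M| := by ring
  -- second product integrability
  have hI2 : Integrable (Function.uncurry fun (x y : Sp d) => bk d y * ⟪g x, h (x + s • y)⟫_ℝ)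
      (volume.prod volume) := by
    have hi0 : Integrable (fun p : Sp d × Sp d => (bk d p.2 • ‖h (p.1 + s • p.2)‖) * |M|)
        (volume.prod volume) := (shear_integrable hhi.norm hh.norm s).mul_const _
    refine hi0.mono' ?_ ?_
    · refine StronglyMeasurable.aestronglyMeasurable ?_
      refine StronglyMeasurable.mul (f := fun p : Sp d × Sp d => bk d p.2) ?_ ?_
      · exact (bk_cont.comp continuous_snd).stronglyMeasurable
      · refine hinner.comp_stronglyMeasurable (StronglyMeasurable.prodMk ?_ ?_)
        · exact hg.meas.comp_measurable measurable_fst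
        · exact hh.meas.comp_measurable
            (show Measurable fun p : Sp d × Sp d => p.1 + s • p.2 by fun_prop)
    · refine Filter.Eventually.of_forall fun p => ?_
      obtain ⟨x, y⟩ := p
      simp only [Function.uncurry_apply_pair]
      rw [norm_mul, Real.norm_eq_abs, abs_of_nonneg (bk_nonneg y)]
      by_cases hy : 1 ≤ ‖y‖
      · simp [bk_zero hy]
      by_cases hx : h (x + s • y) = 0
      · simp [hx]
      push Not at hy
      have h1 : ‖g x‖ ≤ |M| := by
        refine (hM _ ?_).trans (le_abs_self M)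
        have h3 : ‖x‖ ≤ ‖x + s • y‖ + ‖s • y‖ := by
          have := norm_sub_le (x + s • y) (s • y)
          rwa [add_sub_cancel_right] at this
        exact h3.trans (add_le_add (hR' _ hx) (hb x y hy))
      have h2 : ‖⟪g x, h (x + s • y)⟫_ℝ‖ ≤ |M| * ‖h (x + s • y)‖ :=
        (norm_inner_le_norm _ _).trans (mul_le_mul_of_nonneg_right h1 (norm_nonneg _))
      calc bk d y * ‖⟪g x, h (x + s • y)⟫_ℝ‖ ≤ bk d y * (|M| * ‖h (x + s • y)‖) :=
            mul_le_mul_of_nonneg_left h2 (bk_nonneg y)
        _ = bk d y • ‖h (x + s • y)‖ * |M| := by rw [smul_eq_mul]; ring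
  have e1 : ∀ x, ⟪av s g x, h x⟫_ℝ = ∫ y, bk d y * ⟪g (x + s • y), h x⟫_ℝ := by
    intro x
    rw [← av_inner hg (h x) s x, av_def]
    simp only [smul_eq_mul]
  have e2 : ∀ x, ⟪g x, av s h x⟫_ℝ = ∫ y, bk d y * ⟪g x, h (x + s • y)⟫_ℝ := by
    intro x
    rw [real_inner_comm, ← av_inner hh (g x) s x, av_def]
    simp only [smul_eq_mul]
    congr 1
    ext y
    rw [real_inner_comm]
  simp only [e1, e2]
  rw [integral_integral_swap hI1, integral_integral_swap hI2]
  have e3 : ∀ y : Sp d, ∫ x, bk d y * ⟪g (x + s • y), h x⟫_ℝ =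
      ∫ x, bk d (-y) * ⟪g x, h (x + s • (-y))⟫_ℝ := by
    intro y
    rw [integral_const_mul, integral_const_mul, bk_neg]
    congr 1
    rw [← integral_add_right_eq_self (μ := volume) (fun x => ⟪g (x + s • y), h x⟫_ℝ) (-(s • y))]
    congr 1
    ext x
    rw [smul_neg, neg_add_cancel_right]
  simp only [e3]
  exact integral_neg_eq_self (fun y : Sp d => ∫ x, bk d y * ⟪g x, h (x + s • y)⟫_ℝ) volume

lemma av_adj {g h : Sp d → ℝ} (hg : LB g) (hh : LB h) (hi : HasCompactSupport h) (s : ℝ) :
    ∫ x, av s g x * h x = ∫ x, g x * av s h x := by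
  have := av_adj_inner hg hh hi s
  simp only [RCLike.inner_apply, conj_trivial] at this
  simpa only [mul_comm] using this

lemma setIntegral_ball_add (g : Sp d → F) (a q : Sp d) (r : ℝ) :
    ∫ x in ball q r, g (x + a) = ∫ z in ball (q + a) r, g z := by
  have h1 := (measurePreserving_add_right (volume : Measure (Sp d)) a).setIntegral_preimage_emb
    (measurableEmbedding_addRight a) g (ball (q + a) r)
  rw [← h1]
  congr 2
  ext x
  simp

lemma shear_integrableOn (hg : LB g) (s : ℝ) (q : Sp d) (r : ℝ) :
    Integrable (Function.uncurry fun (x y : Sp d) => bk d y • g (x + s • y))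
      ((volume.restrict (ball q r)).prod volume) := by
  obtain ⟨M, hM⟩ := hg.bd (‖q‖ + r + |s|)
  have : IsFiniteMeasure (volume.restrict (ball q r)) := ⟨by
    rw [Measure.restrict_apply_univ]; exact measure_ball_lt_top⟩
  have hi : Integrable (fun p : Sp d × Sp d => (1 : ℝ) * bk d p.2 * |M|)
      ((volume.restrict (ball q r)).prod volume) :=
    ((integrable_const (1 : ℝ)).mul_prod bk_integrable).mul_const _
  refine hi.mono' ?_ ?_
  · refine StronglyMeasurable.aestronglyMeasurable ?_
    refine StronglyMeasurable.smul (f := fun p : Sp d × Sp d => bk d p.2) ?_ ?_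
    · exact (bk_cont.comp continuous_snd).stronglyMeasurable
    · exact hg.meas.comp_measurable
        (show Measurable fun p : Sp d × Sp d => p.1 + s • p.2 by fun_prop)
  · have h1 : ∀ᵐ p ∂((volume.restrict (ball q r)).prod (volume : Measure (Sp d))),
        p.1 ∈ ball q r := by
      have := (Measure.quasiMeasurePreserving_fst (μ := volume.restrict (ball q r))
        (ν := (volume : Measure (Sp d)))).ae (ae_restrict_mem measurableSet_ball)
      exact this
    filter_upwards [h1] with p hp
    obtain ⟨x, y⟩ := p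
    simp only [Function.uncurry_apply_pair]
    rw [norm_smul, Real.norm_eq_abs, abs_of_nonneg (bk_nonneg y), one_mul]
    by_cases hy : 1 ≤ ‖y‖
    · simp [bk_zero hy]
    push Not at hy
    refine mul_le_mul_of_nonneg_left ((hM _ ?_).trans (le_abs_self M)) (bk_nonneg y)
    refine (norm_add_le _ _).trans ?_
    have h3 : ‖s • y‖ ≤ |s| := by
      rw [norm_smul, Real.norm_eq_abs]
      nlinarith [abs_nonneg s, norm_nonneg y]
    have h4 : ‖x‖ ≤ ‖q‖ + r := by
      have h5 : ‖x - q‖ < r := by simpa [dist_eq_norm] using hp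
      have := norm_add_le q (x - q)
      rw [add_sub_cancel] at this
      linarith
    linarith

lemma int_ball_av_ge {g : Sp d → ℝ} (hg : LB g) (h0 : ∀ z, 0 ≤ g z) {s : ℝ} (hs : 0 ≤ s)
    (q : Sp d) (r : ℝ) : ∫ z in ball q r, g z ≤ ∫ z in ball q (r + s), av s g z := by
  simp only [av_def]
  have hI := shear_integrableOn hg s q (r + s)
  rw [integral_integral_swap hI]
  have h1 : ∀ y : Sp d, bk d y * ∫ z in ball q r, g z ≤
      ∫ x in ball q (r + s), bk d y • g (x + s • y) := by
    intro y
    rw [integral_smul, setIntegral_ball_add, smul_eq_mul]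
    by_cases hy : 1 ≤ ‖y‖
    · simp [bk_zero hy]
    push Not at hy
    refine mul_le_mul_of_nonneg_left ?_ (bk_nonneg y)
    refine setIntegral_mono_set (hg.integrableOn isBounded_ball)
      (Filter.Eventually.of_forall fun z => h0 z) (Filter.Eventually.of_forall ?_)
    intro z hz
    change z ∈ ball q r at hz
    change z ∈ ball (q + s • y) (r + s)
    rw [mem_ball, dist_eq_norm] at hz ⊢
    have h3 : ‖s • y‖ ≤ s := by
      rw [norm_smul, Real.norm_eq_abs, abs_of_nonneg hs]
      nlinarith [norm_nonneg y]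
    have h4 : ‖z - (q + s • y)‖ ≤ ‖z - q‖ + ‖s • y‖ := by
      rw [← sub_sub]; exact norm_sub_le _ _
    linarith
  calc ∫ z in ball q r, g z = ∫ y, bk d y * ∫ z in ball q r, g z := by
        rw [integral_mul_const, bk_int, one_mul]
    _ ≤ _ := integral_mono (bk_integrable.mul_const _) hI.integral_prod_right h1

lemma int_ball_av_le {g : Sp d → ℝ} (hg : LB g) (h0 : ∀ z, 0 ≤ g z) {s : ℝ} (hs : 0 ≤ s)
    (q : Sp d) (r : ℝ) : ∫ z in ball q r, av s g z ≤ ∫ z in ball q (r + s), g z := by
  simp only [av_def]
  have hI := shear_integrableOn hg s q r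
  rw [integral_integral_swap hI]
  have h1 : ∀ y : Sp d, ∫ x in ball q r, bk d y • g (x + s • y) ≤
      bk d y * ∫ z in ball q (r + s), g z := by
    intro y
    rw [integral_smul, setIntegral_ball_add, smul_eq_mul]
    by_cases hy : 1 ≤ ‖y‖
    · simp [bk_zero hy]
    push Not at hy
    refine mul_le_mul_of_nonneg_left ?_ (bk_nonneg y)
    refine setIntegral_mono_set (hg.integrableOn isBounded_ball)
      (Filter.Eventually.of_forall fun z => h0 z) (Filter.Eventually.of_forall ?_)
    intro z hz
    change z ∈ ball (q + s • y) r at hz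
    change z ∈ ball q (r + s)
    rw [mem_ball, dist_eq_norm] at hz ⊢
    have h3 : ‖s • y‖ ≤ s := by
      rw [norm_smul, Real.norm_eq_abs, abs_of_nonneg hs]
      nlinarith [norm_nonneg y]
    have h4 : ‖z - q‖ ≤ ‖z - (q + s • y)‖ + ‖s • y‖ := by
      have := norm_add_le (z - (q + s • y)) (s • y)
      rwa [show z - (q + s • y) + s • y = z - q by abel] at this
    linarith
  calc _ ≤ ∫ y, bk d y * ∫ z in ball q (r + s), g z :=
        integral_mono hI.integral_prod_right (bk_integrable.mul_const _) h1
    _ = _ := by rw [integral_mul_const, bk_int, one_mul]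

/-- change of variables in a ball -/
lemma int_ball_scale (g : Sp d → F) {t : ℝ} (ht : 0 < t) (x q : Sp d) (r : ℝ) :
    ∫ y in ball q r, g (x + t • y) = (t ^ d)⁻¹ • ∫ z in ball (x + t • q) (t * r), g z := by
  have h1 := Measure.setIntegral_comp_smul_of_pos (volume : Measure (Sp d))
    (fun z => g (x + z)) (ball q r) ht
  rw [h1, finrank_euclideanSpace_fin]
  congr 1
  have h2 : t • ball q r = ball (t • q) (t * r) := by
    rw [_root_.smul_ball ht.ne', Real.norm_eq_abs, abs_of_pos ht]
  rw [h2]
  have h3 := setIntegral_ball_add g x (t • q) (t * r)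
  rw [add_comm x (t • q), ← h3]
  simp only [add_comm x]

end LBfacts

end

end TrI
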