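import Pool.Agent.TR.Stmts2
import Pool.Agent.TR.Basic1

/-!
# Module VK: kernels with vanishing moments
-/

open MeasureTheory Metric Set
open scoped InnerProductSpace ContDiff

namespace TrI

noncomputable section

namespace VK

variable {d : ℕ}

/-- the rescaled kernel -/
def rb (d : ℕ) (t : ℝ) (y : Sp d) : ℝ := (t⁻¹) ^ d * bk d (t⁻¹ • y)

theorem rb_smooth (t : ℝ) : ContDiff ℝ ∞ (rb d t) := by
  unfold rb
  exact contDiff_const.mul (bk_contDiff.comp (contDiff_const_smul (t⁻¹)))

theorem rb_zero {t : ℝ} (h0 : 0 < t) (h1 : t ≤ 1) {y : Sp d} (hy : 1 ≤ ‖y‖) : rb d t y = 0 := by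
  unfold rb
  rw [bk_zero, mul_zero]
  rw [norm_smul, Real.norm_eq_abs, abs_of_pos (inv_pos.mpr h0)]
  have : 1 ≤ t⁻¹ := (one_le_inv₀ h0).mpr h1
  nlinarith

theorem rb_integrable {t : ℝ} (h0 : 0 < t) (h1 : t ≤ 1) (g : Sp d → ℝ) (hg : Continuous g) :
    Integrable fun y => rb d t y * g y := by
  apply Continuous.integrable_of_hasCompactSupport
  · exact (rb_smooth t).continuous.mul hg
  · refine HasCompactSupport.intro (isCompact_closedBall (0 : Sp d) 1) fun y hy => ?_
    rw [mem_closedBall, dist_zero_right, not_le] at hy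
    rw [rb_zero h0 h1 hy.le, zero_mul]

/-- homogeneous moments scale -/
theorem rb_moment {t : ℝ} (h0 : 0 < t) (m : ℕ) (g : Sp d → ℝ)
    (hg : ∀ (c : ℝ) y, g (c • y) = c ^ m * g y) :
    ∫ y, rb d t y * g y = t ^ m * ∫ y, bk d y * g y := by
  have h1 : ∀ y : Sp d, rb d t y * g y =
      (t⁻¹) ^ d * t ^ m * (fun z => bk d z * g z) (t⁻¹ • y) := by
    intro y
    unfold rb
    simp only
    rw [hg, inv_pow, inv_pow]
    field_simp
  have h2 := Measure.integral_comp_smul (μ := (volume : Measure (Sp d)))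
    (fun z => bk d z * g z) t⁻¹
  rw [integral_congr_ae (Filter.Eventually.of_forall h1), integral_const_mul, h2,
    finrank_euclideanSpace, Fintype.card_fin, smul_eq_mul, abs_of_pos (by positivity), inv_pow,
    inv_inv]
  field_simp

theorem exists_coeff (n : ℕ) : ∃ c : ℕ → ℝ, ∀ m : ℕ, m ≤ n →
    ∑ i ∈ Finset.range (n + 1), c i * (1 / ((i : ℝ) + 1)) ^ m = if m = 0 then 1 else 0 := by
  set v : ℕ → ℝ := fun i => 1 / ((i : ℝ) + 1) with hv
  have hinj : Set.InjOn v (Finset.range (n + 1)) := by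
    intro i _ j _ hij
    simp only [hv] at hij
    have h1 : ((i : ℝ) + 1) = ((j : ℝ) + 1) := by
      have hi : (0 : ℝ) < (i : ℝ) + 1 := by positivity
      have hj : (0 : ℝ) < (j : ℝ) + 1 := by positivity
      field_simp at hij
      linarith
    exact_mod_cast add_right_cancel h1
  refine ⟨fun i => (Lagrange.basis (Finset.range (n + 1)) v i).eval 0, fun m hm => ?_⟩
  have h1 := Lagrange.eq_interpolate (f := (Polynomial.X ^ m : Polynomial ℝ)) hinj (by
    rw [Finset.card_range, Polynomial.degree_X_pow]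
    exact_mod_cast Nat.lt_succ_of_le hm)
  have h2 := congrArg (Polynomial.eval 0) h1
  rw [Lagrange.interpolate_apply, Polynomial.eval_finsetSum] at h2
  simp only [Polynomial.eval_mul, Polynomial.eval_C, Polynomial.eval_pow, Polynomial.eval_X] at h2
  rw [zero_pow_eq] at h2
  rw [h2]
  exact Finset.sum_congr rfl fun i _ => mul_comm _ _

theorem main (d n : ℕ) : ∃ ψ : Sp d → ℝ, VKer n ψ := by
  obtain ⟨c, hc⟩ := exists_coeff n
  have hl0 : ∀ i : ℕ, 0 < 1 / ((i : ℝ) + 1) := fun i => by positivity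
  have hl1 : ∀ i : ℕ, 1 / ((i : ℝ) + 1) ≤ 1 := fun i => by
    rw [div_le_one (by positivity)]
    have : (0 : ℝ) ≤ i := by positivity
    linarith
  have key : ∀ (m : ℕ), m ≤ n → ∀ g : Sp d → ℝ, Continuous g →
      (∀ (c : ℝ) y, g (c • y) = c ^ m * g y) →
      ∫ y, (∑ i ∈ Finset.range (n + 1), c i * rb d (1 / ((i : ℝ) + 1)) y) * g y =
        (if m = 0 then 1 else 0) * ∫ y, bk d y * g y := by
    intro m hm g hgc hg
    have h1 : ∀ y, (∑ i ∈ Finset.range (n + 1), c i * rb d (1 / ((i : ℝ) + 1)) y) * g y =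
        ∑ i ∈ Finset.range (n + 1), c i * (rb d (1 / ((i : ℝ) + 1)) y * g y) := by
      intro y
      rw [Finset.sum_mul]
      exact Finset.sum_congr rfl fun i _ => by ring
    simp_rw [h1]
    rw [integral_finsetSum _ fun i _ => (rb_integrable (hl0 i) (hl1 i) g hgc).const_mul _,
      ← hc m hm, Finset.sum_mul]
    refine Finset.sum_congr rfl fun i _ => ?_
    rw [integral_const_mul, rb_moment (hl0 i) m g hg]
    ring
  refine ⟨fun y => ∑ i ∈ Finset.range (n + 1), c i * rb d (1 / ((i : ℝ) + 1)) y, ?_, ?_, ?_, ?_⟩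
  · exact ContDiff.sum fun i _ => contDiff_const.mul (rb_smooth _)
  · intro y hy
    exact Finset.sum_eq_zero fun i _ => by rw [rb_zero (hl0 i) (hl1 i) hy, mul_zero]
  · have h1 := key 0 (Nat.zero_le n) (fun _ => 1) continuous_const (fun c y => by simp)
    simp only [mul_one, if_true, bk_int] at h1
    exact h1
  · intro m hm1 hmn M
    have h1 := key m hmn (fun y => M fun _ => y)
      (M.cont.comp (continuous_pi fun _ => continuous_id)) (fun c y => by
        have := M.map_smul_univ (fun _ => c) (fun _ => y)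
        simpa using this)
    rw [h1, if_neg (by omega), zero_mul]

end VK

theorem stmtVK : StmtVK := VK.main

end

end TrI
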