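import Pool.Agent.TR.Plane
import Pool.Agent.TR.KPG
import Pool.Agent.TR.CH2
import Pool.Agent.TR.VK
import Pool.Agent.TR.NS
import Pool.Agent.TR.RKG
import Pool.Agent.TR.CG
import Pool.Agent.TR.LI
import Pool.Agent.TR.HF
import Pool.Agent.TR.LA
import Pool.Agent.TR.A0
import Pool.Agent.TR.PT
import Pool.Agent.TR.LAB
import Pool.Agent.TR.INT
import Pool.Agent.TR.DEV
import Pool.Agent.TR.MU
import Pool.Agent.TR.CH
import Pool.Agent.TR.K2G

/-!
# Assembly of the theorem on complex elliptic operators in the plane
-/

namespace TrI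

/-- the abstract theorem from the remaining modules -/
theorem abs_of (hDev : StmtDev) (hMu : StmtMu) (hCh : StmtCharts) : StmtAbs := by
  have hCG : StmtCG := stmtCG
  have hLI : StmtLI := stmtLI hCG hDev
  have hLT : StmtLT := stmtLT hCG hDev
  have hHF : StmtHF := stmtHF hLI
  have hTV : StmtTV := stmtTV hLT hHF
  have hLA : StmtLA := stmtLA hCG hDev
  have hA0 : StmtA0 := stmtA0 hDev hLI hHF hLA
  have hPt : StmtPt := stmtPt hDev hTV hA0
  exact stmtAbs hPt stmtLab hMu hCh hDev

/-- KProp for all complex elliptic operators from the remaining modules -/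
theorem kpg_fin (hDev : StmtDev) (hK2G : StmtK2G) : StmtKPG :=
  stmtKPG stmtNS stmtVK stmtRKG (stmtK1 stmtCG hDev) hK2G

/-- the plane theorem from the remaining modules -/
theorem plane_of (hDev : StmtDev) (hMu : StmtMu) (hCh : StmtCharts) (hK2G : StmtK2G) :
    PlaneStatement :=
  plane (abs_of hDev hMu hCh) (kpg_fin hDev hK2G) stmtCH2

/-- the trace inequality for every complex elliptic operator in the plane -/
theorem planeFinal : PlaneStatement :=
  plane_of stmtDev stmtMu stmtCharts (stmtK2G stmtKD stmtCG stmtDev)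

end TrI
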