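import Pool.Agent.TR.Basic
import Pool.Agent.TR.Stmts2

/-!
# Trace inequality, stage 2: module KD (derivatives of averages fall on the kernel)
-/

open MeasureTheory Metric Set Filter
open scoped InnerProductSpace ContDiff Topology Convolution

namespace TrI

noncomputable section

variable {d : ℕ}

section General

variable {W E G : Type*} [NormedAddCommGroup W] [NormedSpace ℝ W] [NormedAddCommGroup E]
  [NormedSpace ℝ E] [NormedAddCommGroup G] [NormedSpace ℝ G]

/-- functions vanishing outside the unit ball have compact support -/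
lemma cs_of_vanish {K : Sp d → W} (hK : ∀ y, 1 ≤ ‖y‖ → K y = 0) : HasCompactSupport K := by
  refine HasCompactSupport.intro (isCompact_closedBall (0 : Sp d) 1) fun x hx => hK x ?_
  rw [mem_closedBall, dist_zero_right] at hx
  linarith [not_le.mp hx]

lemma kernel_integrable (B : W →L[ℝ] E →L[ℝ] G) {K : Sp d → W} (hKc : Continuous K)
    (hK : ∀ y, 1 ≤ ‖y‖ → K y = 0) {f : Sp d → E} (hf : Continuous f) (s : ℝ) (z : Sp d) :
    Integrable (fun y => B (K y) (f (z + s • y))) := by
  refine Continuous.integrable_of_hasCompactSupport (by fun_prop) ?_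
  refine cs_of_vanish fun y hy => ?_
  rw [hK y hy]
  simp

lemma kernel_eq_conv (B : W →L[ℝ] E →L[ℝ] G) (K : Sp d → W) (f : Sp d → E) {s : ℝ}
    (hs : s ≠ 0) (z : Sp d) :
    ∫ y, B (K y) (f (z + s • y)) =
      |(s ^ Module.finrank ℝ (Sp d))⁻¹| •
        (f ⋆[B.flip, (volume : Measure (Sp d))] (fun w => K ((-s)⁻¹ • w))) z := by
  rw [convolution_def]
  have h1 := Measure.integral_comp_smul (volume : Measure (Sp d))
    (fun t => B (K (s⁻¹ • t)) (f (z + t))) s
  have h2 : (fun y => B (K (s⁻¹ • s • y)) (f (z + s • y))) =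
      fun y => B (K y) (f (z + s • y)) := by
    funext y
    rw [smul_smul, inv_mul_cancel₀ hs, one_smul]
  rw [h2] at h1
  rw [h1]
  congr 1
  rw [← integral_add_left_eq_self (μ := (volume : Measure (Sp d)))
    (fun t => B.flip (f t) (K ((-s)⁻¹ • (z - t)))) z]
  refine integral_congr_ae (Eventually.of_forall fun t => ?_)
  show B (K (s⁻¹ • t)) (f (z + t)) = B.flip (f (z + t)) (K ((-s)⁻¹ • (z - (z + t))))
  have e : (-s)⁻¹ • (z - (z + t)) = s⁻¹ • t := by
    rw [sub_add_cancel_left, smul_neg, ← neg_smul, inv_neg, neg_neg]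
  rw [e, ContinuousLinearMap.flip_apply]

lemma kernel_hasFDerivAt [CompleteSpace G] (B : W →L[ℝ] E →L[ℝ] G) {K : Sp d → W}
    (hKc : ContDiff ℝ 1 K) (hK : ∀ y, 1 ≤ ‖y‖ → K y = 0) {f : Sp d → E} (hf : Continuous f)
    {s : ℝ} (hs : 0 < s) (z : Sp d) :
    HasFDerivAt (fun z => ∫ y, B (K y) (f (z + s • y)))
      ((-1 / s) • ∫ y, (B.flip (f (z + s • y))).comp (fderiv ℝ K y)) z := by
  have hs' : s ≠ 0 := hs.ne'
  set c : ℝ := |(s ^ Module.finrank ℝ (Sp d))⁻¹| with hc
  set B' : (Sp d →L[ℝ] W) →L[ℝ] E →L[ℝ] (Sp d →L[ℝ] G) := (B.flip.precompR (Sp d)).flip with hB'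
  have hB'a : ∀ A e, B' A e = (B.flip e).comp A := fun A e => rfl
  have e1 : (fun z => ∫ y, B (K y) (f (z + s • y))) =
      c • (f ⋆[B.flip, (volume : Measure (Sp d))] (fun w => K ((-s)⁻¹ • w))) := by
    funext z
    exact kernel_eq_conv B K f hs' z
  have hcs : HasCompactSupport (fun w => K ((-s)⁻¹ • w)) := by
    refine HasCompactSupport.intro (isCompact_closedBall (0 : Sp d) s) fun x hx => hK _ ?_
    rw [mem_closedBall, dist_zero_right, not_le] at hx
    rw [norm_smul, norm_inv, norm_neg, Real.norm_eq_abs, abs_of_pos hs, inv_mul_eq_div,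
      le_div_iff₀ hs]
    linarith
  have hcd : ContDiff ℝ 1 (fun w => K ((-s)⁻¹ • w)) := hKc.comp (contDiff_const_smul _)
  have h1 := (hcs.hasFDerivAt_convolution_right B.flip
    (hf.locallyIntegrable (μ := (volume : Measure (Sp d)))) hcd z).const_smul c
  rw [e1]
  have e2 : (fderiv ℝ fun w => K ((-s)⁻¹ • w)) =
      (-s)⁻¹ • (fun w => fderiv ℝ K ((-s)⁻¹ • w)) := by
    funext w
    rw [fderiv_comp_smul]
    rfl
  have e3 : (f ⋆[B.flip.precompR (Sp d), (volume : Measure (Sp d))]
      (fderiv ℝ fun w => K ((-s)⁻¹ • w))) z =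
      (-s)⁻¹ • (f ⋆[B'.flip, (volume : Measure (Sp d))]
        (fun w => fderiv ℝ K ((-s)⁻¹ • w))) z := by
    rw [e2, convolution_smul]
    rfl
  have e4 : ∫ y, (B.flip (f (z + s • y))).comp (fderiv ℝ K y) =
      c • (f ⋆[B'.flip, (volume : Measure (Sp d))]
        (fun w => fderiv ℝ K ((-s)⁻¹ • w))) z :=
    kernel_eq_conv B' (fderiv ℝ K) f hs' z
  have e5 : (-1 / s) • ∫ y, (B.flip (f (z + s • y))).comp (fderiv ℝ K y) =
      c • (f ⋆[B.flip.precompR (Sp d), (volume : Measure (Sp d))]
      (fderiv ℝ fun w => K ((-s)⁻¹ • w))) z := by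
    rw [e3, e4, smul_comm]
    congr 2
    rw [inv_neg, neg_div, one_div]
  rw [e5]
  exact h1

end General

lemma fderiv_vanish {W : Type*} [NormedAddCommGroup W] [NormedSpace ℝ W] {K : Sp d → W}
    (hKc : ContDiff ℝ 1 K) (hK : ∀ y, 1 ≤ ‖y‖ → K y = 0) : ∀ y, 1 ≤ ‖y‖ → fderiv ℝ K y = 0 := by
  intro y hy
  rcases hy.lt_or_eq with h | h
  · have hev : K =ᶠ[𝓝 y] fun _ => 0 := by
      have hop : IsOpen {x : Sp d | 1 < ‖x‖} := isOpen_lt continuous_const continuous_norm
      filter_upwards [hop.mem_nhds h] with x hx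
      exact hK x (le_of_lt hx)
    rw [hev.fderiv_eq]
    simp
  · -- limit from outside
    have hcont : Continuous (fderiv ℝ K) := hKc.continuous_fderiv one_ne_zero
    have hseq : Tendsto (fun n : ℕ => (1 + 1 / ((n : ℝ) + 1)) • y) atTop (𝓝 y) := by
      have h1 : Tendsto (fun n : ℕ => 1 + 1 / ((n : ℝ) + 1)) atTop (𝓝 (1 + 0)) :=
        tendsto_const_nhds.add tendsto_one_div_add_atTop_nhds_zero_nat
      have h2 := h1.smul_const y
      simpa using h2
    have hlim := (hcont.tendsto y).comp hseq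
    have hzero : ∀ n : ℕ, fderiv ℝ K ((1 + 1 / ((n : ℝ) + 1)) • y) = 0 := by
      intro n
      have hn : (0 : ℝ) < 1 / ((n : ℝ) + 1) := by positivity
      have hgt : 1 < ‖(1 + 1 / ((n : ℝ) + 1)) • y‖ := by
        rw [norm_smul, ← h, mul_one, Real.norm_eq_abs, abs_of_pos (by linarith)]
        linarith
      have hev : K =ᶠ[𝓝 ((1 + 1 / ((n : ℝ) + 1)) • y)] fun _ => 0 := by
        have hop : IsOpen {x : Sp d | 1 < ‖x‖} := isOpen_lt continuous_const continuous_norm
        filter_upwards [hop.mem_nhds hgt] with x hx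
        exact hK x (le_of_lt hx)
      rw [hev.fderiv_eq]
      simp
    have hlim2 : Tendsto (fun n : ℕ => fderiv ℝ K ((1 + 1 / ((n : ℝ) + 1)) • y)) atTop (𝓝 0) := by
      simp only [hzero]
      exact tendsto_const_nhds
    exact tendsto_nhds_unique hlim hlim2

lemma iteratedFDeriv_vanish {ψ : Sp d → ℝ} (hψ : ContDiff ℝ ∞ ψ) (h0 : ∀ y, 1 ≤ ‖y‖ → ψ y = 0)
    (n : ℕ) : ∀ y, 1 ≤ ‖y‖ → iteratedFDeriv ℝ n ψ y = 0 := by
  induction n with
  | zero =>
    intro y hy
    ext m
    rw [iteratedFDeriv_zero_apply, h0 y hy]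
    rfl
  | succ n ih =>
    intro y hy
    have h1 : ContDiff ℝ 1 (iteratedFDeriv ℝ n ψ) := by
      refine hψ.iteratedFDeriv_right (m := 1) ?_
      exact_mod_cast le_top
    have h2 := fderiv_vanish h1 ih y hy
    ext m
    rw [iteratedFDeriv_succ_apply_left, h2]
    rfl

/-- MODULE KD -/
theorem stmtKD : StmtKD := by
  intro d E _ _ _ ψ hψ h0 f hf s hs n
  induction n with
  | zero =>
    intro z
    ext m
    rw [iteratedFDeriv_zero_apply, pow_zero, one_smul]
    have hint := kernel_integrable (ContinuousMultilinearMap.smulRightL ℝ (fun _ : Fin 0 => Sp d) E)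
      (K := iteratedFDeriv ℝ 0 ψ) (hψ.continuous_iteratedFDeriv (by simp))
      (iteratedFDeriv_vanish hψ h0 0) hf s z
    have h1 := (ContinuousMultilinearMap.apply ℝ (fun _ : Fin 0 => Sp d) E m).integral_comp_comm
      hint
    simp only [ContinuousMultilinearMap.apply_apply] at h1
    refine Eq.trans ?_ h1
    refine integral_congr_ae (Eventually.of_forall fun y => ?_)
    simp [avk, ContinuousMultilinearMap.smulRightL_apply]
  | succ n ih =>
    intro z
    have hK1 : ContDiff ℝ 1 (iteratedFDeriv ℝ n ψ) := by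
      refine hψ.iteratedFDeriv_right (m := 1) ?_
      exact_mod_cast le_top
    have hK0 := iteratedFDeriv_vanish hψ h0 n
    have hfun : ((-1 / s : ℝ) ^ n • fun z =>
        ∫ y, (ContinuousMultilinearMap.smulRightL ℝ (fun _ : Fin n => Sp d) E)
          (iteratedFDeriv ℝ n ψ y) (f (z + s • y))) = iteratedFDeriv ℝ n (avk ψ s f) := by
      funext z
      exact (ih z).symm
    have hD := HasFDerivAt.const_smul (kernel_hasFDerivAt
      (ContinuousMultilinearMap.smulRightL ℝ (fun _ : Fin n => Sp d) E) hK1 hK0 hf hs z)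
      ((-1 / s : ℝ) ^ n)
    rw [hfun] at hD
    ext m
    rw [iteratedFDeriv_succ_apply_left, hD.fderiv]
    -- evaluation of the left side
    have hint1 : Integrable (fun y =>
        ((ContinuousMultilinearMap.smulRightL ℝ (fun _ : Fin n => Sp d) E).flip
          (f (z + s • y))).comp (fderiv ℝ (iteratedFDeriv ℝ n ψ) y)) :=
      kernel_integrable (((ContinuousMultilinearMap.smulRightL ℝ (fun _ : Fin n => Sp d)
        E).flip.precompR (Sp d)).flip) (hK1.continuous_fderiv one_ne_zero) (fderiv_vanish hK1 hK0) hf s z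
    have hint2 := kernel_integrable
      (ContinuousMultilinearMap.smulRightL ℝ (fun _ : Fin (n + 1) => Sp d) E)
      (K := iteratedFDeriv ℝ (n + 1) ψ) (hψ.continuous_iteratedFDeriv (by exact_mod_cast le_top))
      (iteratedFDeriv_vanish hψ h0 (n + 1)) hf s z
    have h1 := ((ContinuousMultilinearMap.apply ℝ (fun _ : Fin n => Sp d) E (Fin.tail m)).comp
      (ContinuousLinearMap.apply ℝ (ContinuousMultilinearMap ℝ (fun _ : Fin n => Sp d) E)
        (m 0))).integral_comp_comm hint1
    have h2 := (ContinuousMultilinearMap.apply ℝ (fun _ : Fin (n + 1) => Sp d) E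
      m).integral_comp_comm hint2
    simp only [ContinuousLinearMap.comp_apply, ContinuousLinearMap.apply_apply,
      ContinuousMultilinearMap.apply_apply, ContinuousLinearMap.flip_apply,
      ContinuousMultilinearMap.smulRightL_apply] at h1 h2
    have h3 : (∫ y, (iteratedFDeriv ℝ (n + 1) ψ y).smulRight (f (z + s • y))) m =
        (∫ y, ((ContinuousMultilinearMap.smulRightL ℝ (fun _ : Fin n => Sp d) E).flip
          (f (z + s • y))).comp (fderiv ℝ (iteratedFDeriv ℝ n ψ) y)) (m 0) (Fin.tail m) := by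
      rw [← h1, ← h2]
      refine integral_congr_ae (Eventually.of_forall fun y => ?_)
      simp only [ContinuousMultilinearMap.smulRight_apply]
      rw [iteratedFDeriv_succ_apply_left]
    simp only [ContinuousLinearMap.smul_apply, ContinuousMultilinearMap.smul_apply]
    rw [h3, smul_smul, pow_succ]

end

end TrI
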