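import Pool.Agent.TR.SL

/-!
# Stage 3: the symmetric gradient, in coordinates
-/

set_option linter.unusedSectionVars false

open MeasureTheory Metric Set
open scoped InnerProductSpace ContDiff

namespace TrI

noncomputable section

/-- the trace inequality for the symmetric gradient in dimension `d` -/
def BDStatement : Prop :=
  ∀ (d : ℕ), 1 ≤ d → ∀ C' : ℝ, 0 < C' → ∃ C : ℝ, 0 < C ∧
    ∀ μ : MeasureTheory.Measure (EuclideanSpace ℝ (Fin d)),
      MeasureTheory.IsFiniteMeasureOnCompacts μ →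
      (∀ x : EuclideanSpace ℝ (Fin d), ∀ r : ℝ, 0 < r →
          μ (Metric.ball x r) ≤ ENNReal.ofReal (C' * r ^ (d - 1))) →
    ∀ u : EuclideanSpace ℝ (Fin d) → EuclideanSpace ℝ (Fin d),
      ContDiff ℝ (⊤ : ℕ∞) u → HasCompactSupport u →
      ∫⁻ x, ‖u x‖ₑ ∂μ ≤ ENNReal.ofReal C *
        ∫⁻ x, ∑ i : Fin d, ∑ j : Fin d,
          ‖(fderiv ℝ u x (EuclideanSpace.single j 1) i +
            fderiv ℝ u x (EuclideanSpace.single i 1) j) / 2‖ₑ

theorem bd_pointwise {d : ℕ} (M : Sp d →L[ℝ] Sp d) (y : Sp d) (hy : ‖y‖ ≤ 1) :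
    ‖⟪y, M y⟫_ℝ‖ₑ ≤ ∑ i : Fin d, ∑ j : Fin d,
      ‖(M (EuclideanSpace.single j 1) i + M (EuclideanSpace.single i 1) j) / 2‖ₑ := by
  have h1 : M y = ∑ j, y j • M (EuclideanSpace.single j 1) := by
    have h0 : y = ∑ j, y j • EuclideanSpace.single j (1 : ℝ) := by
      ext i
      simp [Finset.sum_apply, Pi.single_apply]
    conv_lhs => rw [h0]
    rw [map_sum]
    exact Finset.sum_congr rfl fun j _ => by rw [map_smul]
  have h2 : ⟪y, M y⟫_ℝ = ∑ i, ∑ j, y i * y j * M (EuclideanSpace.single j 1) i := by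
    rw [h1, PiLp.inner_apply]
    refine Finset.sum_congr rfl fun i _ => ?_
    rw [WithLp.ofLp_sum, Finset.sum_apply]
    simp only [RCLike.inner_apply, conj_trivial, PiLp.smul_apply, smul_eq_mul]
    rw [Finset.sum_mul]
    refine Finset.sum_congr rfl fun j _ => ?_
    ring
  have h3 : ⟪y, M y⟫_ℝ = ∑ i, ∑ j, y i * y j *
      ((M (EuclideanSpace.single j 1) i + M (EuclideanSpace.single i 1) j) / 2) := by
    have h4 : ∑ i, ∑ j, y i * y j * M (EuclideanSpace.single j 1) i =
        ∑ i, ∑ j, y i * y j * M (EuclideanSpace.single i 1) j := by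
      rw [Finset.sum_comm]
      refine Finset.sum_congr rfl fun i _ => Finset.sum_congr rfl fun j _ => ?_
      ring
    have h5 : ∑ i, ∑ j, y i * y j *
        ((M (EuclideanSpace.single j 1) i + M (EuclideanSpace.single i 1) j) / 2) =
        (∑ i, ∑ j, y i * y j * M (EuclideanSpace.single j 1) i +
          ∑ i, ∑ j, y i * y j * M (EuclideanSpace.single i 1) j) / 2 := by
      rw [← Finset.sum_add_distrib, Finset.sum_div]
      refine Finset.sum_congr rfl fun i _ => ?_
      rw [← Finset.sum_add_distrib, Finset.sum_div]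
      refine Finset.sum_congr rfl fun j _ => ?_
      ring
    rw [h5, ← h4, h2]
    ring
  rw [h3]
  have hyi : ∀ i, |y i| ≤ 1 := fun i => by
    have := PiLp.norm_apply_le y i
    rw [Real.norm_eq_abs] at this
    exact this.trans hy
  calc _ ≤ ∑ i, ‖∑ j, y i * y j *
      ((M (EuclideanSpace.single j 1) i + M (EuclideanSpace.single i 1) j) / 2)‖ₑ :=
        enorm_sum_le _ _
    _ ≤ _ := by
      refine Finset.sum_le_sum fun i _ => (enorm_sum_le _ _).trans ?_
      refine Finset.sum_le_sum fun j _ => ?_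
      rw [← ofReal_norm, ← ofReal_norm]
      refine ENNReal.ofReal_le_ofReal ?_
      rw [norm_mul, norm_mul, Real.norm_eq_abs, Real.norm_eq_abs (y j)]
      have h6 : |y i| * |y j| ≤ 1 :=
        mul_le_one₀ (hyi i) (abs_nonneg _) (hyi j)
      exact mul_le_of_le_one_left (norm_nonneg _) h6

theorem bd_of_SL (hSL : StmtSL) : BDStatement := by
  intro d hd C' hC'
  have hspan : Submodule.span ℝ {v | ∃ (_ : Unit) (y : Sp d), y = v} = ⊤ := by
    rw [eq_top_iff]
    intro v _
    exact Submodule.subset_span ⟨(), v, rfl⟩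
  obtain ⟨C, hC, h⟩ := hSL d hd (Sp d) Unit (fun _ y => y) (fun _ => analyticOnNhd_id) hspan C' hC'
  refine ⟨C, hC, fun μ hμ hgr u hu hus => ?_⟩
  refine (h μ hμ hgr u ⟨hu, hus⟩).trans (mul_le_mul_right (lintegral_mono fun x => ?_) _)
  refine iSup_le fun _ => iSup₂_le fun y hy => ?_
  exact bd_pointwise (fderiv ℝ u x) y (by simpa using hy)

end

end TrI
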