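import Pool.Agent.TR.SLM

/-!
# Stage 3: operators with enough real analytic slicing fields are complex elliptic
-/

set_option linter.unusedSectionVars false

open MeasureTheory Metric Set
open scoped InnerProductSpace ContDiff

namespace TrI

noncomputable section

/-- Operators with enough real analytic slicing fields are complex elliptic. -/
theorem symEll_of_sliced {d N K : ℕ} (A : Fin d → Matrix (Fin K) (Fin N) ℝ)
    (hA : ∀ v : EuclideanSpace ℝ (Fin N), v ≠ 0 →
      ∃ w : EuclideanSpace ℝ (Fin d) → EuclideanSpace ℝ (Fin N),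
        AnalyticOnNhd ℝ w Set.univ ∧
        (∀ (y : EuclideanSpace ℝ (Fin d)) (M : Fin d → EuclideanSpace ℝ (Fin N)),
          ∑ j, Matrix.toEuclideanLin (A j) (M j) = 0 → inner ℝ (w y) (∑ j, y j • M j) = 0) ∧
        ∃ y, inner ℝ (w y) v ≠ 0) : SymEll A := by
  classical
  choose w hwa hws hwne using hA
  set W : {v : EuclideanSpace ℝ (Fin N) // v ≠ 0} → Sp d → EuclideanSpace ℝ (Fin N) :=
    fun v => w v.1 v.2 with hW
  have hWa : ∀ i, AnalyticOnNhd ℝ (W i) univ := fun i => hwa _ _
  have hWspan : Submodule.span ℝ {z | ∃ i y, W i y = z} = ⊤ := by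
    rw [← Submodule.orthogonal_eq_bot_iff, Submodule.eq_bot_iff]
    intro v hv
    by_contra hv0
    obtain ⟨y, hy⟩ := hwne v hv0
    exact hy ((Submodule.mem_orthogonal _ v).mp hv _
      (Submodule.subset_span ⟨⟨v, hv0⟩, y, rfl⟩))
  obtain ⟨m, L, P, hLP, hker⟩ := SL.exists_op W
  have hcell := SL.cell hWa hWspan L hker
  have hsub : ∀ M : Sp d →L[ℝ] EuclideanSpace ℝ (Fin N), LA A M = 0 → L M = 0 := by
    intro M hM
    rw [hker]
    intro i y
    rw [LA_apply] at hM
    rw [clm_eq_sum M y]
    exact hws _ _ y (fun j => M (EuclideanSpace.single j 1)) hM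
  intro ζ hζ z hz
  set ξ : Sp d := WithLp.toLp 2 fun j => (ζ j).re with hξ
  set η : Sp d := WithLp.toLp 2 fun j => (ζ j).im with hη
  set v : EuclideanSpace ℝ (Fin N) := WithLp.toLp 2 fun n => (z n).re with hv
  set v' : EuclideanSpace ℝ (Fin N) := WithLp.toLp 2 fun n => (z n).im with hv'
  have hξη : ξ ≠ 0 ∨ η ≠ 0 := by
    by_contra hcon
    push Not at hcon
    apply hζ
    funext j
    apply Complex.ext
    · exact congrArg (fun y : Sp d => y j) hcon.1
    · exact congrArg (fun y : Sp d => y j) hcon.2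
  have h3 : ∀ i, ∑ j, ∑ n, ζ j * ((A j i n : ℂ) * z n) = 0 := by
    intro i
    have h4 := congrFun hz i
    rw [Matrix.mulVec, dotProduct] at h4
    simp only [Matrix.sum_apply, Matrix.smul_apply, Matrix.map_apply, smul_eq_mul,
      Complex.coe_algebraMap, Finset.sum_mul, mul_assoc] at h4
    rw [Finset.sum_comm] at h4
    exact h4
  have e1 : LA A (rk1 ξ v - rk1 η v') = 0 := by
    ext i
    rw [map_sub, PiLp.sub_apply, LA_rk1, LA_rk1, PiLp.zero_apply]
    have h4 := congrArg Complex.re (h3 i)
    rw [Complex.re_sum, Complex.zero_re] at h4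
    rw [← h4, ← Finset.sum_sub_distrib]
    refine Finset.sum_congr rfl fun j _ => ?_
    rw [Complex.re_sum, ← Finset.sum_sub_distrib]
    refine Finset.sum_congr rfl fun n _ => ?_
    simp only [hξ, hη, hv, hv', Complex.mul_re, Complex.mul_im, Complex.ofReal_re,
      Complex.ofReal_im]
    ring
  have e2 : LA A (rk1 ξ v' + rk1 η v) = 0 := by
    ext i
    rw [map_add, PiLp.add_apply, LA_rk1, LA_rk1, PiLp.zero_apply]
    have h4 := congrArg Complex.im (h3 i)
    rw [Complex.im_sum, Complex.zero_im] at h4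
    rw [← h4, ← Finset.sum_add_distrib]
    refine Finset.sum_congr rfl fun j _ => ?_
    rw [Complex.im_sum, ← Finset.sum_add_distrib]
    refine Finset.sum_congr rfl fun n _ => ?_
    simp only [hξ, hη, hv, hv', Complex.mul_re, Complex.mul_im, Complex.ofReal_re,
      Complex.ofReal_im]
    ring
  have f1 := hsub _ e1
  have f2 := hsub _ e2
  rw [map_sub] at f1
  rw [map_add] at f2
  obtain ⟨g1, g2⟩ := hcell ξ η hξη v v' f1 f2
  funext n
  apply Complex.ext
  · exact congrArg (fun y : EuclideanSpace ℝ (Fin N) => y n) g1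
  · exact congrArg (fun y : EuclideanSpace ℝ (Fin N) => y n) g2

end

end TrI
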