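import Pool.Agent.TR.SL

/-!
# Stage 3: the symmetrised derivative of symmetric tensor fields

For symmetric `k`-linear forms `u(x)` on `ℝ^d` the trace inequality holds with the norm
`sup_{|y| ≤ 1} |Du(x)[y](y, ..., y)|` of the symmetrised derivative.
-/

set_option linter.unusedSectionVars false

open MeasureTheory Metric Set
open scoped InnerProductSpace ContDiff

namespace TrI

noncomputable section

/-- the `k`-linear forms on `ℝ^d` -/
abbrev MF (d k : ℕ) := ContinuousMultilinearMap ℝ (fun _ : Fin k => Sp d) ℝ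

/-- STAGE 3: symmetric tensor fields -/
def StmtTENS : Prop :=
  ∀ (d k : ℕ), 1 ≤ d → ∀ C' : ℝ, 0 < C' → ∃ C : ℝ, 0 < C ∧
    ∀ μ : Measure (Sp d), IsFiniteMeasureOnCompacts μ →
      (∀ x : Sp d, ∀ r : ℝ, 0 < r → μ (ball x r) ≤ ENNReal.ofReal (C' * r ^ (d - 1))) →
      ∀ u : Sp d → MF d k, ContDiff ℝ ∞ u → HasCompactSupport u →
        (∀ (x : Sp d) (σ : Equiv.Perm (Fin k)) (v : Fin k → Sp d),
          u x (fun i => v (σ i)) = u x v) →
        ∫⁻ x, ‖u x‖ₑ ∂μ ≤ ENNReal.ofReal C *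
          ∫⁻ x, ⨆ y ∈ closedBall (0 : Sp d) 1, ‖(fderiv ℝ u x y) (fun _ => y)‖ₑ

namespace TENS

variable {d k : ℕ}

instance : FiniteDimensional ℝ (MF d k) :=
  FiniteDimensional.of_injective
    (ContinuousMultilinearMap.toMultilinearMapLinear :
      MF d k →ₗ[ℝ] MultilinearMap ℝ (fun _ : Fin k => Sp d) ℝ)
    ContinuousMultilinearMap.toMultilinearMap_injective

/-- the symmetric forms -/
def Sy (d k : ℕ) : Submodule ℝ (MF d k) where
  carrier := {c | ∀ (σ : Equiv.Perm (Fin k)) (v : Fin k → Sp d), c (fun i => v (σ i)) = c v}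
  add_mem' := by
    intro a b ha hb σ v
    change a (fun i => v (σ i)) + b (fun i => v (σ i)) = a v + b v
    rw [ha σ v, hb σ v]
  zero_mem' := fun _ _ => rfl
  smul_mem' := by
    intro c a ha σ v
    change c • a (fun i => v (σ i)) = c • a v
    rw [ha σ v]

instance : Module.Free ℝ (Sy d k) := Module.Free.of_divisionRing ℝ (Sy d k)

theorem mem_Sy {c : MF d k} : c ∈ Sy d k ↔
    ∀ (σ : Equiv.Perm (Fin k)) (v : Fin k → Sp d), c (fun i => v (σ i)) = c v := Iff.rfl

/-- polarisation -/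
theorem eq_zero_of_diag {c : MF d k} (hc : c ∈ Sy d k) (h : ∀ y, c (fun _ => y) = 0) : c = 0 := by
  ext v
  have h1 := ContinuousMultilinearMap.iteratedFDeriv_comp_diagonal c (0 : Sp d) v
  have h2 : (fun x : Sp d => c (fun _ => x)) = fun _ => 0 := funext h
  have h3 : ∑ σ : Equiv.Perm (Fin k), c (fun i => v (σ i)) = (k.factorial : ℝ) * c v := by
    rw [Finset.sum_congr rfl fun σ _ => mem_Sy.mp hc σ v, Finset.sum_const, Finset.card_univ,
      Fintype.card_perm, Fintype.card_fin, nsmul_eq_mul]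
  rw [h2, h3] at h1
  have h4 : iteratedFDeriv ℝ k (fun _ : Sp d => (0 : ℝ)) 0 v = 0 := by
    have : iteratedFDeriv ℝ k (fun _ : Sp d => (0 : ℝ)) = 0 := by
      ext x m
      simp
    rw [this]; rfl
  rw [h4] at h1
  have h5 : (k.factorial : ℝ) ≠ 0 := by exact_mod_cast k.factorial_ne_zero
  have h6 := (mul_eq_zero.mp h1.symm).resolve_left h5
  simpa using h6

end TENS

/-- symmetric tensor fields -/
theorem tens_of_SL (hSL : StmtSL) : StmtTENS := by
  intro d k hd C' hC'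
  set N := Module.finrank ℝ (TENS.Sy d k) with hN
  have Θ : EuclideanSpace ℝ (Fin N) ≃ₗ[ℝ] TENS.Sy d k :=
    LinearEquiv.ofFinrankEq _ _ (by rw [finrank_euclideanSpace, Fintype.card_fin])
  set J0 : EuclideanSpace ℝ (Fin N) →ₗ[ℝ] MF d k := (TENS.Sy d k).subtype ∘ₗ Θ.toLinearMap with hJ0
  have hJinj : Function.Injective J0 := (Submodule.injective_subtype _).comp Θ.injective
  have hJmem : ∀ v, J0 v ∈ TENS.Sy d k := fun v => (Θ v).2
  have hJsurj : ∀ c ∈ TENS.Sy d k, ∃ v, J0 v = c := by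
    intro c hc
    refine ⟨Θ.symm ⟨c, hc⟩, ?_⟩
    change ((Θ (Θ.symm ⟨c, hc⟩) : TENS.Sy d k) : MF d k) = c
    rw [LinearEquiv.apply_symm_apply]
  obtain ⟨R0, hR0⟩ := J0.exists_leftInverse_of_injective (LinearMap.ker_eq_bot.mpr hJinj)
  set J : EuclideanSpace ℝ (Fin N) →L[ℝ] MF d k := LinearMap.toContinuousLinearMap J0 with hJ
  set R : MF d k →L[ℝ] EuclideanSpace ℝ (Fin N) := LinearMap.toContinuousLinearMap R0 with hR
  have hRJ : ∀ v, R (J v) = v := fun v => LinearMap.congr_fun hR0 v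
  have hJR : ∀ c ∈ TENS.Sy d k, J (R c) = c := by
    intro c hc
    obtain ⟨v, rfl⟩ := hJsurj c hc
    exact congrArg J (hRJ v)
  set b := stdOrthonormalBasis ℝ (EuclideanSpace ℝ (Fin N)) with hb
  set w : Unit → Sp d → EuclideanSpace ℝ (Fin N) := fun _ y => ∑ l, (J (b l)) (fun _ => y) • b l
    with hw
  have hwin : ∀ y v, ⟪w () y, v⟫_ℝ = (J v) (fun _ => y) := by
    intro y v
    have h1 : J v = ∑ l, ⟪b l, v⟫_ℝ • J (b l) := by
      conv_lhs => rw [← b.sum_repr' v]
      rw [map_sum]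
      exact Finset.sum_congr rfl fun l _ => map_smul _ _ _
    rw [h1]
    simp only [hw]
    rw [sum_inner, _root_.sum_apply]
    refine Finset.sum_congr rfl fun l _ => ?_
    rw [real_inner_smul_left]
    change _ = ⟪b l, v⟫_ℝ • (J (b l)) (fun _ => y)
    rw [smul_eq_mul, mul_comm]
  have hwa : ∀ i, AnalyticOnNhd ℝ (w i) univ := by
    intro i y _
    simp only [hw]
    refine Finset.analyticAt_fun_sum _ fun l _ => ?_
    have h1 : AnalyticAt ℝ (fun y : Sp d => (fun _ : Fin k => y)) y :=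
      (ContinuousLinearMap.pi fun _ : Fin k => ContinuousLinearMap.id ℝ (Sp d)).analyticAt y
    have h2 : AnalyticAt ℝ (fun y : Sp d => (J (b l)) (fun _ => y)) y :=
      AnalyticAt.comp (g := fun v : Fin k → Sp d => (J (b l)) v) (J (b l)).analyticAt h1
    exact h2.smul (g := fun _ => b l) analyticAt_const
  have hspan : Submodule.span ℝ {v | ∃ i y, w i y = v} = ⊤ := by
    rw [← Submodule.orthogonal_eq_bot_iff, Submodule.eq_bot_iff]
    intro v hv
    have h1 : J v = 0 := by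
      refine TENS.eq_zero_of_diag (hJmem v) fun y => ?_
      have h2 := (Submodule.mem_orthogonal _ v).mp hv (w () y) (Submodule.subset_span ⟨(), y, rfl⟩)
      rwa [hwin] at h2
    have h3 := hRJ v
    rw [h1, map_zero] at h3
    exact h3.symm
  obtain ⟨C, hC, h⟩ := hSL d hd (EuclideanSpace ℝ (Fin N)) Unit w hwa hspan C' hC'
  refine ⟨(‖J‖ + 1) * C, by positivity, ?_⟩
  intro μ hμ hgr u hu hus hsym
  have hJR' : ∀ x, J (R (u x)) = u x := fun x => hJR _ (fun σ v => hsym x σ v)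
  have hTF : TF (fun x => R (u x)) := by
    refine ⟨R.contDiff.comp hu, ?_⟩
    exact hus.comp_left (g := fun c => R c) (map_zero R)
  have h1 := h μ hμ hgr _ hTF
  have h2 : ∀ x, ‖u x‖ₑ ≤ ENNReal.ofReal (‖J‖ + 1) * ‖R (u x)‖ₑ := by
    intro x
    rw [← ofReal_norm, ← ofReal_norm, ← ENNReal.ofReal_mul (by positivity)]
    refine ENNReal.ofReal_le_ofReal ?_
    conv_lhs => rw [← hJR' x]
    refine (J.le_opNorm _).trans ?_
    exact mul_le_mul_of_nonneg_right (by linarith) (norm_nonneg _)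
  have h3 : ∀ x y, ⟪w () y, fderiv ℝ (fun x => R (u x)) x y⟫_ℝ = (fderiv ℝ u x y) (fun _ => y) := by
    intro x y
    have hd : DifferentiableAt ℝ u x := (hu.differentiable (by simp)) x
    have e1 : HasFDerivAt (fun x => R (u x)) (R.comp (fderiv ℝ u x)) x :=
      R.hasFDerivAt.comp x hd.hasFDerivAt
    have e2 : HasFDerivAt (fun x => J (R (u x))) (J.comp (R.comp (fderiv ℝ u x))) x :=
      J.hasFDerivAt.comp x e1
    have e3 : (fun x => J (R (u x))) = u := funext hJR'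
    rw [e3] at e2
    have e4 := e2.unique hd.hasFDerivAt
    rw [e1.fderiv, hwin]
    have e5 := congrArg (fun T : Sp d →L[ℝ] MF d k => T y) e4
    change J (R (fderiv ℝ u x y)) = fderiv ℝ u x y at e5
    change (J (R (fderiv ℝ u x y))) (fun _ => y) = _
    rw [e5]
  calc ∫⁻ x, ‖u x‖ₑ ∂μ ≤ ∫⁻ x, ENNReal.ofReal (‖J‖ + 1) * ‖R (u x)‖ₑ ∂μ := lintegral_mono h2
    _ = ENNReal.ofReal (‖J‖ + 1) * ∫⁻ x, ‖R (u x)‖ₑ ∂μ :=
      lintegral_const_mul' _ _ ENNReal.ofReal_ne_top
    _ ≤ ENNReal.ofReal (‖J‖ + 1) * (ENNReal.ofReal C * ∫⁻ x, ⨆ i, ⨆ y ∈ closedBall (0 : Sp d) 1,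
          ‖⟪w i y, fderiv ℝ (fun x => R (u x)) x y⟫_ℝ‖ₑ) := mul_le_mul_right h1 _
    _ = _ := by
      rw [← mul_assoc, ENNReal.ofReal_mul (by positivity)]
      congr 1
      refine lintegral_congr fun x => ?_
      rw [iSup_unique]
      simp only [h3]

theorem stmtTENS (hK : StmtKPG) (hA : StmtAbs) : StmtTENS := tens_of_SL (stmtSL hK hA)

end

end TrI
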