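import Pool.Agent.TR.Stmts

/-!
# Module BDCH: charts for the symmetric gradient
-/

open MeasureTheory Metric Set
open scoped InnerProductSpace ContDiff

namespace TrI

noncomputable section

namespace BDCH

variable {d : ℕ}

/-- weight of an upper triangular entry -/
def cw (p : Fin d × Fin d) : ℝ := if p.1 = p.2 then 1 else 2

/-- the quadratic map -/
def tq (σ : ℝ) (y : Sp d) : EBD d :=
  WithLp.toLp 2 fun p : SI d => σ * cw p.1 * (y p.1.1 * y p.1.2)

theorem tq_apply (σ : ℝ) (y : Sp d) (p : SI d) :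
    tq σ y p = σ * cw p.1 * (y p.1.1 * y p.1.2) := rfl

theorem cw_abs (p : Fin d × Fin d) : |cw p| ≤ 2 := by
  unfold cw
  split_ifs <;> norm_num

/-- symmetrisation of a double sum -/
theorem sum_symm (g : Fin d × Fin d → ℝ) :
    ∑ q, g q = ∑ p : SI d, cw p.1 * (1 / 2 * (g (p.1.1, p.1.2) + g (p.1.2, p.1.1))) := by
  have h1 : ∑ p : SI d, cw p.1 * (1 / 2 * (g (p.1.1, p.1.2) + g (p.1.2, p.1.1))) =
      ∑ q : Fin d × Fin d, if q.1 ≤ q.2 then cw q * (1 / 2 * (g (q.1, q.2) + g (q.2, q.1)))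
        else 0 := by
    rw [← Finset.sum_filter]
    exact (Finset.sum_subtype (Finset.univ.filter fun q : Fin d × Fin d => q.1 ≤ q.2)
      (fun x => by simp) (fun q => cw q * (1 / 2 * (g (q.1, q.2) + g (q.2, q.1))))).symm
  rw [h1]
  set F : Fin d × Fin d → ℝ := fun q =>
    if q.1 ≤ q.2 then cw q * (1 / 2 * (g (q.1, q.2) + g (q.2, q.1))) else 0 with hF
  have h2 : ∑ q, F q = ∑ q : Fin d × Fin d, F q.swap :=
    ((Equiv.prodComm (Fin d) (Fin d)).sum_comp F).symm
  have h3 : ∑ q, g q = ∑ q : Fin d × Fin d, g q.swap :=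
    ((Equiv.prodComm (Fin d) (Fin d)).sum_comp g).symm
  have h4 : ∀ q : Fin d × Fin d, F q + F q.swap = g q + g q.swap := by
    rintro ⟨i, j⟩
    simp only [hF, cw, Prod.swap]
    rcases lt_trichotomy i j with h | h | h
    · rw [if_pos h.le, if_neg h.ne, if_neg (not_le.mpr h)]
      ring
    · subst h
      simp only [le_refl, if_true]
      ring
    · rw [if_neg (not_le.mpr h), if_pos h.le, if_neg h.ne]
      ring
  have h5 : ∑ q, F q + ∑ q : Fin d × Fin d, F q.swap = ∑ q, g q + ∑ q : Fin d × Fin d, g q.swap := by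
    rw [← Finset.sum_add_distrib, ← Finset.sum_add_distrib]
    exact Finset.sum_congr rfl fun q _ => h4 q
  rw [← h2, ← h3] at h5
  linarith

theorem slice (σ : ℝ) (y : Sp d) (M : Sp d →L[ℝ] Sp d) :
    ⟪σ • y, M y⟫_ℝ = ⟪LBD d M, tq σ y⟫_ℝ := by
  have hy : M y = ∑ j, y j • M (EuclideanSpace.single j 1) := by
    have h0 : y = ∑ j, y j • EuclideanSpace.single j (1 : ℝ) := by
      ext i
      simp [Finset.sum_apply, Pi.single_apply]
    conv_lhs => rw [h0]
    rw [map_sum]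
    exact Finset.sum_congr rfl fun j _ => by rw [map_smul]
  have h1 : ⟪σ • y, M y⟫_ℝ =
      ∑ q : Fin d × Fin d, σ * (y q.1 * y q.2 * M (EuclideanSpace.single q.2 1) q.1) := by
    rw [Fintype.sum_prod_type, PiLp.inner_apply]
    refine Finset.sum_congr rfl fun i _ => ?_
    rw [hy]
    simp only [PiLp.smul_apply, smul_eq_mul, RCLike.inner_apply, conj_trivial]
    rw [WithLp.ofLp_sum, Finset.sum_apply, Finset.sum_mul]
    refine Finset.sum_congr rfl fun j _ => ?_
    simp only [WithLp.ofLp_smul, Pi.smul_apply, smul_eq_mul]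
    ring
  rw [h1, sum_symm, PiLp.inner_apply]
  refine Finset.sum_congr rfl fun p _ => ?_
  have h2 : LBD d M p = (1 / 2 : ℝ) * (M (EuclideanSpace.single p.1.2 1) p.1.1 +
          M (EuclideanSpace.single p.1.1 1) p.1.2) := rfl
  rw [h2, tq_apply]
  simp only [RCLike.inner_apply, conj_trivial]
  ring

theorem inner_tq (e : EBD d) (σ : ℝ) (y : Sp d) :
    ⟪e, tq σ y⟫_ℝ = ∑ p : SI d, σ * (cw p.1 * (y p.1.1 * y p.1.2) * e p) := by
  rw [PiLp.inner_apply]
  refine Finset.sum_congr rfl fun p _ => ?_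
  rw [tq_apply]
  simp only [RCLike.inner_apply, conj_trivial]
  ring

theorem exists_ne (e : EBD d) (he : e ≠ 0) : ∃ y : Sp d, ⟪e, tq 1 y⟫_ℝ ≠ 0 := by
  by_contra hcon
  push Not at hcon
  apply he
  ext p0
  obtain ⟨⟨i, j⟩, hij⟩ := p0
  set a : Sp d := EuclideanSpace.single i 1
  set b : Sp d := EuclideanSpace.single j 1
  have h1 := hcon (a + b)
  have h2 := hcon a
  have h3 := hcon b
  rw [inner_tq] at h1 h2 h3
  have h4 : ∑ p : SI d, cw p.1 * (a p.1.1 * b p.1.2 + b p.1.1 * a p.1.2) * e p = 0 := by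
    have : ∑ p : SI d, cw p.1 * (a p.1.1 * b p.1.2 + b p.1.1 * a p.1.2) * e p =
        ∑ p : SI d, 1 * (cw p.1 * ((a + b) p.1.1 * (a + b) p.1.2) * e p) -
        ∑ p : SI d, 1 * (cw p.1 * (a p.1.1 * a p.1.2) * e p) -
        ∑ p : SI d, 1 * (cw p.1 * (b p.1.1 * b p.1.2) * e p) := by
      rw [← Finset.sum_sub_distrib, ← Finset.sum_sub_distrib]
      refine Finset.sum_congr rfl fun p _ => ?_
      simp only [PiLp.add_apply]
      ring
    rw [this, h1, h2, h3]
    ring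
  have h5 : ∑ p : SI d, cw p.1 * (a p.1.1 * b p.1.2 + b p.1.1 * a p.1.2) * e p =
      2 * e ⟨(i, j), hij⟩ := by
    rw [Finset.sum_eq_single (⟨(i, j), hij⟩ : SI d)]
    · rcases eq_or_lt_of_le hij with h | h
      · simp only at h
        subst h
        simp [a, b, cw]
        norm_num
      · simp only at h
        simp [a, b, cw, h.ne, h.ne']
    · rintro ⟨⟨k, l⟩, hkl⟩ _ hne
      have hne' : ¬ (k = i ∧ l = j) := by
        rintro ⟨rfl, rfl⟩
        exact hne rfl
      have hkl' : k ≤ l := hkl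
      have hij' : i ≤ j := hij
      have h6 : a k * b l + b k * a l = 0 := by
        simp only [a, b, PiLp.single_apply]
        by_cases c1 : k = i
        · by_cases c2 : l = j
          · exact absurd ⟨c1, c2⟩ hne'
          · subst c1
            by_cases c3 : k = j
            · subst c3
              by_cases c4 : l = k
              · exact absurd c4 c2
              · simp [c4]
            · simp [c2, c3]
        · by_cases c3 : k = j
          · by_cases c4 : l = i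
            · subst c3 c4
              exact absurd (le_antisymm hkl' hij') c1
            · simp [c1, c4]
          · simp [c1, c3]
      change cw (k, l) * (a k * b l + b k * a l) * e ⟨(k, l), hkl⟩ = 0
      rw [h6]
      ring
    · intro h
      exact absurd (Finset.mem_univ _) h
  rw [h5] at h4
  have : e ⟨(i, j), hij⟩ = 0 := by linarith
  simpa using this

theorem norm_le_of (v : EBD d) (K : ℝ) (hK : 0 ≤ K) (h : ∀ p, |v p| ≤ K) :
    ‖v‖ ≤ (Fintype.card (SI d) + 1) * K := by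
  have h1 : ‖v‖ ^ 2 ≤ ((Fintype.card (SI d) + 1) * K) ^ 2 := by
    rw [EuclideanSpace.norm_sq_eq]
    have h2 : ∑ p, ‖v p‖ ^ 2 ≤ ∑ _p : SI d, K ^ 2 := by
      refine Finset.sum_le_sum fun p _ => ?_
      rw [Real.norm_eq_abs]
      exact pow_le_pow_left₀ (abs_nonneg _) (h p) 2
    rw [Finset.sum_const, Finset.card_univ, nsmul_eq_mul] at h2
    have h3 : (0 : ℝ) ≤ Fintype.card (SI d) := by positivity
    nlinarith [mul_nonneg h3 (sq_nonneg K), mul_nonneg (mul_nonneg h3 h3) (sq_nonneg K), sq_nonneg K]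
  have h4 : 0 ≤ (Fintype.card (SI d) + 1) * K := by positivity
  exact abs_le_of_sq_le_sq' h1 h4 |>.2

theorem abs_apply_le (y : Sp d) (i : Fin d) : |y i| ≤ ‖y‖ := by
  rw [← Real.norm_eq_abs]
  exact PiLp.norm_apply_le y i

theorem tq_cont (σ : ℝ) : Continuous (tq σ : Sp d → EBD d) := by
  unfold tq
  refine (PiLp.continuous_toLp 2 _).comp ?_
  refine continuous_pi fun p => ?_
  fun_prop

theorem tq_bd (σ : ℝ) (hσ : |σ| = 1) (y : Sp d) (hy : ‖y‖ ≤ 3 / 2) :
    ‖tq σ y‖ ≤ (Fintype.card (SI d) + 1) * 6 := by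
  refine norm_le_of _ 6 (by norm_num) fun p => ?_
  rw [tq_apply, abs_mul, abs_mul, hσ, abs_mul, one_mul]
  have h1 := abs_apply_le y p.1.1
  have h2 := abs_apply_le y p.1.2
  have h3 := cw_abs p.1
  have h4 : |y p.1.1| * |y p.1.2| ≤ 3 / 2 * (3 / 2) :=
    mul_le_mul (h1.trans hy) (h2.trans hy) (abs_nonneg _) (by norm_num)
  have h5 : |cw p.1| * (|y p.1.1| * |y p.1.2|) ≤ 2 * (3 / 2 * (3 / 2)) :=
    mul_le_mul h3 h4 (by positivity) (by norm_num)
  linarith

theorem tq_lip (σ : ℝ) (hσ : |σ| = 1) (y y' : Sp d) (hy : ‖y‖ ≤ 3 / 2) (hy' : ‖y'‖ ≤ 3 / 2) :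
    ‖tq σ y - tq σ y'‖ ≤ (Fintype.card (SI d) + 1) * 6 * ‖y - y'‖ := by
  rw [mul_assoc]
  refine norm_le_of _ _ (by positivity) fun p => ?_
  have h0 : (tq σ y - tq σ y') p = σ * (cw p.1 * (y p.1.1 * (y - y') p.1.2 +
      (y - y') p.1.1 * y' p.1.2)) := by
    simp only [PiLp.sub_apply, tq_apply]
    ring
  rw [h0, abs_mul, hσ, one_mul, abs_mul]
  have h1 := abs_apply_le y p.1.1
  have h2 := abs_apply_le y' p.1.2
  have h3 := cw_abs p.1
  have h4 := abs_apply_le (y - y') p.1.1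
  have h5 := abs_apply_le (y - y') p.1.2
  have h6 : |y p.1.1 * (y - y') p.1.2 + (y - y') p.1.1 * y' p.1.2| ≤ 3 * ‖y - y'‖ := by
    refine (abs_add_le _ _).trans ?_
    rw [abs_mul, abs_mul]
    have e1 : |y p.1.1| * |(y - y') p.1.2| ≤ 3 / 2 * ‖y - y'‖ :=
      mul_le_mul (h1.trans hy) h5 (abs_nonneg _) (by norm_num)
    have e2 : |(y - y') p.1.1| * |y' p.1.2| ≤ ‖y - y'‖ * (3 / 2) :=
      mul_le_mul h4 (h2.trans hy') (abs_nonneg _) (norm_nonneg _)
    linarith
  have h7 : |cw p.1| * |y p.1.1 * (y - y') p.1.2 + (y - y') p.1.1 * y' p.1.2| ≤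
      2 * (3 * ‖y - y'‖) := mul_le_mul h3 h6 (abs_nonneg _) (by norm_num)
  linarith

/-- the cap around y0 -/
theorem cap (σ : ℝ) (hσ : |σ| = 1) (y0 : Sp d) (hy0 : ‖y0‖ ≤ 1) :
    IsCap (LBD d) y0 (1 / 2) ((Fintype.card (SI d) + 1) * 6) (fun y => σ • y) (tq σ) := by
  have hb : ∀ y ∈ ball y0 (1 / 2), ‖y‖ ≤ 3 / 2 := by
    intro y hy
    rw [mem_ball, dist_eq_norm] at hy
    have : ‖y‖ ≤ ‖y - y0‖ + ‖y0‖ := by
      simpa using norm_add_le (y - y0) y0
    linarith
  have hB : (6 : ℝ) ≤ (Fintype.card (SI d) + 1) * 6 := by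
    have h3 : (0 : ℝ) ≤ Fintype.card (SI d) := by positivity
    linarith
  refine ⟨by norm_num, by positivity, by linarith, ?_, ?_, ?_, ?_, ?_⟩
  · intro y _ M
    exact slice σ y M
  · intro y hy
    rw [norm_smul, Real.norm_eq_abs, hσ, one_mul]
    linarith [hb y hy]
  · intro y hy
    exact tq_bd σ hσ y (hb y hy)
  · intro y _ y' _
    rw [← smul_sub, norm_smul, Real.norm_eq_abs, hσ, one_mul]
    nlinarith [norm_nonneg (y - y')]
  · intro y hy y' hy'
    exact tq_lip σ hσ y y' (hb y hy) (hb y' hy')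

theorem tq_smul (σ c : ℝ) (y : Sp d) (e : EBD d) :
    ⟪e, tq σ (c • y)⟫_ℝ = c ^ 2 * ⟪e, tq σ y⟫_ℝ := by
  rw [inner_tq, inner_tq, Finset.mul_sum]
  refine Finset.sum_congr rfl fun p _ => ?_
  simp only [PiLp.smul_apply, smul_eq_mul]
  ring

theorem tq_sigma (σ : ℝ) (y : Sp d) (e : EBD d) :
    ⟪e, tq σ y⟫_ℝ = σ * ⟪e, tq 1 y⟫_ℝ := by
  rw [inner_tq, inner_tq, Finset.mul_sum]
  refine Finset.sum_congr rfl fun p _ => ?_
  ring

theorem main : ChartHyp (LBD d) := by
  intro e he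
  have he0 : e ≠ 0 := by
    rintro rfl
    simp at he
  obtain ⟨y, hy⟩ := exists_ne e he0
  obtain ⟨σ, hσ, hpos⟩ : ∃ σ : ℝ, |σ| = 1 ∧ 0 < ⟪e, tq σ y⟫_ℝ := by
    rcases lt_or_gt_of_ne hy with h | h
    · refine ⟨-1, by simp, ?_⟩
      rw [tq_sigma]
      linarith
    · refine ⟨1, by simp, h⟩
  set c : ℝ := 1 / (2 * (‖y‖ + 1)) with hc
  have hc0 : 0 < c := by positivity
  set y1 : Sp d := c • y with hy1
  have hy1n : ‖y1‖ ≤ 1 / 2 := by
    rw [hy1, norm_smul, Real.norm_eq_abs, abs_of_pos hc0, hc, div_mul_eq_mul_div, one_mul,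
      div_le_iff₀ (by positivity)]
    linarith
  have hpos1 : 0 < ⟪e, tq σ y1⟫_ℝ := by
    rw [hy1, tq_smul]
    positivity
  have hopen : IsOpen {z : Sp d | 0 < ⟪e, tq σ z⟫_ℝ} :=
    isOpen_lt continuous_const (continuous_const.inner (tq_cont σ))
  obtain ⟨δ', hδ', hball⟩ := Metric.isOpen_iff.mp hopen y1 hpos1
  set δ : ℝ := min (δ' / 2) (1 / 2) with hδ
  have hδ0 : 0 < δ := by
    rw [hδ]
    exact lt_min (by linarith) (by norm_num)
  set y0 : Fin (d + 1) → Sp d :=
    Fin.cons y1 (fun k : Fin d => y1 + δ • EuclideanSpace.single k (1 : ℝ)) with hy0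
  have hz : y0 0 = y1 := rfl
  have hs : ∀ k : Fin d, y0 k.succ = y1 + δ • EuclideanSpace.single k (1 : ℝ) := fun k => rfl
  have hnear : ∀ a, ‖y0 a - y1‖ ≤ δ := by
    intro a
    refine Fin.cases ?_ (fun k => ?_) a
    · rw [hz, sub_self, norm_zero]
      exact hδ0.le
    · rw [hs, add_sub_cancel_left, norm_smul, Real.norm_eq_abs, abs_of_pos hδ0]
      simp
  refine ⟨d + 1, Nat.succ_pos d, (Fintype.card (SI d) + 1) * 6, y0, fun _ => 1 / 2,
    fun _ y => σ • y, fun _ => tq σ, ?_, ?_, ?_⟩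
  · intro a
    refine cap σ hσ (y0 a) ?_
    have h1 := hnear a
    have h2 : ‖y0 a‖ ≤ ‖y0 a - y1‖ + ‖y1‖ := by
      simpa using norm_add_le (y0 a - y1) y1
    have h3 : δ ≤ 1 / 2 := min_le_right _ _
    linarith
  · intro a
    apply hball
    rw [mem_ball, dist_eq_norm]
    have h1 := hnear a
    have h3 : δ ≤ δ' / 2 := min_le_left _ _
    linarith
  · have hσ0 : σ ≠ 0 := by
      rintro rfl
      simp at hσ
    rw [eq_top_iff]
    intro v _
    have h1 : ∀ k : Fin d, EuclideanSpace.single k (1 : ℝ) ∈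
        Submodule.span ℝ (Set.range fun a => σ • y0 a) := by
      intro k
      have h2 : σ • y0 0 ∈ Submodule.span ℝ (Set.range fun a => σ • y0 a) :=
        Submodule.subset_span ⟨0, rfl⟩
      have h3 : σ • y0 k.succ ∈ Submodule.span ℝ (Set.range fun a => σ • y0 a) :=
        Submodule.subset_span ⟨k.succ, rfl⟩
      have h4 : EuclideanSpace.single k (1 : ℝ) =
          (σ * δ)⁻¹ • (σ • y0 k.succ - σ • y0 0) := by
        rw [hz, hs, ← smul_sub, add_sub_cancel_left, smul_smul, smul_smul, mul_assoc,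
          inv_mul_cancel₀ (mul_ne_zero hσ0 hδ0.ne'), one_smul]
      rw [h4]
      exact Submodule.smul_mem _ _ (Submodule.sub_mem _ h3 h2)
    have h0 : v = ∑ j, v j • EuclideanSpace.single j (1 : ℝ) := by
      ext i
      simp [Finset.sum_apply, Pi.single_apply]
    rw [h0]
    exact Submodule.sum_mem _ fun j _ => Submodule.smul_mem _ _ (h1 j)

end BDCH

theorem stmtBDCH : StmtBDCharts := fun _ _ => BDCH.main

end

end TrI
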