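import Pool.Agent.TR.BDK2c

/-!
# Module BDK2: the estimate for the average at scale s_j (symmetric gradient)
-/

open MeasureTheory Metric Set
open scoped InnerProductSpace ContDiff

namespace TrI

noncomputable section

namespace BK2
variable {d : ℕ}

/-- component of u -/
def uc (u : Sp d → Sp d) (i : Fin d) (z : Sp d) : ℝ := u z i

/-- partial derivative of a component of u -/
def Du (u : Sp d → Sp d) (k i : Fin d) (z : Sp d) : ℝ := fderiv ℝ u z (ev k) i

/-- entries of the symmetric gradient -/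
def ep (u : Sp d → Sp d) (k i : Fin d) (z : Sp d) : ℝ := 1 / 2 * (Du u k i z + Du u i k z)

lemma uc_contDiff {u : Sp d → Sp d} (h : TF u) (i : Fin d) : ContDiff ℝ ∞ (uc u i) :=
  (EuclideanSpace.proj (𝕜 := ℝ) i : Sp d →L[ℝ] ℝ).contDiff.comp h.smooth

lemma uc_cs {u : Sp d → Sp d} (h : TF u) (i : Fin d) : HasCompactSupport (uc u i) :=
  h.supp.comp_left (g := fun v : Sp d => v i) rfl

lemma Du_contDiff {u : Sp d → Sp d} (h : TF u) (k i : Fin d) : ContDiff ℝ ∞ (Du u k i) := by
  have h1 : ContDiff ℝ ∞ (fderiv ℝ u) := h.smooth.fderiv_right (m := ∞) (by simp)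
  have h2 : ContDiff ℝ ∞ (fun z => fderiv ℝ u z (ev k)) := h1.clm_apply contDiff_const
  exact (EuclideanSpace.proj (𝕜 := ℝ) i : Sp d →L[ℝ] ℝ).contDiff.comp h2

lemma Du_cs {u : Sp d → Sp d} (h : TF u) (k i : Fin d) : HasCompactSupport (Du u k i) := by
  have h1 : HasCompactSupport (fderiv ℝ u) := h.supp.fderiv (𝕜 := ℝ)
  exact h1.comp_left (g := fun L : Sp d →L[ℝ] Sp d => L (ev k) i) (by simp)

lemma c1 {g : Sp d → ℝ} (h : ContDiff ℝ ∞ g) : ContDiff ℝ 1 g :=
  h.of_le (by exact_mod_cast le_top)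

lemma ep_contDiff {u : Sp d → Sp d} (h : TF u) (k i : Fin d) : ContDiff ℝ ∞ (ep u k i) :=
  contDiff_const.mul ((Du_contDiff h k i).add (Du_contDiff h i k))

lemma ep_cs {u : Sp d → Sp d} (h : TF u) (k i : Fin d) : HasCompactSupport (ep u k i) :=
  ((Du_cs h k i).add (Du_cs h i k)).mul_left

lemma fderiv_uc {u : Sp d → Sp d} (h : TF u) (k i : Fin d) (z : Sp d) :
    fderiv ℝ (uc u i) z (ev k) = Du u k i z := by
  have hd : DifferentiableAt ℝ u z := (h.smooth.differentiable (by simp)) z
  have h1 := ((EuclideanSpace.proj (𝕜 := ℝ) i : Sp d →L[ℝ] ℝ).hasFDerivAt).comp z hd.hasFDerivAt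
  have h2 : (uc u i) = (EuclideanSpace.proj (𝕜 := ℝ) i : Sp d →L[ℝ] ℝ) ∘ u := rfl
  rw [h2, h1.fderiv]; rfl

lemma Du_symm {u : Sp d → Sp d} (h : TF u) (k l i : Fin d) (z : Sp d) :
    fderiv ℝ (Du u k i) z (ev l) = fderiv ℝ (Du u l i) z (ev k) := by
  have hg : ContDiff ℝ ∞ (uc u i) := uc_contDiff h i
  have e : ∀ k, Du u k i = fun z => fderiv ℝ (uc u i) z (ev k) := fun k => by
    funext z; exact (fderiv_uc h k i z).symm
  have hd : DifferentiableAt ℝ (fderiv ℝ (uc u i)) z :=
    ((hg.fderiv_right (m := ∞) (by simp)).differentiable (by simp)) z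
  have h1 : ∀ k l, fderiv ℝ (fun z => fderiv ℝ (uc u i) z (ev k)) z (ev l)
      = fderiv ℝ (fderiv ℝ (uc u i)) z (ev l) (ev k) := by
    intro k l
    rw [fderiv_clm_apply hd (differentiableAt_const _)]
    simp
  rw [e k, e l, h1, h1]
  have hs : IsSymmSndFDerivAt ℝ (uc u i) z := hg.contDiffAt.isSymmSndFDerivAt (by
    rw [minSmoothness_of_isRCLikeNormedField]
    exact two_le_inf)
  exact hs _ _

/-- second derivatives are combinations of first derivatives of the symmetric gradient -/
lemma second {u : Sp d → Sp d} (h : TF u) (k l i : Fin d) (z : Sp d) :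
    fderiv ℝ (Du u k i) z (ev l) = fderiv ℝ (ep u i l) z (ev k) + fderiv ℝ (ep u i k) z (ev l)
      - fderiv ℝ (ep u k l) z (ev i) := by
  have hd : ∀ k i, DifferentiableAt ℝ (Du u k i) z := fun k i =>
    ((Du_contDiff h k i).differentiable (by simp)) z
  have e : ∀ a b m, fderiv ℝ (ep u a b) z (ev m)
      = 1 / 2 * (fderiv ℝ (Du u a b) z (ev m) + fderiv ℝ (Du u b a) z (ev m)) := by
    intro a b m
    have h1 : HasFDerivAt (ep u a b)
        ((1 / 2 : ℝ) • (fderiv ℝ (Du u a b) z + fderiv ℝ (Du u b a) z)) z :=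
      ((hd a b).hasFDerivAt.add (hd b a).hasFDerivAt).const_mul (1 / 2 : ℝ)
    rw [h1.fderiv]
    simp
    ring
  rw [e, e, e, Du_symm h k l i, Du_symm h i k l, Du_symm h i l k, Du_symm h l k i]
  ring

lemma fo_ix {u : Sp d → Sp d} (k i : Fin d) (z : Sp d) :
    (fo (LBD d) u z) (ix i k) = ep u k i z := by
  unfold fo ep Du
  rw [LBD_ix]

lemma fo_cont {u : Sp d → Sp d} (h : TF u) : Continuous (fo (LBD d) u) :=
  (LBD d).continuous.comp (h.smooth.continuous_fderiv (by simp))

lemma fo_cs {u : Sp d → Sp d} (h : TF u) : HasCompactSupport (fo (LBD d) u) := by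
  have h1 : HasCompactSupport (fderiv ℝ u) := h.supp.fderiv (𝕜 := ℝ)
  exact h1.comp_left (g := fun M => LBD d M) (map_zero _)

lemma av_comp {u : Sp d → Sp d} (h : TF u) (s : ℝ) (z : Sp d) (i : Fin d) :
    (av s u z) i = A (bk d) (uc u i) s z := by
  have hi : Integrable (fun y => bk d y • u (z + s • y)) :=
    (LB.of_cont h.smooth.continuous).av_integrable s z
  have h1 := (EuclideanSpace.proj (𝕜 := ℝ) i : Sp d →L[ℝ] ℝ).integral_comp_comm hi
  unfold av avk A
  have h2 : (∫ y, bk d y • u (z + s • y)) i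
      = (EuclideanSpace.proj (𝕜 := ℝ) i : Sp d →L[ℝ] ℝ) (∫ y, bk d y • u (z + s • y)) := rfl
  rw [h2, ← h1]
  refine integral_congr_ae (Filter.Eventually.of_forall fun y => ?_)
  simp [uc]

/-- the matrix with entries of the skew part -/
def skewM (w : Fin d → Fin d → ℝ) : Sp d →L[ℝ] Sp d :=
  LinearMap.toContinuousLinearMap
    { toFun := fun y => WithLp.toLp 2 fun i => ∑ k, w i k * y k
      map_add' := by
        intro y y'; ext i; simp [mul_add, Finset.sum_add_distrib]
      map_smul' := by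
        intro c y; ext i
        simp only [PiLp.smul_apply, smul_eq_mul, RingHom.id_apply, Finset.mul_sum]
        exact Finset.sum_congr rfl fun k _ => by ring }

lemma skewM_apply (w : Fin d → Fin d → ℝ) (y : Sp d) (i : Fin d) :
    skewM w y i = ∑ k, w i k * y k := rfl

lemma skewM_null (w : Fin d → Fin d → ℝ) (hw : ∀ i k, w i k = - w k i) :
    LBD d (skewM w) = 0 := by
  have key : ∀ i k, (LBD d (skewM w)) (ix i k) = 0 := by
    intro i k
    rw [LBD_ix, skewM_apply, skewM_apply]
    have h1 : ∀ a b : Fin d, ∑ m, w a m * (ev b : Sp d) m = w a b := by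
      intro a b
      simp [ev]
    rw [h1, h1, hw i k]; ring
  ext p
  obtain ⟨⟨i, k⟩, hp⟩ := p
  have h2 : ix i k = (⟨(i, k), hp⟩ : SI d) := dif_pos hp
  rw [← h2, key]; rfl

/-- pointwise estimate -/
lemma pointwise (hCG : StmtCG) (hDev : StmtDev) (d : ℕ) : ∃ C : ℝ, 0 ≤ C ∧
    ∀ u : Sp d → Sp d, TF u → ∀ s0 : ℝ, 0 < s0 → ∀ (j : ℕ) (x : Sp d),
      ∃ W : Sp d →L[ℝ] Sp d, LBD d W = 0 ∧ ∀ y : Sp d, ‖y‖ ≤ 2 →
        ‖av (sc s0 j) u (x + sc s0 j • y) - (av (sc s0 j) u x + W y)‖ ≤
          C * (am s0 (fo (LBD d) u) j x + er s0 (fo (LBD d) u) j x) := by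
  obtain ⟨C1, hC1, hkey⟩ := key_scalar hCG hDev d
  obtain ⟨K, hK, ⟨hb1, hb2⟩, hdb⟩ := kernels d
  refine ⟨d * (d * (6 * d + 1) * (C1 * K) * 2), by positivity, ?_⟩
  intro u hu s0 hs j x
  set f := fo (LBD d) u with hf
  set Q := am s0 f j x + er s0 f j x with hQ
  set s := sc s0 j with hsdef
  have hsp : 0 < s := sc_pos hs j
  have hfc : Continuous f := fo_cont hu
  have hfs : HasCompactSupport f := fo_cs hu
  have D : DevFacts (hDev d).choose s0 f := (hDev d).choose_spec.2 (EBD d) f hfc hfs s0 hs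
  have hQ0 : 0 ≤ Q := add_nonneg (D.am_nonneg j x) (D.er_nonneg j x)
  set T := C1 * K * Q with hT
  have hT0 : 0 ≤ T := by positivity
  -- bounds for averages of the entries
  have hep : ∀ k i, ep u k i = fun w => f w (ix i k) := fun k i => by
    funext w; exact (fo_ix k i w).symm
  have hbase : ∀ k i, s * |A (bk d) (ep u k i) s x| ≤ T := by
    intro k i
    rw [hep]
    exact hkey f hfc hfs s0 hs j x x (by simp; positivity) (bk d) K hK hb1
      (fun y hy => bk_zero hy) hb2 (ix i k)
  have hder : ∀ m k i z, ‖z - x‖ ≤ 2 * s → s * |A (dbk m) (ep u k i) s z| ≤ T := by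
    intro m k i z hz
    rw [hep]
    exact hkey f hfc hfs s0 hs j x z hz (dbk m) K hK (hdb m).1
      (fun y hy => by unfold dbk; rw [bk_fderiv_zero hy]; rfl) (hdb m).2 (ix i k)
  -- first derivatives of the average
  set H : Fin d → Fin d → Sp d → ℝ := fun k i z => A (bk d) (Du u k i) s z with hH
  have hbc : Continuous (bk d) := bk_cont
  have hpart : ∀ m k i z, ‖z - x‖ ≤ 2 * s →
      |A (bk d) (fun w => fderiv ℝ (ep u k i) w (ev m)) s z| ≤ T / s ^ 2 := by
    intro m k i z hz
    rw [A_parts bk_contDiff1 bk_cs (c1 (ep_contDiff hu k i)) hsp.ne']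
    have h1 := hder m k i z hz
    have h2 : A (fun η => fderiv ℝ (bk d) η (ev m)) (ep u k i) s z
        = A (dbk m) (ep u k i) s z := rfl
    rw [h2, abs_mul, abs_neg, abs_of_pos (by positivity : (0 : ℝ) < 1 / s), le_div_iff₀ (by positivity)]
    calc 1 / s * |A (dbk m) (ep u k i) s z| * s ^ 2 = s * |A (dbk m) (ep u k i) s z| := by
          field_simp
      _ ≤ T := h1
  have hHd : ∀ k i, Differentiable ℝ (H k i) := fun k i =>
    diff_A hbc bk_cs (c1 (Du_contDiff hu k i)) (Du_cs hu k i) s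
  have hHder : ∀ k i l z, ‖z - x‖ ≤ 2 * s → |fderiv ℝ (H k i) z (ev l)| ≤ 3 * (T / s ^ 2) := by
    intro k i l z hz
    have hc : ∀ a b m, Continuous (fun w => fderiv ℝ (ep u a b) w (ev m)) := by
      intro a b m
      have := (c1 (ep_contDiff hu a b)).continuous_fderiv (by norm_num)
      fun_prop
    have e1 : fderiv ℝ (H k i) z (ev l)
        = A (bk d) (fun w => fderiv ℝ (ep u i l) w (ev k)) s z
          + A (bk d) (fun w => fderiv ℝ (ep u i k) w (ev l)) s z
          - A (bk d) (fun w => fderiv ℝ (ep u k l) w (ev i)) s z := by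
      rw [hH]
      simp only
      rw [fderiv_A hbc bk_cs (c1 (Du_contDiff hu k i)) (Du_cs hu k i)]
      have hadd : Continuous (fun w => fderiv ℝ (ep u i l) w (ev k)
          + fderiv ℝ (ep u i k) w (ev l)) := (hc _ _ _).add (hc _ _ _)
      rw [← A_add hbc bk_cs (hc _ _ _) (hc _ _ _), ← A_sub hbc bk_cs hadd (hc _ _ _)]
      congr 1
      funext w
      exact second hu k l i w
    rw [e1]
    have p1 := hpart k i l z hz
    have p2 := hpart l i k z hz
    have p3 := hpart i k l z hz
    have t1 := abs_sub (A (bk d) (fun w => fderiv ℝ (ep u i l) w (ev k)) s z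
          + A (bk d) (fun w => fderiv ℝ (ep u i k) w (ev l)) s z)
          (A (bk d) (fun w => fderiv ℝ (ep u k l) w (ev i)) s z)
    have t2 := abs_add_le (A (bk d) (fun w => fderiv ℝ (ep u i l) w (ev k)) s z)
          (A (bk d) (fun w => fderiv ℝ (ep u i k) w (ev l)) s z)
    linarith
  have hball : ∀ z, ‖z - x‖ ≤ 2 * s ↔ z ∈ closedBall x (2 * s) := fun z => by
    rw [mem_closedBall, dist_eq_norm]
  have hxb : x ∈ closedBall x (2 * s) := mem_closedBall_self (by positivity)
  have hvar : ∀ k i z, ‖z - x‖ ≤ 2 * s → |H k i z - H k i x| ≤ 6 * d * (T / s) := by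
    intro k i z hz
    have h1 := (convex_closedBall x (2 * s)).norm_image_sub_le_of_norm_fderiv_le (𝕜 := ℝ)
      (f := H k i) (C := d * (3 * (T / s ^ 2))) (fun w _ => hHd k i w)
      (fun w hw => opnorm_le _ (fun l => hHder k i l w ((hball w).2 hw)) (by positivity))
      hxb ((hball z).1 hz)
    rw [Real.norm_eq_abs] at h1
    refine h1.trans ?_
    calc d * (3 * (T / s ^ 2)) * ‖z - x‖ ≤ d * (3 * (T / s ^ 2)) * (2 * s) := by gcongr
      _ = 6 * d * (T / s) := by field_simp; ring
  -- the skew part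
  set w : Fin d → Fin d → ℝ := fun i k => 1 / 2 * (H k i x - H i k x) with hw
  have hHs : ∀ k i, 1 / 2 * (H k i x + H i k x) = A (bk d) (ep u k i) s x := by
    intro k i
    rw [hH]
    simp only
    rw [← A_add hbc bk_cs (Du_contDiff hu k i).continuous (Du_contDiff hu i k).continuous]
    unfold A
    rw [← integral_const_mul]
    refine integral_congr_ae (Filter.Eventually.of_forall fun η => ?_)
    simp only [ep]; ring
  refine ⟨s • skewM w, ?_, ?_⟩
  · rw [map_smul, skewM_null w (fun i k => by simp only [hw]; ring), smul_zero]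
  intro y hy
  refine (norm_le_comp _ (c := d * (6 * d + 1) * (C1 * K) * 2 * Q) ?_).trans
    (le_of_eq (by ring))
  intro i
  -- the function R
  set R : Sp d → ℝ := fun z => A (bk d) (uc u i) s z - skewM w z i with hR
  have hRd : ∀ z, HasFDerivAt R (fderiv ℝ (A (bk d) (uc u i) s) z -
      ((EuclideanSpace.proj (𝕜 := ℝ) i : Sp d →L[ℝ] ℝ).comp (skewM w))) z := by
    intro z
    have h1 := (diff_A hbc bk_cs (c1 (uc_contDiff hu i)) (uc_cs hu i) s z).hasFDerivAt
    have h2 := ((EuclideanSpace.proj (𝕜 := ℝ) i : Sp d →L[ℝ] ℝ).comp (skewM w)).hasFDerivAt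
      (x := z)
    exact h1.sub h2
  have hRk : ∀ z, ‖z - x‖ ≤ 2 * s → ∀ k, |fderiv ℝ R z (ev k)| ≤ (6 * d + 1) * (T / s) := by
    intro z hz k
    rw [(hRd z).fderiv]
    have e1 : (fderiv ℝ (A (bk d) (uc u i) s) z -
      ((EuclideanSpace.proj (𝕜 := ℝ) i : Sp d →L[ℝ] ℝ).comp (skewM w))) (ev k)
        = H k i z - w i k := by
      rw [sub_apply, fderiv_A hbc bk_cs (c1 (uc_contDiff hu i)) (uc_cs hu i)]
      congr 1
      · rw [hH]
        simp only
        congr 1
        funext w'
        exact fderiv_uc hu k i w'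
      · show skewM w (ev k) i = w i k
        rw [skewM_apply]
        simp [ev]
    rw [e1]
    have e2 : H k i z - w i k = (H k i z - H k i x) + 1 / 2 * (H k i x + H i k x) := by
      simp only [hw]; ring
    rw [e2, hHs]
    have t1 := abs_add_le (H k i z - H k i x) (A (bk d) (ep u k i) s x)
    have t2 := hvar k i z hz
    have t3 : |A (bk d) (ep u k i) s x| ≤ T / s := by
      rw [le_div_iff₀ hsp]
      have := hbase k i
      linarith
    linarith
  have hz : ‖x + s • y - x‖ ≤ 2 * s := by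
    rw [add_sub_cancel_left, norm_smul, Real.norm_eq_abs, abs_of_pos hsp]
    nlinarith [norm_nonneg y]
  have h1 := (convex_closedBall x (2 * s)).norm_image_sub_le_of_norm_fderiv_le (𝕜 := ℝ)
      (f := R) (C := d * ((6 * d + 1) * (T / s))) (fun w _ => (hRd w).differentiableAt)
      (fun w hw => opnorm_le _ (fun l => hRk w ((hball w).2 hw) l) (by positivity))
      hxb ((hball _).1 hz)
  rw [Real.norm_eq_abs] at h1
  have e3 : (av s u (x + s • y) - (av s u x + (s • skewM w) y)) i = R (x + s • y) - R x := by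
    rw [hR]
    simp only
    rw [PiLp.sub_apply, PiLp.add_apply, av_comp hu, av_comp hu, map_add, PiLp.add_apply,
      map_smul]
    show _ - (_ + (s • skewM w y) i) = _
    ring
  rw [e3]
  refine h1.trans ?_
  calc d * ((6 * d + 1) * (T / s)) * ‖x + s • y - x‖
      ≤ d * ((6 * d + 1) * (T / s)) * (2 * s) := by gcongr
    _ = d * (6 * d + 1) * (C1 * K) * 2 * Q := by rw [hT]; field_simp

end BK2

open BK2

theorem stmtBDK2 (hCG : StmtCG) (hDev : StmtDev) : StmtBDK2 := by
  intro d
  obtain ⟨C, hC, hP⟩ := pointwise hCG hDev d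
  rcases Nat.eq_zero_or_pos d with hd | hd
  · subst hd
    refine ⟨0, le_rfl, ?_⟩
    intro u _ s0 _ j x lam l _ _ _ _
    have : ∀ y, ⟪lam y, avk (bk 0) (sc s0 j) u (x + sc s0 j • y)⟫_ℝ = 0 := by
      intro y
      have h0 : lam y = 0 := Subsingleton.elim _ _
      rw [h0, inner_zero_left]
    simp [this]
  set vol := (volume : Measure (Sp d)).real (ball (0 : Sp d) 2) with hvol
  refine ⟨4 * C * vol, by positivity, ?_⟩
  intro u hu s0 hs j x lam l hl hlip hsupp hann
  obtain ⟨W, hW, hy⟩ := hP u hu s0 hs j x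
  set s := sc s0 j with hsdef
  set Q := am s0 (fo (LBD d) u) j x + er s0 (fo (LBD d) u) j x with hQ
  have hlamc : Continuous lam := by
    have hL : LipschitzWith (Real.toNNReal l) lam := by
      refine LipschitzWith.of_dist_le_mul fun y y' => ?_
      rw [dist_eq_norm, dist_eq_norm, Real.coe_toNNReal l hl]
      exact hlip y y'
    exact hL.continuous
  have hlams : HasCompactSupport lam := by
    refine HasCompactSupport.intro (isCompact_closedBall (0 : Sp d) 2) ?_
    intro y hy
    refine hsupp y ?_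
    rw [mem_closedBall_zero_iff] at hy
    linarith
  have hlamb : ∀ y, ‖lam y‖ ≤ 4 * l := by
    intro y
    by_cases h2 : 2 ≤ ‖y‖
    · rw [hsupp y h2, norm_zero]; positivity
    · push Not at h2
      set e : Sp d := EuclideanSpace.single ⟨0, hd⟩ (4 : ℝ) with he
      have hen : ‖e‖ = 4 := by rw [he, PiLp.norm_single]; norm_num
      have h3 : 2 ≤ ‖y + e‖ := by
        have := norm_sub_le (y + e) y
        rw [add_sub_cancel_left, hen] at this
        linarith
      have h4 := hlip y (y + e)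
      rw [hsupp _ h3, sub_zero, sub_add_cancel_left, norm_neg, hen] at h4
      linarith
  have hav : Continuous (av s u) := av_cont hu.smooth.continuous s
  have hann0 : ∫ y, ⟪lam y, av s u x + W y⟫_ℝ = 0 := by
    refine hann (fun y => av s u x + W y) ⟨?_, ?_⟩
    · exact contDiff_const.add W.contDiff
    · intro z
      have : HasFDerivAt (fun y => av s u x + W y) W z := W.hasFDerivAt.const_add _
      rw [this.fderiv, hW]
  have cs : ∀ {g : Sp d → Sp d}, Continuous g → Integrable (fun y => ⟪lam y, g y⟫_ℝ) := by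
    intro g hg
    refine Continuous.integrable_of_hasCompactSupport (by fun_prop) ?_
    refine HasCompactSupport.intro (isCompact_closedBall (0 : Sp d) 2) ?_
    intro y hy
    rw [mem_closedBall_zero_iff] at hy
    rw [hsupp y (by linarith), inner_zero_left]
  have hc1 : Continuous (fun y : Sp d => av s u (x + s • y)) := by fun_prop
  have hc2 : Continuous (fun y : Sp d => av s u x + W y) := by fun_prop
  have hsplit : ∫ y, ⟪lam y, avk (bk d) s u (x + s • y)⟫_ℝ
      = ∫ y, ⟪lam y, av s u (x + s • y) - (av s u x + W y)⟫_ℝ := by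
    have : ∫ y, ⟪lam y, av s u (x + s • y) - (av s u x + W y)⟫_ℝ
        = (∫ y, ⟪lam y, av s u (x + s • y)⟫_ℝ) - ∫ y, ⟪lam y, av s u x + W y⟫_ℝ := by
      rw [← integral_sub (cs hc1) (cs hc2)]
      refine integral_congr_ae (Filter.Eventually.of_forall fun y => ?_)
      simp only; rw [inner_sub_right]
    rw [this, hann0, sub_zero]; rfl
  rw [hsplit]
  have e1 : ∫ y, ⟪lam y, av s u (x + s • y) - (av s u x + W y)⟫_ℝ
      = ∫ y in ball (0 : Sp d) 2, ⟪lam y, av s u (x + s • y) - (av s u x + W y)⟫_ℝ := by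
    rw [setIntegral_eq_integral_of_forall_compl_eq_zero]
    intro y hy
    rw [mem_ball_zero_iff, not_lt] at hy
    rw [hsupp y hy, inner_zero_left]
  rw [e1, ← Real.norm_eq_abs]
  refine (norm_setIntegral_le_of_norm_le_const (C := 4 * l * (C * Q)) measure_ball_lt_top
    ?_).trans (le_of_eq (by rw [← hvol]; ring))
  intro y hyb
  rw [mem_ball_zero_iff] at hyb
  refine (norm_inner_le_norm _ _).trans ?_
  exact mul_le_mul (hlamb y) (hy y hyb.le) (norm_nonneg _) (by positivity)

end
end TrI
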