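import Pool.Agent.TR.Stmts
import Pool.Agent.TR.Basic

/-!
# Module BDK2, part a: averages of scalar functions and their derivatives
-/

open MeasureTheory Metric Set
open scoped InnerProductSpace ContDiff

namespace TrI

noncomputable section

namespace BK2
variable {d : ℕ}

/-- basis vector -/
abbrev ev (k : Fin d) : Sp d := EuclideanSpace.single k (1 : ℝ)

/-- average of `g` at scale `s` with weight `a` -/
def A (a g : Sp d → ℝ) (s : ℝ) (z : Sp d) : ℝ := ∫ η, a η * g (z + s • η)

lemma int_A {a g : Sp d → ℝ} (ha : Continuous a) (ha' : HasCompactSupport a)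
    (hg : Continuous g) (s : ℝ) (z : Sp d) : Integrable (fun η => a η * g (z + s • η)) := by
  refine Continuous.integrable_of_hasCompactSupport (by fun_prop) ?_
  exact ha'.mul_right

lemma cs_aff {g : Sp d → ℝ} {s : ℝ} (hs : s ≠ 0) (hg : HasCompactSupport g) (z : Sp d) :
    HasCompactSupport (fun η : Sp d => g (z + s • η)) := by
  have h1 : HasCompactSupport (fun η : Sp d => g (z + η)) :=
    hg.comp_homeomorph (Homeomorph.addLeft z)
  exact h1.comp_homeomorph (Homeomorph.smulOfNeZero s hs)

lemma hasFDerivAt_A {a g : Sp d → ℝ} (ha : Continuous a) (ha' : HasCompactSupport a)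
    (hg : ContDiff ℝ 1 g) (hg' : HasCompactSupport g) (s : ℝ) (z : Sp d) :
    HasFDerivAt (A a g s) (∫ η, a η • fderiv ℝ g (z + s • η)) z := by
  have hc : Continuous (fderiv ℝ g) := hg.continuous_fderiv (by norm_num)
  have hcs : HasCompactSupport (fderiv ℝ g) := hg'.fderiv (𝕜 := ℝ)
  obtain ⟨K, hK⟩ := hc.bounded_above_of_compact_support hcs
  have hdiff : Differentiable ℝ g := hg.differentiable (by norm_num)
  refine hasFDerivAt_integral_of_dominated_of_fderiv_le (𝕜 := ℝ) (μ := volume) (s := univ)
    (F := fun z η => a η * g (z + s • η)) (F' := fun z η => a η • fderiv ℝ g (z + s • η))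
    (bound := fun η => |a η| * K) Filter.univ_mem ?_ ?_ ?_ ?_ ?_ ?_
  · refine Filter.Eventually.of_forall fun w => ?_
    have : Continuous fun η => a η * g (w + s • η) := by
      have := hg.continuous
      fun_prop
    exact this.aestronglyMeasurable
  · exact int_A ha ha' hg.continuous s z
  · have : Continuous fun η => a η • fderiv ℝ g (z + s • η) := by fun_prop
    exact this.aestronglyMeasurable
  · refine Filter.Eventually.of_forall fun η w _ => ?_
    rw [norm_smul, Real.norm_eq_abs]
    exact mul_le_mul_of_nonneg_left (hK _) (abs_nonneg _)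
  · refine Integrable.mul_const ?_ K
    exact (Continuous.integrable_of_hasCompactSupport ha ha').abs
  · refine Filter.Eventually.of_forall fun η w _ => ?_
    have h1 : HasFDerivAt (fun w : Sp d => w + s • η) (ContinuousLinearMap.id ℝ (Sp d)) w :=
      (hasFDerivAt_id w).add_const _
    have h2 : HasFDerivAt g (fderiv ℝ g (w + s • η)) (w + s • η) :=
      (hdiff _).hasFDerivAt
    have h3 := (h2.comp w h1).const_smul (a η)
    rw [ContinuousLinearMap.comp_id] at h3
    exact h3

lemma diff_A {a g : Sp d → ℝ} (ha : Continuous a) (ha' : HasCompactSupport a)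
    (hg : ContDiff ℝ 1 g) (hg' : HasCompactSupport g) (s : ℝ) : Differentiable ℝ (A a g s) :=
  fun z => (hasFDerivAt_A ha ha' hg hg' s z).differentiableAt

lemma fderiv_A {a g : Sp d → ℝ} (ha : Continuous a) (ha' : HasCompactSupport a)
    (hg : ContDiff ℝ 1 g) (hg' : HasCompactSupport g) (s : ℝ) (z h : Sp d) :
    fderiv ℝ (A a g s) z h = A a (fun w => fderiv ℝ g w h) s z := by
  rw [(hasFDerivAt_A ha ha' hg hg' s z).fderiv]
  have hc : Continuous (fderiv ℝ g) := hg.continuous_fderiv (by norm_num)
  rw [ContinuousLinearMap.integral_apply]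
  · rfl
  · refine Continuous.integrable_of_hasCompactSupport (by fun_prop) ?_
    exact ha'.smul_right

lemma A_add {a g h : Sp d → ℝ} (ha : Continuous a) (ha' : HasCompactSupport a)
    (hg : Continuous g) (hh : Continuous h) (s : ℝ) (z : Sp d) :
    A a (fun w => g w + h w) s z = A a g s z + A a h s z := by
  unfold A
  rw [← integral_add (int_A ha ha' hg s z) (int_A ha ha' hh s z)]
  refine integral_congr_ae (Filter.Eventually.of_forall fun η => ?_)
  simp only; ring

lemma A_sub {a g h : Sp d → ℝ} (ha : Continuous a) (ha' : HasCompactSupport a)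
    (hg : Continuous g) (hh : Continuous h) (s : ℝ) (z : Sp d) :
    A a (fun w => g w - h w) s z = A a g s z - A a h s z := by
  unfold A
  rw [← integral_sub (int_A ha ha' hg s z) (int_A ha ha' hh s z)]
  refine integral_congr_ae (Filter.Eventually.of_forall fun η => ?_)
  simp only; ring

/-- integration by parts -/
lemma A_parts {a g : Sp d → ℝ} (ha : ContDiff ℝ 1 a) (ha' : HasCompactSupport a)
    (hg : ContDiff ℝ 1 g) {s : ℝ} (hs : s ≠ 0) (z h : Sp d) :
    A a (fun w => fderiv ℝ g w h) s z = -(1 / s) * A (fun η => fderiv ℝ a η h) g s z := by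
  have hca : Continuous (fderiv ℝ a) := ha.continuous_fderiv (by norm_num)
  have hcg : Continuous (fderiv ℝ g) := hg.continuous_fderiv (by norm_num)
  have hda : Differentiable ℝ a := ha.differentiable (by norm_num)
  have hdg : Differentiable ℝ g := hg.differentiable (by norm_num)
  have hc1 := ha.continuous
  have hc2 := hg.continuous
  have hder : ∀ η, fderiv ℝ (fun η => g (z + s • η)) η h = s * fderiv ℝ g (z + s • η) h := by
    intro η
    have h1 : HasFDerivAt (fun w : Sp d => z + s • w) (s • ContinuousLinearMap.id ℝ (Sp d)) η :=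
      ((hasFDerivAt_id η).const_smul s).const_add _
    have h2 := (hdg (z + s • η)).hasFDerivAt.comp η h1
    have h3 : (fun η => g (z + s • η)) = g ∘ fun w : Sp d => z + s • w := rfl
    rw [h3, h2.fderiv]
    simp
  have hcs : HasCompactSupport (fun η => fderiv ℝ a η h) := by
    have := ha'.fderiv (𝕜 := ℝ)
    exact this.comp_left (g := fun L : Sp d →L[ℝ] ℝ => L h) (by simp)
  have key := integral_mul_fderiv_eq_neg_fderiv_mul_of_integrable (μ := (volume : Measure (Sp d)))
    (f := a) (g := fun η => g (z + s • η)) (v := h) ?_ ?_ ?_ (fun x _ => hda x) ?_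
  · unfold A
    have e1 : ∫ η, a η * fderiv ℝ (fun η => g (z + s • η)) η h
        = s * ∫ η, a η * fderiv ℝ g (z + s • η) h := by
      rw [← integral_const_mul]
      refine integral_congr_ae (Filter.Eventually.of_forall fun η => ?_)
      simp only [hder]; ring
    rw [e1] at key
    field_simp
    linarith
  · exact int_A (by fun_prop) hcs hc2 s z
  · refine Continuous.integrable_of_hasCompactSupport ?_ ha'.mul_right
    simp only [hder]
    fun_prop
  · exact int_A hc1 ha' hc2 s z
  · intro x _
    have : DifferentiableAt ℝ (fun w : Sp d => z + s • w) x := by fun_prop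
    exact (hdg _).comp x this

end BK2
end
end TrI
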