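import Pool.Agent.TR.BDK2b

/-!
# Module BDK2, part c: scalar entries, kernels, linear algebra
-/

open MeasureTheory Metric Set
open scoped InnerProductSpace ContDiff

namespace TrI

noncomputable section

namespace BK2
variable {d : ℕ}

lemma lip_bd {g : Sp d → ℝ} (hg : ContDiff ℝ 1 g) (hcs : HasCompactSupport g) :
    ∃ K : ℝ, 0 ≤ K ∧ (∀ y y', |g y - g y'| ≤ K * ‖y - y'‖) ∧ ∀ y, |g y| ≤ K := by
  obtain ⟨L, hL⟩ := ContDiff.lipschitzWith_of_hasCompactSupport (𝕂 := ℝ) hcs hg one_ne_zero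
  obtain ⟨M, hM⟩ := hg.continuous.bounded_above_of_compact_support hcs
  refine ⟨L + |M|, by positivity, ?_, ?_⟩
  · intro y y'
    have h1 := hL.dist_le_mul y y'
    rw [dist_eq_norm, dist_eq_norm, Real.norm_eq_abs] at h1
    have h2 : 0 ≤ |M| * ‖y - y'‖ := by positivity
    linarith
  · intro y
    have h1 := hM y
    rw [Real.norm_eq_abs] at h1
    have h2 := le_abs_self M
    have h3 : (0 : ℝ) ≤ L := L.coe_nonneg
    linarith

lemma bk_cs : HasCompactSupport (bk d) := by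
  refine HasCompactSupport.intro (isCompact_closedBall (0 : Sp d) 1) ?_
  intro y hy
  rw [mem_closedBall_zero_iff, not_le] at hy
  exact bk_zero hy.le

lemma bk_fderiv_zero {y : Sp d} (h : 1 ≤ ‖y‖) : fderiv ℝ (bk d) y = 0 := by
  have hmin : IsLocalMin (bk d) y := by
    refine Filter.Eventually.of_forall fun w => ?_
    rw [bk_zero h]
    exact bk_nonneg w
  exact hmin.fderiv_eq_zero

/-- the partial derivatives of the kernel -/
def dbk (k : Fin d) (y : Sp d) : ℝ := fderiv ℝ (bk d) y (ev k)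

lemma two_le_inf : ((1 + 1 : WithTop ℕ∞)) ≤ ∞ := by
  have h : ((1 + 1 : WithTop ℕ∞)) = ((2 : ℕ∞) : WithTop ℕ∞) := by norm_num
  rw [h]; exact_mod_cast (le_top : (2 : ℕ∞) ≤ ⊤)

lemma bk_contDiff1 : ContDiff ℝ 1 (bk d) := bk_contDiff.of_le (by exact_mod_cast le_top)

lemma dbk_contDiff (k : Fin d) : ContDiff ℝ 1 (dbk (d := d) k) := by
  have h1 : ContDiff ℝ 1 (fderiv ℝ (bk d)) :=
    (bk_contDiff (d := d)).fderiv_right (m := 1) two_le_inf
  exact h1.clm_apply contDiff_const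

lemma dbk_cs (k : Fin d) : HasCompactSupport (dbk (d := d) k) := by
  refine HasCompactSupport.intro (isCompact_closedBall (0 : Sp d) 1) ?_
  intro y hy
  rw [mem_closedBall_zero_iff, not_le] at hy
  unfold dbk
  rw [bk_fderiv_zero hy.le]; rfl

/-- common constant of all kernels -/
lemma kernels (d : ℕ) : ∃ K : ℝ, 0 ≤ K ∧ ((∀ y y', |bk d y - bk d y'| ≤ K * ‖y - y'‖) ∧
      ∀ y, |bk d y| ≤ K) ∧
    ∀ k : Fin d, (∀ y y', |dbk k y - dbk k y'| ≤ K * ‖y - y'‖) ∧ ∀ y, |dbk k y| ≤ K := by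
  obtain ⟨K0, h0, h1, h2⟩ := lip_bd (bk_contDiff1 (d := d)) bk_cs
  choose K hK0 hK1 hK2 using fun k : Fin d => lip_bd (dbk_contDiff k) (dbk_cs k)
  have hsum : 0 ≤ ∑ k, K k := Finset.sum_nonneg fun k _ => hK0 k
  refine ⟨K0 + ∑ k, K k, by positivity, ⟨?_, ?_⟩, ?_⟩
  · intro y y'
    refine (h1 y y').trans ?_
    exact mul_le_mul_of_nonneg_right (by linarith) (norm_nonneg _)
  · intro y
    have := h2 y
    linarith
  · intro k
    have hk : K k ≤ ∑ k, K k := Finset.single_le_sum (fun i _ => hK0 i) (Finset.mem_univ k)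
    refine ⟨?_, ?_⟩
    · intro y y'
      refine (hK1 k y y').trans ?_
      exact mul_le_mul_of_nonneg_right (by linarith) (norm_nonneg _)
    · intro y
      have := hK2 k y
      linarith

/-- scalar version of the key bound -/
lemma key_scalar (hCG : StmtCG) (hDev : StmtDev) (d : ℕ) : ∃ C : ℝ, 0 ≤ C ∧
    ∀ f : Sp d → EBD d, Continuous f → HasCompactSupport f → ∀ s0 : ℝ, 0 < s0 →
      ∀ (j : ℕ) (x z : Sp d), ‖z - x‖ ≤ 2 * sc s0 j →
      ∀ (a : Sp d → ℝ) (K : ℝ), 0 ≤ K → (∀ y y', |a y - a y'| ≤ K * ‖y - y'‖) →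
        (∀ y, 1 ≤ ‖y‖ → a y = 0) → (∀ y, |a y| ≤ K) → ∀ p : SI d,
        sc s0 j * |A a (fun w => f w p) (sc s0 j) z| ≤
          C * K * (am s0 f j x + er s0 f j x) := by
  obtain ⟨C, hC, h⟩ := key hCG hDev d
  refine ⟨2 * C, by linarith, ?_⟩
  intro f hf hf' s0 hs j x z hz a K hK hlip hsupp hbd p
  have h1 := h (EBD d) f hf hf' s0 hs j x z hz
    (fun y => a y • EuclideanSpace.single p (1 : ℝ)) K K hK hK ?_ ?_ ?_
  · have e1 : ∫ y, ⟪a y • (EuclideanSpace.single p (1 : ℝ) : EBD d), f (z + sc s0 j • y)⟫_ℝ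
        = A a (fun w => f w p) (sc s0 j) z := by
      unfold A
      refine integral_congr_ae (Filter.Eventually.of_forall fun y => ?_)
      simp only
      rw [real_inner_smul_left, EuclideanSpace.inner_single_left]
      simp
    rw [e1] at h1
    linarith
  · intro y y'
    rw [← sub_smul, norm_smul, PiLp.norm_single, norm_one, mul_one, Real.norm_eq_abs]
    exact hlip y y'
  · intro y hy
    rw [hsupp y hy, zero_smul]
  · intro y
    rw [norm_smul, PiLp.norm_single, norm_one, mul_one, Real.norm_eq_abs]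
    exact hbd y

lemma sum_ev (v : Sp d) : v = ∑ k, v k • ev k := by
  conv_lhs => rw [← (EuclideanSpace.basisFun (Fin d) ℝ).sum_repr v]
  simp [ev]

lemma opnorm_le (L : Sp d →L[ℝ] ℝ) {c : ℝ} (h : ∀ k, |L (ev k)| ≤ c) (hc : 0 ≤ c) :
    ‖L‖ ≤ d * c := by
  refine ContinuousLinearMap.opNorm_le_bound _ (by positivity) fun v => ?_
  conv_lhs => rw [sum_ev v, map_sum]
  refine (norm_sum_le _ _).trans ?_
  have h1 : ∀ k ∈ (Finset.univ : Finset (Fin d)), ‖L (v k • ev k)‖ ≤ c * ‖v‖ := by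
    intro k _
    rw [map_smul, norm_smul, mul_comm, Real.norm_eq_abs (L _)]
    exact mul_le_mul (h k) (PiLp.norm_apply_le v k) (norm_nonneg _) hc
  refine (Finset.sum_le_sum h1).trans ?_
  rw [Finset.sum_const, Finset.card_univ, Fintype.card_fin, nsmul_eq_mul]
  linarith

lemma norm_le_comp (v : Sp d) {c : ℝ} (h : ∀ k, |v k| ≤ c) : ‖v‖ ≤ d * c := by
  conv_lhs => rw [sum_ev v]
  refine (norm_sum_le _ _).trans ?_
  have h1 : ∀ k ∈ (Finset.univ : Finset (Fin d)), ‖v k • (ev k : Sp d)‖ ≤ c := by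
    intro k _
    rw [norm_smul, PiLp.norm_single, norm_one, mul_one]
    exact h k
  refine (Finset.sum_le_sum h1).trans ?_
  rw [Finset.sum_const, Finset.card_univ, Fintype.card_fin, nsmul_eq_mul]

/-- index of an entry -/
def ix (i k : Fin d) : SI d := if h : i ≤ k then ⟨(i, k), h⟩ else ⟨(k, i), le_of_not_ge h⟩

lemma LBD_ix (M : Sp d →L[ℝ] Sp d) (i k : Fin d) :
    (LBD d M) (ix i k) = 1 / 2 * (M (ev k) i + M (ev i) k) := by
  by_cases h : i ≤ k
  · have e : ix i k = ⟨(i, k), h⟩ := dif_pos h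
    rw [e]; rfl
  · have e : ix i k = ⟨(k, i), le_of_not_ge h⟩ := dif_neg h
    rw [e]
    show (1 / 2 : ℝ) * (M (EuclideanSpace.single i 1) k + M (EuclideanSpace.single k 1) i) = _
    ring

end BK2
end
end TrI
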