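import Pool.Agent.TR.BDK2

/-!
# Module BDR: representation of the difference of two averages by the symmetric gradient
-/

open MeasureTheory Metric Set
open scoped InnerProductSpace ContDiff

namespace TrI

noncomputable section

namespace BR
open BK2
variable {d : ℕ}

/-- parameter set -/
def PS (d : ℕ) : Set (Sp d × ℝ) := closedBall 0 1 ×ˢ Icc 0 1

lemma PS_compact : IsCompact (PS d) := (isCompact_closedBall _ _).prod isCompact_Icc

lemma PS_meas : MeasurableSet (PS d) := PS_compact.isClosed.measurableSet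

/-- spread kernel -/
def kp (w : Sp d × ℝ → ℝ) (β : Sp d → ℝ) (r : ℝ) (y : Sp d) : ℝ :=
  ∫ p in PS d, w p * β (y - (p.2 * r) • p.1)

lemma kp_cont {w : Sp d × ℝ → ℝ} {β : Sp d → ℝ} (hw : Continuous w) (hβ : Continuous β) (r : ℝ) :
    Continuous (kp w β r) := by
  refine continuous_parametric_integral_of_continuous ?_ PS_compact
  fun_prop

lemma PS_norm {p : Sp d × ℝ} (hp : p ∈ PS d) {r : ℝ} (hr : 0 ≤ r) : ‖(p.2 * r) • p.1‖ ≤ r := by
  obtain ⟨h1, h2⟩ := hp
  rw [mem_closedBall_zero_iff] at h1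
  rw [norm_smul, Real.norm_eq_abs, abs_of_nonneg (mul_nonneg h2.1 hr)]
  nlinarith [h2.1, h2.2, norm_nonneg p.1, mul_nonneg h2.1 hr]

lemma kp_supp {w : Sp d × ℝ → ℝ} {β : Sp d → ℝ} (hβ : ∀ y, 1 ≤ ‖y‖ → β y = 0) {r : ℝ}
    (hr : 0 ≤ r) {y : Sp d} (hy : 1 + r ≤ ‖y‖) : kp w β r y = 0 := by
  refine setIntegral_eq_zero_of_forall_eq_zero fun p hp => ?_
  have h1 := PS_norm hp hr
  have h2 := norm_sub_norm_le y ((p.2 * r) • p.1)
  rw [hβ _ (by linarith), mul_zero]

/-- Fubini -/
lemma swapPS {h : Sp d → Sp d × ℝ → ℝ} (hc : Continuous (Function.uncurry h)) {R : ℝ}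
    (h0 : ∀ p ∈ PS d, ∀ y, R ≤ ‖y‖ → h y p = 0) :
    ∫ y, ∫ p in PS d, h y p = ∫ p in PS d, ∫ y, h y p := by
  refine integral_integral_swap ?_
  have e : (volume : Measure (Sp d)).prod (volume.restrict (PS d))
      = ((volume : Measure (Sp d)).prod (volume : Measure (Sp d × ℝ))).restrict
        (univ ×ˢ PS d) := by
    rw [← Measure.prod_restrict, Measure.restrict_univ]
  rw [e]
  change IntegrableOn _ _ _
  have h1 : IntegrableOn (Function.uncurry h) (closedBall (0 : Sp d) R ×ˢ PS d)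
      ((volume : Measure (Sp d)).prod (volume : Measure (Sp d × ℝ))) := by
    exact hc.continuousOn.integrableOn_compact ((isCompact_closedBall _ _).prod PS_compact)
  refine h1.of_forall_sdiff_eq_zero (MeasurableSet.univ.prod PS_meas) ?_
  rintro ⟨y, p⟩ ⟨⟨_, hp⟩, hn⟩
  refine h0 p hp y ?_
  by_contra hlt
  exact hn ⟨by rw [mem_closedBall_zero_iff]; exact (not_le.mp hlt).le, hp⟩

lemma kp_rep {w : Sp d × ℝ → ℝ} {β : Sp d → ℝ} (hw : Continuous w) (hβ : Continuous β)
    (hβ0 : ∀ y, 1 ≤ ‖y‖ → β y = 0) {r : ℝ} (hr : 0 ≤ r) {g : Sp d → ℝ} (hg : Continuous g)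
    (s : ℝ) (z : Sp d) :
    ∫ y, kp w β r y * g (z + s • y) =
      ∫ p in PS d, w p * A β g s (z + (p.2 * (s * r)) • p.1) := by
  have h1 : ∀ y, kp w β r y * g (z + s • y)
      = ∫ p in PS d, w p * β (y - (p.2 * r) • p.1) * g (z + s • y) := by
    intro y
    unfold kp
    rw [← integral_mul_const]
  simp_rw [h1]
  rw [swapPS (R := 1 + r) (by fun_prop)]
  · refine setIntegral_congr_fun PS_meas fun p _ => ?_
    have h2 := integral_sub_right_eq_self (μ := (volume : Measure (Sp d)))
      (fun y => w p * β y * g (z + s • (y + (p.2 * r) • p.1))) ((p.2 * r) • p.1)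
    simp only [sub_add_cancel] at h2
    rw [h2]
    unfold A
    rw [← integral_const_mul]
    refine integral_congr_ae (Filter.Eventually.of_forall fun y => ?_)
    simp only
    rw [mul_assoc]
    congr 3
    rw [smul_add, smul_smul, add_comm (s • y), ← add_assoc]
    congr 3
    ring
  · intro p hp y hy
    have h1 := PS_norm hp hr
    have h2 := norm_sub_norm_le y ((p.2 * r) • p.1)
    rw [hβ0 _ (by linarith), mul_zero, zero_mul]

lemma kp_int {w : Sp d × ℝ → ℝ} {β : Sp d → ℝ} (hw : Continuous w) (hβ : Continuous β)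
    (hβ0 : ∀ y, 1 ≤ ‖y‖ → β y = 0) {r : ℝ} (hr : 0 ≤ r) :
    ∫ y, kp w β r y = (∫ p in PS d, w p) * ∫ y, β y := by
  have h := kp_rep hw hβ hβ0 hr (g := fun _ => (1 : ℝ)) continuous_const 0 0
  simp only [mul_one] at h
  rw [h]
  unfold A
  simp only [mul_one]
  rw [integral_mul_const]

/-- representable functionals -/
def Rep (R : ℝ) (Λ : (Sp d → Sp d) → ℝ → Sp d → ℝ) : Prop :=
  ∃ K : SI d → Sp d → ℝ, (∀ p, Continuous (K p)) ∧ (∀ p y, R ≤ ‖y‖ → K p y = 0) ∧
    (∀ p, ∫ y, K p y = 0) ∧ ∀ u, TF u → ∀ s, 0 < s → ∀ z,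
      Λ u s z = s * ∑ p, ∫ y, K p y * fo (LBD d) u (z + s • y) p

lemma fo_comp_cont {u : Sp d → Sp d} (h : TF u) (p : SI d) :
    Continuous fun z => fo (LBD d) u z p :=
  (EuclideanSpace.proj (𝕜 := ℝ) p : EBD d →L[ℝ] ℝ).continuous.comp (fo_cont h)

lemma cs_of {K : Sp d → ℝ} {R : ℝ} (h : ∀ y, R ≤ ‖y‖ → K y = 0) : HasCompactSupport K := by
  refine HasCompactSupport.intro (isCompact_closedBall (0 : Sp d) R) ?_
  intro y hy
  rw [mem_closedBall_zero_iff, not_le] at hy
  exact h y hy.le

lemma Rep.add {R : ℝ} {Λ Λ' : (Sp d → Sp d) → ℝ → Sp d → ℝ} (h : Rep R Λ) (h' : Rep R Λ') :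
    Rep R (fun u s z => Λ u s z + Λ' u s z) := by
  obtain ⟨K, h1, h2, h3, h4⟩ := h
  obtain ⟨K', h1', h2', h3', h4'⟩ := h'
  refine ⟨fun p y => K p y + K' p y, fun p => (h1 p).add (h1' p), ?_, ?_, ?_⟩
  · intro p y hy; simp only [h2 p y hy, h2' p y hy, add_zero]
  · intro p
    have i1 : Integrable (K p) := (h1 p).integrable_of_hasCompactSupport (cs_of (h2 p))
    have i2 : Integrable (K' p) := (h1' p).integrable_of_hasCompactSupport (cs_of (h2' p))
    rw [integral_add i1 i2, h3, h3', add_zero]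
  · intro u hu s hs z
    beta_reduce
    rw [h4 u hu s hs z, h4' u hu s hs z, ← mul_add, ← Finset.sum_add_distrib]
    congr 1
    refine Finset.sum_congr rfl fun p _ => ?_
    have i1 := int_A (h1 p) (cs_of (h2 p)) (fo_comp_cont hu p) s z
    have i2 := int_A (h1' p) (cs_of (h2' p)) (fo_comp_cont hu p) s z
    rw [← integral_add i1 i2]
    refine integral_congr_ae (Filter.Eventually.of_forall fun y => ?_)
    simp only; ring

lemma Rep.const_mul {R : ℝ} {Λ : (Sp d → Sp d) → ℝ → Sp d → ℝ} (h : Rep R Λ) (c : ℝ) :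
    Rep R (fun u s z => c * Λ u s z) := by
  obtain ⟨K, h1, h2, h3, h4⟩ := h
  refine ⟨fun p y => c * K p y, fun p => (h1 p).const_mul c |> fun h => h, ?_, ?_, ?_⟩
  · intro p y hy; simp only [h2 p y hy, mul_zero]
  · intro p
    rw [integral_const_mul, h3, mul_zero]
  · intro u hu s hs z
    beta_reduce
    rw [h4 u hu s hs z, mul_left_comm, Finset.mul_sum]
    congr 1
    refine Finset.sum_congr rfl fun p _ => ?_
    rw [← integral_const_mul]
    refine integral_congr_ae (Filter.Eventually.of_forall fun y => ?_)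
    simp only; ring

lemma Rep.zero (R : ℝ) : Rep (d := d) R (fun _ _ _ => 0) :=
  ⟨fun _ _ => 0, fun _ => continuous_const, fun _ _ _ => rfl, fun _ => by simp,
    fun u _ s _ z => by simp⟩

lemma Rep.sum {ι : Type*} {R : ℝ} (S : Finset ι) {Λ : ι → (Sp d → Sp d) → ℝ → Sp d → ℝ}
    (h : ∀ i ∈ S, Rep R (Λ i)) : Rep R (fun u s z => ∑ i ∈ S, Λ i u s z) := by
  classical
  induction S using Finset.induction_on with
  | empty => simpa using Rep.zero R
  | insert a S ha ih =>
    have h1 := (h a (Finset.mem_insert_self _ _)).add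
      (ih fun i hi => h i (Finset.mem_insert_of_mem hi))
    have e : (fun (u : Sp d → Sp d) (s : ℝ) (z : Sp d) => ∑ i ∈ insert a S, Λ i u s z)
        = fun u s z => Λ a u s z + ∑ i ∈ S, Λ i u s z := by
      funext u s z; rw [Finset.sum_insert ha]
    rw [e]; exact h1

lemma Rep.mono {R R' : ℝ} {Λ : (Sp d → Sp d) → ℝ → Sp d → ℝ} (h : Rep R Λ) (hR : R ≤ R') :
    Rep R' Λ := by
  obtain ⟨K, h1, h2, h3, h4⟩ := h
  exact ⟨K, h1, fun p y hy => h2 p y (hR.trans hy), h3, h4⟩

lemma Rep.congr {R : ℝ} {Λ Λ' : (Sp d → Sp d) → ℝ → Sp d → ℝ} (h : Rep R Λ)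
    (h' : ∀ u, TF u → ∀ s, 0 < s → ∀ z, Λ' u s z = Λ u s z) : Rep R Λ' := by
  obtain ⟨K, h1, h2, h3, h4⟩ := h
  exact ⟨K, h1, h2, h3, fun u hu s hs z => by rw [h' u hu s hs z, h4 u hu s hs z]⟩

lemma Rep.scale {R : ℝ} {Λ : (Sp d → Sp d) → ℝ → Sp d → ℝ} (h : Rep R Λ) :
    Rep (8 * R) (fun u s z => Λ u (8 * s) z) := by
  obtain ⟨K, h1, h2, h3, h4⟩ := h
  refine ⟨fun p y => 8 * ((8 : ℝ) ^ d)⁻¹ * K p ((8 : ℝ)⁻¹ • y), ?_, ?_, ?_, ?_⟩
  · intro p
    have := h1 p
    fun_prop
  · intro p y hy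
    simp only
    rw [h2 p _ (by rw [norm_smul, Real.norm_eq_abs, abs_of_pos (by norm_num)]; linarith),
      mul_zero]
  · intro p
    rw [integral_const_mul, Measure.integral_comp_inv_smul, h3, smul_zero, mul_zero]
  · intro u hu s hs z
    beta_reduce
    rw [h4 u hu (8 * s) (by linarith) z, mul_comm 8 s, mul_assoc, Finset.mul_sum]
    congr 1
    refine Finset.sum_congr rfl fun p _ => ?_
    have h5 := Measure.integral_comp_inv_smul (volume : Measure (Sp d))
      (fun y => K p y * fo (LBD d) u (z + (s * 8) • y) p) 8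
    have h6 : ∀ y : Sp d, (s * 8) • ((8 : ℝ)⁻¹ • y) = s • y := by
      intro y; rw [smul_smul]; congr 1; field_simp
    simp only [h6] at h5
    have h7 : ∫ y, 8 * ((8 : ℝ) ^ d)⁻¹ * K p ((8 : ℝ)⁻¹ • y) * fo (LBD d) u (z + s • y) p
        = 8 * ((8 : ℝ) ^ d)⁻¹ * ∫ y, K p ((8 : ℝ)⁻¹ • y) * fo (LBD d) u (z + s • y) p := by
      rw [← integral_const_mul]
      refine integral_congr_ae (Filter.Eventually.of_forall fun y => ?_)
      simp only; ring
    rw [h7, h5]
    simp only [finrank_euclideanSpace, Fintype.card_fin, abs_pow, smul_eq_mul]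
    rw [abs_of_pos (by norm_num : (0 : ℝ) < 8)]
    field_simp

lemma Rep.basic {w : Sp d × ℝ → ℝ} {β : Sp d → ℝ} (hw : Continuous w) (hβ : Continuous β)
    (hβ0 : ∀ y, 1 ≤ ‖y‖ → β y = 0) {r : ℝ} (hr : 0 ≤ r)
    (h0 : (∫ p in PS d, w p) * ∫ y, β y = 0) (k i : Fin d) :
    Rep (1 + r) (fun u s z => s * ∫ p in PS d, w p * A β (ep u k i) s
      (z + (p.2 * (s * r)) • p.1)) := by
  classical
  refine ⟨fun p y => if p = ix i k then kp w β r y else 0, ?_, ?_, ?_, ?_⟩
  · intro p
    by_cases hp : p = ix i k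
    · simp only [hp, if_true]; exact kp_cont hw hβ r
    · simp only [hp, if_false]; exact continuous_const
  · intro p y hy
    simp only
    split_ifs
    · exact kp_supp hβ0 hr hy
    · rfl
  · intro p
    by_cases hp : p = ix i k
    · simp only [hp, if_true]; rw [kp_int hw hβ hβ0 hr, h0]
    · simp only [hp, if_false, integral_zero]
  · intro u hu s hs z
    rw [Finset.sum_eq_single (ix i k)]
    · simp only [if_true]
      rw [← kp_rep hw hβ hβ0 hr (ep_contDiff hu k i).continuous]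
      simp only [fo_ix]
    · intro p _ hp
      simp only [hp, if_false, zero_mul, integral_zero]
    · intro h; exact absurd (Finset.mem_univ _) h


lemma A_ep {a : Sp d → ℝ} (ha : Continuous a) (ha' : HasCompactSupport a) {u : Sp d → Sp d}
    (hu : TF u) (k i : Fin d) (s : ℝ) (x : Sp d) :
    A a (Du u k i) s x + A a (Du u i k) s x = 2 * A a (ep u k i) s x := by
  rw [← A_add ha ha' (Du_contDiff hu k i).continuous (Du_contDiff hu i k).continuous]
  unfold A
  rw [← integral_const_mul]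
  refine integral_congr_ae (Filter.Eventually.of_forall fun y => ?_)
  simp only [ep]; ring

lemma clm_sum (L : Sp d →L[ℝ] ℝ) (v : Sp d) : L v = ∑ k, v k * L (ev k) := by
  conv_lhs => rw [sum_ev v, map_sum]
  refine Finset.sum_congr rfl fun k _ => ?_
  rw [map_smul, smul_eq_mul]

lemma line {a g : Sp d → ℝ} (ha : Continuous a) (ha' : HasCompactSupport a)
    (hg : ContDiff ℝ 1 g) (hg' : HasCompactSupport g) (s : ℝ) (z ζ : Sp d) (θ : ℝ) :
    HasDerivAt (fun θ : ℝ => A a g s (z + θ • ζ))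
      (∑ k, ζ k * A a (fun w => fderiv ℝ g w (ev k)) s (z + θ • ζ)) θ := by
  have h1 : HasDerivAt (fun θ : ℝ => z + θ • ζ) ζ θ := by
    have := ((hasDerivAt_id θ).smul_const ζ).const_add z
    simpa using this
  have h2 := (diff_A ha ha' hg hg' s (z + θ • ζ)).hasFDerivAt.comp_hasDerivAt θ h1
  have h3 : fderiv ℝ (A a g s) (z + θ • ζ) ζ
      = ∑ k, ζ k * A a (fun w => fderiv ℝ g w (ev k)) s (z + θ • ζ) := by
    rw [clm_sum]
    refine Finset.sum_congr rfl fun k _ => ?_
    rw [fderiv_A ha ha' hg hg']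
  rw [← h3]
  exact h2

/-- the derivative along the segment -/
def Hf (u : Sp d → Sp d) (i : Fin d) (s r : ℝ) (z η : Sp d) (θ : ℝ) : ℝ :=
  ∑ k, 2 * (s * r) * (η k * A (bk d) (ep u k i) s (z + (θ * (s * r)) • η)) +
    ∑ k, ∑ l, (s * r ^ 2) * ((1 - θ) * (η k * η l) *
      A (dbk i) (ep u k l) s (z + (θ * (s * r)) • η))

lemma A_cont {a g : Sp d → ℝ} (ha : Continuous a) (ha' : HasCompactSupport a)
    (hg : ContDiff ℝ ∞ g) (hg' : HasCompactSupport g) (s : ℝ) : Continuous (A a g s) :=
  (diff_A ha ha' (c1 hg) hg' s).continuous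

lemma Hf_cont {u : Sp d → Sp d} (hu : TF u) (i : Fin d) (s r : ℝ) (z : Sp d) :
    Continuous (fun p : Sp d × ℝ => Hf u i s r z p.1 p.2) := by
  unfold Hf
  have h1 : ∀ k l, Continuous (A (bk d) (ep u k l) s) := fun k l =>
    A_cont bk_cont bk_cs (ep_contDiff hu k l) (ep_cs hu k l) s
  have h2 : ∀ k l, Continuous (A (dbk i) (ep u k l) s) := fun k l =>
    A_cont (dbk_contDiff i).continuous (dbk_cs i) (ep_contDiff hu k l) (ep_cs hu k l) s
  refine Continuous.add ?_ ?_
  · refine continuous_finsetSum _ fun k _ => ?_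
    have := h1 k i
    fun_prop
  · refine continuous_finsetSum _ fun k _ => continuous_finsetSum _ fun l _ => ?_
    have := h2 k l
    fun_prop

lemma seg {u : Sp d → Sp d} (hu : TF u) (i : Fin d) {s : ℝ} (hs : 0 < s) (r : ℝ) (z η : Sp d) :
    ∫ θ in Icc (0 : ℝ) 1, Hf u i s r z η θ =
      A (bk d) (uc u i) s (z + (s * r) • η) - A (bk d) (uc u i) s z +
        ∑ l, η l * (s * r * A (bk d) (Du u i l) s z) := by
  set ζ : Sp d := (s * r) • η with hζ
  have hζk : ∀ k, ζ k = s * r * η k := fun k => by rw [hζ]; simp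
  have hpt : ∀ θ : ℝ, z + θ • ζ = z + (θ * (s * r)) • η := fun θ => by
    rw [hζ, smul_smul]
  have hder : ∀ θ : ℝ, HasDerivAt (fun θ : ℝ => A (bk d) (uc u i) s (z + θ • ζ) -
      (1 - θ) * ∑ l, ζ l * A (bk d) (Du u i l) s (z + θ • ζ)) (Hf u i s r z η θ) θ := by
    intro θ
    have h1 := line bk_cont bk_cs (c1 (uc_contDiff hu i)) (uc_cs hu i) s z ζ θ
    have h2 : ∀ l, HasDerivAt (fun θ : ℝ => ζ l * A (bk d) (Du u i l) s (z + θ • ζ))
        (ζ l * ∑ k, ζ k * A (bk d) (fun w => fderiv ℝ (Du u i l) w (ev k)) s (z + θ • ζ)) θ :=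
      fun l => (line bk_cont bk_cs (c1 (Du_contDiff hu i l)) (Du_cs hu i l) s z ζ θ).const_mul _
    have h3 : HasDerivAt (fun θ : ℝ => ∑ l, ζ l * A (bk d) (Du u i l) s (z + θ • ζ))
        (∑ l, ζ l * ∑ k, ζ k * A (bk d) (fun w => fderiv ℝ (Du u i l) w (ev k)) s
          (z + θ • ζ)) θ := by
      have := HasDerivAt.fun_sum (u := Finset.univ) fun l _ => h2 l
      exact this
    have h4 : HasDerivAt (fun θ : ℝ => 1 - θ) (-1) θ := by
      simpa using (hasDerivAt_id θ).const_sub 1
    have h5 := h1.sub (h4.mul h3)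
    refine h5.congr_deriv ?_
    set x := z + θ • ζ with hx
    have e1 : ∀ k, (fun w => fderiv ℝ (uc u i) w (ev k)) = Du u k i := fun k => by
      funext w; exact fderiv_uc hu k i w
    have e2 : ∀ k l, A (bk d) (fun w => fderiv ℝ (Du u i l) w (ev k)) s x
        = -(1 / s) * A (dbk i) (Du u k l) s x := by
      intro k l
      have e3 : (fun w => fderiv ℝ (Du u i l) w (ev k))
          = fun w => fderiv ℝ (Du u k l) w (ev i) := by
        funext w; exact Du_symm hu i k l w
      rw [e3, A_parts bk_contDiff1 bk_cs (c1 (Du_contDiff hu k l)) hs.ne']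
      rfl
    simp only [e1, e2]
    have e4 : ∑ k, ζ k * A (bk d) (Du u k i) s x + ∑ l, ζ l * A (bk d) (Du u i l) s x
        = ∑ k, 2 * (s * r) * (η k * A (bk d) (ep u k i) s x) := by
      rw [← Finset.sum_add_distrib]
      refine Finset.sum_congr rfl fun k _ => ?_
      rw [← mul_add, A_ep bk_cont bk_cs hu k i, hζk]
      ring
    have e5 : ∑ l, ζ l * ∑ k, ζ k * A (dbk i) (Du u k l) s x
        = ∑ k, ∑ l, ζ k * ζ l * A (dbk i) (ep u k l) s x := by
      have e6 : ∑ l, ζ l * ∑ k, ζ k * A (dbk i) (Du u k l) s x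
          = ∑ k, ∑ l, ζ k * ζ l * A (dbk i) (Du u k l) s x := by
        simp only [Finset.mul_sum]
        rw [Finset.sum_comm]
        refine Finset.sum_congr rfl fun k _ => Finset.sum_congr rfl fun l _ => ?_
        ring
      have e7 : ∑ k, ∑ l, ζ k * ζ l * A (dbk i) (Du u k l) s x
          = ∑ k, ∑ l, ζ k * ζ l * A (dbk i) (Du u l k) s x := by
        conv_lhs => rw [Finset.sum_comm]
        refine Finset.sum_congr rfl fun k _ => Finset.sum_congr rfl fun l _ => ?_
        ring
      have e8 : ∑ k, ∑ l, ζ k * ζ l * A (dbk i) (Du u k l) s x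
          + ∑ k, ∑ l, ζ k * ζ l * A (dbk i) (Du u l k) s x
          = 2 * ∑ k, ∑ l, ζ k * ζ l * A (dbk i) (ep u k l) s x := by
        rw [← Finset.sum_add_distrib, Finset.mul_sum]
        refine Finset.sum_congr rfl fun k _ => ?_
        rw [← Finset.sum_add_distrib, Finset.mul_sum]
        refine Finset.sum_congr rfl fun l _ => ?_
        rw [← mul_add, A_ep (dbk_contDiff i).continuous (dbk_cs i) hu k l]
        ring
      rw [e6]
      linarith
    have e9 : ∑ l, ζ l * ∑ k, ζ k * (-(1 / s) * A (dbk i) (Du u k l) s x)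
        = -(1 / s) * ∑ l, ζ l * ∑ k, ζ k * A (dbk i) (Du u k l) s x := by
      simp only [Finset.mul_sum]
      refine Finset.sum_congr rfl fun k _ => Finset.sum_congr rfl fun l _ => ?_
      ring
    have e10 : (1 - θ) * ((1 / s) * ∑ k, ∑ l, ζ k * ζ l * A (dbk i) (ep u k l) s x)
        = ∑ k, ∑ l, (s * r ^ 2) * ((1 - θ) * (η k * η l) * A (dbk i) (ep u k l) s x) := by
      simp only [Finset.mul_sum]
      refine Finset.sum_congr rfl fun k _ => Finset.sum_congr rfl fun l _ => ?_
      rw [hζk, hζk]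
      field_simp
    unfold Hf
    rw [← hpt θ, ← hx, ← e4, ← e10, e9, e5]
    ring
  have hc : Continuous (Hf u i s r z η) := by
    have := (Hf_cont hu i s r z).comp (Continuous.prodMk_right η)
    exact this
  have hF := intervalIntegral.integral_eq_sub_of_hasDerivAt (a := 0) (b := 1)
    (fun θ _ => hder θ) (hc.intervalIntegrable _ _)
  rw [intervalIntegral.integral_of_le zero_le_one, ← integral_Icc_eq_integral_Ioc] at hF
  rw [hF]
  simp only [one_smul, sub_self, zero_mul, sub_zero, zero_smul, add_zero, one_mul]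
  have e11 : ∑ l, ζ l * A (bk d) (Du u i l) s z
      = ∑ l, η l * (s * r * A (bk d) (Du u i l) s z) := by
    refine Finset.sum_congr rfl fun l _ => ?_
    rw [hζk]; ring
  rw [e11]
  ring


lemma int_bk_mul (f : Sp d → ℝ) : ∫ η in closedBall (0 : Sp d) 1, bk d η * f η = ∫ η, bk d η * f η := by
  refine setIntegral_eq_integral_of_forall_compl_eq_zero fun η hη => ?_
  rw [mem_closedBall_zero_iff, not_le] at hη
  rw [bk_zero hη.le, zero_mul]

lemma int_bk_odd (l : Fin d) : ∫ η : Sp d, bk d η * η l = 0 := by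
  have h := integral_neg_eq_self (fun η : Sp d => bk d η * η l) volume
  simp only [bk_neg, PiLp.neg_apply, mul_neg] at h
  rw [integral_neg] at h
  linarith

lemma int_PS {f : Sp d × ℝ → ℝ} (hf : Continuous f) :
    ∫ p in PS d, f p = ∫ η in closedBall (0 : Sp d) 1, ∫ θ in Icc (0 : ℝ) 1, f (η, θ) := by
  unfold PS
  rw [Measure.volume_eq_prod]
  refine setIntegral_prod _ ?_
  exact hf.continuousOn.integrableOn_compact PS_compact

lemma main {u : Sp d → Sp d} (hu : TF u) (i : Fin d) {s : ℝ} (hs : 0 < s) (r : ℝ) (z : Sp d) :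
    ∫ p in PS d, bk d p.1 * Hf u i s r z p.1 p.2 =
      A (bk d) (A (bk d) (uc u i) s) (s * r) z - A (bk d) (uc u i) s z := by
  have hc := Hf_cont hu i s r z
  have hb := bk_cont (d := d)
  rw [int_PS (by fun_prop)]
  have h1 : ∀ η : Sp d, ∫ θ in Icc (0 : ℝ) 1, bk d η * Hf u i s r z η θ
      = bk d η * (A (bk d) (uc u i) s (z + (s * r) • η) - A (bk d) (uc u i) s z +
        ∑ l, η l * (s * r * A (bk d) (Du u i l) s z)) := by
    intro η
    rw [integral_const_mul, seg hu i hs r z η]
  simp only [h1]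
  rw [int_bk_mul]
  have hAc : Continuous (A (bk d) (uc u i) s) :=
    A_cont bk_cont bk_cs (uc_contDiff hu i) (uc_cs hu i) s
  have i1 : Integrable (fun η => bk d η * A (bk d) (uc u i) s (z + (s * r) • η)) :=
    int_A bk_cont bk_cs hAc (s * r) z
  have i2 : Integrable (fun η => bk d η * A (bk d) (uc u i) s z) :=
    bk_integrable.mul_const _
  have i3 : ∀ l : Fin d, Integrable
      (fun η : Sp d => bk d η * η l * (s * r * A (bk d) (Du u i l) s z)) := by
    intro l
    refine Integrable.mul_const ?_ _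
    refine Continuous.integrable_of_hasCompactSupport (by fun_prop) ?_
    exact bk_cs.mul_right
  have e : ∀ η : Sp d, bk d η * (A (bk d) (uc u i) s (z + (s * r) • η) -
      A (bk d) (uc u i) s z + ∑ l, η l * (s * r * A (bk d) (Du u i l) s z))
      = (bk d η * A (bk d) (uc u i) s (z + (s * r) • η) - bk d η * A (bk d) (uc u i) s z) +
        ∑ l, bk d η * η l * (s * r * A (bk d) (Du u i l) s z) := by
    intro η
    rw [mul_add, mul_sub, Finset.mul_sum]
    congr 1
    refine Finset.sum_congr rfl fun l _ => ?_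
    ring
  simp only [e]
  have i12 : Integrable (fun η => bk d η * A (bk d) (uc u i) s (z + (s * r) • η) -
      bk d η * A (bk d) (uc u i) s z) := i1.sub i2
  have i4 : Integrable (fun η : Sp d => ∑ l : Fin d, bk d η * η l *
      (s * r * A (bk d) (Du u i l) s z)) := integrable_finsetSum _ fun l _ => i3 l
  rw [integral_add i12 i4, integral_sub i1 i2,
    integral_mul_const, bk_int, one_mul, integral_finsetSum _ fun l _ => i3 l]
  have h0 : ∑ l : Fin d, ∫ η : Sp d, bk d η * η l * (s * r * A (bk d) (Du u i l) s z) = 0 := by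
    refine Finset.sum_eq_zero fun l _ => ?_
    rw [integral_mul_const, int_bk_odd, zero_mul]
  rw [h0, add_zero]
  rfl

lemma int_dbk (i : Fin d) : ∫ y, dbk i y = 0 := by
  have h := A_parts (a := bk d) (g := fun _ : Sp d => (1 : ℝ)) bk_contDiff1 bk_cs
    contDiff_const (s := 1) one_ne_zero 0 (ev i)
  unfold A at h
  simp only [fderiv_fun_const, Pi.zero_apply, zero_apply, mul_zero,
    integral_zero, mul_one] at h
  have h' : ∫ y, dbk i y = ∫ η, fderiv ℝ (bk d) η (ev i) := rfl
  rw [h']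
  linarith

lemma dbk_zero (i : Fin d) {y : Sp d} (h : 1 ≤ ‖y‖) : dbk i y = 0 := by
  unfold dbk
  rw [bk_fderiv_zero h]; rfl

/-- the functional of the main identity -/
lemma rep_main (i : Fin d) {r : ℝ} (hr : 0 ≤ r) :
    Rep (1 + r) (fun u s z => A (bk d) (A (bk d) (uc u i) s) (s * r) z -
      A (bk d) (uc u i) s z) := by
  have hb := bk_cont (d := d)
  have r1 : ∀ k : Fin d, Rep (1 + r) (fun u s z => s * ∫ p in PS d, (2 * r * (bk d p.1 * p.1 k)) *
      A (bk d) (ep u k i) s (z + (p.2 * (s * r)) • p.1)) := by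
    intro k
    refine Rep.basic (w := fun p => 2 * r * (bk d p.1 * p.1 k)) (by fun_prop) hb
      (fun y hy => bk_zero hy) hr ?_ k i
    rw [int_PS (by fun_prop)]
    simp only [integral_const, smul_eq_mul]
    rw [integral_const_mul, integral_const_mul, int_bk_mul, int_bk_odd]
    simp
  have r2 : ∀ k l : Fin d, Rep (1 + r) (fun u s z => s * ∫ p in PS d,
      (r ^ 2 * ((1 - p.2) * (bk d p.1 * (p.1 k * p.1 l)))) *
      A (dbk i) (ep u k l) s (z + (p.2 * (s * r)) • p.1)) := by
    intro k l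
    refine Rep.basic (w := fun p => r ^ 2 * ((1 - p.2) * (bk d p.1 * (p.1 k * p.1 l))))
      (by fun_prop) (dbk_contDiff i).continuous (fun y hy => dbk_zero i hy) hr ?_ k l
    rw [int_dbk, mul_zero]
  refine ((Rep.sum Finset.univ fun k _ => r1 k).add (Rep.sum Finset.univ fun k _ =>
    Rep.sum Finset.univ fun l _ => r2 k l)).congr ?_
  intro u hu s hs z
  rw [← main hu i hs r z]
  have c1' : ∀ k l, Continuous (A (bk d) (ep u k l) s) := fun k l =>
    A_cont bk_cont bk_cs (ep_contDiff hu k l) (ep_cs hu k l) s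
  have c2' : ∀ k l, Continuous (A (dbk i) (ep u k l) s) := fun k l =>
    A_cont (dbk_contDiff i).continuous (dbk_cs i) (ep_contDiff hu k l) (ep_cs hu k l) s
  have e : ∀ p : Sp d × ℝ, bk d p.1 * Hf u i s r z p.1 p.2
      = ∑ k, s * ((2 * r * (bk d p.1 * p.1 k)) *
          A (bk d) (ep u k i) s (z + (p.2 * (s * r)) • p.1)) +
        ∑ k, ∑ l, s * ((r ^ 2 * ((1 - p.2) * (bk d p.1 * (p.1 k * p.1 l)))) *
          A (dbk i) (ep u k l) s (z + (p.2 * (s * r)) • p.1)) := by
    intro p
    unfold Hf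
    rw [mul_add, Finset.mul_sum, Finset.mul_sum]
    congr 1
    · refine Finset.sum_congr rfl fun k _ => ?_
      ring
    · refine Finset.sum_congr rfl fun k _ => ?_
      rw [Finset.mul_sum]
      refine Finset.sum_congr rfl fun l _ => ?_
      ring
  simp only [e]
  have j1 : ∀ k : Fin d, Integrable (fun p : Sp d × ℝ => s * ((2 * r * (bk d p.1 * p.1 k)) *
          A (bk d) (ep u k i) s (z + (p.2 * (s * r)) • p.1))) (volume.restrict (PS d)) := by
    intro k
    have := c1' k i
    refine ContinuousOn.integrableOn_compact PS_compact (Continuous.continuousOn ?_)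
    fun_prop
  have j2 : ∀ k l : Fin d, Integrable (fun p : Sp d × ℝ =>
      s * ((r ^ 2 * ((1 - p.2) * (bk d p.1 * (p.1 k * p.1 l)))) *
          A (dbk i) (ep u k l) s (z + (p.2 * (s * r)) • p.1))) (volume.restrict (PS d)) := by
    intro k l
    have := c2' k l
    refine ContinuousOn.integrableOn_compact PS_compact (Continuous.continuousOn ?_)
    fun_prop
  rw [integral_add (integrable_finsetSum _ fun k _ => j1 k)
    (integrable_finsetSum _ fun k _ => integrable_finsetSum _ fun l _ => j2 k l),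
    integral_finsetSum _ fun k _ => j1 k,
    integral_finsetSum _ fun k _ => integrable_finsetSum _ fun l _ => j2 k l]
  congr 1
  · refine Finset.sum_congr rfl fun k _ => ?_
    rw [integral_const_mul]
  · refine Finset.sum_congr rfl fun k _ => ?_
    rw [integral_finsetSum _ fun l _ => j2 k l]
    refine Finset.sum_congr rfl fun l _ => ?_
    rw [integral_const_mul]

lemma A_bk_eq (g : Sp d → ℝ) (s : ℝ) : A (bk d) g s = av s g := by
  funext z; rfl

lemma rep_diff (i : Fin d) :
    Rep 16 (fun u s z => A (bk d) (uc u i) s z - A (bk d) (uc u i) (8 * s) z) := by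
  have h1 := ((rep_main i (r := 8) (by norm_num)).const_mul (-1)).mono
    (show (1 + 8 : ℝ) ≤ 16 by norm_num)
  have h2 := (rep_main i (r := 1 / 8) (by norm_num)).scale.mono
    (show (8 * (1 + 1 / 8) : ℝ) ≤ 16 by norm_num)
  refine (h1.add h2).congr ?_
  intro u hu s hs z
  have hc : LB (uc u i) := LB.of_cont (uc_contDiff hu i).continuous
  have h3 := congrFun (av_comm hc (s * 8) s) z
  have e : 8 * s * (1 / 8) = s := by ring
  rw [e]
  simp only [A_bk_eq]
  rw [h3, mul_comm s 8]
  ring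

end BR

open BK2 BR in
theorem stmtBDR : StmtBDR := by
  classical
  intro d
  choose K hK1 hK2 hK3 hK4 using fun i : Fin d => rep_diff (d := d) i
  let M : Fin d → SI d → (EBD d →L[ℝ] Sp d) := fun i p =>
    (EuclideanSpace.proj (𝕜 := ℝ) p : EBD d →L[ℝ] ℝ).smulRight (ev i)
  have hMap : ∀ i p (F : EBD d) (j : Fin d), (M i p F) j = if j = i then F p else 0 := by
    intro i p F j
    simp [M, PiLp.single_apply]
  have hint : ∀ i p, Integrable (K i p) := fun i p =>
    (hK1 i p).integrable_of_hasCompactSupport (cs_of (hK2 i p))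
  refine ⟨fun y => ∑ i, ∑ p, K i p y • M i p, bk_cont, fun y hy => bk_zero hy, bk_int, ?_, ?_,
    ?_, ?_⟩
  · refine continuous_finsetSum _ fun i _ => continuous_finsetSum _ fun p _ => ?_
    exact (hK1 i p).smul continuous_const
  · intro y hy
    refine Finset.sum_eq_zero fun i _ => Finset.sum_eq_zero fun p _ => ?_
    rw [hK2 i p y hy]
    exact zero_smul ℝ (M i p)
  · have j1 : ∀ i p, Integrable (fun y => K i p y • M i p) := fun i p => (hint i p).smul_const _
    rw [integral_finsetSum _ fun i _ => integrable_finsetSum _ fun p _ => j1 i p]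
    refine Finset.sum_eq_zero fun i _ => ?_
    rw [integral_finsetSum _ fun p _ => j1 i p]
    refine Finset.sum_eq_zero fun p _ => ?_
    rw [integral_smul_const, hK3]
    exact zero_smul ℝ (M i p)
  · intro u hu s hs z
    have hfc := fo_cont hu
    have j2 : ∀ i p, Integrable (fun y => K i p y • M i p (fo (LBD d) u (z + s • y))) := by
      intro i p
      refine Continuous.integrable_of_hasCompactSupport ?_ (cs_of (hK2 i p)).smul_right
      have := hK1 i p
      have h2 : Continuous fun y : Sp d => M i p (fo (LBD d) u (z + s • y)) :=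
        (M i p).continuous.comp (hfc.comp (by fun_prop))
      exact this.smul h2
    have e0 : ∀ y, (∑ i, ∑ p, K i p y • M i p) (fo (LBD d) u (z + s • y))
        = ∑ i, ∑ p, K i p y • M i p (fo (LBD d) u (z + s • y)) := by
      intro y
      simp only [sum_apply, smul_apply]
    ext j
    have e1 : (∫ y, (∑ i, ∑ p, K i p y • M i p) (fo (LBD d) u (z + s • y))) j
        = ∑ p, ∫ y, K j p y * fo (LBD d) u (z + s • y) p := by
      simp only [e0]
      have j3 : Integrable (fun y => ∑ i, ∑ p, K i p y • M i p (fo (LBD d) u (z + s • y))) :=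
        integrable_finsetSum _ fun i _ => integrable_finsetSum _ fun p _ => j2 i p
      have h1 := (EuclideanSpace.proj (𝕜 := ℝ) j : Sp d →L[ℝ] ℝ).integral_comp_comm j3
      have h2 : (∫ y, ∑ i, ∑ p, K i p y • M i p (fo (LBD d) u (z + s • y))) j
          = (EuclideanSpace.proj (𝕜 := ℝ) j : Sp d →L[ℝ] ℝ)
            (∫ y, ∑ i, ∑ p, K i p y • M i p (fo (LBD d) u (z + s • y))) := rfl
      rw [h2, ← h1]
      have e2 : ∀ y, (EuclideanSpace.proj (𝕜 := ℝ) j : Sp d →L[ℝ] ℝ)
          (∑ i, ∑ p, K i p y • M i p (fo (LBD d) u (z + s • y)))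
          = ∑ p, K j p y * fo (LBD d) u (z + s • y) p := by
        intro y
        have hpr : ∀ v : Sp d, (EuclideanSpace.proj (𝕜 := ℝ) j : Sp d →L[ℝ] ℝ) v = v j :=
          fun _ => rfl
        have e4 : ∀ i, (EuclideanSpace.proj (𝕜 := ℝ) j : Sp d →L[ℝ] ℝ)
            (∑ p, K i p y • M i p (fo (LBD d) u (z + s • y)))
            = ∑ p, K i p y * (if j = i then fo (LBD d) u (z + s • y) p else 0) := by
          intro i
          rw [map_sum]
          refine Finset.sum_congr rfl fun p _ => ?_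
          rw [map_smul, smul_eq_mul, hpr, hMap]
        rw [map_sum]
        simp only [e4]
        rw [Finset.sum_eq_single j]
        · simp
        · intro i _ hi
          refine Finset.sum_eq_zero fun p _ => ?_
          rw [if_neg (Ne.symm hi), mul_zero]
        · intro h; exact absurd (Finset.mem_univ _) h
      simp only [e2]
      rw [integral_finsetSum]
      intro p _
      exact int_A (hK1 j p) (cs_of (hK2 j p)) (fo_comp_cont hu p) s z
    have e3 : (avk (bk d) s u z - avk (bk d) (8 * s) u z) j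
        = A (bk d) (uc u j) s z - A (bk d) (uc u j) (8 * s) z := by
      rw [← av_comp hu s z j, ← av_comp hu (8 * s) z j]
      rfl
    rw [e3, PiLp.smul_apply, smul_eq_mul, e1]
    exact hK4 j u hu s hs z

end

end TrI
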