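import Pool.Agent.TR.Stmts

/-!
# Module CH2 (part a): pencils of matrices
-/

open Polynomial Matrix

namespace TrI

noncomputable section

namespace CH2

variable {k N : ℕ}

/-- the polynomial matrix P + X Q -/
def pm (P Q : Matrix (Fin N) (Fin k) ℂ) : Matrix (Fin N) (Fin k) ℂ[X] :=
  fun i j => C (P i j) + X * C (Q i j)

theorem pm_eval (P Q : Matrix (Fin N) (Fin k) ℂ) (h : Fin k → ℂ[X]) (a : ℂ) (i : Fin N) :
    ((pm P Q *ᵥ h) i).eval a = ((P + a • Q) *ᵥ fun j => (h j).eval a) i := by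
  simp only [Matrix.mulVec, dotProduct, pm, eval_finsetSum, eval_mul, eval_add, eval_C, eval_X,
    Matrix.add_apply, Matrix.smul_apply, smul_eq_mul]

/-- dividing by a polynomial -/
theorem divide (P Q : Matrix (Fin N) (Fin k) ℂ)
    (hP : ∀ (t : ℂ) (c : Fin k → ℂ), (P + t • Q) *ᵥ c = 0 → c = 0) :
    ∀ (n : ℕ) (g : ℂ[X]) (x : Fin N → ℂ[X]) (h : Fin k → ℂ[X]), g.natDegree = n → g ≠ 0 →
      (∀ i, g * x i = (pm P Q *ᵥ h) i) → ∃ c : Fin k → ℂ[X], ∀ i, x i = (pm P Q *ᵥ c) i := by
  intro n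
  induction n with
  | zero =>
    intro g x h hg hg0 hx
    obtain ⟨a, rfl⟩ := natDegree_eq_zero.mp hg
    have ha : a ≠ 0 := by
      rintro rfl
      simp at hg0
    refine ⟨fun j => C a⁻¹ * h j, fun i => ?_⟩
    have h1 : (pm P Q *ᵥ fun j => C a⁻¹ * h j) i = C a⁻¹ * (pm P Q *ᵥ h) i := by
      simp only [Matrix.mulVec, dotProduct, Finset.mul_sum]
      exact Finset.sum_congr rfl fun j _ => by ring
    rw [h1, ← hx i, ← mul_assoc, ← C_mul, inv_mul_cancel₀ ha, C_1, one_mul]
  | succ n ih =>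
    intro g x h hg hg0 hx
    have hdeg : g.degree ≠ 0 := by
      rw [degree_eq_natDegree hg0, hg]
      exact_mod_cast Nat.succ_ne_zero n
    obtain ⟨a, ha⟩ := IsAlgClosed.exists_root g hdeg
    obtain ⟨g', hg'⟩ := dvd_iff_isRoot.mpr ha
    have hg'0 : g' ≠ 0 := by
      rintro rfl
      simp at hg'
      exact hg0 hg'
    have hXa : (X - C a : ℂ[X]) ≠ 0 := X_sub_C_ne_zero a
    have hdeg' : g'.natDegree = n := by
      have := congrArg natDegree hg'
      rw [natDegree_mul hXa hg'0, natDegree_X_sub_C, hg] at this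
      omega
    have h0 : (fun j => (h j).eval a) = 0 := by
      apply hP a
      funext i
      rw [← pm_eval, ← hx i, eval_mul, ha.eq_zero, zero_mul]
      rfl
    have h1 : ∀ j, ∃ h' : ℂ[X], h j = (X - C a) * h' := by
      intro j
      have : (h j).IsRoot a := congrFun h0 j
      exact dvd_iff_isRoot.mpr this
    choose h' hh' using h1
    refine ih g' x h' hdeg' hg'0 fun i => ?_
    have h2 : (pm P Q *ᵥ h) i = (X - C a) * (pm P Q *ᵥ h') i := by
      simp only [Matrix.mulVec, dotProduct, Finset.mul_sum]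
      exact Finset.sum_congr rfl fun j _ => by rw [hh' j]; ring
    have h3 := hx i
    rw [h2, hg', mul_assoc] at h3
    exact mul_left_cancel₀ hXa h3

theorem pm_coeff_zero (P Q : Matrix (Fin N) (Fin k) ℂ) (h : Fin k → ℂ[X]) (i : Fin N) :
    ((pm P Q *ᵥ h) i).coeff 0 = (P *ᵥ fun j => (h j).coeff 0) i := by
  simp only [Matrix.mulVec, dotProduct, pm, finsetSum_coeff, add_mul, coeff_add, coeff_C_mul,
    mul_assoc, coeff_X_mul_zero, add_zero]

theorem pm_coeff_succ (P Q : Matrix (Fin N) (Fin k) ℂ) (h : Fin k → ℂ[X]) (i : Fin N) (n : ℕ) :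
    ((pm P Q *ᵥ h) i).coeff (n + 1) =
      (P *ᵥ fun j => (h j).coeff (n + 1)) i + (Q *ᵥ fun j => (h j).coeff n) i := by
  simp only [Matrix.mulVec, dotProduct, pm, finsetSum_coeff, add_mul, coeff_add, coeff_C_mul,
    mul_assoc, coeff_X_mul, Finset.sum_add_distrib]

/-- a linear polynomial vector which is in the range for infinitely many values is a constant
combination -/
theorem pencil (P Q : Matrix (Fin N) (Fin k) ℂ)
    (hP : ∀ (t : ℂ) (c : Fin k → ℂ), (P + t • Q) *ᵥ c = 0 → c = 0)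
    (hQ : ∀ (c : Fin k → ℂ), Q *ᵥ c = 0 → c = 0) (p0 q0 : Fin N → ℂ) (T : Set ℂ)
    (hT : T.Infinite) (h : ∀ t ∈ T, ∃ c, p0 + t • q0 = (P + t • Q) *ᵥ c) :
    ∃ c, p0 = P *ᵥ c ∧ q0 = Q *ᵥ c := by
  -- a left inverse of P
  obtain ⟨Z, hZ⟩ : ∃ Z : Matrix (Fin k) (Fin N) ℂ, Z * P = 1 := by
    have hinj : LinearMap.ker (Matrix.toLin' P) = ⊥ := by
      rw [LinearMap.ker_eq_bot']
      intro c hc
      apply hP 0
      simpa using hc
    obtain ⟨g, hg⟩ := LinearMap.exists_leftInverse_of_injective _ hinj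
    refine ⟨LinearMap.toMatrix' g, ?_⟩
    have : LinearMap.toMatrix' (g ∘ₗ Matrix.toLin' P) = 1 := by
      rw [hg, LinearMap.toMatrix'_id]
    rw [LinearMap.toMatrix'_comp, LinearMap.toMatrix'_toLin'] at this
    exact this
  set ZZ : Matrix (Fin k) (Fin N) ℂ[X] := Z.map C with hZZ
  set H : Matrix (Fin k) (Fin k) ℂ[X] := ZZ * pm P Q with hH
  set x : Fin N → ℂ[X] := fun i => C (p0 i) + X * C (q0 i) with hx
  set hh : Fin k → ℂ[X] := H.adjugate *ᵥ (ZZ *ᵥ x) with hhh
  -- evaluation of H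
  have hHe : ∀ t : ℂ, (evalRingHom t).mapMatrix H = Z * (P + t • Q) := by
    intro t
    ext i j
    simp only [hH, hZZ, RingHom.mapMatrix_apply, Matrix.map_apply, Matrix.mul_apply, pm,
      coe_evalRingHom, eval_finsetSum, eval_mul, eval_add, eval_C, eval_X, Matrix.add_apply,
      Matrix.smul_apply, smul_eq_mul]
  have hdet : ∀ t : ℂ, eval t H.det = (Z * (P + t • Q)).det := by
    intro t
    rw [← hHe t, ← RingHom.map_det]
    rfl
  have hadj : ∀ (t : ℂ) i j, eval t (H.adjugate i j) = (Z * (P + t • Q)).adjugate i j := by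
    intro t i j
    rw [← hHe t, ← RingHom.map_adjugate]
    rfl
  have hhe : ∀ t : ℂ, (fun j => (hh j).eval t) =
      (Z * (P + t • Q)).adjugate *ᵥ (Z *ᵥ (p0 + t • q0)) := by
    intro t
    funext j
    simp only [hhh, Matrix.mulVec, dotProduct, eval_finsetSum, eval_mul, hadj, hZZ, hx,
      Matrix.map_apply, eval_add, eval_C, eval_X, Pi.add_apply, Pi.smul_apply, smul_eq_mul]
  have hg0 : H.det ≠ 0 := by
    intro h0
    have h1 := hdet 0
    rw [h0, zero_smul, add_zero, hZ, Matrix.det_one] at h1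
    simp at h1
  have hkey : ∀ i, H.det * x i = (pm P Q *ᵥ hh) i := by
    intro i
    apply Polynomial.eq_of_infinite_eval_eq
    refine hT.mono fun t ht => ?_
    obtain ⟨c, hc⟩ := h t ht
    change eval t (H.det * x i) = eval t ((pm P Q *ᵥ hh) i)
    rw [pm_eval, hhe t, eval_mul, hdet t]
    have h1 : eval t (x i) = (p0 + t • q0) i := by
      simp only [hx, eval_add, eval_mul, eval_C, eval_X, Pi.add_apply, Pi.smul_apply, smul_eq_mul]
    have h2 : (Z * (P + t • Q)).adjugate *ᵥ (Z *ᵥ ((P + t • Q) *ᵥ c)) =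
        (Z * (P + t • Q)).det • c := by
      rw [Matrix.mulVec_mulVec, Matrix.mulVec_mulVec, Matrix.mul_assoc, Matrix.adjugate_mul,
        Matrix.smul_mulVec, Matrix.one_mulVec]
    rw [h1, hc, h2, Matrix.mulVec_smul, Pi.smul_apply, smul_eq_mul]
  obtain ⟨c, hc⟩ := divide P Q hP _ H.det x hh rfl hg0 hkey
  -- coefficients of c of positive order vanish
  obtain ⟨D, hD⟩ : ∃ D : ℕ, ∀ n, D < n → ∀ j, (c j).coeff n = 0 := by
    refine ⟨Finset.univ.sup fun j => (c j).natDegree, fun n hn j => ?_⟩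
    apply coeff_eq_zero_of_natDegree_lt
    exact lt_of_le_of_lt (Finset.le_sup (f := fun j => (c j).natDegree) (Finset.mem_univ j)) hn
  have hz : ∀ m n : ℕ, 1 ≤ n → D < n + m → (fun j => (c j).coeff n) = 0 := by
    intro m
    induction m with
    | zero =>
      intro n _ hn
      funext j
      exact hD n hn j
    | succ m ih =>
      intro n hn1 hn
      have h1 := ih (n + 1) (by omega) (by omega)
      apply hQ
      funext i
      have h2 := pm_coeff_succ P Q c i n
      rw [← hc i, h1, Matrix.mulVec_zero] at h2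
      have h3 : (x i).coeff (n + 1) = 0 := by
        obtain ⟨n', rfl⟩ : ∃ n', n = n' + 1 := ⟨n - 1, by omega⟩
        simp only [hx, coeff_add, coeff_C_succ, coeff_X_mul, add_zero]
      rw [h3] at h2
      simpa using h2.symm
  refine ⟨fun j => (c j).coeff 0, ?_, ?_⟩
  · funext i
    have h2 := pm_coeff_zero P Q c i
    rw [← hc i] at h2
    rw [← h2]
    simp only [hx, coeff_add, coeff_C_zero, coeff_X_mul_zero, add_zero]
  · funext i
    have h2 := pm_coeff_succ P Q c i 0
    rw [← hc i, zero_add, hz D 1 le_rfl (by omega), Matrix.mulVec_zero] at h2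
    have h3 : (x i).coeff 1 = q0 i := by
      have : (x i).coeff (0 + 1) = q0 i := by
        simp only [hx, coeff_add, coeff_C_succ, coeff_X_mul, coeff_C_zero, zero_add]
      simpa using this
    rw [h3] at h2
    rw [h2]
    simp

end CH2

end

end TrI
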