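import Pool.Agent.TR.CH2a

/-!
# Module CH2 (part b): kernels of complex elliptic operators in the plane
-/

set_option linter.unusedSectionVars false
set_option linter.unusedSimpArgs false

open MeasureTheory Metric Set Matrix
open scoped InnerProductSpace ContDiff

namespace TrI

noncomputable section

namespace CH2

variable {V E : Type} [NormedAddCommGroup V] [InnerProductSpace ℝ V] [FiniteDimensional ℝ V]
  [NormedAddCommGroup E] [InnerProductSpace ℝ E] [FiniteDimensional ℝ E]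

/-- complex ellipticity, in real form -/
def CEllR {d : ℕ} (L : (Sp d →L[ℝ] V) →L[ℝ] E) : Prop :=
  ∀ (ξ η : Sp d) (v w : V),
    L ((innerSL ℝ ξ).smulRight v - (innerSL ℝ η).smulRight w) = 0 →
    L ((innerSL ℝ ξ).smulRight w + (innerSL ℝ η).smulRight v) = 0 →
    (ξ = 0 ∧ η = 0) ∨ (v = 0 ∧ w = 0)

/-- the first basis vector -/
def e0 : Sp 2 := EuclideanSpace.single 0 1
/-- the second basis vector -/
def e1 : Sp 2 := EuclideanSpace.single 1 1

theorem repr2 (y : Sp 2) : y = y 0 • e0 + y 1 • e1 := by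
  ext i
  fin_cases i <;> simp [e0, e1]

theorem ext2 {M M' : Sp 2 →L[ℝ] V} (h0 : M e0 = M' e0) (h1 : M e1 = M' e1) : M = M' := by
  ext y
  rw [repr2 y, map_add, map_smul, map_smul, map_add, map_smul, map_smul, h0, h1]

theorem sr_e0 (ξ : Sp 2) (v : V) : ((innerSL ℝ ξ).smulRight v) e0 = ξ 0 • v := by
  simp [e0, EuclideanSpace.inner_single_right]

theorem sr_e1 (ξ : Sp 2) (v : V) : ((innerSL ℝ ξ).smulRight v) e1 = ξ 1 • v := by
  simp [e1, EuclideanSpace.inner_single_right]

theorem cinj {L : (Sp 2 →L[ℝ] V) →L[ℝ] E} (hL : CEllR L) (A B : Sp 2 →L[ℝ] V) (hA : L A = 0)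
    (hB : L B = 0) (t1 t2 : ℝ) (h1 : A e0 + t1 • A e1 - t2 • B e1 = 0)
    (h2 : B e0 + t1 • B e1 + t2 • A e1 = 0) : A = 0 ∧ B = 0 := by
  set ξ : Sp 2 := WithLp.toLp 2 ![-t1, 1]
  set η : Sp 2 := WithLp.toLp 2 ![-t2, 0]
  have x0 : ξ 0 = -t1 := rfl
  have x1 : ξ 1 = 1 := rfl
  have n0 : η 0 = -t2 := rfl
  have n1 : η 1 = 0 := rfl
  have e1A : A = (innerSL ℝ ξ).smulRight (A e1) - (innerSL ℝ η).smulRight (B e1) := by
    apply ext2
    · rw [_root_.sub_apply, sr_e0, sr_e0, x0, n0]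
      have : A e0 = - (t1 • A e1) + t2 • B e1 := by
        rw [← sub_eq_zero, ← h1]; abel
      rw [this, neg_smul, neg_smul]; abel
    · rw [_root_.sub_apply, sr_e1, sr_e1, x1, n1]
      simp
  have e1B : B = (innerSL ℝ ξ).smulRight (B e1) + (innerSL ℝ η).smulRight (A e1) := by
    apply ext2
    · rw [_root_.add_apply, sr_e0, sr_e0, x0, n0]
      have : B e0 = - (t1 • B e1) - t2 • A e1 := by
        rw [← sub_eq_zero, ← h2]; abel
      rw [this, neg_smul, neg_smul]; abel
    · rw [_root_.add_apply, sr_e1, sr_e1, x1, n1]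
      simp
  rcases hL ξ η (A e1) (B e1) (by rw [← e1A]; exact hA) (by rw [← e1B]; exact hB) with h | h
  · exfalso
    have := congrArg (fun z : Sp 2 => z 1) h.1
    simp [x1] at this
  · rw [h.1, h.2] at e1A e1B
    constructor
    · rw [e1A]; ext; simp
    · rw [e1B]; ext; simp

theorem cinj' {L : (Sp 2 →L[ℝ] V) →L[ℝ] E} (hL : CEllR L) (A B : Sp 2 →L[ℝ] V) (hA : L A = 0)
    (hB : L B = 0) (h1 : A e1 = 0) (h2 : B e1 = 0) : A = 0 ∧ B = 0 := by
  set ξ : Sp 2 := WithLp.toLp 2 ![1, 0]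
  have x0 : ξ 0 = 1 := rfl
  have x1 : ξ 1 = 0 := rfl
  have e1A : A = (innerSL ℝ ξ).smulRight (A e0) - (innerSL ℝ (0 : Sp 2)).smulRight (B e0) := by
    apply ext2
    · rw [_root_.sub_apply, sr_e0, sr_e0, x0]
      simp
    · rw [_root_.sub_apply, sr_e1, sr_e1, x1, h1]
      simp
  have e1B : B = (innerSL ℝ ξ).smulRight (B e0) + (innerSL ℝ (0 : Sp 2)).smulRight (A e0) := by
    apply ext2
    · rw [_root_.add_apply, sr_e0, sr_e0, x0]
      simp
    · rw [_root_.add_apply, sr_e1, sr_e1, x1, h2]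
      simp
  rcases hL ξ 0 (A e0) (B e0) (by rw [← e1A]; exact hA) (by rw [← e1B]; exact hB) with h | h
  · exfalso
    have := congrArg (fun z : Sp 2 => z 0) h.1
    simp [x0] at this
  · rw [h.1, h.2] at e1A e1B
    constructor
    · rw [e1A]; ext; simp
    · rw [e1B]; ext; simp

/-- the point (1, t) -/
def yt (t : ℝ) : Sp 2 := e0 + t • e1

theorem claimB {L : (Sp 2 →L[ℝ] V) →L[ℝ] E} (hL : CEllR L) (M0 : Sp 2 →L[ℝ] V) (T : Set ℝ)
    (hT : T.Infinite) (h : ∀ t ∈ T, ∃ M, L M = 0 ∧ M0 (yt t) = M (yt t)) : L M0 = 0 := by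
  set K : Submodule ℝ (Sp 2 →L[ℝ] V) := LinearMap.ker (L : (Sp 2 →L[ℝ] V) →ₗ[ℝ] E) with hK
  have hKm : ∀ M, M ∈ K ↔ L M = 0 := fun M => by simp [hK]
  set bK := Module.finBasis ℝ K
  set bV := Module.finBasis ℝ V
  have hbK : ∀ j, L (bK j : Sp 2 →L[ℝ] V) = 0 := fun j => (hKm _).mp (bK j).2
  set P : Matrix (Fin (Module.finrank ℝ V)) (Fin (Module.finrank ℝ K)) ℂ :=
    fun i j => ((bV.repr ((bK j : Sp 2 →L[ℝ] V) e0) i : ℝ) : ℂ) with hP
  set Q : Matrix (Fin (Module.finrank ℝ V)) (Fin (Module.finrank ℝ K)) ℂ :=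
    fun i j => ((bV.repr ((bK j : Sp 2 →L[ℝ] V) e1) i : ℝ) : ℂ) with hQ
  -- real combinations
  set S : (Fin (Module.finrank ℝ K) → ℝ) → (Sp 2 →L[ℝ] V) := fun a => ∑ j, a j • (bK j).1 with hS
  have hSL : ∀ a, L (S a) = 0 := by
    intro a
    simp only [hS, map_sum, map_smul]
    exact Finset.sum_eq_zero fun j _ => by rw [hbK j, smul_zero]
  have hSr : ∀ a y i, bV.repr (S a y) i = ∑ j, a j * bV.repr ((bK j : Sp 2 →L[ℝ] V) y) i := by
    intro a y i
    simp only [hS, _root_.sum_apply, _root_.smul_apply, map_sum,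
      map_smul, Finsupp.coe_finsetSum, Finset.sum_apply, Finsupp.smul_apply, smul_eq_mul]
  have hS0 : ∀ a, S a = 0 → a = 0 := by
    intro a ha
    have h1 : ∑ j, a j • bK j = 0 := by
      apply Subtype.ext
      simpa [hS] using ha
    funext j
    exact Fintype.linearIndependent_iff.mp bK.linearIndependent a h1 j
  have hPQ : ∀ (t : ℂ) i j, (P + t • Q) i j =
      ((bV.repr ((bK j : Sp 2 →L[ℝ] V) e0) i : ℝ) : ℂ) +
        t * ((bV.repr ((bK j : Sp 2 →L[ℝ] V) e1) i : ℝ) : ℂ) := fun t i j => rfl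
  have hre : ∀ (c : Fin (Module.finrank ℝ K) → ℂ) (t : ℂ) i, (((P + t • Q) *ᵥ c) i).re =
      bV.repr (S (fun j => (c j).re) e0 + t.re • S (fun j => (c j).re) e1 -
        t.im • S (fun j => (c j).im) e1) i := by
    intro c t i
    rw [map_sub, map_add, map_smul, map_smul, Finsupp.sub_apply, Finsupp.add_apply,
      Finsupp.smul_apply, Finsupp.smul_apply, hSr, hSr, hSr]
    simp only [Matrix.mulVec, dotProduct, Complex.re_sum, hPQ, smul_eq_mul, Finset.mul_sum]
    rw [← Finset.sum_add_distrib, ← Finset.sum_sub_distrib]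
    refine Finset.sum_congr rfl fun j _ => ?_
    simp only [Complex.mul_re, Complex.add_re, Complex.add_im, Complex.mul_im, Complex.ofReal_re,
      Complex.ofReal_im]
    ring
  have him : ∀ (c : Fin (Module.finrank ℝ K) → ℂ) (t : ℂ) i, (((P + t • Q) *ᵥ c) i).im =
      bV.repr (S (fun j => (c j).im) e0 + t.re • S (fun j => (c j).im) e1 +
        t.im • S (fun j => (c j).re) e1) i := by
    intro c t i
    rw [map_add, map_add, map_smul, map_smul, Finsupp.add_apply, Finsupp.add_apply,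
      Finsupp.smul_apply, Finsupp.smul_apply, hSr, hSr, hSr]
    simp only [Matrix.mulVec, dotProduct, Complex.im_sum, hPQ, smul_eq_mul, Finset.mul_sum]
    rw [← Finset.sum_add_distrib, ← Finset.sum_add_distrib]
    refine Finset.sum_congr rfl fun j _ => ?_
    simp only [Complex.mul_re, Complex.add_re, Complex.add_im, Complex.mul_im, Complex.ofReal_re,
      Complex.ofReal_im]
    ring
  have hreQ : ∀ (c : Fin (Module.finrank ℝ K) → ℂ) i, ((Q *ᵥ c) i).re =
      bV.repr (S (fun j => (c j).re) e1) i := by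
    intro c i
    rw [hSr]
    simp only [Matrix.mulVec, dotProduct, Complex.re_sum, hQ]
    refine Finset.sum_congr rfl fun j _ => ?_
    simp only [Complex.mul_re, Complex.ofReal_re, Complex.ofReal_im]
    ring
  have himQ : ∀ (c : Fin (Module.finrank ℝ K) → ℂ) i, ((Q *ᵥ c) i).im =
      bV.repr (S (fun j => (c j).im) e1) i := by
    intro c i
    rw [hSr]
    simp only [Matrix.mulVec, dotProduct, Complex.im_sum, hQ]
    refine Finset.sum_congr rfl fun j _ => ?_
    simp only [Complex.mul_im, Complex.ofReal_re, Complex.ofReal_im]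
    ring
  have hrepr0 : ∀ v : V, (∀ i, bV.repr v i = 0) → v = 0 := by
    intro v hv
    apply bV.repr.injective
    rw [map_zero]
    ext i
    simpa using hv i
  have hc0 : ∀ c : Fin (Module.finrank ℝ K) → ℂ, S (fun j => (c j).re) = 0 →
      S (fun j => (c j).im) = 0 → c = 0 := by
    intro c h1 h2
    funext j
    apply Complex.ext
    · exact congrFun (hS0 _ h1) j
    · exact congrFun (hS0 _ h2) j
  have hPinj : ∀ (t : ℂ) (c : Fin (Module.finrank ℝ K) → ℂ), (P + t • Q) *ᵥ c = 0 → c = 0 := by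
    intro t c hc
    have h1 := cinj hL _ _ (hSL fun j => (c j).re) (hSL fun j => (c j).im) t.re t.im
      (hrepr0 _ fun i => by rw [← hre, hc]; rfl) (hrepr0 _ fun i => by rw [← him, hc]; rfl)
    exact hc0 c h1.1 h1.2
  have hQinj : ∀ (c : Fin (Module.finrank ℝ K) → ℂ), Q *ᵥ c = 0 → c = 0 := by
    intro c hc
    have h1 := cinj' hL _ _ (hSL fun j => (c j).re) (hSL fun j => (c j).im)
      (hrepr0 _ fun i => by rw [← hreQ, hc]; rfl) (hrepr0 _ fun i => by rw [← himQ, hc]; rfl)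
    exact hc0 c h1.1 h1.2
  obtain ⟨c, hc1, hc2⟩ := pencil P Q hPinj hQinj (fun i => ((bV.repr (M0 e0) i : ℝ) : ℂ))
    (fun i => ((bV.repr (M0 e1) i : ℝ) : ℂ)) ((fun t : ℝ => (t : ℂ)) '' T)
    (hT.image (Complex.ofReal_injective.injOn)) (by
      rintro _ ⟨t, ht, rfl⟩
      obtain ⟨M, hM, hM0⟩ := h t ht
      obtain ⟨a, ha⟩ : ∃ a : Fin (Module.finrank ℝ K) → ℝ, M = S a := by
        refine ⟨fun j => bK.repr ⟨M, (hKm M).mpr hM⟩ j, ?_⟩
        have h7 := congrArg Subtype.val (bK.sum_repr ⟨M, (hKm M).mpr hM⟩)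
        rw [Submodule.coe_sum] at h7
        exact h7.symm
      refine ⟨fun j => (a j : ℂ), ?_⟩
      funext i
      have h3 : bV.repr (M0 e0 + t • M0 e1) i = bV.repr (S a e0 + t • S a e1) i := by
        have : M0 e0 + t • M0 e1 = S a e0 + t • S a e1 := by
          have := hM0
          rw [ha, yt, map_add, map_smul, map_add, map_smul] at this
          exact this
        rw [this]
      apply Complex.ext
      · rw [hre]
        simp only [Complex.ofReal_re, Complex.ofReal_im, zero_smul, sub_zero, Pi.add_apply,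
          Pi.smul_apply, smul_eq_mul, Complex.add_re, Complex.mul_re, zero_mul]
        rw [← h3]
        simp
      · rw [him]
        have hz : S (fun j => ((a j : ℂ)).im) = 0 := by
          simp [hS]
        rw [hz]
        simp)
  -- conclusion
  have h4 : M0 = S (fun j => (c j).re) := by
    apply ext2
    · rw [← sub_eq_zero]
      apply hrepr0
      intro i
      have h5 := congrArg Complex.re (congrFun hc1 i)
      have h6 := hre c 0 i
      simp only [zero_smul, add_zero, Complex.zero_re, Complex.zero_im, sub_zero] at h6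
      rw [h6, Complex.ofReal_re] at h5
      rw [map_sub, Finsupp.sub_apply, h5, sub_self]
    · rw [← sub_eq_zero]
      apply hrepr0
      intro i
      have h5 := congrArg Complex.re (congrFun hc2 i)
      rw [hreQ, Complex.ofReal_re] at h5
      rw [map_sub, Finsupp.sub_apply, h5, sub_self]
  rw [h4]
  exact hSL _

theorem claimA {L : (Sp 2 →L[ℝ] V) →L[ℝ] E} (hL : CEllR L) (v : V) (T : Set ℝ)
    (hT : T.Infinite) (h : ∀ t ∈ T, ∃ M, L M = 0 ∧ v = M (yt t)) : v = 0 := by
  set ξ : Sp 2 := WithLp.toLp 2 ![1, 0]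
  have x0 : ξ 0 = 1 := rfl
  have x1 : ξ 1 = 0 := rfl
  have h1 : L ((innerSL ℝ ξ).smulRight v) = 0 := by
    apply claimB hL _ T hT
    intro t ht
    obtain ⟨M, hM, hv⟩ := h t ht
    refine ⟨M, hM, ?_⟩
    rw [← hv, yt, map_add, map_smul, sr_e0, sr_e1, x0, x1]
    simp
  rcases hL ξ 0 v 0 (by simpa using h1) (by simp) with h2 | h2
  · exfalso
    have := congrArg (fun z : Sp 2 => z 0) h2.1
    simp [x0] at this
  · exact h2.1

/-- a kernel element vanishing at (1,t) is zero -/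
theorem ker_zero {L : (Sp 2 →L[ℝ] V) →L[ℝ] E} (hL : CEllR L) (M : Sp 2 →L[ℝ] V) (hM : L M = 0)
    (t : ℝ) (h : M (yt t) = 0) : M = 0 := by
  rw [yt, map_add, map_smul] at h
  exact (cinj hL M 0 hM (by simp) t 0 (by simpa using h) (by simp)).1

end CH2

end

end TrI
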