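import Pool.Agent.TR.CH2b

/-!
# Module CH2 (part c): caps of complex elliptic operators in the plane
-/

set_option linter.unusedSectionVars false
set_option linter.unusedSimpArgs false

open MeasureTheory Metric Set Matrix
open scoped InnerProductSpace ContDiff

namespace TrI

noncomputable section

namespace CH2

variable {V E : Type} [NormedAddCommGroup V] [InnerProductSpace ℝ V] [FiniteDimensional ℝ V]
  [NormedAddCommGroup E] [InnerProductSpace ℝ E] [FiniteDimensional ℝ E]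

theorem contDiff_det {k : ℕ} (A : Sp 2 → Matrix (Fin k) (Fin k) ℝ)
    (hA : ∀ i j, ContDiff ℝ 1 fun y => A y i j) : ContDiff ℝ 1 fun y => (A y).det := by
  simp only [Matrix.det_apply']
  refine ContDiff.sum fun σ _ => ?_
  refine contDiff_const.mul ?_
  exact contDiff_prod fun i _ => hA _ _

theorem contDiff_adj {k : ℕ} (A : Sp 2 → Matrix (Fin k) (Fin k) ℝ)
    (hA : ∀ i j, ContDiff ℝ 1 fun y => A y i j) (i j : Fin k) :
    ContDiff ℝ 1 fun y => (A y).adjugate i j := by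
  simp only [Matrix.adjugate_apply]
  refine contDiff_det _ fun i' j' => ?_
  simp only [Matrix.updateRow_apply]
  by_cases h : i' = j
  · simp only [h, if_true]
    exact contDiff_const
  · simp only [h, if_false]
    exact hA _ _

theorem loc {F : Type} [NormedAddCommGroup F] [NormedSpace ℝ F] (f : Sp 2 → F)
    (hf : ContDiff ℝ 1 f) (y0 : Sp 2) : ∃ ρ : ℝ, 0 < ρ ∧ ∃ B : ℝ, 0 < B ∧
      (∀ y ∈ ball y0 ρ, ‖f y‖ ≤ B) ∧
      ∀ y ∈ ball y0 ρ, ∀ y' ∈ ball y0 ρ, ‖f y - f y'‖ ≤ B * ‖y - y'‖ := by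
  obtain ⟨K, t, ht, hK⟩ := (hf.contDiffAt (x := y0)).exists_lipschitzOnWith
  obtain ⟨ρ', hρ', hball⟩ := Metric.mem_nhds_iff.mp ht
  have hsub : ball y0 (min ρ' 1) ⊆ t := (ball_subset_ball (min_le_left _ _)).trans hball
  refine ⟨min ρ' 1, lt_min hρ' one_pos, ‖f y0‖ + K + 1, by positivity, ?_, ?_⟩
  · intro y hy
    have h1 := hK.dist_le_mul y (hsub hy) y0 (hsub (mem_ball_self (lt_min hρ' one_pos)))
    rw [dist_eq_norm, dist_eq_norm] at h1
    have h2 : ‖y - y0‖ < 1 := by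
      rw [mem_ball, dist_eq_norm] at hy
      exact lt_of_lt_of_le hy (min_le_right _ _)
    have h3 : ‖f y‖ ≤ ‖f y - f y0‖ + ‖f y0‖ := by
      simpa using norm_add_le (f y - f y0) (f y0)
    have h4 : (K : ℝ) * ‖y - y0‖ ≤ K * 1 := mul_le_mul_of_nonneg_left h2.le K.2
    linarith
  · intro y hy y' hy'
    have h1 := hK.dist_le_mul y (hsub hy) y' (hsub hy')
    rw [dist_eq_norm, dist_eq_norm] at h1
    refine h1.trans ?_
    apply mul_le_mul_of_nonneg_right _ (norm_nonneg _)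
    have := norm_nonneg (f y0)
    linarith

theorem exists_cap {L : (Sp 2 →L[ℝ] V) →L[ℝ] E} (hL : CEllR L)
    (S : E →ₗ[ℝ] (Sp 2 →L[ℝ] V)) (hS : ∀ M, L (M - S (L M)) = 0)
    (n : E) (hn : ∀ M, ⟪L M, n⟫_ℝ = 0) (s t : ℝ) (hs : 0 < s) (hy : ‖s • yt t‖ ≤ 1)
    (wa : V) (hwa : ∀ M, L M = 0 → ⟪wa, M (s • yt t)⟫_ℝ = 0) :
    ∃ (ρ B : ℝ) (w : Sp 2 → V) (τ : Sp 2 → E), IsCap L (s • yt t) ρ B w τ ∧
      w (s • yt t) = wa ∧ ∀ e, ⟪e, τ (s • yt t)⟫_ℝ = ⟪wa, S e (s • yt t)⟫_ℝ + ⟪e, n⟫_ℝ := by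
  set ya : Sp 2 := s • yt t with hya
  set K : Submodule ℝ (Sp 2 →L[ℝ] V) := LinearMap.ker (L : (Sp 2 →L[ℝ] V) →ₗ[ℝ] E) with hK
  have hKm : ∀ M, M ∈ K ↔ L M = 0 := fun M => by simp [hK]
  set bK := Module.finBasis ℝ K
  have hbK : ∀ j, L (bK j : Sp 2 →L[ℝ] V) = 0 := fun j => (hKm _).mp (bK j).2
  -- dual vectors
  obtain ⟨z, hz⟩ : ∃ z : Fin (Module.finrank ℝ K) → V, ∀ i j,
      ⟪z i, (bK j : Sp 2 →L[ℝ] V) ya⟫_ℝ = if i = j then 1 else 0 := by
    set ι : (Fin (Module.finrank ℝ K) → ℝ) →ₗ[ℝ] V :=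
      Fintype.linearCombination ℝ (fun j => (bK j : Sp 2 →L[ℝ] V) ya) with hι
    have hinj : LinearMap.ker ι = ⊥ := by
      rw [LinearMap.ker_eq_bot']
      intro a ha
      have h1 : (∑ j, a j • (bK j : Sp 2 →L[ℝ] V)) ya = 0 := by
        rw [hι, Fintype.linearCombination_apply] at ha
        rw [_root_.sum_apply]
        simpa using ha
      have h2 : (∑ j, a j • (bK j : Sp 2 →L[ℝ] V)) (yt t) = 0 := by
        rw [hya, map_smul, smul_eq_zero] at h1
        exact h1.resolve_left hs.ne'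
      have h3 : (∑ j, a j • (bK j : Sp 2 →L[ℝ] V)) = 0 := by
        refine ker_zero hL _ ?_ t h2
        rw [map_sum]
        exact Finset.sum_eq_zero fun j _ => by rw [map_smul, hbK j, smul_zero]
      have h4 : ∑ j, a j • bK j = 0 := by
        apply Subtype.ext
        rw [Submodule.coe_sum]
        exact h3
      funext j
      exact Fintype.linearIndependent_iff.mp bK.linearIndependent a h4 j
    obtain ⟨g, hg⟩ := LinearMap.exists_leftInverse_of_injective _ hinj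
    refine ⟨fun i => (InnerProductSpace.toDual ℝ V).symm
      (LinearMap.toContinuousLinearMap (LinearMap.proj i ∘ₗ g)), fun i j => ?_⟩
    rw [InnerProductSpace.toDual_symm_apply]
    have h1 : (bK j : Sp 2 →L[ℝ] V) ya = ι (Pi.single j 1) := by
      rw [hι, Fintype.linearCombination_apply_single, one_smul]
    rw [h1]
    change g (ι (Pi.single j 1)) i = _
    have h2 : g (ι (Pi.single j 1)) = Pi.single j 1 := LinearMap.congr_fun hg _
    rw [h2, Pi.single_apply]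
  set H : Sp 2 → Matrix (Fin (Module.finrank ℝ K)) (Fin (Module.finrank ℝ K)) ℝ :=
    fun y j i => ⟪z i, (bK j : Sp 2 →L[ℝ] V) y⟫_ℝ with hH
  set b : Sp 2 → Fin (Module.finrank ℝ K) → ℝ :=
    fun y j => ⟪wa, (bK j : Sp 2 →L[ℝ] V) y⟫_ℝ with hb
  have hHc : ∀ i j, ContDiff ℝ 1 fun y => H y i j := fun i j =>
    contDiff_const.inner ℝ (bK i : Sp 2 →L[ℝ] V).contDiff
  have hbc : ∀ j, ContDiff ℝ 1 fun y => b y j := fun j =>
    contDiff_const.inner ℝ (bK j : Sp 2 →L[ℝ] V).contDiff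
  have hHa : H ya = 1 := by
    ext j i
    rw [hH, Matrix.one_apply]
    change ⟪z i, (bK j : Sp 2 →L[ℝ] V) ya⟫_ℝ = _
    rw [hz i j]
    simp [eq_comm]
  have hba : b ya = 0 := by
    funext j
    exact hwa _ (hbK j)
  set w : Sp 2 → V := fun y => (H y).det • wa - ∑ i, ((H y).adjugate *ᵥ b y) i • z i with hw
  have hwc : ContDiff ℝ 1 w := by
    refine ((contDiff_det H hHc).smul contDiff_const).sub ?_
    refine ContDiff.sum fun i _ => ?_
    refine ContDiff.smul ?_ contDiff_const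
    simp only [Matrix.mulVec, dotProduct]
    exact ContDiff.sum fun j _ => (contDiff_adj H hHc i j).mul (hbc j)
  have hwa' : w ya = wa := by
    simp only [hw, hHa, hba, Matrix.mulVec_zero, Matrix.det_one, one_smul, Pi.zero_apply,
      zero_smul, Finset.sum_const_zero, sub_zero]
  have hwo : ∀ y j, ⟪w y, (bK j : Sp 2 →L[ℝ] V) y⟫_ℝ = 0 := by
    intro y j
    have h1 : (H y *ᵥ ((H y).adjugate *ᵥ b y)) j = (H y).det * b y j := by
      rw [Matrix.mulVec_mulVec, Matrix.mul_adjugate, Matrix.smul_mulVec, Matrix.one_mulVec,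
        Pi.smul_apply, smul_eq_mul]
    have h2 : (H y *ᵥ ((H y).adjugate *ᵥ b y)) j =
        ∑ i, ((H y).adjugate *ᵥ b y) i * ⟪z i, (bK j : Sp 2 →L[ℝ] V) y⟫_ℝ := by
      rw [Matrix.mulVec, dotProduct]
      exact Finset.sum_congr rfl fun i _ => mul_comm _ _
    simp only [hw]
    rw [inner_sub_left, real_inner_smul_left, sum_inner]
    simp only [real_inner_smul_left]
    rw [← h2, h1]
    exact sub_self _
  have hwo' : ∀ y M, L M = 0 → ⟪w y, M y⟫_ℝ = 0 := by
    intro y M hM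
    have h7 := congrArg Subtype.val (bK.sum_repr ⟨M, (hKm M).mpr hM⟩)
    rw [Submodule.coe_sum] at h7
    have h8 : M y = ∑ j, bK.repr ⟨M, (hKm M).mpr hM⟩ j • (bK j : Sp 2 →L[ℝ] V) y := by
      conv_lhs => rw [← show _ = M from h7]
      rw [_root_.sum_apply]
      rfl
    rw [h8, inner_sum]
    exact Finset.sum_eq_zero fun j _ => by rw [real_inner_smul_right, hwo y j, mul_zero]
  set ε := stdOrthonormalBasis ℝ E
  set τ : Sp 2 → E := fun y => (∑ a, ⟪w y, S (ε a) y⟫_ℝ • ε a) + n with hτ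
  have hτc : ContDiff ℝ 1 τ := by
    refine ContDiff.add ?_ contDiff_const
    refine ContDiff.sum fun a _ => ?_
    exact (hwc.inner ℝ (S (ε a)).contDiff).smul contDiff_const
  have hτe : ∀ e y, ⟪e, τ y⟫_ℝ = ⟪w y, S e y⟫_ℝ + ⟪e, n⟫_ℝ := by
    intro e y
    rw [hτ]
    simp only
    rw [inner_add_right, inner_sum]
    congr 1
    have h9 : S e = ∑ a, ⟪ε a, e⟫_ℝ • S (ε a) := by
      conv_lhs => rw [← ε.sum_repr' e]
      rw [map_sum]
      exact Finset.sum_congr rfl fun a _ => by rw [map_smul]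
    rw [h9, _root_.sum_apply, inner_sum]
    refine Finset.sum_congr rfl fun a _ => ?_
    rw [real_inner_smul_right, _root_.smul_apply, real_inner_smul_right, real_inner_comm e (ε a)]
    ring
  obtain ⟨ρ1, hρ1, B1, hB1, h1, h1'⟩ := loc w hwc ya
  obtain ⟨ρ2, hρ2, B2, hB2, h2, h2'⟩ := loc τ hτc ya
  set ρ : ℝ := min (min ρ1 ρ2) (1 / 2) with hρ
  have hρ0 : 0 < ρ := lt_min (lt_min hρ1 hρ2) (by norm_num)
  have hs1 : ball ya ρ ⊆ ball ya ρ1 :=
    ball_subset_ball ((min_le_left _ _).trans (min_le_left _ _))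
  have hs2 : ball ya ρ ⊆ ball ya ρ2 :=
    ball_subset_ball ((min_le_left _ _).trans (min_le_right _ _))
  refine ⟨ρ, B1 + B2, w, τ, ⟨hρ0, by positivity, ?_, ?_, ?_, ?_, ?_, ?_⟩, hwa', ?_⟩
  · have : ρ ≤ 1 / 2 := min_le_right _ _
    linarith
  · intro y _ M
    rw [hτe, hn, add_zero]
    have h3 := hwo' y _ (hS M)
    rw [_root_.sub_apply, inner_sub_right] at h3
    linarith
  · intro y hy'
    linarith [h1 y (hs1 hy')]
  · intro y hy'
    linarith [h2 y (hs2 hy')]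
  · intro y hy1 y' hy2
    refine (h1' y (hs1 hy1) y' (hs1 hy2)).trans ?_
    exact mul_le_mul_of_nonneg_right (by linarith) (norm_nonneg _)
  · intro y hy1 y' hy2
    refine (h2' y (hs2 hy1) y' (hs2 hy2)).trans ?_
    exact mul_le_mul_of_nonneg_right (by linarith) (norm_nonneg _)
  · intro e
    rw [hτe, hwa']

end CH2

end

end TrI
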