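import Mathlib

/-!
# Trace inequality for first-order operators in the slicing class: definitions and statements

Problem MP_287c87_an.  This file holds the definitions and the statements (Prop valued) of the
modules of the proof.  Scales are sc s0 j = s0 * 8^j.
-/

open MeasureTheory Metric Set
open scoped InnerProductSpace ContDiff

namespace TrI

noncomputable section

/-- Euclidean space of dimension d. -/
abbrev Sp (d : ℕ) := EuclideanSpace ℝ (Fin d)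

/-- the fixed radial bump -/
def bmp (d : ℕ) : ContDiffBump (0 : Sp d) := ⟨9/10, 1, by norm_num, by norm_num⟩

/-- the fixed averaging kernel: smooth, even, nonnegative, integral one, support the unit ball,
constant on the ball of radius 9/10 -/
def bk (d : ℕ) (y : Sp d) : ℝ := (bmp d).normed volume y

variable {d : ℕ}

section Averages

variable {F : Type*} [NormedAddCommGroup F] [NormedSpace ℝ F]

/-- average of g at scale s with kernel ψ -/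
def avk (ψ : Sp d → ℝ) (s : ℝ) (g : Sp d → F) (x : Sp d) : F := ∫ y, ψ y • g (x + s • y)

/-- average of g at scale s with the fixed kernel -/
def av (s : ℝ) (g : Sp d → F) : Sp d → F := avk (bk d) s g

/-- the scales -/
def sc (s0 : ℝ) (j : ℕ) : ℝ := s0 * 8 ^ j

/-- r successive averages at the scales of levels m, m+1, ..., m+r-1 -/
def kav (s0 : ℝ) (m : ℕ) : ℕ → (Sp d → F) → Sp d → F
  | 0, g => g
  | r + 1, g => av (sc s0 (m + r)) (kav s0 m r g)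

/-- the field f at level n -/
def fl (s0 : ℝ) (f : Sp d → F) (n : ℕ) : Sp d → F := kav s0 0 n f

/-- the gap of level n -/
def gap (s0 : ℝ) (f : Sp d → F) (n : ℕ) (x : Sp d) : ℝ :=
  av (sc s0 n) (fun z => ‖fl s0 f n z‖) x - ‖fl s0 f (n + 1) x‖

/-- the error functional of level j: all gaps of levels < j + 4 transported to level j + 4 -/
def er (s0 : ℝ) (f : Sp d → F) (j : ℕ) (x : Sp d) : ℝ :=
  sc s0 j * ∑ k ∈ Finset.range (j + 4),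
    (1 / 2 : ℝ) ^ (j - k) * kav s0 (k + 1) (j + 3 - k) (gap s0 f k) x

/-- the mass of level j around x -/
def am (s0 : ℝ) (f : Sp d → F) (j : ℕ) (x : Sp d) : ℝ :=
  sc s0 j / (sc s0 j) ^ d * ∫ z in ball x (32 * sc s0 j), ‖fl s0 f j z‖

/-- the class of functions on which averages are used: strongly measurable and locally bounded -/
structure LB (g : Sp d → F) : Prop where
  meas : StronglyMeasurable g
  bd : ∀ R : ℝ, ∃ M : ℝ, ∀ x, ‖x‖ ≤ R → ‖g x‖ ≤ M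

end Averages

section Operator

variable {V E : Type} [NormedAddCommGroup V] [InnerProductSpace ℝ V] [FiniteDimensional ℝ V]
  [NormedAddCommGroup E] [InnerProductSpace ℝ E] [FiniteDimensional ℝ E]

/-- test fields -/
structure TF (u : Sp d → V) : Prop where
  smooth : ContDiff ℝ ∞ u
  supp : HasCompactSupport u

/-- the field L(Du) -/
def fo (L : (Sp d →L[ℝ] V) →L[ℝ] E) (u : Sp d → V) : Sp d → E := fun z => L (fderiv ℝ u z)

/-- null fields of L -/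
def Null (L : (Sp d →L[ℝ] V) →L[ℝ] E) (p : Sp d → V) : Prop :=
  ContDiff ℝ ∞ p ∧ ∀ z, L (fderiv ℝ p z) = 0

/-- lam annihilates all null fields -/
def Ann (L : (Sp d →L[ℝ] V) →L[ℝ] E) (lam : Sp d → V) : Prop :=
  ∀ p, Null L p → ∫ y, ⟪lam y, p y⟫_ℝ = 0

/-- A cap: on the ball of centre y0 and radius ρ the functional w slices L(Du) -/
structure IsCap (L : (Sp d →L[ℝ] V) →L[ℝ] E) (y0 : Sp d) (ρ B : ℝ) (w : Sp d → V)
    (τ : Sp d → E) : Prop where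
  ρ_pos : 0 < ρ
  B_pos : 0 < B
  inside : ‖y0‖ + ρ ≤ 3 / 2
  slice : ∀ y ∈ ball y0 ρ, ∀ M : Sp d →L[ℝ] V, ⟪w y, M y⟫_ℝ = ⟪L M, τ y⟫_ℝ
  w_bd : ∀ y ∈ ball y0 ρ, ‖w y‖ ≤ B
  τ_bd : ∀ y ∈ ball y0 ρ, ‖τ y‖ ≤ B
  w_lip : ∀ y ∈ ball y0 ρ, ∀ y' ∈ ball y0 ρ, ‖w y - w y'‖ ≤ B * ‖y - y'‖
  τ_lip : ∀ y ∈ ball y0 ρ, ∀ y' ∈ ball y0 ρ, ‖τ y - τ y'‖ ≤ B * ‖y - y'‖

/-- cut-off functions -/
structure IsCut (κ : Sp d → ℝ) (y0 : Sp d) (r l : ℝ) : Prop where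
  l_nonneg : 0 ≤ l
  lip : ∀ y y', |κ y - κ y'| ≤ l * ‖y - y'‖
  supp : ∀ y, r ≤ ‖y - y0‖ → κ y = 0
  bd : ∀ y, |κ y| ≤ 1

/-- standard cut-off: 1 on the closed ball of radius r, 0 outside the ball of radius r' -/
def hat (c : Sp d) (r r' : ℝ) (y : Sp d) : ℝ := max 0 (min 1 ((r' - ‖y - c‖) / (r' - r)))

/-- the slice functional -/
def YY (u : Sp d → V) (w : Sp d → V) (κ : Sp d → ℝ) (x : Sp d) (t : ℝ) : ℝ :=
  ∫ y, κ y * ⟪w y, u (x + t • y)⟫_ℝ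

/-- two sided slice functional -/
def DD (u : Sp d → V) (w : Sp d → V) (κ : Sp d → ℝ) (x : Sp d) (t : ℝ) : ℝ :=
  YY u w κ x t - YY u w κ x (-t)

/-- mass of f at level j - m in the two sided cone over the ball (y0, r), at distances between
the scales of level j and j+1 -/
def NN (s0 : ℝ) (f : Sp d → E) (m j : ℕ) (x y0 : Sp d) (r : ℝ) : ℝ :=
  ∫ t in (sc s0 j)..(sc s0 (j + 1)), ∫ y in ball y0 r,
    (‖fl s0 f (j - m) (x + t • y)‖ + ‖fl s0 f (j - m) (x - t • y)‖)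

/-- the direction of f at level n and at the point x is positive on the cap -/
def Val (s0 : ℝ) (f : Sp d → E) (y0 : Sp d) (ρ : ℝ) (τ : Sp d → E) (c0 : ℝ) (n : ℕ)
    (x : Sp d) : Prop :=
  ∃ e : E, ‖e‖ = 1 ∧ fl s0 f n x = ‖fl s0 f n x‖ • e ∧ ∀ y ∈ ball y0 ρ, c0 ≤ ⟪e, τ y⟫_ℝ

/-- Local Korn-Poincare property (Lemma K) -/
def KProp (L : (Sp d →L[ℝ] V) →L[ℝ] E) (CK : ℝ) : Prop :=
  ∀ u : Sp d → V, TF u → ∀ s0 : ℝ, 0 < s0 → ∀ j : ℕ, 1 ≤ j → ∀ x : Sp d,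
    ∀ (lam : Sp d → V) (l : ℝ), 0 ≤ l → (∀ y y', ‖lam y - lam y'‖ ≤ l * ‖y - y'‖) →
      (∀ y, 2 ≤ ‖y‖ → lam y = 0) → Ann L lam →
      |∫ y, ⟪lam y, u (x + sc s0 j • y)⟫_ℝ| ≤ CK * l * (am s0 (fo L u) j x + er s0 (fo L u) j x)

/-- the kernels used to prove KProp -/
structure RKer (L : (Sp d →L[ℝ] V) →L[ℝ] E) (ψ : Sp d → ℝ) (Ψ : Sp d → (E →L[ℝ] V)) : Prop where
  ψ_cont : Continuous ψ
  ψ_supp : ∀ y, 1 ≤ ‖y‖ → ψ y = 0
  ψ_int : ∫ y, ψ y = 1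
  Ψ_cont : Continuous Ψ
  Ψ_supp : ∀ y, 16 ≤ ‖y‖ → Ψ y = 0
  Ψ_int : ∫ y, Ψ y = 0
  id : ∀ u : Sp d → V, TF u → ∀ s : ℝ, 0 < s → ∀ z,
    avk ψ s u z - avk ψ (8 * s) u z = s • ∫ y, Ψ y (fo L u (z + s • y))

/-- the label gate -/
def Gated (s0 : ℝ) (f : Sp d → E) (δ : ℝ) (l : ℕ) (z : Sp d) : Prop :=
  fl s0 f l z ≠ 0 ∧
    δ / (sc s0 l) ^ d * ∫ z' in ball z (40 * sc s0 l), ‖fl s0 f l z'‖ ≤ ‖fl s0 f l z‖

/-- the direction of f at level l and point z is near p -/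
def Near (s0 : ℝ) (f : Sp d → E) (ε : ℝ) (l : ℕ) (z : Sp d) (p : E) : Prop :=
  ‖fl s0 f l z - ‖fl s0 f l z‖ • p‖ ≤ ε * ‖fl s0 f l z‖

/-- the properties of the moved weights of a label system -/
structure LabelSys (s0 : ℝ) (f : Sp d → E) (ε δ c : ℝ) (J : ℕ) (U : ℕ → Sp d → ℝ) : Prop where
  meas : ∀ l, Measurable (U l)
  nonneg : ∀ l z, 0 ≤ U l z
  le_one : ∀ l z, U l z ≤ 1
  gated : ∀ l z, U l z ≠ 0 → Gated s0 f δ l z
  cost : ∑ l ∈ Finset.range J, ∫ z, U l z * ‖fl s0 f l z‖ ≤ 8 / ε ^ 2 * ∫ z, ‖f z‖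
  capture : ∀ (x : Sp d) (i i' : ℕ) (p p' : E), 1 ≤ i → i < i' → i' < J → ‖p‖ = 1 → ‖p'‖ = 1 →
    5 * ε ≤ ‖p - p'‖ →
    (∀ z ∈ ball x (sc s0 (i - 1) / 4), Gated s0 f δ i z ∧ Near s0 f ε i z p) →
    (∀ z ∈ ball x (sc s0 (i' - 1) / 4), Gated s0 f δ i' z ∧ Near s0 f ε i' z p') →
    c ≤ ∑ l ∈ Finset.Ico i i', kav s0 0 l (U l) x

/-- A chart: finitely many caps positive in all directions near the label c, with cut-offs and
dual vectors reproducing constants -/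
structure Chart (L : (Sp d →L[ℝ] V) →L[ℝ] E) (c : E) (ε : ℝ) where
  N : ℕ
  N_pos : 0 < N
  c0 : ℝ
  B : ℝ
  l : ℝ
  c0_pos : 0 < c0
  y0 : Fin N → Sp d
  ρ : Fin N → ℝ
  w : Fin N → Sp d → V
  τ : Fin N → Sp d → E
  κ : Fin N → Sp d → ℝ
  q : Fin N → V
  cap : ∀ a, IsCap L (y0 a) (ρ a) B (w a) (τ a)
  cut : ∀ a, IsCut (κ a) (y0 a) (ρ a / 4) l
  pos : ∀ a (e : E), ‖e‖ = 1 → ‖e - c‖ ≤ 10 * ε → ∀ y ∈ ball (y0 a) (ρ a), c0 ≤ ⟪e, τ a y⟫_ℝ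
  dual : ∀ v : V, ∑ a, (∫ y, κ a y * ⟪w a y, v⟫_ℝ) • q a = v

/-- the chart value of u at x and distance t -/
def Chart.UC {L : (Sp d →L[ℝ] V) →L[ℝ] E} {c : E} {ε : ℝ} (K : Chart L c ε) (u : Sp d → V)
    (x : Sp d) (t : ℝ) : V := ∑ a, YY u (K.w a) (K.κ a) x t • K.q a

/-- hypothesis for the construction of charts -/
def ChartHyp (L : (Sp d →L[ℝ] V) →L[ℝ] E) : Prop :=
  ∀ e : E, ‖e‖ = 1 → ∃ (N : ℕ) (_ : 0 < N) (B : ℝ) (y0 : Fin N → Sp d) (ρ : Fin N → ℝ)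
    (w : Fin N → Sp d → V) (τ : Fin N → Sp d → E),
    (∀ a, IsCap L (y0 a) (ρ a) B (w a) (τ a)) ∧ (∀ a, 0 < ⟪e, τ a (y0 a)⟫_ℝ) ∧
    Submodule.span ℝ (Set.range fun a => w a (y0 a)) = ⊤

/-- the trace inequality for L -/
def TraceIneq (L : (Sp d →L[ℝ] V) →L[ℝ] E) : Prop :=
  ∀ C' : ℝ, 0 < C' → ∃ C : ℝ, 0 < C ∧ ∀ μ : Measure (Sp d), IsFiniteMeasureOnCompacts μ →
    (∀ x : Sp d, ∀ r : ℝ, 0 < r → μ (ball x r) ≤ ENNReal.ofReal (C' * r ^ (d - 1))) →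
    ∀ u : Sp d → V, TF u →
      ∫⁻ x, ‖u x‖ₑ ∂μ ≤ ENNReal.ofReal C * ∫⁻ x, ‖fo L u x‖ₑ

end Operator

end

end TrI
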