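import Pool.Agent.TR.Stmts
import Pool.Agent.TR.Basic

/-!
# Trace inequality: final assembly for the symmetric gradient
-/

set_option linter.unusedSectionVars false

open MeasureTheory Metric Set
open scoped InnerProductSpace ContDiff

namespace TrI

noncomputable section

/-- KProp from K1 and K2 -/
theorem kprop_of {d : ℕ} {V E : Type} [NormedAddCommGroup V] [InnerProductSpace ℝ V]
    [FiniteDimensional ℝ V] [NormedAddCommGroup E] [InnerProductSpace ℝ E]
    [FiniteDimensional ℝ E] {L : (Sp d →L[ℝ] V) →L[ℝ] E} {ψ : Sp d → ℝ}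
    {Ψ : Sp d → (E →L[ℝ] V)} (h1 : StmtK1) (hR : RKer L ψ Ψ) {C2 : ℝ} (hC2 : 0 ≤ C2)
    (h2 : K2Prop L ψ C2) (hψ : ∀ u : Sp d → V, TF u → ∀ s, Continuous (avk ψ s u)) :
    ∃ CK, KProp L CK := by
  obtain ⟨C1, hC1, h1⟩ := h1 d V E L ψ Ψ hR
  refine ⟨C1 + C2, fun u hu s0 hs0 j _ x lam l hl hlip hsupp hann => ?_⟩
  have ha := h1 u hu s0 hs0 j x lam l hl hlip hsupp
  have hb := h2 u hu s0 hs0 j x lam l hl hlip hsupp hann
  have hlc : Continuous lam := by
    refine LipschitzWith.continuous (K := ⟨l, hl⟩) ?_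
    refine LipschitzWith.of_dist_le_mul fun y y' => ?_
    rw [dist_eq_norm, dist_eq_norm]
    exact hlip y y'
  have hcs : HasCompactSupport lam := by
    refine HasCompactSupport.of_support_subset_isCompact (isCompact_closedBall (0 : Sp d) 2) ?_
    intro y hy
    by_contra hy'
    apply hy
    rw [mem_closedBall, dist_zero_right, not_le] at hy'
    exact hsupp y hy'.le
  have hint : ∀ g : Sp d → V, Continuous g →
      Integrable (fun y => ⟪lam y, g (x + sc s0 j • y)⟫_ℝ) := by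
    intro g hg
    refine Continuous.integrable_of_hasCompactSupport ?_ ?_
    · exact hlc.inner (hg.comp (by fun_prop))
    · refine hcs.mono' ?_
      intro y hy
      apply subset_tsupport
      intro h0
      apply hy
      simp [h0]
  have e : ∫ y, ⟪lam y, u (x + sc s0 j • y)⟫_ℝ =
      (∫ y, ⟪lam y, u (x + sc s0 j • y) - avk ψ (sc s0 j) u (x + sc s0 j • y)⟫_ℝ) +
      ∫ y, ⟪lam y, avk ψ (sc s0 j) u (x + sc s0 j • y)⟫_ℝ := by
    simp only [inner_sub_right]
    rw [integral_sub (hint u hu.smooth.continuous) (hint _ (hψ u hu _))]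
    ring
  rw [e]
  refine (abs_add_le _ _).trans ?_
  have : (C1 + C2) * l * (am s0 (fo L u) j x + er s0 (fo L u) j x) =
      C1 * l * (am s0 (fo L u) j x + er s0 (fo L u) j x) +
      C2 * l * (am s0 (fo L u) j x + er s0 (fo L u) j x) := by ring
  rw [this]
  exact add_le_add ha hb

instance (d : ℕ) [NeZero d] : Nonempty (SI d) := ⟨⟨(0, 0), le_rfl⟩⟩

/-- the abstract BD theorem from the modules -/
theorem traceIneq_LBD (hK1 : StmtK1) (hBDR : StmtBDR) (hBDK2 : StmtBDK2) (hBDC : StmtBDCharts)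
    (hAbs : StmtAbs) (d : ℕ) (hd : 1 ≤ d) : TraceIneq (LBD d) := by
  obtain ⟨Ψ, hΨ⟩ := hBDR d
  obtain ⟨C2, hC2, h2⟩ := hBDK2 d
  obtain ⟨CK, hCK⟩ := kprop_of hK1 hΨ hC2 h2 fun u hu s => av_cont hu.smooth.continuous s
  have : NeZero d := ⟨by omega⟩
  have : Nontrivial (EBD d) := by
    refine ⟨EuclideanSpace.single ⟨(0, 0), le_rfl⟩ (1 : ℝ), 0, ?_⟩
    intro h
    have := congrArg (fun v : EBD d => v ⟨(0, 0), le_rfl⟩) h
    simp at this
  exact hAbs d hd (Sp d) (EBD d) (LBD d) CK hCK (hBDC d hd)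

/-- LBD only depends on the symmetric part -/
lemma LBD_symm {d : ℕ} (M : Sp d →L[ℝ] Sp d) :
    LBD d M = LBD d ((1 / 2 : ℝ) • (M + ContinuousLinearMap.adjoint M)) := by
  have h : ∀ i j : Fin d, (ContinuousLinearMap.adjoint M) (EuclideanSpace.single i 1) j =
      M (EuclideanSpace.single j 1) i := by
    intro i j
    have h1 : ⟪EuclideanSpace.single j (1 : ℝ),
        (ContinuousLinearMap.adjoint M) (EuclideanSpace.single i 1)⟫_ℝ =
        ⟪M (EuclideanSpace.single j (1 : ℝ)), EuclideanSpace.single i 1⟫_ℝ :=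
      ContinuousLinearMap.adjoint_inner_right _ _ _
    simpa [EuclideanSpace.inner_single_left, EuclideanSpace.inner_single_right] using h1
  ext p
  simp only [LBD, LinearMap.coe_toContinuousLinearMap', LinearMap.coe_mk, AddHom.coe_mk]
  simp [h]
  ring

/-- the final BD statement, in Mathlib terms -/
theorem bd_final (hT : ∀ d : ℕ, 1 ≤ d → TraceIneq (LBD d)) :
    ∀ d : ℕ, 1 ≤ d → ∀ C' : ℝ, 0 < C' → ∃ C : ℝ, 0 < C ∧
      ∀ μ : Measure (EuclideanSpace ℝ (Fin d)), IsFiniteMeasureOnCompacts μ →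
      (∀ x : EuclideanSpace ℝ (Fin d), ∀ r : ℝ, 0 < r →
        μ (ball x r) ≤ ENNReal.ofReal (C' * r ^ (d - 1))) →
      ∀ u : EuclideanSpace ℝ (Fin d) → EuclideanSpace ℝ (Fin d),
        ContDiff ℝ (⊤ : ℕ∞) u → HasCompactSupport u →
        ∫⁻ x, ‖u x‖ₑ ∂μ ≤ ENNReal.ofReal C *
          ∫⁻ x, ‖(1 / 2 : ℝ) • (fderiv ℝ u x + ContinuousLinearMap.adjoint (fderiv ℝ u x))‖ₑ := by
  intro d hd C' hC'
  obtain ⟨C, hC, h⟩ := hT d hd C' hC'
  refine ⟨C * (‖LBD d‖ + 1), by positivity, fun μ hμ hg u hu hu' => ?_⟩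
  refine (h μ hμ hg u ⟨hu, hu'⟩).trans ?_
  rw [ENNReal.ofReal_mul hC.le, mul_assoc]
  refine mul_le_mul_right ?_ _
  rw [← lintegral_const_mul' _ _ ENNReal.ofReal_ne_top]
  refine lintegral_mono fun x => ?_
  simp only [fo]
  rw [LBD_symm]
  have h1 := (LBD d).le_opNorm
    ((1 / 2 : ℝ) • (fderiv ℝ u x + ContinuousLinearMap.adjoint (fderiv ℝ u x)))
  rw [← ofReal_norm_eq_enorm, ← ofReal_norm_eq_enorm, ← ENNReal.ofReal_mul (by positivity)]
  refine ENNReal.ofReal_le_ofReal (h1.trans ?_)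
  gcongr
  linarith

end

end TrI
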