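import Pool.Agent.TR.Defs

/-!
# Module K2G, part a: Taylor polynomials

Symmetry of the iterated derivative of a smooth function, derivatives of homogeneous polynomials,
Taylor polynomials.
-/

open MeasureTheory Metric Set
open scoped InnerProductSpace ContDiff

namespace TrI

noncomputable section

namespace K2G

section Symm

variable {X F : Type*} [NormedAddCommGroup X] [NormedSpace ℝ X] [NormedAddCommGroup F]
  [NormedSpace ℝ F]

lemma smooth_iter {g : X → F} (hg : ContDiff ℝ ∞ g) (k : ℕ) :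
    ContDiff ℝ ∞ (iteratedFDeriv ℝ k g) :=
  hg.iteratedFDeriv_right (m := ∞) (i := k) (by
    have h : ((k : ℕ) : WithTop ℕ∞) = (((k : ℕ∞)) : WithTop ℕ∞) := rfl
    rw [h, ← WithTop.coe_add, top_add])

lemma diff_iter {g : X → F} (hg : ContDiff ℝ ∞ g) (k : ℕ) :
    Differentiable ℝ (iteratedFDeriv ℝ k g) :=
  (smooth_iter hg k).differentiable (by simp)

lemma two_le_inf : ((2 : WithTop ℕ∞)) ≤ ∞ := by
  have h : ((2 : WithTop ℕ∞)) = ((2 : ℕ∞) : WithTop ℕ∞) := rfl
  rw [h]; exact_mod_cast (le_top : (2 : ℕ∞) ≤ ⊤)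

lemma iter_two {g : X → F} (hg : ContDiff ℝ ∞ g) (k : ℕ) (x : X) (v : Fin (k + 2) → X) :
    iteratedFDeriv ℝ (k + 2) g x v =
      fderiv ℝ (fderiv ℝ (iteratedFDeriv ℝ k g)) x (v 0) (v 1) (fun i => v i.succ.succ) := by
  have h1 := (diff_iter hg (k + 1) x).iteratedFDeriv_succ_apply_left' (m := v)
  rw [h1]
  have h2 : (fun y => iteratedFDeriv ℝ (k + 1) g y (Fin.tail v)) =
      fun y => (fderiv ℝ (iteratedFDeriv ℝ k g) y (v 1)) (fun i => v i.succ.succ) := by
    funext y
    rw [iteratedFDeriv_succ_apply_left]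
    rfl
  rw [h2]
  have hd : DifferentiableAt ℝ (fderiv ℝ (iteratedFDeriv ℝ k g)) x :=
    (((smooth_iter hg k).fderiv_right (m := ∞) (by simp)).differentiable (by simp)) x
  have hd1 : DifferentiableAt ℝ (fun y => fderiv ℝ (iteratedFDeriv ℝ k g) y (v 1)) x := by
    fun_prop
  rw [fderiv_continuousMultilinear_apply_const_apply hd1]
  rw [fderiv_clm_apply hd (differentiableAt_const _)]
  simp

/-- invariance of the iterated derivative under adjacent transpositions -/
lemma symm_adj {g : X → F} (hg : ContDiff ℝ ∞ g) : ∀ (k : ℕ) (i : Fin k) (x : X)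
    (v : Fin (k + 1) → X),
    iteratedFDeriv ℝ (k + 1) g x (v ∘ Equiv.swap i.castSucc i.succ) =
      iteratedFDeriv ℝ (k + 1) g x v := by
  intro k
  induction k with
  | zero => intro i; exact i.elim0
  | succ k ih =>
    intro i x v
    refine Fin.cases ?_ ?_ i
    · rw [iter_two hg, iter_two hg]
      have hs : IsSymmSndFDerivAt ℝ (iteratedFDeriv ℝ k g) x :=
        (smooth_iter hg k).contDiffAt.isSymmSndFDerivAt (by
          rw [minSmoothness_of_isRCLikeNormedField]
          exact two_le_inf)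
      have e0 : (v ∘ Equiv.swap (Fin.castSucc (0 : Fin (k + 1))) (Fin.succ (0 : Fin (k + 1)))) 0
          = v 1 := by
        simp
      have e1 : (v ∘ Equiv.swap (Fin.castSucc (0 : Fin (k + 1))) (Fin.succ (0 : Fin (k + 1)))) 1
          = v 0 := by
        simp
      have e2 : (fun i : Fin k => (v ∘ Equiv.swap (Fin.castSucc (0 : Fin (k + 1)))
          (Fin.succ (0 : Fin (k + 1)))) i.succ.succ) = fun i => v i.succ.succ := by
        funext i
        rfl
      rw [e0, e1, e2, hs.eq]
    · intro i'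
      rw [(diff_iter hg (k + 1) x).iteratedFDeriv_succ_apply_left',
        (diff_iter hg (k + 1) x).iteratedFDeriv_succ_apply_left']
      have e0 : (v ∘ Equiv.swap (Fin.castSucc (Fin.succ i')) (Fin.succ (Fin.succ i'))) 0 = v 0 := by
        rfl
      have e1 : Fin.tail (v ∘ Equiv.swap (Fin.castSucc (Fin.succ i')) (Fin.succ (Fin.succ i')))
          = (Fin.tail v) ∘ Equiv.swap (Fin.castSucc i') (Fin.succ i') := by
        funext a
        simp only [Fin.tail, Function.comp_apply]
        congr 1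
        rw [← Fin.succ_castSucc]
        exact Function.Injective.swap_apply (Fin.succ_injective _) _ _ _
      rw [e0, e1]
      congr 1
      congr 1
      funext y
      exact ih i' y (Fin.tail v)

lemma iter_symm {g : X → F} (hg : ContDiff ℝ ∞ g) (m : ℕ) (x : X) (σ : Equiv.Perm (Fin m))
    (v : Fin m → X) : iteratedFDeriv ℝ m g x (v ∘ σ) = iteratedFDeriv ℝ m g x v := by
  cases m with
  | zero => congr 1; exact Subsingleton.elim _ _
  | succ k =>
    have hσ : σ ∈ Submonoid.closure
        (Set.range fun i : Fin k ↦ Equiv.swap i.castSucc i.succ) := by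
      rw [Equiv.Perm.mclosure_swap_castSucc_succ]; trivial
    induction hσ using Submonoid.closure_induction generalizing v with
    | mem τ hτ =>
      obtain ⟨i, rfl⟩ := hτ
      exact symm_adj hg k i x v
    | one => rfl
    | mul a b _ _ ha hb =>
      have : v ∘ (a * b : Equiv.Perm (Fin (k + 1))) = (v ∘ a) ∘ b := rfl
      rw [this, hb, ha]

end Symm

section Homog

variable {X F : Type*} [NormedAddCommGroup X] [NormedSpace ℝ X] [NormedAddCommGroup F]
  [NormedSpace ℝ F]

/-- the homogeneous polynomial of a multilinear map -/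
def hp {m : ℕ} (c : ContinuousMultilinearMap ℝ (fun _ : Fin m => X) F) (y : X) : F :=
  c fun _ => y

lemma hp_contDiff {m : ℕ} (c : ContinuousMultilinearMap ℝ (fun _ : Fin m => X) F)
    {n : WithTop ℕ∞} : ContDiff ℝ n (hp c) := by
  apply c.contDiff.comp
  exact contDiff_pi.2 (fun i ↦ contDiff_id)

lemma hp_iter_self {m : ℕ} (c : ContinuousMultilinearMap ℝ (fun _ : Fin m => X) F) (x : X)
    (v : Fin m → X) :
    iteratedFDeriv ℝ m (hp c) x v = ∑ σ : Equiv.Perm (Fin m), c (fun i => v (σ i)) :=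
  c.iteratedFDeriv_comp_diagonal x v

lemma hp_iter_ne {m k : ℕ} (h : m ≠ k) (c : ContinuousMultilinearMap ℝ (fun _ : Fin m => X) F) :
    iteratedFDeriv ℝ k (hp c) 0 = 0 := by
  let q : FormalMultilinearSeries ℝ X F := fun k ↦ if h : m = k then (h ▸ c) else 0
  have A : HasFiniteFPowerSeriesOnBall (hp c) q 0 (m + 1) ⊤ := by
    apply HasFiniteFPowerSeriesOnBall.mk' _ (by simp)
    · intro y hy
      rw [Finset.sum_eq_single_of_mem m]
      · simp [q, hp]
      · simp
      · intro i hi h'i
        simp [q, h'i.symm]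
    · intro m' hm
      have : m ≠ m' := by lia
      simp [q, this]
  have B : AnalyticOn ℝ (hp c) univ := (hp_contDiff c (n := ω)).contDiffOn.analyticOn
  ext v
  rw [A.toHasFPowerSeriesOnBall.iteratedFDeriv_eq_sum B]
  simp [q, h]

lemma iter_const_zero {g : X → F} {k : ℕ} {c : ContinuousMultilinearMap ℝ (fun _ : Fin k => X) F}
    (h : ∀ x, iteratedFDeriv ℝ k g x = c) (j : ℕ) (x : X) :
    iteratedFDeriv ℝ (k + 1 + j) g x = 0 := by
  induction j generalizing x with
  | zero =>
    have e : iteratedFDeriv ℝ k g = fun _ => c := funext h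
    ext v
    change iteratedFDeriv ℝ (k + 1) g x v = 0
    rw [iteratedFDeriv_succ_apply_left, e]
    simp
  | succ j ih =>
    have e : iteratedFDeriv ℝ (k + 1 + j) g = fun _ => 0 := funext ih
    ext v
    change iteratedFDeriv ℝ ((k + 1 + j) + 1) g x v = 0
    rw [iteratedFDeriv_succ_apply_left, e]
    simp

lemma hp_iter_gt {m k : ℕ} (h : m < k) (c : ContinuousMultilinearMap ℝ (fun _ : Fin m => X) F)
    (x : X) : iteratedFDeriv ℝ k (hp c) x = 0 := by
  obtain ⟨j, rfl⟩ : ∃ j, k = m + 1 + j := ⟨k - (m + 1), by omega⟩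
  refine iter_const_zero (c := iteratedFDeriv ℝ m (hp c) 0) (fun x => ?_) j x
  ext v
  rw [hp_iter_self, hp_iter_self]

lemma hp_iter_self_of_symm {g : X → F} (hg : ContDiff ℝ ∞ g) (m : ℕ) :
    iteratedFDeriv ℝ m (hp (((m.factorial : ℕ) : ℝ)⁻¹ • iteratedFDeriv ℝ m g 0)) 0 =
      iteratedFDeriv ℝ m g 0 := by
  ext v
  rw [hp_iter_self]
  have h1 : ∀ σ : Equiv.Perm (Fin m), (((m.factorial : ℕ) : ℝ)⁻¹ • iteratedFDeriv ℝ m g 0)
      (fun i => v (σ i)) = ((m.factorial : ℕ) : ℝ)⁻¹ • iteratedFDeriv ℝ m g 0 v := by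
    intro σ
    have := iter_symm hg m 0 σ v
    rw [_root_.smul_apply]
    congr 1
  rw [Finset.sum_congr rfl fun σ _ => h1 σ, Finset.sum_const, Finset.card_univ,
    Fintype.card_perm, Fintype.card_fin, ← Nat.cast_smul_eq_nsmul ℝ, smul_smul]
  rw [mul_inv_cancel₀ (by exact_mod_cast m.factorial_ne_zero), one_smul]

end Homog

end K2G

end

end TrI
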