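import Pool.Agent.TR.K2Ga

/-!
# Module K2G, part b: approximation by null polynomials
-/

open MeasureTheory Metric Set
open scoped InnerProductSpace ContDiff

namespace TrI

set_option linter.unusedSectionVars false

noncomputable section

namespace K2G

section Poly

variable {d : ℕ} {V E : Type} [NormedAddCommGroup V] [InnerProductSpace ℝ V]
  [FiniteDimensional ℝ V] [NormedAddCommGroup E] [InnerProductSpace ℝ E]
  [FiniteDimensional ℝ E]

instance fd_cmm (m : ℕ) :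
    FiniteDimensional ℝ (ContinuousMultilinearMap ℝ (fun _ : Fin m => Sp d) V) :=
  FiniteDimensional.of_injective
    (ContinuousMultilinearMap.toMultilinearMapLinear (R' := ℝ) (A := ℝ)
      (M₁ := fun _ : Fin m => Sp d) (M₂ := V))
    ContinuousMultilinearMap.toMultilinearMap_injective

/-- generalized inverse with a bound -/
lemma gen_inv {A B : Type*} [NormedAddCommGroup A] [NormedSpace ℝ A] [FiniteDimensional ℝ A]
    [NormedAddCommGroup B] [NormedSpace ℝ B] (S : A →ₗ[ℝ] B) :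
    ∃ C : ℝ, 0 ≤ C ∧ ∀ a, ∃ a', S a' = 0 ∧ ‖a - a'‖ ≤ C * ‖S a‖ := by
  obtain ⟨G, hG⟩ := S.rangeRestrict.exists_rightInverse_of_surjective
    (LinearMap.range_rangeRestrict S)
  have hG' : ∀ b, S.rangeRestrict (G b) = b := fun b => LinearMap.congr_fun hG b
  set G' : LinearMap.range S →L[ℝ] A := LinearMap.toContinuousLinearMap G with hG'def
  refine ⟨‖G'‖, norm_nonneg G', fun a => ⟨a - G (S.rangeRestrict a), ?_, ?_⟩⟩
  · rw [map_sub]
    have h1 := congrArg Subtype.val (hG' (S.rangeRestrict a))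
    have h2 : S (G (S.rangeRestrict a)) = S a := h1
    rw [h2, sub_self]
  · rw [sub_sub_cancel]
    exact G'.le_opNorm (S.rangeRestrict a)

/-- coefficients of polynomials of degree at most n -/
abbrev CS (d n : ℕ) (V : Type) [NormedAddCommGroup V] [NormedSpace ℝ V] :=
  (m : Fin (n + 1)) → ContinuousMultilinearMap ℝ (fun _ : Fin (m : ℕ) => Sp d) V

/-- the polynomial of a coefficient vector -/
def pc {n : ℕ} (c : CS d n V) (y : Sp d) : V := ∑ m, hp (c m) y

lemma pc_contDiff {n : ℕ} (c : CS d n V) {k : WithTop ℕ∞} : ContDiff ℝ k (pc c) :=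
  ContDiff.sum fun m _ => hp_contDiff (c m)

lemma pc_add {n : ℕ} (c c' : CS d n V) : pc (c + c') = fun y => pc c y + pc c' y := by
  funext y
  simp only [pc, hp, Pi.add_apply, ← Finset.sum_add_distrib]
  rfl

lemma pc_smul {n : ℕ} (a : ℝ) (c : CS d n V) : pc (a • c) = fun y => a • pc c y := by
  funext y
  simp only [pc, hp, Pi.smul_apply, Finset.smul_sum]
  rfl

lemma pc_sub {n : ℕ} (c c' : CS d n V) (y : Sp d) : pc (c - c') y = pc c y - pc c' y := by
  simp only [pc, hp, Pi.sub_apply, ← Finset.sum_sub_distrib]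
  rfl

lemma pc_iter_gt {n : ℕ} (c : CS d n V) (x : Sp d) : iteratedFDeriv ℝ (n + 1) (pc c) x = 0 := by
  unfold pc
  rw [iteratedFDeriv_fun_sum_apply fun m _ => (hp_contDiff (c m)).contDiffAt]
  refine Finset.sum_eq_zero fun m _ => hp_iter_gt m.2 _ x

lemma pc_iter {n : ℕ} (c : CS d n V) (k : Fin (n + 1)) :
    iteratedFDeriv ℝ k (pc c) 0 = iteratedFDeriv ℝ k (hp (c k)) 0 := by
  unfold pc
  rw [iteratedFDeriv_fun_sum_apply fun m _ => (hp_contDiff (c m)).contDiffAt]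
  refine Finset.sum_eq_single k (fun m _ hm => ?_) (fun h => absurd (Finset.mem_univ _) h)
  exact hp_iter_ne (fun h => hm (Fin.ext h)) _

lemma pc_norm {n : ℕ} (c : CS d n V) (y : Sp d) (hy : ‖y‖ ≤ 2) :
    ‖pc c y‖ ≤ (n + 1) * 2 ^ n * ‖c‖ := by
  unfold pc
  refine (norm_sum_le _ _).trans ?_
  have h1 : ∀ m ∈ (Finset.univ : Finset (Fin (n + 1))), ‖hp (c m) y‖ ≤ 2 ^ n * ‖c‖ := by
    intro m _
    unfold hp
    refine ((c m).le_opNorm _).trans ?_
    rw [Finset.prod_const, Finset.card_univ, Fintype.card_fin, mul_comm]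
    refine mul_le_mul ?_ (norm_le_pi_norm c m) (norm_nonneg _) (by positivity)
    calc ‖y‖ ^ (m : ℕ) ≤ 2 ^ (m : ℕ) := pow_le_pow_left₀ (norm_nonneg _) hy _
      _ ≤ 2 ^ n := pow_le_pow_right₀ (by norm_num) (Nat.lt_succ_iff.1 m.2)
  refine (Finset.sum_le_sum h1).trans ?_
  rw [Finset.sum_const, Finset.card_univ, Fintype.card_fin, nsmul_eq_mul]
  push_cast
  linarith

lemma fo_contDiff (L : (Sp d →L[ℝ] V) →L[ℝ] E) {g : Sp d → V} (hg : ContDiff ℝ ∞ g) :
    ContDiff ℝ ∞ (fo L g) :=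
  L.contDiff.comp (hg.fderiv_right (m := ∞) (by simp))

lemma fo_add (L : (Sp d →L[ℝ] V) →L[ℝ] E) {g h : Sp d → V} (hg : ContDiff ℝ ∞ g)
    (hh : ContDiff ℝ ∞ h) : fo L (fun y => g y + h y) = fun y => fo L g y + fo L h y := by
  funext y
  unfold fo
  have h1 := (hg.differentiable (by simp)) y
  have h2 := (hh.differentiable (by simp)) y
  rw [fderiv_fun_add h1 h2, map_add]

lemma fo_smul (L : (Sp d →L[ℝ] V) →L[ℝ] E) {g : Sp d → V} (hg : ContDiff ℝ ∞ g) (a : ℝ) :
    fo L (fun y => a • g y) = fun y => a • fo L g y := by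
  funext y
  unfold fo
  have h1 := (hg.differentiable (by simp)) y
  rw [fderiv_fun_const_smul h1, map_smul]

lemma fo_iter_le (L : (Sp d →L[ℝ] V) →L[ℝ] E) {g : Sp d → V} (hg : ContDiff ℝ ∞ g) (k : ℕ)
    (z : Sp d) : ‖iteratedFDeriv ℝ k (fo L g) z‖ ≤ ‖L‖ * ‖iteratedFDeriv ℝ (k + 1) g z‖ := by
  have h1 : fo L g = L ∘ (fderiv ℝ g) := rfl
  have h2 : ContDiff ℝ ∞ (fderiv ℝ g) := hg.fderiv_right (m := ∞) (by simp)
  rw [h1, ← norm_iteratedFDeriv_fderiv]
  exact L.norm_iteratedFDeriv_comp_left h2.contDiffAt (by exact_mod_cast le_top)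

/-- the linear map of derivatives of L(Dp) at the origin -/
def SL (L : (Sp d →L[ℝ] V) →L[ℝ] E) (n : ℕ) :
    CS d n V →ₗ[ℝ] ((k : Fin n) → ContinuousMultilinearMap ℝ (fun _ : Fin (k : ℕ) => Sp d) E) where
  toFun c k := iteratedFDeriv ℝ k (fo L (pc c)) 0
  map_add' c c' := by
    funext k
    have h1 := fo_contDiff L (pc_contDiff c)
    have h2 := fo_contDiff L (pc_contDiff c')
    rw [pc_add, fo_add L (pc_contDiff c) (pc_contDiff c'), Pi.add_apply]
    exact fun_iteratedFDeriv_add_apply (h1.of_le (by exact_mod_cast le_top)).contDiffAt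
      (h2.of_le (by exact_mod_cast le_top)).contDiffAt
  map_smul' a c := by
    funext k
    have h1 := fo_contDiff L (pc_contDiff c)
    rw [pc_smul, fo_smul L (pc_contDiff c), Pi.smul_apply]
    exact iteratedFDeriv_const_smul_apply' (h1.of_le (by exact_mod_cast le_top)).contDiffAt

/-- approximation by null polynomials -/
lemma null_approx (L : (Sp d →L[ℝ] V) →L[ℝ] E) (n : ℕ) (hn : 1 ≤ n) : ∃ C : ℝ, 0 ≤ C ∧
    ∀ g : Sp d → V, ContDiff ℝ ∞ g → ∀ M : ℝ, 0 ≤ M →
      (∀ z, ‖z‖ ≤ 2 → ‖iteratedFDeriv ℝ (n + 1) g z‖ ≤ M) →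
      (∀ k < n, ‖iteratedFDeriv ℝ k (fo L g) 0‖ ≤ M) →
      ∃ p : Sp d → V, Null L p ∧ ∀ y, ‖y‖ ≤ 2 → ‖g y - p y‖ ≤ C * M := by
  obtain ⟨C1, hC1, hinv⟩ := gen_inv (SL L n)
  refine ⟨2 ^ (n + 1) + (n + 1) * 2 ^ n * C1, by positivity, ?_⟩
  intro g hg M hM hgM hfM
  set c0 : CS d n V := fun m => (((m : ℕ).factorial : ℕ) : ℝ)⁻¹ • iteratedFDeriv ℝ m g 0 with hc0
  set R : Sp d → V := fun y => g y - pc c0 y with hR
  have hp0 : ContDiff ℝ ∞ (pc c0) := pc_contDiff c0
  have hRs : ContDiff ℝ ∞ R := hg.sub hp0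
  have hR0 : ∀ k : ℕ, k ≤ n → iteratedFDeriv ℝ k R 0 = 0 := by
    intro k hk
    have h1 := pc_iter c0 ⟨k, Nat.lt_succ_of_le hk⟩
    have h2 : iteratedFDeriv ℝ k (hp (c0 ⟨k, Nat.lt_succ_of_le hk⟩)) 0 =
      iteratedFDeriv ℝ k g 0 := hp_iter_self_of_symm hg k
    have h3 : iteratedFDeriv ℝ k (pc c0) 0 = iteratedFDeriv ℝ k g 0 := h1.trans h2
    have h4 : iteratedFDeriv ℝ k R 0 = iteratedFDeriv ℝ k g 0 - iteratedFDeriv ℝ k (pc c0) 0 :=
      fun_iteratedFDeriv_sub_apply (hg.of_le (by exact_mod_cast le_top)).contDiffAt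
        (hp0.of_le (by exact_mod_cast le_top)).contDiffAt
    rw [h4, h3, sub_self]
  have hfR : ∀ k : ℕ, k < n → iteratedFDeriv ℝ k (fo L R) 0 = 0 := by
    intro k hk
    have h1 := fo_iter_le L hRs k 0
    rw [hR0 (k + 1) hk, norm_zero, mul_zero] at h1
    exact norm_le_zero_iff.1 h1
  have hgsum : g = fun y => pc c0 y + R y := by
    funext y; simp [hR]
  have hS : ∀ k : Fin n, SL L n c0 k = iteratedFDeriv ℝ k (fo L g) 0 := by
    intro k
    have h1 : fo L g = fun y => fo L (pc c0) y + fo L R y := by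
      conv_lhs => rw [hgsum]
      exact fo_add L hp0 hRs
    have h2 : iteratedFDeriv ℝ (k : ℕ) (fo L g) 0 =
        iteratedFDeriv ℝ (k : ℕ) (fo L (pc c0)) 0 + iteratedFDeriv ℝ (k : ℕ) (fo L R) 0 := by
      rw [h1]
      exact fun_iteratedFDeriv_add_apply
        ((fo_contDiff L hp0).of_le (by exact_mod_cast le_top)).contDiffAt
        ((fo_contDiff L hRs).of_le (by exact_mod_cast le_top)).contDiffAt
    rw [h2, hfR k k.2, add_zero]
    rfl
  have hSn : ‖SL L n c0‖ ≤ M := by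
    refine (pi_norm_le_iff_of_nonneg hM).2 fun k => ?_
    rw [hS k]
    exact hfM k k.2
  obtain ⟨a', ha', hb'⟩ := hinv c0
  refine ⟨pc a', ⟨pc_contDiff a', ?_⟩, ?_⟩
  · -- null field
    obtain ⟨n', rfl⟩ : ∃ n', n = n' + 1 := ⟨n - 1, by omega⟩
    intro z
    have hs : ContDiff ℝ ∞ (fo L (pc a')) := fo_contDiff L (pc_contDiff a')
    have hT := map_add_eq_sum_add_integral_iteratedFDeriv (f := fo L (pc a')) (x := 0) (y := z)
      (n := n') (fun t _ => (hs.of_le (by exact_mod_cast le_top)).contDiffAt)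
    have hz : ∀ w, iteratedFDeriv ℝ (n' + 1) (fo L (pc a')) w = 0 := by
      intro w
      have h1 := fo_iter_le L (pc_contDiff a') (n' + 1) w
      rw [pc_iter_gt, norm_zero, mul_zero] at h1
      exact norm_le_zero_iff.1 h1
    have h0 : ∀ k ∈ Finset.range (n' + 1),
        (((k.factorial : ℕ) : ℝ)⁻¹ • iteratedFDeriv ℝ k (fo L (pc a')) 0 fun _ => z) = 0 := by
      intro k hk
      have h1 : iteratedFDeriv ℝ k (fo L (pc a')) 0 = 0 :=
        congrFun ha' ⟨k, Finset.mem_range.1 hk⟩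
      rw [h1]; simp
    rw [Finset.sum_eq_zero h0] at hT
    simp only [hz] at hT
    simpa [fo] using hT
  · intro y hy
    have h1 : g y - pc a' y = R y + pc (c0 - a') y := by
      rw [pc_sub]; simp [hR]
    rw [h1]
    refine (norm_add_le _ _).trans ?_
    have h2 : ‖pc (c0 - a') y‖ ≤ (n + 1) * 2 ^ n * (C1 * M) := by
      refine (pc_norm _ y hy).trans ?_
      refine mul_le_mul_of_nonneg_left (hb'.trans ?_) (by positivity)
      exact mul_le_mul_of_nonneg_left hSn hC1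
    have h3 : ‖R y‖ ≤ 2 ^ (n + 1) * M := by
      have hT := map_add_eq_sum_add_integral_iteratedFDeriv (f := g) (x := 0) (y := y)
        (n := n) (fun t _ => (hg.of_le (by exact_mod_cast le_top)).contDiffAt)
      have e1 : R y = ((n.factorial : ℕ) : ℝ)⁻¹ • ∫ t in (0 : ℝ)..1,
          (1 - t) ^ n • iteratedFDeriv ℝ (n + 1) g (0 + t • y) (fun _ ↦ y) := by
        rw [zero_add] at hT
        have e2 : pc c0 y = ∑ k ∈ Finset.range (n + 1), ((k.factorial : ℕ) : ℝ)⁻¹ •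
            iteratedFDeriv ℝ k g 0 (fun _ => y) := by
          rw [Finset.sum_range]
          rfl
        simp only [hR]
        rw [e2, sub_eq_iff_eq_add, add_comm]
        exact hT
      rw [e1, norm_smul]
      have e3 : ‖((n.factorial : ℕ) : ℝ)⁻¹‖ ≤ 1 := by
        rw [Real.norm_eq_abs, abs_of_nonneg (by positivity)]
        refine inv_le_one_of_one_le₀ ?_
        exact_mod_cast n.factorial_pos
      have e4 : ‖∫ t in (0 : ℝ)..1,
          (1 - t) ^ n • iteratedFDeriv ℝ (n + 1) g (0 + t • y) (fun _ ↦ y)‖ ≤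
          2 ^ (n + 1) * M * |1 - 0| := by
        refine intervalIntegral.norm_integral_le_of_norm_le_const fun t ht => ?_
        rw [uIoc_of_le zero_le_one] at ht
        have ht1 : ‖(1 - t) ^ n‖ ≤ 1 := by
          rw [Real.norm_eq_abs, abs_pow]
          refine pow_le_one₀ (abs_nonneg _) ?_
          rw [abs_le]; constructor <;> linarith [ht.1, ht.2]
        rw [norm_smul]
        have h5 : ‖iteratedFDeriv ℝ (n + 1) g (0 + t • y) (fun _ ↦ y)‖ ≤ M * 2 ^ (n + 1) := by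
          refine ((iteratedFDeriv ℝ (n + 1) g (0 + t • y)).le_opNorm _).trans ?_
          rw [Finset.prod_const, Finset.card_univ, Fintype.card_fin]
          refine mul_le_mul (hgM _ ?_) (pow_le_pow_left₀ (norm_nonneg _) hy _) (by positivity) hM
          rw [zero_add, norm_smul, Real.norm_eq_abs, abs_of_pos ht.1]
          nlinarith [norm_nonneg y, ht.1, ht.2]
        calc ‖(1 - t) ^ n‖ * ‖iteratedFDeriv ℝ (n + 1) g (0 + t • y) (fun _ ↦ y)‖
            ≤ 1 * (M * 2 ^ (n + 1)) :=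
              mul_le_mul ht1 h5 (norm_nonneg _) zero_le_one
          _ = 2 ^ (n + 1) * M := by ring
      calc ‖((n.factorial : ℕ) : ℝ)⁻¹‖ * ‖∫ t in (0 : ℝ)..1,
          (1 - t) ^ n • iteratedFDeriv ℝ (n + 1) g (0 + t • y) (fun _ ↦ y)‖
          ≤ 1 * (2 ^ (n + 1) * M * |1 - 0|) :=
            mul_le_mul e3 e4 (norm_nonneg _) zero_le_one
        _ = 2 ^ (n + 1) * M := by simp
    calc ‖R y‖ + ‖pc (c0 - a') y‖ ≤ 2 ^ (n + 1) * M + (n + 1) * 2 ^ n * (C1 * M) :=
          add_le_add h3 h2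
      _ = _ := by ring

end Poly

end K2G

end

end TrI
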