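import Pool.Agent.TR.Stmts

/-!
# Trace inequality, module LA, part 1: Fubini, continuity, the integral formula for DD
-/

open MeasureTheory Metric Set
open scoped InnerProductSpace ContDiff

set_option linter.unusedSectionVars false

namespace TrI.LA

noncomputable section

variable {d : ℕ}

/-- swap of a space integral and an interval integral -/
lemma swap_int {F : Sp d → ℝ → ℝ} (hF : Continuous (Function.uncurry F)) {R : ℝ}
    (h0 : ∀ z t, R ≤ ‖z‖ → F z t = 0) (T : ℝ) :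
    ∫ z, ∫ t in (0 : ℝ)..T, F z t = ∫ t in (0 : ℝ)..T, ∫ z, F z t := by
  symm
  refine intervalIntegral_integral_swap (f := fun t z => F z t) ?_
  have hK : IsCompact ((Set.uIcc (0 : ℝ) T) ×ˢ (closedBall (0 : Sp d) R)) :=
    isCompact_uIcc.prod (isCompact_closedBall _ _)
  have hc : Continuous (Function.uncurry fun (t : ℝ) (z : Sp d) => F z t) := by
    have : (Function.uncurry fun (t : ℝ) (z : Sp d) => F z t) =
        (Function.uncurry F) ∘ Prod.swap := by
      ext ⟨t, z⟩; rfl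
    rw [this]
    exact hF.comp continuous_swap
  have h1 : IntegrableOn (Function.uncurry fun (t : ℝ) (z : Sp d) => F z t)
      ((Set.uIcc (0 : ℝ) T) ×ˢ (closedBall (0 : Sp d) R)) (volume.prod volume) :=
    hc.continuousOn.integrableOn_compact hK
  have h2 : IntegrableOn (Function.uncurry fun (t : ℝ) (z : Sp d) => F z t)
      ((Set.uIoc (0 : ℝ) T) ×ˢ (closedBall (0 : Sp d) R)) (volume.prod volume) :=
    h1.mono_set (Set.prod_mono Set.uIoc_subset_uIcc le_rfl)
  have h3 : IntegrableOn (Function.uncurry fun (t : ℝ) (z : Sp d) => F z t)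
      ((Set.uIoc (0 : ℝ) T) ×ˢ (univ : Set (Sp d))) (volume.prod volume) := by
    refine IntegrableOn.of_forall_sdiff_eq_zero h2 (measurableSet_uIoc.prod MeasurableSet.univ) ?_
    rintro ⟨t, z⟩ ⟨⟨ht, -⟩, hz⟩
    have : ¬ ‖z‖ ≤ R := by
      intro h
      exact hz ⟨ht, by simpa using h⟩
    exact h0 z t (le_of_lt (not_le.mp this))
  have h4 := h3
  rw [IntegrableOn, ← Measure.prod_restrict, Measure.restrict_univ] at h4
  exact h4

/-- continuity of a parametric integral over the space -/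
lemma cont_param {X : Type*} [TopologicalSpace X] [FirstCountableTopology X]
    [LocallyCompactSpace X] {F : X → Sp d → ℝ} (hF : Continuous (Function.uncurry F)) {R : ℝ}
    (h0 : ∀ p z, R ≤ ‖z‖ → F p z = 0) : Continuous fun p => ∫ z, F p z := by
  have h1 : (fun p => ∫ z, F p z) = fun p => ∫ z in closedBall (0 : Sp d) R, F p z := by
    ext p
    rw [setIntegral_eq_integral_of_forall_compl_eq_zero]
    intro z hz
    refine h0 p z ?_
    simp only [mem_closedBall, dist_zero_right, not_le] at hz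
    exact hz.le
  rw [h1]
  exact continuous_parametric_integral_of_continuous hF (isCompact_closedBall _ _)

/-- swap of two space integrals -/
lemma swap_two {F : Sp d → Sp d → ℝ} (hF : Continuous (Function.uncurry F)) {R R' : ℝ}
    (h0 : ∀ z y, R ≤ ‖z‖ → F z y = 0) (h0' : ∀ z y, R' ≤ ‖y‖ → F z y = 0) :
    ∫ z, ∫ y, F z y = ∫ y, ∫ z, F z y := by
  refine integral_integral_swap_of_hasCompactSupport hF ?_
  refine HasCompactSupport.of_support_subset_isCompact
    ((isCompact_closedBall (0 : Sp d) R).prod (isCompact_closedBall (0 : Sp d) R')) ?_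
  rintro ⟨z, y⟩ hzy
  rw [Function.mem_support] at hzy
  constructor
  · simp only [mem_closedBall, dist_zero_right]
    by_contra h
    exact hzy (h0 z y (le_of_lt (not_le.mp h)))
  · simp only [mem_closedBall, dist_zero_right]
    by_contra h
    exact hzy (h0' z y (le_of_lt (not_le.mp h)))

section Cut

variable {W : Type*} [NormedAddCommGroup W] [NormedSpace ℝ W]

lemma cut_mul_lip {κ : Sp d → ℝ} {y0 : Sp d} {r l ρ B : ℝ} {g : Sp d → W}
    (hκ : IsCut κ y0 r l) (hr : r ≤ ρ) (hB : 0 ≤ B)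
    (hb : ∀ y ∈ ball y0 ρ, ‖g y‖ ≤ B)
    (hl : ∀ y ∈ ball y0 ρ, ∀ y' ∈ ball y0 ρ, ‖g y - g y'‖ ≤ B * ‖y - y'‖) (y y' : Sp d) :
    ‖κ y • g y - κ y' • g y'‖ ≤ B * (l + 1) * ‖y - y'‖ := by
  have hout : ∀ z, z ∉ ball y0 ρ → κ z = 0 := by
    intro z hz
    refine hκ.supp z ?_
    rw [mem_ball, not_lt, dist_eq_norm] at hz
    exact hr.trans hz
  have hl0 := hκ.l_nonneg
  have hn := norm_nonneg (y - y')
  by_cases hy : y ∈ ball y0 ρ
  · by_cases hy' : y' ∈ ball y0 ρ
    · have e : κ y • g y - κ y' • g y' = (κ y - κ y') • g y + κ y' • (g y - g y') := by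
        rw [sub_smul, smul_sub]; abel
      rw [e]
      refine (norm_add_le _ _).trans ?_
      rw [norm_smul, norm_smul, Real.norm_eq_abs, Real.norm_eq_abs]
      have h1 : |κ y - κ y'| * ‖g y‖ ≤ (l * ‖y - y'‖) * B :=
        mul_le_mul (hκ.lip y y') (hb y hy) (norm_nonneg _) (by positivity)
      have h2 : |κ y'| * ‖g y - g y'‖ ≤ 1 * (B * ‖y - y'‖) :=
        mul_le_mul (hκ.bd y') (hl y hy y' hy') (norm_nonneg _) (by norm_num)
      nlinarith
    · rw [hout y' hy', zero_smul, sub_zero, norm_smul, Real.norm_eq_abs]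
      have h1 := hκ.lip y y'
      rw [hout y' hy', sub_zero] at h1
      have h2 : |κ y| * ‖g y‖ ≤ (l * ‖y - y'‖) * B :=
        mul_le_mul h1 (hb y hy) (norm_nonneg _) (by positivity)
      nlinarith [mul_nonneg hB hn]
  · by_cases hy' : y' ∈ ball y0 ρ
    · rw [hout y hy, zero_smul, zero_sub, norm_neg, norm_smul, Real.norm_eq_abs]
      have h1 := hκ.lip y y'
      rw [hout y hy, zero_sub, abs_neg] at h1
      have h2 : |κ y'| * ‖g y'‖ ≤ (l * ‖y - y'‖) * B :=
        mul_le_mul h1 (hb y' hy') (norm_nonneg _) (by positivity)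
      nlinarith [mul_nonneg hB hn]
    · rw [hout y hy, hout y' hy', zero_smul, zero_smul, sub_zero, norm_zero]
      positivity

lemma cont_of_lip {g : Sp d → W} {K : ℝ} (h : ∀ y y', ‖g y - g y'‖ ≤ K * ‖y - y'‖) :
    Continuous g := by
  have : LipschitzWith (Real.toNNReal K) g := by
    refine LipschitzWith.of_dist_le_mul fun y y' => ?_
    rw [dist_eq_norm, dist_eq_norm]
    refine (h y y').trans ?_
    exact mul_le_mul_of_nonneg_right (Real.le_coe_toNNReal K) (norm_nonneg _)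
  exact this.continuous

end Cut

lemma cut_cont {κ : Sp d → ℝ} {y0 : Sp d} {r l : ℝ} (hκ : IsCut κ y0 r l) : Continuous κ :=
  cont_of_lip (K := l) fun y y' => by rw [Real.norm_eq_abs]; exact hκ.lip y y'

section Op

variable {V E : Type} [NormedAddCommGroup V] [InnerProductSpace ℝ V] [FiniteDimensional ℝ V]
  [NormedAddCommGroup E] [InnerProductSpace ℝ E] [FiniteDimensional ℝ E]
  {L : (Sp d →L[ℝ] V) →L[ℝ] E}

lemma fo_cont {u : Sp d → V} (hu : TF u) : Continuous (fo L u) :=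
  L.continuous.comp (hu.smooth.continuous_fderiv (by simp))

lemma fo_cs {u : Sp d → V} (hu : TF u) : HasCompactSupport (fo L u) := by
  have h : HasCompactSupport (fderiv ℝ u) := hu.supp.fderiv ℝ
  exact h.comp_left (g := L) (map_zero L)

lemma cut_out {κ : Sp d → ℝ} {y0 : Sp d} {r l ρ : ℝ} (hκ : IsCut κ y0 r l) (hr : r ≤ ρ)
    {y : Sp d} (hy : κ y ≠ 0) : y ∈ ball y0 ρ := by
  by_contra h
  rw [mem_ball, not_lt, dist_eq_norm] at h
  exact hy (hκ.supp y (hr.trans h))

lemma cap_norm_lt {y0 : Sp d} {ρ B : ℝ} {w : Sp d → V} {τ : Sp d → E}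
    (hc : IsCap L y0 ρ B w τ) {y : Sp d} (hy : y ∈ ball y0 ρ) : ‖y‖ < 3 / 2 := by
  have h1 := hc.inside
  rw [mem_ball, dist_eq_norm] at hy
  have h2 : ‖y‖ ≤ ‖y0‖ + ‖y - y0‖ := by
    have := norm_add_le y0 (y - y0)
    simpa using this
  linarith

/-- the integrand of the formula for DD -/
def GG (u : Sp d → V) (L : (Sp d →L[ℝ] V) →L[ℝ] E) (τ : Sp d → E) (κ : Sp d → ℝ) (x : Sp d)
    (t : ℝ) : ℝ :=
  ∫ y, κ y * (⟪fo L u (x + t • y), τ y⟫_ℝ + ⟪fo L u (x - t • y), τ y⟫_ℝ)

lemma cut_w_cont {y0 : Sp d} {ρ B : ℝ} {w : Sp d → V} {τ : Sp d → E}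
    (hc : IsCap L y0 ρ B w τ) {κ : Sp d → ℝ} {r l : ℝ} (hκ : IsCut κ y0 r l) (hr : r ≤ ρ) :
    Continuous fun y => κ y • w y :=
  cont_of_lip (cut_mul_lip hκ hr hc.B_pos.le hc.w_bd hc.w_lip)

lemma cut_tau_cont {y0 : Sp d} {ρ B : ℝ} {w : Sp d → V} {τ : Sp d → E}
    (hc : IsCap L y0 ρ B w τ) {κ : Sp d → ℝ} {r l : ℝ} (hκ : IsCut κ y0 r l) (hr : r ≤ ρ) :
    Continuous fun y => κ y • τ y :=
  cont_of_lip (cut_mul_lip hκ hr hc.B_pos.le hc.τ_bd hc.τ_lip)

lemma cut_zero {y0 : Sp d} {ρ B : ℝ} {w : Sp d → V} {τ : Sp d → E}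
    (hc : IsCap L y0 ρ B w τ) {κ : Sp d → ℝ} {r l : ℝ} (hκ : IsCut κ y0 r l) (hr : r ≤ ρ)
    {y : Sp d} (hy : 2 ≤ ‖y‖) : κ y = 0 := by
  by_contra h
  have := cap_norm_lt hc (cut_out hκ hr h)
  linarith

lemma kint_cont {y0 : Sp d} {ρ B : ℝ} {w : Sp d → V} {τ : Sp d → E}
    (hc : IsCap L y0 ρ B w τ) {κ : Sp d → ℝ} {r l : ℝ} (hκ : IsCut κ y0 r l) (hr : r ≤ ρ)
    {u : Sp d → V} (hu : TF u) :
    Continuous fun p : Sp d × ℝ × Sp d =>
      κ p.2.2 * (⟪fo L u (p.1 + p.2.1 • p.2.2), τ p.2.2⟫_ℝ +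
        ⟪fo L u (p.1 - p.2.1 • p.2.2), τ p.2.2⟫_ℝ) := by
  have hf := fo_cont (L := L) hu
  have hτ := cut_tau_cont hc hκ hr
  have e : (fun p : Sp d × ℝ × Sp d =>
      κ p.2.2 * (⟪fo L u (p.1 + p.2.1 • p.2.2), τ p.2.2⟫_ℝ +
        ⟪fo L u (p.1 - p.2.1 • p.2.2), τ p.2.2⟫_ℝ)) = fun p =>
      ⟪fo L u (p.1 + p.2.1 • p.2.2), κ p.2.2 • τ p.2.2⟫_ℝ +
        ⟪fo L u (p.1 - p.2.1 • p.2.2), κ p.2.2 • τ p.2.2⟫_ℝ := by
    ext p
    rw [real_inner_smul_right, real_inner_smul_right]; ring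
  rw [e]
  have h2 : Continuous fun p : Sp d × ℝ × Sp d => κ p.2.2 • τ p.2.2 :=
    hτ.comp (continuous_snd.comp continuous_snd)
  refine Continuous.add ?_ ?_
  · exact (hf.comp (by fun_prop)).inner h2
  · exact (hf.comp (by fun_prop)).inner h2

lemma GG_cont {y0 : Sp d} {ρ B : ℝ} {w : Sp d → V} {τ : Sp d → E}
    (hc : IsCap L y0 ρ B w τ) {κ : Sp d → ℝ} {r l : ℝ} (hκ : IsCut κ y0 r l) (hr : r ≤ ρ)
    {u : Sp d → V} (hu : TF u) :
    Continuous fun p : Sp d × ℝ => GG u L τ κ p.1 p.2 := by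
  have h := kint_cont hc hκ hr hu
  unfold GG
  refine cont_param (R := 2) (F := fun (p : Sp d × ℝ) y =>
    κ y * (⟪fo L u (p.1 + p.2 • y), τ y⟫_ℝ + ⟪fo L u (p.1 - p.2 • y), τ y⟫_ℝ)) ?_ ?_
  · have := h.comp (f := fun p : (Sp d × ℝ) × Sp d => (p.1.1, p.1.2, p.2)) (by fun_prop)
    exact this
  · intro p y hy
    rw [cut_zero hc hκ hr hy, zero_mul]

/-- the integral formula for the two sided functional -/
lemma DD_eq {y0 : Sp d} {ρ B : ℝ} {w : Sp d → V} {τ : Sp d → E}
    (hc : IsCap L y0 ρ B w τ) {κ : Sp d → ℝ} {r l : ℝ} (hκ : IsCut κ y0 r l) (hr : r ≤ ρ)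
    {u : Sp d → V} (hu : TF u) (x : Sp d) (T : ℝ) :
    DD u w κ x T = ∫ t in (0 : ℝ)..T, GG u L τ κ x t := by
  have hK := kint_cont hc hκ hr hu
  have hudiff : Differentiable ℝ u := hu.smooth.differentiable (by simp)
  -- the pointwise formula
  have h1 : ∀ y, κ y * ⟪w y, u (x + T • y)⟫_ℝ - κ y * ⟪w y, u (x + (-T) • y)⟫_ℝ =
      ∫ t in (0 : ℝ)..T,
        κ y * (⟪fo L u (x + t • y), τ y⟫_ℝ + ⟪fo L u (x - t • y), τ y⟫_ℝ) := by
    intro y
    by_cases hy : κ y = 0
    · simp [hy]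
    have hyb := cut_out hκ hr hy
    have hd : ∀ t : ℝ, HasDerivAt (fun t : ℝ => κ y * (⟪w y, u (x + t • y)⟫_ℝ -
        ⟪w y, u (x + (-t) • y)⟫_ℝ))
        (κ y * (⟪fo L u (x + t • y), τ y⟫_ℝ + ⟪fo L u (x - t • y), τ y⟫_ℝ)) t := by
      intro t
      have e1 : HasDerivAt (fun t : ℝ => x + t • y) y t := by
        simpa using ((hasDerivAt_id t).smul_const y).const_add x
      have e2 : HasDerivAt (fun t : ℝ => x + (-t) • y) (-y) t := by
        simpa using ((hasDerivAt_id t).neg.smul_const y).const_add x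
      have f1 : HasDerivAt (fun t : ℝ => u (x + t • y)) (fderiv ℝ u (x + t • y) y) t :=
        (hudiff (x + t • y)).hasFDerivAt.comp_hasDerivAt t e1
      have f2 : HasDerivAt (fun t : ℝ => u (x + (-t) • y))
          (fderiv ℝ u (x + (-t) • y) (-y)) t :=
        (hudiff (x + (-t) • y)).hasFDerivAt.comp_hasDerivAt t e2
      have g1 : HasDerivAt (fun t : ℝ => ⟪w y, u (x + t • y)⟫_ℝ)
          ⟪w y, fderiv ℝ u (x + t • y) y⟫_ℝ t := by
        simpa using (hasDerivAt_const t (w y)).inner ℝ f1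
      have g2 : HasDerivAt (fun t : ℝ => ⟪w y, u (x + (-t) • y)⟫_ℝ)
          ⟪w y, fderiv ℝ u (x + (-t) • y) (-y)⟫_ℝ t := by
        simpa using (hasDerivAt_const t (w y)).inner ℝ f2
      have h := (g1.sub g2).const_mul (κ y)
      refine h.congr_deriv ?_
      rw [map_neg, inner_neg_right, hc.slice y hyb, hc.slice y hyb]
      simp only [fo, neg_smul, ← sub_eq_add_neg]
      ring
    have hcont : Continuous fun t : ℝ =>
        κ y * (⟪fo L u (x + t • y), τ y⟫_ℝ + ⟪fo L u (x - t • y), τ y⟫_ℝ) :=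
      hK.comp (f := fun t : ℝ => (x, t, y)) (by fun_prop)
    rw [intervalIntegral.integral_eq_sub_of_hasDerivAt (fun t _ => hd t)
      (hcont.intervalIntegrable _ _)]
    simp only [neg_zero, sub_self, mul_zero, sub_zero]
    ring
  -- integrability
  have hw := cut_w_cont hc hκ hr
  have hint : ∀ s : ℝ, Integrable fun y => κ y * ⟪w y, u (x + s • y)⟫_ℝ := by
    intro s
    have e : (fun y => κ y * ⟪w y, u (x + s • y)⟫_ℝ) =
        fun y => ⟪κ y • w y, u (x + s • y)⟫_ℝ := by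
      ext y; rw [real_inner_smul_left]
    have hcont : Continuous fun y => κ y * ⟪w y, u (x + s • y)⟫_ℝ := by
      rw [e]
      exact hw.inner (hu.smooth.continuous.comp (by fun_prop))
    refine hcont.integrable_of_hasCompactSupport ?_
    refine HasCompactSupport.of_support_subset_isCompact (isCompact_closedBall (0 : Sp d) 2) ?_
    intro y hy
    rw [Function.mem_support] at hy
    simp only [mem_closedBall, dist_zero_right]
    by_contra h
    apply hy
    rw [cut_zero hc hκ hr (le_of_lt (not_le.mp h)), zero_mul]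
  unfold DD YY
  rw [← integral_sub (hint T) (hint (-T))]
  rw [integral_congr_ae (Filter.Eventually.of_forall h1)]
  unfold GG
  refine swap_int (F := fun y t =>
    κ y * (⟪fo L u (x + t • y), τ y⟫_ℝ + ⟪fo L u (x - t • y), τ y⟫_ℝ)) (R := 2) ?_ ?_ T
  · have := hK.comp (f := fun p : Sp d × ℝ => (x, p.2, p.1)) (by fun_prop)
    exact this
  · intro y t hy
    rw [cut_zero hc hκ hr hy, zero_mul]

/-- smearing of the formula -/
lemma smear_eq {y0 : Sp d} {ρ B : ℝ} {w : Sp d → V} {τ : Sp d → E}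
    (hc : IsCap L y0 ρ B w τ) {κ : Sp d → ℝ} {r l : ℝ} (hκ : IsCut κ y0 r l) (hr : r ≤ ρ)
    {u : Sp d → V} (hu : TF u) (x : Sp d) (T σ : ℝ) {φ : Sp d → ℝ} (hφ : Continuous φ) {R : ℝ}
    (hφ0 : ∀ z, R ≤ ‖z‖ → φ z = 0) :
    ∫ z, φ z * DD u w κ (x + σ • z) T = ∫ t in (0 : ℝ)..T, ∫ y, κ y *
      ((∫ z, φ z * ⟪fo L u (x + t • y + σ • z), τ y⟫_ℝ) +
        ∫ z, φ z * ⟪fo L u (x - t • y + σ • z), τ y⟫_ℝ) := by
  have hK := kint_cont hc hκ hr hu
  have hG := GG_cont hc hκ hr hu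
  have hf := fo_cont (L := L) hu
  have h1 : ∀ z, φ z * DD u w κ (x + σ • z) T =
      ∫ t in (0 : ℝ)..T, φ z * GG u L τ κ (x + σ • z) t := by
    intro z
    rw [DD_eq hc hκ hr hu, intervalIntegral.integral_const_mul]
  rw [integral_congr_ae (Filter.Eventually.of_forall h1)]
  rw [swap_int (F := fun z t => φ z * GG u L τ κ (x + σ • z) t) (R := R)]
  · refine intervalIntegral.integral_congr fun t _ => ?_
    have h2 : ∀ z, φ z * GG u L τ κ (x + σ • z) t = ∫ y, φ z * (κ y *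
        (⟪fo L u (x + σ • z + t • y), τ y⟫_ℝ + ⟪fo L u (x + σ • z - t • y), τ y⟫_ℝ)) := by
      intro z
      unfold GG
      rw [integral_const_mul]
    rw [integral_congr_ae (Filter.Eventually.of_forall h2)]
    rw [swap_two (F := fun z y => φ z * (κ y *
        (⟪fo L u (x + σ • z + t • y), τ y⟫_ℝ + ⟪fo L u (x + σ • z - t • y), τ y⟫_ℝ)))
        (R := R) (R' := 2)]
    · refine integral_congr_ae (Filter.Eventually.of_forall fun y => ?_)
      simp only
      have i1 : ∀ s : ℝ, Integrable fun z => φ z * ⟪fo L u (x + s • y + σ • z), τ y⟫_ℝ := by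
        intro s
        have hcont : Continuous fun z => φ z * ⟪fo L u (x + s • y + σ • z), τ y⟫_ℝ :=
          hφ.mul ((hf.comp (by fun_prop)).inner continuous_const)
        refine hcont.integrable_of_hasCompactSupport ?_
        refine HasCompactSupport.of_support_subset_isCompact
          (isCompact_closedBall (0 : Sp d) R) ?_
        intro z hz
        rw [Function.mem_support] at hz
        simp only [mem_closedBall, dist_zero_right]
        by_contra h
        apply hz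
        rw [hφ0 z (le_of_lt (not_le.mp h)), zero_mul]
      have i2 : Integrable fun z => φ z * ⟪fo L u (x - t • y + σ • z), τ y⟫_ℝ := by
        have := i1 (-t)
        simpa only [neg_smul, ← sub_eq_add_neg] using this
      rw [← integral_add (i1 t) i2, ← integral_const_mul]
      refine integral_congr_ae (Filter.Eventually.of_forall fun z => ?_)
      simp only
      have a1 : x + σ • z + t • y = x + t • y + σ • z := by abel
      have a2 : x + σ • z - t • y = x - t • y + σ • z := by abel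
      rw [a1, a2]; ring
    · have := (hφ.comp (continuous_fst (X := Sp d) (Y := Sp d))).mul
        (hK.comp (f := fun p : Sp d × Sp d => (x + σ • p.1, t, p.2)) (by fun_prop))
      exact this
    · intro z y hz
      rw [hφ0 z hz, zero_mul]
    · intro z y hy
      rw [cut_zero hc hκ hr hy, zero_mul, mul_zero]
  · have := (hφ.comp (continuous_fst (X := Sp d) (Y := ℝ))).mul
      (hG.comp (f := fun p : Sp d × ℝ => (x + σ • p.1, p.2)) (by fun_prop))
    exact this
  · intro z t hz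
    rw [hφ0 z hz, zero_mul]

end Op

end

end TrI.LA
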