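import Pool.Agent.TR.LA1
import Pool.Agent.TR.Basic

/-!
# Trace inequality, module LA, part 2: errors and main term at one point
-/

open MeasureTheory Metric Set
open scoped InnerProductSpace ContDiff

set_option linter.unusedSectionVars false

namespace TrI.LA

noncomputable section

variable {d : ℕ}

/-! ## the smearing function -/

/-- the smearing function -/
abbrev ph (d : ℕ) : Sp d → ℝ := hat (0 : Sp d) (9 / 10) 1

lemma ph_nonneg (z : Sp d) : 0 ≤ ph d z := le_max_left _ _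

lemma ph_le_one (z : Sp d) : ph d z ≤ 1 := max_le zero_le_one (min_le_left _ _)

lemma ph_one {z : Sp d} (h : ‖z‖ ≤ 9 / 10) : ph d z = 1 := by
  unfold ph hat
  rw [sub_zero]
  have : (1 : ℝ) ≤ (1 - ‖z‖) / (1 - 9 / 10) := by
    rw [le_div_iff₀ (by norm_num)]; linarith
  rw [min_eq_left this, max_eq_right zero_le_one]

lemma ph_zero {z : Sp d} (h : 1 ≤ ‖z‖) : ph d z = 0 := by
  unfold ph hat
  rw [sub_zero]
  have : (1 - ‖z‖) / (1 - 9 / 10) ≤ 0 := by
    apply div_nonpos_of_nonpos_of_nonneg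
    · linarith
    · norm_num
  rw [min_eq_right (this.trans zero_le_one), max_eq_left this]

lemma ph_lip (z z' : Sp d) : |ph d z - ph d z'| ≤ 10 * ‖z - z'‖ := by
  have h1 : LipschitzWith 10 fun z : Sp d => (1 - ‖z - 0‖) / (1 - 9 / 10) := by
    refine LipschitzWith.of_dist_le_mul fun a b => ?_
    rw [Real.dist_eq, dist_eq_norm, sub_zero, sub_zero]
    have e : (1 - ‖a‖) / (1 - 9 / 10 : ℝ) - (1 - ‖b‖) / (1 - 9 / 10) = 10 * (‖b‖ - ‖a‖) := by
      ring
    rw [e, abs_mul]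
    have h2 : |‖b‖ - ‖a‖| ≤ ‖a - b‖ := by
      rw [abs_sub_comm]; exact abs_norm_sub_norm_le a b
    have h3 : |(10 : ℝ)| = 10 := by norm_num
    rw [h3]
    push_cast
    linarith
  have h2 := (h1.const_min 1).const_max 0
  have h3 := h2.dist_le_mul z z'
  rw [Real.dist_eq, dist_eq_norm] at h3
  simpa [ph, hat] using h3

lemma ph_cont : Continuous (ph d) := cont_of_lip (K := 10) fun y y' => by
  rw [Real.norm_eq_abs]; exact ph_lip y y'

lemma ph_integrable {g : Sp d → ℝ} (hg : Continuous g) : Integrable fun z => ph d z * g z := by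
  refine (ph_cont.mul hg).integrable_of_hasCompactSupport ?_
  refine HasCompactSupport.of_support_subset_isCompact (isCompact_closedBall (0 : Sp d) 1) ?_
  intro z hz
  rw [Function.mem_support] at hz
  simp only [mem_closedBall, dist_zero_right]
  by_contra h
  apply hz
  show ph d z * g z = 0
  rw [ph_zero (le_of_lt (not_le.mp h)), zero_mul]

/-! ## balls -/

lemma int_on {g : Sp d → ℝ} (hg : Continuous g) (p : Sp d) (r : ℝ) :
    IntegrableOn g (ball p r) :=
  (LB.of_cont hg).integrableOn isBounded_ball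

lemma ball_mono_int {g : Sp d → ℝ} (hg : Continuous g) (h0 : ∀ z, 0 ≤ g z) {p q : Sp d}
    {r r' : ℝ} (h : ‖p - q‖ + r ≤ r') : ∫ z in ball p r, g z ≤ ∫ z in ball q r', g z := by
  refine setIntegral_mono_set (int_on hg q r') (Filter.Eventually.of_forall h0)
    (LE.le.eventuallyLE ?_)
  intro z hz
  rw [mem_ball, dist_eq_norm] at hz ⊢
  have : ‖z - q‖ ≤ ‖z - p‖ + ‖p - q‖ := by
    have := norm_add_le (z - p) (p - q)
    simpa using this
  linarith

lemma scale0 (g : Sp d → ℝ) {A : ℝ} (hA : 0 < A) (p : Sp d) (r : ℝ) :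
    ∫ y in ball (0 : Sp d) r, g (p + A • y) = (A ^ d)⁻¹ * ∫ z in ball p (A * r), g z := by
  have := int_ball_scale g hA p 0 r
  simpa using this

/-! ## sums -/

lemma sum_quarter (j : ℕ) : ∑ k ∈ Finset.range j, (1 / 4 : ℝ) ^ (j - k) ≤ 1 / 3 := by
  induction j with
  | zero => norm_num
  | succ j ih =>
    rw [Finset.sum_range_succ]
    have : ∑ k ∈ Finset.range j, (1 / 4 : ℝ) ^ (j + 1 - k) =
        (1 / 4) * ∑ k ∈ Finset.range j, (1 / 4 : ℝ) ^ (j - k) := by
      rw [Finset.mul_sum]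
      refine Finset.sum_congr rfl fun k hk => ?_
      rw [Finset.mem_range] at hk
      have : j + 1 - k = (j - k) + 1 := by omega
      rw [this, pow_succ]; ring
    rw [this]
    have e : j + 1 - j = 1 := by omega
    rw [e]
    linarith

lemma sum_two_eq (n m : ℕ) :
    ∑ k ∈ Finset.Ico n (n + m), (2 : ℝ) ^ (n + m - k) = 2 * 2 ^ m - 2 := by
  induction m with
  | zero => simp
  | succ m ih =>
    rw [← add_assoc, Finset.sum_Ico_succ_top (by omega)]
    have : ∑ k ∈ Finset.Ico n (n + m), (2 : ℝ) ^ (n + m + 1 - k) =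
        2 * ∑ k ∈ Finset.Ico n (n + m), (2 : ℝ) ^ (n + m - k) := by
      rw [Finset.mul_sum]
      refine Finset.sum_congr rfl fun k hk => ?_
      rw [Finset.mem_Ico] at hk
      have : n + m + 1 - k = (n + m - k) + 1 := by omega
      rw [this, pow_succ]; ring
    rw [this, ih]
    have e : n + m + 1 - (n + m) = 1 := by omega
    rw [e, pow_succ]
    ring

/-! ## positivity -/

section Inner

variable {E : Type} [NormedAddCommGroup E] [InnerProductSpace ℝ E]

lemma pos_part {e τ v : E} {c0 B : ℝ} (he : ‖e‖ = 1) (hc0 : 0 < c0) (h : c0 ≤ ⟪e, τ⟫_ℝ)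
    (hB : ‖τ‖ ≤ B) :
    c0 / 2 * ‖v‖ - (B + B ^ 2 / c0) * (‖v‖ - ⟪v, e⟫_ℝ) ≤ ⟪v, τ⟫_ℝ := by
  set a := ⟪v, e⟫_ℝ with ha
  have hB0 : 0 ≤ B := (norm_nonneg τ).trans hB
  have h1 : a ≤ ‖v‖ := by
    have := real_inner_le_norm v e
    rwa [he, mul_one] at this
  set v' := v - a • e with hv'
  have h2 : ‖v'‖ ^ 2 = ‖v‖ ^ 2 - a ^ 2 := by
    rw [hv', norm_sub_sq_real, inner_smul_right, norm_smul, he, ← ha, Real.norm_eq_abs,
      mul_one, sq_abs]
    ring
  have h3 : ⟪v, τ⟫_ℝ = a * ⟪e, τ⟫_ℝ + ⟪v', τ⟫_ℝ := by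
    rw [hv', inner_sub_left, real_inner_smul_left]; ring
  have h4 : -(‖v'‖ * B) ≤ ⟪v', τ⟫_ℝ := by
    have := abs_real_inner_le_norm v' τ
    have h5 : ‖v'‖ * ‖τ‖ ≤ ‖v'‖ * B := mul_le_mul_of_nonneg_left hB (norm_nonneg _)
    have h6 := neg_abs_le ⟪v', τ⟫_ℝ
    linarith
  have h5 : ⟪e, τ⟫_ℝ ≤ B := by
    have := real_inner_le_norm e τ
    rw [he, one_mul] at this
    exact this.trans hB
  set δ := ‖v‖ - a with hδ
  have hδ0 : 0 ≤ δ := by linarith
  have h6 : ‖v'‖ ^ 2 ≤ 2 * ‖v‖ * δ := by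
    rw [h2, hδ]
    nlinarith [sq_nonneg (‖v‖ - a)]
  -- ‖v'‖ B ≤ c0/2 ‖v‖ + B²/c0 δ
  have h7 : ‖v'‖ * B ≤ c0 / 2 * ‖v‖ + B ^ 2 / c0 * δ := by
    have hr : 0 ≤ c0 / 2 * ‖v‖ + B ^ 2 / c0 * δ := by positivity
    refine abs_le_of_sq_le_sq' ?_ hr |>.2
    have e1 : (‖v'‖ * B) ^ 2 ≤ (2 * ‖v‖ * δ) * B ^ 2 := by
      rw [mul_pow]; exact mul_le_mul_of_nonneg_right h6 (sq_nonneg _)
    have e2 : (c0 / 2 * ‖v‖ + B ^ 2 / c0 * δ) ^ 2 =
        (c0 / 2 * ‖v‖ - B ^ 2 / c0 * δ) ^ 2 + 2 * ‖v‖ * δ * B ^ 2 := by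
      field_simp
      ring
    rw [e2]
    nlinarith [sq_nonneg (c0 / 2 * ‖v‖ - B ^ 2 / c0 * δ)]
  have h8 : a * ⟪e, τ⟫_ℝ = ‖v‖ * ⟪e, τ⟫_ℝ - δ * ⟪e, τ⟫_ℝ := by rw [hδ]; ring
  have h9 : ‖v‖ * c0 ≤ ‖v‖ * ⟪e, τ⟫_ℝ := mul_le_mul_of_nonneg_left h (norm_nonneg _)
  have h10 : δ * ⟪e, τ⟫_ℝ ≤ δ * B := mul_le_mul_of_nonneg_left h5 hδ0
  rw [h3, h8]
  nlinarith

end Inner

/-! ## the errors -/

section Err

variable {E : Type} [NormedAddCommGroup E] [InnerProductSpace ℝ E] [FiniteDimensional ℝ E]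

lemma sc_sub {s0 : ℝ} {j m : ℕ} (h : m ≤ j) : sc s0 (j - m) = (1 / 8) ^ m * sc s0 j := by
  have h1 := sc_add s0 (j - m) m
  rw [Nat.sub_add_cancel h] at h1
  rw [h1, ← mul_assoc, ← mul_pow]
  norm_num

/-- error of the replacement of f by its average of level j - m -/
lemma cg_err (hCG : StmtCG) {f : Sp d → E} (hf : Continuous f) (hfc : HasCompactSupport f)
    {C s0 : ℝ} (hs : 0 < s0) (D : DevFacts C s0 f) (hC : 0 ≤ C) (j m : ℕ) (x p : Sp d)
    (hp : ‖p - x‖ ≤ 3 / 2 * sc s0 j) {T : E} {B : ℝ} (hT : ‖T‖ ≤ B) :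
    sc s0 j * |(∫ z, ph d z * ⟪f (p + sc s0 j • z), T⟫_ℝ) -
      ∫ z, ph d z * ⟪fl s0 f (j - m) (p + sc s0 j • z), T⟫_ℝ| ≤
      10 * B * ((1 / 8) ^ m * am s0 f j x + 3 * C * 2 ^ m * er s0 f j x) := by
  have hB : 0 ≤ B := (norm_nonneg T).trans hT
  have hA : 0 < sc s0 j := sc_pos hs j
  have ham := D.am_nonneg j x
  have her := D.er_nonneg j x
  have hR : 0 ≤ 10 * B * ((1 / 8) ^ m * am s0 f j x + 3 * C * 2 ^ m * er s0 f j x) := by
    positivity
  rcases lt_or_ge j m with hjm | hmj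
  · have e : j - m = 0 := by omega
    rw [e, fl_zero, sub_self, abs_zero, mul_zero]
    exact hR
  obtain ⟨n, rfl⟩ : ∃ n, j = n + m := ⟨j - m, by omega⟩
  have e : n + m - m = n := by omega
  rw [e]
  set A := sc s0 (n + m) with hAdef
  have hsn : sc s0 n = (1 / 8) ^ m * A := by
    have := sc_sub (s0 := s0) (j := n + m) (m := m) (by omega)
    rwa [e] at this
  have h8 : (0 : ℝ) < (1 / 8) ^ m := by positivity
  have h81 : ((1 : ℝ) / 8) ^ m ≤ 1 := pow_le_one₀ (by norm_num) (by norm_num)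
  -- CG
  have hΦl : ∀ y y' : Sp d, ‖ph d y • T - ph d y' • T‖ ≤ 10 * B * ‖y - y'‖ := by
    intro y y'
    rw [← sub_smul, norm_smul, Real.norm_eq_abs]
    have h1 := ph_lip (d := d) y y'
    calc |ph d y - ph d y'| * ‖T‖ ≤ (10 * ‖y - y'‖) * B :=
          mul_le_mul h1 hT (norm_nonneg _) (by positivity)
      _ = 10 * B * ‖y - y'‖ := by ring
  have hcg := hCG d E f hf hfc s0 hs n (fun z => ph d z • T) (10 * B) 0 1 A p (by positivity)
    hΦl (fun y hy => by
      rw [sub_zero] at hy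
      show ph d y • T = 0
      rw [ph_zero hy, zero_smul]) hA
  have hgc : Continuous (fl s0 f n) := fl_cont hf s0 n
  have hL : (∫ z, ph d z * ⟪f (p + A • z), T⟫_ℝ) - ∫ z, ph d z * ⟪fl s0 f n (p + A • z), T⟫_ℝ =
      ∫ y, ⟪ph d y • T, f (p + A • y) - fl s0 f n (p + A • y)⟫_ℝ := by
    rw [← integral_sub (ph_integrable (by fun_prop)) (ph_integrable (by fun_prop))]
    refine integral_congr_ae (Filter.Eventually.of_forall fun y => ?_)
    simp only
    rw [real_inner_smul_left, inner_sub_right, real_inner_comm, real_inner_comm T]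
    ring
  rw [hL]
  -- the function on the right hand side
  set H : Sp d → ℝ := fun z => sc s0 n / (7 * A) * ‖fl s0 f n z‖ +
    8 / 7 * ∑ k ∈ Finset.range n, sc s0 k / A * gap s0 f k z with hH
  have hHc : Continuous H := by
    have : ∀ k, Continuous (gap s0 f k) := fun k => gap_cont hf s0 k
    refine (continuous_const.mul hgc.norm).add (continuous_const.mul ?_)
    exact continuous_finsetSum _ fun k _ => continuous_const.mul (this k)
  have hH0 : ∀ z, 0 ≤ H z := by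
    intro z
    have : ∀ k ∈ Finset.range n, 0 ≤ sc s0 k / A * gap s0 f k z := fun k _ =>
      mul_nonneg (div_nonneg (sc_pos hs k).le hA.le) (D.gap_nonneg k z)
    have h1 := Finset.sum_nonneg this
    have h2 : 0 ≤ sc s0 n / (7 * A) * ‖fl s0 f n z‖ := by
      have := (sc_pos hs n).le
      positivity
    simp only [hH]
    linarith
  have hI : ∫ y in ball (0 : Sp d) (1 + sc s0 n / (3 * A)), (sc s0 n / (7 * A) *
      ‖fl s0 f n (p + A • y)‖ + 8 / 7 * ∑ k ∈ Finset.range n, sc s0 k / A *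
        gap s0 f k (p + A • y)) ≤ (A ^ d)⁻¹ * ∫ z in ball x (4 * A), H z := by
    have h1 : ∫ y in ball (0 : Sp d) (1 + sc s0 n / (3 * A)), (sc s0 n / (7 * A) *
      ‖fl s0 f n (p + A • y)‖ + 8 / 7 * ∑ k ∈ Finset.range n, sc s0 k / A *
        gap s0 f k (p + A • y)) =
        ∫ y in ball (0 : Sp d) (1 + sc s0 n / (3 * A)), H (p + A • y) := rfl
    rw [h1, scale0 H hA]
    refine mul_le_mul_of_nonneg_left ?_ (by positivity)
    refine ball_mono_int hHc hH0 ?_
    have h2 : A * (1 + sc s0 n / (3 * A)) ≤ A * (4 / 3) := by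
      refine mul_le_mul_of_nonneg_left ?_ hA.le
      rw [hsn]
      have : (1 / 8) ^ m * A / (3 * A) = (1 / 8) ^ m / 3 := by field_simp
      rw [this]; linarith
    linarith
  have hHint : ∫ z in ball x (4 * A), H z = (1 / 8) ^ m / 7 * (∫ z in ball x (4 * A),
      ‖fl s0 f n z‖) + 8 / 7 * ∑ k ∈ Finset.range n, sc s0 k / A *
        ∫ z in ball x (4 * A), gap s0 f k z := by
    simp only [hH]
    rw [integral_add, integral_const_mul, integral_const_mul, integral_finsetSum]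
    · congr 1
      · rw [hsn]; congr 1; field_simp
      · congr 1
        refine Finset.sum_congr rfl fun k _ => ?_
        rw [integral_const_mul]
    · intro k _
      exact (int_on (gap_cont hf s0 k) _ _).const_mul _
    · exact (int_on hgc.norm _ _).const_mul _
    · refine Integrable.const_mul ?_ _
      refine integrable_finsetSum _ fun k _ => ?_
      exact (int_on (gap_cont hf s0 k) _ _).const_mul _
  -- the gap terms
  set Wt := A / A ^ d with hWt
  have hWt0 : 0 < Wt := by positivity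
  have hgap : ∀ k, k < n + m → ∀ R : ℝ, R ≤ 384 * A →
      Wt * ∫ z in ball x R, gap s0 f k z ≤ 2 ^ (n + m - k) * (C * er s0 f (n + m) x) := by
    intro k hk R hRR
    have h1 := D.gap_le (n + m) k x (by omega)
    rw [← hAdef, ← hWt] at h1
    have h2 : ∫ z in ball x R, gap s0 f k z ≤ ∫ z in ball x (384 * A), gap s0 f k z :=
      ball_mono_int (gap_cont hf s0 k) (D.gap_nonneg k) (by simpa using hRR)
    have h3 : Wt * ∫ z in ball x R, gap s0 f k z ≤
        Wt * ∫ z in ball x (384 * A), gap s0 f k z := mul_le_mul_of_nonneg_left h2 hWt0.le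
    have h4 : (2 : ℝ) ^ (n + m - k) * (1 / 2) ^ (n + m - k) = 1 := by
      rw [← mul_pow]; norm_num
    have h5 : (0 : ℝ) ≤ 2 ^ (n + m - k) := by positivity
    calc Wt * ∫ z in ball x R, gap s0 f k z ≤ Wt * ∫ z in ball x (384 * A), gap s0 f k z := h3
      _ = 2 ^ (n + m - k) * ((1 / 2) ^ (n + m - k) *
          (Wt * ∫ z in ball x (384 * A), gap s0 f k z)) := by
        rw [← mul_assoc, h4, one_mul]
      _ ≤ _ := mul_le_mul_of_nonneg_left h1 h5
  -- the main term
  have hmain : Wt * ∫ z in ball x (4 * A), ‖fl s0 f n z‖ ≤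
      am s0 f (n + m) x + 2 * 2 ^ m * (C * er s0 f (n + m) x) := by
    have h1 := D.transfer n (n + m) x (4 * A) (by omega)
    rw [← hAdef] at h1
    have h2 : ∫ z in ball x (4 * A + A / 7), ‖fl s0 f (n + m) z‖ ≤
        ∫ z in ball x (32 * A), ‖fl s0 f (n + m) z‖ :=
      ball_mono_int (fl_cont hf s0 _).norm (fun z => norm_nonneg _) (by
        rw [sub_self, norm_zero]; linarith)
    have h3 : Wt * ∑ i ∈ Finset.Ico n (n + m), ∫ z in ball x (4 * A + A / 7), gap s0 f i z ≤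
        ∑ i ∈ Finset.Ico n (n + m), 2 ^ (n + m - i) * (C * er s0 f (n + m) x) := by
      rw [Finset.mul_sum]
      refine Finset.sum_le_sum fun k hk => ?_
      rw [Finset.mem_Ico] at hk
      exact hgap k hk.2 _ (by linarith)
    rw [← Finset.sum_mul, sum_two_eq] at h3
    have h4 : am s0 f (n + m) x = Wt * ∫ z in ball x (32 * A), ‖fl s0 f (n + m) z‖ := rfl
    rw [h4]
    have h5 : 0 ≤ C * er s0 f (n + m) x := by positivity
    calc Wt * ∫ z in ball x (4 * A), ‖fl s0 f n z‖ ≤ Wt *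
          ((∫ z in ball x (32 * A), ‖fl s0 f (n + m) z‖) +
            ∑ i ∈ Finset.Ico n (n + m), ∫ z in ball x (4 * A + A / 7), gap s0 f i z) := by
          refine mul_le_mul_of_nonneg_left ?_ hWt0.le
          linarith
      _ ≤ _ := by
        rw [mul_add]
        nlinarith
  have hgaps : Wt * ∑ k ∈ Finset.range n, sc s0 k / A * ∫ z in ball x (4 * A), gap s0 f k z ≤
      1 / 3 * (C * er s0 f (n + m) x) := by
    have h5 : 0 ≤ C * er s0 f (n + m) x := by positivity
    have h1 : ∀ k ∈ Finset.range n, Wt * (sc s0 k / A * ∫ z in ball x (4 * A), gap s0 f k z) ≤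
        (1 / 4) ^ (n + m - k) * (C * er s0 f (n + m) x) := by
      intro k hk
      rw [Finset.mem_range] at hk
      have h2 := hgap k (by omega) (4 * A) (by linarith)
      have h3 : sc s0 k / A = (1 / 8) ^ (n + m - k) := by
        have := sc_sub (s0 := s0) (j := n + m) (m := n + m - k) (by omega)
        have e2 : n + m - (n + m - k) = k := by omega
        rw [e2, ← hAdef] at this
        rw [this]; field_simp
      rw [h3]
      have h6 : (1 / 4 : ℝ) ^ (n + m - k) = (1 / 8) ^ (n + m - k) * 2 ^ (n + m - k) := by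
        rw [← mul_pow]; norm_num
      rw [h6]
      have h7 : (0 : ℝ) ≤ (1 / 8) ^ (n + m - k) := by positivity
      calc Wt * ((1 / 8) ^ (n + m - k) * ∫ z in ball x (4 * A), gap s0 f k z) =
          (1 / 8) ^ (n + m - k) * (Wt * ∫ z in ball x (4 * A), gap s0 f k z) := by ring
        _ ≤ (1 / 8) ^ (n + m - k) * (2 ^ (n + m - k) * (C * er s0 f (n + m) x)) :=
          mul_le_mul_of_nonneg_left h2 h7
        _ = _ := by ring
    rw [Finset.mul_sum]
    refine (Finset.sum_le_sum h1).trans ?_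
    rw [← Finset.sum_mul]
    refine mul_le_mul_of_nonneg_right ?_ h5
    have h2 := sum_quarter (n + m)
    have h3 : ∑ k ∈ Finset.range n, (1 / 4 : ℝ) ^ (n + m - k) ≤
        ∑ k ∈ Finset.range (n + m), (1 / 4 : ℝ) ^ (n + m - k) :=
      Finset.sum_le_sum_of_subset_of_nonneg (Finset.range_mono (by omega))
        fun _ _ _ => by positivity
    linarith
  -- conclusion
  have hfin : A * ((A ^ d)⁻¹ * ∫ z in ball x (4 * A), H z) ≤
      (1 / 8) ^ m * am s0 f (n + m) x + 3 * C * 2 ^ m * er s0 f (n + m) x := by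
    rw [hHint]
    have e1 : A * ((A ^ d)⁻¹ * ((1 / 8) ^ m / 7 * (∫ z in ball x (4 * A),
      ‖fl s0 f n z‖) + 8 / 7 * ∑ k ∈ Finset.range n, sc s0 k / A *
        ∫ z in ball x (4 * A), gap s0 f k z)) =
        (1 / 8) ^ m / 7 * (Wt * ∫ z in ball x (4 * A), ‖fl s0 f n z‖) + 8 / 7 *
        (Wt * ∑ k ∈ Finset.range n, sc s0 k / A * ∫ z in ball x (4 * A), gap s0 f k z) := by
      rw [hWt]; ring
    rw [e1]
    have h5 : 0 ≤ C * er s0 f (n + m) x := by positivity
    have h6 : (1 / 8) ^ m / 7 * (Wt * ∫ z in ball x (4 * A), ‖fl s0 f n z‖) ≤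
        (1 / 8) ^ m / 7 * (am s0 f (n + m) x + 2 * 2 ^ m * (C * er s0 f (n + m) x)) :=
      mul_le_mul_of_nonneg_left hmain (by positivity)
    have h7 : (1 / 8 : ℝ) ^ m * 2 ^ m ≤ 1 := by
      rw [← mul_pow]; exact pow_le_one₀ (by norm_num) (by norm_num)
    have h9 : (1 : ℝ) ≤ 2 ^ m := one_le_pow₀ (by norm_num)
    have h10 : (1 / 8 : ℝ) ^ m * 2 ^ m * (C * er s0 f (n + m) x) ≤
        1 * (C * er s0 f (n + m) x) := mul_le_mul_of_nonneg_right h7 h5
    have h11 : 1 * (C * er s0 f (n + m) x) ≤ 2 ^ m * (C * er s0 f (n + m) x) :=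
      mul_le_mul_of_nonneg_right h9 h5
    have h12 : 0 ≤ (1 / 8) ^ m * am s0 f (n + m) x := by positivity
    nlinarith
  have hcg' := hcg.trans (mul_le_mul_of_nonneg_left hI (by positivity))
  calc A * |∫ y, ⟪ph d y • T, f (p + A • y) - fl s0 f n (p + A • y)⟫_ℝ| ≤
      A * (10 * B * ((A ^ d)⁻¹ * ∫ z in ball x (4 * A), H z)) :=
        mul_le_mul_of_nonneg_left hcg' hA.le
    _ = 10 * B * (A * ((A ^ d)⁻¹ * ∫ z in ball x (4 * A), H z)) := by ring
    _ ≤ _ := mul_le_mul_of_nonneg_left hfin (by positivity)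

/-- the deviation term -/
lemma dev_err {f : Sp d → E} (hf : Continuous f) {C s0 : ℝ} (hs : 0 < s0) (D : DevFacts C s0 f)
    (j m : ℕ) (x p : Sp d) (hp : ‖p - x‖ ≤ 3 / 2 * sc s0 j) {e : E} (he : ‖e‖ = 1)
    (hfe : fl s0 f (j + 4) x = ‖fl s0 f (j + 4) x‖ • e) :
    sc s0 j * ∫ z, ph d z * (‖fl s0 f (j - m) (p + sc s0 j • z)‖ -
      ⟪fl s0 f (j - m) (p + sc s0 j • z), e⟫_ℝ) ≤ C * 2 ^ m * er s0 f j x := by
  have hA : 0 < sc s0 j := sc_pos hs j
  set A := sc s0 j with hAdef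
  set H : Sp d → ℝ := fun z => ‖fl s0 f (j - m) z‖ - ⟪fl s0 f (j - m) z, e⟫_ℝ with hH
  have hgc : Continuous (fl s0 f (j - m)) := fl_cont hf s0 _
  have hHc : Continuous H := by
    simp only [hH]
    exact hgc.norm.sub (hgc.inner continuous_const)
  have hH0 : ∀ z, 0 ≤ H z := by
    intro z
    have := real_inner_le_norm (fl s0 f (j - m) z) e
    rw [he, mul_one] at this
    simp only [hH]; linarith
  have h1 : ∫ z, ph d z * H (p + A • z) ≤ ∫ z in ball (0 : Sp d) 1, H (p + A • z) := by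
    rw [← integral_indicator measurableSet_ball]
    refine integral_mono (ph_integrable (hHc.comp (by fun_prop))) ?_ ?_
    · rw [integrable_indicator_iff measurableSet_ball]
      exact int_on (hHc.comp (by fun_prop)) _ _
    · intro z
      by_cases hz : z ∈ ball (0 : Sp d) 1
      · simp only [indicator_of_mem hz]
        exact mul_le_of_le_one_left (hH0 _) (ph_le_one z)
      · simp only [indicator_of_notMem hz]
        rw [mem_ball, dist_zero_right, not_lt] at hz
        rw [ph_zero hz, zero_mul]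
  have h2 : ∫ z in ball (0 : Sp d) 1, H (p + A • z) = (A ^ d)⁻¹ * ∫ z in ball p (A * 1), H z :=
    scale0 H hA p 1
  have h3 : ∫ z in ball p (A * 1), H z ≤ ∫ z in ball x (384 * A), H z :=
    ball_mono_int hHc hH0 (by linarith)
  have h4 := D.dev j m x e he hfe
  rw [← hAdef] at h4
  calc A * ∫ z, ph d z * H (p + A • z) ≤ A * ((A ^ d)⁻¹ * ∫ z in ball x (384 * A), H z) := by
        refine mul_le_mul_of_nonneg_left ?_ hA.le
        rw [h2] at h1
        exact h1.trans (mul_le_mul_of_nonneg_left h3 (by positivity))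
    _ = A / A ^ d * ∫ z in ball x (384 * A), H z := by ring
    _ ≤ _ := h4

/-- the main term -/
lemma main_low {f : Sp d → E} (hf : Continuous f) {C s0 : ℝ} (hs : 0 < s0) (D : DevFacts C s0 f)
    (i m : ℕ) (hm : 2 ≤ m) (x p : Sp d) (hp : ‖p - x‖ ≤ 3 / 8 * sc s0 (i + 2)) :
    64 / 64 ^ d * am s0 f i x ≤ sc s0 (i + 2) *
      ∫ z, ph d z * ‖fl s0 f (i + 2 - m) (p + sc s0 (i + 2) • z)‖ := by
  have hA : 0 < sc s0 (i + 2) := sc_pos hs _
  have hAi : sc s0 (i + 2) = 64 * sc s0 i := by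
    rw [sc_add]; norm_num
  set A := sc s0 (i + 2) with hAdef
  set H : Sp d → ℝ := fun z => ‖fl s0 f (i + 2 - m) z‖ with hH
  have hHc : Continuous H := (fl_cont hf s0 _).norm
  have hH0 : ∀ z, 0 ≤ H z := fun z => norm_nonneg _
  have h1 : ∫ z in ball (0 : Sp d) (9 / 10), H (p + A • z) ≤ ∫ z, ph d z * H (p + A • z) := by
    rw [← integral_indicator measurableSet_ball]
    refine integral_mono ?_ (ph_integrable (hHc.comp (by fun_prop))) ?_
    · rw [integrable_indicator_iff measurableSet_ball]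
      exact int_on (hHc.comp (by fun_prop)) _ _
    · intro z
      by_cases hz : z ∈ ball (0 : Sp d) (9 / 10)
      · simp only [indicator_of_mem hz]
        rw [mem_ball, dist_zero_right] at hz
        rw [ph_one hz.le, one_mul]
      · simp only [indicator_of_notMem hz]
        exact mul_nonneg (ph_nonneg z) (hH0 _)
  rw [scale0 H hA] at h1
  have h2 := D.transfer' (i + 2 - m) i x (32 * sc s0 i) (by omega)
  have h3 : ∫ z in ball x (32 * sc s0 i + sc s0 i / 7), H z ≤ ∫ z in ball p (A * (9 / 10)), H z := by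
    refine ball_mono_int hHc hH0 ?_
    rw [norm_sub_rev]
    have := sc_pos hs i
    linarith
  have h4 : am s0 f i x = sc s0 i / (sc s0 i) ^ d * ∫ z in ball x (32 * sc s0 i), ‖fl s0 f i z‖ :=
    rfl
  have h5 : 64 / 64 ^ d * (sc s0 i / (sc s0 i) ^ d) = A / A ^ d := by
    rw [hAi, mul_pow]
    have := sc_pos hs i
    field_simp
  rw [h4, ← mul_assoc, h5]
  calc A / A ^ d * ∫ z in ball x (32 * sc s0 i), ‖fl s0 f i z‖ ≤
      A / A ^ d * ∫ z in ball p (A * (9 / 10)), H z := by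
        refine mul_le_mul_of_nonneg_left (h2.trans h3) (by positivity)
    _ = A * ((A ^ d)⁻¹ * ∫ z in ball p (A * (9 / 10)), H z) := by ring
    _ ≤ _ := mul_le_mul_of_nonneg_left h1 hA.le

end Err

end

end TrI.LA
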