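import Pool.Agent.TR.CG
import Pool.Agent.TR.K1
import Pool.Agent.TR.LI
import Pool.Agent.TR.LA
import Pool.Agent.TR.HF
import Pool.Agent.TR.A0
import Pool.Agent.TR.LAB
import Pool.Agent.TR.PT
import Pool.Agent.TR.INT
import Pool.Agent.TR.MU
import Pool.Agent.TR.DEV
import Pool.Agent.TR.CH

/-!
# Trace inequality: stage 1, all modules put together
-/

namespace TrI

/-- The abstract theorem: the local Korn-Poincare property and the hypothesis on charts imply the
trace inequality. -/
theorem absAll : StmtAbs := by
  have hCG := stmtCG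
  have hDev := stmtDev
  have hLI := stmtLI hCG hDev
  have hHF := stmtHF hLI
  have hTV := stmtTV (stmtLT hCG hDev) hHF
  have hA0 := stmtA0 hDev hLI hHF (stmtLA hCG hDev)
  exact stmtAbs (stmtPt hDev hTV hA0) stmtLab stmtMu stmtCharts hDev

theorem k1All : StmtK1 := stmtK1 stmtCG stmtDev

end TrI
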