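import Pool.Agent.TR.Main1
import Pool.Agent.TR.FinBD
import Pool.Agent.TR.BDCH
import Pool.Agent.TR.BDR
import Pool.Agent.TR.BDK2

/-!
# Trace inequality for the symmetric gradient
-/

namespace TrI

theorem traceIneq_bd (d : ℕ) (hd : 1 ≤ d) : TraceIneq (LBD d) :=
  traceIneq_LBD k1All stmtBDR (stmtBDK2 stmtCG stmtDev) stmtBDCH absAll d hd

end TrI

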