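import Pool.Agent.TR.Stmts2

/-!
# Module Plane: from the abstract theorem to the matrix form of the problem
-/

open MeasureTheory Metric Set Matrix
open scoped InnerProductSpace ContDiff

namespace TrI

noncomputable section

section Mat

variable {d N K : ℕ}

/-- the operator given by matrices -/
def LA (A : Fin d → Matrix (Fin K) (Fin N) ℝ) :
    (Sp d →L[ℝ] EuclideanSpace ℝ (Fin N)) →L[ℝ] EuclideanSpace ℝ (Fin K) :=
  ∑ j, (LinearMap.toContinuousLinearMap (Matrix.toEuclideanLin (A j))).comp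
    (ContinuousLinearMap.apply ℝ (EuclideanSpace ℝ (Fin N)) (EuclideanSpace.single j (1 : ℝ)))

theorem LA_apply (A : Fin d → Matrix (Fin K) (Fin N) ℝ)
    (M : Sp d →L[ℝ] EuclideanSpace ℝ (Fin N)) :
    LA A M = ∑ j, Matrix.toEuclideanLin (A j) (M (EuclideanSpace.single j 1)) := by
  unfold LA
  rw [_root_.sum_apply]
  rfl

/-- complex ellipticity of the symbol -/
def SymEll (A : Fin d → Matrix (Fin K) (Fin N) ℝ) : Prop :=
  ∀ ξ : Fin d → ℂ, ξ ≠ 0 → ∀ v : Fin N → ℂ,
    (∑ j, ξ j • (A j).map (algebraMap ℝ ℂ)) *ᵥ v = 0 → v = 0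

theorem LA_rk1 (A : Fin d → Matrix (Fin K) (Fin N) ℝ) (ξ : Sp d)
    (v : EuclideanSpace ℝ (Fin N)) (i : Fin K) :
    LA A (rk1 ξ v) i = ∑ j, ∑ n, ξ j * (A j i n * v n) := by
  rw [LA_apply, WithLp.ofLp_sum, Finset.sum_apply]
  refine Finset.sum_congr rfl fun j _ => ?_
  have h1 : rk1 ξ v (EuclideanSpace.single j (1 : ℝ)) = ξ j • v := by
    simp [rk1, EuclideanSpace.inner_single_right]
  rw [h1, map_smul, PiLp.smul_apply, smul_eq_mul, Matrix.ofLp_toLpLin, Matrix.toLin'_apply,
    Matrix.mulVec, dotProduct, Finset.mul_sum]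

theorem cell_of {A : Fin d → Matrix (Fin K) (Fin N) ℝ} (hA : SymEll A) : CEll (LA A) := by
  intro ξ η hξη v w h1 h2
  set ζ : Fin d → ℂ := fun j => (ξ j : ℂ) + (η j : ℂ) * Complex.I with hζ
  set z : Fin N → ℂ := fun n => (v n : ℂ) + (w n : ℂ) * Complex.I with hz
  have hζ0 : ζ ≠ 0 := by
    intro h0
    have hr : ∀ j, ξ j = 0 := fun j => by
      have := congrArg Complex.re (congrFun h0 j)
      simpa [hζ] using this
    have hi : ∀ j, η j = 0 := fun j => by
      have := congrArg Complex.im (congrFun h0 j)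
      simpa [hζ] using this
    rcases hξη with h | h
    · exact h (by ext j; simpa using hr j)
    · exact h (by ext j; simpa using hi j)
  have hz0 : z = 0 := by
    apply hA ζ hζ0
    funext i
    have e1 := congrArg (fun y : EuclideanSpace ℝ (Fin K) => y i) h1
    have e2 := congrArg (fun y : EuclideanSpace ℝ (Fin K) => y i) h2
    simp only [PiLp.sub_apply, PiLp.add_apply, PiLp.zero_apply, LA_rk1] at e1 e2
    have h3 : ((∑ j, ζ j • (A j).map (algebraMap ℝ ℂ)) *ᵥ z) i =
        ∑ j, ∑ n, ζ j * ((A j i n : ℂ) * z n) := by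
      rw [Matrix.mulVec, dotProduct]
      simp only [Matrix.sum_apply, Matrix.smul_apply, Matrix.map_apply, smul_eq_mul,
        Complex.coe_algebraMap, Finset.sum_mul, mul_assoc]
      rw [Finset.sum_comm]
    rw [h3, Pi.zero_apply]
    apply Complex.ext
    · rw [Complex.re_sum, Complex.zero_re, ← e1, ← Finset.sum_sub_distrib]
      refine Finset.sum_congr rfl fun j _ => ?_
      rw [Complex.re_sum, ← Finset.sum_sub_distrib]
      refine Finset.sum_congr rfl fun n _ => ?_
      simp only [hζ, hz, Complex.mul_re, Complex.mul_im, Complex.add_re, Complex.add_im,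
        Complex.ofReal_re, Complex.ofReal_im, Complex.I_re, Complex.I_im]
      ring
    · rw [Complex.im_sum, Complex.zero_im, ← e2, ← Finset.sum_add_distrib]
      refine Finset.sum_congr rfl fun j _ => ?_
      rw [Complex.im_sum, ← Finset.sum_add_distrib]
      refine Finset.sum_congr rfl fun n _ => ?_
      simp only [hζ, hz, Complex.mul_re, Complex.mul_im, Complex.add_re, Complex.add_im,
        Complex.ofReal_re, Complex.ofReal_im, Complex.I_re, Complex.I_im]
      ring
  constructor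
  · ext n
    have := congrArg Complex.re (congrFun hz0 n)
    simpa [hz] using this
  · ext n
    have := congrArg Complex.im (congrFun hz0 n)
    simpa [hz] using this

/-- the matrix form of the inequality for operators with charts -/
theorem matrix_form (hAbs : StmtAbs) (hKPG : StmtKPG) (hd : 1 ≤ d)
    (A : Fin d → Matrix (Fin K) (Fin N) ℝ) (hA : SymEll A)
    (hch : Nontrivial (EuclideanSpace ℝ (Fin K)) → ChartHyp (LA A)) :
    ∀ C' : ℝ, 0 < C' → ∃ C : ℝ, 0 < C ∧
    ∀ μ : MeasureTheory.Measure (EuclideanSpace ℝ (Fin d)),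
      MeasureTheory.IsFiniteMeasureOnCompacts μ →
      (∀ x : EuclideanSpace ℝ (Fin d), ∀ r : ℝ, 0 < r →
          μ (Metric.ball x r) ≤ ENNReal.ofReal (C' * r ^ (d - 1))) →
    ∀ u : EuclideanSpace ℝ (Fin d) → EuclideanSpace ℝ (Fin N),
      ContDiff ℝ (⊤ : ℕ∞) u → HasCompactSupport u →
      ∫⁻ x, ‖u x‖ₑ ∂μ ≤ ENNReal.ofReal C *
        ∫⁻ x, ‖∑ j : Fin d, Matrix.toEuclideanLin (A j)
            (fderiv ℝ u x (EuclideanSpace.single j 1))‖ₑ := by
  intro C' hC'
  rcases Nat.eq_zero_or_pos N with hN | hN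
  · subst hN
    refine ⟨1, one_pos, fun μ _ _ u _ _ => ?_⟩
    have h0 : ∀ x, ‖u x‖ₑ = 0 := fun x => by
      have : u x = 0 := Subsingleton.elim _ _
      rw [this, enorm_zero]
    simp [h0]
  · have hK : 0 < K := by
      rcases Nat.eq_zero_or_pos K with hK | hK
      · exfalso
        subst hK
        have h1 := hA (fun _ => 1) (by
          intro h
          have := congrFun h ⟨0, hd⟩
          simp at this) (fun _ => 1) (by
          funext i
          exact i.elim0)
        have := congrFun h1 ⟨0, hN⟩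
        simp at this
      · exact hK
    have hnt : Nontrivial (EuclideanSpace ℝ (Fin K)) := by
      refine ⟨⟨EuclideanSpace.single ⟨0, hK⟩ 1, 0, ?_⟩⟩
      intro h
      have := congrArg (fun y : EuclideanSpace ℝ (Fin K) => y ⟨0, hK⟩) h
      simp at this
    obtain ⟨CK, hCK⟩ := hKPG d _ _ (LA A) (cell_of hA)
    obtain ⟨C, hC, h⟩ := hAbs d hd _ _ (LA A) CK hCK (hch hnt) C' hC'
    refine ⟨C, hC, fun μ hμ hgr u hu hus => ?_⟩
    have h1 := h μ hμ hgr u ⟨hu, hus⟩
    refine h1.trans (le_of_eq ?_)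
    congr 1
    refine lintegral_congr fun x => ?_
    rw [fo, LA_apply]

end Mat

/-- The frozen statement S04123 in dimension two -/
def PlaneStatement : Prop :=
  ∀ (N K : ℕ),
  ∀ A : Fin 2 → Matrix (Fin K) (Fin N) ℝ,
  (∀ ξ : Fin 2 → ℂ, ξ ≠ 0 → ∀ v : Fin N → ℂ,
      (∑ j, ξ j • (A j).map (algebraMap ℝ ℂ)) *ᵥ v = 0 → v = 0) →
  ∀ C' : ℝ, 0 < C' → ∃ C : ℝ, 0 < C ∧
    ∀ μ : MeasureTheory.Measure (EuclideanSpace ℝ (Fin 2)),
      MeasureTheory.IsFiniteMeasureOnCompacts μ →
      (∀ x : EuclideanSpace ℝ (Fin 2), ∀ r : ℝ, 0 < r →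
          μ (Metric.ball x r) ≤ ENNReal.ofReal (C' * r ^ (2 - 1))) →
    ∀ u : EuclideanSpace ℝ (Fin 2) → EuclideanSpace ℝ (Fin N),
      ContDiff ℝ (⊤ : ℕ∞) u → HasCompactSupport u →
      ∫⁻ x, ‖u x‖ₑ ∂μ ≤ ENNReal.ofReal C *
        ∫⁻ x, ‖∑ j : Fin 2, Matrix.toEuclideanLin (A j)
            (fderiv ℝ u x (EuclideanSpace.single j 1))‖ₑ

theorem plane (hAbs : StmtAbs) (hKPG : StmtKPG) (hCH2 : StmtCH2) : PlaneStatement := by
  intro N K A hA
  exact matrix_form hAbs hKPG (by norm_num) A hA fun h => hCH2 _ _ (LA A) (cell_of hA) h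

end

end TrI
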