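import Pool.Agent.TR.Stmts2

/-!
# Stage 3: sliced operators in every dimension

For real analytic `w i : ℝ^d → V` whose values span `V`, the trace inequality holds with the
right-hand side `sup_{i, |y| ≤ 1} |⟪w i y, Du(x) y⟫|`.
-/

set_option linter.unusedSectionVars false

open MeasureTheory Metric Set
open scoped InnerProductSpace ContDiff

namespace TrI

noncomputable section

/-- STAGE 3: sliced operators -/
def StmtSL : Prop :=
  ∀ (d : ℕ), 1 ≤ d → ∀ (V : Type) [NormedAddCommGroup V] [InnerProductSpace ℝ V]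
    [FiniteDimensional ℝ V] (ι : Type) (w : ι → Sp d → V),
    (∀ i, AnalyticOnNhd ℝ (w i) univ) → Submodule.span ℝ {v | ∃ i y, w i y = v} = ⊤ →
    ∀ C' : ℝ, 0 < C' → ∃ C : ℝ, 0 < C ∧ ∀ μ : Measure (Sp d), IsFiniteMeasureOnCompacts μ →
      (∀ x : Sp d, ∀ r : ℝ, 0 < r → μ (ball x r) ≤ ENNReal.ofReal (C' * r ^ (d - 1))) →
      ∀ u : Sp d → V, TF u →
        ∫⁻ x, ‖u x‖ₑ ∂μ ≤ ENNReal.ofReal C *
          ∫⁻ x, ⨆ i, ⨆ y ∈ closedBall (0 : Sp d) 1, ‖⟪w i y, fderiv ℝ u x y⟫_ℝ‖ₑ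

namespace SL

variable {d : ℕ} {V E : Type} [NormedAddCommGroup V] [InnerProductSpace ℝ V]
  [FiniteDimensional ℝ V] [NormedAddCommGroup E] [InnerProductSpace ℝ E] [FiniteDimensional ℝ E]

/-- a nonzero analytic function does not vanish identically on an open set -/
theorem exists_ne {f : Sp d → ℝ} (hf : AnalyticOnNhd ℝ f univ) {z : Sp d} (hz : f z ≠ 0)
    {U : Set (Sp d)} (hU : IsOpen U) (hne : U.Nonempty) : ∃ y ∈ U, f y ≠ 0 := by
  by_contra hcon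
  push Not at hcon
  obtain ⟨y0, hy0⟩ := hne
  have h0 : AnalyticOnNhd ℝ (fun _ : Sp d => (0 : ℝ)) univ := analyticOnNhd_const
  have h1 : f = fun _ => 0 := by
    refine hf.eq_of_eventuallyEq h0 (z₀ := y0) ?_
    filter_upwards [hU.mem_nhds hy0] with y hy
    exact hcon y hy
  exact hz (congrFun h1 z)

theorem exists_ne2 {f g : Sp d → ℝ} (hf : AnalyticOnNhd ℝ f univ) {z : Sp d} (hz : f z ≠ 0)
    (hg : AnalyticOnNhd ℝ g univ) {z' : Sp d} (hz' : g z' ≠ 0)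
    {U : Set (Sp d)} (hU : IsOpen U) (hne : U.Nonempty) : ∃ y ∈ U, f y ≠ 0 ∧ g y ≠ 0 := by
  have hfc : Continuous f := by
    rw [← continuousOn_univ]; exact hf.continuousOn
  obtain ⟨y, hy, hfy⟩ := exists_ne hf hz hU hne
  have hU' : IsOpen (U ∩ {y | f y ≠ 0}) := hU.inter (isOpen_ne_fun hfc continuous_const)
  obtain ⟨y', hy', hgy⟩ := exists_ne hg hz' hU' ⟨y, hy, hfy⟩
  exact ⟨y', hy'.1, hy'.2, hgy⟩

/-- a slice of the operator -/
def Slice (L : (Sp d →L[ℝ] V) →L[ℝ] E) (w : Sp d → V) (τ : Sp d → E) : Prop :=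
  ∀ (y : Sp d) (M : Sp d →L[ℝ] V), ⟪w y, M y⟫_ℝ = ⟪L M, τ y⟫_ℝ

/-- A global `C^1` slice gives caps. -/
theorem cap_of_slice {L : (Sp d →L[ℝ] V) →L[ℝ] E} {w : Sp d → V} {τ : Sp d → E}
    (hs : Slice L w τ) (hw : ContDiff ℝ 1 w) (hτ : ContDiff ℝ 1 τ) (y0 : Sp d)
    (hy0 : ‖y0‖ < 3 / 2) : ∃ ρ B : ℝ, IsCap L y0 ρ B w τ := by
  obtain ⟨K1, t1, ht1, hK1⟩ := hw.contDiffAt.exists_lipschitzOnWith (x := y0)
  obtain ⟨K2, t2, ht2, hK2⟩ := hτ.contDiffAt.exists_lipschitzOnWith (x := y0)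
  obtain ⟨ρ', hρ', hball⟩ := Metric.mem_nhds_iff.mp (Filter.inter_mem ht1 ht2)
  set ρ : ℝ := min ρ' (min 1 (3 / 2 - ‖y0‖)) with hρdef
  have hρ : 0 < ρ := lt_min hρ' (lt_min one_pos (by linarith))
  have hρ1 : ρ ≤ 1 := (min_le_right _ _).trans (min_le_left _ _)
  have hρ2 : ρ ≤ 3 / 2 - ‖y0‖ := (min_le_right _ _).trans (min_le_right _ _)
  have hsub : ball y0 ρ ⊆ t1 ∩ t2 := (ball_subset_ball (min_le_left _ _)).trans hball
  have hy0mem : y0 ∈ ball y0 ρ := mem_ball_self hρ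
  have hlip1 : ∀ y ∈ ball y0 ρ, ∀ y' ∈ ball y0 ρ, ‖w y - w y'‖ ≤ K1 * ‖y - y'‖ := by
    intro y hy y' hy'
    have := hK1.dist_le_mul y (hsub hy).1 y' (hsub hy').1
    rwa [dist_eq_norm, dist_eq_norm] at this
  have hlip2 : ∀ y ∈ ball y0 ρ, ∀ y' ∈ ball y0 ρ, ‖τ y - τ y'‖ ≤ K2 * ‖y - y'‖ := by
    intro y hy y' hy'
    have := hK2.dist_le_mul y (hsub hy).2 y' (hsub hy').2
    rwa [dist_eq_norm, dist_eq_norm] at this
  have hK1n : (0 : ℝ) ≤ K1 := K1.2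
  have hK2n : (0 : ℝ) ≤ K2 := K2.2
  have hw0n := norm_nonneg (w y0)
  have hτ0n := norm_nonneg (τ y0)
  have hbd : ∀ y ∈ ball y0 ρ, ‖y - y0‖ ≤ 1 := by
    intro y hy
    rw [mem_ball, dist_eq_norm] at hy; linarith
  refine ⟨ρ, 1 + K1 + K2 + ‖w y0‖ + ‖τ y0‖, hρ, by positivity, by linarith,
    fun y _ N => hs y N, ?_, ?_, ?_, ?_⟩
  · intro y hy
    have h1 := hlip1 y hy y0 hy0mem
    have h3 : ‖w y‖ ≤ ‖w y - w y0‖ + ‖w y0‖ := by
      have := norm_add_le (w y - w y0) (w y0)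
      rwa [sub_add_cancel] at this
    have h4 : (K1 : ℝ) * ‖y - y0‖ ≤ K1 * 1 := mul_le_mul_of_nonneg_left (hbd y hy) hK1n
    linarith
  · intro y hy
    have h1 := hlip2 y hy y0 hy0mem
    have h3 : ‖τ y‖ ≤ ‖τ y - τ y0‖ + ‖τ y0‖ := by
      have := norm_add_le (τ y - τ y0) (τ y0)
      rwa [sub_add_cancel] at this
    have h4 : (K2 : ℝ) * ‖y - y0‖ ≤ K2 * 1 := mul_le_mul_of_nonneg_left (hbd y hy) hK2n
    linarith
  · intro y hy y' hy'
    exact (hlip1 y hy y' hy').trans (mul_le_mul_of_nonneg_right (by linarith) (norm_nonneg _))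
  · intro y hy y' hy'
    exact (hlip2 y hy y' hy').trans (mul_le_mul_of_nonneg_right (by linarith) (norm_nonneg _))

theorem cap_mono {L : (Sp d →L[ℝ] V) →L[ℝ] E} {y0 : Sp d} {ρ B B' : ℝ} {w : Sp d → V}
    {τ : Sp d → E} (h : IsCap L y0 ρ B w τ) (hB : B ≤ B') : IsCap L y0 ρ B' w τ where
  ρ_pos := h.ρ_pos
  B_pos := h.B_pos.trans_le hB
  inside := h.inside
  slice := h.slice
  w_bd := fun y hy => (h.w_bd y hy).trans hB
  τ_bd := fun y hy => (h.τ_bd y hy).trans hB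
  w_lip := fun y hy y' hy' => (h.w_lip y hy y' hy').trans
    (mul_le_mul_of_nonneg_right hB (norm_nonneg _))
  τ_lip := fun y hy y' hy' => (h.τ_lip y hy y' hy').trans
    (mul_le_mul_of_nonneg_right hB (norm_nonneg _))

/-- the vectors attained by slices on which `e` is positive -/
def Pos (L : (Sp d →L[ℝ] V) →L[ℝ] E) (e : E) : Set V :=
  {v | ∃ (y : Sp d) (w : Sp d → V) (τ : Sp d → E), ‖y‖ < 3 / 2 ∧ ContDiff ℝ 1 w ∧
    ContDiff ℝ 1 τ ∧ Slice L w τ ∧ 0 < ⟪e, τ y⟫_ℝ ∧ w y = v}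

/-- Charts from spanning families of positive slices. -/
theorem chartHyp_of_pos (L : (Sp d →L[ℝ] V) →L[ℝ] E)
    (hne : ∀ e : E, ‖e‖ = 1 → (Pos L e).Nonempty)
    (hspan : ∀ e : E, ‖e‖ = 1 → Submodule.span ℝ (Pos L e) = ⊤) : ChartHyp L := by
  classical
  intro e he
  have hfg : (Submodule.span ℝ (Pos L e)).FG := IsNoetherian.noetherian _
  obtain ⟨S, hS, hS'⟩ := (Submodule.fg_span_iff_fg_span_finset_subset (Pos L e)).mp hfg
  obtain ⟨v0, hv0⟩ := hne e he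
  set S1 : Finset V := insert v0 S with hS1
  have hS1sub : ∀ v ∈ S1, v ∈ Pos L e := by
    intro v hv
    rcases Finset.mem_insert.mp hv with rfl | hv
    · exact hv0
    · exact hS hv
  have hS1span : Submodule.span ℝ (S1 : Set V) = ⊤ := by
    rw [eq_top_iff, ← hspan e he, hS']
    exact Submodule.span_mono (by rw [hS1, Finset.coe_insert]; exact subset_insert _ _)
  have hcard : 0 < S1.card := Finset.card_pos.mpr ⟨v0, Finset.mem_insert_self _ _⟩
  set eq := S1.equivFin.symm with heq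
  have hdat : ∀ a : Fin S1.card, ∃ (y : Sp d) (w : Sp d → V) (τ : Sp d → E) (ρ B : ℝ),
      IsCap L y ρ B w τ ∧ 0 < ⟪e, τ y⟫_ℝ ∧ w y = (eq a : V) := by
    intro a
    obtain ⟨y, w, τ, hy, hw, hτ, hs, hpos, hv⟩ := hS1sub _ (eq a).2
    obtain ⟨ρ, B, hcap⟩ := cap_of_slice hs hw hτ y hy
    exact ⟨y, w, τ, ρ, B, hcap, hpos, hv⟩
  choose y w τ ρ B hcap hpos hv using hdat
  refine ⟨S1.card, hcard, ∑ a, B a, y, ρ, w, τ, ?_, hpos, ?_⟩
  · intro a
    refine cap_mono (hcap a) ?_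
    exact Finset.single_le_sum (f := B) (fun b _ => (hcap b).B_pos.le) (Finset.mem_univ a)
  · rw [← hS1span]
    congr 1
    ext v
    constructor
    · rintro ⟨a, rfl⟩
      change w a (y a) ∈ (S1 : Set V)
      rw [hv a]
      exact (eq a).2
    · intro hvS
      refine ⟨eq.symm ⟨v, hvS⟩, ?_⟩
      change w _ (y _) = v
      rw [hv, Equiv.apply_symm_apply]

/-- the second half of a slice, from the first -/
def tau (P : E →ₗ[ℝ] (Sp d →L[ℝ] V)) (w : V) (y : Sp d) : E :=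
  ∑ l, ⟪w, (P (stdOrthonormalBasis ℝ E l)) y⟫_ℝ • stdOrthonormalBasis ℝ E l

theorem inner_tau (P : E →ₗ[ℝ] (Sp d →L[ℝ] V)) (w : V) (y : Sp d) (e : E) :
    ⟪e, tau P w y⟫_ℝ = ⟪w, (P e) y⟫_ℝ := by
  have h1 : P e = ∑ l, ⟪stdOrthonormalBasis ℝ E l, e⟫_ℝ • P (stdOrthonormalBasis ℝ E l) := by
    conv_lhs => rw [← (stdOrthonormalBasis ℝ E).sum_repr' e]
    rw [map_sum]
    exact Finset.sum_congr rfl fun l _ => map_smul _ _ _
  rw [h1, tau, inner_sum]
  have h2 : (∑ l, ⟪stdOrthonormalBasis ℝ E l, e⟫_ℝ • P (stdOrthonormalBasis ℝ E l)) y =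
      ∑ l, ⟪stdOrthonormalBasis ℝ E l, e⟫_ℝ • (P (stdOrthonormalBasis ℝ E l)) y := by
    rw [_root_.sum_apply]
    rfl
  rw [h2, inner_sum]
  refine Finset.sum_congr rfl fun l _ => ?_
  rw [inner_smul_right, inner_smul_right, real_inner_comm e, mul_comm]

variable {ι : Type} {w : ι → Sp d → V}

section Main

variable (hw : ∀ i, AnalyticOnNhd ℝ (w i) univ)
  (hspan : Submodule.span ℝ {v | ∃ i y, w i y = v} = ⊤)
  (L : (Sp d →L[ℝ] V) →L[ℝ] E) (P : E →ₗ[ℝ] (Sp d →L[ℝ] V)) (hLP : ∀ e, L (P e) = e)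
  (hker : ∀ M : Sp d →L[ℝ] V, L M = 0 ↔ ∀ i y, ⟪w i y, M y⟫_ℝ = 0)

include hLP hker in
theorem slice_tau (i : ι) : Slice L (w i) (fun y => tau P (w i y) y) := by
  intro y M
  rw [inner_tau]
  have h1 : L (M - P (L M)) = 0 := by rw [map_sub, hLP, sub_self]
  have h2 := (hker _).mp h1 i y
  have h3 : (M - P (L M)) y = M y - (P (L M)) y := rfl
  rw [h3, inner_sub_right] at h2
  linarith

include hw in
theorem contDiff_w (i : ι) : ContDiff ℝ 1 (w i) := by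
  rw [← contDiffOn_univ]
  exact (hw i).contDiffOn uniqueDiffOn_univ

include hw in
theorem contDiff_tau (i : ι) : ContDiff ℝ 1 (fun y => tau P (w i y) y) := by
  unfold tau
  refine ContDiff.sum fun l _ => ?_
  refine ContDiff.smul ?_ contDiff_const
  exact (contDiff_w hw i).inner ℝ (P (stdOrthonormalBasis ℝ E l)).contDiff

theorem analytic_innerAt {f g : Sp d → V} {y : Sp d} (hf : AnalyticAt ℝ f y)
    (hg : AnalyticAt ℝ g y) : AnalyticAt ℝ (fun y => ⟪f y, g y⟫_ℝ) y := by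
  have h2 : AnalyticAt ℝ (fun p : V × V => ⟪p.1, p.2⟫_ℝ) (f y, g y) :=
    (isBoundedBilinearMap_inner (𝕜 := ℝ) (E := V)).toContinuousLinearMap.analyticAt_bilinear _
  exact AnalyticAt.comp₂ (h := fun p : V × V => ⟪p.1, p.2⟫_ℝ) h2 hf hg

include hw in
theorem analytic_inner (i : ι) (M : Sp d →L[ℝ] V) :
    AnalyticOnNhd ℝ (fun y => ⟪w i y, M y⟫_ℝ) univ :=
  fun y _ => analytic_innerAt (hw i y (mem_univ _)) (M.analyticAt y)

include hw in
theorem analytic_inner' (i : ι) (v : V) :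
    AnalyticOnNhd ℝ (fun y => ⟪w i y, v⟫_ℝ) univ :=
  fun y _ => analytic_innerAt (hw i y (mem_univ _)) analyticAt_const

include hspan in
/-- some slice sees a given nonzero vector -/
theorem exists_sees {v : V} (hv : v ≠ 0) : ∃ i y, ⟪w i y, v⟫_ℝ ≠ 0 := by
  by_contra hcon
  push Not at hcon
  apply hv
  have h1 : ∀ z ∈ Submodule.span ℝ {v | ∃ i y, w i y = v}, ⟪z, v⟫_ℝ = 0 := by
    intro z hz
    induction hz using Submodule.span_induction with
    | mem z hz =>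
      obtain ⟨i, y, rfl⟩ := hz
      exact hcon i y
    | zero => exact inner_zero_left _
    | add a b _ _ ha hb => rw [inner_add_left, ha, hb, add_zero]
    | smul c a _ ha => rw [real_inner_smul_left, ha, mul_zero]
  rw [hspan] at h1
  exact inner_self_eq_zero.mp (h1 v trivial)

include hw hspan hker in
theorem cell : CEll L := by
  intro ξ η hξη v v' h1 h2
  have e1 : L (rk1 ξ v - rk1 η v') = 0 := by rw [map_sub]; exact h1
  have e2 : L (rk1 ξ v' + rk1 η v) = 0 := by rw [map_add]; exact h2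
  have k1 := (hker _).mp e1
  have k2 := (hker _).mp e2
  -- at points where the complex linear form does not vanish
  have key : ∀ i y, (⟪ξ, y⟫_ℝ ≠ 0 ∨ ⟪η, y⟫_ℝ ≠ 0) → ⟪w i y, v⟫_ℝ = 0 ∧ ⟪w i y, v'⟫_ℝ = 0 := by
    intro i y hy
    have a1 := k1 i y
    have a2 := k2 i y
    have f1 : (rk1 ξ v - rk1 η v' : Sp d →L[ℝ] V) y = ⟪ξ, y⟫_ℝ • v - ⟪η, y⟫_ℝ • v' := rfl
    have f2 : (rk1 ξ v' + rk1 η v : Sp d →L[ℝ] V) y = ⟪ξ, y⟫_ℝ • v' + ⟪η, y⟫_ℝ • v := rfl
    rw [f1, inner_sub_right, real_inner_smul_right, real_inner_smul_right] at a1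
    rw [f2, inner_add_right, real_inner_smul_right, real_inner_smul_right] at a2
    have hpos : 0 < ⟪ξ, y⟫_ℝ ^ 2 + ⟪η, y⟫_ℝ ^ 2 := by
      rcases hy with h | h
      · positivity
      · positivity
    constructor
    · have : (⟪ξ, y⟫_ℝ ^ 2 + ⟪η, y⟫_ℝ ^ 2) * ⟪w i y, v⟫_ℝ = 0 := by
        linear_combination ⟪ξ, y⟫_ℝ * a1 + ⟪η, y⟫_ℝ * a2
      exact (mul_eq_zero.mp this).resolve_left hpos.ne'
    · have : (⟪ξ, y⟫_ℝ ^ 2 + ⟪η, y⟫_ℝ ^ 2) * ⟪w i y, v'⟫_ℝ = 0 := by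
        linear_combination ⟪ξ, y⟫_ℝ * a2 - ⟪η, y⟫_ℝ * a1
      exact (mul_eq_zero.mp this).resolve_left hpos.ne'
  -- the linear form
  obtain ⟨ζ, hζ, hζ'⟩ : ∃ ζ : Sp d, ζ ≠ 0 ∧ ∀ y, ⟪ζ, y⟫_ℝ ≠ 0 → (⟪ξ, y⟫_ℝ ≠ 0 ∨ ⟪η, y⟫_ℝ ≠ 0) := by
    rcases hξη with h | h
    · exact ⟨ξ, h, fun y hy => Or.inl hy⟩
    · exact ⟨η, h, fun y hy => Or.inr hy⟩
  have hζa : AnalyticOnNhd ℝ (fun y => ⟪ζ, y⟫_ℝ) univ := fun y _ =>
    ((innerSL ℝ ζ : Sp d →L[ℝ] ℝ)).analyticAt y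
  have hζz : ⟪ζ, ζ⟫_ℝ ≠ 0 := fun h => hζ (inner_self_eq_zero.mp h)
  constructor
  · by_contra hv
    obtain ⟨i, z, hz⟩ := exists_sees (w := w) hspan hv
    obtain ⟨y, -, hy1, hy2⟩ := exists_ne2 hζa hζz (analytic_inner' hw i v) hz isOpen_univ
      ⟨0, mem_univ _⟩
    exact hy2 (key i y (hζ' y hy1)).1
  · by_contra hv
    obtain ⟨i, z, hz⟩ := exists_sees (w := w) hspan hv
    obtain ⟨y, -, hy1, hy2⟩ := exists_ne2 hζa hζz (analytic_inner' hw i v') hz isOpen_univ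
      ⟨0, mem_univ _⟩
    exact hy2 (key i y (hζ' y hy1)).2

include hw hspan hLP hker in
theorem chartHyp : ChartHyp L := by
  have h0 : ∀ e : E, ‖e‖ = 1 → ∃ i z, ⟪w i z, (P e) z⟫_ℝ ≠ 0 := by
    intro e he
    by_contra hcon
    push Not at hcon
    have h1 : L (P e) = 0 := (hker _).mpr hcon
    rw [hLP] at h1
    rw [h1, norm_zero] at he
    exact zero_ne_one he
  have hball : (ball (0 : Sp d) 1).Nonempty := ⟨0, mem_ball_self one_pos⟩
  -- inner product with the second half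
  have hin : ∀ (e : E) (i : ι) (y : Sp d), ⟪e, tau P (w i y) y⟫_ℝ = ⟪w i y, (P e) y⟫_ℝ :=
    fun e i y => inner_tau P (w i y) y e
  -- the basic positive slice at a point
  have hbasic : ∀ (e : E) (i : ι) (y : Sp d), ‖y‖ < 3 / 2 → ⟪w i y, (P e) y⟫_ℝ ≠ 0 →
      ∃ s : ℝ, s ≠ 0 ∧ 0 < s * ⟪w i y, (P e) y⟫_ℝ ∧ s • w i y ∈ Pos L e := by
    intro e i y hy hne
    refine ⟨⟪w i y, (P e) y⟫_ℝ, hne, mul_self_pos.mpr hne, y,
      fun z => ⟪w i y, (P e) y⟫_ℝ • w i z, fun z => ⟪w i y, (P e) y⟫_ℝ • tau P (w i z) z, hy,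
      contDiff_const.smul (contDiff_w hw i), contDiff_const.smul (contDiff_tau hw P i), ?_, ?_,
      rfl⟩
    · intro z M
      rw [real_inner_smul_left, real_inner_smul_right, slice_tau L P hLP hker i z M]
    · rw [real_inner_smul_right, hin]
      exact mul_self_pos.mpr hne
  refine chartHyp_of_pos L ?_ ?_
  · intro e he
    obtain ⟨i, z, hz⟩ := h0 e he
    obtain ⟨y, hy, hyne⟩ := exists_ne (analytic_inner hw i (P e)) hz isOpen_ball hball
    rw [mem_ball_zero_iff] at hy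
    obtain ⟨s, -, -, hs⟩ := hbasic e i y (by linarith) hyne
    exact ⟨_, hs⟩
  · intro e he
    rw [← Submodule.orthogonal_eq_bot_iff, Submodule.eq_bot_iff]
    intro v hv
    by_contra hv0
    obtain ⟨i, z, hz⟩ := h0 e he
    obtain ⟨i', z', hz'⟩ := exists_sees (w := w) hspan hv0
    obtain ⟨y, hy, hy1, hy2⟩ := exists_ne2 (analytic_inner hw i (P e)) hz
      (analytic_inner' hw i' v) hz' isOpen_ball hball
    rw [mem_ball_zero_iff] at hy
    have hperp : ∀ z ∈ Pos L e, ⟪z, v⟫_ℝ = 0 := fun z hz =>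
      (Submodule.mem_orthogonal _ v).mp hv z (Submodule.subset_span hz)
    obtain ⟨s, hs0, hspos, hsmem⟩ := hbasic e i y (by linarith) hy1
    have hs1 := hperp _ hsmem
    set c : ℝ := s * ⟪w i y, (P e) y⟫_ℝ with hc
    set b : ℝ := ⟪w i' y, (P e) y⟫_ℝ with hb
    set ε : ℝ := c / (2 * (|b| + 1)) with hε
    have hεpos : 0 < ε := by positivity
    have hpos : 0 < c + ε * b := by
      have h1 : ε * |b| ≤ c / 2 := by
        rw [hε, div_mul_eq_mul_div, div_le_div_iff₀ (by positivity) two_pos]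
        nlinarith [abs_nonneg b]
      have h2 : -(ε * |b|) ≤ ε * b := by
        have := mul_le_mul_of_nonneg_left (neg_abs_le b) hεpos.le
        linarith
      linarith
    have hmem : s • w i y + ε • w i' y ∈ Pos L e := by
      refine ⟨y, fun z => s • w i z + ε • w i' z,
        fun z => s • tau P (w i z) z + ε • tau P (w i' z) z, by linarith,
        (contDiff_const.smul (contDiff_w hw i)).add (contDiff_const.smul (contDiff_w hw i')),
        (contDiff_const.smul (contDiff_tau hw P i)).add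
          (contDiff_const.smul (contDiff_tau hw P i')), ?_, ?_, rfl⟩
      · intro z M
        rw [inner_add_left, inner_add_right, real_inner_smul_left, real_inner_smul_left,
          real_inner_smul_right, real_inner_smul_right, slice_tau L P hLP hker i z M,
          slice_tau L P hLP hker i' z M]
      · rw [inner_add_right, real_inner_smul_right, real_inner_smul_right, hin, hin]
        exact hpos
    have h3 := hperp _ hmem
    rw [inner_add_left, hs1, zero_add, real_inner_smul_left] at h3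
    exact hy2 ((mul_eq_zero.mp h3).resolve_left hεpos.ne')

include hw hLP hker in
theorem norm_le : ∃ C : ℝ, 0 < C ∧ ∀ M : Sp d →L[ℝ] V, ‖L M‖ₑ ≤ ENNReal.ofReal C *
    ⨆ i, ⨆ y ∈ closedBall (0 : Sp d) 1, ‖⟪w i y, M y⟫_ℝ‖ₑ := by
  classical
  set T : Set E := {e | ∃ (i : ι) (y : Sp d), y ∈ closedBall (0 : Sp d) 1 ∧
    tau P (w i y) y = e} with hT
  have hTspan : Submodule.span ℝ T = ⊤ := by
    rw [← Submodule.orthogonal_eq_bot_iff, Submodule.eq_bot_iff]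
    intro e he
    have hperp : ∀ i, ∀ y ∈ closedBall (0 : Sp d) 1, ⟪w i y, (P e) y⟫_ℝ = 0 := by
      intro i y hy
      have := (Submodule.mem_orthogonal' _ e).mp he _ (Submodule.subset_span ⟨i, y, hy, rfl⟩)
      rwa [inner_tau] at this
    have h1 : L (P e) = 0 := by
      rw [hker]
      intro i z
      by_contra hz
      obtain ⟨y, hy, hyne⟩ := exists_ne (analytic_inner hw i (P e)) hz isOpen_ball
        ⟨0, mem_ball_self one_pos⟩
      exact hyne (hperp i y (ball_subset_closedBall hy))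
    rw [hLP] at h1
    exact h1
  have hfg : (Submodule.span ℝ T).FG := IsNoetherian.noetherian _
  obtain ⟨S, hS, hS'⟩ := (Submodule.fg_span_iff_fg_span_finset_subset T).mp hfg
  set Φ : E →ₗ[ℝ] (S → ℝ) := LinearMap.pi fun s => (innerₗ E (s : E)) with hΦ
  have hΦapp : ∀ (e : E) (s : S), Φ e s = ⟪(s : E), e⟫_ℝ := fun e s => rfl
  have hΦker : LinearMap.ker Φ = ⊥ := by
    rw [LinearMap.ker_eq_bot']
    intro e he
    have h1 : ∀ s ∈ S, ⟪s, e⟫_ℝ = 0 := fun s hs => congrFun he ⟨s, hs⟩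
    have h2 : ∀ z ∈ Submodule.span ℝ (S : Set E), ⟪z, e⟫_ℝ = 0 := by
      intro z hz
      induction hz using Submodule.span_induction with
      | mem z hz => exact h1 z hz
      | zero => exact inner_zero_left _
      | add a b _ _ ha hb => rw [inner_add_left, ha, hb, add_zero]
      | smul c a _ ha => rw [real_inner_smul_left, ha, mul_zero]
    rw [← hS', hTspan] at h2
    exact inner_self_eq_zero.mp (h2 e trivial)
  obtain ⟨K, hK, hanti⟩ := LinearMap.exists_antilipschitzWith Φ hΦker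
  refine ⟨K, by exact_mod_cast hK, fun M => ?_⟩
  have h1 : ‖L M‖ ≤ K * ‖Φ (L M)‖ := by
    have := hanti.le_mul_dist (L M) 0
    rwa [map_zero, dist_zero_right, dist_zero_right] at this
  have h2 : ‖Φ (L M)‖ₑ ≤ ⨆ i, ⨆ y ∈ closedBall (0 : Sp d) 1, ‖⟪w i y, M y⟫_ℝ‖ₑ := by
    set X := ⨆ i, ⨆ y ∈ closedBall (0 : Sp d) 1, ‖⟪w i y, M y⟫_ℝ‖ₑ with hX
    by_cases hXt : X = ⊤
    · rw [hXt]; exact le_top
    rw [← ofReal_norm, ← ENNReal.ofReal_toReal hXt]
    refine ENNReal.ofReal_le_ofReal ?_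
    rw [pi_norm_le_iff_of_nonneg ENNReal.toReal_nonneg]
    intro s
    obtain ⟨i, y, hy, hs⟩ := hS s.2
    have h3 : Φ (L M) s = ⟪w i y, M y⟫_ℝ := by
      rw [hΦapp, ← hs, real_inner_comm, slice_tau L P hLP hker i y M]
    rw [h3]
    have h4 : ‖⟪w i y, M y⟫_ℝ‖ₑ ≤ X :=
      (le_iSup₂ (f := fun y (_ : y ∈ closedBall (0 : Sp d) 1) => ‖⟪w i y, M y⟫_ℝ‖ₑ) y hy).trans
        (le_iSup (fun i => ⨆ y ∈ closedBall (0 : Sp d) 1, ‖⟪w i y, M y⟫_ℝ‖ₑ) i)
    have h5 := ENNReal.toReal_mono hXt h4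
    rwa [toReal_enorm] at h5
  calc ‖L M‖ₑ = ENNReal.ofReal ‖L M‖ := (ofReal_norm _).symm
    _ ≤ ENNReal.ofReal (K * ‖Φ (L M)‖) := ENNReal.ofReal_le_ofReal h1
    _ = ENNReal.ofReal K * ‖Φ (L M)‖ₑ := by
      rw [ENNReal.ofReal_mul (NNReal.coe_nonneg K), ofReal_norm]
    _ ≤ _ := mul_le_mul_right h2 _

end Main

/-- existence of the operator with a given kernel -/
theorem exists_op (w : ι → Sp d → V) : ∃ (m : ℕ)
    (L : (Sp d →L[ℝ] V) →L[ℝ] EuclideanSpace ℝ (Fin m))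
    (P : EuclideanSpace ℝ (Fin m) →ₗ[ℝ] (Sp d →L[ℝ] V)), (∀ e, L (P e) = e) ∧
    ∀ M : Sp d →L[ℝ] V, L M = 0 ↔ ∀ i y, ⟪w i y, M y⟫_ℝ = 0 := by
  set K0 : Submodule ℝ (Sp d →L[ℝ] V) :=
    { carrier := {M | ∀ i y, ⟪w i y, M y⟫_ℝ = 0}
      add_mem' := by
        intro M M' h h' i y
        have : (M + M') y = M y + M' y := rfl
        rw [this, inner_add_right, h i y, h' i y, add_zero]
      zero_mem' := by
        intro i y
        exact inner_zero_right _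
      smul_mem' := by
        intro c M h i y
        have : (c • M) y = c • M y := rfl
        rw [this, real_inner_smul_right, h i y, mul_zero] } with hK0
  have hmem : ∀ M, M ∈ K0 ↔ ∀ i y, ⟪w i y, M y⟫_ℝ = 0 := fun M => Iff.rfl
  set m := Module.finrank ℝ ((Sp d →L[ℝ] V) ⧸ K0) with hm
  have e : ((Sp d →L[ℝ] V) ⧸ K0) ≃ₗ[ℝ] EuclideanSpace ℝ (Fin m) :=
    LinearEquiv.ofFinrankEq _ _ (by rw [finrank_euclideanSpace, Fintype.card_fin])
  set L0 : (Sp d →L[ℝ] V) →ₗ[ℝ] EuclideanSpace ℝ (Fin m) := e.toLinearMap ∘ₗ K0.mkQ with hL0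
  have hsurj : Function.Surjective L0 := e.surjective.comp K0.mkQ_surjective
  obtain ⟨P, hP⟩ := LinearMap.exists_rightInverse_of_surjective L0
    (LinearMap.range_eq_top.mpr hsurj)
  refine ⟨m, LinearMap.toContinuousLinearMap L0, P, fun z => LinearMap.congr_fun hP z, fun M => ?_⟩
  change L0 M = 0 ↔ _
  rw [hL0, LinearMap.comp_apply, LinearEquiv.coe_coe, LinearEquiv.map_eq_zero_iff,
    Submodule.mkQ_apply, Submodule.Quotient.mk_eq_zero, hmem]

end SL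

/-- STAGE 3 -/
theorem stmtSL (hK : StmtKPG) (hA : StmtAbs) : StmtSL := by
  intro d hd V _ _ _ ι w hw hspan C' hC'
  obtain ⟨m, L, P, hLP, hker⟩ := SL.exists_op w
  have hcell := SL.cell hw hspan L hker
  rcases subsingleton_or_nontrivial (EuclideanSpace ℝ (Fin m)) with hsub | hnon
  · -- then `V` is trivial
    have hV : ∀ v : V, v = 0 := by
      intro v
      have hξ : (EuclideanSpace.single (⟨0, hd⟩ : Fin d) (1 : ℝ)) ≠ (0 : Sp d) := by
        intro h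
        have := congrArg (fun z : Sp d => z ⟨0, hd⟩) h
        simp at this
      exact (hcell (EuclideanSpace.single (⟨0, hd⟩ : Fin d) (1 : ℝ)) 0 (Or.inl hξ) v 0
        (Subsingleton.elim _ _) (Subsingleton.elim _ _)).1
    refine ⟨1, one_pos, fun μ _ _ u _ => ?_⟩
    have : ∀ x, ‖u x‖ₑ = 0 := fun x => by rw [hV (u x)]; simp
    simp [this]
  · obtain ⟨CK, hCK⟩ := hK d V _ L hcell
    have hch := SL.chartHyp hw hspan L P hLP hker
    obtain ⟨C1, hC1, h1⟩ := hA d hd V _ L CK hCK hch C' hC'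
    obtain ⟨C2, hC2, h2⟩ := SL.norm_le hw L P hLP hker
    refine ⟨C1 * C2, mul_pos hC1 hC2, fun μ hμ hgr u hu => ?_⟩
    calc ∫⁻ x, ‖u x‖ₑ ∂μ ≤ ENNReal.ofReal C1 * ∫⁻ x, ‖fo L u x‖ₑ := h1 μ hμ hgr u hu
      _ ≤ ENNReal.ofReal C1 * ∫⁻ x, ENNReal.ofReal C2 *
          ⨆ i, ⨆ y ∈ closedBall (0 : Sp d) 1, ‖⟪w i y, fderiv ℝ u x y⟫_ℝ‖ₑ :=
        mul_le_mul_right (lintegral_mono fun x => h2 (fderiv ℝ u x)) _
      _ = _ := by
        rw [lintegral_const_mul' _ _ ENNReal.ofReal_ne_top, ← mul_assoc,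
          ENNReal.ofReal_mul hC1.le]

end

end TrI
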