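import Pool.Agent.TR.SL
import Pool.Agent.TR.Plane

/-!
# Stage 3: sliced operators in the matrix form of the problem
-/

set_option linter.unusedSectionVars false

open MeasureTheory Metric Set
open scoped InnerProductSpace ContDiff

namespace TrI

noncomputable section

/-- Sliced operators, matrix form: for every nonzero vector `v` there is a real analytic slicing
field `w` of the operator whose values are not all orthogonal to `v`. -/
def SlicedStatement : Prop :=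
  ∀ (d N K : ℕ), 1 ≤ d →
  ∀ A : Fin d → Matrix (Fin K) (Fin N) ℝ,
  (∀ v : EuclideanSpace ℝ (Fin N), v ≠ 0 →
    ∃ w : EuclideanSpace ℝ (Fin d) → EuclideanSpace ℝ (Fin N),
      AnalyticOnNhd ℝ w Set.univ ∧
      (∀ (y : EuclideanSpace ℝ (Fin d)) (M : Fin d → EuclideanSpace ℝ (Fin N)),
        ∑ j, Matrix.toEuclideanLin (A j) (M j) = 0 → inner ℝ (w y) (∑ j, y j • M j) = 0) ∧
      ∃ y, inner ℝ (w y) v ≠ 0) →
  ∀ C' : ℝ, 0 < C' → ∃ C : ℝ, 0 < C ∧
    ∀ μ : MeasureTheory.Measure (EuclideanSpace ℝ (Fin d)),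
      MeasureTheory.IsFiniteMeasureOnCompacts μ →
      (∀ x : EuclideanSpace ℝ (Fin d), ∀ r : ℝ, 0 < r →
          μ (Metric.ball x r) ≤ ENNReal.ofReal (C' * r ^ (d - 1))) →
    ∀ u : EuclideanSpace ℝ (Fin d) → EuclideanSpace ℝ (Fin N),
      ContDiff ℝ (⊤ : ℕ∞) u → HasCompactSupport u →
      ∫⁻ x, ‖u x‖ₑ ∂μ ≤ ENNReal.ofReal C *
        ∫⁻ x, ‖∑ j : Fin d, Matrix.toEuclideanLin (A j)
            (fderiv ℝ u x (EuclideanSpace.single j 1))‖ₑ

theorem clm_eq_sum {d : ℕ} {V : Type} [NormedAddCommGroup V] [NormedSpace ℝ V]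
    (M : Sp d →L[ℝ] V) (y : Sp d) : M y = ∑ j, y j • M (EuclideanSpace.single j 1) := by
  have h0 : y = ∑ j, y j • EuclideanSpace.single j (1 : ℝ) := by
    ext i
    simp [Finset.sum_apply, Pi.single_apply]
  conv_lhs => rw [h0]
  rw [map_sum]
  exact Finset.sum_congr rfl fun j _ => by rw [map_smul]

/-- a linear map between finite dimensional spaces has a pseudo-inverse -/
theorem exists_pseudo {X Y : Type} [NormedAddCommGroup X] [NormedSpace ℝ X]
    [NormedAddCommGroup Y] [InnerProductSpace ℝ Y] [FiniteDimensional ℝ Y] (L : X →L[ℝ] Y) :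
    ∃ P : Y →ₗ[ℝ] X, ∀ M, L (P (L M)) = L M := by
  obtain ⟨g, hg⟩ := LinearMap.exists_rightInverse_of_surjective
    (LinearMap.rangeRestrict (L : X →ₗ[ℝ] Y))
    (LinearMap.range_eq_top.mpr (LinearMap.surjective_rangeRestrict _))
  obtain ⟨q, hq⟩ := (LinearMap.range (L : X →ₗ[ℝ] Y)).subtype.exists_leftInverse_of_injective
    (Submodule.ker_subtype _)
  refine ⟨g ∘ₗ q, fun M => ?_⟩
  have h1 : q (L M) = ⟨L M, ⟨M, rfl⟩⟩ :=
    LinearMap.congr_fun hq (⟨L M, ⟨M, rfl⟩⟩ : LinearMap.range (L : X →ₗ[ℝ] Y))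
  change L (g (q (L M))) = L M
  rw [h1]
  have h2 := LinearMap.congr_fun hg (⟨L M, ⟨M, rfl⟩⟩ : LinearMap.range (L : X →ₗ[ℝ] Y))
  exact congrArg Subtype.val h2

theorem sliced (hSL : StmtSL) : SlicedStatement := by
  classical
  intro d N K hd A hA C' hC'
  have hker : ∀ (w : Sp d → EuclideanSpace ℝ (Fin N)),
      (∀ (y : EuclideanSpace ℝ (Fin d)) (M : Fin d → EuclideanSpace ℝ (Fin N)),
        ∑ j, Matrix.toEuclideanLin (A j) (M j) = 0 → inner ℝ (w y) (∑ j, y j • M j) = 0) →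
      ∀ M : Sp d →L[ℝ] EuclideanSpace ℝ (Fin N), LA A M = 0 → ∀ y, ⟪w y, M y⟫_ℝ = 0 := by
    intro w hw M hM y
    rw [LA_apply] at hM
    rw [clm_eq_sum M y]
    exact hw y (fun j => M (EuclideanSpace.single j 1)) hM
  choose w hwa hws hwne using hA
  -- the values span
  set T : Set (EuclideanSpace ℝ (Fin N)) :=
    {z | ∃ (v : EuclideanSpace ℝ (Fin N)) (hv : v ≠ 0) (y : Sp d), w v hv y = z} with hT
  have hTspan : Submodule.span ℝ T = ⊤ := by
    rw [← Submodule.orthogonal_eq_bot_iff, Submodule.eq_bot_iff]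
    intro v hv
    by_contra hv0
    obtain ⟨y, hy⟩ := hwne v hv0
    exact hy ((Submodule.mem_orthogonal _ v).mp hv _ (Submodule.subset_span ⟨v, hv0, y, rfl⟩))
  obtain ⟨S, hS, hS'⟩ := (Submodule.fg_span_iff_fg_span_finset_subset T).mp
    (IsNoetherian.noetherian (Submodule.span ℝ T))
  choose v hv0 y hvy using fun s : S => hS s.2
  set W : S → Sp d → EuclideanSpace ℝ (Fin N) := fun s => w (v s) (hv0 s) with hW
  have hWspan : Submodule.span ℝ {z | ∃ i y, W i y = z} = ⊤ := by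
    rw [eq_top_iff, ← hTspan, hS']
    refine Submodule.span_mono ?_
    intro s hs
    exact ⟨⟨s, hs⟩, y ⟨s, hs⟩, hvy ⟨s, hs⟩⟩
  have hWa : ∀ i, AnalyticOnNhd ℝ (W i) univ := fun i => hwa _ _
  obtain ⟨C, hC, h⟩ := hSL d hd (EuclideanSpace ℝ (Fin N)) S W hWa hWspan C' hC'
  -- bound of the slicing fields on the unit ball
  obtain ⟨B, hB0, hB⟩ : ∃ B : ℝ, 0 ≤ B ∧ ∀ (i : S), ∀ z ∈ closedBall (0 : Sp d) 1,
      ‖W i z‖ ≤ B := by
    have h1 : ∀ i : S, ∃ B : ℝ, ∀ z ∈ closedBall (0 : Sp d) 1, ‖W i z‖ ≤ B := fun i =>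
      (isCompact_closedBall (0 : Sp d) 1).exists_bound_of_continuousOn
        ((hWa i).continuousOn.mono (subset_univ _))
    choose B hB using h1
    refine ⟨∑ i, |B i|, Finset.sum_nonneg fun _ _ => abs_nonneg _, fun i z hz => ?_⟩
    exact (hB i z hz).trans ((le_abs_self _).trans
      (Finset.single_le_sum (f := fun i => |B i|) (fun _ _ => abs_nonneg _) (Finset.mem_univ i)))
  obtain ⟨P, hP⟩ := exists_pseudo (LA A)
  set P' : EuclideanSpace ℝ (Fin K) →L[ℝ] (Sp d →L[ℝ] EuclideanSpace ℝ (Fin N)) :=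
    LinearMap.toContinuousLinearMap P with hP'
  have hkey : ∀ (M : Sp d →L[ℝ] EuclideanSpace ℝ (Fin N)) (i : S),
      ∀ z ∈ closedBall (0 : Sp d) 1, |⟪W i z, M z⟫_ℝ| ≤ (B * ‖P'‖ + 1) * ‖LA A M‖ := by
    intro M i z hz
    have h1 : LA A (M - P' (LA A M)) = 0 := by
      rw [map_sub, sub_eq_zero]
      exact (hP M).symm
    have h2 := hker (W i) (hws _ _) _ h1 z
    have h3 : (M - P' (LA A M)) z = M z - (P' (LA A M)) z := rfl
    rw [h3, inner_sub_right, sub_eq_zero] at h2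
    rw [h2]
    refine (abs_real_inner_le_norm _ _).trans ?_
    have h4 : ‖(P' (LA A M)) z‖ ≤ ‖P'‖ * ‖LA A M‖ := by
      refine ((P' (LA A M)).le_opNorm z).trans ?_
      have h5 : ‖z‖ ≤ 1 := by simpa using hz
      calc ‖P' (LA A M)‖ * ‖z‖ ≤ ‖P' (LA A M)‖ * 1 :=
            mul_le_mul_of_nonneg_left h5 (norm_nonneg _)
        _ ≤ ‖P'‖ * ‖LA A M‖ := by rw [mul_one]; exact P'.le_opNorm _
    calc ‖W i z‖ * ‖(P' (LA A M)) z‖ ≤ B * (‖P'‖ * ‖LA A M‖) :=
          mul_le_mul (hB i z hz) h4 (norm_nonneg _) hB0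
      _ ≤ (B * ‖P'‖ + 1) * ‖LA A M‖ := by
          have := norm_nonneg (LA A M)
          nlinarith
  set B' : ℝ := B * ‖P'‖ + 1 with hB'
  have hB'pos : 0 < B' := by positivity
  refine ⟨C * B', by positivity, fun μ hμ hgr u hu hus => ?_⟩
  have h1 := h μ hμ hgr u ⟨hu, hus⟩
  have h2 : ∀ x, (⨆ i, ⨆ z ∈ closedBall (0 : Sp d) 1, ‖⟪W i z, fderiv ℝ u x z⟫_ℝ‖ₑ) ≤
      ENNReal.ofReal B' * ‖∑ j : Fin d, Matrix.toEuclideanLin (A j)
            (fderiv ℝ u x (EuclideanSpace.single j 1))‖ₑ := by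
    intro x
    refine iSup_le fun i => iSup₂_le fun z hz => ?_
    rw [← LA_apply, ← ofReal_norm, ← ofReal_norm, ← ENNReal.ofReal_mul hB'pos.le]
    refine ENNReal.ofReal_le_ofReal ?_
    rw [Real.norm_eq_abs]
    exact hkey _ i z hz
  calc ∫⁻ x, ‖u x‖ₑ ∂μ ≤ ENNReal.ofReal C *
        ∫⁻ x, ⨆ i, ⨆ z ∈ closedBall (0 : Sp d) 1, ‖⟪W i z, fderiv ℝ u x z⟫_ℝ‖ₑ := h1
    _ ≤ ENNReal.ofReal C * ∫⁻ x, ENNReal.ofReal B' * ‖∑ j : Fin d,
          Matrix.toEuclideanLin (A j) (fderiv ℝ u x (EuclideanSpace.single j 1))‖ₑ :=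
      mul_le_mul_right (lintegral_mono h2) _
    _ = _ := by
      rw [lintegral_const_mul' _ _ ENNReal.ofReal_ne_top, ← mul_assoc,
        ENNReal.ofReal_mul hC.le]

end

end TrI
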